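import Pool.Agent.K9h92.BV.Lln

set_option autoImplicit false

/-!
Probabilities of deviations for the symmetric chain and, by comparison, for the asymmetric chain.
-/

open ENNReal Filter Topology

namespace Pool.Agent.K9h92.BV

variable {a : ℤ → ℝ}

lemma W_le (ha : Jump a) (n : ℕ) : W a n ∅ ≤ ENNReal.ofReal (n * (1 / m1 a)) := by
  have h := Ex_Cr ha 0 n w0
  rw [show w0 0 = ∅ from rfl] at h
  rw [← h]
  refine (Ex_mono (G := fun _ => ENNReal.ofReal (n * (1 / m1 a)))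
    (fun w => ENNReal.ofReal_le_ofReal (Cr_le ha 0 n w)) w0).trans ?_
  rw [Ex_const ha le_rfl one_pos]

lemma V_le (ha : Jump a) (n : ℕ) : V a n ∅ ≤ ENNReal.ofReal (n * (1 / m1 a)) ^ 2 := by
  have h := Ex_Cr_sq ha 0 n w0
  rw [show w0 0 = ∅ from rfl] at h
  rw [← h]
  refine (Ex_mono (G := fun _ => ENNReal.ofReal (n * (1 / m1 a)) ^ 2)
    (fun w => by gcongr; exact Cr_le ha 0 n w) w0).trans ?_
  rw [Ex_const ha le_rfl one_pos]

lemma W_fin (ha : Jump a) (n : ℕ) : W a n ∅ ≠ ∞ :=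
  ne_top_of_le_ne_top ENNReal.ofReal_ne_top (W_le ha n)

lemma V_fin (ha : Jump a) (n : ℕ) : V a n ∅ ≠ ∞ :=
  ne_top_of_le_ne_top (ENNReal.pow_ne_top ENNReal.ofReal_ne_top) (V_le ha n)

lemma fI_empty : fI ∅ = 0 := by unfold fI; rw [inv_empty, ENNReal.ofReal_zero]

lemma W_real (ha : Jump a) (n : ℕ) :
    (Fn a n).toReal + n / 2 = s2 a / 2 * (W a n ∅).toReal := by
  have h := W_eq ha n ∅
  rw [fI_empty, zero_add, show (Q a 0)^[n] fI ∅ = Fn a n from rfl] at h
  have h2 := congrArg ENNReal.toReal h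
  rw [ENNReal.toReal_add (Fn_finite ha n) ENNReal.ofReal_ne_top, ENNReal.toReal_mul,
    ENNReal.toReal_ofReal (by positivity), ENNReal.toReal_ofReal (by have := s2_pos ha; positivity)]
    at h2
  exact h2

lemma V_real (ha : Jump a) (n : ℕ) :
    s2 a / 2 * (V a n ∅).toReal ≤ n * (s2 a / 2 * (1 / m1 a) ^ 2) +
      n * (2 * (1 / m1 a) * (Fn a n).toReal) + ∑ m ∈ Finset.range n, (W a m ∅).toReal := by
  have h := V_bound ha n ∅
  have hs := s2_pos ha
  have hm := m1_pos ha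
  have f1 : (n:ℝ≥0∞) * (ENNReal.ofReal (s2 a / 2) * ENNReal.ofReal (1 / m1 a) ^ 2) ≠ ∞ :=
    ENNReal.mul_ne_top (by simp) (ENNReal.mul_ne_top (by simp) (ENNReal.pow_ne_top (by simp)))
  have f2 : (n:ℝ≥0∞) * (2 * ENNReal.ofReal (1 / m1 a) * Fn a n) ≠ ∞ :=
    ENNReal.mul_ne_top (by simp) (ENNReal.mul_ne_top (ENNReal.mul_ne_top (by simp) (by simp))
      (Fn_finite ha n))
  have f3 : ∑ m ∈ Finset.range n, W a m ∅ ≠ ∞ := ENNReal.sum_ne_top.mpr fun m _ => W_fin ha m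
  have h2 := ENNReal.toReal_mono (ENNReal.add_ne_top.mpr ⟨ENNReal.add_ne_top.mpr ⟨f1, f2⟩, f3⟩) h
  rw [ENNReal.toReal_add (ENNReal.add_ne_top.mpr ⟨f1, f2⟩) f3, ENNReal.toReal_add f1 f2,
    ENNReal.toReal_sum (fun m _ => W_fin ha m)] at h2
  simp only [ENNReal.toReal_mul, ENNReal.toReal_pow, ENNReal.toReal_natCast,
    ENNReal.toReal_ofNat] at h2
  rw [ENNReal.toReal_ofReal (by positivity), ENNReal.toReal_ofReal (by positivity)] at h2
  exact h2

/-- mean square deviation of the clock -/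
noncomputable def Sq (a : ℤ → ℝ) (n : ℕ) : ℝ≥0∞ :=
  Ex a 0 0 n (fun w => ENNReal.ofReal ((Cr a 0 n w - n / s2 a) ^ 2)) w0

lemma Sq_eq (ha : Jump a) (n : ℕ) :
    Sq a n + ENNReal.ofReal (2 * (n / s2 a)) * W a n ∅ =
      V a n ∅ + ENNReal.ofReal ((n / s2 a) ^ 2) := by
  have h1 := Ex_Cr ha 0 n w0
  have h2 := Ex_Cr_sq ha 0 n w0
  rw [show w0 0 = ∅ from rfl] at h1 h2
  have hb : 0 ≤ (n:ℝ) / s2 a := div_nonneg (by positivity) (s2_pos ha).le
  unfold Sq
  rw [← h1, ← h2, ← congrFun (Ex_smul 0 n _ _) w0]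
  have e3 : ENNReal.ofReal ((n / s2 a) ^ 2) =
      Ex a 0 0 n (fun _ => ENNReal.ofReal ((n / s2 a) ^ 2)) w0 := by
    rw [Ex_const ha le_rfl one_pos]
  rw [e3, ← Pi.add_apply, ← Pi.add_apply, ← Ex_add, ← Ex_add]
  congr 1
  funext w
  simp only [Pi.add_apply]
  have hC := Cr_nonneg ha 0 n w
  rw [← ENNReal.ofReal_pow hC, ← ENNReal.ofReal_mul (by positivity),
    ← ENNReal.ofReal_add (by positivity) (by positivity),
    ← ENNReal.ofReal_add (by positivity) (by positivity)]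
  congr 1
  ring

lemma Sq_fin (ha : Jump a) (n : ℕ) : Sq a n ≠ ∞ := by
  have h := Sq_eq ha n
  have h2 : V a n ∅ + ENNReal.ofReal ((n / s2 a) ^ 2) ≠ ∞ :=
    ENNReal.add_ne_top.mpr ⟨V_fin ha n, ENNReal.ofReal_ne_top⟩
  rw [← h] at h2
  exact (ENNReal.add_ne_top.mp h2).1

lemma Sq_real (ha : Jump a) (n : ℕ) :
    (Sq a n).toReal ≤ n * (1 / m1 a) ^ 2 + (2 / s2 a) * (n * (2 * (1 / m1 a) * (Fn a n).toReal)) +
      (2 / s2 a) ^ 2 * ∑ m ∈ Finset.range n, (Fn a m).toReal := by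
  have hs := s2_pos ha
  have hm := m1_pos ha
  have h := Sq_eq ha n
  have h2 := congrArg ENNReal.toReal h
  rw [ENNReal.toReal_add (Sq_fin ha n) (ENNReal.mul_ne_top ENNReal.ofReal_ne_top (W_fin ha n)),
    ENNReal.toReal_add (V_fin ha n) ENNReal.ofReal_ne_top, ENNReal.toReal_mul,
    ENNReal.toReal_ofReal (by positivity), ENNReal.toReal_ofReal (by positivity)] at h2
  have hV := V_real ha n
  have hW : ∀ m, (W a m ∅).toReal = 2 / s2 a * ((Fn a m).toReal + m / 2) := by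
    intro m
    rw [W_real ha m]; field_simp
  have hsum : ∑ m ∈ Finset.range n, (W a m ∅).toReal ≤
      2 / s2 a * (∑ m ∈ Finset.range n, (Fn a m).toReal + (n:ℝ)^2 / 4) := by
    rw [Finset.sum_congr rfl (fun m _ => hW m), ← Finset.mul_sum, Finset.sum_add_distrib]
    apply mul_le_mul_of_nonneg_left _ (by positivity)
    have hg : ∀ n : ℕ, ∑ i ∈ Finset.range n, (i:ℝ) / 2 ≤ (n:ℝ)^2 / 4 := by
      intro n
      induction n with
      | zero => simp
      | succ n ih => rw [Finset.sum_range_succ]; push_cast; linarith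
    linarith [hg n]
  rw [hW n] at h2
  have hV2 : (V a n ∅).toReal ≤ (2 / s2 a) * (n * (s2 a / 2 * (1 / m1 a) ^ 2) +
      n * (2 * (1 / m1 a) * (Fn a n).toReal) +
      2 / s2 a * (∑ m ∈ Finset.range n, (Fn a m).toReal + (n:ℝ)^2 / 4)) := by
    have e : (V a n ∅).toReal = (2 / s2 a) * (s2 a / 2 * (V a n ∅).toReal) := by field_simp
    rw [e]
    apply mul_le_mul_of_nonneg_left _ (by positivity)
    linarith
  have hF : 0 ≤ (Fn a n).toReal := ENNReal.toReal_nonneg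
  have e1 : (Sq a n).toReal = (V a n ∅).toReal + (n / s2 a) ^ 2 -
      2 * (n / s2 a) * (2 / s2 a * ((Fn a n).toReal + n / 2)) := by linarith
  have h3 : 0 ≤ 2 * (n / s2 a) * (2 / s2 a * (Fn a n).toReal) := by positivity
  have e2 : 2 * (n / s2 a) * (2 / s2 a * ((Fn a n).toReal + n / 2)) =
      2 * (n / s2 a) * (2 / s2 a * (Fn a n).toReal) + 2 * (n / s2 a) ^ 2 := by
    field_simp
  have e3 : (2 / s2 a) * (n * (s2 a / 2 * (1 / m1 a) ^ 2) +
      n * (2 * (1 / m1 a) * (Fn a n).toReal) +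
      2 / s2 a * (∑ m ∈ Finset.range n, (Fn a m).toReal + (n:ℝ)^2 / 4)) =
      n * (1 / m1 a) ^ 2 + (2 / s2 a) * (n * (2 * (1 / m1 a) * (Fn a n).toReal)) +
      (2 / s2 a) ^ 2 * ∑ m ∈ Finset.range n, (Fn a m).toReal + (n / s2 a) ^ 2 := by
    field_simp
    ring
  rw [e1, e2]
  rw [e3] at hV2
  linarith

lemma Sq_small (ha : Jump a) {η : ℝ} (hη : 0 < η) :
    ∃ K : ℝ, 0 ≤ K ∧ ∀ n : ℕ, (Sq a n).toReal ≤ η * n ^ 2 + K * n := by
  have hs := s2_pos ha
  have hm := m1_pos ha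
  set A : ℝ := (2 / s2 a) * (2 * (1 / m1 a)) + (2 / s2 a) ^ 2 with hA
  have hA0 : 0 < A := by positivity
  obtain ⟨K, hK, hF⟩ := Fn_small ha (div_pos hη hA0)
  refine ⟨(1 / m1 a) ^ 2 + A * K, by positivity, fun n => ?_⟩
  have h1 := Sq_real ha n
  have h2 := hF n
  have h3 : ∑ m ∈ Finset.range n, (Fn a m).toReal ≤ n * (η / A * n + K) := by
    calc ∑ m ∈ Finset.range n, (Fn a m).toReal ≤ ∑ m ∈ Finset.range n, (η / A * n + K) := by
          apply Finset.sum_le_sum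
          intro m hmn
          rw [Finset.mem_range] at hmn
          refine (hF m).trans ?_
          have : (m:ℝ) ≤ n := by exact_mod_cast hmn.le
          have := mul_le_mul_of_nonneg_left this (div_pos hη hA0).le
          linarith
      _ = _ := by rw [Finset.sum_const, Finset.card_range, nsmul_eq_mul]
  calc (Sq a n).toReal ≤ n * (1 / m1 a) ^ 2 +
        (2 / s2 a) * (n * (2 * (1 / m1 a) * (Fn a n).toReal)) +
        (2 / s2 a) ^ 2 * ∑ m ∈ Finset.range n, (Fn a m).toReal := h1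
    _ ≤ n * (1 / m1 a) ^ 2 + (2 / s2 a) * (n * (2 * (1 / m1 a) * (η / A * n + K))) +
        (2 / s2 a) ^ 2 * (n * (η / A * n + K)) := by gcongr
    _ = n * (1 / m1 a) ^ 2 + A * (n * (η / A * n + K)) := by rw [hA]; ring
    _ = η * n ^ 2 + ((1 / m1 a) ^ 2 + A * K) * n := by
        field_simp
        ring

variable {κ : ℝ}

lemma grid {T : ℕ → ℝ} (hT : Monotone T) {s θ : ℝ} (hs : 0 ≤ s) {h : ℕ} (hh : 0 < h)
    (hsh : s * h ≤ θ / 2) {m : ℕ} (hm : θ ≤ |T m - s * m|) :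
    ∃ i, i ≤ m / h + 1 ∧ θ / 2 ≤ |T (i * h) - s * ((i * h : ℕ) : ℝ)| := by
  have h1 : m / h * h ≤ m := Nat.div_mul_le_self m h
  have h2 : m ≤ (m / h + 1) * h := by
    have h3 := Nat.div_add_mod m h
    have h4 := Nat.mod_lt m hh
    rw [add_mul, one_mul, mul_comm (m / h)]
    omega
  rcases le_total 0 (T m - s * m) with hc | hc
  · refine ⟨m / h + 1, le_rfl, ?_⟩
    rw [abs_of_nonneg hc] at hm
    refine le_trans ?_ (le_abs_self _)
    have h3 := hT h2
    have h4 : (((m / h + 1) * h : ℕ) : ℝ) ≤ m + h := by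
      have : (m / h + 1) * h ≤ m + h := by rw [add_mul, one_mul]; omega
      exact_mod_cast this
    have h5 := mul_le_mul_of_nonneg_left h4 hs
    linarith
  · refine ⟨m / h, Nat.le_succ _, ?_⟩
    rw [abs_of_nonpos hc] at hm
    refine le_trans ?_ (neg_le_abs _)
    have h3 := hT h1
    have h4 : (m:ℝ) ≤ ((m / h * h : ℕ) : ℝ) + h := by
      have : m ≤ m / h * h + h := by rw [add_mul, one_mul] at h2; exact h2
      exact_mod_cast this
    have h5 := mul_le_mul_of_nonneg_left h4 hs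
    linarith

lemma PC (ha : Jump a) (m : ℕ) {θ : ℝ} (hθ : 0 < θ) :
    Ex a 0 0 m (one fun w => θ ≤ |Cr a 0 m w - m / s2 a|) w0 ≤
      ENNReal.ofReal ((Sq a m).toReal / θ ^ 2) := by
  have h := Ex_markov (a := a) (κ := 0) 0 m (ENNReal.ofReal (θ ^ 2))
    (fun w => ENNReal.ofReal ((Cr a 0 m w - m / s2 a) ^ 2)) w0
  have e : (one fun w => ENNReal.ofReal (θ ^ 2) ≤ ENNReal.ofReal ((Cr a 0 m w - m / s2 a) ^ 2)) =
      (one fun w => θ ≤ |Cr a 0 m w - m / s2 a|) := by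
    unfold one
    funext w
    congr 1
    beta_reduce
    rw [ENNReal.ofReal_le_ofReal_iff (sq_nonneg _), eq_iff_iff, ← sq_abs (Cr a 0 m w - m / s2 a)]
    exact pow_le_pow_iff_left₀ hθ.le (abs_nonneg _) (by norm_num)
  rw [e] at h
  have h2 : ENNReal.ofReal (θ ^ 2) ≠ 0 := by
    rw [Ne, ENNReal.ofReal_eq_zero, not_le]; positivity
  rw [ENNReal.ofReal_div_of_pos (by positivity), ENNReal.ofReal_toReal (Sq_fin ha m),
    ENNReal.le_div_iff_mul_le (Or.inl h2) (Or.inl ENNReal.ofReal_ne_top), mul_comm]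
  exact h

lemma Cr_dep' (k n : ℕ) (w w' : Pth) (h : ∀ i < k + n, w i = w' i) : Cr a k n w = Cr a k n w' := by
  unfold Cr
  apply Finset.sum_congr rfl
  intro i hi
  rw [Finset.mem_range] at hi
  rw [h (k + i) (by omega)]

/-- law of large numbers for the clock, uniformly in time -/
lemma clock_lln (ha : Jump a) {δ η : ℝ} (hδ : 0 < δ) (hη : 0 < η) : ∃ n0 : ℕ, ∀ n ≥ n0,
    Ex a 0 0 n (one fun w => ∃ m ≤ n, δ * n ≤ |Cr a 0 m w - m / s2 a|) w0 ≤ ENNReal.ofReal η := by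
  have hs := s2_pos ha
  set s : ℝ := 1 / s2 a with hsdef
  have hs0 : 0 < s := by positivity
  obtain ⟨G, hG⟩ := exists_nat_gt (4 * s / δ)
  have hG0 : 0 < G := by
    rcases Nat.eq_zero_or_pos G with h | h
    · subst h
      have : 0 < 4 * s / δ := by positivity
      norm_num at hG; linarith
    · exact h
  have hGr : (0:ℝ) < G := by exact_mod_cast hG0
  -- the small constant
  set η1 : ℝ := η * δ ^ 2 / (64 * (G + 1)) with hη1
  have hη1' : 0 < η1 := by positivity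
  obtain ⟨K, hK, hSq⟩ := Sq_small ha hη1'
  obtain ⟨n1, hn1⟩ := exists_nat_gt (4 * s / δ + 32 * K * (G + 1) / (η * δ ^ 2))
  refine ⟨max n1 (max G 1), fun n hn => ?_⟩
  have hnn1 : n1 ≤ n := le_trans (le_max_left _ _) hn
  have hnG : G ≤ n := le_trans (le_trans (le_max_left _ _) (le_max_right _ _)) hn
  have hn1' : 1 ≤ n := le_trans (le_trans (le_max_right _ _) (le_max_right _ _)) hn
  have hnr : (0:ℝ) < n := by exact_mod_cast hn1'
  have hnb : 4 * s / δ + 32 * K * (G + 1) / (η * δ ^ 2) < n := by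
    refine hn1.trans_le ?_
    exact_mod_cast hnn1
  have hnb1 : 4 * s / δ < n := by
    have : 0 ≤ 32 * K * (G + 1) / (η * δ ^ 2) := by positivity
    linarith
  have hnb2 : 32 * K * (G + 1) / (η * δ ^ 2) < n := by
    have : 0 ≤ 4 * s / δ := by positivity
    linarith
  set h : ℕ := n / G + 1 with hh
  have hh0 : 0 < h := Nat.succ_pos _
  have hGh : n < G * h := by
    rw [hh, mul_add, mul_one]
    have := Nat.div_add_mod n G
    have := Nat.mod_lt n hG0
    omega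
  have hGh2 : G * h ≤ n + G := by
    rw [hh, mul_add, mul_one]
    have := Nat.mul_div_le n G
    omega
  have hsh : s * h ≤ δ * n / 2 := by
    have h1 : (h:ℝ) ≤ n / G + 1 := by
      rw [hh]; push_cast
      have := Nat.cast_div_le (α := ℝ) (m := n) (n := G)
      linarith
    have h2 : s * (n / G) ≤ δ * n / 4 := by
      rw [div_lt_iff₀ hδ] at hG
      rw [mul_div_assoc', div_le_iff₀ hGr]
      nlinarith
    have h3 : s ≤ δ * n / 4 := by
      rw [div_lt_iff₀ hδ] at hnb1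
      linarith
    calc s * h ≤ s * (n / G + 1) := mul_le_mul_of_nonneg_left h1 hs0.le
      _ = s * (n / G) + s := by ring
      _ ≤ _ := by linarith
  -- the event is contained in a union over the grid
  have hsub : ∀ w, one (fun w => ∃ m ≤ n, δ * n ≤ |Cr a 0 m w - m / s2 a|) w ≤
      ∑ i ∈ Finset.range (G + 1), one (fun w => δ * n / 2 ≤
        |Cr a 0 (i * h) w - ((i * h : ℕ) : ℝ) / s2 a|) w := by
    intro w
    refine le_trans (one_mono (B := fun w => ∃ i ∈ Finset.range (G + 1), δ * n / 2 ≤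
        |Cr a 0 (i * h) w - ((i * h : ℕ) : ℝ) / s2 a|) ?_ w) (one_exists_le _ _ w)
    rintro w ⟨m, hmn, hm⟩
    have e : ∀ m : ℕ, (m:ℝ) / s2 a = s * m := by intro m; rw [hsdef]; ring
    rw [e] at hm
    obtain ⟨i, hi, hi2⟩ := grid (Cr_mono ha 0 w) hs0.le hh0 hsh hm
    refine ⟨i, ?_, ?_⟩
    · rw [Finset.mem_range]
      have : m / h < G := by
        rw [Nat.div_lt_iff_lt_mul hh0]; omega
      omega
    · rw [e]; exact hi2
  have hdep : Dep n (one fun w => ∃ m ≤ n, δ * n ≤ |Cr a 0 m w - m / s2 a|) := by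
    apply Dep_one_of
    intro w w' hw
    constructor
    · rintro ⟨m, hm, h⟩
      refine ⟨m, hm, ?_⟩
      rwa [Cr_dep' 0 m w' w (fun i hi => (hw i (by omega)).symm)]
    · rintro ⟨m, hm, h⟩
      refine ⟨m, hm, ?_⟩
      rwa [Cr_dep' 0 m w w' (fun i hi => (hw i (by omega)))]
  have e0 : Ex a 0 0 n (one fun w => ∃ m ≤ n, δ * n ≤ |Cr a 0 m w - m / s2 a|) w0 =
      Ex a 0 0 (n + G) (one fun w => ∃ m ≤ n, δ * n ≤ |Cr a 0 m w - m / s2 a|) w0 := by
    rw [Ex_trunc ha le_rfl one_pos (by simpa using hdep)]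
  rw [e0]
  have hterm : ∀ i ∈ Finset.range (G + 1), Ex a 0 0 (n + G) (one (fun w => δ * n / 2 ≤
        |Cr a 0 (i * h) w - ((i * h : ℕ) : ℝ) / s2 a|)) w0 ≤ ENNReal.ofReal (η / (G + 1)) := by
    intro i hi
    rw [Finset.mem_range] at hi
    have hile : i * h ≤ n + G := le_trans (Nat.mul_le_mul_right h (by omega)) hGh2
    obtain ⟨l, hl⟩ := Nat.exists_eq_add_of_le hile
    have hd : Dep (0 + i * h) (one (fun w => δ * n / 2 ≤
        |Cr a 0 (i * h) w - ((i * h : ℕ) : ℝ) / s2 a|)) := by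
      apply Dep_one_of
      intro w w' hw
      rw [Cr_dep' 0 (i * h) w w' (fun i hi => (hw i (by omega)))]
    rw [hl, Ex_trunc ha le_rfl one_pos hd]
    refine (PC ha (i * h) (by positivity)).trans ?_
    apply ENNReal.ofReal_le_ofReal
    have h1 := hSq (i * h)
    have h2 : ((i * h : ℕ) : ℝ) ≤ 2 * n := by
      have : i * h ≤ 2 * n := by omega
      exact_mod_cast this
    have h3 : 0 ≤ ((i * h : ℕ) : ℝ) := by positivity
    rw [div_le_iff₀ (by positivity)]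
    have h4 : (Sq a (i * h)).toReal ≤ η1 * (2 * n) ^ 2 + K * (2 * n) := by
      refine h1.trans ?_
      gcongr
    have h5 : η1 * (2 * n) ^ 2 = η / (G + 1) * (δ * n / 2) ^ 2 / 4 := by
      rw [hη1]; field_simp; ring
    have h6 : K * (2 * n) ≤ η / (G + 1) * (δ * n / 2) ^ 2 / 4 := by
      rw [div_lt_iff₀ (by positivity)] at hnb2
      rw [show η / (G + 1) * (δ * n / 2) ^ 2 / 4 = (η * δ ^ 2 * n * n) / (16 * (G + 1)) by
        field_simp; ring, le_div_iff₀ (by positivity)]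
      nlinarith
    have h7 : 0 ≤ η / (G + 1) * (δ * n / 2) ^ 2 := by positivity
    linarith
  calc Ex a 0 0 (n + G) (one fun w => ∃ m ≤ n, δ * n ≤ |Cr a 0 m w - m / s2 a|) w0
      ≤ Ex a 0 0 (n + G) (fun w => ∑ i ∈ Finset.range (G + 1), one (fun w => δ * n / 2 ≤
        |Cr a 0 (i * h) w - ((i * h : ℕ) : ℝ) / s2 a|) w) w0 := Ex_mono hsub w0
    _ = ∑ i ∈ Finset.range (G + 1), Ex a 0 0 (n + G) (one (fun w => δ * n / 2 ≤
        |Cr a 0 (i * h) w - ((i * h : ℕ) : ℝ) / s2 a|)) w0 :=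
        Ex_sum (a := a) (κ := 0) (Finset.range (G + 1)) 0 (n + G)
          (fun i => one (fun w => δ * n / 2 ≤ |Cr a 0 (i * h) w - ((i * h : ℕ) : ℝ) / s2 a|)) w0
    _ ≤ ∑ i ∈ Finset.range (G + 1), ENNReal.ofReal (η / (G + 1)) := Finset.sum_le_sum hterm
    _ = ENNReal.ofReal η := by
        rw [Finset.sum_const, Finset.card_range, nsmul_eq_mul, ← ENNReal.ofReal_natCast,
          ← ENNReal.ofReal_mul (by positivity)]
        congr 1; push_cast; field_simp

/-- the martingale of the number of inversions -/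
noncomputable def Kr (a : ℤ → ℝ) (m : ℕ) (w : Pth) : ℝ :=
  inv (w m) - s2 a / 2 * Cr a 0 m w + m / 2

lemma Kr_dep (m : ℕ) (w w' : Pth) (h : ∀ i ≤ m, w i = w' i) : Kr a m w = Kr a m w' := by
  unfold Kr
  rw [h m le_rfl, Cr_dep' 0 m w w' (fun i hi => h i (by omega))]

lemma Kr_submart (ha : Jump a) (m : ℕ) (w : Pth) :
    ENNReal.ofReal |Kr a m w| ≤ Av a 0 m (fun w => ENNReal.ofReal |Kr a (m + 1) w|) w := by
  obtain ⟨hs, _, hd⟩ := inv_drift ha (w m)
  have h := Q_abs ha inv (w m) (-(s2 a / 2) * (Cr a 0 m w + rr a (w m)) + (m + 1) / 2)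
    (inv_flipAt (w m)) hs
  have e : inv (w m) + (-(s2 a / 2) * (Cr a 0 m w + rr a (w m)) + (m + 1) / 2) +
      rr a (w m) * ∑' j, vrate a (w m) j * wt pos1 (w m) j = Kr a m w := by
    rw [hd]
    unfold Kr rr
    have := (tot_pos ha (w m)).ne'
    field_simp
    ring
  rw [e] at h
  refine h.trans (le_of_eq ?_)
  unfold Av
  apply tsum_congr
  intro j
  congr 2
  unfold Kr
  rw [Function.update_self, Cr_succ', Function.update_of_ne (by omega),
    Cr_dep' 0 m (Function.update w (m + 1) (flipAt (w m) j)) w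
      (fun i hi => Function.update_of_ne (by omega) _ _), zero_add]
  congr 1
  push_cast
  ring

lemma Kr_mean (ha : Jump a) (n : ℕ) {θ : ℝ} (hθ : 0 < θ) :
    Ex a 0 0 n (fun w => ENNReal.ofReal |Kr a n w|) w0 ≤
      ENNReal.ofReal ((Fn a n).toReal + s2 a / 2 * (θ + (Sq a n).toReal / θ)) := by
  have hs := s2_pos ha
  have h1 : ∀ w, ENNReal.ofReal |Kr a n w| ≤ fI (w n) + (ENNReal.ofReal (s2 a / 2 * θ) +
      ENNReal.ofReal (s2 a / 2 / θ) * ENNReal.ofReal ((Cr a 0 n w - n / s2 a) ^ 2)) := by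
    intro w
    unfold fI
    rw [← ENNReal.ofReal_mul (by positivity), ← ENNReal.ofReal_add (by positivity) (by positivity),
      ← ENNReal.ofReal_add (inv_nonneg _) (by positivity)]
    apply ENNReal.ofReal_le_ofReal
    have e : Kr a n w = inv (w n) + (-(s2 a / 2) * (Cr a 0 n w - n / s2 a)) := by
      unfold Kr; field_simp; ring
    rw [e]
    refine (abs_add_le _ _).trans ?_
    rw [abs_of_nonneg (inv_nonneg _), abs_mul, abs_neg, abs_of_pos (by positivity : 0 < s2 a / 2)]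
    have h2 : |Cr a 0 n w - n / s2 a| ≤ θ + (Cr a 0 n w - n / s2 a) ^ 2 / θ := by
      rw [← sq_abs (Cr a 0 n w - n / s2 a)]
      set y := |Cr a 0 n w - n / s2 a| with hy
      rw [← sub_nonneg]
      have : θ + y ^ 2 / θ - y = ((θ - y / 2) ^ 2 + 3 / 4 * y ^ 2) / θ := by field_simp; ring
      rw [this]; positivity
    have h3 := mul_le_mul_of_nonneg_left h2 (by positivity : 0 ≤ s2 a / 2)
    have e2 : s2 a / 2 * θ + s2 a / 2 / θ * (Cr a 0 n w - n / s2 a) ^ 2 =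
      s2 a / 2 * (θ + (Cr a 0 n w - n / s2 a) ^ 2 / θ) := by ring
    rw [e2]
    linarith
  refine (Ex_mono h1 w0).trans ?_
  have e3 := congrFun (Ex_add (a := a) (κ := 0) 0 n (fun _ => ENNReal.ofReal (s2 a / 2 * θ))
    (fun w => ENNReal.ofReal (s2 a / 2 / θ) * ENNReal.ofReal ((Cr a 0 n w - n / s2 a) ^ 2))) w0
  rw [Pi.add_apply, Ex_const ha le_rfl one_pos, Ex_smul] at e3
  have e1 := congrFun (Ex_add (a := a) (κ := 0) 0 n (fun w => fI (w n))
    ((fun _ => ENNReal.ofReal (s2 a / 2 * θ)) + fun w => ENNReal.ofReal (s2 a / 2 / θ) *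
      ENNReal.ofReal ((Cr a 0 n w - n / s2 a) ^ 2))) w0
  rw [Pi.add_apply, e3, Ex_single (show n = 0 + n by ring) fI w0] at e1
  have e2 : Ex a 0 0 n (fun w => fI (w n) + (ENNReal.ofReal (s2 a / 2 * θ) +
      ENNReal.ofReal (s2 a / 2 / θ) * ENNReal.ofReal ((Cr a 0 n w - n / s2 a) ^ 2))) w0 =
      Fn a n + (ENNReal.ofReal (s2 a / 2 * θ) + ENNReal.ofReal (s2 a / 2 / θ) * Sq a n) := e1
  rw [e2]
  have hF : 0 ≤ (Fn a n).toReal := ENNReal.toReal_nonneg
  have hS : 0 ≤ (Sq a n).toReal := ENNReal.toReal_nonneg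
  rw [← ENNReal.ofReal_toReal (Sq_fin ha n), ← ENNReal.ofReal_toReal (Fn_finite ha n),
    ← ENNReal.ofReal_mul (by positivity), ← ENNReal.ofReal_add (by positivity) (by positivity),
    ← ENNReal.ofReal_add (by positivity) (by positivity)]
  apply ENNReal.ofReal_le_ofReal
  rw [ENNReal.toReal_ofReal hF, ENNReal.toReal_ofReal hS]
  apply le_of_eq
  ring

lemma Kr_small (ha : Jump a) {δ η : ℝ} (hδ : 0 < δ) (hη : 0 < η) : ∃ n0 : ℕ, ∀ n ≥ n0,
    Ex a 0 0 n (one fun w => ∃ m ≤ n, δ * n ≤ |Kr a m w|) w0 ≤ ENNReal.ofReal η := by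
  have hs := s2_pos ha
  set σ := s2 a / 2 with hσ
  have hσ0 : 0 < σ := by positivity
  set ρ : ℝ := δ * η / (2 * (1 + 2 * σ)) with hρ
  have hρ0 : 0 < ρ := by positivity
  obtain ⟨K1, hK1, hF⟩ := Fn_small ha hρ0
  obtain ⟨K2, hK2, hS⟩ := Sq_small ha (by positivity : 0 < ρ ^ 2)
  obtain ⟨n0, hn0⟩ := exists_nat_gt (2 * (K1 + σ * K2 / ρ) / (δ * η))
  refine ⟨max n0 1, fun n hn => ?_⟩
  have hn1 : 1 ≤ n := le_trans (le_max_right _ _) hn
  have hnr : (0:ℝ) < n := by exact_mod_cast hn1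
  have hnb : 2 * (K1 + σ * K2 / ρ) / (δ * η) < n := by
    refine hn0.trans_le ?_
    exact_mod_cast le_trans (le_max_left _ _) hn
  have hd := doob ha le_rfl one_pos (Y := fun m w => ENNReal.ofReal |Kr a m w|)
    (fun m w w' h => by simp only; rw [Kr_dep m w w' h]) (Kr_submart ha) (ENNReal.ofReal (δ * n)) 0 n w0
  have e : (one fun w => ∃ m, 0 ≤ m ∧ m ≤ 0 + n ∧ ENNReal.ofReal (δ * n) ≤
      ENNReal.ofReal |Kr a m w|) = (one fun w => ∃ m ≤ n, δ * n ≤ |Kr a m w|) := by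
    unfold one
    funext w
    congr 1
    rw [eq_iff_iff]
    constructor
    · rintro ⟨m, _, h2, h3⟩
      exact ⟨m, by omega, (ENNReal.ofReal_le_ofReal_iff (abs_nonneg _)).mp h3⟩
    · rintro ⟨m, h2, h3⟩
      exact ⟨m, Nat.zero_le _, by omega, ENNReal.ofReal_le_ofReal h3⟩
  rw [e, show 0 + n = n by ring] at hd
  have h1 := Kr_mean ha n (mul_pos hρ0 hnr)
  have h2 : ENNReal.ofReal (δ * n) ≠ 0 := by
    rw [Ne, ENNReal.ofReal_eq_zero, not_le]; positivity
  have h3 := hd.trans h1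
  rw [mul_comm, ← ENNReal.le_div_iff_mul_le (Or.inl h2) (Or.inl ENNReal.ofReal_ne_top),
    ← ENNReal.ofReal_div_of_pos (by positivity)] at h3
  refine h3.trans (ENNReal.ofReal_le_ofReal ?_)
  rw [div_le_iff₀ (by positivity)]
  have h4 := hF n
  have h5 := hS n
  have h6 : (Sq a n).toReal / (ρ * n) ≤ ρ * n + K2 / ρ := by
    rw [div_le_iff₀ (by positivity)]
    calc (Sq a n).toReal ≤ ρ ^ 2 * n ^ 2 + K2 * n := h5
      _ = (ρ * n + K2 / ρ) * (ρ * n) := by field_simp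
  rw [div_lt_iff₀ (by positivity)] at hnb
  calc (Fn a n).toReal + σ * (ρ * n + (Sq a n).toReal / (ρ * n))
      ≤ (ρ * n + K1) + σ * (ρ * n + (ρ * n + K2 / ρ)) := by gcongr
    _ = (1 + 2 * σ) * ρ * n + (K1 + σ * K2 / ρ) := by ring
    _ = δ * η / 2 * n + (K1 + σ * K2 / ρ) := by rw [hρ]; field_simp
    _ ≤ η * (δ * n) := by nlinarith

/-- the bad event -/
def Bad (a : ℤ → ℝ) (δ : ℝ) (n : ℕ) (w : Pth) : Prop :=
  ∃ m ≤ n, δ * n ≤ inv (w m) ∨ δ * n ≤ |Cr a 0 m w - m / s2 a|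

lemma bad_small0 (ha : Jump a) {δ η : ℝ} (hδ : 0 < δ) (hη : 0 < η) : ∃ n0 : ℕ, ∀ n ≥ n0,
    Ex a 0 0 n (one (Bad a δ n)) w0 ≤ ENNReal.ofReal η := by
  have hs := s2_pos ha
  set σ := s2 a / 2 with hσ
  have hσ0 : 0 < σ := by positivity
  set δ' := δ / (1 + σ) with hδ'
  have hδ0 : 0 < δ' := by positivity
  have hδle : δ' ≤ δ := by rw [hδ']; exact div_le_self hδ.le (by linarith)
  obtain ⟨n1, h1⟩ := clock_lln ha hδ0 (half_pos hη)
  obtain ⟨n2, h2⟩ := Kr_small ha hδ0 (half_pos hη)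
  refine ⟨max (max n1 n2) 1, fun n hn => ?_⟩
  have hn1 : n1 ≤ n := le_trans (le_trans (le_max_left _ _) (le_max_left _ _)) hn
  have hn2 : n2 ≤ n := le_trans (le_trans (le_max_right _ _) (le_max_left _ _)) hn
  have hnr : (0:ℝ) < n := by exact_mod_cast le_trans (le_max_right _ _) hn
  have hsub : ∀ w, one (Bad a δ n) w ≤ one (fun w => ∃ m ≤ n, δ' * n ≤ |Cr a 0 m w - m / s2 a|) w
      + one (fun w => ∃ m ≤ n, δ' * n ≤ |Kr a m w|) w := by
    intro w
    refine le_trans (one_mono ?_ w) (one_or_le _ _ w)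
    intro w hw
    by_contra hc
    push Not at hc
    obtain ⟨hc1, hc2⟩ := hc
    obtain ⟨m, hm, h⟩ := hw
    have c1 := hc1 m hm
    have c2 := hc2 m hm
    rcases h with h | h
    · have e : inv (w m) = Kr a m w + σ * (Cr a 0 m w - m / s2 a) := by
        unfold Kr; rw [hσ]; field_simp; ring
      have h3 : inv (w m) ≤ |Kr a m w| + σ * |Cr a 0 m w - m / s2 a| := by
        rw [e]
        have := le_abs_self (Kr a m w)
        have := mul_le_mul_of_nonneg_left (le_abs_self (Cr a 0 m w - m / s2 a)) hσ0.le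
        linarith
      have h4 : σ * |Cr a 0 m w - m / s2 a| ≤ σ * (δ' * n) := mul_le_mul_of_nonneg_left c1.le hσ0.le
      have h5 : δ' * n + σ * (δ' * n) = δ * n := by rw [hδ']; field_simp
      linarith
    · have : δ' * n ≤ δ * n := mul_le_mul_of_nonneg_right hδle hnr.le
      linarith
  refine (Ex_mono hsub w0).trans ?_
  have e := congrFun (Ex_add (a := a) (κ := 0) 0 n
    (one fun w => ∃ m ≤ n, δ' * n ≤ |Cr a 0 m w - m / s2 a|)
    (one fun w => ∃ m ≤ n, δ' * n ≤ |Kr a m w|)) w0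
  rw [Pi.add_apply] at e
  refine (le_of_eq e).trans ?_
  calc _ ≤ ENNReal.ofReal (η / 2) + ENNReal.ofReal (η / 2) := add_le_add (h1 n hn1) (h2 n hn2)
    _ = ENNReal.ofReal η := by
        rw [← ENNReal.ofReal_add (by positivity) (by positivity)]; congr 1; ring

/-- The bad event has a small probability for the asymmetric chain as well. -/
lemma bad_small (ha : Jump a) {δ η B : ℝ} (hδ : 0 < δ) (hη : 0 < η) : ∃ n0 : ℕ,
    ∀ n ≥ n0, ∀ κ : ℝ, 0 ≤ κ → κ ≤ 1 / 2 → κ ^ 2 * n ≤ B →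
    Ex a κ 0 n (one (Bad a δ n)) w0 ≤ ENNReal.ofReal η := by
  set c : ℝ := 2 * Real.exp B / η with hc
  have hc0 : 0 < c := by positivity
  obtain ⟨n0, h0⟩ := bad_small0 ha hδ (show 0 < η / (2 * c) by positivity)
  refine ⟨n0, fun n hn κ hκ0 hκ1 hκB => ?_⟩
  have hcE : ENNReal.ofReal c ≠ 0 := by
    rw [Ne, ENNReal.ofReal_eq_zero, not_le]; exact hc0
  refine (contig ha hκ0 hκ1 0 n (Bad a δ n) w0 hcE ENNReal.ofReal_ne_top).trans ?_
  have h1 : (1 + κ ^ 2) ^ n ≤ Real.exp B := by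
    calc (1 + κ ^ 2) ^ n ≤ (Real.exp (κ ^ 2)) ^ n := by
          apply pow_le_pow_left₀ (by positivity)
          have := Real.add_one_le_exp (κ ^ 2)
          linarith
      _ = Real.exp (κ ^ 2 * n) := by rw [← Real.exp_nat_mul]; congr 1; ring
      _ ≤ Real.exp B := Real.exp_le_exp.mpr hκB
  calc ENNReal.ofReal c * Ex a 0 0 n (one (Bad a δ n)) w0 +
        (ENNReal.ofReal c)⁻¹ * ENNReal.ofReal ((1 + κ ^ 2) ^ n)
      ≤ ENNReal.ofReal c * ENNReal.ofReal (η / (2 * c)) +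
        (ENNReal.ofReal c)⁻¹ * ENNReal.ofReal (Real.exp B) := by
        gcongr
        exact h0 n hn
    _ = ENNReal.ofReal η := by
        rw [← ENNReal.ofReal_inv_of_pos hc0, ← ENNReal.ofReal_mul hc0.le,
          ← ENNReal.ofReal_mul (by positivity), ← ENNReal.ofReal_add (by positivity) (by positivity)]
        congr 1
        rw [hc]
        have := (Real.exp_pos B).ne'
        field_simp
        norm_num

end Pool.Agent.K9h92.BV
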