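import Pool.Agent.K9h92.BV.Model
import Pool.Agent.K9h92.BV.Lln2

set_option autoImplicit false

/-!
The jump times: comparison with the clock of the chain.
-/

open ENNReal Filter Topology MeasureTheory ProbabilityTheory

namespace Pool.Agent.K9h92.BV

lemma expMeasure_one_eq : expMeasure 1 =
    (volume.restrict (Set.Ioi (0:ℝ))).withDensity fun x => ENNReal.ofReal (Real.exp (-x)) := by
  have h1 : expMeasure 1 = volume.withDensity (exponentialPDF 1) := rfl
  have h2 : exponentialPDF 1 =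
      Set.indicator (Set.Ici (0:ℝ)) (fun x => ENNReal.ofReal (Real.exp (-x))) := by
    funext x
    rw [exponentialPDF_eq]
    by_cases hx : 0 ≤ x
    · rw [if_pos hx, Set.indicator_of_mem (Set.mem_Ici.mpr hx)]; simp
    · rw [if_neg hx, Set.indicator_of_notMem (by simpa using hx)]; simp
  rw [h1, h2, withDensity_indicator measurableSet_Ici]
  congr 1
  exact Measure.restrict_congr_set Ioi_ae_eq_Ici.symm

lemma exp_moment (n : ℕ) : Integrable (fun x : ℝ => x ^ n) (expMeasure 1) ∧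
    ∫ x : ℝ, x ^ n ∂(expMeasure 1) = n.factorial := by
  have hm : Measurable fun x : ℝ => ENNReal.ofReal (Real.exp (-x)) := by fun_prop
  have hf : ∀ᵐ x ∂(volume.restrict (Set.Ioi (0:ℝ))), ENNReal.ofReal (Real.exp (-x)) < ∞ :=
    ae_of_all _ fun x => ENNReal.ofReal_lt_top
  have hG := Real.GammaIntegral_convergent (s := (n:ℝ) + 1) (by positivity)
  have e : ∀ x : ℝ, (ENNReal.ofReal (Real.exp (-x))).toReal • x ^ n =
      Real.exp (-x) * x ^ ((n:ℝ) + 1 - 1) := by
    intro x
    rw [ENNReal.toReal_ofReal (Real.exp_pos _).le, smul_eq_mul, add_sub_cancel_right,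
      Real.rpow_natCast]
  constructor
  · rw [expMeasure_one_eq, integrable_withDensity_iff_integrable_smul' hm hf]
    refine hG.congr (ae_of_all _ fun x => (e x).symm)
  · rw [expMeasure_one_eq, integral_withDensity_eq_integral_toReal_smul hm hf,
      ← Real.Gamma_nat_eq_factorial, Real.Gamma_eq_integral (by positivity)]
    exact integral_congr_ae (ae_of_all _ fun x => e x)

lemma exp_nonneg_ae : ∀ᵐ x ∂(expMeasure 1), 0 ≤ x := by
  rw [expMeasure_one_eq]
  have h : ∀ᵐ x ∂(volume.restrict (Set.Ioi (0:ℝ))), 0 ≤ x := by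
    filter_upwards [ae_restrict_mem measurableSet_Ioi] with x hx using le_of_lt hx
  exact (withDensity_absolutelyContinuous _ _).ae_le h

variable {a : ℤ → ℝ}

/-- normalised jump time -/
noncomputable def Tn {Ω : Type*} (a : ℤ → ℝ) (x : ℕ → Ω → Conf) (e : ℕ → Ω → ℝ) (n : ℕ) (ω : Ω) : ℝ :=
  ∑ i ∈ Finset.range n, e i ω * rr a (x i ω)

lemma jumpTime_ge {Ω : Type*} (ha : Jump a) {ε : ℝ} (h0 : 0 ≤ ε) (h1 : ε < 1) (x : ℕ → Ω → Conf)
    (e : ℕ → Ω → ℝ) (n : ℕ) (ω : Ω) (he : ∀ i, 0 ≤ e i ω) : Tn a x e n ω ≤ jumpTime a ε x e n ω := by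
  unfold jumpTime Tn
  apply Finset.sum_le_sum
  intro i _
  rw [div_eq_mul_one_div]
  apply mul_le_mul_of_nonneg_left _ (he i)
  unfold rr
  apply one_div_le_one_div_of_le (trate_pos ha h0 h1 _)
  rw [(trate_eq ha ε _).2]
  have h2 := mul_nonneg h0 (qd_nonneg ha (x i ω))
  have h3 := tot_pos ha (x i ω)
  nlinarith

lemma jumpTime_le {Ω : Type*} (ha : Jump a) {ε : ℝ} (h0 : 0 ≤ ε) (h1 : ε ≤ 1 / 2)
    (x : ℕ → Ω → Conf) (e : ℕ → Ω → ℝ) (n : ℕ) (ω : Ω) (he : ∀ i, 0 ≤ e i ω) :
    jumpTime a ε x e n ω ≤ (1 + 2 * ε) * Tn a x e n ω := by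
  unfold jumpTime Tn
  rw [Finset.mul_sum]
  apply Finset.sum_le_sum
  intro i _
  have h2 := qd_nonneg ha (x i ω)
  have h2' := qd_le_one ha (x i ω)
  have h3 := tot_pos ha (x i ω)
  have h4 : 0 < 1 - ε * qd a (x i ω) := one_sub_qd_pos ha h0 (by linarith) _
  rw [(trate_eq ha ε _).2, div_le_iff₀ (mul_pos h4 h3)]
  have h5 : (1 + 2 * ε) * (e i ω * rr a (x i ω)) * ((1 - ε * qd a (x i ω)) * tot a (x i ω)) =
      e i ω * ((1 + 2 * ε) * (1 - ε * qd a (x i ω))) := by
    unfold rr; field_simp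
  rw [h5]
  have h6 : 1 ≤ (1 + 2 * ε) * (1 - ε * qd a (x i ω)) := by
    have : ε * qd a (x i ω) ≤ ε := by nlinarith
    nlinarith
  nlinarith [he i]

section

variable {Ω : Type*} [MeasurableSpace Ω] {P : Measure Ω} [IsProbabilityMeasure P]
  {x : ℕ → Ω → Conf} {e : ℕ → Ω → ℝ}

lemma e_int (hlaw : ∀ n, HasLaw (e n) (expMeasure 1) P) (n : ℕ) :
    Integrable (e n) P ∧ Integrable (fun ω => (e n ω) ^ 2) P ∧ ∫ ω, e n ω ∂P = 1 ∧
      ∫ ω, (e n ω) ^ 2 ∂P = 2 := by
  have h1 := exp_moment 1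
  have h2 := exp_moment 2
  have hae := (hlaw n).aemeasurable
  have hmap := (hlaw n).map_eq
  rw [← hmap] at h1 h2
  simp only [pow_one] at h1
  have s1 : AEStronglyMeasurable (fun x : ℝ => x) (Measure.map (e n) P) :=
    measurable_id.aestronglyMeasurable
  have s2 : AEStronglyMeasurable (fun x : ℝ => x ^ 2) (Measure.map (e n) P) :=
    (measurable_id.pow_const 2).aestronglyMeasurable
  refine ⟨?_, ?_, ?_, ?_⟩
  · exact (integrable_map_measure s1 hae).mp h1.1
  · exact (integrable_map_measure s2 hae).mp h2.1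
  · have := h1.2
    rw [integral_map hae s1] at this
    simpa using this
  · have := h2.2
    rw [integral_map hae s2] at this
    simpa using this

lemma e_nonneg (hlaw : ∀ n, HasLaw (e n) (expMeasure 1) P) : ∀ᵐ ω ∂P, ∀ n, 0 ≤ e n ω := by
  rw [ae_all_iff]
  intro n
  have h := exp_nonneg_ae
  rw [← (hlaw n).map_eq] at h
  exact ae_of_ae_map (hlaw n).aemeasurable h

/-- second moment of the fluctuation of the jump times -/
lemma fluct_sq (ha : Jump a) (hx : ∀ n, Measurable (x n)) (he : ∀ n, Measurable (e n))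
    (hlaw : ∀ n, HasLaw (e n) (expMeasure 1) P)
    (hind : iIndepFun e P) (hxe : IndepFun (fun ω n => x n ω) (fun ω n => e n ω) P) (m : ℕ) :
    Integrable (fun ω => (∑ i ∈ Finset.range m, (e i ω - 1) * rr a (x i ω)) ^ 2) P ∧
    ∫ ω, (∑ i ∈ Finset.range m, (e i ω - 1) * rr a (x i ω)) ^ 2 ∂P ≤ m * (1 / m1 a) ^ 2 := by
  have hm := m1_pos ha
  have hr : ∀ i, Measurable fun ω => rr a (x i ω) := fun i => (Measurable.of_discrete (f := rr a)).comp (hx i)
  have hrb : ∀ i ω, |rr a (x i ω)| ≤ 1 / m1 a := fun i ω => by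
    rw [abs_of_pos (rr_pos ha _)]; exact rr_le ha _
  -- centred variables
  set f : ℕ → Ω → ℝ := fun i ω => e i ω - 1 with hf
  have hfm : ∀ i, Measurable (f i) := fun i => (he i).sub_const 1
  have hfi : ∀ i, Integrable (f i) P := fun i => (e_int hlaw i).1.sub (integrable_const 1)
  have hf2 : ∀ i, Integrable (fun ω => (f i ω) ^ 2) P := by
    intro i
    have e1 : (fun ω => (f i ω) ^ 2) = fun ω => (e i ω) ^ 2 - 2 * e i ω + 1 := by
      funext ω; simp only [hf]; ring
    rw [e1]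
    exact ((e_int hlaw i).2.1.sub ((e_int hlaw i).1.const_mul 2)).add (integrable_const 1)
  have hf0 : ∀ i, ∫ ω, f i ω ∂P = 0 := by
    intro i
    simp only [hf]
    rw [integral_sub (e_int hlaw i).1 (integrable_const 1), (e_int hlaw i).2.2.1]
    simp
  have hfv : ∀ i, ∫ ω, (f i ω) ^ 2 ∂P = 1 := by
    intro i
    have e1 : (fun ω => (f i ω) ^ 2) = fun ω => (e i ω) ^ 2 - 2 * e i ω + 1 := by
      funext ω; simp only [hf]; ring
    have i1 : Integrable (fun ω => (e i ω) ^ 2 - 2 * e i ω) P :=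
      (e_int hlaw i).2.1.sub ((e_int hlaw i).1.const_mul 2)
    rw [e1, integral_add i1 (integrable_const 1),
      integral_sub (e_int hlaw i).2.1 ((e_int hlaw i).1.const_mul 2), integral_const_mul,
      (e_int hlaw i).2.2.1, (e_int hlaw i).2.2.2]
    simp
  have hff : ∀ i j, Integrable (fun ω => f i ω * f j ω) P := by
    intro i j
    by_cases hij : i = j
    · subst hij
      refine (hf2 i).congr (ae_of_all _ fun ω => ?_)
      ring
    · have hi : IndepFun (f i) (f j) P :=
        (hind.indepFun hij).comp (φ := fun y => y - 1) (ψ := fun y => y - 1) (by fun_prop) (by fun_prop)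
      exact hi.integrable_mul (hfi i) (hfi j)
  have hff0 : ∀ i j, i ≠ j → ∫ ω, f i ω * f j ω ∂P = 0 := by
    intro i j hij
    have hi : IndepFun (f i) (f j) P :=
      (hind.indepFun hij).comp (φ := fun y => y - 1) (ψ := fun y => y - 1) (by fun_prop) (by fun_prop)
    rw [hi.integral_fun_mul_eq_mul_integral (hfm i).aestronglyMeasurable (hfm j).aestronglyMeasurable,
      hf0 i, zero_mul]
  -- products with the rates
  have hprod : ∀ i j, Integrable (fun ω => (f i ω * f j ω) * (rr a (x i ω) * rr a (x j ω))) P := by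
    intro i j
    apply (hff i j).mul_bdd (c := (1 / m1 a) * (1 / m1 a))
    · exact ((hr i).mul (hr j)).aestronglyMeasurable
    · refine ae_of_all _ fun ω => ?_
      rw [Real.norm_eq_abs, abs_mul]
      exact mul_le_mul (hrb i ω) (hrb j ω) (abs_nonneg _) (by positivity)
  have hval : ∀ i j, ∫ ω, (f i ω * f j ω) * (rr a (x i ω) * rr a (x j ω)) ∂P =
      (∫ ω, f i ω * f j ω ∂P) * ∫ ω, rr a (x i ω) * rr a (x j ω) ∂P := by
    intro i j
    have hi : IndepFun (fun ω => f i ω * f j ω) (fun ω => rr a (x i ω) * rr a (x j ω)) P := by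
      refine (hxe.comp (φ := fun s : ℕ → Conf => rr a (s i) * rr a (s j))
        (ψ := fun s : ℕ → ℝ => (s i - 1) * (s j - 1)) ?_ ?_).symm
      · exact ((Measurable.of_discrete (f := rr a)).comp (measurable_pi_apply i)).mul
          ((Measurable.of_discrete (f := rr a)).comp (measurable_pi_apply j))
      · exact ((measurable_pi_apply i).sub_const 1).mul ((measurable_pi_apply j).sub_const 1)
    exact hi.integral_fun_mul_eq_mul_integral ((hfm i).mul (hfm j)).aestronglyMeasurable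
      ((hr i).mul (hr j)).aestronglyMeasurable
  have hsq : ∀ ω, (∑ i ∈ Finset.range m, (e i ω - 1) * rr a (x i ω)) ^ 2 =
      ∑ i ∈ Finset.range m, ∑ j ∈ Finset.range m,
        (f i ω * f j ω) * (rr a (x i ω) * rr a (x j ω)) := by
    intro ω
    rw [sq, Finset.sum_mul_sum]
    apply Finset.sum_congr rfl; intro i _
    apply Finset.sum_congr rfl; intro j _
    simp only [hf]; ring
  have hint : Integrable (fun ω => ∑ i ∈ Finset.range m, ∑ j ∈ Finset.range m,
      (f i ω * f j ω) * (rr a (x i ω) * rr a (x j ω))) P :=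
    integrable_finsetSum _ fun i _ => integrable_finsetSum _ fun j _ => hprod i j
  constructor
  · exact hint.congr (ae_of_all _ fun ω => (hsq ω).symm)
  · rw [integral_congr_ae (ae_of_all _ hsq), integral_finsetSum _ fun i _ =>
      integrable_finsetSum _ fun j _ => hprod i j]
    have hin : ∀ i ∈ Finset.range m, ∫ ω, ∑ j ∈ Finset.range m,
        (f i ω * f j ω) * (rr a (x i ω) * rr a (x j ω)) ∂P ≤ (1 / m1 a) ^ 2 := by
      intro i hi
      rw [integral_finsetSum _ fun j _ => hprod i j]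
      rw [Finset.sum_eq_single i]
      · rw [hval]
        have e1 : ∫ ω, f i ω * f i ω ∂P = 1 := by
          rw [← hfv i]; congr 1; funext ω; ring
        rw [e1, one_mul]
        calc ∫ ω, rr a (x i ω) * rr a (x i ω) ∂P ≤ ∫ ω, (1 / m1 a) ^ 2 ∂P := by
              apply integral_mono_of_nonneg (ae_of_all _ fun ω => mul_self_nonneg _)
                (integrable_const _) (ae_of_all _ fun ω => ?_)
              have h1 := hrb i ω
              have h2 := rr_pos ha (x i ω)
              rw [abs_of_pos h2] at h1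
              simp only
              nlinarith
          _ = (1 / m1 a) ^ 2 := by simp
      · intro j _ hji
        rw [hval, hff0 i j (Ne.symm hji), zero_mul]
      · intro h; exact absurd hi h
    calc _ ≤ ∑ i ∈ Finset.range m, (1 / m1 a) ^ 2 := Finset.sum_le_sum hin
      _ = m * (1 / m1 a) ^ 2 := by rw [Finset.sum_const, Finset.card_range, nsmul_eq_mul]

lemma Tn_sub (n : ℕ) (ω : Ω) : Tn a x e n ω - Cr a 0 n (pth x ω) =
    ∑ i ∈ Finset.range n, (e i ω - 1) * rr a (x i ω) := by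
  unfold Tn Cr
  rw [← Finset.sum_sub_distrib]
  apply Finset.sum_congr rfl
  intro i _
  rw [zero_add]
  unfold pth
  ring

lemma fluct_prob (ha : Jump a) (hx : ∀ n, Measurable (x n)) (he : ∀ n, Measurable (e n))
    (hlaw : ∀ n, HasLaw (e n) (expMeasure 1) P)
    (hind : iIndepFun e P) (hxe : IndepFun (fun ω n => x n ω) (fun ω n => e n ω) P) (m : ℕ)
    {θ : ℝ} (hθ : 0 < θ) :
    P {ω | θ ≤ |Tn a x e m ω - Cr a 0 m (pth x ω)|} ≤
      ENNReal.ofReal (m * (1 / m1 a) ^ 2 / θ ^ 2) := by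
  obtain ⟨h1, h2⟩ := fluct_sq ha hx he hlaw hind hxe m
  have h3 := mul_meas_ge_le_integral_of_nonneg (ae_of_all _ fun ω => sq_nonneg _) h1 (θ ^ 2)
  have e1 : {ω | θ ≤ |Tn a x e m ω - Cr a 0 m (pth x ω)|} =
      {ω | θ ^ 2 ≤ (∑ i ∈ Finset.range m, (e i ω - 1) * rr a (x i ω)) ^ 2} := by
    ext ω
    simp only [Set.mem_ofPred_eq]
    rw [Tn_sub, ← sq_abs (∑ i ∈ Finset.range m, (e i ω - 1) * rr a (x i ω))]
    exact (pow_le_pow_iff_left₀ hθ.le (abs_nonneg _) (by norm_num)).symm
  rw [e1, ← ENNReal.ofReal_toReal (measure_ne_top P _)]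
  apply ENNReal.ofReal_le_ofReal
  rw [le_div_iff₀ (by positivity), mul_comm]
  exact h3.trans h2

end

/-- Law of large numbers for the jump times. -/
lemma time_lln (ha : Jump a) {δ η B : ℝ} (hδ : 0 < δ) (hη : 0 < η) : ∃ n0 : ℕ, ∀ n ≥ n0,
    ∀ ε : ℝ, 0 ≤ ε → ε ≤ 1 / 2 → ε ^ 2 * (2 * n) ≤ B →
    ∀ {Ω : Type*} [MeasurableSpace Ω] {P : Measure Ω} [IsProbabilityMeasure P]
      {x : ℕ → Ω → Conf} {e : ℕ → Ω → ℝ}, IsJumpChain a ε P x → (∀ n, Measurable (e n)) →
      (∀ n, HasLaw (e n) (expMeasure 1) P) → iIndepFun e P →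
      IndepFun (fun ω n => x n ω) (fun ω n => e n ω) P →
      P {ω | ∃ m ≤ n, δ * n ≤ |Tn a x e m ω - m / s2 a|} ≤ ENNReal.ofReal η := by
  have hs := s2_pos ha
  have hm := m1_pos ha
  set s : ℝ := 1 / s2 a with hsdef
  have hs0 : 0 < s := by positivity
  obtain ⟨G, hG⟩ := exists_nat_gt (4 * s / δ)
  have hG0 : 0 < G := by
    rcases Nat.eq_zero_or_pos G with h | h
    · subst h
      have : 0 < 4 * s / δ := by positivity
      norm_num at hG; linarith
    · exact h
  have hGr : (0:ℝ) < G := by exact_mod_cast hG0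
  obtain ⟨n2, hbad⟩ := bad_small (B := B) ha (δ := δ / 8) (by positivity) (half_pos hη)
  obtain ⟨n1, hn1⟩ := exists_nat_gt (4 * s / δ + 64 * (1 / m1 a) ^ 2 * (G + 1) / (η * δ ^ 2))
  refine ⟨max n1 (max n2 (max G 1)), fun n hn ε hε0 hε2 hεB Ω _ P _ x e hx he hlaw hind hxe => ?_⟩
  have hε1 : ε < 1 := by linarith
  have hnn1 : n1 ≤ n := le_trans (le_max_left _ _) hn
  have hnn2 : n2 ≤ n := le_trans (le_trans (le_max_left _ _) (le_max_right _ _)) hn
  have hnG : G ≤ n := le_trans (le_trans (le_max_left _ _)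
    (le_trans (le_max_right _ _) (le_max_right _ _))) hn
  have hn1' : 1 ≤ n := le_trans (le_trans (le_max_right _ _)
    (le_trans (le_max_right _ _) (le_max_right _ _))) hn
  have hnr : (0:ℝ) < n := by exact_mod_cast hn1'
  have hnb : 4 * s / δ + 64 * (1 / m1 a) ^ 2 * (G + 1) / (η * δ ^ 2) < n := by
    refine hn1.trans_le ?_
    exact_mod_cast hnn1
  have hnb1 : 4 * s / δ < n := by
    have : 0 ≤ 64 * (1 / m1 a) ^ 2 * (G + 1) / (η * δ ^ 2) := by positivity
    linarith
  have hnb2 : 64 * (1 / m1 a) ^ 2 * (G + 1) / (η * δ ^ 2) < n := by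
    have : 0 ≤ 4 * s / δ := by positivity
    linarith
  set h : ℕ := n / G + 1 with hh
  have hh0 : 0 < h := Nat.succ_pos _
  have hGh : n < G * h := by
    rw [hh, mul_add, mul_one]
    have := Nat.div_add_mod n G
    have := Nat.mod_lt n hG0
    omega
  have hGh2 : G * h ≤ n + G := by
    rw [hh, mul_add, mul_one]
    have := Nat.mul_div_le n G
    omega
  have hsh : s * h ≤ δ * n / 2 := by
    have h1 : (h:ℝ) ≤ n / G + 1 := by
      rw [hh]; push_cast
      have := Nat.cast_div_le (α := ℝ) (m := n) (n := G)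
      linarith
    have h2 : s * (n / G) ≤ δ * n / 4 := by
      rw [div_lt_iff₀ hδ] at hG
      rw [mul_div_assoc', div_le_iff₀ hGr]
      nlinarith
    have h3 : s ≤ δ * n / 4 := by
      rw [div_lt_iff₀ hδ] at hnb1
      linarith
    calc s * h ≤ s * (n / G + 1) := mul_le_mul_of_nonneg_left h1 hs0.le
      _ = s * (n / G) + s := by ring
      _ ≤ _ := by linarith
  have hA : ∀ w w' : Pth, (∀ i ≤ 2 * n, w i = w' i) →
      (Bad a (δ / 8) (2 * n) w ↔ Bad a (δ / 8) (2 * n) w') := by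
    have : ∀ w w' : Pth, (∀ i ≤ 2 * n, w i = w' i) →
      (Bad a (δ / 8) (2 * n) w → Bad a (δ / 8) (2 * n) w') := by
      intro w w' hw
      rintro ⟨m, hm, h⟩
      refine ⟨m, hm, ?_⟩
      rw [← hw m hm, ← Cr_dep' 0 m w w' (fun i hi => (hw i (by omega)))]
      exact h
    intro w w' hw
    exact ⟨this w w' hw, this w' w (fun i hi => (hw i hi).symm)⟩
  have hPbad : P {ω | Bad a (δ / 8) (2 * n) (pth x ω)} ≤ ENNReal.ofReal (η / 2) := by
    rw [chain_prob ha hε0 hε1 hx (2 * n) hA]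
    exact hbad (2 * n) (by omega) ε hε0 hε2 (by push_cast; exact hεB)
  have hterm : ∀ i ∈ Finset.range (G + 1),
      P {ω | δ * n / 4 ≤ |Tn a x e (i * h) ω - Cr a 0 (i * h) (pth x ω)|} ≤
        ENNReal.ofReal (η / 2 / (G + 1)) := by
    intro i hi
    rw [Finset.mem_range] at hi
    have hile : i * h ≤ 2 * n := by
      have := Nat.mul_le_mul_right h (show i ≤ G by omega)
      omega
    refine (fluct_prob ha hx.meas he hlaw hind hxe (i * h) (by positivity)).trans ?_
    apply ENNReal.ofReal_le_ofReal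
    rw [div_le_iff₀ (by positivity)]
    have h2 : ((i * h : ℕ) : ℝ) ≤ 2 * n := by exact_mod_cast hile
    rw [div_lt_iff₀ (by positivity)] at hnb2
    calc ((i * h : ℕ) : ℝ) * (1 / m1 a) ^ 2 ≤ 2 * n * (1 / m1 a) ^ 2 := by gcongr
      _ ≤ η / 2 / (G + 1) * (δ * n / 4) ^ 2 := by
          rw [show η / 2 / (G + 1) * (δ * n / 4) ^ 2 = (n * (η * δ ^ 2) * n) / (32 * (G + 1)) by
            field_simp; ring, le_div_iff₀ (by positivity)]
          nlinarith
  have hsub : {ω | ∃ m ≤ n, δ * n ≤ |Tn a x e m ω - m / s2 a|} ≤ᵐ[P]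
      ((⋃ i ∈ Finset.range (G + 1),
        {ω | δ * n / 4 ≤ |Tn a x e (i * h) ω - Cr a 0 (i * h) (pth x ω)|}) ∪
        {ω | Bad a (δ / 8) (2 * n) (pth x ω)} : Set Ω) := by
    filter_upwards [e_nonneg hlaw] with ω hω
    rintro ⟨m, hmn, hmm⟩
    have hmono : Monotone fun m => Tn a x e m ω := by
      apply monotone_nat_of_le_succ
      intro k
      unfold Tn
      rw [Finset.sum_range_succ]
      linarith [mul_nonneg (hω k) (rr_pos ha (x k ω)).le]
    have es : ∀ m : ℕ, (m:ℝ) / s2 a = s * m := by intro m; rw [hsdef]; ring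
    rw [es] at hmm
    obtain ⟨i, hi, hi2⟩ := grid hmono hs0.le hh0 hsh hmm
    have hiG : i ≤ G := by
      have : m / h < G := by
        rw [Nat.div_lt_iff_lt_mul hh0]; omega
      omega
    have hile : i * h ≤ 2 * n := by
      have := Nat.mul_le_mul_right h hiG
      omega
    by_cases hc : δ * n / 4 ≤ |Tn a x e (i * h) ω - Cr a 0 (i * h) (pth x ω)|
    · left
      simp only [Set.mem_iUnion]
      exact ⟨i, Finset.mem_range.mpr (by omega), hc⟩
    · right
      refine ⟨i * h, hile, Or.inr ?_⟩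
      push Not at hc
      rw [es]
      have := abs_sub_le (Tn a x e (i * h) ω) (Cr a 0 (i * h) (pth x ω)) (s * ((i * h : ℕ) : ℝ))
      push_cast at this hi2 ⊢
      linarith
  refine (measure_mono_ae hsub).trans ((measure_union_le _ _).trans ?_)
  calc P (⋃ i ∈ Finset.range (G + 1),
        {ω | δ * n / 4 ≤ |Tn a x e (i * h) ω - Cr a 0 (i * h) (pth x ω)|}) +
        P {ω | Bad a (δ / 8) (2 * n) (pth x ω)}
      ≤ (∑ i ∈ Finset.range (G + 1), ENNReal.ofReal (η / 2 / (G + 1))) + ENNReal.ofReal (η / 2) := by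
        refine add_le_add ((measure_biUnion_finset_le _ _).trans (Finset.sum_le_sum hterm)) hPbad
    _ = ENNReal.ofReal η := by
        rw [Finset.sum_const, Finset.card_range, nsmul_eq_mul, ← ENNReal.ofReal_natCast,
          ← ENNReal.ofReal_mul (by positivity), ← ENNReal.ofReal_add (by positivity) (by positivity)]
        congr 1; push_cast; field_simp; norm_num

end Pool.Agent.K9h92.BV
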