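import Mathlib

set_option autoImplicit false

/-!
Configurations of the voter model interface and elementary counting identities.
-/

namespace Pool.Agent.K9h92.BV

/-- A configuration of zeros and ones on `ℤ` which differs from the Heaviside state `1_{i ≥ 0}` at
finitely many sites only, encoded by the finite set of these sites. -/
abbrev Conf := Finset ℤ

/-- The configuration has the value `1` at the site `i`. -/
def on (D : Conf) (i : ℤ) : Prop := (0 ≤ i ↔ i ∉ D)

instance (D : Conf) (i : ℤ) : Decidable (on D i) := by unfold on; infer_instance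

/-- The configuration with the value at the site `j` changed. -/
def flipAt (D : Conf) (j : ℤ) : Conf := symmDiff D {j}

lemma mem_flipAt (D : Conf) (j i : ℤ) : i ∈ flipAt D j ↔ (if i = j then i ∉ D else i ∈ D) := by
  unfold flipAt
  rw [Finset.mem_symmDiff, Finset.mem_singleton]
  split_ifs with h
  · subst h; simp
  · simp [h]

lemma on_flipAt (D : Conf) (j i : ℤ) : on (flipAt D j) i ↔ (if i = j then ¬ on D i else on D i) := by
  unfold on
  rw [mem_flipAt]
  split_ifs with h <;> tauto

lemma flipAt_flipAt (D : Conf) (j : ℤ) : flipAt (flipAt D j) j = D := by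
  ext i
  rw [mem_flipAt, mem_flipAt]
  split_ifs <;> simp

lemma flipAt_inj (D : Conf) {j j' : ℤ} (h : flipAt D j = flipAt D j') : j = j' := by
  by_contra hne
  have h1 : j ∈ flipAt D j ↔ j ∈ flipAt D j' := by rw [h]
  rw [mem_flipAt, mem_flipAt, if_pos rfl, if_neg hne] at h1
  tauto

/-- the indicator of the ones -/
noncomputable def ind (D : Conf) (i : ℤ) : ℝ := if on D i then 1 else 0

/-- the indicator of the zeros -/
noncomputable def co (D : Conf) (i : ℤ) : ℝ := 1 - ind D i

lemma ind_eq (D : Conf) (i : ℤ) : ind D i = 0 ∨ ind D i = 1 := by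
  unfold ind; split_ifs <;> simp

lemma ind_nonneg (D : Conf) (i : ℤ) : 0 ≤ ind D i := by
  rcases ind_eq D i with h | h <;> rw [h] <;> norm_num

lemma ind_le_one (D : Conf) (i : ℤ) : ind D i ≤ 1 := by
  rcases ind_eq D i with h | h <;> rw [h] <;> norm_num

lemma co_nonneg (D : Conf) (i : ℤ) : 0 ≤ co D i := by
  unfold co; linarith [ind_le_one D i]

lemma co_le_one (D : Conf) (i : ℤ) : co D i ≤ 1 := by
  unfold co; linarith [ind_nonneg D i]

lemma ind_mul_co (D : Conf) (i : ℤ) : ind D i * co D i = 0 := by
  unfold co; rcases ind_eq D i with h | h <;> rw [h] <;> norm_num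

lemma ind_flipAt (D : Conf) (j i : ℤ) :
    ind (flipAt D j) i = ind D i + (1 - 2 * ind D j) * (if i = j then 1 else 0) := by
  unfold ind
  by_cases h : i = j
  · subst h
    by_cases h1 : on D i
    · have : ¬ on (flipAt D i) i := by rw [on_flipAt]; simpa using h1
      simp [h1, this]; norm_num
    · have : on (flipAt D i) i := by rw [on_flipAt]; simpa using h1
      simp [h1, this]
  · have : on (flipAt D j) i ↔ on D i := by rw [on_flipAt, if_neg h]
    simp [h, this]

/-- bound of the support -/
def bd (D : Conf) : ℕ := D.sup Int.natAbs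

lemma le_bd {D : Conf} {i : ℤ} (h : i ∈ D) : |i| ≤ bd D := by
  have : Int.natAbs i ≤ bd D := Finset.le_sup (f := Int.natAbs) h
  rw [Int.abs_eq_natAbs]
  exact_mod_cast this

lemma on_of_gt {D : Conf} {i : ℤ} (h : (bd D : ℤ) < i) : on D i := by
  unfold on
  have h0 : (0:ℤ) ≤ bd D := by positivity
  have h1 : i ∉ D := fun hi => by
    have := le_bd hi
    rw [abs_of_pos (by omega)] at this
    omega
  simp [h1]; omega

lemma not_on_of_lt {D : Conf} {i : ℤ} (h : i < -(bd D : ℤ)) : ¬ on D i := by
  unfold on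
  have h0 : (0:ℤ) ≤ bd D := by positivity
  have h1 : i ∉ D := fun hi => by
    have := le_bd hi
    rw [abs_of_neg (by omega)] at this
    omega
  simp [h1]; omega

lemma ind_of_gt {D : Conf} {i : ℤ} (h : (bd D : ℤ) < i) : ind D i = 1 := by
  unfold ind; rw [if_pos (on_of_gt h)]

lemma ind_of_lt {D : Conf} {i : ℤ} (h : i < -(bd D : ℤ)) : ind D i = 0 := by
  unfold ind; rw [if_neg (not_on_of_lt h)]

lemma co_of_gt {D : Conf} {i : ℤ} (h : (bd D : ℤ) < i) : co D i = 0 := by
  unfold co; rw [ind_of_gt h]; ring

lemma co_of_lt {D : Conf} {i : ℤ} (h : i < -(bd D : ℤ)) : co D i = 1 := by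
  unfold co; rw [ind_of_lt h]; ring

lemma le_of_ind_ne {D : Conf} {i : ℤ} (h : ind D i ≠ 0) : -(bd D : ℤ) ≤ i := by
  by_contra hc
  exact h (ind_of_lt (by omega))

lemma le_of_co_ne {D : Conf} {i : ℤ} (h : co D i ≠ 0) : i ≤ (bd D : ℤ) := by
  by_contra hc
  exact h (co_of_gt (by omega))

lemma summable_of_window {g : ℤ → ℝ} (a b : ℤ) (h : ∀ i, g i ≠ 0 → a ≤ i ∧ i ≤ b) : Summable g :=
  summable_of_finite_support ((Set.finite_Icc a b).subset fun i hi => h i hi)

/-- number of pairs `(u, u + m)` with a one at `u` and a zero at `u + m` -/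
noncomputable def N (D : Conf) (m : ℤ) : ℝ := ∑' u, ind D u * co D (u + m)

lemma N_summable (D : Conf) (m : ℤ) : Summable fun u => ind D u * co D (u + m) := by
  apply summable_of_window (-(bd D : ℤ)) (bd D - m)
  intro i hi
  have h1 := le_of_ind_ne (left_ne_zero_of_mul hi)
  have h2 := le_of_co_ne (right_ne_zero_of_mul hi)
  constructor <;> omega

lemma N_nonneg (D : Conf) (m : ℤ) : 0 ≤ N D m :=
  tsum_nonneg fun u => mul_nonneg (ind_nonneg D u) (co_nonneg D _)

lemma N_zero (D : Conf) : N D 0 = 0 := by
  unfold N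
  simp [ind_mul_co]

lemma N_eq_zero {D : Conf} {m : ℤ} (h : 2 * (bd D : ℤ) < m) : N D m = 0 := by
  unfold N
  have : ∀ u, ind D u * co D (u + m) = 0 := by
    intro u
    by_contra hne
    have h1 := le_of_ind_ne (left_ne_zero_of_mul hne)
    have h2 := le_of_co_ne (right_ne_zero_of_mul hne)
    omega
  simp [this]

/-- shifted sum of the ones -/
lemma ind_diff_summable (D : Conf) (k : ℤ) : Summable fun u => ind D (u - k) - ind D u := by
  apply summable_of_window (-(bd D : ℤ) - |k|) (bd D + |k|)
  intro i hi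
  by_contra hc
  apply hi
  have hk := neg_abs_le k
  have hk' := le_abs_self k
  rw [not_and_or] at hc
  rcases hc with hc | hc
  · rw [ind_of_lt (by omega), ind_of_lt (by omega)]; ring
  · rw [ind_of_gt (by omega), ind_of_gt (by omega)]; ring

lemma heav_diff (k : ℤ) : Summable (fun u : ℤ => (if 0 ≤ u - k then (1:ℝ) else 0) - (if 0 ≤ u then 1 else 0)) ∧
    ∑' u : ℤ, ((if 0 ≤ u - k then (1:ℝ) else 0) - (if 0 ≤ u then 1 else 0)) = -k := by
  have hs : ∀ k : ℤ, Summable (fun u : ℤ => (if 0 ≤ u - k then (1:ℝ) else 0) - (if 0 ≤ u then 1 else 0)) := by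
    intro k
    apply summable_of_window (-|k|) (|k|)
    intro i hi
    have hk := neg_abs_le k
    have hk' := le_abs_self k
    by_contra hc
    apply hi
    rw [not_and_or] at hc
    rcases hc with hc | hc
    · rw [if_neg (by omega), if_neg (by omega)]; ring
    · rw [if_pos (by omega), if_pos (by omega)]; ring
  refine ⟨hs k, ?_⟩
  have key : ∀ k : ℤ, ∑' u : ℤ, ((if 0 ≤ u - (k+1) then (1:ℝ) else 0) - (if 0 ≤ u then 1 else 0)) =
      ∑' u : ℤ, ((if 0 ≤ u - k then (1:ℝ) else 0) - (if 0 ≤ u then 1 else 0)) - 1 := by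
    intro k
    have e1 : ∀ u : ℤ, ((if 0 ≤ u - (k+1) then (1:ℝ) else 0) - (if 0 ≤ u then 1 else 0)) =
      ((if 0 ≤ u - k then (1:ℝ) else 0) - (if 0 ≤ u then 1 else 0)) - (if u = k then 1 else 0) := by
      intro u
      by_cases h : u = k
      · subst h
        rw [if_neg (by omega), if_pos (by omega : 0 ≤ u - u), if_pos rfl]; ring
      · rw [if_neg h]
        by_cases h2 : 0 ≤ u - k
        · rw [if_pos (by omega), if_pos h2]; ring
        · rw [if_neg (by omega), if_neg h2]; ring
    rw [tsum_congr e1, Summable.tsum_sub (hs k)]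
    · rw [tsum_ite_eq]
    · exact (hasSum_ite_eq k (1:ℝ)).summable
  induction k using Int.induction_on with
  | zero => simp
  | succ n ih => rw [key, ih]; push_cast; ring
  | pred n ih =>
    have := key (-(n:ℤ) - 1)
    rw [show (-(n:ℤ) - 1 + 1) = -(n:ℤ) by ring, ih] at this
    push_cast at this ⊢
    linarith

lemma tsum_ind_diff (D : Conf) (k : ℤ) : ∑' u, (ind D (u - k) - ind D u) = -k := by
  have hd : ∀ u, ind D u = (if 0 ≤ u then (1:ℝ) else 0) + (ind D u - (if 0 ≤ u then (1:ℝ) else 0)) := by
    intro u; ring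
  set d : ℤ → ℝ := fun u => ind D u - (if 0 ≤ u then (1:ℝ) else 0) with hddef
  have hds : Summable d := by
    apply summable_of_window (-(bd D : ℤ)) (bd D)
    intro i hi
    by_contra hc
    apply hi
    have h0 : (0:ℤ) ≤ bd D := by positivity
    rw [not_and_or] at hc
    simp only [hddef]
    rcases hc with hc | hc
    · rw [ind_of_lt (by omega), if_neg (by omega)]; ring
    · rw [ind_of_gt (by omega), if_pos (by omega)]; ring
  have hds' : Summable fun u => d (u - k) := by
    have := (Equiv.subRight k).summable_iff.mpr hds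
    exact this
  have e : ∀ u, ind D (u - k) - ind D u =
      ((if 0 ≤ u - k then (1:ℝ) else 0) - (if 0 ≤ u then 1 else 0)) + (d (u - k) - d u) := by
    intro u; simp only [hddef]; ring
  rw [tsum_congr e, Summable.tsum_add (heav_diff k).1 (hds'.sub hds), (heav_diff k).2,
    Summable.tsum_sub hds' hds]
  have : ∑' u, d (u - k) = ∑' u, d u := (Equiv.subRight k).tsum_eq d
  rw [this]; ring

lemma N_neg (D : Conf) (k : ℤ) : N D (-k) = N D k + k := by
  have h1 : N D (-k) = ∑' u, ind D (u + k) * co D u := by
    unfold N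
    rw [← (Equiv.addRight k).tsum_eq]
    apply tsum_congr
    intro u
    simp
  have s1 : Summable fun u => ind D (u + k) * co D u := by
    have := (Equiv.addRight k).summable_iff.mpr (N_summable D (-k))
    refine this.congr ?_
    intro u
    simp
  have h2 : ∑' u, ind D (u + k) * co D u - N D k = ∑' u, (ind D (u - (-k)) - ind D u) := by
    unfold N
    rw [← Summable.tsum_sub s1 (N_summable D k)]
    apply tsum_congr
    intro u
    unfold co
    rw [sub_neg_eq_add]
    ring
  rw [tsum_ind_diff] at h2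
  rw [h1]
  push_cast at h2
  linarith

lemma N_subadd (D : Conf) (k l : ℤ) : N D (k + l) ≤ N D k + N D l := by
  unfold N
  have s2 : Summable fun u => ind D (u + k) * co D (u + k + l) := by
    have := (Equiv.addRight k).summable_iff.mpr (N_summable D l)
    refine this.congr ?_
    intro u
    simp
  have e2 : ∑' u, ind D u * co D (u + l) = ∑' u, ind D (u + k) * co D (u + k + l) := by
    rw [← (Equiv.addRight k).tsum_eq]
    simp
  rw [e2, ← Summable.tsum_add (N_summable D k) s2]
  apply Summable.tsum_le_tsum _ (N_summable D (k + l)) ((N_summable D k).add s2)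
  intro u
  rw [← add_assoc]
  unfold co
  rcases ind_eq D u with h | h <;> rcases ind_eq D (u + k) with h' | h' <;>
    rcases ind_eq D (u + k + l) with h'' | h'' <;> rw [h, h', h''] <;> norm_num

end Pool.Agent.K9h92.BV
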