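import Pool.Agent.K9h92.BV.Conf

set_option autoImplicit false

/-!
Linear functionals of the pair counts, centre of mass, discrepancy with the Heaviside states.
-/

namespace Pool.Agent.K9h92.BV

lemma summable_of_window2 {g : ℤ × ℤ → ℝ} (a b : ℤ)
    (h : ∀ p, g p ≠ 0 → (a ≤ p.1 ∧ p.1 ≤ b) ∧ (a ≤ p.2 ∧ p.2 ≤ b)) : Summable g := by
  apply summable_of_hasFiniteSupport
  refine Set.Finite.subset ((Set.finite_Icc a b).prod (Set.finite_Icc a b)) ?_
  intro p hp
  exact h p hp

/-- `∑_m ψ(m) N(m)`; used for `ψ` supported on the positive integers -/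
noncomputable def H (ψ : ℤ → ℝ) (D : Conf) : ℝ := ∑' m, ψ m * N D m

lemma H_summable {ψ : ℤ → ℝ} (hψ : ∀ m ≤ 0, ψ m = 0) (D : Conf) :
    Summable fun m => ψ m * N D m := by
  apply summable_of_window 0 (2 * bd D)
  intro m hm
  constructor
  · by_contra hc
    exact hm (by rw [hψ m (by omega)]; ring)
  · by_contra hc
    exact hm (by rw [N_eq_zero (by omega)]; ring)

lemma H_nonneg {ψ : ℤ → ℝ} (h : ∀ m, 0 ≤ ψ m) (D : Conf) : 0 ≤ H ψ D :=
  tsum_nonneg fun m => mul_nonneg (h m) (N_nonneg D m)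

lemma H_empty {ψ : ℤ → ℝ} (hψ : ∀ m ≤ 0, ψ m = 0) : H ψ ∅ = 0 := by
  unfold H
  have : ∀ m, ψ m * N ∅ m = 0 := by
    intro m
    by_cases hm : m ≤ 0
    · rw [hψ m hm]; ring
    · rw [N_eq_zero (by simp [bd]; omega)]; ring
  simp [this]

lemma H_swap {ψ : ℤ → ℝ} (hψ : ∀ m ≤ 0, ψ m = 0) (D : Conf) :
    H ψ D = ∑' u, ∑' v, ψ (v - u) * (ind D u * co D v) := by
  unfold H N
  have e1 : ∀ m, ψ m * ∑' u, ind D u * co D (u + m) = ∑' u, ψ m * (ind D u * co D (u + m)) := by
    intro m; rw [tsum_mul_left]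
  rw [tsum_congr e1]
  have hs : Summable (Function.uncurry fun m u => ψ m * (ind D u * co D (u + m))) := by
    apply summable_of_window2 (-(bd D : ℤ)) (2 * bd D)
    rintro ⟨m, u⟩ hp
    simp only [Function.uncurry] at hp
    have h1 : 0 < m := by
      by_contra hc
      exact hp (by rw [hψ m (by omega)]; ring)
    have h2 := le_of_ind_ne (left_ne_zero_of_mul (right_ne_zero_of_mul hp))
    have h3 := le_of_co_ne (right_ne_zero_of_mul (right_ne_zero_of_mul hp))
    simp only
    have h0 : (0:ℤ) ≤ bd D := by positivity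
    refine ⟨⟨?_, ?_⟩, ?_, ?_⟩ <;> omega
  rw [← Summable.tsum_comm hs]
  apply tsum_congr
  intro u
  rw [← (Equiv.subRight u).tsum_eq]
  apply tsum_congr
  intro v
  simp

/-- the indicator of the positive integers -/
noncomputable def pos1 (m : ℤ) : ℝ := if 0 < m then 1 else 0

lemma pos1_zero : ∀ m ≤ 0, pos1 m = 0 := by
  intro m hm; unfold pos1; rw [if_neg (by omega)]

lemma pos1_nonneg (m : ℤ) : 0 ≤ pos1 m := by unfold pos1; split_ifs <;> norm_num

lemma pos1_le (m : ℤ) : pos1 m ≤ 1 := by unfold pos1; split_ifs <;> norm_num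

/-- the number of inversions: pairs `u < v` with a one at `u` and a zero at `v` -/
noncomputable def inv (D : Conf) : ℝ := H pos1 D

lemma inv_nonneg (D : Conf) : 0 ≤ inv D := H_nonneg pos1_nonneg D

lemma inv_empty : inv ∅ = 0 := H_empty pos1_zero

lemma inv_eq (D : Conf) : inv D = ∑' u, ∑' v, pos1 (v - u) * (ind D u * co D v) := H_swap pos1_zero D

lemma inv_summable2 (D : Conf) :
    Summable (fun p : ℤ × ℤ => pos1 (p.2 - p.1) * (ind D p.1 * co D p.2)) := by
  apply summable_of_window2 (-(bd D : ℤ)) (bd D)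
  rintro ⟨u, v⟩ hp
  simp only at hp ⊢
  have h1 : 0 < v - u := by
    by_contra hc
    exact hp (by rw [pos1_zero _ (by omega)]; ring)
  have h2 := le_of_ind_ne (left_ne_zero_of_mul (right_ne_zero_of_mul hp))
  have h3 := le_of_co_ne (right_ne_zero_of_mul (right_ne_zero_of_mul hp))
  refine ⟨⟨?_, ?_⟩, ?_, ?_⟩ <;> omega

lemma inv_eq2 (D : Conf) :
    inv D = ∑' p : ℤ × ℤ, pos1 (p.2 - p.1) * (ind D p.1 * co D p.2) := by
  rw [inv_eq, (inv_summable2 D).tsum_prod]

/-- a sum over inverted pairs of a finitely supported product is at most the number of inversions -/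
lemma tsum_mul_tsum_le_inv (D : Conf) (A B : ℤ → ℝ) (hA : ∀ u, 0 ≤ A u ∧ A u ≤ ind D u)
    (hB : ∀ v, 0 ≤ B v ∧ B v ≤ co D v) (sA : Summable A) (sB : Summable B)
    (hAB : ∀ u v, A u ≠ 0 → B v ≠ 0 → u < v) :
    (∑' u, A u) * (∑' v, B v) ≤ inv D := by
  have hs : Summable (fun p : ℤ × ℤ => A p.1 * B p.2) := by
    apply Summable.of_nonneg_of_le (fun p => mul_nonneg (hA _).1 (hB _).1) _ (inv_summable2 D)
    rintro ⟨u, v⟩
    simp only
    by_cases h : A u = 0
    · rw [h, zero_mul]
      exact mul_nonneg (pos1_nonneg _) (mul_nonneg (ind_nonneg _ _) (co_nonneg _ _))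
    by_cases h' : B v = 0
    · rw [h', mul_zero]
      exact mul_nonneg (pos1_nonneg _) (mul_nonneg (ind_nonneg _ _) (co_nonneg _ _))
    have := hAB u v h h'
    have e : pos1 (v - u) = 1 := by unfold pos1; rw [if_pos (by omega)]
    rw [e, one_mul]
    exact mul_le_mul (hA u).2 (hB v).2 (hB v).1 (ind_nonneg _ _)
  rw [inv_eq2, sA.tsum_mul_tsum sB hs]
  apply Summable.tsum_le_tsum _ hs (inv_summable2 D)
  rintro ⟨u, v⟩
  simp only
  by_cases h : A u = 0
  · rw [h, zero_mul]
    exact mul_nonneg (pos1_nonneg _) (mul_nonneg (ind_nonneg _ _) (co_nonneg _ _))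
  by_cases h' : B v = 0
  · rw [h', mul_zero]
    exact mul_nonneg (pos1_nonneg _) (mul_nonneg (ind_nonneg _ _) (co_nonneg _ _))
  have := hAB u v h h'
  have e : pos1 (v - u) = 1 := by unfold pos1; rw [if_pos (by omega)]
  rw [e, one_mul]
  exact mul_le_mul (hA u).2 (hB v).2 (hB v).1 (ind_nonneg _ _)

lemma N_sq_le {D : Conf} {m : ℤ} (hm : 0 < m) : N D m ^ 2 ≤ 2 * inv D := by
  -- the product of the two sums over `u, u'`
  set g : ℤ → ℝ := fun u => ind D u * co D (u + m) with hg
  have gs : Summable g := N_summable D m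
  have g0 : ∀ u, 0 ≤ g u := fun u => mul_nonneg (ind_nonneg D u) (co_nonneg D _)
  have hw : ∀ u, g u ≠ 0 → -(bd D : ℤ) ≤ u ∧ u ≤ bd D - m := by
    intro u hu
    have h1 := le_of_ind_ne (left_ne_zero_of_mul hu)
    have h2 := le_of_co_ne (right_ne_zero_of_mul hu)
    constructor <;> omega
  have hgg : Summable (fun p : ℤ × ℤ => g p.1 * g p.2) := by
    apply summable_of_window2 (-(bd D : ℤ)) (bd D - m)
    rintro ⟨u, v⟩ hp
    exact ⟨hw u (left_ne_zero_of_mul hp), hw v (right_ne_zero_of_mul hp)⟩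
  set T : ℤ × ℤ → ℝ := fun p => pos1 (p.2 + m - p.1) * (ind D p.1 * co D (p.2 + m)) with hT
  have hTs : Summable T := by
    have := (Equiv.prodCongr (Equiv.refl ℤ) (Equiv.addRight m)).summable_iff.mpr (inv_summable2 D)
    exact this
  have hTe : ∑' p, T p = inv D := by
    rw [inv_eq2]
    exact (Equiv.prodCongr (Equiv.refl ℤ) (Equiv.addRight m)).tsum_eq
      (fun p : ℤ × ℤ => pos1 (p.2 - p.1) * (ind D p.1 * co D p.2))
  have hTs' : Summable fun p : ℤ × ℤ => T p.swap := (Equiv.prodComm ℤ ℤ).summable_iff.mpr hTs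
  have hTe' : ∑' p : ℤ × ℤ, T p.swap = inv D := by
    rw [← hTe]; exact (Equiv.prodComm ℤ ℤ).tsum_eq T
  have key : ∀ p : ℤ × ℤ, g p.1 * g p.2 ≤ T p + T p.swap := by
    rintro ⟨u, v⟩
    simp only [hg, hT, Prod.swap]
    have a0 := ind_nonneg D u
    have a1 := ind_le_one D u
    have b0 := co_nonneg D (u + m)
    have b1 := co_le_one D (u + m)
    have c0 := ind_nonneg D v
    have c1 := ind_le_one D v
    have d0 := co_nonneg D (v + m)
    have d1 := co_le_one D (v + m)
    have p1 : ind D u * co D (u + m) * (ind D v * co D (v + m)) ≤ ind D u * co D (v + m) := by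
      have : co D (u + m) * ind D v ≤ 1 := by nlinarith
      calc ind D u * co D (u + m) * (ind D v * co D (v + m))
          = (ind D u * co D (v + m)) * (co D (u + m) * ind D v) := by ring
        _ ≤ (ind D u * co D (v + m)) * 1 := by
            apply mul_le_mul_of_nonneg_left this (mul_nonneg a0 d0)
        _ = _ := by ring
    have p2 : ind D u * co D (u + m) * (ind D v * co D (v + m)) ≤ ind D v * co D (u + m) := by
      have : co D (v + m) * ind D u ≤ 1 := by nlinarith
      calc ind D u * co D (u + m) * (ind D v * co D (v + m))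
          = (ind D v * co D (u + m)) * (co D (v + m) * ind D u) := by ring
        _ ≤ (ind D v * co D (u + m)) * 1 := by
            apply mul_le_mul_of_nonneg_left this (mul_nonneg c0 b0)
        _ = _ := by ring
    have q1 : 0 ≤ pos1 (v + m - u) * (ind D u * co D (v + m)) :=
      mul_nonneg (pos1_nonneg _) (mul_nonneg a0 d0)
    have q2 : 0 ≤ pos1 (u + m - v) * (ind D v * co D (u + m)) :=
      mul_nonneg (pos1_nonneg _) (mul_nonneg c0 b0)
    by_cases h : u < v + m
    · have e : pos1 (v + m - u) = 1 := by unfold pos1; rw [if_pos (by omega)]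
      rw [e] at q1 ⊢
      linarith
    · have e : pos1 (u + m - v) = 1 := by unfold pos1; rw [if_pos (by omega)]
      rw [e] at q2 ⊢
      linarith
  calc N D m ^ 2 = (∑' u, g u) * (∑' v, g v) := by rw [sq]; rfl
    _ = ∑' p : ℤ × ℤ, g p.1 * g p.2 := gs.tsum_mul_tsum gs hgg
    _ ≤ ∑' p : ℤ × ℤ, (T p + T p.swap) := Summable.tsum_le_tsum key hgg (hTs.add hTs')
    _ = 2 * inv D := by rw [Summable.tsum_add hTs hTs', hTe, hTe']; ring

/-- the number of ones on the negative sites minus the number of zeros on the nonnegative sites -/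
def M (D : Conf) : ℤ := ((D.filter fun i => i < 0).card : ℤ) - ((D.filter fun i => 0 ≤ i).card : ℤ)

lemma M_empty : M ∅ = 0 := by simp [M]

lemma ind_sub_heav (D : Conf) (i : ℤ) : ind D i - (if 0 ≤ i then (1:ℝ) else 0) =
    (if i ∈ D then (if i < 0 then (1:ℝ) else -1) else 0) := by
  unfold ind on
  by_cases h0 : 0 ≤ i <;> by_cases h1 : i ∈ D
  · simp [h0, h1, not_lt.mpr h0]
  · simp [h0, h1]
  · simp [h0, h1, not_le.mp h0]
  · simp [h0, h1]

lemma dsum_summable (D : Conf) : Summable fun i => ind D i - (if 0 ≤ i then (1:ℝ) else 0) := by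
  apply summable_of_window (-(bd D : ℤ)) (bd D)
  intro i hi
  by_contra hc
  apply hi
  have h0 : (0:ℤ) ≤ bd D := by positivity
  rw [not_and_or] at hc
  rcases hc with hc | hc
  · rw [ind_of_lt (by omega), if_neg (by omega)]; ring
  · rw [ind_of_gt (by omega), if_pos (by omega)]; ring

lemma M_eq (D : Conf) : (M D : ℝ) = ∑' i, (ind D i - (if 0 ≤ i then (1:ℝ) else 0)) := by
  rw [tsum_congr (ind_sub_heav D)]
  rw [tsum_eq_sum (s := D) (by intro b hb; simp [hb])]
  rw [Finset.sum_congr rfl (g := fun i => (if i < 0 then (1:ℝ) else -1))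
    (by intro i hi; simp [hi])]
  have : ∀ i : ℤ, (if i < 0 then (1:ℝ) else -1) = (if i < 0 then (1:ℝ) else 0) - (if 0 ≤ i then 1 else 0) := by
    intro i
    by_cases h : i < 0
    · simp [h, not_le.mpr h]
    · simp [h, not_lt.mp h]
  rw [Finset.sum_congr rfl (fun i _ => this i), Finset.sum_sub_distrib]
  simp [M]

lemma M_flipAt (D : Conf) (j : ℤ) : (M (flipAt D j) : ℝ) = M D + (1 - 2 * ind D j) := by
  rw [M_eq, M_eq]
  have : ∀ i, ind (flipAt D j) i - (if 0 ≤ i then (1:ℝ) else 0) =
      (ind D i - (if 0 ≤ i then (1:ℝ) else 0)) + (if i = j then (1 - 2 * ind D j) else 0) := by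
    intro i
    rw [ind_flipAt]
    split_ifs <;> ring
  rw [tsum_congr this, Summable.tsum_add (dsum_summable D) (hasSum_ite_eq j _).summable,
    tsum_ite_eq]

/-- the number of ones to the left of `y` -/
noncomputable def ql (D : Conf) (y : ℤ) : ℝ := ∑' i, (if i < y then ind D i else 0)

/-- the number of zeros at the sites `≥ y` -/
noncomputable def pr (D : Conf) (y : ℤ) : ℝ := ∑' i, (if y ≤ i then co D i else 0)

lemma ql_summable (D : Conf) (y : ℤ) : Summable fun i => (if i < y then ind D i else 0) := by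
  apply summable_of_window (-(bd D : ℤ)) y
  intro i hi
  by_cases h : i < y
  · rw [if_pos h] at hi
    exact ⟨le_of_ind_ne hi, h.le⟩
  · rw [if_neg h] at hi; exact absurd rfl hi

lemma pr_summable (D : Conf) (y : ℤ) : Summable fun i => (if y ≤ i then co D i else 0) := by
  apply summable_of_window y (bd D)
  intro i hi
  by_cases h : y ≤ i
  · rw [if_pos h] at hi
    exact ⟨h, le_of_co_ne hi⟩
  · rw [if_neg h] at hi; exact absurd rfl hi

lemma ql_sub_pr (D : Conf) (y : ℤ) : ql D y - pr D y = y + M D := by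
  unfold ql pr
  rw [← Summable.tsum_sub (ql_summable D y) (pr_summable D y)]
  have e : ∀ i, (if i < y then ind D i else 0) - (if y ≤ i then co D i else 0) =
      (ind D i - (if 0 ≤ i then (1:ℝ) else 0)) -
        ((if 0 ≤ i - y then (1:ℝ) else 0) - (if 0 ≤ i then (1:ℝ) else 0)) := by
    intro i
    unfold co
    by_cases h : i < y
    · rw [if_pos h, if_neg (by omega), if_neg (by omega : ¬ 0 ≤ i - y)]; ring
    · rw [if_neg h, if_pos (by omega), if_pos (by omega : 0 ≤ i - y)]; ring
  rw [tsum_congr e, Summable.tsum_sub (dsum_summable D) (heav_diff y).1, (heav_diff y).2, ← M_eq]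
  ring

lemma ql_mul_pr_le (D : Conf) (y : ℤ) : ql D y * pr D y ≤ inv D := by
  unfold ql pr
  apply tsum_mul_tsum_le_inv D
  · intro u
    by_cases h : u < y
    · rw [if_pos h]; exact ⟨ind_nonneg _ _, le_rfl⟩
    · rw [if_neg h]; exact ⟨le_rfl, ind_nonneg _ _⟩
  · intro u
    by_cases h : y ≤ u
    · rw [if_pos h]; exact ⟨co_nonneg _ _, le_rfl⟩
    · rw [if_neg h]; exact ⟨le_rfl, co_nonneg _ _⟩
  · exact ql_summable D y
  · exact pr_summable D y
  · intro u v hu hv
    by_contra hc
    by_cases h : u < y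
    · rw [if_neg (by omega)] at hv; exact hv rfl
    · rw [if_neg h] at hu; exact hu rfl

/-- the number of sites at which the configuration differs from the Heaviside state with the same
centre of mass -/
noncomputable def disc (D : Conf) : ℝ := ∑' i, |ind D i - (if -M D ≤ i then (1:ℝ) else 0)|

lemma disc_eq (D : Conf) : disc D = ql D (-M D) + pr D (-M D) := by
  unfold disc ql pr
  rw [← Summable.tsum_add (ql_summable D _) (pr_summable D _)]
  apply tsum_congr
  intro i
  by_cases h : i < -M D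
  · rw [if_pos h, if_neg (by omega), if_neg (by omega), sub_zero, abs_of_nonneg (ind_nonneg _ _)]
    ring
  · rw [if_neg h, if_pos (by omega), if_pos (by omega), abs_of_nonpos (by linarith [ind_le_one D i])]
    unfold co
    ring

lemma disc_sq_le (D : Conf) : disc D ^ 2 ≤ 4 * inv D := by
  have h1 := ql_sub_pr D (-M D)
  have h2 := ql_mul_pr_le D (-M D)
  push_cast at h1
  have h3 : ql D (-M D) = pr D (-M D) := by linarith
  rw [disc_eq, h3]
  rw [h3] at h2
  nlinarith

lemma disc_nonneg (D : Conf) : 0 ≤ disc D := tsum_nonneg fun _ => abs_nonneg _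

end Pool.Agent.K9h92.BV
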