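import Pool.Agent.K9h92.BV.Heavy

set_option autoImplicit false

/-!
The symmetric kernel `k ↦ 1 / k ^ 4`.
-/

open Filter Topology

namespace Pool.Agent.K9h92.BV

/-- the kernel `1 / k ^ 4` for `k ≠ 0`, and `0` for `k = 0` -/
noncomputable def a4 (k : ℤ) : ℝ := 1 / (k:ℝ) ^ 4

lemma a4_pos {k : ℤ} (hk : k ≠ 0) : 0 < a4 k := by
  unfold a4
  have : (k:ℝ) ≠ 0 := by exact_mod_cast hk
  positivity

lemma a4_jump : Jump a4 := by
  refine ⟨fun k => ?_, ?_, ?_, ?_⟩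
  · unfold a4; positivity
  · exact Real.summable_one_div_int_pow.mpr (by norm_num)
  · refine (Real.summable_one_div_int_pow.mpr (show 1 < 2 by norm_num)).congr fun k => ?_
    unfold a4
    by_cases hk : k = 0
    · subst hk; simp
    · have : (k:ℝ) ≠ 0 := by exact_mod_cast hk
      field_simp
  · rw [eq_top_iff]
    intro m _
    have h1 : (1:ℤ) ∈ AddSubmonoid.closure {k : ℤ | 0 < a4 k} :=
      AddSubmonoid.subset_closure (a4_pos (by norm_num))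
    have h2 : (-1:ℤ) ∈ AddSubmonoid.closure {k : ℤ | 0 < a4 k} :=
      AddSubmonoid.subset_closure (a4_pos (by norm_num))
    rcases le_total 0 m with h | h
    · obtain ⟨n, rfl⟩ := Int.eq_ofNat_of_zero_le h
      have := AddSubmonoid.nsmul_mem _ h1 n
      simpa using this
    · obtain ⟨n, hn⟩ := Int.eq_ofNat_of_zero_le (show 0 ≤ -m by omega)
      have := AddSubmonoid.nsmul_mem _ h2 n
      have e : m = n • (-1:ℤ) := by simp; omega
      rw [e]; exact this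

lemma a4_cm : cm a4 = 0 := by
  unfold cm
  have h : ∑' k : ℤ, (k:ℝ) * a4 k = -∑' k : ℤ, (k:ℝ) * a4 k := by
    conv_lhs => rw [← (Equiv.neg ℤ).tsum_eq]
    rw [← tsum_neg]
    apply tsum_congr
    intro k
    simp only [Equiv.neg_apply, a4]
    push_cast
    rw [show (-(k:ℝ)) ^ 4 = (k:ℝ) ^ 4 by ring]
    ring
  linarith

lemma a4_tl (K : ℕ) (hK : 0 < K) : 1 / 16 ≤ (K:ℝ) ^ 3 * tlL a4 K := by
  have hKr : (0:ℝ) < K := by exact_mod_cast hK
  have h1 : ∑ k ∈ Finset.Ioc (-(2 * K : ℤ)) (-(K:ℤ)), (if k ≤ -(K:ℤ) then a4 k else 0) ≤ tlL a4 K := by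
    unfold tlL
    apply (tlL_summable a4_jump K).sum_le_tsum
    intro i _
    split_ifs
    · exact a4_jump.nonneg i
    · exact le_rfl
  have h2 : ∑ k ∈ Finset.Ioc (-(2 * K : ℤ)) (-(K:ℤ)), 1 / (2 * (K:ℝ)) ^ 4 ≤
      ∑ k ∈ Finset.Ioc (-(2 * K : ℤ)) (-(K:ℤ)), (if k ≤ -(K:ℤ) then a4 k else 0) := by
    apply Finset.sum_le_sum
    intro k hk
    rw [Finset.mem_Ioc] at hk
    rw [if_pos hk.2]
    unfold a4
    have h3 : (k:ℝ) ≤ -K := by exact_mod_cast hk.2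
    have h4 : -(2 * (K:ℝ)) < k := by
      have : ((-(2 * K : ℤ) : ℤ) : ℝ) < k := by exact_mod_cast hk.1
      push_cast at this
      linarith
    have h5 : (k:ℝ) ^ 4 ≤ (2 * (K:ℝ)) ^ 4 := by
      have : (-(k:ℝ)) ^ 4 ≤ (2 * (K:ℝ)) ^ 4 := pow_le_pow_left₀ (by linarith) (by linarith) 4
      calc (k:ℝ) ^ 4 = (-(k:ℝ)) ^ 4 := by ring
        _ ≤ _ := this
    have h6 : 0 < (k:ℝ) ^ 4 := by
      have : (k:ℝ) ≠ 0 := by linarith
      positivity
    exact one_div_le_one_div_of_le h6 h5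
  rw [Finset.sum_const, Int.card_Ioc, nsmul_eq_mul] at h2
  have e1 : (((-(K:ℤ) - -(2 * K : ℤ)).toNat : ℕ) : ℝ) = K := by
    have : (-(K:ℤ) - -(2 * K : ℤ)).toNat = K := by omega
    rw [this]
  rw [e1] at h2
  calc (1:ℝ) / 16 = (K:ℝ) ^ 3 * (K * (1 / (2 * (K:ℝ)) ^ 4)) := by field_simp; norm_num
    _ ≤ (K:ℝ) ^ 3 * tlL a4 K := by
        apply mul_le_mul_of_nonneg_left (h2.trans h1) (by positivity)

lemma a4_heavy : ¬ Tendsto (fun K : ℕ => (K:ℝ) ^ 3 * tlL a4 K) atTop (𝓝 0) := by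
  intro h
  have h1 := h.eventually (gt_mem_nhds (show (0:ℝ) < 1 / 16 by norm_num))
  obtain ⟨K, hK1, hK2⟩ := (h1.and (eventually_ge_atTop 1)).exists
  have := a4_tl K hK2
  linarith

end Pool.Agent.K9h92.BV
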