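import Pool.Agent.K9h92.BV.Ends2
import Pool.Agent.K9h92.BV.Ex4

set_option autoImplicit false

/-!
The criterion for the convergence of the end points of the interface.
-/

open ENNReal Filter Topology MeasureTheory ProbabilityTheory
open scoped NNReal

namespace Pool.Agent.K9h92.BV

variable {a : ℤ → ℝ}

lemma Tl_split (ha : Jump a) {K : ℕ} (hK : 0 < K) : Tl a K = tlL a K + tlR a K := by
  have sR : Summable fun k : ℤ => if (K:ℤ) ≤ k then a k else 0 := by
    apply Summable.of_nonneg_of_le (fun k => ?_) (fun k => ?_) ha.summable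
    · split_ifs
      · exact ha.nonneg k
      · exact le_rfl
    · split_ifs
      · exact le_rfl
      · exact ha.nonneg k
  unfold Tl tlL tlR
  rw [← Summable.tsum_add (tlL_summable ha K) sR]
  apply tsum_congr
  intro k
  have hK' : (0:ℤ) < K := by exact_mod_cast hK
  by_cases h1 : (K:ℤ) ≤ k
  · rw [if_pos h1, if_neg (show ¬ k ≤ -(K:ℤ) by omega), if_pos (le_trans h1 (le_abs_self k)),
      zero_add]
  · by_cases h2 : k ≤ -(K:ℤ)
    · rw [if_neg h1, if_pos h2, if_pos, add_zero]
      have := neg_le_abs k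
      omega
    · rw [if_neg h1, if_neg h2, if_neg, add_zero]
      rw [not_le, abs_lt]
      constructor <;> omega

lemma light_of (ha : Jump a) (hl : Tendsto (fun K : ℕ => (K:ℝ) ^ 3 * tlL a K) atTop (𝓝 0))
    (hr : Tendsto (fun K : ℕ => (K:ℝ) ^ 3 * tlR a K) atTop (𝓝 0)) : Light a := by
  have h := hl.add hr
  rw [add_zero] at h
  refine h.congr' ?_
  filter_upwards [eventually_gt_atTop 0] with K hK
  rw [Tl_split ha hK]; ring

lemma light_left (ha : Jump a) (h : Light a) :
    Tendsto (fun K : ℕ => (K:ℝ) ^ 3 * tlL a K) atTop (𝓝 0) := by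
  refine tendsto_of_tendsto_of_tendsto_of_le_of_le' tendsto_const_nhds h
    (Eventually.of_forall fun K => mul_nonneg (by positivity) (tlL_nonneg ha K)) ?_
  filter_upwards [eventually_gt_atTop 0] with K hK
  rw [Tl_split ha hK]
  apply mul_le_mul_of_nonneg_left _ (by positivity)
  linarith [tlR_nonneg ha K]

/-- a finite third moment gives a light tail -/
lemma light_of_third (ha : Jump a) (h3 : Summable fun k : ℤ => |(k:ℝ)| ^ 3 * a k) : Light a := by
  have h0 : ∀ k : ℤ, 0 ≤ |(k:ℝ)| ^ 3 * a k := fun k => mul_nonneg (by positivity) (ha.nonneg k)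
  have hs : ∀ K : ℕ, Summable fun k : ℤ => if (K:ℤ) ≤ |k| then |(k:ℝ)| ^ 3 * a k else 0 := by
    intro K
    apply Summable.of_nonneg_of_le (fun k => ?_) (fun k => ?_) h3
    · split_ifs
      · exact h0 k
      · exact le_rfl
    · split_ifs
      · exact le_rfl
      · exact h0 k
  have hlim : Tendsto (fun K : ℕ => ∑' k : ℤ, if (K:ℤ) ≤ |k| then |(k:ℝ)| ^ 3 * a k else 0)
      atTop (𝓝 0) := by
    have e0 : ∑' k : ℤ, (0:ℝ) = 0 := by simp
    have h4 := tendsto_tsum_of_dominated_convergence (𝓕 := (atTop : Filter ℕ))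
      (f := fun (K : ℕ) (k : ℤ) => if (K:ℤ) ≤ |k| then |(k:ℝ)| ^ 3 * a k else 0)
      (g := fun _ => (0:ℝ)) (bound := fun k : ℤ => |(k:ℝ)| ^ 3 * a k) h3 ?_ ?_
    · rw [e0] at h4; exact h4
    · intro k
      apply tendsto_const_nhds.congr'
      filter_upwards [eventually_gt_atTop k.natAbs] with K hK
      rw [if_neg]
      rw [Int.abs_eq_natAbs]
      omega
    · refine Eventually.of_forall fun K k => ?_
      rw [Real.norm_eq_abs]
      split_ifs
      · rw [abs_of_nonneg (h0 k)]
      · rw [abs_zero]; exact h0 k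
  refine tendsto_of_tendsto_of_tendsto_of_le_of_le tendsto_const_nhds hlim
    (fun K => mul_nonneg (by positivity) (Tl_nonneg ha K)) (fun K => ?_)
  simp only
  unfold Tl
  rw [← tsum_mul_left]
  apply Summable.tsum_le_tsum _ ((Tl_summable ha K).mul_left _) (hs K)
  intro k
  by_cases h : (K:ℤ) ≤ |k|
  · rw [if_pos h, if_pos h]
    apply mul_le_mul_of_nonneg_right _ (ha.nonneg k)
    apply pow_le_pow_left₀ (by positivity)
    have : ((K:ℤ):ℝ) ≤ ((|k| : ℤ) : ℝ) := by exact_mod_cast h
    rw [Int.cast_abs] at this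
    exact_mod_cast this
  · rw [if_neg h, if_neg h, mul_zero]

lemma conv_left (ha : Jump a) {σ μ : ℝ} (h : Conv a lft σ μ) :
    Tendsto (fun K : ℕ => (K:ℝ) ^ 3 * tlL a K) atTop (𝓝 0) := by
  by_contra hcon
  exact not_conv_of_disc ha (heavy_left.{0} ha hcon) h

lemma conv_right (ha : Jump a) {σ μ : ℝ} (h : Conv a rgt σ μ) :
    Tendsto (fun K : ℕ => (K:ℝ) ^ 3 * tlR a K) atTop (𝓝 0) := by
  by_contra hcon
  exact not_conv_of_disc ha (heavy_right.{0} ha hcon) h

lemma conv_centred (ha : Jump a) (hL : Light a) {f : Conf → ℤ} (hf : f = lft ∨ f = rgt) {σ μ : ℝ}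
    (h : Conv a f σ μ) : cm a = 0 := by
  by_contra hc
  apply not_conv_of_escape ha _ h
  intro ε Ω _ P _ X x e S K
  exact S.escape' f (S.close2 hL hf) one_pos hc

lemma cm_symm (hsym : ∀ k, a (-k) = a k) : cm a = 0 := by
  unfold cm
  have h : ∑' k : ℤ, (k:ℝ) * a k = -∑' k : ℤ, (k:ℝ) * a k := by
    conv_lhs => rw [← (Equiv.neg ℤ).tsum_eq]
    rw [← tsum_neg]
    apply tsum_congr
    intro k
    simp only [Equiv.neg_apply]
    rw [hsym]
    push_cast
    ring
  linarith

lemma tl_symm (hsym : ∀ k, a (-k) = a k) (K : ℕ) : tlR a K = tlL a K := by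
  rw [tlR_eq]
  congr 1
  funext k
  exact hsym k

end Pool.Agent.K9h92.BV
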