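import Pool.Agent.K9h92.BV.Occ

set_option autoImplicit false

/-!
Large jumps of the end points of the interface in the rescaled process.
-/

open ENNReal Filter Topology MeasureTheory ProbabilityTheory

namespace Pool.Agent.K9h92.BV

variable {a : ℤ → ℝ}

lemma exp_pos_ae : ∀ᵐ x ∂(expMeasure 1), 0 < x := by
  rw [expMeasure_one_eq]
  have h : ∀ᵐ x ∂(volume.restrict (Set.Ioi (0:ℝ))), 0 < x := by
    filter_upwards [ae_restrict_mem measurableSet_Ioi] with x hx using hx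
  exact (withDensity_absolutelyContinuous _ _).ae_le h

lemma e_pos {Ω : Type*} [MeasurableSpace Ω] {P : Measure Ω} {e : ℕ → Ω → ℝ}
    (hlaw : ∀ n, HasLaw (e n) (expMeasure 1) P) : ∀ᵐ ω ∂P, ∀ n, 0 < e n ω := by
  rw [ae_all_iff]
  intro n
  have h := exp_pos_ae
  rw [← (hlaw n).map_eq] at h
  exact ae_of_ae_map (hlaw n).aemeasurable h

/-- A jump of size at least `η` of the rescaled process in the time interval `[0, τ]`. -/
def Disc {Ω : Type*} (ε τ η : ℝ) (f : Conf → ℤ) (X : ℝ → Ω → Conf) (ω : Ω) : Prop :=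
  ∀ h : ℝ, 0 < h → ∃ s t : ℝ, 0 ≤ s ∧ s ≤ τ ∧ 0 ≤ t ∧ t ≤ τ ∧ |s - t| ≤ h ∧
    η ≤ |ε * (f (X (s / ε ^ 2) ω) : ℝ) - ε * (f (X (t / ε ^ 2) ω) : ℝ)|

lemma disc_of {Ω : Type*} (ha : Jump a) {ε τ η : ℝ} (hε : 0 < ε) (hε1 : ε < 1) {f : Conf → ℤ}
    {X : ℝ → Ω → Conf} {x : ℕ → Ω → Conf} {e : ℕ → Ω → ℝ} {ω : Ω}
    (hX : ∀ (n : ℕ) (t : ℝ), jumpTime a ε x e n ω ≤ t → t < jumpTime a ε x e (n + 1) ω →
      X t ω = x n ω) (he : ∀ n, 0 < e n ω) {n i : ℕ} (hi : i < n)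
    (hn : jumpTime a ε x e n ω ≤ τ / ε ^ 2) (hJ : Jf f (η / ε) (x i ω) (x (i + 1) ω)) :
    Disc ε τ η f X ω := by
  intro h hh
  have hsucc : ∀ m, jumpTime a ε x e (m + 1) ω = jumpTime a ε x e m ω + e m ω / trate a ε (x m ω) := by
    intro m; unfold jumpTime; rw [Finset.sum_range_succ]
  have hlt : ∀ m, jumpTime a ε x e m ω < jumpTime a ε x e (m + 1) ω := by
    intro m
    rw [hsucc]
    have := div_pos (he m) (trate_pos ha hε.le hε1 (x m ω))
    linarith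
  have hmono : Monotone fun m => jumpTime a ε x e m ω :=
    monotone_nat_of_le_succ fun m => (hlt m).le
  have h0 : jumpTime a ε x e 0 ω = 0 := by unfold jumpTime; simp
  have hTi : 0 ≤ jumpTime a ε x e i ω := by rw [← h0]; exact hmono (Nat.zero_le i)
  have hTn : jumpTime a ε x e (i + 1) ω ≤ τ / ε ^ 2 := (hmono hi).trans hn
  set A := jumpTime a ε x e i ω with hA
  set B := jumpTime a ε x e (i + 1) ω with hB
  have hAB : A < B := hlt i
  have hBC : B < jumpTime a ε x e (i + 1 + 1) ω := hlt (i + 1)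
  have hε2 : 0 < ε ^ 2 := by positivity
  set s' := max A (B - h / ε ^ 2) with hs'
  have hs1 : A ≤ s' := le_max_left _ _
  have hs2 : s' < B := max_lt hAB (by have := div_pos hh hε2; linarith)
  have hs3 : B - s' ≤ h / ε ^ 2 := by
    have : B - h / ε ^ 2 ≤ s' := le_max_right _ _
    linarith
  have hsX : X s' ω = x i ω := hX i s' hs1 hs2
  have htX : X B ω = x (i + 1) ω := hX (i + 1) B le_rfl hBC
  rw [le_div_iff₀ hε2] at hTn hs3
  have es : s' * ε ^ 2 / ε ^ 2 = s' := by field_simp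
  have et : B * ε ^ 2 / ε ^ 2 = B := by field_simp
  refine ⟨s' * ε ^ 2, B * ε ^ 2, ?_, ?_, ?_, hTn, ?_, ?_⟩
  · exact mul_nonneg (hTi.trans hs1) hε2.le
  · exact (mul_le_mul_of_nonneg_right hs2.le hε2.le).trans hTn
  · exact mul_nonneg (hTi.trans hAB.le) hε2.le
  · rw [abs_sub_comm, ← sub_mul, abs_of_nonneg (mul_nonneg (by linarith) hε2.le)]
    exact hs3
  · rw [es, et, hsX, htX, ← mul_sub, abs_mul, abs_of_pos hε]
    unfold Jf at hJ
    rw [div_le_iff₀ hε] at hJ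
    linarith

section

variable {ε : ℕ → ℝ} {Ω : ℕ → Type*} [∀ k, MeasurableSpace (Ω k)]
    {P : ∀ k, Measure (Ω k)} [∀ k, IsProbabilityMeasure (P k)]
    {X : ∀ k, ℝ → Ω k → Conf} {x : ∀ k, ℕ → Ω k → Conf} {e : ∀ k, ℕ → Ω k → ℝ}

/-- For a kernel with a heavy tail the rescaled process has large jumps. -/
lemma Seqs.disc (S : Seqs a ε P X x e) {far : Conf → ℝ → Prop} {f : Conf → ℤ} {tl : ℕ → ℝ}
    (hside : (far = farL ∧ f = lft ∧ tl = tlL a) ∨ (far = farR ∧ f = rgt ∧ tl = tlR a))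
    {τ η θ : ℝ} (hτ : 0 < τ) (hη : 0 < η) (hθ : 0 < θ) (p : ℕ → ℕ)
    (hp : ∀ᶠ k in atTop, 2 * η ≤ p k * ε k)
    (ht : ∀ᶠ k in atTop, θ * ε k ^ 2 ≤ p k * tl (2 * p k)) :
    ∃ ρ : ℝ, 0 < ρ ∧ ∀ᶠ k in atTop, ENNReal.ofReal ρ ≤ P k {ω | Disc (ε k) τ η f (X k) ω} := by
  have ha := S.jump
  have hs := s2_pos ha
  obtain ⟨ρ0, hρ0⟩ : ∃ ρ0 : ℝ, ρ0 = 1 - Real.exp (-(θ * τ / 16)) := ⟨_, rfl⟩
  have hρ : 0 < ρ0 := by
    have : Real.exp (-(θ * τ / 16)) < 1 := by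
      rw [Real.exp_lt_one_iff]
      have : 0 < θ * τ / 16 := by positivity
      linarith
    linarith
  have hsq : 0 < Real.sqrt (s2 a * τ / 2) := Real.sqrt_pos.mpr (by positivity)
  obtain ⟨δ, hδ⟩ : ∃ δ : ℝ, δ = η / Real.sqrt (s2 a * τ / 2) := ⟨_, rfl⟩
  have hδ0 : 0 < δ := by rw [hδ]; positivity
  obtain ⟨n1, hjp⟩ := jump_prob (B := s2 a * τ / 2) ha hside hδ0 (show 0 < ρ0 / 4 by positivity)
  obtain ⟨n2, htl⟩ := time_lln.{_} (B := s2 a * τ) ha (δ := 1 / (4 * s2 a)) (by positivity)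
    (show 0 < ρ0 / 4 by positivity)
  refine ⟨ρ0 / 2, by positivity, ?_⟩
  -- the number of steps
  have hn : ∀ k, ∃ n : ℕ, n = ⌊s2 a * τ / (2 * ε k ^ 2)⌋₊ := fun k => ⟨_, rfl⟩
  have hT : Tendsto (fun k => ⌊s2 a * τ / (2 * ε k ^ 2)⌋₊) atTop atTop := by
    apply tendsto_nat_floor_atTop.comp
    have h1 : Tendsto (fun k => (2 * ε k ^ 2)⁻¹) atTop atTop := by
      apply Filter.Tendsto.inv_tendsto_nhdsGT_zero
      rw [tendsto_nhdsWithin_iff]
      refine ⟨?_, Eventually.of_forall fun k => ?_⟩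
      · simpa using (S.lim.pow 2).const_mul 2
      · have := S.pos k
        exact Set.mem_Ioi.mpr (by positivity)
    have h2 := h1.const_mul_atTop (show 0 < s2 a * τ by positivity)
    refine h2.congr fun k => ?_
    rw [div_eq_mul_inv]
  have ev1 := hT.eventually_ge_atTop (max (max n1 n2) 1)
  have ev2 : ∀ᶠ k in atTop, ε k ≤ 3 / 10 :=
    (S.lim.eventually (gt_mem_nhds (by norm_num : (0:ℝ) < 3 / 10))).mono fun k hk => hk.le
  filter_upwards [ev1, ev2, hp, ht] with k hk1 hk2 hk3 hk4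
  have hε := S.pos k
  have hε2 : 0 < ε k ^ 2 := by positivity
  obtain ⟨n, hn⟩ := hn k
  rw [← hn] at hk1
  have hnn1 : n1 ≤ n := (le_trans (le_max_left _ _) (le_max_left _ _)).trans hk1
  have hnn2 : n2 ≤ n := (le_trans (le_max_right _ _) (le_max_left _ _)).trans hk1
  have hn1 : 1 ≤ n := (le_max_right _ _).trans hk1
  have hnr : (1:ℝ) ≤ n := by exact_mod_cast hn1
  have hnle : (n:ℝ) ≤ s2 a * τ / (2 * ε k ^ 2) := by
    rw [hn]; exact Nat.floor_le (by positivity)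
  have hnge : s2 a * τ / (4 * ε k ^ 2) ≤ n := by
    have h1 := Nat.lt_floor_add_one (s2 a * τ / (2 * ε k ^ 2))
    rw [← hn] at h1
    have h2 : s2 a * τ / (2 * ε k ^ 2) = 2 * (s2 a * τ / (4 * ε k ^ 2)) := by field_simp; norm_num
    linarith
  have hB : ε k ^ 2 * n ≤ s2 a * τ / 2 := by
    calc ε k ^ 2 * n ≤ ε k ^ 2 * (s2 a * τ / (2 * ε k ^ 2)) := by gcongr
      _ = s2 a * τ / 2 := by field_simp
  have hδn : δ * Real.sqrt n ≤ η / ε k := by
    have h1 : Real.sqrt n ≤ Real.sqrt (s2 a * τ / 2) / ε k := by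
      rw [le_div_iff₀ hε, mul_comm]
      calc ε k * Real.sqrt n = Real.sqrt (ε k ^ 2 * n) := by
            rw [Real.sqrt_mul (by positivity), Real.sqrt_sq hε.le]
        _ ≤ _ := Real.sqrt_le_sqrt hB
    calc δ * Real.sqrt n ≤ δ * (Real.sqrt (s2 a * τ / 2) / ε k) := by gcongr
      _ = η / ε k := by rw [hδ]; field_simp
  have hpk : 2 * (η / ε k) ≤ p k := by
    rw [← mul_div_assoc, div_le_iff₀ hε]; exact hk3
  have hlt1 := S.lt_one k
  have hdepA : ∀ w w' : Pth, (∀ i ≤ n, w i = w' i) →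
      ((∀ i < n, ¬ Jf f (η / ε k) (w i) (w (i + 1))) ↔
        (∀ i < n, ¬ Jf f (η / ε k) (w' i) (w' (i + 1)))) := by
    intro w w' hw
    constructor
    · intro h i hi
      rw [← hw i hi.le, ← hw (i + 1) hi]; exact h i hi
    · intro h i hi
      rw [hw i hi.le, hw (i + 1) hi]; exact h i hi
  have p1 : P k {ω | ∀ i < n, ¬ Jf f (η / ε k) (x k i ω) (x k (i + 1) ω)} ≤
      ENNReal.ofReal (Real.exp (-(θ * τ / 16)) + ρ0 / 4) := by
    have e1 := chain_prob ha hε.le hlt1 (S.chain k) n hdepA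
    have h2 := hjp n hnn1 (ε k) hε.le (by linarith) hB (η / ε k) (p k) hδn hpk
    refine (le_of_eq e1).trans (h2.trans (ENNReal.ofReal_le_ofReal ?_))
    apply add_le_add_left
    apply Real.exp_le_exp.mpr
    apply neg_le_neg
    rw [le_div_iff₀ (by positivity)]
    calc θ * τ / 16 * (4 * s2 a) = θ * ε k ^ 2 * (s2 a * τ / (4 * ε k ^ 2)) := by
          field_simp; norm_num
      _ ≤ (p k * tl (2 * p k)) * n :=
          mul_le_mul hk4 hnge (by positivity) (le_trans (by positivity) hk4)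
  have p2 := htl n hnn2 (ε k) hε.le (by linarith) (by linarith) (S.chain k) (S.emeas k) (S.elaw k)
    (S.eind k) (S.xe k)
  have hsub : (Set.univ : Set (Ω k)) ≤ᵐ[P k] ({ω | Disc (ε k) τ η f (X k) ω} ∪
      ({ω | ∀ i < n, ¬ Jf f (η / ε k) (x k i ω) (x k (i + 1) ω)} ∪
        {ω | ∃ m ≤ n, 1 / (4 * s2 a) * n ≤ |Tn a (x k) (e k) m ω - m / s2 a|}) : Set (Ω k)) := by
    filter_upwards [S.follow k, e_pos (S.elaw k)] with ω hω1 hω2
    intro _
    by_cases h1 : ∀ i < n, ¬ Jf f (η / ε k) (x k i ω) (x k (i + 1) ω)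
    · exact Or.inr (Or.inl h1)
    by_cases h2 : ∃ m ≤ n, 1 / (4 * s2 a) * n ≤ |Tn a (x k) (e k) m ω - m / s2 a|
    · exact Or.inr (Or.inr h2)
    left
    push Not at h1
    obtain ⟨i, hi, hJ⟩ := h1
    have h3 : |Tn a (x k) (e k) n ω - n / s2 a| < 1 / (4 * s2 a) * n := by
      by_contra hc
      exact h2 ⟨n, le_rfl, not_lt.mp hc⟩
    refine disc_of ha hε hlt1 hω1 hω2 hi ?_ hJ
    rw [abs_lt] at h3
    have h4 := jumpTime_le ha hε.le (by linarith) (x k) (e k) n ω (fun i => (hω2 i).le)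
    have h5 : Tn a (x k) (e k) n ω ≤ 5 / (4 * s2 a) * n := by
      have : 5 / (4 * s2 a) * n = n / s2 a + 1 / (4 * s2 a) * n := by field_simp; norm_num
      linarith [h3.2]
    have h6 : 5 / (4 * s2 a) * n ≤ 5 / 8 * (τ / ε k ^ 2) := by
      calc 5 / (4 * s2 a) * n ≤ 5 / (4 * s2 a) * (s2 a * τ / (2 * ε k ^ 2)) := by gcongr
        _ = 5 / 8 * (τ / ε k ^ 2) := by field_simp; norm_num
    have h7 : 0 ≤ τ / ε k ^ 2 := by positivity
    calc jumpTime a (ε k) (x k) (e k) n ω ≤ (1 + 2 * ε k) * Tn a (x k) (e k) n ω := h4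
      _ ≤ (1 + 2 * ε k) * (5 / 8 * (τ / ε k ^ 2)) := by gcongr; exact h5.trans h6
      _ = ((1 + 2 * ε k) * (5 / 8)) * (τ / ε k ^ 2) := by ring
      _ ≤ 1 * (τ / ε k ^ 2) := mul_le_mul_of_nonneg_right (by linarith) h7
      _ = τ / ε k ^ 2 := one_mul _
  have hfin : (1:ℝ≥0∞) ≤ P k {ω | Disc (ε k) τ η f (X k) ω} +
      (ENNReal.ofReal (Real.exp (-(θ * τ / 16)) + ρ0 / 4) + ENNReal.ofReal (ρ0 / 4)) := by
    calc (1:ℝ≥0∞) = P k Set.univ := measure_univ.symm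
      _ ≤ _ := measure_mono_ae hsub
      _ ≤ _ := (measure_union_le _ _).trans
          (add_le_add le_rfl ((measure_union_le _ _).trans (add_le_add p1 p2)))
  rw [← ENNReal.ofReal_add (by positivity) (by positivity)] at hfin
  have hx : Real.exp (-(θ * τ / 16)) + ρ0 / 4 + ρ0 / 4 = 1 - ρ0 / 2 := by rw [hρ0]; ring
  rw [hx, ← tsub_le_iff_right, ← ENNReal.ofReal_one, ← ENNReal.ofReal_sub] at hfin
  · refine le_trans (ENNReal.ofReal_le_ofReal ?_) hfin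
    linarith
  · rw [hρ0]
    have := Real.exp_pos (-(θ * τ / 16))
    linarith

end

end Pool.Agent.K9h92.BV
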