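import Pool.Agent.K9h92.BV.Rates

set_option autoImplicit false

/-!
Drift of the functionals `H ψ`.
-/

namespace Pool.Agent.K9h92.BV

/-- the change of `H ψ` when a zero at `j` becomes a one -/
noncomputable def wt (ψ : ℤ → ℝ) (D : Conf) (j : ℤ) : ℝ :=
  ∑' m, ψ m * (co D (j + m) - ind D (j - m))

lemma co_flipAt (D : Conf) (j i : ℤ) :
    co (flipAt D j) i = co D i - (1 - 2 * ind D j) * (if i = j then 1 else 0) := by
  unfold co; rw [ind_flipAt]; ring

lemma N_flipAt (D : Conf) {m : ℤ} (hm : 0 < m) (j : ℤ) :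
    N (flipAt D j) m = N D m + (1 - 2 * ind D j) * (co D (j + m) - ind D (j - m)) := by
  set c := 1 - 2 * ind D j with hc
  have e : ∀ u, ind (flipAt D j) u * co (flipAt D j) (u + m) =
      ind D u * co D (u + m) + (if u = j then c * co D (j + m) else 0)
        - (if u = j - m then c * ind D (j - m) else 0) := by
    intro u
    rw [ind_flipAt, co_flipAt, ← hc]
    by_cases h1 : u = j
    · subst h1
      rw [if_pos rfl, if_pos rfl, if_neg (by omega), if_neg (by omega)]; ring
    · rw [if_neg h1, if_neg h1]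
      by_cases h2 : u = j - m
      · subst h2
        rw [if_pos (by ring), if_pos rfl]; ring
      · rw [if_neg (by omega), if_neg h2]; ring
  unfold N
  rw [tsum_congr e, Summable.tsum_sub ((N_summable D m).add (hasSum_ite_eq j _).summable)
    (hasSum_ite_eq (j - m) _).summable, Summable.tsum_add (N_summable D m)
    (hasSum_ite_eq j _).summable, tsum_ite_eq, tsum_ite_eq]
  ring

lemma wt_window {ψ : ℤ → ℝ} (hψ : ∀ m ≤ 0, ψ m = 0) (D : Conf) (j m : ℤ)
    (h : ψ m * (co D (j + m) - ind D (j - m)) ≠ 0) : 0 < m ∧ m ≤ bd D + |j| := by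
  have hk := neg_abs_le j
  have hk' := le_abs_self j
  constructor
  · by_contra hc
    exact h (by rw [hψ m (by omega)]; ring)
  · by_contra hc
    apply h
    rw [co_of_gt (by omega), ind_of_lt (by omega)]; ring

lemma wt_summable {ψ : ℤ → ℝ} (hψ : ∀ m ≤ 0, ψ m = 0) (D : Conf) (j : ℤ) :
    Summable fun m => ψ m * (co D (j + m) - ind D (j - m)) := by
  apply summable_of_window 0 (bd D + |j|)
  intro m hm
  have := wt_window hψ D j m hm
  omega

lemma H_flipAt {ψ : ℤ → ℝ} (hψ : ∀ m ≤ 0, ψ m = 0) (D : Conf) (j : ℤ) :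
    H ψ (flipAt D j) = H ψ D + (1 - 2 * ind D j) * wt ψ D j := by
  unfold H wt
  rw [← tsum_mul_left, ← Summable.tsum_add (H_summable hψ D) ((wt_summable hψ D j).mul_left _)]
  apply tsum_congr
  intro m
  by_cases hm : m ≤ 0
  · rw [hψ m hm]; ring
  · rw [N_flipAt D (by omega)]; ring

lemma abs_co_sub_ind_le (D : Conf) (i j : ℤ) : |co D i - ind D j| ≤ 1 := by
  unfold co
  rcases ind_eq D i with h | h <;> rcases ind_eq D j with h' | h' <;> rw [h, h'] <;> norm_num

/-- polynomial bound of the change -/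
lemma wt_bound {ψ : ℤ → ℝ} (hψ : ∀ m ≤ 0, ψ m = 0) {K : ℝ} {q : ℕ} (hK : 0 ≤ K)
    (hb : ∀ m : ℤ, |ψ m| ≤ K * |(m:ℝ)| ^ q) (D : Conf) (j : ℤ) :
    |wt ψ D j| ≤ K * (1 + (bd D : ℝ)) ^ (q + 1) * (1 + |(j:ℝ)|) ^ (q + 1) := by
  have hfin : wt ψ D j = ∑ m ∈ Finset.Ioc (0:ℤ) (bd D + |j|), ψ m * (co D (j + m) - ind D (j - m)) := by
    unfold wt
    rw [tsum_eq_sum (s := Finset.Ioc (0:ℤ) (bd D + |j|))]
    intro m hm
    by_contra hne
    exact hm (Finset.mem_Ioc.mpr (wt_window hψ D j m hne))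
  rw [hfin]
  have hB : (0:ℝ) ≤ (bd D : ℝ) := by positivity
  calc |∑ m ∈ Finset.Ioc (0:ℤ) (bd D + |j|), ψ m * (co D (j + m) - ind D (j - m))|
      ≤ ∑ m ∈ Finset.Ioc (0:ℤ) (bd D + |j|), |ψ m * (co D (j + m) - ind D (j - m))| :=
        Finset.abs_sum_le_sum_abs _ _
    _ ≤ ∑ m ∈ Finset.Ioc (0:ℤ) (bd D + |j|), K * ((bd D : ℝ) + |(j:ℝ)|) ^ q := by
        apply Finset.sum_le_sum
        intro m hm
        rw [Finset.mem_Ioc] at hm
        rw [abs_mul]
        have h1 : |(m:ℝ)| ≤ (bd D : ℝ) + |(j:ℝ)| := by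
          rw [abs_of_nonneg (by exact_mod_cast hm.1.le)]
          exact_mod_cast hm.2
        calc |ψ m| * |co D (j + m) - ind D (j - m)| ≤ |ψ m| * 1 :=
              mul_le_mul_of_nonneg_left (abs_co_sub_ind_le _ _ _) (abs_nonneg _)
          _ ≤ K * |(m:ℝ)| ^ q := by rw [mul_one]; exact hb m
          _ ≤ K * ((bd D : ℝ) + |(j:ℝ)|) ^ q := by
              apply mul_le_mul_of_nonneg_left _ hK
              exact pow_le_pow_left₀ (abs_nonneg _) h1 _
    _ = ((bd D : ℝ) + |(j:ℝ)|) * (K * ((bd D : ℝ) + |(j:ℝ)|) ^ q) := by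
        rw [Finset.sum_const, Int.card_Ioc, nsmul_eq_mul]
        congr 1
        have : ((bd D + |j| - 0).toNat : ℤ) = bd D + |j| := by
          have : (0:ℤ) ≤ bd D + |j| := by positivity
          omega
        have h2 : (((bd D + |j| - 0).toNat : ℤ) : ℝ) = ((bd D + |j| : ℤ) : ℝ) := by rw [this]
        push_cast at h2 ⊢
        exact_mod_cast h2
    _ = K * ((bd D : ℝ) + |(j:ℝ)|) ^ (q + 1) := by ring
    _ ≤ K * ((1 + (bd D : ℝ)) * (1 + |(j:ℝ)|)) ^ (q + 1) := by
        apply mul_le_mul_of_nonneg_left _ hK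
        apply pow_le_pow_left₀ (by positivity)
        nlinarith [abs_nonneg (j:ℝ)]
    _ = _ := by rw [mul_pow]; ring

lemma shift_sum1 (D : Conf) (k m : ℤ) :
    (Summable fun j => ind D (j - k) * co D (j + m)) ∧
      ∑' j, ind D (j - k) * co D (j + m) = N D (m + k) := by
  have h := (Equiv.subRight k).summable_iff.mpr (N_summable D (m + k))
  have h2 := (Equiv.subRight k).tsum_eq (fun u => ind D u * co D (u + (m + k)))
  constructor
  · refine h.congr ?_
    intro j
    simp only [Function.comp, Equiv.subRight_apply]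
    rw [show j - k + (m + k) = j + m by ring]
  · unfold N
    rw [← h2]
    apply tsum_congr
    intro j
    simp only [Equiv.subRight_apply]
    rw [show j - k + (m + k) = j + m by ring]

lemma arrow_sum (D : Conf) (k m : ℤ) :
    (Summable fun j => (ind D (j - k) - ind D j) * (co D (j + m) - ind D (j - m))) ∧
    ∑' j, (ind D (j - k) - ind D j) * (co D (j + m) - ind D (j - m)) =
      N D (m + k) + N D (m - k) - 2 * N D m := by
  obtain ⟨s1, t1⟩ := shift_sum1 D k m
  obtain ⟨s2, t2⟩ := shift_sum1 D 0 m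
  obtain ⟨s3, t3⟩ := shift_sum1 D m (-k)
  obtain ⟨s4, t4⟩ := shift_sum1 D m 0
  have e : ∀ j, (ind D (j - k) - ind D j) * (co D (j + m) - ind D (j - m)) =
      (ind D (j - k) * co D (j + m) - ind D (j - 0) * co D (j + m)) +
      (ind D (j - m) * co D (j + -k) - ind D (j - m) * co D (j + 0)) := by
    intro j
    unfold co
    rw [sub_zero, add_zero, ← sub_eq_add_neg]
    ring
  have ht : Summable fun j => (ind D (j - k) * co D (j + m) - ind D (j - 0) * co D (j + m)) +
      (ind D (j - m) * co D (j + -k) - ind D (j - m) * co D (j + 0)) := (s1.sub s2).add (s3.sub s4)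
  refine ⟨ht.congr fun j => (e j).symm, ?_⟩
  rw [tsum_congr e, Summable.tsum_add (s1.sub s2) (s3.sub s4), Summable.tsum_sub s1 s2,
    Summable.tsum_sub s3 s4, t1, t2, t3, t4]
  rw [show -k + m = m - k by ring, add_zero, zero_add]
  ring

/-- the drift of `H ψ` caused by the arrows of displacement `k` -/
noncomputable def Gk (ψ : ℤ → ℝ) (D : Conf) (k : ℤ) : ℝ :=
  ∑' m, ψ m * (N D (m + k) + N D (m - k) - 2 * N D m)

lemma Gk_eq {ψ : ℤ → ℝ} (hψ : ∀ m ≤ 0, ψ m = 0) (D : Conf) (k : ℤ) :
    ∑' j, (ind D (j - k) - ind D j) * wt ψ D j = Gk ψ D k := by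
  have hk := neg_abs_le k
  have hk' := le_abs_self k
  have hs : Summable (Function.uncurry fun j m : ℤ =>
      ψ m * ((ind D (j - k) - ind D j) * (co D (j + m) - ind D (j - m)))) := by
    apply summable_of_window2 (-(2 * bd D + |k| : ℤ)) (2 * bd D + |k|)
    rintro ⟨j, m⟩ hp
    simp only [Function.uncurry] at hp
    have h1 : ψ m ≠ 0 := left_ne_zero_of_mul hp
    have h2 := left_ne_zero_of_mul (right_ne_zero_of_mul hp)
    have h3 := right_ne_zero_of_mul (right_ne_zero_of_mul hp)
    have h4 := wt_window hψ D j m (mul_ne_zero h1 h3)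
    have h5 : -((bd D : ℤ) + |k|) ≤ j ∧ j ≤ bd D + |k| := by
      by_contra hc
      apply h2
      rw [not_and_or] at hc
      rcases hc with hc | hc
      · rw [ind_of_lt (by omega), ind_of_lt (by omega)]; ring
      · rw [ind_of_gt (by omega), ind_of_gt (by omega)]; ring
    have h6 : |j| ≤ bd D + |k| := abs_le.mpr h5
    have h0 : (0:ℤ) ≤ bd D := by positivity
    simp only
    refine ⟨⟨?_, ?_⟩, ?_, ?_⟩ <;> omega
  have e1 : ∀ j, (ind D (j - k) - ind D j) * wt ψ D j =
      ∑' m, ψ m * ((ind D (j - k) - ind D j) * (co D (j + m) - ind D (j - m))) := by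
    intro j
    unfold wt
    rw [← tsum_mul_left]
    apply tsum_congr
    intro m; ring
  rw [tsum_congr e1, ← Summable.tsum_comm hs]
  unfold Gk
  apply tsum_congr
  intro m
  rw [tsum_mul_left, (arrow_sum D k m).2]

/-- The drift of a functional is the sum of the contributions of the arrows. -/
lemma drift_eq {a : ℤ → ℝ} (h0 : ∀ k, 0 ≤ a k) (hs : Summable a) (D : Conf) (p : ℕ)
    (hp : Summable fun k : ℤ => |(k : ℝ)| ^ (p + 1) * a k) {w : ℤ → ℝ} {C : ℝ}
    (hw : ∀ j : ℤ, |w j| ≤ C * (1 + |(j : ℝ)|) ^ p) :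
    (Summable fun j => vrate a D j * w j) ∧
    (Summable fun j => urate a D j * |w j|) ∧
    (Summable fun k => a k * ∑' j, (ind D (j - k) - ind D j) * w j) ∧
    ∑' j, vrate a D j * w j = ∑' k, a k * ∑' j, (ind D (j - k) - ind D j) * w j := by
  have hA := arrow_summable h0 hs D p hp hw
  have hN : Summable (fun q : ℤ × ℤ => a q.1 * (ind D (q.2 - q.1) - ind D q.2) * w q.2) := by
    apply Summable.of_norm
    refine hA.congr ?_
    intro q
    rw [Real.norm_eq_abs, abs_mul, abs_mul, abs_of_nonneg (h0 q.1)]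
  have hN' : Summable (Function.uncurry fun k j : ℤ => a k * (ind D (j - k) - ind D j) * w j) := hN
  have hNs : Summable (Function.uncurry fun j k : ℤ => a k * (ind D (j - k) - ind D j) * w j) := by
    have := (Equiv.prodComm ℤ ℤ).summable_iff.mpr hN'
    exact this
  have hAs : Summable (Function.uncurry fun j k : ℤ => a k * |ind D (j - k) - ind D j| * |w j|) := by
    have := (Equiv.prodComm ℤ ℤ).summable_iff.mpr hA
    exact this
  have ev : ∀ j, vrate a D j * w j = ∑' k, a k * (ind D (j - k) - ind D j) * w j := by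
    intro j; unfold vrate; rw [← tsum_mul_right]
  have eu : ∀ j, urate a D j * |w j| = ∑' k, a k * |ind D (j - k) - ind D j| * |w j| := by
    intro j; rw [urate_eq, ← tsum_mul_right]
  have ek : ∀ k, a k * ∑' j, (ind D (j - k) - ind D j) * w j =
      ∑' j, a k * (ind D (j - k) - ind D j) * w j := by
    intro k; rw [← tsum_mul_left]; apply tsum_congr; intro j; ring
  refine ⟨?_, ?_, ?_, ?_⟩
  · refine (hNs.prod).congr ?_
    intro j; rw [ev]; rfl
  · refine (hAs.prod).congr ?_
    intro j; rw [eu]; rfl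
  · refine (hN'.prod).congr ?_
    intro k; rw [ek]; rfl
  · rw [tsum_congr ev, tsum_congr ek]
    exact (Summable.tsum_comm hN')

/-- the even extension -/
def evn (ψ : ℤ → ℝ) (m : ℤ) : ℝ := ψ m + ψ (-m)

/-- the constant part of the drift -/
noncomputable def cst (ψ : ℤ → ℝ) (k : ℤ) : ℝ := ∑' m : ℤ, pos1 m * (m * (ψ (k - m) + ψ (-k - m)))

/-- the linear part of the drift -/
noncomputable def lin (ψ : ℤ → ℝ) (k m : ℤ) : ℝ :=
  pos1 m * (evn ψ (m + k) + evn ψ (m - k) - 2 * evn ψ m)

lemma lin_zero (ψ : ℤ → ℝ) (k : ℤ) : ∀ m ≤ 0, lin ψ k m = 0 := by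
  intro m hm; unfold lin; rw [pos1_zero m hm]; ring

lemma cst_summable {ψ : ℤ → ℝ} (hψ : ∀ m ≤ 0, ψ m = 0) (k : ℤ) :
    Summable fun m : ℤ => pos1 m * (m * (ψ (k - m) + ψ (-k - m))) := by
  have hk := neg_abs_le k
  have hk' := le_abs_self k
  apply summable_of_window 0 |k|
  intro m hm
  constructor
  · by_contra hc
    exact hm (by rw [pos1_zero _ (by omega)]; ring)
  · by_contra hc
    exact hm (by rw [hψ (k - m) (by omega), hψ (-k - m) (by omega)]; ring)

lemma split_sum {T : ℤ → ℝ} (hT : Summable T) (h0 : T 0 = 0) :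
    ∑' m, T m = ∑' m, pos1 m * (T m + T (-m)) := by
  have b1 : Summable fun m => pos1 m * T m := by
    apply Summable.of_norm_bounded hT.norm
    intro m
    rw [norm_mul]
    have : ‖pos1 m‖ ≤ 1 := by
      rw [Real.norm_eq_abs, abs_of_nonneg (pos1_nonneg m)]; exact pos1_le m
    nlinarith [norm_nonneg (T m)]
  have b2 : Summable fun m => pos1 (-m) * T m := by
    apply Summable.of_norm_bounded hT.norm
    intro m
    rw [norm_mul]
    have : ‖pos1 (-m)‖ ≤ 1 := by
      rw [Real.norm_eq_abs, abs_of_nonneg (pos1_nonneg _)]; exact pos1_le _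
    nlinarith [norm_nonneg (T m)]
  have b3 : Summable fun m => pos1 m * T (-m) := by
    have := (Equiv.neg ℤ).summable_iff.mpr b2
    refine this.congr ?_
    intro m; simp
  have e2 : ∑' m, pos1 (-m) * T m = ∑' m, pos1 m * T (-m) := by
    rw [← (Equiv.neg ℤ).tsum_eq]
    apply tsum_congr
    intro m; simp
  have e : ∀ m, T m = pos1 m * T m + pos1 (-m) * T m := by
    intro m
    unfold pos1
    rcases lt_trichotomy m 0 with h | h | h
    · rw [if_neg (by omega), if_pos (by omega)]; ring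
    · subst h; rw [h0]; ring
    · rw [if_pos h, if_neg (by omega)]; ring
  calc ∑' m, T m = ∑' m, (pos1 m * T m + pos1 (-m) * T m) := tsum_congr e
    _ = ∑' m, pos1 m * T m + ∑' m, pos1 (-m) * T m := Summable.tsum_add b1 b2
    _ = ∑' m, pos1 m * T m + ∑' m, pos1 m * T (-m) := by rw [e2]
    _ = ∑' m, (pos1 m * T m + pos1 m * T (-m)) := (Summable.tsum_add b1 b3).symm
    _ = _ := by apply tsum_congr; intro m; ring

lemma Gk_formula {ψ : ℤ → ℝ} (hψ : ∀ m ≤ 0, ψ m = 0) (D : Conf) (k : ℤ) :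
    Gk ψ D k = H (lin ψ k) D + cst ψ k := by
  have hk := neg_abs_le k
  have hk' := le_abs_self k
  have h0 : (0:ℤ) ≤ bd D := by positivity
  have w1 : ∀ k : ℤ, Summable fun m => ψ m * N D (m + k) := by
    intro k
    apply summable_of_window 0 (2 * bd D + |k|)
    have hk := neg_abs_le k
    intro m hm
    constructor
    · by_contra hc
      exact hm (by rw [hψ m (by omega)]; ring)
    · by_contra hc
      exact hm (by rw [N_eq_zero (by omega)]; ring)
  have w2 : ∀ k : ℤ, Summable (fun m => ψ (m - k) * N D m) ∧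
      ∑' m, ψ m * N D (m + k) = ∑' m, ψ (m - k) * N D m := by
    intro k
    have h1 := (Equiv.subRight k).summable_iff.mpr (w1 k)
    have h2 := (Equiv.subRight k).tsum_eq (fun m => ψ m * N D (m + k))
    constructor
    · refine h1.congr ?_
      intro m; simp
    · rw [← h2]
      apply tsum_congr
      intro m; simp
  have hw0 : Summable fun m => ψ m * N D m := by simpa using w1 0
  have hT : Summable fun m => (ψ (m - k) + ψ (m + k) - 2 * ψ m) * N D m := by
    have h1 := (w2 k).1
    have h2 := (w2 (-k)).1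
    refine ((h1.add h2).sub (hw0.mul_left 2)).congr ?_
    intro m
    rw [sub_neg_eq_add]; ring
  have e1 : Gk ψ D k = ∑' m, (ψ (m - k) + ψ (m + k) - 2 * ψ m) * N D m := by
    unfold Gk
    have e2 : ∀ m, ψ m * (N D (m + k) + N D (m - k) - 2 * N D m) =
        ψ m * N D (m + k) + ψ m * N D (m + -k) - 2 * (ψ m * N D m) := by
      intro m; rw [← sub_eq_add_neg]; ring
    rw [tsum_congr e2, Summable.tsum_sub ((w1 k).add (w1 (-k))) (hw0.mul_left 2),
      Summable.tsum_add (w1 k) (w1 (-k)), (w2 k).2, (w2 (-k)).2,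
      ← Summable.tsum_add (w2 k).1 (w2 (-k)).1,
      ← Summable.tsum_sub ((w2 k).1.add (w2 (-k)).1) (hw0.mul_left 2)]
    apply tsum_congr
    intro m
    rw [sub_neg_eq_add]; ring
  rw [e1, split_sum hT (by rw [N_zero]; ring)]
  unfold H cst
  rw [← Summable.tsum_add (H_summable (lin_zero ψ k) D) (cst_summable hψ k)]
  apply tsum_congr
  intro m
  unfold lin evn
  by_cases hm : 0 < m
  · rw [N_neg]
    rw [hψ (-m) (by omega)]
    rw [show -(m + k) = -m - k by ring, show -(m - k) = -m + k by ring,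
      show k - m = -m + k by ring, show -k - m = -m - k by ring]
    ring
  · rw [pos1_zero m (by omega)]; ring

end Pool.Agent.K9h92.BV
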