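import Pool.Agent.K9h92.BV.TailSum

set_option autoImplicit false

/-!
Drift estimates for `min(m, l)` and `min(m, h) ^ 2` in terms of truncated moments.
-/

open ENNReal Filter Topology

namespace Pool.Agent.K9h92.BV

variable {a : ℤ → ℝ}

lemma lin_ps_le2 (l : ℕ) (k m : ℤ) :
    lin (ps l) k m ≤ pos1 m * (if m < |k| then 2 * min |(k:ℝ)| l else 0) -
      (if m = l ∧ |k| ≤ m ∧ 0 < m then |(k:ℝ)| else 0) := by
  by_cases h : m < |k|
  swap
  · have h1 := lin_ps_le l k m
    rw [if_neg h] at h1 ⊢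
    exact h1
  rw [if_pos h, if_neg (by omega), sub_zero]
  unfold lin
  by_cases hm : 0 < m
  swap
  · rw [pos1_zero m (by omega)]; simp
  have hp : pos1 m = 1 := by unfold pos1; rw [if_pos hm]
  rw [hp, one_mul, one_mul, evn_ps, evn_ps, evn_ps]
  have hmr : (0:ℝ) < m := by exact_mod_cast hm
  have hl : (0:ℝ) ≤ l := by positivity
  set K := |(k:ℝ)| with hK
  have hK0 : 0 ≤ K := abs_nonneg _
  have e : min |((m + k : ℤ) : ℝ)| (l:ℝ) + min |((m - k : ℤ) : ℝ)| (l:ℝ) =
      min |(m:ℝ) + K| l + min |(m:ℝ) - K| l := by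
    push_cast
    rcases abs_pair m k with ⟨h1, h2⟩ | ⟨h1, h2⟩
    · rw [h1, h2]
    · rw [h1, h2, add_comm]
  rw [e, abs_of_pos hmr]
  have hmK : (m:ℝ) ≤ K := by rw [hK]; exact_mod_cast h.le
  rw [abs_of_nonneg (by linarith), abs_sub_comm, abs_of_nonneg (by linarith : (0:ℝ) ≤ K - m)]
  have h1 := min_le_left ((m:ℝ) + K) l
  have h2 := min_le_left (K - (m:ℝ)) l
  have h1' := min_le_right ((m:ℝ) + K) l
  have h2' := min_le_right (K - (m:ℝ)) l
  have h3 : 0 ≤ min (m:ℝ) l := le_min hmr.le hl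
  rcases le_total K l with h5 | h5
  · rw [min_eq_left h5]; linarith
  · rw [min_eq_right h5]; linarith

lemma H_lin_ps_le2 (l : ℕ) (D : Conf) (k : ℤ) :
    H (lin (ps l) k) D ≤ 2 * (min |(k:ℝ)| l * (k:ℝ) ^ 2) * N D 1 -
      (if |k| ≤ l ∧ 0 < l then |(k:ℝ)| * N D l else 0) := by
  have hK : (|k| : ℤ) = (k.natAbs : ℤ) := Int.abs_eq_natAbs k
  have hmin : 0 ≤ min |(k:ℝ)| (l:ℝ) := by positivity
  obtain ⟨s1, t1⟩ := tsum_pos_range (fun m => 2 * min |(k:ℝ)| l * N D m) k.natAbs
  have s2 : Summable fun m : ℤ => (if m = (l:ℤ) then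
      (if |k| ≤ l ∧ 0 < l then |(k:ℝ)| * N D l else 0) else 0) := (hasSum_ite_eq (l:ℤ) _).summable
  have hk0 := abs_nonneg (k:ℝ)
  calc H (lin (ps l) k) D
      ≤ ∑' m : ℤ, (pos1 m * (if m < (k.natAbs:ℤ) then 2 * min |(k:ℝ)| l * N D m else 0) -
          (if m = (l:ℤ) then (if |k| ≤ l ∧ 0 < l then |(k:ℝ)| * N D l else 0) else 0)) := by
        apply Summable.tsum_le_tsum _ (H_summable (lin_zero _ k) D) (s1.sub s2)
        intro m
        have := mul_le_mul_of_nonneg_right (lin_ps_le2 l k m) (N_nonneg D m)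
        rw [hK] at this
        refine this.trans (le_of_eq ?_)
        rw [sub_mul]
        congr 1
        · split_ifs <;> ring
        · by_cases h : m = l
          · subst h
            rw [if_pos rfl]
            by_cases h2 : |k| ≤ (l:ℤ) ∧ 0 < l
            · rw [if_pos h2, if_pos ⟨rfl, by rw [← hK]; exact h2.1, by exact_mod_cast h2.2⟩]
            · rw [if_neg h2, if_neg, zero_mul]
              rintro ⟨_, h3, h4⟩
              exact h2 ⟨by rw [hK]; exact h3, by exact_mod_cast h4⟩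
          · rw [if_neg h, if_neg (by tauto), zero_mul]
    _ = ∑ i ∈ Finset.range k.natAbs, pos1 i * (2 * min |(k:ℝ)| l * N D i) -
          (if |k| ≤ l ∧ 0 < l then |(k:ℝ)| * N D l else 0) := by
        rw [Summable.tsum_sub s1 s2, t1, tsum_ite_eq]
    _ ≤ ∑ i ∈ Finset.range k.natAbs, 2 * min |(k:ℝ)| l * (|(k:ℝ)| * N D 1) -
          (if |k| ≤ l ∧ 0 < l then |(k:ℝ)| * N D l else 0) := by
        apply sub_le_sub_right
        apply Finset.sum_le_sum
        intro i hi
        rw [Finset.mem_range] at hi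
        have h1 : N D i ≤ |(k:ℝ)| * N D 1 := by
          refine (N_le_mul D i).trans ?_
          apply mul_le_mul_of_nonneg_right _ (N_nonneg D 1)
          rw [← Int.cast_abs, ← Nat.cast_natAbs]
          exact_mod_cast hi.le
        have h2 := pos1_le (i:ℤ)
        have h3 := pos1_nonneg (i:ℤ)
        have h4 := N_nonneg D (i:ℤ)
        calc pos1 i * (2 * min |(k:ℝ)| l * N D i) ≤ 1 * (2 * min |(k:ℝ)| l * N D i) := by
              apply mul_le_mul_of_nonneg_right h2; positivity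
          _ ≤ _ := by rw [one_mul]; apply mul_le_mul_of_nonneg_left h1; positivity
    _ = _ := by
        rw [Finset.sum_const, Finset.card_range, nsmul_eq_mul, Nat.cast_natAbs, Int.cast_abs,
          ← sq_abs (k:ℝ)]
        ring

lemma cst_ps_le2 (l : ℕ) (k : ℤ) : cst (ps l) k ≤ min |(k:ℝ)| l * (k:ℝ) ^ 2 := by
  rw [cst_abs, cst_nat (ps_zero l)]
  calc ∑ i ∈ Finset.range k.natAbs, (i:ℝ) * ps l ((k.natAbs:ℤ) - i)
      ≤ ∑ i ∈ Finset.range k.natAbs, |(k:ℝ)| * min |(k:ℝ)| l := by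
        apply Finset.sum_le_sum
        intro i hi
        rw [Finset.mem_range] at hi
        have h1 : (i:ℝ) ≤ |(k:ℝ)| := by
          rw [← Int.cast_abs, ← Nat.cast_natAbs]; exact_mod_cast hi.le
        have h2 : ps l ((k.natAbs:ℤ) - i) ≤ min |(k:ℝ)| l := by
          unfold ps
          rw [if_pos (by omega)]
          apply min_le_min_right
          rw [← Int.cast_abs, Int.abs_eq_natAbs]
          push_cast
          have : (0:ℝ) ≤ i := by positivity
          linarith
        exact mul_le_mul h1 h2 (ps_nonneg _ _) (abs_nonneg _)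
    _ = _ := by
        rw [Finset.sum_const, Finset.card_range, nsmul_eq_mul, Nat.cast_natAbs, Int.cast_abs,
          ← sq_abs (k:ℝ)]
        ring

/-- the drift of the functional with the weight `min(m, l)` -/
lemma ps_drift2 (ha : Jump a) : ∃ c C : ℝ, 0 < c ∧ 0 < C ∧ ∀ (l : ℕ) (D : Conf), 0 < l →
    (Summable fun j => vrate a D j * wt (ps l) D j) ∧
    c * N D l + ∑' j, vrate a D j * wt (ps l) D j ≤ C * (1 + mt a l) * tot a D := by
  obtain ⟨C1, hC1, hC1'⟩ := N_le_tot ha 1
  obtain ⟨k0, hk0, hk0'⟩ := ha.exists_pos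
  have hm := m1_pos ha
  have hk0a : (0:ℝ) < |(k0:ℝ)| := abs_pos.mpr (by exact_mod_cast hk0)
  obtain ⟨C2, hC2⟩ : ∃ C2 : ℝ, C2 = a k0 * |(k0:ℝ)| * (|(k0:ℝ)| * C1) := ⟨_, rfl⟩
  have hC20 : 0 ≤ C2 := by rw [hC2]; positivity
  refine ⟨a k0 * |(k0:ℝ)|, (2 * C1 + 1 / m1 a) + C2, by positivity, by positivity,
    fun l D hl => ?_⟩
  have hmt := mt_nonneg ha l
  have hb : ∀ j : ℤ, |wt (ps l) D j| ≤ ((l:ℝ) * (1 + (bd D : ℝ)) ^ (0 + 1)) * (1 + |(j:ℝ)|) ^ 1 := by
    intro j
    have := wt_bound (ps_zero l) (K := l) (q := 0) (by positivity) (by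
      intro m; rw [abs_of_nonneg (ps_nonneg l m)]; simpa using ps_le l m) D j
    simpa using this
  have h := drift_eq ha.nonneg ha.summable D 1 ha.pow1 hb
  refine ⟨h.1, ?_⟩
  rw [h.2.2.2]
  have hN := N_nonneg D 1
  have hNl := N_nonneg D l
  have hms := mt_summable ha l
  have sI : Summable fun k : ℤ => (if k = k0 then (if |k0| ≤ l then a k0 * (|(k0:ℝ)| * N D l) else 0) else 0) :=
    (hasSum_ite_eq k0 _).summable
  have key : ∑' k, a k * ∑' j, (ind D (j - k) - ind D j) * wt (ps l) D j ≤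
      (2 * N D 1 + 1) * mt a l - (if |k0| ≤ l then a k0 * (|(k0:ℝ)| * N D l) else 0) := by
    calc ∑' k, a k * ∑' j, (ind D (j - k) - ind D j) * wt (ps l) D j
        ≤ ∑' k : ℤ, ((2 * N D 1 + 1) * (min |(k:ℝ)| l * ((k:ℝ) ^ 2 * a k)) -
          (if k = k0 then (if |k0| ≤ l then a k0 * (|(k0:ℝ)| * N D l) else 0) else 0)) := by
          apply Summable.tsum_le_tsum _ h.2.2.1 ((hms.mul_left _).sub sI)
          intro k
          rw [Gk_eq (ps_zero l), Gk_formula (ps_zero l)]
          have h1 := H_lin_ps_le2 l D k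
          have h2 := cst_ps_le2 l k
          have h4 := ha.nonneg k
          calc a k * (H (lin (ps l) k) D + cst (ps l) k)
              ≤ a k * ((2 * (min |(k:ℝ)| l * (k:ℝ) ^ 2) * N D 1 -
                (if |k| ≤ l ∧ 0 < l then |(k:ℝ)| * N D l else 0)) + min |(k:ℝ)| l * (k:ℝ) ^ 2) :=
                mul_le_mul_of_nonneg_left (add_le_add h1 h2) h4
            _ = (2 * N D 1 + 1) * (min |(k:ℝ)| l * ((k:ℝ) ^ 2 * a k)) -
                a k * (if |k| ≤ l ∧ 0 < l then |(k:ℝ)| * N D l else 0) := by ring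
            _ ≤ _ := by
                apply sub_le_sub_left
                by_cases hk : k = k0
                · subst hk
                  rw [if_pos rfl]
                  by_cases h5 : |k| ≤ (l:ℤ)
                  · rw [if_pos h5, if_pos ⟨h5, hl⟩]
                  · rw [if_neg h5, if_neg (by tauto)]; simp
                · rw [if_neg hk]
                  have : 0 ≤ (if |k| ≤ (l:ℤ) ∧ 0 < l then |(k:ℝ)| * N D l else 0) := by
                    split_ifs <;> positivity
                  positivity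
      _ = _ := by rw [Summable.tsum_sub (hms.mul_left _) sI, tsum_mul_left, tsum_ite_eq]; rfl
  have h4 := hC1' D
  have ht := tot_pos ha D
  have h5 : 1 ≤ 1 / m1 a * tot a D := by
    rw [one_div, inv_mul_eq_div, le_div_iff₀ hm, one_mul]; exact m1_le_tot ha D
  have h6 : (2 * N D 1 + 1) * mt a l ≤ (2 * C1 + 1 / m1 a) * mt a l * tot a D := by
    have : 2 * N D 1 + 1 ≤ (2 * C1 + 1 / m1 a) * tot a D := by linarith
    calc (2 * N D 1 + 1) * mt a l ≤ ((2 * C1 + 1 / m1 a) * tot a D) * mt a l :=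
          mul_le_mul_of_nonneg_right this hmt
      _ = _ := by ring
  have h7 : a k0 * |(k0:ℝ)| * N D l - (if |k0| ≤ l then a k0 * (|(k0:ℝ)| * N D l) else 0) ≤
      C2 * tot a D := by
    rw [hC2]
    split_ifs with h8
    · have : 0 ≤ a k0 * |(k0:ℝ)| * (|(k0:ℝ)| * C1) * tot a D := by positivity
      linarith
    · have h9 : N D l ≤ |(k0:ℝ)| * (C1 * tot a D) := by
        refine (N_le_mul D l).trans ?_
        apply mul_le_mul _ h4 hN hk0a.le
        have : (l:ℤ) ≤ |k0| := by omega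
        exact_mod_cast this
      calc a k0 * |(k0:ℝ)| * N D l - 0 = a k0 * |(k0:ℝ)| * N D l := sub_zero _
        _ ≤ a k0 * |(k0:ℝ)| * (|(k0:ℝ)| * (C1 * tot a D)) := by
            apply mul_le_mul_of_nonneg_left h9; positivity
        _ = _ := by ring
  have h8 : 0 ≤ (2 * C1 + 1 / m1 a) * tot a D := by positivity
  have h9 : 0 ≤ C2 * mt a l * tot a D := by positivity
  have e : ((2 * C1 + 1 / m1 a) + C2) * (1 + mt a l) * tot a D =
      (2 * C1 + 1 / m1 a) * tot a D + (2 * C1 + 1 / m1 a) * mt a l * tot a D + C2 * tot a D +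
        C2 * mt a l * tot a D := by ring
  rw [e]
  linarith

lemma cst_sqw_le2 (h : ℕ) (k : ℤ) : cst (sqw h) k ≤ min |(k:ℝ)| h ^ 2 * (k:ℝ) ^ 2 := by
  rw [cst_abs, cst_nat (sqw_zero h)]
  calc ∑ i ∈ Finset.range k.natAbs, (i:ℝ) * sqw h ((k.natAbs:ℤ) - i)
      ≤ ∑ i ∈ Finset.range k.natAbs, |(k:ℝ)| * min |(k:ℝ)| h ^ 2 := by
        apply Finset.sum_le_sum
        intro i hi
        rw [Finset.mem_range] at hi
        have h1 : (i:ℝ) ≤ |(k:ℝ)| := by
          rw [← Int.cast_abs, ← Nat.cast_natAbs]; exact_mod_cast hi.le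
        have h2 : sqw h ((k.natAbs:ℤ) - i) ≤ min |(k:ℝ)| h ^ 2 := by
          unfold sqw
          rw [if_pos (by omega)]
          have h3 : ((((k.natAbs:ℕ):ℤ) - (i:ℤ) : ℤ) : ℝ) ≤ |(k:ℝ)| := by
            rw [← Int.cast_abs, Int.abs_eq_natAbs]
            push_cast
            have : (0:ℝ) ≤ i := by positivity
            linarith
          have h4 : (0:ℝ) ≤ ((((k.natAbs:ℕ):ℤ) - (i:ℤ) : ℤ) : ℝ) := by
            have : (0:ℤ) ≤ ((k.natAbs:ℕ):ℤ) - (i:ℤ) := by omega
            exact_mod_cast this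
          exact pow_le_pow_left₀ (by positivity) (min_le_min_right _ h3) 2
        exact mul_le_mul h1 h2 (sqw_nonneg _ _) (abs_nonneg _)
    _ = _ := by
        rw [Finset.sum_const, Finset.card_range, nsmul_eq_mul, Nat.cast_natAbs, Int.cast_abs,
          ← sq_abs (k:ℝ)]
        ring

lemma sqw_drift2 (ha : Jump a) (h : ℕ) (D : Conf) :
    (Summable fun j => vrate a D j * wt (sqw h) D j) ∧
    ∑' j, vrate a D j * wt (sqw h) D j ≤ 2 * s2 a * inv D + b4 a h := by
  have hb : ∀ j : ℤ, |wt (sqw h) D j| ≤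
      ((h:ℝ) ^ 2 * (1 + (bd D : ℝ)) ^ (0 + 1)) * (1 + |(j:ℝ)|) ^ 1 := by
    intro j
    have := wt_bound (sqw_zero h) (K := (h:ℝ) ^ 2) (q := 0) (by positivity) (by
      intro m; rw [abs_of_nonneg (sqw_nonneg h m)]; simpa using sqw_le h m) D j
    simpa using this
  have hd := drift_eq ha.nonneg ha.summable D 1 ha.pow1 hb
  refine ⟨hd.1, ?_⟩
  rw [hd.2.2.2]
  have s1 : Summable fun k : ℤ => 2 * inv D * ((k:ℝ) ^ 2 * a k) := ha.second.mul_left _
  have s4 := b4_summable ha h
  calc ∑' k, a k * ∑' j, (ind D (j - k) - ind D j) * wt (sqw h) D j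
      ≤ ∑' k : ℤ, (2 * inv D * ((k:ℝ) ^ 2 * a k) + min |(k:ℝ)| h ^ 2 * ((k:ℝ) ^ 2 * a k)) := by
        apply Summable.tsum_le_tsum _ hd.2.2.1 (s1.add s4)
        intro k
        rw [Gk_eq (sqw_zero h), Gk_formula (sqw_zero h)]
        have h1 := H_lin_sqw_le h D k
        have h2 := cst_sqw_le2 h k
        have h4 := ha.nonneg k
        calc a k * (H (lin (sqw h) k) D + cst (sqw h) k)
            ≤ a k * (2 * (k:ℝ) ^ 2 * inv D + min |(k:ℝ)| h ^ 2 * (k:ℝ) ^ 2) :=
              mul_le_mul_of_nonneg_left (add_le_add h1 h2) h4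
          _ = _ := by ring
    _ = _ := by
        rw [Summable.tsum_add s1 s4, tsum_mul_left]
        unfold s2 b4
        ring

/-! ### one step inequalities -/

lemma ps_step2 (ha : Jump a) : ∃ c C : ℝ, 0 < c ∧ 0 < C ∧ ∀ (l : ℕ) (D : Conf), 0 < l →
    Q a 0 (fun D => ENNReal.ofReal (H (ps l) D)) D + ENNReal.ofReal (c * (rr a D * N D l)) ≤
      ENNReal.ofReal (H (ps l) D) + ENNReal.ofReal (C * (1 + mt a l)) := by
  obtain ⟨c, C, hc, hC, h⟩ := ps_drift2 ha
  refine ⟨c, C, hc, hC, fun l D hl => ?_⟩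
  obtain ⟨h1, h2⟩ := h l D hl
  obtain ⟨h4, h5⟩ := Q_real ha (H (ps l)) (fun D => H_nonneg (ps_nonneg l) D) D
    (H_flipAt (ps_zero l) D) h1
  have hr := rr_pos ha D
  have hN := N_nonneg D l
  have hmt := mt_nonneg ha l
  rw [h4, ← ENNReal.ofReal_add h5 (by positivity), ← ENNReal.ofReal_add (H_nonneg (ps_nonneg l) D)
    (by positivity)]
  apply ENNReal.ofReal_le_ofReal
  have h6 : rr a D * (c * N D l + ∑' j, vrate a D j * wt (ps l) D j) ≤
      rr a D * (C * (1 + mt a l) * tot a D) := mul_le_mul_of_nonneg_left h2 hr.le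
  have h7 : rr a D * (C * (1 + mt a l) * tot a D) = C * (1 + mt a l) := by
    unfold rr
    have := (tot_pos ha D).ne'
    field_simp
  nlinarith

lemma sqw_step2 (ha : Jump a) (h : ℕ) (D : Conf) :
    Q a 0 (fun D => ENNReal.ofReal (H (sqw h) D)) D ≤ ENNReal.ofReal (H (sqw h) D) +
      (ENNReal.ofReal (2 * s2 a) * ENNReal.ofReal (rr a D * inv D) +
        ENNReal.ofReal (b4 a h / m1 a)) := by
  obtain ⟨h1, h2⟩ := sqw_drift2 ha h D
  obtain ⟨h4, h5⟩ := Q_real ha (H (sqw h)) (fun D => H_nonneg (sqw_nonneg h) D) D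
    (H_flipAt (sqw_zero h) D) h1
  have hr := rr_pos ha D
  have hi := inv_nonneg D
  have hs := s2_pos ha
  have hm := m1_pos ha
  have hB := b4_nonneg ha h
  rw [h4, ← ENNReal.ofReal_mul (by positivity), ← ENNReal.ofReal_add (by positivity) (by positivity),
    ← ENNReal.ofReal_add (H_nonneg (sqw_nonneg h) D) (by positivity)]
  apply ENNReal.ofReal_le_ofReal
  have h6 : rr a D * ∑' j, vrate a D j * wt (sqw h) D j ≤ rr a D * (2 * s2 a * inv D + b4 a h) :=
    mul_le_mul_of_nonneg_left h2 hr.le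
  have h7 : rr a D * b4 a h ≤ 1 / m1 a * b4 a h :=
    mul_le_mul_of_nonneg_right (rr_le ha D) hB
  have h8 : 1 / m1 a * b4 a h = b4 a h / m1 a := by ring
  nlinarith

/-- the time spent with many inversions -/
lemma inv_sum2 (ha : Jump a) : ∃ C : ℝ, 0 < C ∧ ∀ (μ : ℝ) (L k n : ℕ) (w : Pth), 0 < L →
    1 + mt a L ≤ μ →
    Ex a 0 k n (Sm (fun D => ENNReal.ofReal (rr a D * inv D)) k n) w ≤
      ENNReal.ofReal (C * (L + n / L) * (H (ps L) (w k) + n * μ)) := by
  obtain ⟨c, C, hc, hC, hstep⟩ := ps_step2 ha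
  have hm := m1_pos ha
  refine ⟨(1 / c + 1 / m1 a) * (1 + C), by positivity, fun μ L k n w hL hμ => ?_⟩
  have hL' : (0:ℝ) < L := by exact_mod_cast hL
  have hμ0 : 0 < μ := by have := mt_nonneg ha L; linarith
  set Hx := H (ps L) (w k) with hHx
  have hHx0 : 0 ≤ Hx := H_nonneg (ps_nonneg L) _
  set C' := C * μ with hC'
  have hC'0 : 0 < C' := by positivity
  have hCl : ∀ l ≤ L, ENNReal.ofReal (C * (1 + mt a l)) ≤ ENNReal.ofReal C' := by
    intro l hl
    apply ENNReal.ofReal_le_ofReal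
    rw [hC']
    apply mul_le_mul_of_nonneg_left _ hC.le
    have := mt_mono ha hl
    linarith
  -- each level
  have h1 : ∀ l ∈ Finset.Icc 1 L, Ex a 0 k n (Sm (fun D => ENNReal.ofReal (rr a D * N D l)) k n) w ≤
      ENNReal.ofReal (1 / c * (Hx + n * C')) := by
    intro l hl
    rw [Finset.mem_Icc] at hl
    have e1 := Ex_Sm_le ha (fun D => (hstep l D (by omega)).trans
      (add_le_add le_rfl (hCl l hl.2))) k n w
    have e2 : Sm (fun D => ENNReal.ofReal (rr a D * N D l)) k n =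
        fun w => ENNReal.ofReal (1 / c) * Sm (fun D => ENNReal.ofReal (c * (rr a D * N D l))) k n w := by
      funext w
      unfold Sm
      rw [Finset.mul_sum]
      apply Finset.sum_congr rfl
      intro i _
      rw [← ENNReal.ofReal_mul (by positivity)]
      congr 1; field_simp
    rw [e2, congrFun (Ex_smul k n _ _) w]
    calc ENNReal.ofReal (1 / c) * Ex a 0 k n (Sm (fun D => ENNReal.ofReal (c * (rr a D * N D l))) k n) w
        ≤ ENNReal.ofReal (1 / c) * (ENNReal.ofReal (H (ps l) (w k)) + n * ENNReal.ofReal C') := by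
          gcongr
      _ ≤ ENNReal.ofReal (1 / c) * (ENNReal.ofReal Hx + n * ENNReal.ofReal C') := by
          gcongr; exact ps_mono hl.2 _
      _ = _ := by
          rw [← ENNReal.ofReal_natCast, ← ENNReal.ofReal_mul (by positivity),
            ← ENNReal.ofReal_add hHx0 (by positivity), ← ENNReal.ofReal_mul (by positivity)]
  -- the tail
  have h2 : Ex a 0 k n (Sm (fun D => ENNReal.ofReal (1 / m1 a / L) * ENNReal.ofReal (H (ps L) D)) k n) w ≤
      ENNReal.ofReal (1 / m1 a / L * (n * (Hx + n * C'))) := by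
    have e1 := Ex_Sm_growth ha (G := fun D => ENNReal.ofReal (H (ps L) D)) (C := ENNReal.ofReal C')
      (fun D => le_trans le_self_add ((hstep L D hL).trans (add_le_add le_rfl (hCl L le_rfl)))) k n w
    have e2 : Sm (fun D => ENNReal.ofReal (1 / m1 a / L) * ENNReal.ofReal (H (ps L) D)) k n =
        fun w => ENNReal.ofReal (1 / m1 a / L) * Sm (fun D => ENNReal.ofReal (H (ps L) D)) k n w := by
      funext w
      unfold Sm
      rw [Finset.mul_sum]
    rw [e2, congrFun (Ex_smul k n _ _) w]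
    calc ENNReal.ofReal (1 / m1 a / L) * Ex a 0 k n (Sm (fun D => ENNReal.ofReal (H (ps L) D)) k n) w
        ≤ ENNReal.ofReal (1 / m1 a / L) * (n * (ENNReal.ofReal Hx + n * ENNReal.ofReal C')) := by
          gcongr
      _ = _ := by
          rw [← ENNReal.ofReal_natCast, ← ENNReal.ofReal_mul (by positivity),
            ← ENNReal.ofReal_add hHx0 (by positivity), ← ENNReal.ofReal_mul (by positivity),
            ← ENNReal.ofReal_mul (by positivity)]
  have h4 : ∀ w, Sm (fun D => ENNReal.ofReal (rr a D * inv D)) k n w ≤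
      ((fun w => ∑ l ∈ Finset.Icc 1 L, Sm (fun D => ENNReal.ofReal (rr a D * N D l)) k n w) +
        Sm (fun D => ENNReal.ofReal (1 / m1 a / L) * ENNReal.ofReal (H (ps L) D)) k n) w := by
    intro w
    rw [Pi.add_apply]
    unfold Sm
    rw [Finset.sum_comm, ← Finset.sum_add_distrib]
    apply Finset.sum_le_sum
    intro i _
    set D := w (k + i)
    beta_reduce
    have hr := rr_pos ha D
    have hH := H_nonneg (ps_nonneg L) D
    have hnn : ∀ l ∈ Finset.Icc 1 L, 0 ≤ rr a D * N D ((l : ℕ) : ℤ) :=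
      fun l _ => mul_nonneg hr.le (N_nonneg D _)
    rw [← ENNReal.ofReal_sum_of_nonneg hnn,
      ← ENNReal.ofReal_mul (by positivity), ← ENNReal.ofReal_add
      (Finset.sum_nonneg hnn) (by positivity)]
    apply ENNReal.ofReal_le_ofReal
    rw [← Finset.mul_sum]
    have h5 := mul_le_mul_of_nonneg_left (inv_le_split hL D) hr.le
    have h6 : rr a D * (H (ps L) D / L) ≤ 1 / m1 a / L * H (ps L) D := by
      calc rr a D * (H (ps L) D / L) ≤ 1 / m1 a * (H (ps L) D / L) :=
            mul_le_mul_of_nonneg_right (rr_le ha D) (by positivity)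
        _ = _ := by ring
    rw [mul_add] at h5
    linarith
  refine (Ex_mono h4 w).trans ?_
  rw [Ex_add, Pi.add_apply, Ex_sum]
  calc ∑ l ∈ Finset.Icc 1 L, Ex a 0 k n (Sm (fun D => ENNReal.ofReal (rr a D * N D l)) k n) w +
        Ex a 0 k n (Sm (fun D => ENNReal.ofReal (1 / m1 a / L) * ENNReal.ofReal (H (ps L) D)) k n) w
      ≤ ∑ l ∈ Finset.Icc 1 L, ENNReal.ofReal (1 / c * (Hx + n * C')) +
        ENNReal.ofReal (1 / m1 a / L * (n * (Hx + n * C'))) := by
        gcongr with l hl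
        exact h1 l hl
    _ = ENNReal.ofReal (L * (1 / c * (Hx + n * C')) + 1 / m1 a / L * (n * (Hx + n * C'))) := by
        rw [Finset.sum_const, Nat.card_Icc, nsmul_eq_mul, ← ENNReal.ofReal_natCast,
          ← ENNReal.ofReal_mul (by positivity), ← ENNReal.ofReal_add (by positivity) (by positivity)]
        simp
    _ ≤ _ := by
        apply ENNReal.ofReal_le_ofReal
        have hn : (0:ℝ) ≤ n := by positivity
        have h5 : Hx + n * C' ≤ (1 + C) * (Hx + n * μ) := by
          rw [hC']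
          nlinarith [mul_nonneg hC.le hHx0, mul_nonneg hn hμ0.le]
        have h6 : L * (1 / c * (Hx + n * C')) + 1 / m1 a / L * (n * (Hx + n * C')) =
            (L * (1 / c) + (n / L) * (1 / m1 a)) * (Hx + n * C') := by ring
        rw [h6]
        have hnL : 0 ≤ (n:ℝ) / L := by positivity
        have hc' : 0 < 1 / c := by positivity
        have hm' : 0 < 1 / m1 a := by positivity
        calc (L * (1 / c) + (n / L) * (1 / m1 a)) * (Hx + n * C')
            ≤ ((1 / c + 1 / m1 a) * (L + n / L)) * ((1 + C) * (Hx + n * μ)) := by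
              apply mul_le_mul _ h5 (by positivity) (by positivity)
              nlinarith [mul_nonneg hc'.le hnL, mul_nonneg hm'.le hL'.le]
          _ = _ := by ring

end Pool.Agent.K9h92.BV
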