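import Pool.Agent.K9h92.BV.Limit

set_option autoImplicit false

/-!
Kernels with a nonzero first moment: the interface moves ballistically.
-/

open ENNReal Filter Topology MeasureTheory ProbabilityTheory

namespace Pool.Agent.K9h92.BV

variable {a : ℤ → ℝ} {ε : ℝ}

/-- mean step of the centre of mass -/
noncomputable def mb (a : ℤ → ℝ) (ε : ℝ) (D : Conf) : ℝ :=
  (1 - qd a D) / (1 - ε * qd a D) - (1 - ε) * qd a D / (1 - ε * qd a D)

lemma mb_close (ha : Jump a) (h0 : 0 ≤ ε) (h1 : ε ≤ 1 / 2) (D : Conf) :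
    |mb a ε D + cm a * rr a D| ≤ ε := by
  have hq0 := qd_nonneg ha D
  have hq1 := qd_le_one ha D
  have hpos := one_sub_qd_pos ha h0 (by linarith) D
  have ht := (tot_pos ha D).ne'
  have e1 : cm a * rr a D = 2 * qd a D - 1 := by
    unfold rr qd; field_simp; ring
  have e2 : mb a ε D + cm a * rr a D = 2 * ε * qd a D * (1 - qd a D) / (1 - ε * qd a D) := by
    have hne := hpos.ne'
    rw [e1, eq_div_iff hne]; unfold mb
    rw [← sub_div, add_mul, div_mul_cancel₀ _ hne]; ring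
  rw [e2, abs_of_nonneg]
  · rw [div_le_iff₀ hpos]
    have h2 : qd a D * (1 - qd a D) ≤ 1 / 4 := by nlinarith [sq_nonneg (qd a D - 1 / 2)]
    have h3 : 1 / 2 ≤ 1 - ε * qd a D := by nlinarith
    nlinarith
  · have : 0 ≤ 1 - qd a D := by linarith
    positivity

/-- the martingale part of the centre of mass -/
noncomputable def Sr (a : ℤ → ℝ) (ε : ℝ) (m : ℕ) (w : Pth) : ℝ :=
  (M (w m) : ℝ) - ∑ i ∈ Finset.range m, mb a ε (w i)

lemma Sr_dep (m : ℕ) (w w' : Pth) (h : ∀ i ≤ m, w i = w' i) : Sr a ε m w = Sr a ε m w' := by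
  unfold Sr
  rw [h m le_rfl]
  congr 1
  apply Finset.sum_congr rfl
  intro i hi
  rw [Finset.mem_range] at hi
  rw [h i hi.le]

lemma Sr_step (ha : Jump a) (h0 : 0 ≤ ε) (h1 : ε < 1) (m : ℕ) (w : Pth) :
    ENNReal.ofReal (Sr a ε m w ^ 2) ≤ Av a ε m (fun w => ENNReal.ofReal (Sr a ε (m + 1) w ^ 2)) w ∧
    Av a ε m (fun w => ENNReal.ofReal (Sr a ε (m + 1) w ^ 2)) w ≤
      ENNReal.ofReal (Sr a ε m w ^ 2) + 1 := by
  have hq0 := qd_nonneg ha (w m)
  have hq1 := qd_le_one ha (w m)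
  have hpos := one_sub_qd_pos ha h0 h1 (w m)
  set p := (1 - qd a (w m)) / (1 - ε * qd a (w m)) with hp
  set p' := (1 - ε) * qd a (w m) / (1 - ε * qd a (w m)) with hp'
  have hp0 : 0 ≤ p := div_nonneg (by linarith) hpos.le
  have hp'0 : 0 ≤ p' := div_nonneg (mul_nonneg (by linarith) hq0) hpos.le
  have hpp : p + p' = 1 := by
    rw [hp, hp', ← add_div, div_eq_one_iff_eq hpos.ne']; ring
  have hmb : mb a ε (w m) = p - p' := rfl
  set S := Sr a ε m w with hS
  have e : Av a ε m (fun w => ENNReal.ofReal (Sr a ε (m + 1) w ^ 2)) w =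
      ∑' j, pk a ε (w m) j * (if on (w m) j then ENNReal.ofReal ((S - 1 - (p - p')) ^ 2) else
        ENNReal.ofReal ((S + 1 - (p - p')) ^ 2)) := by
    unfold Av
    apply tsum_congr
    intro j
    beta_reduce
    have e1 : Sr a ε (m + 1) (Function.update w (m + 1) (flipAt (w m) j)) =
        S + (1 - 2 * ind (w m) j) - (p - p') := by
      rw [hS, ← hmb]
      unfold Sr
      rw [Function.update_self, M_flipAt, Finset.sum_range_succ, Function.update_of_ne (by omega)]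
      have e2 : ∑ i ∈ Finset.range m, mb a ε (Function.update w (m + 1) (flipAt (w m) j) i) =
          ∑ i ∈ Finset.range m, mb a ε (w i) := by
        apply Finset.sum_congr rfl
        intro i hi
        rw [Finset.mem_range] at hi
        rw [Function.update_of_ne (by omega)]
      rw [e2]
      ring
    rw [e1]
    by_cases h : on (w m) j
    · have h1' : ind (w m) j = 1 := by unfold ind; rw [if_pos h]
      rw [if_pos h, h1']; congr 3; ring
    · have h1' : ind (w m) j = 0 := by unfold ind; rw [if_neg h]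
      rw [if_neg h, h1']; congr 3; ring
  rw [e, sum_sgn ha h0 h1, ← hp, ← hp', ← ENNReal.ofReal_mul hp0, ← ENNReal.ofReal_mul hp'0,
    ← ENNReal.ofReal_add (by positivity) (by positivity)]
  have e3 : p * (S + 1 - (p - p')) ^ 2 + p' * (S - 1 - (p - p')) ^ 2 = S ^ 2 + 4 * p * p' := by
    have : p' = 1 - p := by linarith
    rw [this]; ring
  rw [e3]
  constructor
  · apply ENNReal.ofReal_le_ofReal
    have : 0 ≤ 4 * p * p' := by positivity
    linarith
  · rw [ENNReal.ofReal_add (by positivity) (by positivity)]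
    gcongr
    rw [← ENNReal.ofReal_one]
    apply ENNReal.ofReal_le_ofReal
    have : p' = 1 - p := by linarith
    rw [this]
    nlinarith [sq_nonneg (2 * p - 1)]

lemma Sr_moment (ha : Jump a) (h0 : 0 ≤ ε) (h1 : ε < 1) (k n : ℕ) (w : Pth) :
    Ex a ε k n (fun w => ENNReal.ofReal (Sr a ε (k + n) w ^ 2)) w ≤
      ENNReal.ofReal (Sr a ε k w ^ 2) + n := by
  induction n generalizing k w with
  | zero => simp [Ex_zero]
  | succ n ih =>
    rw [Ex_succ]
    calc Av a ε k (Ex a ε (k + 1) n fun w => ENNReal.ofReal (Sr a ε (k + (n + 1)) w ^ 2)) w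
        ≤ Av a ε k (fun w => ENNReal.ofReal (Sr a ε (k + 1) w ^ 2) + n) w := by
          apply Av_mono
          intro w
          have := ih (k + 1) w
          rwa [show k + 1 + n = k + (n + 1) by ring] at this
      _ = Av a ε k (fun w => ENNReal.ofReal (Sr a ε (k + 1) w ^ 2)) w + n := by
          have := congrFun (Av_add (a := a) (κ := ε) k
            (fun w => ENNReal.ofReal (Sr a ε (k + 1) w ^ 2)) (fun _ => (n:ℝ≥0∞))) w
          rw [Pi.add_apply, Av_const ha h0 h1] at this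
          exact this
      _ ≤ (ENNReal.ofReal (Sr a ε k w ^ 2) + 1) + n := by
          gcongr
          exact (Sr_step ha h0 h1 k w).2
      _ = _ := by push_cast; ring

lemma Sr_max (ha : Jump a) (h0 : 0 ≤ ε) (h1 : ε < 1) (n : ℕ) {θ : ℝ} (hθ : 0 < θ) :
    Ex a ε 0 n (one fun w => ∃ m ≤ n, θ ≤ |Sr a ε m w|) w0 ≤ ENNReal.ofReal (n / θ ^ 2) := by
  have hd := doob ha h0 h1 (Y := fun m w => ENNReal.ofReal (Sr a ε m w ^ 2))
    (fun m w w' h => by simp only; rw [Sr_dep m w w' h]) (fun m w => (Sr_step ha h0 h1 m w).1)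
    (ENNReal.ofReal (θ ^ 2)) 0 n w0
  have e : (one fun w => ∃ m, 0 ≤ m ∧ m ≤ 0 + n ∧ ENNReal.ofReal (θ ^ 2) ≤
      ENNReal.ofReal (Sr a ε m w ^ 2)) = (one fun w => ∃ m ≤ n, θ ≤ |Sr a ε m w|) := by
    unfold one
    funext w
    congr 1
    rw [eq_iff_iff]
    have hh : ∀ m, ENNReal.ofReal (θ ^ 2) ≤ ENNReal.ofReal (Sr a ε m w ^ 2) ↔
        θ ≤ |Sr a ε m w| := by
      intro m
      rw [ENNReal.ofReal_le_ofReal_iff (sq_nonneg _), ← sq_abs (Sr a ε m w)]
      exact pow_le_pow_iff_left₀ hθ.le (abs_nonneg _) (by norm_num)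
    constructor
    · rintro ⟨m, _, h2, h3⟩
      exact ⟨m, by omega, (hh m).mp h3⟩
    · rintro ⟨m, h2, h3⟩
      exact ⟨m, Nat.zero_le _, by omega, (hh m).mpr h3⟩
  rw [e] at hd
  have h3 := hd.trans (Sr_moment ha h0 h1 0 n w0)
  have e2 : Sr a ε 0 w0 = 0 := by simp [Sr, w0, M_empty]
  rw [e2] at h3
  simp only [ne_eq, OfNat.ofNat_ne_zero, not_false_eq_true, zero_pow, ENNReal.ofReal_zero,
    zero_add] at h3
  have h2 : ENNReal.ofReal (θ ^ 2) ≠ 0 := by
    rw [Ne, ENNReal.ofReal_eq_zero, not_le]; positivity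
  rw [mul_comm, ← ENNReal.le_div_iff_mul_le (Or.inl h2) (Or.inl ENNReal.ofReal_ne_top),
    ← ENNReal.ofReal_natCast, ← ENNReal.ofReal_div_of_pos (by positivity)] at h3
  exact h3

section

variable {ε : ℕ → ℝ} {Ω : ℕ → Type*} [∀ k, MeasurableSpace (Ω k)]
    {P : ∀ k, Measure (Ω k)} [∀ k, IsProbabilityMeasure (P k)]
    {X : ∀ k, ℝ → Ω k → Conf} {x : ∀ k, ℕ → Ω k → Conf} {e : ∀ k, ℕ → Ω k → ℝ}

/-- Ballistic motion of the centre of mass. -/
lemma Seqs.ballistic (S : Seqs a ε P X x e) {τ η : ℝ} (hτ : 0 ≤ τ) (hη : 0 < η) :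
    Tendsto (fun k => P k {ω | ∃ t : ℝ, 0 ≤ t ∧ t ≤ τ ∧
      η < |ε k * Zpos (ε k) (X k) t ω - cm a * t|}) atTop (𝓝 0) := by
  have ha := S.jump
  have hs := s2_pos ha
  set A2 : ℝ := 2 * s2 a * τ + 2 with hA2
  have hA2' : 0 < A2 := by positivity
  set c := |cm a| with hc
  have hc0 : 0 ≤ c := abs_nonneg _
  -- accuracy
  set δ : ℝ := η / (4 * A2 * (1 + c + c / s2 a)) with hδ
  have hδ0 : 0 < δ := by positivity
  set n : ℕ → ℕ := fun k => nst a τ (ε k) with hn
  have hSr : Tendsto (fun k => P k {ω | ∃ m ≤ n k, δ * n k ≤ |Sr a (ε k) m (pth (x k) ω)|}) atTop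
      (𝓝 0) := by
    have hb : Tendsto (fun k => ENNReal.ofReal (1 / δ ^ 2 / (n k : ℝ))) atTop (𝓝 0) := by
      rw [← ENNReal.ofReal_zero]
      apply ENNReal.tendsto_ofReal
      exact tendsto_const_nhds.div_atTop
        (tendsto_natCast_atTop_atTop.comp (nst_tendsto ha hτ S.pos S.lim))
    refine tendsto_of_tendsto_of_tendsto_of_le_of_le' tendsto_const_nhds hb
      (Eventually.of_forall fun k => zero_le) ?_
    filter_upwards [(nst_tendsto ha hτ S.pos S.lim).eventually_ge_atTop 1] with k hk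
    have hA : ∀ w w' : Pth, (∀ i ≤ n k, w i = w' i) →
        ((∃ m ≤ n k, δ * n k ≤ |Sr a (ε k) m w|) ↔ (∃ m ≤ n k, δ * n k ≤ |Sr a (ε k) m w'|)) := by
      intro w w' hw
      apply exists_congr
      intro m
      apply and_congr_right
      intro hm
      rw [Sr_dep m w w' (fun i hi => hw i (by omega))]
    have hnr : (0:ℝ) < n k := by exact_mod_cast hk
    rw [chain_prob ha (S.pos k).le (S.lt_one k) (S.chain k) _ hA]
    refine (Sr_max ha (S.pos k).le (S.lt_one k) (n k) (by positivity)).trans (le_of_eq ?_)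
    congr 1
    field_simp
  have htr := S.tracks hτ hδ0
  have hsum : Tendsto (fun k => P k {ω | ¬ Tracks a (ε k) τ δ (X k) (x k) ω} +
      P k {ω | ∃ m ≤ n k, δ * n k ≤ |Sr a (ε k) m (pth (x k) ω)|}) atTop (𝓝 0) := by
    simpa using htr.add hSr
  have hε2 : ∀ᶠ k in atTop, ε k ≤ min (1 / 2) δ := by
    have : (0:ℝ) < min (1 / 2) δ := lt_min (by norm_num) hδ0
    exact (S.lim.eventually (gt_mem_nhds this)).mono fun k hk => hk.le
  refine tendsto_of_tendsto_of_tendsto_of_le_of_le' tendsto_const_nhds hsum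
    (Eventually.of_forall fun k => zero_le) ?_
  filter_upwards [hε2] with k hk
  refine le_trans (measure_mono ?_) (measure_union_le _ _)
  rintro ω ⟨t, ht0, htτ, hη2⟩
  by_contra hcon
  rw [Set.mem_union, not_or] at hcon
  obtain ⟨hcon1, hcon2⟩ := hcon
  have hT : Tracks a (ε k) τ δ (X k) (x k) ω := by
    by_contra h; exact hcon1 h
  obtain ⟨m, hm1, hm2, hm3, _, hm5⟩ := hT t ht0 htτ
  have hS : |Sr a (ε k) m (pth (x k) ω)| < δ * n k := by
    by_contra h; exact hcon2 ⟨m, hm1, not_lt.mp h⟩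
  have hε := S.pos k
  have hεh : ε k ≤ 1 / 2 := hk.trans (min_le_left _ _)
  have hεδ : ε k ≤ δ := hk.trans (min_le_right _ _)
  have hnle := nst_le ha hτ hε (S.lt_one k)
  rw [← hA2] at hnle
  have hn0 : (0:ℝ) ≤ n k := by positivity
  -- the sum of the mean steps
  have hmb : |∑ i ∈ Finset.range m, mb a (ε k) (pth (x k) ω i) + cm a * Cr a 0 m (pth (x k) ω)| ≤
      δ * n k := by
    unfold Cr
    rw [Finset.mul_sum, ← Finset.sum_add_distrib]
    refine (Finset.abs_sum_le_sum_abs _ _).trans ?_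
    calc ∑ i ∈ Finset.range m, |mb a (ε k) (pth (x k) ω i) + cm a * rr a (pth (x k) ω (0 + i))|
        ≤ ∑ i ∈ Finset.range m, δ := by
          apply Finset.sum_le_sum
          intro i _
          rw [zero_add]
          exact (mb_close ha hε.le hεh _).trans hεδ
      _ = m * δ := by rw [Finset.sum_const, Finset.card_range, nsmul_eq_mul]
      _ ≤ δ * n k := by
          rw [mul_comm]
          apply mul_le_mul_of_nonneg_left _ hδ0.le
          exact_mod_cast hm1
  -- assemble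
  have hM : (M (X k (t / ε k ^ 2) ω) : ℝ) + cm a * (t / ε k ^ 2) =
      Sr a (ε k) m (pth (x k) ω) +
      (∑ i ∈ Finset.range m, mb a (ε k) (pth (x k) ω i) + cm a * Cr a 0 m (pth (x k) ω)) -
      cm a * (Cr a 0 m (pth (x k) ω) - m / s2 a) -
      cm a / s2 a * ((m:ℝ) - s2 a * (t / ε k ^ 2)) := by
    rw [hm2]
    unfold Sr
    have : pth (x k) ω m = x k m ω := rfl
    rw [this]
    field_simp
    ring
  have hMb : |(M (X k (t / ε k ^ 2) ω) : ℝ) + cm a * (t / ε k ^ 2)| ≤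
      2 * (1 + c + c / s2 a) * (δ * n k) := by
    rw [hM]
    have h1 : |cm a * (Cr a 0 m (pth (x k) ω) - m / s2 a)| ≤ c * (δ * n k) := by
      rw [abs_mul]; exact mul_le_mul_of_nonneg_left hm5 hc0
    have h2 : |cm a / s2 a * ((m:ℝ) - s2 a * (t / ε k ^ 2))| ≤ c / s2 a * (δ * n k) := by
      rw [abs_mul, abs_div, abs_of_pos hs]
      exact mul_le_mul_of_nonneg_left hm3 (by positivity)
    have h3 := abs_sub (Sr a (ε k) m (pth (x k) ω) +
      (∑ i ∈ Finset.range m, mb a (ε k) (pth (x k) ω i) + cm a * Cr a 0 m (pth (x k) ω)) -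
      cm a * (Cr a 0 m (pth (x k) ω) - m / s2 a)) (cm a / s2 a * ((m:ℝ) - s2 a * (t / ε k ^ 2)))
    have h4 := abs_sub (Sr a (ε k) m (pth (x k) ω) +
      (∑ i ∈ Finset.range m, mb a (ε k) (pth (x k) ω i) + cm a * Cr a 0 m (pth (x k) ω)))
      (cm a * (Cr a 0 m (pth (x k) ω) - m / s2 a))
    have h5 := abs_add_le (Sr a (ε k) m (pth (x k) ω))
      (∑ i ∈ Finset.range m, mb a (ε k) (pth (x k) ω i) + cm a * Cr a 0 m (pth (x k) ω))
    have h6 : 0 ≤ c * (δ * n k) := by positivity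
    have h7 : 0 ≤ c / s2 a * (δ * n k) := by positivity
    have h8 : 2 * (1 + c + c / s2 a) * (δ * n k) =
      2 * (δ * n k) + 2 * (c * (δ * n k)) + 2 * (c / s2 a * (δ * n k)) := by ring
    rw [h8]
    linarith
  have e1 : ε k * Zpos (ε k) (X k) t ω - cm a * t =
      -(ε k ^ 2) * ((M (X k (t / ε k ^ 2) ω) : ℝ) + cm a * (t / ε k ^ 2)) := by
    unfold Zpos; field_simp; ring
  rw [e1, abs_mul, abs_neg, abs_of_pos (by positivity : 0 < ε k ^ 2)] at hη2
  have h9 : ε k ^ 2 * |(M (X k (t / ε k ^ 2) ω) : ℝ) + cm a * (t / ε k ^ 2)| ≤ η / 2 := by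
    calc ε k ^ 2 * |(M (X k (t / ε k ^ 2) ω) : ℝ) + cm a * (t / ε k ^ 2)|
        ≤ ε k ^ 2 * (2 * (1 + c + c / s2 a) * (δ * (A2 / ε k ^ 2))) := by gcongr; exact hMb.trans (by gcongr)
      _ = η / 2 := by rw [hδ]; field_simp; norm_num
  linarith

end

end Pool.Agent.K9h92.BV
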