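import Pool.Agent.K9h92.BV.Lyap

set_option autoImplicit false

/-!
The gaps between the leftmost ones.
-/

open ENNReal Filter Topology

namespace Pool.Agent.K9h92.BV

variable {a : ℤ → ℝ}

lemma ql_int (D : Conf) (y : ℤ) : ∃ n : ℕ, ql D y = n := by
  refine ⟨((Finset.Ico (-(bd D : ℤ)) y).filter (on D)).card, ?_⟩
  unfold ql
  rw [tsum_eq_sum (s := Finset.Ico (-(bd D : ℤ)) y)]
  · rw [Finset.card_filter]
    push_cast
    apply Finset.sum_congr rfl
    intro i hi
    rw [Finset.mem_Ico] at hi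
    rw [if_pos hi.2]
    unfold ind; rfl
  · intro i hi
    rw [Finset.mem_Ico] at hi
    by_cases h : i < y
    · rw [if_pos h, ind_of_lt (by omega)]
    · rw [if_neg h]

lemma ql_nonneg (D : Conf) (y : ℤ) : 0 ≤ ql D y := by
  obtain ⟨n, hn⟩ := ql_int D y
  rw [hn]; positivity

lemma pr_nonneg (D : Conf) (y : ℤ) : 0 ≤ pr D y :=
  tsum_nonneg fun i => by
    split_ifs
    · exact co_nonneg _ _
    · exact le_rfl

lemma ql_succ (D : Conf) (y : ℤ) : ql D (y + 1) = ql D y + ind D y := by
  unfold ql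
  have e : ∀ i, (if i < y + 1 then ind D i else 0) =
      (if i < y then ind D i else 0) + (if i = y then ind D y else 0) := by
    intro i
    rcases lt_trichotomy i y with h | h | h
    · rw [if_pos (by omega), if_pos h, if_neg (by omega)]; ring
    · subst h; rw [if_pos (by omega), if_neg (by omega), if_pos rfl]; ring
    · rw [if_neg (by omega), if_neg (by omega), if_neg (by omega)]; ring
  rw [tsum_congr e, Summable.tsum_add (ql_summable D y) (hasSum_ite_eq y _).summable, tsum_ite_eq]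

lemma ql_mono (D : Conf) {y y' : ℤ} (h : y ≤ y') : ql D y ≤ ql D y' := by
  unfold ql
  apply Summable.tsum_le_tsum _ (ql_summable D y) (ql_summable D y')
  intro i
  have := ind_nonneg D i
  by_cases h1 : i < y
  · rw [if_pos h1, if_pos (by omega)]
  · rw [if_neg h1]; split_ifs <;> linarith

lemma ql_low (D : Conf) {y : ℤ} (h : y ≤ -(bd D : ℤ)) : ql D y = 0 := by
  unfold ql
  have : ∀ i, (if i < y then ind D i else 0) = 0 := by
    intro i
    split_ifs with h1
    · exact ind_of_lt (by omega)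
    · rfl
  rw [tsum_congr this]; simp

lemma ql_ge (D : Conf) (y : ℤ) : (y:ℝ) + M D ≤ ql D y := by
  have := ql_sub_pr D y
  have := pr_nonneg D y
  linarith

lemma thr_exists (D : Conf) {K : ℕ} (hK : 0 < K) : ∃ J : ℤ, ∀ y, ql D y < K ↔ y ≤ J := by
  have hKr : (0:ℝ) < K := by exact_mod_cast hK
  obtain ⟨J, hJ1, hJ2⟩ := Int.exists_greatest_of_bdd (P := fun y => ql D y < K)
    ⟨K - M D, fun z hz => by
      have h1 := ql_ge D z
      have h2 : (z:ℝ) + M D < K := lt_of_le_of_lt h1 hz
      have h3 : z + M D < K := by exact_mod_cast h2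
      omega⟩
    ⟨-(bd D : ℤ), by rw [ql_low D le_rfl]; exact hKr⟩
  exact ⟨J, fun y => ⟨fun h => hJ2 y h, fun h => lt_of_le_of_lt (ql_mono D h) hJ1⟩⟩

/-- the position of the `K`-th one from the left -/
noncomputable def thr (D : Conf) (K : ℕ) : ℤ :=
  if h : 0 < K then (thr_exists D h).choose else 0

lemma thr_spec (D : Conf) {K : ℕ} (hK : 0 < K) (y : ℤ) : ql D y < K ↔ y ≤ thr D K := by
  unfold thr
  rw [dif_pos hK]
  exact (thr_exists D hK).choose_spec y

lemma thr_mono (D : Conf) {K L : ℕ} (hK : 0 < K) (h : K ≤ L) : thr D K ≤ thr D L := by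
  rw [← thr_spec D (by omega)]
  refine lt_of_lt_of_le ((thr_spec D hK _).mpr le_rfl) ?_
  exact_mod_cast h

lemma ql_thr_succ (D : Conf) {K : ℕ} (hK : 0 < K) : ql D (thr D K + 1) = K := by
  have h1 := (thr_spec D hK (thr D K)).mpr le_rfl
  have h2 : ¬ ql D (thr D K + 1) < K := fun h => by
    have := (thr_spec D hK _).mp h
    omega
  obtain ⟨n, hn⟩ := ql_int D (thr D K)
  obtain ⟨m, hm⟩ := ql_int D (thr D K + 1)
  have h3 := ql_succ D (thr D K)
  have h4 := ind_le_one D (thr D K)
  rw [hn] at h1 h3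
  rw [hm] at h2 h3 ⊢
  have h1' : n < K := by exact_mod_cast h1
  have h2' : K ≤ m := by exact_mod_cast not_lt.mp h2
  have h5 : (m:ℝ) ≤ n + 1 := by linarith
  have h5' : m ≤ n + 1 := by exact_mod_cast h5
  have : m = K := by omega
  rw [this]

lemma ql_thr_add (D : Conf) {K : ℕ} (hK : 0 < K) (n : ℕ) : ql D (thr D K + 1 + n) ≤ K + n := by
  induction n with
  | zero => simp only [Nat.cast_zero, add_zero]; exact (ql_thr_succ D hK).le
  | succ n ih =>
    rw [show thr D K + 1 + ((n + 1 : ℕ) : ℤ) = (thr D K + 1 + n) + 1 by push_cast; ring, ql_succ]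
    have := ind_le_one D (thr D K + 1 + n)
    push_cast
    linarith

lemma ql_thr_sub (D : Conf) {K : ℕ} (hK : 0 < K) (n : ℕ) : (K:ℝ) - n ≤ ql D (thr D K + 1 - n) := by
  induction n with
  | zero => simp only [Nat.cast_zero, sub_zero]; exact (ql_thr_succ D hK).ge
  | succ n ih =>
    have h := ql_succ D (thr D K + 1 - ((n + 1 : ℕ) : ℤ))
    rw [show thr D K + 1 - ((n + 1 : ℕ) : ℤ) + 1 = thr D K + 1 - n by push_cast; ring] at h
    have := ind_le_one D (thr D K + 1 - ((n + 1 : ℕ) : ℤ))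
    push_cast at h this ⊢
    linarith

/-- the sum of the distances of the ones to a point on their right -/
noncomputable def FJ (D : Conf) (J : ℤ) : ℝ := ∑' j : ℤ, ind D j * max ((J:ℝ) - j) 0

lemma FJ_summable (D : Conf) (J : ℤ) : Summable fun j : ℤ => ind D j * max ((J:ℝ) - j) 0 := by
  apply summable_of_window (-(bd D : ℤ)) J
  intro j hj
  refine ⟨le_of_ind_ne (left_ne_zero_of_mul hj), ?_⟩
  by_contra hc
  apply right_ne_zero_of_mul hj
  apply max_eq_right
  have : (J:ℝ) < j := by exact_mod_cast not_le.mp hc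
  linarith

lemma FJ_succ (D : Conf) (J : ℤ) : FJ D (J + 1) = FJ D J + ql D (J + 1) := by
  unfold FJ ql
  rw [← Summable.tsum_add (FJ_summable D J) (ql_summable D (J + 1))]
  apply tsum_congr
  intro j
  by_cases h : j < J + 1
  · rw [if_pos h]
    have h1 : (j:ℝ) ≤ J := by exact_mod_cast (by omega : j ≤ J)
    push_cast
    rw [max_eq_left (by linarith), max_eq_left (by linarith)]
    ring
  · rw [if_neg h]
    have h1 : (J:ℝ) + 1 ≤ j := by exact_mod_cast not_lt.mp h
    push_cast
    rw [max_eq_right (by linarith), max_eq_right (by linarith)]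
    ring

lemma FJ_up (D : Conf) {K : ℕ} (hK : 0 < K) (n : ℕ) :
    FJ D (thr D K + n) - FJ D (thr D K) ≤ n * K + n * (n - 1) / 2 := by
  induction n with
  | zero => simp
  | succ n ih =>
    have h := FJ_succ D (thr D K + n)
    have h2 := ql_thr_add D hK n
    rw [show thr D K + 1 + (n:ℤ) = thr D K + n + 1 by ring] at h2
    rw [show thr D K + ((n + 1 : ℕ) : ℤ) = thr D K + n + 1 by push_cast; ring, h]
    push_cast
    nlinarith

lemma FJ_down (D : Conf) {K : ℕ} (hK : 0 < K) (n : ℕ) :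
    FJ D (thr D K - n) - FJ D (thr D K) ≤ -(n * K) + n * (n + 1) / 2 := by
  induction n with
  | zero => simp
  | succ n ih =>
    have h := FJ_succ D (thr D K - ((n + 1 : ℕ) : ℤ))
    have h2 := ql_thr_sub D hK (n + 1)
    rw [show thr D K + 1 - ((n + 1 : ℕ) : ℤ) = thr D K - n by push_cast; ring] at h2
    rw [show thr D K - ((n + 1 : ℕ) : ℤ) + 1 = thr D K - n by push_cast; ring] at h
    push_cast at h h2 ⊢
    nlinarith

lemma FJ_diff (D : Conf) {K : ℕ} (hK : 0 < K) (k : ℤ) :
    FJ D (thr D K - k) - FJ D (thr D K) ≤ -((k:ℝ) * K) + ((k:ℝ) ^ 2 + |(k:ℝ)|) / 2 := by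
  rcases le_total 0 k with h | h
  · have h1 := FJ_down D hK k.toNat
    have h2 : ((k.toNat : ℕ) : ℤ) = k := Int.toNat_of_nonneg h
    have h3 : ((k.toNat : ℕ) : ℝ) = k := by exact_mod_cast h2
    rw [h2, h3] at h1
    rw [abs_of_nonneg (by exact_mod_cast h)]
    nlinarith
  · have h1 := FJ_up D hK (-k).toNat
    have h2 : (((-k).toNat : ℕ) : ℤ) = -k := Int.toNat_of_nonneg (by omega)
    have h3 : (((-k).toNat : ℕ) : ℝ) = -k := by
      have : (((-k).toNat : ℕ) : ℝ) = ((-k : ℤ) : ℝ) := by exact_mod_cast h2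
      rw [this]; push_cast; ring
    rw [h2, h3, ← sub_eq_add_neg] at h1
    rw [abs_of_nonpos (by exact_mod_cast h)]
    nlinarith

lemma edge_arrow (D : Conf) (J k : ℤ) :
    ∑' j : ℤ, (ind D (j - k) - ind D j) * max ((J:ℝ) - j) 0 = FJ D (J - k) - FJ D J := by
  have s1 := (Equiv.subRight k).summable_iff.mpr (FJ_summable D (J - k))
  have t1 := (Equiv.subRight k).tsum_eq (fun j : ℤ => ind D j * max (((J - k : ℤ):ℝ) - j) 0)
  have e1 : ∀ j : ℤ, (fun j : ℤ => ind D j * max (((J - k : ℤ):ℝ) - j) 0) ((Equiv.subRight k) j) =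
      ind D (j - k) * max ((J:ℝ) - j) 0 := by
    intro j
    simp only [Equiv.subRight_apply]
    push_cast
    rw [show (J:ℝ) - k - (j - k) = J - j by ring]
  have s2 : Summable fun j : ℤ => ind D (j - k) * max ((J:ℝ) - j) 0 := s1.congr e1
  have e2 : ∀ j : ℤ, (ind D (j - k) - ind D j) * max ((J:ℝ) - j) 0 =
      ind D (j - k) * max ((J:ℝ) - j) 0 - ind D j * max ((J:ℝ) - j) 0 := by intro j; ring
  rw [tsum_congr e2, Summable.tsum_sub s2 (FJ_summable D J), ← tsum_congr e1, t1]
  rfl

lemma cnt (j J : ℤ) : (Summable fun y : ℤ => (if j < y ∧ y ≤ J then (1:ℝ) else 0)) ∧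
    ∑' y : ℤ, (if j < y ∧ y ≤ J then (1:ℝ) else 0) = max ((J:ℝ) - j) 0 := by
  have hz : ∀ y ∉ Finset.Ioc j J, (if j < y ∧ y ≤ J then (1:ℝ) else 0) = 0 := by
    intro y hy
    rw [Finset.mem_Ioc] at hy
    rw [if_neg hy]
  refine ⟨summable_of_ne_finset_zero hz, ?_⟩
  rw [tsum_eq_sum hz]
  have e : ∀ y ∈ Finset.Ioc j J, (if j < y ∧ y ≤ J then (1:ℝ) else 0) = 1 := by
    intro y hy
    rw [Finset.mem_Ioc] at hy
    rw [if_pos hy]
  rw [Finset.sum_congr rfl e, Finset.sum_const, Int.card_Ioc, nsmul_eq_mul, mul_one]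
  rcases le_total j J with h | h
  · have h2 : (((J - j).toNat : ℕ) : ℤ) = J - j := Int.toNat_of_nonneg (by omega)
    have h3 : (((J - j).toNat : ℕ) : ℝ) = ((J - j : ℤ) : ℝ) := by exact_mod_cast h2
    rw [h3, max_eq_left]
    · push_cast; ring
    · have : (j:ℝ) ≤ J := by exact_mod_cast h
      linarith
  · rw [Int.toNat_of_nonpos (by omega), max_eq_right]
    · simp
    · have : (J:ℝ) ≤ j := by exact_mod_cast h
      linarith

/-- the capped counting functional -/
noncomputable def Gp (D : Conf) (K : ℕ) : ℝ :=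
  ∑' y : ℤ, (min (ql D y) K - (if 0 < y then (K:ℝ) else 0))

lemma Gp_summable (D : Conf) (K : ℕ) :
    Summable fun y : ℤ => min (ql D y) K - (if 0 < y then (K:ℝ) else 0) := by
  apply summable_of_window (-(bd D : ℤ)) (K + |M D|)
  intro y hy
  have h1 := neg_abs_le (M D)
  have h2 := abs_nonneg (M D)
  by_contra hc
  apply hy
  rw [not_and_or] at hc
  rcases hc with hc | hc
  · rw [ql_low D (by omega), if_neg (by omega)]; simp
  · have h3 := ql_ge D y
    have h4 : (K:ℤ) ≤ y + M D := by omega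
    have h5 : (K:ℝ) ≤ y + M D := by exact_mod_cast h4
    rw [min_eq_right (by linarith), if_pos (by omega)]; ring

lemma ql_flipAt (D : Conf) (j y : ℤ) :
    ql (flipAt D j) y = ql D y + (1 - 2 * ind D j) * (if j < y then 1 else 0) := by
  unfold ql
  have e : ∀ i, (if i < y then ind (flipAt D j) i else 0) = (if i < y then ind D i else 0) +
      (if i = j then (1 - 2 * ind D j) * (if j < y then 1 else 0) else 0) := by
    intro i
    rw [ind_flipAt]
    by_cases h : i = j
    · subst h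
      by_cases h2 : i < y
      · rw [if_pos h2, if_pos h2, if_pos h2]; simp
      · rw [if_neg h2, if_neg h2, if_neg h2]; simp
    · rw [if_neg h, if_neg h]; simp
  rw [tsum_congr e, Summable.tsum_add (ql_summable D y) (hasSum_ite_eq j _).summable, tsum_ite_eq]

lemma min_flip (D : Conf) (K : ℕ) (j y : ℤ) :
    min (ql (flipAt D j) y) K = min (ql D y) K +
      (1 - 2 * ind D j) * (if j < y ∧ ql D y < K + ind D j then 1 else 0) := by
  rw [ql_flipAt]
  by_cases h : j < y
  · obtain ⟨n, hn⟩ := ql_int D y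
    rw [hn, if_pos h]
    rcases ind_eq D j with h1 | h1
    · rw [h1]
      by_cases h2 : (n:ℝ) < K
      · have h3 : n + 1 ≤ K := by exact_mod_cast h2
        have h4 : (n:ℝ) + 1 ≤ K := by exact_mod_cast h3
        rw [if_pos ⟨h, by linarith⟩, min_eq_left (by linarith), min_eq_left (by linarith)]
      · have h3 := not_lt.mp h2
        rw [if_neg (fun hc => h2 (by linarith [hc.2])), min_eq_right (by linarith),
          min_eq_right (by linarith)]; ring
    · rw [h1]
      by_cases h2 : (n:ℝ) < K + 1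
      · have h3 : n < K + 1 := by exact_mod_cast h2
        have h4 : (n:ℝ) ≤ K := by exact_mod_cast (Nat.lt_succ_iff.mp h3)
        rw [if_pos ⟨h, h2⟩, min_eq_left (by linarith), min_eq_left (by linarith)]
      · have h3 := not_lt.mp h2
        rw [if_neg (fun hc => h2 hc.2), min_eq_right (by linarith),
          min_eq_right (by linarith)]; ring
  · rw [if_neg h, if_neg (fun hc => h hc.1)]; simp

/-- the distance to the `K`-th one -/
noncomputable def dA (D : Conf) (K : ℕ) (j : ℤ) : ℝ := max ((thr D K : ℝ) - j) 0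

lemma dA_nonneg (D : Conf) (K : ℕ) (j : ℤ) : 0 ≤ dA D K j := le_max_right _ _

lemma dA_mono (D : Conf) {K : ℕ} (hK : 0 < K) (j : ℤ) : dA D K j ≤ dA D (K + 1) j := by
  unfold dA
  apply max_le_max_right
  have : (thr D K : ℝ) ≤ thr D (K + 1) := by exact_mod_cast thr_mono D hK (Nat.le_succ K)
  linarith

lemma cnt_flip (D : Conf) {K : ℕ} (hK : 0 < K) (j : ℤ) :
    (Summable fun y : ℤ => (if j < y ∧ ql D y < K + ind D j then (1:ℝ) else 0)) ∧
    ∑' y : ℤ, (if j < y ∧ ql D y < K + ind D j then (1:ℝ) else 0) =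
      dA D K j + ind D j * (dA D (K + 1) j - dA D K j) := by
  rcases ind_eq D j with h1 | h1
  · have e : ∀ y : ℤ, (if j < y ∧ ql D y < K + ind D j then (1:ℝ) else 0) =
        (if j < y ∧ y ≤ thr D K then (1:ℝ) else 0) := by
      intro y
      have : (j < y ∧ ql D y < K + ind D j) ↔ (j < y ∧ y ≤ thr D K) := by
        rw [h1, add_zero, thr_spec D hK]
      simp only [this]
    refine ⟨(cnt j (thr D K)).1.congr fun y => (e y).symm, ?_⟩
    rw [tsum_congr e, (cnt j (thr D K)).2, h1]
    unfold dA; ring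
  · have e : ∀ y : ℤ, (if j < y ∧ ql D y < K + ind D j then (1:ℝ) else 0) =
        (if j < y ∧ y ≤ thr D (K + 1) then (1:ℝ) else 0) := by
      intro y
      have : (j < y ∧ ql D y < K + ind D j) ↔ (j < y ∧ y ≤ thr D (K + 1)) := by
        rw [h1, ← thr_spec D (Nat.succ_pos K)]; push_cast; rfl
      simp only [this]
    refine ⟨(cnt j (thr D (K + 1))).1.congr fun y => (e y).symm, ?_⟩
    rw [tsum_congr e, (cnt j (thr D (K + 1))).2, h1]
    unfold dA; ring

/-- the sum of the distances of the first `K` ones to the centre of mass -/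
noncomputable def GG (K : ℕ) (D : Conf) : ℝ := Gp D K - K * M D

lemma GG_flip (D : Conf) {K : ℕ} (hK : 0 < K) (j : ℤ) :
    GG K (flipAt D j) = GG K D + (1 - 2 * ind D j) *
      (dA D K j + ind D j * (dA D (K + 1) j - dA D K j) - K) := by
  obtain ⟨s, t⟩ := cnt_flip D hK j
  have h1 : Gp (flipAt D j) K = Gp D K + (1 - 2 * ind D j) *
      (dA D K j + ind D j * (dA D (K + 1) j - dA D K j)) := by
    unfold Gp
    rw [← t, ← tsum_mul_left, ← Summable.tsum_add (Gp_summable D K) (s.mul_left _)]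
    apply tsum_congr
    intro y
    rw [min_flip]; ring
  unfold GG
  rw [h1, M_flipAt]
  ring

lemma shift_heav (m : ℤ) : (Summable fun y : ℤ => (if -m < y then (1:ℝ) else 0) - (if 0 < y then 1 else 0)) ∧
    ∑' y : ℤ, ((if -m < y then (1:ℝ) else 0) - (if 0 < y then 1 else 0)) = m := by
  obtain ⟨s, t⟩ := heav_diff (-m)
  have s1 := (Equiv.subRight (1:ℤ)).summable_iff.mpr s
  have t1 := (Equiv.subRight (1:ℤ)).tsum_eq
    (fun u : ℤ => (if 0 ≤ u - (-m) then (1:ℝ) else 0) - (if 0 ≤ u then 1 else 0))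
  have e : ∀ y : ℤ, (fun u : ℤ => (if 0 ≤ u - (-m) then (1:ℝ) else 0) - (if 0 ≤ u then 1 else 0))
      ((Equiv.subRight (1:ℤ)) y) = (if -m < y then (1:ℝ) else 0) - (if 0 < y then 1 else 0) := by
    intro y
    simp only [Equiv.subRight_apply]
    have h1 : (0 ≤ y - 1 - -m) ↔ (-m < y) := by omega
    have h2 : (0 ≤ y - 1) ↔ (0 < y) := by omega
    simp only [h1, h2]
  refine ⟨s1.congr e, ?_⟩
  rw [← tsum_congr e, t1, t]; push_cast; ring

lemma GG_ge (D : Conf) (K : ℕ) : -(K:ℝ) ^ 2 ≤ GG K D := by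
  obtain ⟨s, t⟩ := shift_heav (M D)
  obtain ⟨s2, t2⟩ := cnt (-M D) (-M D + K)
  have e1 : GG K D = ∑' y : ℤ, (min (ql D y) K - (if -M D < y then (K:ℝ) else 0)) := by
    unfold GG Gp
    rw [← t, ← tsum_mul_left, ← Summable.tsum_sub (Gp_summable D K) (s.mul_left _)]
    apply tsum_congr
    intro y
    split_ifs <;> ring
  have s3 : Summable fun y : ℤ => (min (ql D y) K - (if -M D < y then (K:ℝ) else 0)) := by
    refine ((Gp_summable D K).sub (s.mul_left (K:ℝ))).congr ?_
    intro y
    split_ifs <;> ring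
  have e2 : -(K:ℝ) ^ 2 = ∑' y : ℤ, -(K:ℝ) * (if -M D < y ∧ y ≤ -M D + K then (1:ℝ) else 0) := by
    rw [tsum_mul_left, t2]
    push_cast
    rw [show -(M D : ℝ) + K - -(M D : ℝ) = K by ring, max_eq_left (by positivity)]
    ring
  rw [e1, e2]
  apply Summable.tsum_le_tsum _ (s2.mul_left _) s3
  intro y
  have hK : (0:ℝ) ≤ K := by positivity
  have h0 : 0 ≤ min (ql D y) (K:ℝ) := le_min (ql_nonneg D y) hK
  by_cases h : -M D < y
  · rw [if_pos h]
    by_cases h2 : y ≤ -M D + K
    · rw [if_pos ⟨h, h2⟩]; linarith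
    · rw [if_neg (fun hc => h2 hc.2)]
      have h3 := ql_ge D y
      have h4 : (K:ℤ) ≤ y + M D := by omega
      have h5 : (K:ℝ) ≤ y + M D := by exact_mod_cast h4
      rw [min_eq_right (by linarith)]; simp
  · rw [if_neg h, if_neg (fun hc => h hc.1), mul_zero, sub_zero]; exact h0

lemma GG_empty (K : ℕ) : GG K ∅ ≤ 0 := by
  unfold GG Gp
  rw [M_empty]
  push_cast
  rw [mul_zero, sub_zero]
  apply tsum_nonpos
  intro y
  by_cases h : 0 < y
  · rw [if_pos h]
    have := min_le_right (ql ∅ y) (K:ℝ)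
    linarith
  · rw [if_neg h, ql_low ∅ (by simp [bd]; omega)]; simp

/-- the total rate of the jumps to the right -/
noncomputable def ap (a : ℤ → ℝ) : ℝ := ∑' k : ℤ, pos1 k * a k

lemma ap_summable (ha : Jump a) : Summable fun k : ℤ => pos1 k * a k := by
  apply Summable.of_nonneg_of_le (fun k => mul_nonneg (pos1_nonneg k) (ha.nonneg k)) _ ha.summable
  intro k
  have := ha.nonneg k
  have := pos1_le k
  nlinarith

lemma Jump.exists_right (ha : Jump a) : ∃ k : ℤ, 0 < k ∧ 0 < a k := by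
  by_contra hc
  push Not at hc
  have h1 : ∀ m ∈ AddSubmonoid.closure {k : ℤ | 0 < a k}, m ≤ 0 := by
    intro m hm
    induction hm using AddSubmonoid.closure_induction with
    | mem k hk =>
      by_contra h
      have h2 : a k ≤ 0 := hc k (by omega)
      have h3 : 0 < a k := hk
      linarith
    | zero => exact le_rfl
    | add x y _ _ hx hy => omega
  have := h1 1 (by rw [ha.irred]; exact AddSubmonoid.mem_top _)
  omega

lemma ap_pos (ha : Jump a) : 0 < ap a := by
  obtain ⟨k, hk0, hk⟩ := ha.exists_right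
  apply (ap_summable ha).tsum_pos (fun k => mul_nonneg (pos1_nonneg k) (ha.nonneg k)) k
  unfold pos1
  rw [if_pos hk0, one_mul]; exact hk

/-- the leftmost one -/
lemma thr_one (D : Conf) : ind D (thr D 1) = 1 ∧ ∀ i < thr D 1, ind D i = 0 := by
  have h1 := (thr_spec D one_pos (thr D 1)).mpr le_rfl
  obtain ⟨n, hn⟩ := ql_int D (thr D 1)
  rw [hn] at h1
  have h2 : n = 0 := by
    have : n < 1 := by exact_mod_cast h1
    omega
  have h3 : ql D (thr D 1) = 0 := by rw [hn, h2]; simp
  have h4 := ql_thr_succ D one_pos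
  rw [ql_succ, h3, zero_add] at h4
  refine ⟨by rw [h4]; simp, fun i hi => ?_⟩
  have h5 := ql_mono D (show i + 1 ≤ thr D 1 by omega)
  rw [ql_succ, h3] at h5
  have := ql_nonneg D i
  have := ind_nonneg D i
  linarith

lemma urate_left (ha : Jump a) (D : Conf) : ap a ≤ urate a D (thr D 1) := by
  obtain ⟨h1, h2⟩ := thr_one D
  rw [urate_eq]
  unfold ap
  apply Summable.tsum_le_tsum _ (ap_summable ha) (sm_abs ha.nonneg ha.summable D _)
  intro k
  have h3 := ha.nonneg k
  by_cases hk : 0 < k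
  · rw [h1, h2 (thr D 1 - k) (by omega)]
    have := pos1_le k
    norm_num
    nlinarith
  · rw [pos1_zero k (by omega), zero_mul]
    exact mul_nonneg h3 (abs_nonneg _)

lemma GG_drift (ha : Jump a) {K : ℕ} (hK : 0 < K) (D : Conf) :
    (Summable fun j => vrate a D j *
      (dA D K j + ind D j * (dA D (K + 1) j - dA D K j) - K)) ∧
    ap a * ((thr D (K + 1) : ℝ) - thr D K) + ∑' j, vrate a D j *
      (dA D K j + ind D j * (dA D (K + 1) j - dA D K j) - K) ≤ (s2 a + m1 a) / 2 := by
  have hA : ∀ L : ℕ, ∀ j : ℤ, |dA D L j| ≤ (|(thr D L : ℝ)| + 1) * (1 + |(j:ℝ)|) ^ 1 := by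
    intro L j
    rw [abs_of_nonneg (dA_nonneg D L j)]
    unfold dA
    apply max_le
    · have h1 := le_abs_self (thr D L : ℝ)
      have h2 := neg_abs_le (j:ℝ)
      nlinarith [abs_nonneg (thr D L : ℝ), abs_nonneg (j:ℝ)]
    · positivity
  have d1 := drift_eq ha.nonneg ha.summable D 1 ha.pow1 (hA K)
  have d2 := drift_eq ha.nonneg ha.summable D 1 ha.pow1 (hA (K + 1))
  obtain ⟨b1, b2⟩ := balanced ha D
  have hB0 : ∀ j, 0 ≤ dA D (K + 1) j - dA D K j := fun j => by linarith [dA_mono D hK j]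
  have hu := fun j => urate_nonneg ha.nonneg D j
  -- the third part
  set T : ℤ → ℝ := fun j => ind D j * urate a D j * (dA D (K + 1) j - dA D K j) with hT
  have hT0 : ∀ j, 0 ≤ T j := fun j => mul_nonneg (mul_nonneg (ind_nonneg _ _) (hu j)) (hB0 j)
  have sT : Summable T := by
    apply Summable.of_nonneg_of_le hT0 _ d2.2.1
    intro j
    have h1 := ind_le_one D j
    have h2 := ind_nonneg D j
    have h3 := hu j
    rw [abs_of_nonneg (dA_nonneg D (K + 1) j)]
    have h4 := dA_nonneg D K j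
    have h5 := dA_nonneg D (K + 1) j
    calc ind D j * urate a D j * (dA D (K + 1) j - dA D K j)
        ≤ 1 * urate a D j * dA D (K + 1) j := by
          apply mul_le_mul (mul_le_mul_of_nonneg_right h1 h3) (by linarith) (hB0 j) (by positivity)
      _ = _ := by ring
  have e : ∀ j, vrate a D j * (dA D K j + ind D j * (dA D (K + 1) j - dA D K j) - K) =
      vrate a D j * dA D K j - T j - K * vrate a D j := by
    intro j
    simp only [hT]
    rw [vrate_eq]
    have : ind D j * ind D j = ind D j := by rcases ind_eq D j with h | h <;> rw [h] <;> norm_num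
    linear_combination (-2 * urate a D j * (dA D (K + 1) j - dA D K j)) * this
  have sall := (d1.1.sub sT).sub (b1.mul_left (K:ℝ))
  refine ⟨sall.congr fun j => (e j).symm, ?_⟩
  rw [tsum_congr e, Summable.tsum_sub (d1.1.sub sT) (b1.mul_left _), Summable.tsum_sub d1.1 sT,
    tsum_mul_left, b2, d1.2.2.2]
  -- first part
  have h1 : ∑' k, a k * ∑' j, (ind D (j - k) - ind D j) * dA D K j ≤
      -(K * cm a) + (s2 a + m1 a) / 2 := by
    have sR : Summable fun k : ℤ => -(K:ℝ) * ((k:ℝ) * a k) + (1 / 2) * ((k:ℝ) ^ 2 * a k + |(k:ℝ)| * a k) :=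
      (ha.signed.mul_left _).add ((ha.second.add ha.first).mul_left _)
    calc ∑' k, a k * ∑' j, (ind D (j - k) - ind D j) * dA D K j
        ≤ ∑' k : ℤ, (-(K:ℝ) * ((k:ℝ) * a k) + (1 / 2) * ((k:ℝ) ^ 2 * a k + |(k:ℝ)| * a k)) := by
          apply Summable.tsum_le_tsum _ d1.2.2.1 sR
          intro k
          have h2 := edge_arrow D (thr D K) k
          have h3 := FJ_diff D hK k
          unfold dA
          rw [h2]
          have := mul_le_mul_of_nonneg_left h3 (ha.nonneg k)
          linarith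
      _ = _ := by
          rw [Summable.tsum_add (ha.signed.mul_left _) ((ha.second.add ha.first).mul_left _),
            tsum_mul_left, tsum_mul_left, Summable.tsum_add ha.second ha.first]
          unfold cm s2 m1
          ring
  -- the leftmost one
  have h2 : ap a * ((thr D (K + 1) : ℝ) - thr D K) ≤ ∑' j, T j := by
    refine le_trans ?_ (sT.le_tsum (thr D 1) (fun j _ => hT0 j))
    simp only [hT]
    rw [(thr_one D).1, one_mul]
    have h3 : (thr D 1 : ℝ) ≤ thr D K := by exact_mod_cast thr_mono D one_pos hK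
    have h4 : (thr D K : ℝ) ≤ thr D (K + 1) := by exact_mod_cast thr_mono D hK (Nat.le_succ K)
    unfold dA
    rw [max_eq_left (by linarith), max_eq_left (by linarith)]
    have h5 := urate_left ha D
    calc ap a * ((thr D (K + 1) : ℝ) - thr D K) ≤ urate a D (thr D 1) * ((thr D (K + 1) : ℝ) - thr D K) :=
          mul_le_mul_of_nonneg_right h5 (by linarith)
      _ = _ := by ring
  linarith

lemma edge_step (ha : Jump a) {K : ℕ} (hK : 0 < K) (D : Conf) :
    Q a 0 (fun D => ENNReal.ofReal (GG K D + K ^ 2)) D +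
      ENNReal.ofReal (ap a * (rr a D * ((thr D (K + 1) : ℝ) - thr D K))) ≤
      ENNReal.ofReal (GG K D + K ^ 2) + ENNReal.ofReal ((s2 a + m1 a) / 2 / m1 a) := by
  obtain ⟨h1, h2⟩ := GG_drift ha hK D
  have hG : ∀ D, 0 ≤ GG K D + K ^ 2 := fun D => by have := GG_ge D K; linarith
  obtain ⟨h4, h5⟩ := Q_real ha (fun D => GG K D + K ^ 2) hG D
    (w := fun j => dA D K j + ind D j * (dA D (K + 1) j - dA D K j) - K)
    (fun j => by rw [GG_flip D hK]; ring) h1
  have hr := rr_pos ha D
  have hap := ap_pos ha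
  have hs := s2_pos ha
  have hm := m1_pos ha
  have hmono : (thr D K : ℝ) ≤ thr D (K + 1) := by exact_mod_cast thr_mono D hK (Nat.le_succ K)
  have hnn : 0 ≤ ap a * (rr a D * ((thr D (K + 1) : ℝ) - thr D K)) :=
    mul_nonneg hap.le (mul_nonneg hr.le (by linarith))
  rw [h4, ← ENNReal.ofReal_add h5 hnn, ← ENNReal.ofReal_add (hG D) (by positivity)]
  apply ENNReal.ofReal_le_ofReal
  have h6 := mul_le_mul_of_nonneg_left h2 hr.le
  have h7 : rr a D * ((s2 a + m1 a) / 2) ≤ 1 / m1 a * ((s2 a + m1 a) / 2) :=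
    mul_le_mul_of_nonneg_right (rr_le ha D) (by positivity)
  have h8 : 1 / m1 a * ((s2 a + m1 a) / 2) = (s2 a + m1 a) / 2 / m1 a := by ring
  rw [h8] at h7
  rw [mul_add] at h6
  linarith

end Pool.Agent.K9h92.BV
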