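import Pool.Agent.K9h92.BV.Drifted

set_option autoImplicit false

/-!
Convergence of the measure-valued process.
-/

open ENNReal Filter Topology MeasureTheory ProbabilityTheory
open scoped NNReal

namespace Pool.Agent.K9h92.BV

variable {a : ℤ → ℝ}

section

variable {Ω : ℕ → Type*} [∀ k, MeasurableSpace (Ω k)]
    {P : ∀ k, Measure (Ω k)} [∀ k, IsProbabilityMeasure (P k)]
    {Ω' : Type*} [MeasurableSpace Ω'] {P' : Measure Ω'} [IsProbabilityMeasure P']

/-- Changing a sequence of random vectors by something small in probability does not change the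
limit in distribution. -/
lemma close_dist {ι : Type*} [Fintype ι] {U V : ∀ k, Ω k → ι → ℝ} {Z : Ω' → ι → ℝ}
    (hU : TendstoInDistribution U atTop Z P P') (hUm : ∀ k, Measurable (U k))
    (hVm : ∀ k, Measurable (V k))
    (hclose : ∀ (i : ι) (η : ℝ), 0 < η →
      Tendsto (fun k => P k {ω | η ≤ |V k ω i - U k ω i|}) atTop (𝓝 0)) :
    TendstoInDistribution V atTop Z P P' := by
  refine ⟨fun k => (hVm k).aemeasurable, hU.aemeasurable_limit, ?_⟩
  have h0 := hU.tendsto
  refine (tendsto_iff_forall_lipschitz_integral_tendsto (Ω := ι → ℝ)).mpr ?_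
  replace h0 := (tendsto_iff_forall_lipschitz_integral_tendsto (Ω := ι → ℝ)).mp h0
  intro f hfb hfL
  have h1 := h0 f hfb hfL
  obtain ⟨C, hC⟩ := hfb
  obtain ⟨L, hL⟩ := hfL
  have hfc : Continuous f := hL.continuous
  have hC0 : 0 ≤ C := le_trans dist_nonneg (hC (fun _ => 0) (fun _ => 0))
  have eV : ∀ k, (∫ ω, f ω ∂((⟨(P k).map (V k), Measure.isProbabilityMeasure_map
      (hVm k).aemeasurable⟩ : ProbabilityMeasure (ι → ℝ)) : Measure (ι → ℝ))) =
      ∫ ω, f (V k ω) ∂(P k) := by
    intro k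
    rw [integral_map (hVm k).aemeasurable hfc.aestronglyMeasurable]
  have eU : ∀ k, (∫ ω, f ω ∂((⟨(P k).map (U k), Measure.isProbabilityMeasure_map
      (hU.forall_aemeasurable k)⟩ : ProbabilityMeasure (ι → ℝ)) : Measure (ι → ℝ))) =
      ∫ ω, f (U k ω) ∂(P k) := by
    intro k
    rw [integral_map (hUm k).aemeasurable hfc.aestronglyMeasurable]
  refine (tendsto_congr eV).mpr ?_
  replace h1 := (tendsto_congr eU).mp h1
  have hfbd : ∀ x, |f x| ≤ |f (fun _ => 0)| + C := by
    intro x
    have := hC x (fun _ => 0)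
    rw [Real.dist_eq] at this
    have h3 := abs_sub_abs_le_abs_sub (f x) (f fun _ => 0)
    linarith
  have hint : ∀ k (W : Ω k → ι → ℝ), Measurable W → Integrable (fun ω => f (W ω)) (P k) := by
    intro k W hW
    apply Integrable.of_bound (C := |f (fun _ => 0)| + C)
    · exact (hfc.measurable.comp hW).aestronglyMeasurable
    · exact ae_of_all _ fun ω => by rw [Real.norm_eq_abs]; exact hfbd _
  have hdiff : Tendsto (fun k => ∫ ω, f (V k ω) ∂(P k) - ∫ ω, f (U k ω) ∂(P k)) atTop (𝓝 0) := by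
    rw [Metric.tendsto_atTop]
    intro r hr
    set η : ℝ := r / (2 * (L + 1)) with hη
    have hL0 : (0:ℝ) ≤ L := L.coe_nonneg
    have hη0 : 0 < η := by positivity
    have hsum : Tendsto (fun k => ∑ i : ι, P k {ω | η ≤ |V k ω i - U k ω i|}) atTop (𝓝 0) := by
      have := tendsto_finsetSum (Finset.univ : Finset ι) (fun t _ => hclose t η hη0)
      simpa using this
    have hev := hsum.eventually (gt_mem_nhds (show (0:ℝ≥0∞) < ENNReal.ofReal (r / (2 * (C + 1))) by
      rw [ENNReal.ofReal_pos]; positivity))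
    rw [eventually_atTop] at hev
    obtain ⟨k0, hk0⟩ := hev
    refine ⟨k0, fun k hk => ?_⟩
    rw [Real.dist_0_eq_abs, ← integral_sub (hint k _ (hVm k)) (hint k _ (hUm k))]
    set S : Set (Ω k) := {ω | ∃ i, η ≤ |V k ω i - U k ω i|} with hS
    have hSm : MeasurableSet S := by
      have : S = ⋃ i, {ω | η ≤ |V k ω i - U k ω i|} := by ext ω; simp [hS]
      rw [this]
      apply MeasurableSet.iUnion
      intro i
      exact measurableSet_le measurable_const
        (((measurable_pi_iff.mp (hVm k) i).sub (measurable_pi_iff.mp (hUm k) i)).abs)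
    have hPS : (P k).real S < r / (2 * (C + 1)) := by
      have h5 : P k S < ENNReal.ofReal (r / (2 * (C + 1))) := by
        refine lt_of_le_of_lt ?_ (hk0 k hk)
        have : S ⊆ ⋃ i ∈ (Finset.univ : Finset ι), {ω | η ≤ |V k ω i - U k ω i|} := by
          intro ω hω
          obtain ⟨i, hi⟩ := hω
          simp only [Set.mem_iUnion]
          exact ⟨i, Finset.mem_univ i, hi⟩
        exact (measure_mono this).trans (measure_biUnion_finset_le _ _)
      rw [measureReal_def]
      have := (ENNReal.toReal_lt_toReal (measure_ne_top _ _) ENNReal.ofReal_ne_top).mpr h5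
      rwa [ENNReal.toReal_ofReal (by positivity)] at this
    have hb : ∀ ω, ‖f (V k ω) - f (U k ω)‖ ≤ L * η + C * S.indicator (fun _ => (1:ℝ)) ω := by
      intro ω
      rw [Real.norm_eq_abs]
      by_cases h : ω ∈ S
      · rw [Set.indicator_of_mem h]
        have := hC (V k ω) (U k ω)
        rw [Real.dist_eq] at this
        have : 0 ≤ L * η := by positivity
        linarith
      · rw [Set.indicator_of_notMem h, mul_zero, add_zero]
        have h2 := hL.dist_le_mul (V k ω) (U k ω)
        rw [Real.dist_eq] at h2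
        refine h2.trans ?_
        apply mul_le_mul_of_nonneg_left _ hL0
        rw [dist_pi_le_iff hη0.le]
        intro i
        rw [Real.dist_eq]
        by_contra hcon
        exact h ⟨i, (not_le.mp hcon).le⟩
    have h6 : ‖∫ ω, (f (V k ω) - f (U k ω)) ∂(P k)‖ ≤ L * η + C * (P k).real S := by
      refine (norm_integral_le_integral_norm _).trans ?_
      have hI := ((integrable_const (μ := P k) (1:ℝ)).indicator hSm).const_mul C
      calc ∫ ω, ‖f (V k ω) - f (U k ω)‖ ∂(P k)
          ≤ ∫ ω, (L * η + C * S.indicator (fun _ => (1:ℝ)) ω) ∂(P k) := by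
            apply integral_mono_of_nonneg (ae_of_all _ fun ω => norm_nonneg _) _ (ae_of_all _ hb)
            exact (integrable_const _).add hI
        _ = L * η + C * (P k).real S := by
            rw [integral_add (integrable_const _) hI, integral_const_mul (μ := P k) (r := C),
              integral_indicator hSm]
            simp
    rw [Real.norm_eq_abs] at h6
    refine h6.trans_lt ?_
    have h7 : L * η ≤ r / 2 := by
      rw [hη]
      rw [mul_div_assoc', div_le_div_iff₀ (by positivity) (by positivity)]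
      nlinarith
    have h8 : C * (P k).real S < r / 2 := by
      calc C * (P k).real S ≤ (C + 1) * (P k).real S := by
            apply mul_le_mul_of_nonneg_right _ measureReal_nonneg; linarith
        _ < (C + 1) * (r / (2 * (C + 1))) := mul_lt_mul_of_pos_left hPS (by linarith)
        _ = r / 2 := by field_simp
    linarith
  have := hdiff.add h1
  simpa using this

end

/-- The law of a drifted Brownian motion at finitely many times. -/
lemma dbm_law {Ω' : Type*} [MeasurableSpace Ω'] {P' : Measure Ω'} [IsProbabilityMeasure P']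
    {B : ℝ≥0 → Ω' → ℝ} (hB : IsPreBrownianReal B P') (σ μ : ℝ) (I : Finset ℝ≥0) :
    P'.map (fun ω => fun t : I => σ * B t ω + μ * (t.1 : ℝ)) =
      (dbm σ μ I).map (fun y : EuclideanSpace ℝ I => fun t => y t) := by
  have h1 := (hB.hasLaw I).map_eq
  have hm : AEMeasurable (fun ω => I.restrict (B · ω)) P' := (hB.hasLaw I).aemeasurable
  have e1 : (fun ω => fun t : I => σ * B t ω + μ * (t.1 : ℝ)) =
      (fun y : I → ℝ => fun t : I => σ * y t + μ * (t.1 : ℝ)) ∘ (fun ω => I.restrict (B · ω)) := by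
    funext ω t
    simp [Finset.restrict]
  have hg : Measurable (fun y : I → ℝ => fun t : I => σ * y t + μ * (t.1 : ℝ)) :=
    measurable_pi_lambda _ fun t => ((measurable_pi_apply t).const_mul _).add_const _
  rw [e1, ← AEMeasurable.map_map_of_aemeasurable hg.aemeasurable hm, h1]
  unfold BrownianReal.projectiveFamily dbm
  rw [Measure.map_map (by fun_prop) (by fun_prop), Measure.map_map (by fun_prop) (by fun_prop)]
  congr 1

section

variable {ε : ℕ → ℝ} {Ω : ℕ → Type*} [∀ k, MeasurableSpace (Ω k)]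
    {P : ∀ k, Measure (Ω k)} [∀ k, IsProbabilityMeasure (P k)]
    {X : ∀ k, ℝ → Ω k → Conf} {x : ∀ k, ℕ → Ω k → Conf} {e : ∀ k, ℕ → Ω k → ℝ}
    {Ω' : Type*} [MeasurableSpace Ω'] {P' : Measure Ω'} [IsProbabilityMeasure P']
    {B : ℝ≥0 → Ω' → ℝ}

lemma Seqs.fddB (S : Seqs a ε P X x e) (hc : cm a = 0) (hB : IsPreBrownianReal B P')
    (I : Finset ℝ≥0) :
    TendstoInDistribution (fun k ω => fun t : I => Zpos (ε k) (X k) t.1 ω) atTop
      (fun ω => fun t : I => Real.sqrt (s2 a) * B t ω - s2 a / 2 * (t.1 : ℝ)) P P' := by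
  have h := S.fdd hc I
  have hl := dbm_law hB (Real.sqrt (s2 a)) (-(s2 a) / 2) I
  have e1 : (fun ω => fun t : I => Real.sqrt (s2 a) * B t ω - s2 a / 2 * (t.1 : ℝ)) =
      (fun ω => fun t : I => Real.sqrt (s2 a) * B t ω + -(s2 a) / 2 * (t.1 : ℝ)) := by
    funext ω t; ring
  rw [e1]
  have hm : AEMeasurable (fun ω => fun t : I => Real.sqrt (s2 a) * B t ω + -(s2 a) / 2 * (t.1 : ℝ))
      P' := by
    rw [aemeasurable_pi_iff]
    intro t
    exact ((hB.aemeasurable t).const_mul _).add_const _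
  refine ⟨h.forall_aemeasurable, hm, ?_⟩
  convert h.tendsto using 1
  congr 1
  exact Subtype.ext hl

/-- the mass of a test function to the right of a point -/
lemma right_lip {φ : ℝ → ℝ} (hc : Continuous φ) (hs : HasCompactSupport φ) {C : ℝ}
    (hC : ∀ z, |φ z| ≤ C) (u v : ℝ) :
    |(∫ z in Set.Ioi u, φ z) - ∫ z in Set.Ioi v, φ z| ≤ C * |u - v| := by
  have hi : Integrable φ := hc.integrable_of_hasCompactSupport hs
  have key : ∀ u v : ℝ, u ≤ v → |(∫ z in Set.Ioi u, φ z) - ∫ z in Set.Ioi v, φ z| ≤ C * |u - v| := by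
    intro u v huv
    have e1 : (∫ z in Set.Ioi u, φ z) - ∫ z in Set.Ioi v, φ z = ∫ z in u..v, φ z := by
      rw [← intervalIntegral.integral_Ioi_sub_Ioi hi.integrableOn huv]
    rw [e1]
    have := intervalIntegral.norm_integral_le_of_norm_le_const (a := u) (b := v) (f := φ) (C := C)
      (fun x _ => by rw [Real.norm_eq_abs]; exact hC x)
    rw [Real.norm_eq_abs, abs_sub_comm] at this
    exact this
  rcases le_total u v with h | h
  · exact key u v h
  · rw [abs_sub_comm, abs_sub_comm u v]; exact key v u h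

lemma mass_meas (S : Seqs a ε P X x e) (k : ℕ) (t : ℝ) (φ : ℝ → ℝ) :
    Measurable fun ω => mass (ε k) (X k t ω) φ := by
  have h : Measurable fun D : Conf => mass (ε k) D φ := Measurable.of_discrete
  exact h.comp (S.Xmeas k t)

/-- Convergence of the finite dimensional distributions of the measure-valued process. -/
lemma Seqs.mass_fdd (S : Seqs a ε P X x e) (hc : cm a = 0) (hB : IsPreBrownianReal B P')
    (m : ℕ) (t : Fin m → ℝ≥0) (φ : Fin m → ℝ → ℝ) (hφc : ∀ i, Continuous (φ i))
    (hφs : ∀ i, HasCompactSupport (φ i)) :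
    TendstoInDistribution (fun k ω => fun i : Fin m => mass (ε k) (X k (t i / ε k ^ 2) ω) (φ i))
      atTop (fun ω => fun i : Fin m => ∫ z in Set.Ioi (Real.sqrt (s2 a) * B (t i) ω -
        s2 a / 2 * (t i : ℝ)), φ i z) P P' := by
  classical
  set I : Finset ℝ≥0 := Finset.univ.image t with hI
  have hmem : ∀ i, t i ∈ I := fun i => Finset.mem_image_of_mem _ (Finset.mem_univ i)
  have hcont : ∀ i, Continuous fun u : ℝ => ∫ z in Set.Ioi u, φ i z := by
    intro i
    obtain ⟨C, hC⟩ := (hφc i).bounded_above_of_compact_support (hφs i)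
    have hL : LipschitzWith (Real.toNNReal C) fun u : ℝ => ∫ z in Set.Ioi u, φ i z := by
      apply LipschitzWith.of_dist_le_mul
      intro u v
      rw [Real.dist_eq, Real.dist_eq]
      have hC0 : 0 ≤ C := (norm_nonneg _).trans (hC 0)
      rw [Real.coe_toNNReal C hC0]
      exact right_lip (hφc i) (hφs i) hC u v
    exact hL.continuous
  have hg : Continuous (fun y : I → ℝ => fun i : Fin m => ∫ z in Set.Ioi (y ⟨t i, hmem i⟩), φ i z) :=
    continuous_pi fun i => (hcont i).comp (continuous_apply _)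
  have h1 := (S.fddB hc hB I).continuous_comp hg
  apply close_dist h1
  · intro k
    apply hg.measurable.comp
    exact measurable_pi_lambda _ fun t => Zpos_meas S k t.1
  · intro k
    exact measurable_pi_lambda _ fun i => mass_meas S k _ _
  · intro i η hη
    refine tendsto_of_tendsto_of_tendsto_of_le_of_le tendsto_const_nhds
      (S.mass_conv (τ := t i) (NNReal.coe_nonneg _) hη (hφc i) (hφs i)) (fun k => zero_le)
      (fun k => measure_mono ?_)
    intro ω hω
    exact ⟨t i, NNReal.coe_nonneg _, le_rfl, hω⟩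

/-- Modulus of continuity of the measure-valued process. -/
lemma Seqs.mass_modulus (S : Seqs a ε P X x e) (hc : cm a = 0) {φ : ℝ → ℝ} (hφc : Continuous φ)
    (hφs : HasCompactSupport φ) {τ η ρ : ℝ} (hτ : 0 ≤ τ) (hη : 0 < η) (hρ : 0 < ρ) :
    ∃ h : ℝ, 0 < h ∧ ∀ᶠ k in atTop,
      P k {ω | ∃ s t : ℝ, 0 ≤ s ∧ s ≤ τ ∧ 0 ≤ t ∧ t ≤ τ ∧ |s - t| ≤ h ∧
        η ≤ |mass (ε k) (X k (s / ε k ^ 2) ω) φ - mass (ε k) (X k (t / ε k ^ 2) ω) φ|} ≤
          ENNReal.ofReal ρ := by
  obtain ⟨C0, hC0⟩ := hφc.bounded_above_of_compact_support hφs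
  set C := max C0 1 with hC
  have hCb : ∀ z, |φ z| ≤ C := fun z => (hC0 z).trans (le_max_left _ _)
  have hCpos : 0 < C := lt_max_of_lt_right one_pos
  obtain ⟨h, hh, hev⟩ := S.modulus hc (η := η / (3 * C)) hτ (by positivity) (half_pos hρ)
  refine ⟨h, hh, ?_⟩
  have hm := S.mass_conv hτ (show 0 < η / 3 by positivity) hφc hφs
  have hev2 := hm.eventually (gt_mem_nhds (show (0:ℝ≥0∞) < ENNReal.ofReal (ρ / 2) by
    rw [ENNReal.ofReal_pos]; positivity))
  filter_upwards [hev, hev2] with k hk1 hk2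
  calc P k _ ≤ _ := measure_mono (t := {ω | ∃ s t : ℝ, 0 ≤ s ∧ s ≤ τ ∧ 0 ≤ t ∧ t ≤ τ ∧
        |s - t| ≤ h ∧ η / (3 * C) ≤ |Zpos (ε k) (X k) s ω - Zpos (ε k) (X k) t ω|} ∪
        {ω | ∃ t : ℝ, 0 ≤ t ∧ t ≤ τ ∧ η / 3 ≤ |mass (ε k) (X k (t / ε k ^ 2) ω) φ -
          ∫ z in Set.Ioi (Zpos (ε k) (X k) t ω), φ z|}) ?_
    _ ≤ ENNReal.ofReal (ρ / 2) + ENNReal.ofReal (ρ / 2) :=
        (measure_union_le _ _).trans (add_le_add hk1 hk2.le)
    _ = ENNReal.ofReal ρ := by
        rw [← ENNReal.ofReal_add (by positivity) (by positivity)]; congr 1; ring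
  rintro ω ⟨s, t, hs0, hsτ, ht0, htτ, hst, hη2⟩
  by_contra hcon
  rw [Set.mem_union, not_or] at hcon
  obtain ⟨hcon1, hcon2⟩ := hcon
  have h1 : |Zpos (ε k) (X k) s ω - Zpos (ε k) (X k) t ω| < η / (3 * C) := by
    by_contra h5
    exact hcon1 ⟨s, t, hs0, hsτ, ht0, htτ, hst, not_lt.mp h5⟩
  have h2 : |mass (ε k) (X k (s / ε k ^ 2) ω) φ -
      ∫ z in Set.Ioi (Zpos (ε k) (X k) s ω), φ z| < η / 3 := by
    by_contra h5
    exact hcon2 ⟨s, hs0, hsτ, not_lt.mp h5⟩
  have h3 : |mass (ε k) (X k (t / ε k ^ 2) ω) φ -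
      ∫ z in Set.Ioi (Zpos (ε k) (X k) t ω), φ z| < η / 3 := by
    by_contra h5
    exact hcon2 ⟨t, ht0, htτ, not_lt.mp h5⟩
  have h4 := right_lip hφc hφs hCb (Zpos (ε k) (X k) s ω) (Zpos (ε k) (X k) t ω)
  have h5 : C * |Zpos (ε k) (X k) s ω - Zpos (ε k) (X k) t ω| < η / 3 := by
    calc C * |Zpos (ε k) (X k) s ω - Zpos (ε k) (X k) t ω| < C * (η / (3 * C)) :=
          mul_lt_mul_of_pos_left h1 hCpos
      _ = η / 3 := by field_simp
  have h6 := abs_sub_le (mass (ε k) (X k (s / ε k ^ 2) ω) φ)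
    (∫ z in Set.Ioi (Zpos (ε k) (X k) s ω), φ z) (mass (ε k) (X k (t / ε k ^ 2) ω) φ)
  have h7 := abs_sub_le (∫ z in Set.Ioi (Zpos (ε k) (X k) s ω), φ z)
    (∫ z in Set.Ioi (Zpos (ε k) (X k) t ω), φ z) (mass (ε k) (X k (t / ε k ^ 2) ω) φ)
  rw [abs_sub_comm (∫ z in Set.Ioi (Zpos (ε k) (X k) t ω), φ z)] at h7
  linarith

/-- For a kernel with a nonzero mean the interface leaves every bounded set. -/
lemma Seqs.escape (S : Seqs a ε P X x e) {t K : ℝ} (ht : 0 < t) (hc : cm a ≠ 0) :
    Tendsto (fun k => P k {ω | ¬ (K < SignType.sign (cm a) * Zpos (ε k) (X k) t ω)}) atTop (𝓝 0) := by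
  have hcm : 0 < |cm a| := abs_pos.mpr hc
  have hev : ∀ᶠ k in atTop, ε k * (|K| + 1) < |cm a| * t / 2 := by
    have h1 : Tendsto (fun k => ε k * (|K| + 1)) atTop (𝓝 (0 * (|K| + 1))) := S.lim.mul_const _
    rw [zero_mul] at h1
    exact h1.eventually (gt_mem_nhds (by positivity))
  refine tendsto_of_tendsto_of_tendsto_of_le_of_le' tendsto_const_nhds
    (S.ballistic (τ := t) (η := |cm a| * t / 2) ht.le (by positivity))
    (Eventually.of_forall fun k => zero_le) ?_
  filter_upwards [hev] with k hk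
  apply measure_mono
  intro ω hω
  refine ⟨t, ht.le, le_rfl, ?_⟩
  have hω' : (SignType.sign (cm a) : ℝ) * Zpos (ε k) (X k) t ω ≤ K := not_lt.mp hω
  have hε := S.pos k
  have h1 : (SignType.sign (cm a) : ℝ) * (ε k * Zpos (ε k) (X k) t ω - cm a * t) =
      ε k * ((SignType.sign (cm a) : ℝ) * Zpos (ε k) (X k) t ω) - |cm a| * t := by
    have : (SignType.sign (cm a) : ℝ) * cm a = |cm a| := sign_mul_self (cm a)
    rw [← this]; ring
  have h2 : |(SignType.sign (cm a) : ℝ)| = 1 := by
    rcases lt_or_gt_of_ne hc with h | h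
    · rw [sign_neg h]; simp
    · rw [sign_pos h]; simp
  have h3 : |ε k * Zpos (ε k) (X k) t ω - cm a * t| =
      |ε k * ((SignType.sign (cm a) : ℝ) * Zpos (ε k) (X k) t ω) - |cm a| * t| := by
    rw [← h1, abs_mul, h2, one_mul]
  rw [h3, lt_abs]
  right
  have h4 : ε k * ((SignType.sign (cm a) : ℝ) * Zpos (ε k) (X k) t ω) ≤ ε k * (|K| + 1) := by
    apply mul_le_mul_of_nonneg_left _ hε.le
    have := le_abs_self K
    linarith
  linarith

/-- For a kernel with a nonzero mean the measure-valued process degenerates at positive times. -/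
lemma Seqs.mass_escape (S : Seqs a ε P X x e) {t : ℝ} (ht : 0 < t) (hc : cm a ≠ 0) {φ : ℝ → ℝ}
    (hφc : Continuous φ) (hφs : HasCompactSupport φ) {η : ℝ} (hη : 0 < η) :
    Tendsto (fun k => P k {ω | η ≤ |mass (ε k) (X k (t / ε k ^ 2) ω) φ -
      (if 0 < cm a then 0 else ∫ z, φ z)|}) atTop (𝓝 0) := by
  obtain ⟨R, hR⟩ := hφs.isCompact.isBounded.subset_ball (0:ℝ)
  have hφ0 : ∀ z, R ≤ |z| → φ z = 0 := by
    intro z hz
    by_contra hne
    have := hR (subset_tsupport φ hne)
    rw [Metric.mem_ball, Real.dist_0_eq_abs] at this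
    linarith
  have h1 := S.escape (K := R) ht hc
  have h2 := S.mass_conv (τ := t) ht.le hη hφc hφs
  have h3 : Tendsto (fun k => P k {ω | ¬ (R < SignType.sign (cm a) * Zpos (ε k) (X k) t ω)} +
      P k {ω | ∃ s : ℝ, 0 ≤ s ∧ s ≤ t ∧ η ≤ |mass (ε k) (X k (s / ε k ^ 2) ω) φ -
        ∫ z in Set.Ioi (Zpos (ε k) (X k) s ω), φ z|}) atTop (𝓝 0) := by
    simpa using h1.add h2
  refine tendsto_of_tendsto_of_tendsto_of_le_of_le tendsto_const_nhds h3 (fun k => zero_le)
    (fun k => le_trans (measure_mono ?_) (measure_union_le _ _))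
  intro ω hω
  by_contra hcon
  rw [Set.mem_union, not_or] at hcon
  obtain ⟨hcon1, hcon2⟩ := hcon
  have h4 : R < SignType.sign (cm a) * Zpos (ε k) (X k) t ω := by
    by_contra h; exact hcon1 h
  apply hcon2
  refine ⟨t, ht.le, le_rfl, ?_⟩
  have e1 : (∫ z in Set.Ioi (Zpos (ε k) (X k) t ω), φ z) = if 0 < cm a then 0 else ∫ z, φ z := by
    split_ifs with h
    · rw [sign_pos h] at h4
      simp only [SignType.coe_one, one_mul] at h4
      apply setIntegral_eq_zero_of_forall_eq_zero
      intro z hz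
      apply hφ0
      rw [Set.mem_Ioi] at hz
      exact (h4.trans hz).le.trans (le_abs_self z)
    · have h' : cm a < 0 := lt_of_le_of_ne (not_lt.mp h) hc
      rw [sign_neg h'] at h4
      simp only [SignType.coe_neg, SignType.coe_one, neg_mul, one_mul] at h4
      apply setIntegral_eq_integral_of_forall_compl_eq_zero
      intro z hz
      apply hφ0
      rw [Set.mem_Ioi, not_lt] at hz
      have := neg_le_abs z
      linarith
  rw [e1]
  exact hω

/-- a tent function -/
noncomputable def tent (z : ℝ) : ℝ := max (1 - |z|) 0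

lemma tent_cont : Continuous tent := by unfold tent; fun_prop

lemma tent_supp : HasCompactSupport tent := by
  apply HasCompactSupport.of_support_subset_isCompact (isCompact_Icc (a := (-1:ℝ)) (b := 1))
  intro z hz
  rw [Function.mem_support] at hz
  unfold tent at hz
  have : |z| ≤ 1 := by
    by_contra h
    push Not at h
    exact hz (max_eq_right (by linarith))
  exact abs_le.mp this

lemma tent_int (u : ℝ) (hu : |u| < 1) : 0 < (∫ z in Set.Ioi u, tent z) ∧
    (∫ z in Set.Ioi u, tent z) < ∫ z, tent z := by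
  have hi : Integrable tent := tent_cont.integrable_of_hasCompactSupport tent_supp
  have h0 : ∀ z, 0 ≤ tent z := fun z => le_max_right _ _
  rw [abs_lt] at hu
  have hpos : ∀ z, |z| < 1 → 0 < tent z := fun z hz => lt_max_of_lt_left (by linarith)
  constructor
  · rw [setIntegral_pos_iff_support_of_nonneg_ae (ae_of_all _ h0) hi.integrableOn]
    have hsub : Set.Ioo u 1 ⊆ Function.support tent ∩ Set.Ioi u := by
      intro z hz
      rw [Set.mem_Ioo] at hz
      exact ⟨(hpos z (abs_lt.mpr ⟨by linarith, by linarith⟩)).ne', hz.1⟩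
    refine lt_of_lt_of_le ?_ (measure_mono hsub)
    rw [Real.volume_Ioo, ENNReal.ofReal_pos]
    linarith
  · have h1 : (∫ z, tent z) = (∫ z in Set.Iic u, tent z) + ∫ z in Set.Ioi u, tent z :=
      (intervalIntegral.integral_Iic_add_Ioi hi.integrableOn hi.integrableOn).symm
    have h2 : 0 < ∫ z in Set.Iic u, tent z := by
      rw [setIntegral_pos_iff_support_of_nonneg_ae (ae_of_all _ h0) hi.integrableOn]
      have hsub : Set.Ioo (-1) u ⊆ Function.support tent ∩ Set.Iic u := by
        intro z hz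
        rw [Set.mem_Ioo] at hz
        exact ⟨(hpos z (abs_lt.mpr ⟨by linarith, by linarith⟩)).ne', hz.2.le⟩
      refine lt_of_lt_of_le ?_ (measure_mono hsub)
      rw [Real.volume_Ioo, ENNReal.ofReal_pos]
      linarith
    linarith

/-- For a kernel with a nonzero mean there is no convergence to a sharp interface moving as a
drifted Brownian motion. -/
lemma Seqs.no_limit (S : Seqs a ε P X x e) (hc : cm a ≠ 0) (hB : IsPreBrownianReal B P')
    {σ μ : ℝ} (hσ : 0 < σ) :
    ¬ TendstoInDistribution (fun k ω => mass (ε k) (X k (1 / ε k ^ 2) ω) tent)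
      atTop (fun ω => ∫ z in Set.Ioi (σ * B 1 ω + μ), tent z) P P' := by
  intro h
  set c : ℝ := if 0 < cm a then 0 else ∫ z, tent z with hcdef
  have hcv := fun η hη => S.mass_escape (t := 1) one_pos hc tent_cont tent_supp (η := η) hη
  rw [← hcdef] at hcv
  -- the limit law is concentrated at `c`
  have hYm : AEMeasurable (fun ω => ∫ z in Set.Ioi (σ * B 1 ω + μ), tent z) P' := h.aemeasurable_limit
  have h1 : P' {ω | (∫ z in Set.Ioi (σ * B 1 ω + μ), tent z) ≠ c} = 0 := by
    have key : ∀ η : ℝ, 0 < η → P' {ω | η < |(∫ z in Set.Ioi (σ * B 1 ω + μ), tent z) - c|} = 0 := by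
      intro η hη
      have hopen : IsOpen {y : ℝ | η < |y - c|} := isOpen_lt continuous_const (by fun_prop)
      have hl := ProbabilityMeasure.le_liminf_measure_open_of_tendsto h.tendsto hopen
      have e1 : ∀ k, ((⟨(P k).map (fun ω => mass (ε k) (X k (1 / ε k ^ 2) ω) tent),
          Measure.isProbabilityMeasure_map (h.forall_aemeasurable k)⟩ : ProbabilityMeasure ℝ) :
          Measure ℝ) {y : ℝ | η < |y - c|} ≤
          P k {ω | η ≤ |mass (ε k) (X k (1 / ε k ^ 2) ω) tent - c|} := by
        intro k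
        refine le_trans (le_of_eq (Measure.map_apply_of_aemeasurable (h.forall_aemeasurable k)
          hopen.measurableSet)) ?_
        apply measure_mono
        intro ω hω
        have hω2 : η < |mass (ε k) (X k (1 / ε k ^ 2) ω) tent - c| := hω
        exact hω2.le
      have e2 : liminf (fun k => ((⟨(P k).map (fun ω => mass (ε k) (X k (1 / ε k ^ 2) ω) tent),
          Measure.isProbabilityMeasure_map (h.forall_aemeasurable k)⟩ : ProbabilityMeasure ℝ) :
          Measure ℝ) {y : ℝ | η < |y - c|}) atTop = 0 := by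
        have : Tendsto (fun k => ((⟨(P k).map (fun ω => mass (ε k) (X k (1 / ε k ^ 2) ω) tent),
          Measure.isProbabilityMeasure_map (h.forall_aemeasurable k)⟩ : ProbabilityMeasure ℝ) :
          Measure ℝ) {y : ℝ | η < |y - c|}) atTop (𝓝 0) :=
          tendsto_of_tendsto_of_tendsto_of_le_of_le tendsto_const_nhds (hcv η hη)
            (fun k => zero_le) e1
        exact this.liminf_eq
      have hl2 := hl.trans (le_of_eq e2)
      have e3 : P' {ω | η < |(∫ z in Set.Ioi (σ * B 1 ω + μ), tent z) - c|} ≤ 0 := by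
        refine le_trans (le_of_eq ?_) hl2
        exact (Measure.map_apply_of_aemeasurable hYm hopen.measurableSet).symm
      exact le_antisymm e3 zero_le
    have hsub : {ω | (∫ z in Set.Ioi (σ * B 1 ω + μ), tent z) ≠ c} ⊆
        ⋃ n : ℕ, {ω | 1 / ((n:ℝ) + 1) < |(∫ z in Set.Ioi (σ * B 1 ω + μ), tent z) - c|} := by
      intro ω hω
      rw [Set.mem_iUnion]
      obtain ⟨n, hn⟩ := exists_nat_one_div_lt (abs_pos.mpr (sub_ne_zero.mpr hω))
      exact ⟨n, hn⟩
    refine le_antisymm ((measure_mono hsub).trans ?_) zero_le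
    rw [nonpos_iff_eq_zero, measure_iUnion_null_iff]
    intro n
    exact key _ (by positivity)
  -- but the Gaussian law charges the region where the limit is nondegenerate
  have hBl := hB.hasLaw_eval 1
  have h2 : P' {ω | |σ * B 1 ω + μ| < 1} ≠ 0 := by
    have hset : MeasurableSet {y : ℝ | |σ * y + μ| < 1} :=
      (isOpen_lt (by fun_prop) continuous_const).measurableSet
    have e1 : P' {ω | |σ * B 1 ω + μ| < 1} = gaussianReal 0 1 {y : ℝ | |σ * y + μ| < 1} := by
      rw [← hBl.map_eq, Measure.map_apply_of_aemeasurable hBl.aemeasurable hset]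
      rfl
    rw [e1]
    intro h0
    have h3 := gaussianReal_absolutelyContinuous' 0 (v := 1) one_ne_zero h0
    have hsub : Set.Ioo ((-1 - μ) / σ) ((1 - μ) / σ) ⊆ {y : ℝ | |σ * y + μ| < 1} := by
      intro y hy
      rw [Set.mem_Ioo, div_lt_iff₀ hσ, lt_div_iff₀ hσ] at hy
      change |σ * y + μ| < 1
      rw [abs_lt]
      constructor <;> nlinarith
    have h4 := measure_mono_null hsub h3
    rw [Real.volume_Ioo, ENNReal.ofReal_eq_zero, ← sub_div, div_le_iff₀ hσ] at h4
    linarith
  apply h2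
  apply measure_mono_null _ h1
  intro ω hω
  have h5 := tent_int _ hω
  have hcc : c = 0 ∨ c = ∫ z, tent z := by
    rw [hcdef]; split_ifs
    · exact Or.inl rfl
    · exact Or.inr rfl
  rcases hcc with h6 | h6
  · exact fun h7 => h5.1.ne' (h7.trans h6)
  · exact fun h7 => h5.2.ne (h7.trans h6)

end

end Pool.Agent.K9h92.BV
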