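import Pool.Agent.K9h92.BV.Short
import Pool.Agent.K9h92.BV.Weak

set_option autoImplicit false

/-!
The end points of the interface.
-/

open ENNReal Filter Topology MeasureTheory ProbabilityTheory
open scoped NNReal

namespace Pool.Agent.K9h92.BV

variable {a : ℤ → ℝ}

/-- the position of the leftmost one -/
noncomputable def lft (D : Conf) : ℤ := sInf {i : ℤ | on D i}

/-- the position of the rightmost zero -/
noncomputable def rgt (D : Conf) : ℤ := sSup {i : ℤ | ¬ on D i}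

lemma lft_spec (D : Conf) : on D (lft D) ∧ ∀ i, on D i → lft D ≤ i := by
  have hne : {i : ℤ | on D i}.Nonempty := ⟨bd D + 1, on_of_gt (by omega)⟩
  have hbb : BddBelow {i : ℤ | on D i} := by
    refine ⟨-(bd D : ℤ), fun i hi => ?_⟩
    by_contra hc
    exact not_on_of_lt (not_le.mp hc) hi
  exact ⟨Int.csInf_mem hne hbb, fun i hi => csInf_le hbb hi⟩

lemma rgt_spec (D : Conf) : ¬ on D (rgt D) ∧ ∀ i, ¬ on D i → i ≤ rgt D := by
  have hne : {i : ℤ | ¬ on D i}.Nonempty := ⟨-(bd D : ℤ) - 1, not_on_of_lt (by omega)⟩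
  have hba : BddAbove {i : ℤ | ¬ on D i} := by
    refine ⟨(bd D : ℤ), fun i hi => ?_⟩
    by_contra hc
    exact hi (on_of_gt (not_le.mp hc))
  exact ⟨Int.csSup_mem hne hba, fun i hi => le_csSup hba hi⟩

lemma lft_le (D : Conf) : (lft D : ℝ) + M D ≤ 0 := by
  have h1 := ql_sub_pr D (lft D)
  have h2 : ql D (lft D) = 0 := by
    unfold ql
    have : ∀ i, (if i < lft D then ind D i else 0) = 0 := by
      intro i
      split_ifs with h
      · unfold ind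
        rw [if_neg]
        intro hi
        have := (lft_spec D).2 i hi
        omega
      · rfl
    rw [tsum_congr this]; simp
  have := pr_nonneg D (lft D)
  linarith

lemma rgt_ge (D : Conf) : 0 ≤ (rgt D : ℝ) + 1 + M D := by
  have h1 := ql_sub_pr D (rgt D + 1)
  have h2 : pr D (rgt D + 1) = 0 := by
    unfold pr
    have : ∀ i, (if rgt D + 1 ≤ i then co D i else 0) = 0 := by
      intro i
      split_ifs with h
      · unfold co ind
        rw [if_pos]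
        · ring
        · by_contra hi
          have := (rgt_spec D).2 i hi
          omega
      · rfl
    rw [tsum_congr this]; simp
  have := ql_nonneg D (rgt D + 1)
  push_cast at h1
  linarith

lemma lft_close {D : Conf} {κ : ℝ} (h : ¬ farL D κ) : |(lft D : ℝ) + M D| ≤ κ := by
  have h1 := lft_le D
  have h2 : -κ < (lft D : ℝ) + M D := by
    by_contra hc
    exact h ⟨lft D, (lft_spec D).1, not_lt.mp hc⟩
  rw [abs_le]
  constructor <;> linarith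

lemma rgt_close {D : Conf} {κ : ℝ} (h : ¬ farR D κ) : |(rgt D : ℝ) + M D| ≤ κ + 1 := by
  have h1 := rgt_ge D
  have h2 : (rgt D : ℝ) + 1 + M D < κ := by
    by_contra hc
    exact h ⟨rgt D, (rgt_spec D).1, not_lt.mp hc⟩
  rw [abs_le]
  constructor <;> linarith

section

variable {ε : ℕ → ℝ} {Ω : ℕ → Type*} [∀ k, MeasurableSpace (Ω k)]
    {P : ∀ k, Measure (Ω k)} [∀ k, IsProbabilityMeasure (P k)]
    {X : ∀ k, ℝ → Ω k → Conf} {x : ∀ k, ℕ → Ω k → Conf} {e : ∀ k, ℕ → Ω k → ℝ}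
    {Ω' : Type*} [MeasurableSpace Ω'] {P' : Measure Ω'} [IsProbabilityMeasure P']
    {B : ℝ≥0 → Ω' → ℝ}

/-- the interface stays short -/
lemma Seqs.long (S : Seqs a ε P X x e) (h3 : Thd a) {τ δ : ℝ} (hτ : 0 ≤ τ) (hδ : 0 < δ) :
    Tendsto (fun k => P k {ω | Long δ (nst a τ (ε k)) (pth (x k) ω)}) atTop (𝓝 0) := by
  have ha := S.jump
  rw [ENNReal.tendsto_nhds_zero]
  intro ρ hρ
  obtain ⟨ρ', hρ'0, hρ'⟩ : ∃ ρ' : ℝ, 0 < ρ' ∧ ENNReal.ofReal ρ' ≤ ρ := by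
    rcases eq_or_ne ρ ⊤ with h | h
    · exact ⟨1, one_pos, by rw [h]; exact le_top⟩
    · exact ⟨ρ.toReal, ENNReal.toReal_pos hρ.ne' h, (ENNReal.ofReal_toReal h).le⟩
  obtain ⟨n0, h⟩ := long_small (B := 2 * (2 * s2 a * τ + 2)) ha h3 hδ hρ'0
  have hε : ∀ᶠ k in atTop, ε k ≤ 1 / 2 := by
    have : (0:ℝ) < 1 / 2 := by norm_num
    exact (S.lim.eventually (gt_mem_nhds this)).mono fun k hk => hk.le
  filter_upwards [(nst_tendsto ha hτ S.pos S.lim).eventually_ge_atTop n0, hε] with k hk hk2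
  have hA : ∀ w w' : Pth, (∀ i ≤ nst a τ (ε k), w i = w' i) →
      (Long δ (nst a τ (ε k)) w ↔ Long δ (nst a τ (ε k)) w') := fun w w' hw =>
    ⟨Long_dep δ _ w w' hw, Long_dep δ _ w' w (fun i hi => (hw i hi).symm)⟩
  rw [chain_prob ha (S.pos k).le (S.lt_one k) (S.chain k) _ hA]
  refine (h _ hk _ (S.pos k).le hk2 (le_trans ?_ (sq_nst ha hτ (S.pos k) (S.lt_one k)))).trans hρ'
  have : 0 ≤ ε k ^ 2 * (nst a τ (ε k) : ℝ) := by positivity
  nlinarith

/-- the end points follow the centre of mass -/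
lemma Seqs.ends (S : Seqs a ε P X x e) (h3 : Thd a) {τ η : ℝ} (hτ : 0 ≤ τ) (hη : 0 < η) :
    Tendsto (fun k => P k {ω | ∃ t : ℝ, 0 ≤ t ∧ t ≤ τ ∧
      (η ≤ |ε k * (lft (X k (t / ε k ^ 2) ω) : ℝ) - Zpos (ε k) (X k) t ω| ∨
        η ≤ |ε k * (rgt (X k (t / ε k ^ 2) ω) : ℝ) - Zpos (ε k) (X k) t ω|)}) atTop (𝓝 0) := by
  have ha := S.jump
  have hs := s2_pos ha
  set A2 : ℝ := 2 * s2 a * τ + 2 with hA2
  have hA2' : 0 < A2 := by positivity
  have hsq : 0 < Real.sqrt A2 := Real.sqrt_pos.mpr hA2'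
  set δ : ℝ := η / (4 * Real.sqrt A2) with hδ
  have hδ0 : 0 < δ := by positivity
  have h1 := S.long h3 hτ hδ0
  have h2 := S.tracks hτ one_pos
  have h12 : Tendsto (fun k => P k {ω | Long δ (nst a τ (ε k)) (pth (x k) ω)} +
      P k {ω | ¬ Tracks a (ε k) τ 1 (X k) (x k) ω}) atTop (𝓝 0) := by simpa using h1.add h2
  have hε : ∀ᶠ k in atTop, ε k ≤ η / 4 := by
    have : (0:ℝ) < η / 4 := by positivity
    exact (S.lim.eventually (gt_mem_nhds this)).mono fun k hk => hk.le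
  refine tendsto_of_tendsto_of_tendsto_of_le_of_le' tendsto_const_nhds h12
    (Eventually.of_forall fun k => zero_le) ?_
  filter_upwards [hε] with k hk
  refine le_trans (measure_mono ?_) (measure_union_le _ _)
  rintro ω ⟨t, ht0, htτ, hη2⟩
  by_contra hcon
  rw [Set.mem_union, not_or] at hcon
  obtain ⟨hcon1, hcon2⟩ := hcon
  have hT : Tracks a (ε k) τ 1 (X k) (x k) ω := by
    by_contra h; exact hcon2 h
  obtain ⟨m, hm1, hm2, _⟩ := hT t ht0 htτ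
  have hnl : ¬ farL (x k m ω) (δ * Real.sqrt (nst a τ (ε k))) ∧
      ¬ farR (x k m ω) (δ * Real.sqrt (nst a τ (ε k))) := by
    rw [← not_or]
    intro hc
    exact hcon1 ⟨m, hm1, hc⟩
  have hε0 := S.pos k
  have hsn := sqrt_nst ha hτ hε0 (S.lt_one k)
  rw [← hA2] at hsn
  have hb : ε k * (δ * Real.sqrt (nst a τ (ε k))) ≤ η / 4 := by
    calc ε k * (δ * Real.sqrt (nst a τ (ε k))) = δ * (ε k * Real.sqrt (nst a τ (ε k))) := by ring
      _ ≤ δ * Real.sqrt A2 := by gcongr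
      _ = η / 4 := by rw [hδ]; field_simp
  have e1 : ∀ z : ℤ, |ε k * (z : ℝ) - Zpos (ε k) (X k) t ω| = ε k * |(z : ℝ) + M (x k m ω)| := by
    intro z
    unfold Zpos
    rw [hm2, ← abs_of_pos hε0, ← abs_mul, abs_of_pos hε0]
    congr 1; ring
  rw [hm2] at hη2
  rw [e1, e1] at hη2
  rcases hη2 with h | h
  · have h5 : ε k * |(lft (x k m ω) : ℝ) + M (x k m ω)| ≤
        ε k * (δ * Real.sqrt (nst a τ (ε k))) :=
      mul_le_mul_of_nonneg_left (lft_close hnl.1) hε0.le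
    linarith
  · have h5 : ε k * |(rgt (x k m ω) : ℝ) + M (x k m ω)| ≤
        ε k * (δ * Real.sqrt (nst a τ (ε k)) + 1) :=
      mul_le_mul_of_nonneg_left (rgt_close hnl.2) hε0.le
    rw [mul_add] at h5
    linarith

lemma conf_meas (S : Seqs a ε P X x e) (k : ℕ) (t : ℝ) (f : Conf → ℤ) :
    Measurable fun ω => ε k * (f (X k t ω) : ℝ) := by
  have h : Measurable fun D : Conf => (f D : ℝ) := Measurable.of_discrete
  exact (h.comp (S.Xmeas k t)).const_mul (ε k)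

/-- Transfer of the convergence of finite dimensional distributions and of the modulus of
continuity to a process which is uniformly close to the centre of mass. -/
lemma Seqs.transfer (S : Seqs a ε P X x e) (hc : cm a = 0) (hB : IsPreBrownianReal B P')
    (f : Conf → ℤ) (hf : ∀ τ η : ℝ, 0 ≤ τ → 0 < η → Tendsto (fun k => P k {ω | ∃ t : ℝ, 0 ≤ t ∧
      t ≤ τ ∧ η ≤ |ε k * (f (X k (t / ε k ^ 2) ω) : ℝ) - Zpos (ε k) (X k) t ω|}) atTop (𝓝 0)) :
    (∀ I : Finset ℝ≥0, TendstoInDistribution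
      (fun k ω => fun t : I => ε k * (f (X k (t.1 / ε k ^ 2) ω) : ℝ)) atTop
      (fun ω => fun t : I => Real.sqrt (s2 a) * B t ω - s2 a / 2 * (t.1 : ℝ)) P P') ∧
    (∀ τ η ρ : ℝ, 0 ≤ τ → 0 < η → 0 < ρ → ∃ h : ℝ, 0 < h ∧ ∀ᶠ k in atTop,
      P k {ω | ∃ s t : ℝ, 0 ≤ s ∧ s ≤ τ ∧ 0 ≤ t ∧ t ≤ τ ∧ |s - t| ≤ h ∧
        η ≤ |ε k * (f (X k (s / ε k ^ 2) ω) : ℝ) - ε k * (f (X k (t / ε k ^ 2) ω) : ℝ)|} ≤
          ENNReal.ofReal ρ) := by
  constructor
  · intro I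
    apply close_dist (S.fddB hc hB I)
    · intro k
      exact measurable_pi_lambda _ fun t => Zpos_meas S k t.1
    · intro k
      exact measurable_pi_lambda _ fun t => conf_meas S k _ f
    · intro t η hη
      refine tendsto_of_tendsto_of_tendsto_of_le_of_le tendsto_const_nhds
        (hf t.1 η (NNReal.coe_nonneg _) hη) (fun k => zero_le) (fun k => measure_mono ?_)
      intro ω hω
      exact ⟨t.1, NNReal.coe_nonneg _, le_rfl, hω⟩
  · intro τ η ρ hτ hη hρ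
    obtain ⟨h, hh, hev⟩ := S.modulus hc (η := η / 3) hτ (by positivity) (half_pos hρ)
    refine ⟨h, hh, ?_⟩
    have hev2 := (hf τ (η / 3) hτ (by positivity)).eventually
      (gt_mem_nhds (show (0:ℝ≥0∞) < ENNReal.ofReal (ρ / 2) by rw [ENNReal.ofReal_pos]; positivity))
    filter_upwards [hev, hev2] with k hk1 hk2
    calc P k _ ≤ _ := measure_mono (t := {ω | ∃ s t : ℝ, 0 ≤ s ∧ s ≤ τ ∧ 0 ≤ t ∧ t ≤ τ ∧
          |s - t| ≤ h ∧ η / 3 ≤ |Zpos (ε k) (X k) s ω - Zpos (ε k) (X k) t ω|} ∪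
          {ω | ∃ t : ℝ, 0 ≤ t ∧ t ≤ τ ∧ η / 3 ≤
            |ε k * (f (X k (t / ε k ^ 2) ω) : ℝ) - Zpos (ε k) (X k) t ω|}) ?_
      _ ≤ ENNReal.ofReal (ρ / 2) + ENNReal.ofReal (ρ / 2) :=
          (measure_union_le _ _).trans (add_le_add hk1 hk2.le)
      _ = ENNReal.ofReal ρ := by
          rw [← ENNReal.ofReal_add (by positivity) (by positivity)]; congr 1; ring
    rintro ω ⟨s, t, hs0, hsτ, ht0, htτ, hst, hη2⟩
    by_contra hcon
    rw [Set.mem_union, not_or] at hcon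
    obtain ⟨hcon1, hcon2⟩ := hcon
    have h1 : |Zpos (ε k) (X k) s ω - Zpos (ε k) (X k) t ω| < η / 3 := by
      by_contra h5
      exact hcon1 ⟨s, t, hs0, hsτ, ht0, htτ, hst, not_lt.mp h5⟩
    have h2 : |ε k * (f (X k (s / ε k ^ 2) ω) : ℝ) - Zpos (ε k) (X k) s ω| < η / 3 := by
      by_contra h5
      exact hcon2 ⟨s, hs0, hsτ, not_lt.mp h5⟩
    have h3 : |ε k * (f (X k (t / ε k ^ 2) ω) : ℝ) - Zpos (ε k) (X k) t ω| < η / 3 := by
      by_contra h5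
      exact hcon2 ⟨t, ht0, htτ, not_lt.mp h5⟩
    have h6 := abs_sub_le (ε k * (f (X k (s / ε k ^ 2) ω) : ℝ)) (Zpos (ε k) (X k) s ω)
      (ε k * (f (X k (t / ε k ^ 2) ω) : ℝ))
    have h7 := abs_sub_le (Zpos (ε k) (X k) s ω) (Zpos (ε k) (X k) t ω)
      (ε k * (f (X k (t / ε k ^ 2) ω) : ℝ))
    rw [abs_sub_comm (Zpos (ε k) (X k) t ω)] at h7
    linarith

/-- For a kernel with a nonzero mean a process close to the centre of mass escapes. -/
lemma Seqs.escape' (S : Seqs a ε P X x e) (f : Conf → ℤ)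
    (hf : ∀ τ η : ℝ, 0 ≤ τ → 0 < η → Tendsto (fun k => P k {ω | ∃ t : ℝ, 0 ≤ t ∧
      t ≤ τ ∧ η ≤ |ε k * (f (X k (t / ε k ^ 2) ω) : ℝ) - Zpos (ε k) (X k) t ω|}) atTop (𝓝 0))
    {t K : ℝ} (ht : 0 < t) (hc : cm a ≠ 0) :
    Tendsto (fun k => P k {ω | |ε k * (f (X k (t / ε k ^ 2) ω) : ℝ)| ≤ K}) atTop (𝓝 0) := by
  have h1 := S.escape (K := K + 1) ht hc
  have h2 := hf t 1 ht.le one_pos
  have h3 : Tendsto (fun k => P k {ω | ¬ (K + 1 < SignType.sign (cm a) * Zpos (ε k) (X k) t ω)} +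
      P k {ω | ∃ s : ℝ, 0 ≤ s ∧ s ≤ t ∧ 1 ≤
        |ε k * (f (X k (s / ε k ^ 2) ω) : ℝ) - Zpos (ε k) (X k) s ω|}) atTop (𝓝 0) := by
    simpa using h1.add h2
  refine tendsto_of_tendsto_of_tendsto_of_le_of_le tendsto_const_nhds h3 (fun k => zero_le)
    (fun k => le_trans (measure_mono ?_) (measure_union_le _ _))
  intro ω hω
  have hω' : |ε k * (f (X k (t / ε k ^ 2) ω) : ℝ)| ≤ K := hω
  by_contra hcon
  rw [Set.mem_union, not_or] at hcon
  obtain ⟨hcon1, hcon2⟩ := hcon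
  have h4 : K + 1 < SignType.sign (cm a) * Zpos (ε k) (X k) t ω := by
    by_contra h; exact hcon1 h
  have h5 : |ε k * (f (X k (t / ε k ^ 2) ω) : ℝ) - Zpos (ε k) (X k) t ω| < 1 := by
    by_contra h; exact hcon2 ⟨t, ht.le, le_rfl, not_lt.mp h⟩
  have h6 : |(SignType.sign (cm a) : ℝ)| = 1 := by
    rcases lt_or_gt_of_ne hc with h | h
    · rw [sign_neg h]; simp
    · rw [sign_pos h]; simp
  have h7 : (SignType.sign (cm a) : ℝ) * Zpos (ε k) (X k) t ω ≤ |Zpos (ε k) (X k) t ω| := by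
    refine (le_abs_self _).trans ?_
    rw [abs_mul, h6, one_mul]
  have h8 := abs_sub_abs_le_abs_sub (Zpos (ε k) (X k) t ω) (ε k * (f (X k (t / ε k ^ 2) ω) : ℝ))
  rw [abs_sub_comm] at h8
  linarith

lemma Seqs.lft_close (S : Seqs a ε P X x e) (h3 : Thd a) : ∀ τ η : ℝ, 0 ≤ τ → 0 < η →
    Tendsto (fun k => P k {ω | ∃ t : ℝ, 0 ≤ t ∧ t ≤ τ ∧
      η ≤ |ε k * (lft (X k (t / ε k ^ 2) ω) : ℝ) - Zpos (ε k) (X k) t ω|}) atTop (𝓝 0) := by
  intro τ η hτ hη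
  refine tendsto_of_tendsto_of_tendsto_of_le_of_le tendsto_const_nhds (S.ends h3 hτ hη)
    (fun k => zero_le) (fun k => measure_mono ?_)
  rintro ω ⟨t, h1, h2, h4⟩
  exact ⟨t, h1, h2, Or.inl h4⟩

lemma Seqs.rgt_close (S : Seqs a ε P X x e) (h3 : Thd a) : ∀ τ η : ℝ, 0 ≤ τ → 0 < η →
    Tendsto (fun k => P k {ω | ∃ t : ℝ, 0 ≤ t ∧ t ≤ τ ∧
      η ≤ |ε k * (rgt (X k (t / ε k ^ 2) ω) : ℝ) - Zpos (ε k) (X k) t ω|}) atTop (𝓝 0) := by
  intro τ η hτ hη
  refine tendsto_of_tendsto_of_tendsto_of_le_of_le tendsto_const_nhds (S.ends h3 hτ hη)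
    (fun k => zero_le) (fun k => measure_mono ?_)
  rintro ω ⟨t, h1, h2, h4⟩
  exact ⟨t, h1, h2, Or.inr h4⟩

end

end Pool.Agent.K9h92.BV
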