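import Pool.Agent.K9h92.BV.Clock

set_option autoImplicit false

/-!
Existence of biased voter models.
-/

open ENNReal Filter Topology MeasureTheory ProbabilityTheory

namespace Pool.Agent.K9h92.BV

variable {a : ℤ → ℝ}

/-- the law of the flipped site -/
noncomputable def site (ha : Jump a) {κ : ℝ} (h0 : 0 ≤ κ) (h1 : κ < 1) (D : Conf) : PMF ℤ :=
  ⟨fun j => pk a κ D j, by
    have := pk_sum ha h0 h1 D
    rw [← this]
    exact ENNReal.summable.hasSum⟩

/-- the chain driven by a field of flipped sites -/
def drive {Ω : Type*} (J : ℕ × Conf → Ω → ℤ) : ℕ → Ω → Conf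
  | 0 => fun _ => ∅
  | n + 1 => fun ω => flipAt (drive J n ω) (J (n, drive J n ω) ω)

lemma drive_meas {Ω : Type*} [MeasurableSpace Ω] {J : ℕ × Conf → Ω → ℤ} (hJ : ∀ p, Measurable (J p))
    (n : ℕ) : Measurable (drive J n) := by
  induction n with
  | zero => exact measurable_const
  | succ n ih =>
    have h : Measurable (fun q : Conf × Ω => flipAt q.1 (J (n, q.1) q.2)) := by
      apply measurable_from_prod_countable_right
      intro D
      exact (Measurable.of_discrete (f := fun j : ℤ => flipAt D j)).comp (hJ (n, D))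
    exact h.comp (ih.prodMk measurable_id)

lemma drive_cyl {Ω : Type*} {J : ℕ × Conf → Ω → ℤ} (s : ℕ → Conf) (hs : s 0 = ∅) (n : ℕ) (ω : Ω) :
    (∀ i ≤ n, drive J i ω = s i) ↔ ∀ i < n, flipAt (s i) (J (i, s i) ω) = s (i + 1) := by
  constructor
  · intro h i hi
    have h1 := h i hi.le
    have h2 := h (i + 1) hi
    rw [← h2]
    show _ = flipAt (drive J i ω) (J (i, drive J i ω) ω)
    rw [h1]
  · intro h i
    induction i with
    | zero => intro _; exact hs.symm
    | succ i ih =>
      intro hi
      show flipAt (drive J i ω) (J (i, drive J i ω) ω) = _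
      rw [ih (by omega)]
      exact h i hi

theorem exists_chain (ha : Jump a) {ε : ℝ} (h0 : 0 ≤ ε) (h1 : ε < 1) :
    ∃ (Ω : Type) (_ : MeasurableSpace Ω) (P : Measure Ω) (x : ℕ → Ω → Conf),
      IsProbabilityMeasure P ∧ IsJumpChain a ε P x := by
  obtain ⟨Ω, mΩ, P, J, hJm, hJl, hJi, hP⟩ := exists_hasLaw_indepFun.{0, 0} (fun _ : ℕ × Conf => ℤ)
    (fun p => (site ha h0 h1 p.2).toMeasure)
  refine ⟨Ω, mΩ, P, drive J, hP, ⟨drive_meas hJm, ?_, ?_⟩⟩
  · exact ae_of_all _ fun ω => rfl
  · intro n s j
    by_cases hs : s 0 = ∅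
    · -- independence along the prescribed path
      have hind : iIndepFun (fun i : ℕ => J (i, s i)) P :=
        hJi.precomp (g := fun i : ℕ => (i, s i)) (fun i i' h => (Prod.mk.inj h).1)
      set B : ℕ → Set ℤ := fun i => {j' | flipAt (s i) j' = s (i + 1)} with hB
      have e1 : {ω | ∀ i ≤ n, drive J i ω = s i} =
          ⋂ i ∈ Finset.range n, J (i, s i) ⁻¹' B i := by
        ext ω
        simp only [Set.mem_ofPred_eq, Set.mem_iInter, Finset.mem_range, Set.mem_preimage, hB]
        exact drive_cyl s hs n ω
      set B' : ℕ → Set ℤ := fun i => if i < n then B i else {j} with hB'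
      have e2 : {ω | (∀ i ≤ n, drive J i ω = s i) ∧ drive J (n + 1) ω = flipAt (s n) j} =
          ⋂ i ∈ Finset.range (n + 1), J (i, s i) ⁻¹' B' i := by
        ext ω
        simp only [Set.mem_ofPred_eq, Set.mem_iInter, Finset.mem_range, Set.mem_preimage]
        constructor
        · rintro ⟨h2, h3⟩ i hi
          by_cases hin : i < n
          · simp only [hB', if_pos hin, hB, Set.mem_ofPred_eq]
            exact (drive_cyl s hs n ω).mp h2 i hin
          · have : i = n := by omega
            subst this
            simp only [hB', if_neg hin, Set.mem_singleton_iff]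
            have h4 : flipAt (drive J i ω) (J (i, drive J i ω) ω) = flipAt (s i) j := h3
            rw [h2 i le_rfl] at h4
            exact flipAt_inj _ h4
        · intro h2
          have h3 : ∀ i ≤ n, drive J i ω = s i := by
            rw [drive_cyl s hs n ω]
            intro i hi
            have := h2 i (by omega)
            simp only [hB', if_pos hi, hB, Set.mem_ofPred_eq] at this
            exact this
          refine ⟨h3, ?_⟩
          have := h2 n (by omega)
          simp only [hB', if_neg (lt_irrefl n), Set.mem_singleton_iff] at this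
          show flipAt (drive J n ω) (J (n, drive J n ω) ω) = _
          rw [h3 n le_rfl, this]
      rw [e1, e2, hind.measure_inter_preimage_eq_mul _ (fun i _ => MeasurableSet.of_discrete),
        hind.measure_inter_preimage_eq_mul _ (fun i _ => MeasurableSet.of_discrete),
        Finset.prod_range_succ]
      congr 1
      · apply Finset.prod_congr rfl
        intro i hi
        rw [Finset.mem_range] at hi
        simp only [hB', if_pos hi]
      · simp only [hB', if_neg (lt_irrefl n)]
        rw [← Measure.map_apply (hJm (n, s n)) (MeasurableSet.singleton j), (hJl (n, s n)).map_eq,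
          PMF.toMeasure_apply_singleton _ _ (MeasurableSet.singleton j)]
        rfl
    · have e1 : {ω | ∀ i ≤ n, drive J i ω = s i} = ∅ := by
        rw [Set.eq_empty_iff_forall_notMem]
        intro ω h
        exact hs (h 0 (Nat.zero_le _)).symm
      have e2 : {ω | (∀ i ≤ n, drive J i ω = s i) ∧ drive J (n + 1) ω = flipAt (s n) j} = ∅ := by
        rw [Set.eq_empty_iff_forall_notMem]
        intro ω h
        exact hs (h.1 0 (Nat.zero_le _)).symm
      rw [e1, e2]; simp

/-- Biased voter models exist. -/
theorem exists_voter (ha : Jump a) {ε : ℝ} (h0 : 0 ≤ ε) (h1 : ε < 1) :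
    ∃ (Ω : Type) (_ : MeasurableSpace Ω) (P : Measure Ω) (X : ℝ → Ω → Conf),
      IsProbabilityMeasure P ∧ IsBiasedVoter a ε P X := by
  obtain ⟨Ω1, m1, P1, x', hP1, hx'⟩ := exists_chain ha h0 h1
  have := isProbabilityMeasure_expMeasure one_pos
  obtain ⟨Ω2, m2, P2, e', he'm, he'l, he'i, hP2⟩ := exists_iid.{0, 0} ℕ (expMeasure 1)
  set P : Measure (Ω1 × Ω2) := P1.prod P2 with hP
  set x : ℕ → Ω1 × Ω2 → Conf := fun n ω => x' n ω.1 with hx
  set e : ℕ → Ω1 × Ω2 → ℝ := fun n ω => e' n ω.2 with he
  have mp1 : MeasurePreserving (Prod.fst : Ω1 × Ω2 → Ω1) P P1 := measurePreserving_fst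
  have mp2 : MeasurePreserving (Prod.snd : Ω1 × Ω2 → Ω2) P P2 := measurePreserving_snd
  have hxm : ∀ n, Measurable (x n) := fun n => (hx'.meas n).comp measurable_fst
  have hem : ∀ n, Measurable (e n) := fun n => (he'm n).comp measurable_snd
  have hjm : ∀ n, Measurable (jumpTime a ε x e n) := by
    intro n
    unfold jumpTime
    apply Finset.measurable_sum
    intro i _
    exact (hem i).div ((Measurable.of_discrete (f := trate a ε)).comp (hxm i))
  classical
  set p : ℝ → Ω1 × Ω2 → ℕ → Prop := fun t ω n =>
    t < jumpTime a ε x e (n + 1) ω ∨ ∀ m, jumpTime a ε x e (m + 1) ω ≤ t with hpdef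
  have hp : ∀ t ω, ∃ n, p t ω n := by
    intro t ω
    by_cases h : ∃ n, t < jumpTime a ε x e (n + 1) ω
    · obtain ⟨n, hn⟩ := h; exact ⟨n, Or.inl hn⟩
    · push Not at h; exact ⟨0, Or.inr h⟩
  have hchain : IsJumpChain a ε P x := by
    refine ⟨hxm, ?_, ?_⟩
    · exact mp1.quasiMeasurePreserving.ae hx'.init
    · intro n s j
      have h := hx'.step n s j
      have e1 : {ω : Ω1 × Ω2 | (∀ i ≤ n, x i ω = s i) ∧ x (n + 1) ω = flipAt (s n) j} =
          Prod.fst ⁻¹' {ω | (∀ i ≤ n, x' i ω = s i) ∧ x' (n + 1) ω = flipAt (s n) j} := rfl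
      have e2 : {ω : Ω1 × Ω2 | ∀ i ≤ n, x i ω = s i} =
          Prod.fst ⁻¹' {ω | ∀ i ≤ n, x' i ω = s i} := rfl
      have m1' : MeasurableSet {ω | (∀ i ≤ n, x' i ω = s i) ∧ x' (n + 1) ω = flipAt (s n) j} := by
        apply meas_dep hx'.meas (n := n + 1)
          (A := fun w => (∀ i ≤ n, w i = s i) ∧ w (n + 1) = flipAt (s n) j)
        intro w w' hw
        rw [hw (n + 1) le_rfl]
        apply and_congr_left; intro _
        exact ⟨fun h i hi => by rw [← hw i (by omega)]; exact h i hi,
          fun h i hi => by rw [hw i (by omega)]; exact h i hi⟩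
      have m2' : MeasurableSet {ω | ∀ i ≤ n, x' i ω = s i} := by
        apply meas_dep hx'.meas (n := n) (A := fun w => ∀ i ≤ n, w i = s i)
        intro w w' hw
        exact ⟨fun h i hi => by rw [← hw i (by omega)]; exact h i hi,
          fun h i hi => by rw [hw i (by omega)]; exact h i hi⟩
      rw [e1, e2, mp1.measure_preimage m1'.nullMeasurableSet,
        mp1.measure_preimage m2'.nullMeasurableSet]
      exact h
  have hlaw : ∀ n, HasLaw (e n) (expMeasure 1) P := by
    intro n
    refine ⟨(hem n).aemeasurable, ?_⟩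
    have : Measure.map (e n) P = Measure.map (e' n) (Measure.map Prod.snd P) := by
      rw [Measure.map_map (he'm n) measurable_snd]; rfl
    rw [this, mp2.map_eq, (he'l n).map_eq]
  refine ⟨Ω1 × Ω2, inferInstance, P, fun t ω => x (Nat.find (hp t ω)) ω, inferInstance,
    x, e, hchain, hem, hlaw, ?_, ?_, ?_, ?_⟩
  · rw [iIndepFun_iff_measure_inter_preimage_eq_mul] at he'i ⊢
    intro S sets hS
    have h := he'i S (sets := sets) hS
    have e1 : (⋂ i ∈ S, e i ⁻¹' sets i) = Prod.snd ⁻¹' (⋂ i ∈ S, e' i ⁻¹' sets i) := by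
      simp only [Set.preimage_iInter]; rfl
    rw [e1, mp2.measure_preimage (Finset.measurableSet_biInter S fun i hi =>
      he'm i (hS i hi)).nullMeasurableSet, h]
    apply Finset.prod_congr rfl
    intro i hi
    rw [← mp2.measure_preimage (he'm i (hS i hi)).nullMeasurableSet]
    rfl
  · exact indepFun_prod (X := fun ω n => x' n ω) (Y := fun ω n => e' n ω)
      (measurable_pi_lambda _ fun n => hx'.meas n) (measurable_pi_lambda _ fun n => he'm n)
  · intro t
    have hN : Measurable fun ω => Nat.find (hp t ω) := by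
      apply measurable_find
      intro k
      apply MeasurableSet.union
      · exact measurableSet_lt measurable_const (hjm (k + 1))
      · have : {ω | ∀ m, jumpTime a ε x e (m + 1) ω ≤ t} =
            ⋂ m, {ω | jumpTime a ε x e (m + 1) ω ≤ t} := by ext ω; simp
        show MeasurableSet {ω | ∀ m, jumpTime a ε x e (m + 1) ω ≤ t}
        rw [this]
        exact MeasurableSet.iInter fun m => measurableSet_le (hjm (m + 1)) measurable_const
    have h : Measurable (fun q : ℕ × (Ω1 × Ω2) => x q.1 q.2) :=
      measurable_from_prod_countable_right fun n => hxm n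
    exact h.comp (hN.prodMk measurable_id)
  · filter_upwards [e_nonneg hlaw] with ω hω
    intro n t h2 h3
    have hmono : Monotone fun m => jumpTime a ε x e m ω := by
      apply monotone_nat_of_le_succ
      intro k
      unfold jumpTime
      rw [Finset.sum_range_succ]
      have : 0 ≤ e k ω / trate a ε (x k ω) := by
        apply div_nonneg (hω k)
        exact (trate_pos ha h0 h1 _).le
      linarith
    have hfind : Nat.find (hp t ω) = n := by
      rw [Nat.find_eq_iff]
      refine ⟨Or.inl h3, fun m hm hcon => ?_⟩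
      rcases hcon with h4 | h4
      · have : jumpTime a ε x e (m + 1) ω ≤ jumpTime a ε x e n ω := hmono hm
        linarith
      · exact absurd h3 (not_lt.mpr (h4 n))
    rw [hfind]

end Pool.Agent.K9h92.BV
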