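import Pool.Agent.K9h92.BV.Short2
import Pool.Agent.K9h92.BV.Exist

set_option autoImplicit false

/-!
The end points of the interface, kernels with a light tail.
-/

open ENNReal Filter Topology MeasureTheory ProbabilityTheory
open scoped NNReal

namespace Pool.Agent.K9h92.BV

variable {a : ℤ → ℝ}

section

variable {ε : ℕ → ℝ} {Ω : ℕ → Type*} [∀ k, MeasurableSpace (Ω k)]
    {P : ∀ k, Measure (Ω k)} [∀ k, IsProbabilityMeasure (P k)]
    {X : ∀ k, ℝ → Ω k → Conf} {x : ∀ k, ℕ → Ω k → Conf} {e : ∀ k, ℕ → Ω k → ℝ}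

/-- the interface stays short -/
lemma Seqs.long2 (S : Seqs a ε P X x e) (hL : Light a) {τ δ : ℝ} (hτ : 0 ≤ τ) (hδ : 0 < δ) :
    Tendsto (fun k => P k {ω | Long δ (nst a τ (ε k)) (pth (x k) ω)}) atTop (𝓝 0) := by
  have ha := S.jump
  rw [ENNReal.tendsto_nhds_zero]
  intro ρ hρ
  obtain ⟨ρ', hρ'0, hρ'⟩ : ∃ ρ' : ℝ, 0 < ρ' ∧ ENNReal.ofReal ρ' ≤ ρ := by
    rcases eq_or_ne ρ ⊤ with h | h
    · exact ⟨1, one_pos, by rw [h]; exact le_top⟩
    · exact ⟨ρ.toReal, ENNReal.toReal_pos hρ.ne' h, (ENNReal.ofReal_toReal h).le⟩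
  obtain ⟨B, hB⟩ : ∃ B : ℝ, B = 2 * (2 * s2 a * τ + 2) := ⟨_, rfl⟩
  obtain ⟨n0, h⟩ := long_small02 ha hL hδ
    (show 0 < ρ' / (2 * (2 * Real.exp B / ρ')) by positivity)
  have hε : ∀ᶠ k in atTop, ε k ≤ 1 / 2 := by
    have : (0:ℝ) < 1 / 2 := by norm_num
    exact (S.lim.eventually (gt_mem_nhds this)).mono fun k hk => hk.le
  filter_upwards [(nst_tendsto ha hτ S.pos S.lim).eventually_ge_atTop n0, hε] with k hk hk2
  have hA : ∀ w w' : Pth, (∀ i ≤ nst a τ (ε k), w i = w' i) →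
      (Long δ (nst a τ (ε k)) w ↔ Long δ (nst a τ (ε k)) w') := fun w w' hw =>
    ⟨Long_dep δ _ w w' hw, Long_dep δ _ w' w (fun i hi => (hw i hi).symm)⟩
  rw [chain_prob ha (S.pos k).le (S.lt_one k) (S.chain k) _ hA]
  refine (contig_small ha hρ'0 (S.pos k).le hk2 (B := B) ?_ _ (h _ hk)).trans hρ'
  rw [hB]
  refine le_trans ?_ (sq_nst ha hτ (S.pos k) (S.lt_one k))
  have : 0 ≤ ε k ^ 2 * (nst a τ (ε k) : ℝ) := by positivity
  nlinarith

/-- the end points follow the centre of mass -/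
lemma Seqs.ends2 (S : Seqs a ε P X x e) (hL : Light a) {τ η : ℝ} (hτ : 0 ≤ τ) (hη : 0 < η) :
    Tendsto (fun k => P k {ω | ∃ t : ℝ, 0 ≤ t ∧ t ≤ τ ∧
      (η ≤ |ε k * (lft (X k (t / ε k ^ 2) ω) : ℝ) - Zpos (ε k) (X k) t ω| ∨
        η ≤ |ε k * (rgt (X k (t / ε k ^ 2) ω) : ℝ) - Zpos (ε k) (X k) t ω|)}) atTop (𝓝 0) := by
  have ha := S.jump
  have hs := s2_pos ha
  set A2 : ℝ := 2 * s2 a * τ + 2 with hA2
  have hA2' : 0 < A2 := by positivity
  have hsq : 0 < Real.sqrt A2 := Real.sqrt_pos.mpr hA2'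
  set δ : ℝ := η / (4 * Real.sqrt A2) with hδ
  have hδ0 : 0 < δ := by positivity
  have h1 := S.long2 hL hτ hδ0
  have h2 := S.tracks hτ one_pos
  have h12 : Tendsto (fun k => P k {ω | Long δ (nst a τ (ε k)) (pth (x k) ω)} +
      P k {ω | ¬ Tracks a (ε k) τ 1 (X k) (x k) ω}) atTop (𝓝 0) := by simpa using h1.add h2
  have hε : ∀ᶠ k in atTop, ε k ≤ η / 4 := by
    have : (0:ℝ) < η / 4 := by positivity
    exact (S.lim.eventually (gt_mem_nhds this)).mono fun k hk => hk.le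
  refine tendsto_of_tendsto_of_tendsto_of_le_of_le' tendsto_const_nhds h12
    (Eventually.of_forall fun k => zero_le) ?_
  filter_upwards [hε] with k hk
  refine le_trans (measure_mono ?_) (measure_union_le _ _)
  rintro ω ⟨t, ht0, htτ, hη2⟩
  by_contra hcon
  rw [Set.mem_union, not_or] at hcon
  obtain ⟨hcon1, hcon2⟩ := hcon
  have hT : Tracks a (ε k) τ 1 (X k) (x k) ω := by
    by_contra h; exact hcon2 h
  obtain ⟨m, hm1, hm2, _⟩ := hT t ht0 htτ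
  have hnl : ¬ farL (x k m ω) (δ * Real.sqrt (nst a τ (ε k))) ∧
      ¬ farR (x k m ω) (δ * Real.sqrt (nst a τ (ε k))) := by
    rw [← not_or]
    intro hc
    exact hcon1 ⟨m, hm1, hc⟩
  have hε0 := S.pos k
  have hsn := sqrt_nst ha hτ hε0 (S.lt_one k)
  rw [← hA2] at hsn
  have hb : ε k * (δ * Real.sqrt (nst a τ (ε k))) ≤ η / 4 := by
    calc ε k * (δ * Real.sqrt (nst a τ (ε k))) = δ * (ε k * Real.sqrt (nst a τ (ε k))) := by ring
      _ ≤ δ * Real.sqrt A2 := by gcongr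
      _ = η / 4 := by rw [hδ]; field_simp
  have e1 : ∀ z : ℤ, |ε k * (z : ℝ) - Zpos (ε k) (X k) t ω| = ε k * |(z : ℝ) + M (x k m ω)| := by
    intro z
    unfold Zpos
    rw [hm2, ← abs_of_pos hε0, ← abs_mul, abs_of_pos hε0]
    congr 1; ring
  rw [hm2] at hη2
  rw [e1, e1] at hη2
  rcases hη2 with h | h
  · have h5 : ε k * |(lft (x k m ω) : ℝ) + M (x k m ω)| ≤
        ε k * (δ * Real.sqrt (nst a τ (ε k))) :=
      mul_le_mul_of_nonneg_left (_root_.Pool.Agent.K9h92.BV.lft_close hnl.1) hε0.le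
    linarith
  · have h5 : ε k * |(rgt (x k m ω) : ℝ) + M (x k m ω)| ≤
        ε k * (δ * Real.sqrt (nst a τ (ε k)) + 1) :=
      mul_le_mul_of_nonneg_left (_root_.Pool.Agent.K9h92.BV.rgt_close hnl.2) hε0.le
    rw [mul_add] at h5
    linarith

lemma Seqs.close2 (S : Seqs a ε P X x e) (hL : Light a) {f : Conf → ℤ} (hf : f = lft ∨ f = rgt) :
    ∀ τ η : ℝ, 0 ≤ τ → 0 < η →
    Tendsto (fun k => P k {ω | ∃ t : ℝ, 0 ≤ t ∧ t ≤ τ ∧
      η ≤ |ε k * (f (X k (t / ε k ^ 2) ω) : ℝ) - Zpos (ε k) (X k) t ω|}) atTop (𝓝 0) := by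
  intro τ η hτ hη
  refine tendsto_of_tendsto_of_tendsto_of_le_of_le tendsto_const_nhds (S.ends2 hL hτ hη)
    (fun k => zero_le) (fun k => measure_mono ?_)
  rintro ω ⟨t, h1, h2, h4⟩
  rcases hf with rfl | rfl
  · exact ⟨t, h1, h2, Or.inl h4⟩
  · exact ⟨t, h1, h2, Or.inr h4⟩

/-- the law of the drifted Brownian motion at finitely many times -/
lemma dbm_law' (σ μ : ℝ) (I : Finset ℝ≥0) :
    (BrownianReal.projectiveFamily I).map (fun y : I → ℝ => fun t : I => σ * y t + μ * (t.1 : ℝ)) =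
      (dbm σ μ I).map (fun y : EuclideanSpace ℝ I => fun t => y t) := by
  unfold BrownianReal.projectiveFamily dbm
  rw [Measure.map_map (by fun_prop) (by fun_prop), Measure.map_map (by fun_prop) (by fun_prop)]
  congr 1

lemma Seqs.fddG (S : Seqs a ε P X x e) (hc : cm a = 0) (I : Finset ℝ≥0) :
    TendstoInDistribution (fun k ω => fun t : I => Zpos (ε k) (X k) t.1 ω) atTop
      (fun y : I → ℝ => fun t : I => Real.sqrt (s2 a) * y t + -(s2 a) / 2 * (t.1 : ℝ)) P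
      (BrownianReal.projectiveFamily I) := by
  have h := S.fdd hc I
  have hl := dbm_law' (Real.sqrt (s2 a)) (-(s2 a) / 2) I
  have hm : Measurable (fun y : I → ℝ => fun t : I =>
      Real.sqrt (s2 a) * y t + -(s2 a) / 2 * (t.1 : ℝ)) :=
    measurable_pi_lambda _ fun t => ((measurable_pi_apply t).const_mul _).add_const _
  refine ⟨h.forall_aemeasurable, hm.aemeasurable, ?_⟩
  convert h.tendsto using 1
  congr 1
  exact Subtype.ext hl

/-- Convergence of the end points for light tails. -/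
lemma Seqs.fddE (S : Seqs a ε P X x e) (hc : cm a = 0) (hL : Light a) {f : Conf → ℤ}
    (hf : f = lft ∨ f = rgt) (I : Finset ℝ≥0) :
    TendstoInDistribution (fun k ω => fun t : I => ε k * (f (X k (t.1 / ε k ^ 2) ω) : ℝ)) atTop
      (fun y : I → ℝ => fun t : I => Real.sqrt (s2 a) * y t + -(s2 a) / 2 * (t.1 : ℝ)) P
      (BrownianReal.projectiveFamily I) := by
  apply close_dist (S.fddG hc I)
  · intro k
    exact measurable_pi_lambda _ fun t => Zpos_meas S k t.1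
  · intro k
    exact measurable_pi_lambda _ fun t => conf_meas S k _ f
  · intro t η hη
    refine tendsto_of_tendsto_of_tendsto_of_le_of_le tendsto_const_nhds
      (S.close2 hL hf t.1 η (NNReal.coe_nonneg _) hη) (fun k => zero_le) (fun k => measure_mono ?_)
    intro ω hω
    exact ⟨t.1, NNReal.coe_nonneg _, le_rfl, hω⟩

/-- Modulus of continuity of the end points for light tails. -/
lemma Seqs.modE (S : Seqs a ε P X x e) (hc : cm a = 0) (hL : Light a) {f : Conf → ℤ}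
    (hf : f = lft ∨ f = rgt) {τ η ρ : ℝ} (hτ : 0 ≤ τ) (hη : 0 < η) (hρ : 0 < ρ) :
    ∃ h : ℝ, 0 < h ∧ ∀ᶠ k in atTop,
      P k {ω | ∃ s t : ℝ, 0 ≤ s ∧ s ≤ τ ∧ 0 ≤ t ∧ t ≤ τ ∧ |s - t| ≤ h ∧
        η ≤ |ε k * (f (X k (s / ε k ^ 2) ω) : ℝ) - ε k * (f (X k (t / ε k ^ 2) ω) : ℝ)|} ≤
          ENNReal.ofReal ρ := by
  obtain ⟨h, hh, hev⟩ := S.modulus hc (η := η / 3) hτ (by positivity) (half_pos hρ)
  refine ⟨h, hh, ?_⟩
  have hev2 := (S.close2 hL hf τ (η / 3) hτ (by positivity)).eventually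
    (gt_mem_nhds (show (0:ℝ≥0∞) < ENNReal.ofReal (ρ / 2) by rw [ENNReal.ofReal_pos]; positivity))
  filter_upwards [hev, hev2] with k hk1 hk2
  calc P k _ ≤ _ := measure_mono (t := {ω | ∃ s t : ℝ, 0 ≤ s ∧ s ≤ τ ∧ 0 ≤ t ∧ t ≤ τ ∧
        |s - t| ≤ h ∧ η / 3 ≤ |Zpos (ε k) (X k) s ω - Zpos (ε k) (X k) t ω|} ∪
        {ω | ∃ t : ℝ, 0 ≤ t ∧ t ≤ τ ∧ η / 3 ≤
          |ε k * (f (X k (t / ε k ^ 2) ω) : ℝ) - Zpos (ε k) (X k) t ω|}) ?_
    _ ≤ ENNReal.ofReal (ρ / 2) + ENNReal.ofReal (ρ / 2) :=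
        (measure_union_le _ _).trans (add_le_add hk1 hk2.le)
    _ = ENNReal.ofReal ρ := by
        rw [← ENNReal.ofReal_add (by positivity) (by positivity)]; congr 1; ring
  rintro ω ⟨s, t, hs0, hsτ, ht0, htτ, hst, hη2⟩
  by_contra hcon
  rw [Set.mem_union, not_or] at hcon
  obtain ⟨hcon1, hcon2⟩ := hcon
  have h1 : |Zpos (ε k) (X k) s ω - Zpos (ε k) (X k) t ω| < η / 3 := by
    by_contra h5
    exact hcon1 ⟨s, t, hs0, hsτ, ht0, htτ, hst, not_lt.mp h5⟩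
  have h2 : |ε k * (f (X k (s / ε k ^ 2) ω) : ℝ) - Zpos (ε k) (X k) s ω| < η / 3 := by
    by_contra h5
    exact hcon2 ⟨s, hs0, hsτ, not_lt.mp h5⟩
  have h3 : |ε k * (f (X k (t / ε k ^ 2) ω) : ℝ) - Zpos (ε k) (X k) t ω| < η / 3 := by
    by_contra h5
    exact hcon2 ⟨t, ht0, htτ, not_lt.mp h5⟩
  have h6 := abs_sub_le (ε k * (f (X k (s / ε k ^ 2) ω) : ℝ)) (Zpos (ε k) (X k) s ω)
    (ε k * (f (X k (t / ε k ^ 2) ω) : ℝ))
  have h7 := abs_sub_le (Zpos (ε k) (X k) s ω) (Zpos (ε k) (X k) t ω)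
    (ε k * (f (X k (t / ε k ^ 2) ω) : ℝ))
  rw [abs_sub_comm (Zpos (ε k) (X k) t ω)] at h7
  linarith

end

/-- The processes `ε f(X_{t / ε²})`, where `X` is the biased voter model with bias `ε` started from
the Heaviside state, converge in law as `ε → 0` to the drifted Brownian motion `σ B_t + μ t`:
convergence of the finite dimensional distributions and control of the modulus of continuity,
for all sequences of biases tending to zero and all realisations of the voter models. The measure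
`BrownianReal.projectiveFamily I` is the law of the Brownian motion at the times in `I`. -/
def Conv (a : ℤ → ℝ) (f : Conf → ℤ) (σ μ : ℝ) : Prop :=
  ∀ (ε : ℕ → ℝ), (∀ k, 0 < ε k) → (∀ k, ε k < 1) → Tendsto ε atTop (𝓝 0) →
    ∀ (Ω : ℕ → Type) [∀ k, MeasurableSpace (Ω k)] (P : ∀ k, Measure (Ω k))
      [∀ k, IsProbabilityMeasure (P k)] (X : ∀ k, ℝ → Ω k → Conf),
      (∀ k, IsBiasedVoter a (ε k) (P k) (X k)) →
      (∀ I : Finset ℝ≥0, TendstoInDistribution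
        (fun k ω => fun t : I => ε k * (f (X k (t.1 / ε k ^ 2) ω) : ℝ)) atTop
        (fun y : I → ℝ => fun t : I => σ * y t + μ * (t.1 : ℝ)) P
        (BrownianReal.projectiveFamily I)) ∧
      (∀ τ η ρ : ℝ, 0 < τ → 0 < η → 0 < ρ → ∃ h : ℝ, 0 < h ∧ ∀ᶠ k in atTop,
        P k {ω | ∃ s t : ℝ, 0 ≤ s ∧ s ≤ τ ∧ 0 ≤ t ∧ t ≤ τ ∧ |s - t| ≤ h ∧
          η ≤ |ε k * (f (X k (s / ε k ^ 2) ω) : ℝ) - ε k * (f (X k (t / ε k ^ 2) ω) : ℝ)|} ≤
            ENNReal.ofReal ρ)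

lemma Seqs.of {a : ℤ → ℝ} (ha : Jump a) {ε : ℕ → ℝ} (h0 : ∀ k, 0 < ε k) (h1 : ∀ k, ε k < 1)
    (hlim : Tendsto ε atTop (𝓝 0)) {Ω : ℕ → Type*} [∀ k, MeasurableSpace (Ω k)]
    {P : ∀ k, Measure (Ω k)} [∀ k, IsProbabilityMeasure (P k)] {X : ∀ k, ℝ → Ω k → Conf}
    (hX : ∀ k, IsBiasedVoter a (ε k) (P k) (X k)) :
    ∃ (x : ∀ k, ℕ → Ω k → Conf) (e : ∀ k, ℕ → Ω k → ℝ), Seqs a ε P X x e := by
  choose x e hx he1 he2 he3 he4 he5 he6 using hX
  exact ⟨x, e, ha, h0, h1, hlim, hx, he1, he2, he3, he4, he5, he6⟩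

theorem conv_of (ha : Jump a) (hc : cm a = 0) (hL : Light a) {f : Conf → ℤ}
    (hf : f = lft ∨ f = rgt) : Conv a f (Real.sqrt (s2 a)) (-(s2 a) / 2) := by
  intro ε h0 h1 hlim Ω _ P _ X hX
  obtain ⟨x, e, S⟩ := Seqs.of ha h0 h1 hlim hX
  exact ⟨fun I => S.fddE hc hL hf I, fun τ η ρ hτ hη hρ => S.modE hc hL hf hτ.le hη hρ⟩

/-- realisations along a sequence of biases -/
lemma exists_seq (ha : Jump a) {ε : ℕ → ℝ} (h0 : ∀ k, 0 < ε k) (h1 : ∀ k, ε k < 1) :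
    ∃ (Ω : ℕ → Type) (_ : ∀ k, MeasurableSpace (Ω k)) (P : ∀ k, Measure (Ω k))
      (_ : ∀ k, IsProbabilityMeasure (P k)) (X : ∀ k, ℝ → Ω k → Conf),
      ∀ k, IsBiasedVoter a (ε k) (P k) (X k) := by
  choose Ω m P X hP hX using fun k => exists_voter ha (h0 k).le (h1 k)
  exact ⟨Ω, m, P, hP, X, hX⟩

/-- large jumps contradict the control of the modulus of continuity -/
lemma not_conv_of_disc (ha : Jump a) {f : Conf → ℤ} {σ μ : ℝ}
    (h : ∃ ε : ℕ → ℝ, (∀ k, 0 < ε k) ∧ (∀ k, ε k < 1) ∧ Tendsto ε atTop (𝓝 0) ∧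
      ∀ {Ω : ℕ → Type} [∀ k, MeasurableSpace (Ω k)] {P : ∀ k, Measure (Ω k)}
        [∀ k, IsProbabilityMeasure (P k)] {X : ∀ k, ℝ → Ω k → Conf},
        (∀ k, IsBiasedVoter a (ε k) (P k) (X k)) → ∀ τ : ℝ, 0 < τ →
        ∃ ρ : ℝ, 0 < ρ ∧ ∀ᶠ k in atTop,
          ENNReal.ofReal ρ ≤ P k {ω | Disc (ε k) τ (1 / 2) f (X k) ω}) : ¬ Conv a f σ μ := by
  intro hconv
  obtain ⟨ε, h0, h1, hlim, hd⟩ := h
  obtain ⟨Ω, m, P, hP, X, hX⟩ := exists_seq ha h0 h1
  obtain ⟨ρ, hρ, hev⟩ := hd hX 1 one_pos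
  obtain ⟨-, hmod⟩ := hconv ε h0 h1 hlim Ω P X hX
  obtain ⟨h, hh, hev2⟩ := hmod 1 (1 / 2) (ρ / 2) one_pos (by norm_num) (by positivity)
  obtain ⟨k, hk1, hk2⟩ := (hev.and hev2).exists
  have h3 : P k {ω | Disc (ε k) 1 (1 / 2) f (X k) ω} ≤ ENNReal.ofReal (ρ / 2) := by
    refine le_trans (measure_mono ?_) hk2
    intro ω hω
    exact hω h hh
  have h4 := hk1.trans h3
  rw [ENNReal.ofReal_le_ofReal_iff (by positivity)] at h4
  linarith

/-- Escape contradicts the convergence in distribution. -/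
lemma not_conv_of_escape (ha : Jump a) {f : Conf → ℤ} {σ μ : ℝ}
    (h : ∀ {ε : ℕ → ℝ} {Ω : ℕ → Type} [∀ k, MeasurableSpace (Ω k)] {P : ∀ k, Measure (Ω k)}
        [∀ k, IsProbabilityMeasure (P k)] {X : ∀ k, ℝ → Ω k → Conf}
        {x : ∀ k, ℕ → Ω k → Conf} {e : ∀ k, ℕ → Ω k → ℝ}, Seqs a ε P X x e → ∀ K : ℝ,
        Tendsto (fun k => P k {ω | |ε k * (f (X k (1 / ε k ^ 2) ω) : ℝ)| ≤ K}) atTop (𝓝 0)) :
    ¬ Conv a f σ μ := by
  intro hconv
  set ε : ℕ → ℝ := fun k => 1 / ((k:ℝ) + 2) with hε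
  have h0 : ∀ k, 0 < ε k := fun k => by simp only [hε]; positivity
  have h1 : ∀ k, ε k < 1 := fun k => by
    simp only [hε]
    rw [div_lt_one (by positivity)]
    have : (0:ℝ) ≤ k := by positivity
    linarith
  have hlim : Tendsto ε atTop (𝓝 0) := by
    have h2 : Tendsto (fun k : ℕ => (k:ℝ) + 2) atTop atTop :=
      tendsto_atTop_add_const_right _ _ tendsto_natCast_atTop_atTop
    refine h2.inv_tendsto_atTop.congr fun k => ?_
    simp only [hε]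
    rw [Pi.inv_apply, one_div]
  obtain ⟨Ω, m, P, hP, X, hX⟩ := exists_seq ha h0 h1
  obtain ⟨x, e, S⟩ := Seqs.of ha h0 h1 hlim hX
  obtain ⟨hfdd, -⟩ := hconv ε h0 h1 hlim Ω P X hX
  set I : Finset ℝ≥0 := {1} with hI
  have ht := hfdd I
  have h1I : (1:ℝ≥0) ∈ I := by rw [hI]; exact Finset.mem_singleton_self _
  -- a level with positive mass
  set ν : Measure (I → ℝ) := (BrownianReal.projectiveFamily I).map
    (fun y : I → ℝ => fun t : I => σ * y t + μ * (t.1 : ℝ)) with hν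
  have hνp : IsProbabilityMeasure ν := Measure.isProbabilityMeasure_map ht.aemeasurable_limit
  set G : ℕ → Set (I → ℝ) := fun N => {y | |y ⟨1, h1I⟩| < N} with hG
  have hGo : ∀ N, IsOpen (G N) := by
    intro N
    have : Continuous fun y : I → ℝ => |y ⟨1, h1I⟩| := (continuous_apply _).abs
    exact isOpen_lt this continuous_const
  have hpos : ∃ N, 0 < ν (G N) := by
    by_contra hcon
    push Not at hcon
    have h2 : ν (⋃ N, G N) = 0 := by
      rw [measure_iUnion_null_iff]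
      intro N
      exact le_antisymm (hcon N) zero_le
    have h3 : (⋃ N, G N) = Set.univ := by
      rw [Set.eq_univ_iff_forall]
      intro y
      rw [Set.mem_iUnion]
      obtain ⟨N, hN⟩ := exists_nat_gt |y ⟨1, h1I⟩|
      exact ⟨N, hN⟩
    rw [h3, measure_univ] at h2
    exact one_ne_zero h2
  obtain ⟨N, hN⟩ := hpos
  have h4 := ProbabilityMeasure.le_liminf_measure_open_of_tendsto ht.tendsto (hGo N)
  have h5 : Tendsto (fun k => ((P k).map (fun ω => fun t : I =>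
      ε k * (f (X k (t.1 / ε k ^ 2) ω) : ℝ))) (G N)) atTop (𝓝 0) := by
    refine tendsto_of_tendsto_of_tendsto_of_le_of_le tendsto_const_nhds (h S N)
      (fun k => zero_le) (fun k => ?_)
    have hm : Measurable (fun ω => fun t : I => ε k * (f (X k (t.1 / ε k ^ 2) ω) : ℝ)) :=
      measurable_pi_lambda _ fun t => conf_meas S k _ f
    simp only
    rw [Measure.map_apply hm (hGo N).measurableSet]
    apply measure_mono
    intro ω hω
    have : |ε k * (f (X k (((1:ℝ≥0):ℝ) / ε k ^ 2) ω) : ℝ)| < N := hω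
    rw [NNReal.coe_one] at this
    exact this.le
  have h6 := h5.liminf_eq
  have h7 : ν (G N) ≤ 0 := by
    rw [← h6]
    exact h4
  exact absurd hN (not_lt.mpr h7)

end Pool.Agent.K9h92.BV
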