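import Pool.Agent.K9h92.BV.Refl
import Pool.Agent.K9h92.BV.Lln2

set_option autoImplicit false

/-!
Configurations with a one far to the left or a zero far to the right of the centre of mass.
-/

open ENNReal Filter Topology

namespace Pool.Agent.K9h92.BV

variable {a : ℤ → ℝ}

/-- there is a one at distance at least `κ` to the left of the centre of mass -/
def farL (D : Conf) (κ : ℝ) : Prop := ∃ i : ℤ, on D i ∧ (i:ℝ) + M D ≤ -κ

/-- there is a zero at distance at least `κ` to the right of the centre of mass -/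
def farR (D : Conf) (κ : ℝ) : Prop := ∃ i : ℤ, ¬ on D i ∧ κ ≤ (i:ℝ) + 1 + M D

lemma farR_iff (D : Conf) (κ : ℝ) : farR D κ ↔ farL (refl D) κ := by
  constructor
  · rintro ⟨i, hi, h⟩
    refine ⟨-1 - i, (on_refl D _).mpr (by rwa [show -1 - (-1 - i) = i by ring]), ?_⟩
    rw [M_refl]; push_cast; linarith
  · rintro ⟨i, hi, h⟩
    refine ⟨-1 - i, (on_refl D i).mp hi, ?_⟩
    rw [M_refl] at h; push_cast at h ⊢; linarith

lemma N_ge {D : Conf} {i : ℤ} (h : on D i) (m : ℤ) : co D (i + m) ≤ N D m := by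
  unfold N
  have h1 : ind D i = 1 := by unfold ind; rw [if_pos h]
  have := (N_summable D m).le_tsum i (fun u _ => mul_nonneg (ind_nonneg D u) (co_nonneg D _))
  rwa [h1, one_mul] at this

lemma far_sqw {D : Conf} {κ : ℝ} {h : ℕ} (hf : farL D κ) (hh : 2 * (h:ℝ) ≤ κ) :
    (h:ℝ) ^ 3 ≤ H (sqw h) D := by
  obtain ⟨i, hi, h1⟩ := hf
  have hh0 : (0:ℝ) ≤ h := by positivity
  -- the zeros at distance at least `h`
  have s1 := (Equiv.addLeft i).summable_iff.mpr (pr_summable D (i + h))
  have t1 : ∑' m : ℤ, (if i + (h:ℤ) ≤ i + m then co D (i + m) else 0) =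
      ∑' v : ℤ, (if i + (h:ℤ) ≤ v then co D v else 0) :=
    (Equiv.addLeft i).tsum_eq (fun v => if i + (h:ℤ) ≤ v then co D v else 0)
  have s1' : Summable fun m : ℤ => (h:ℝ) ^ 2 * (if i + (h:ℤ) ≤ i + m then co D (i + m) else 0) :=
    s1.mul_left ((h:ℝ) ^ 2)
  have h2 : (h:ℝ) ^ 2 * pr D (i + h) ≤ H (sqw h) D := by
    unfold pr H
    rw [← t1, ← tsum_mul_left]
    apply Summable.tsum_le_tsum _ s1' (H_summable (sqw_zero h) D)
    intro m
    have hN := N_ge hi m
    have hN0 := N_nonneg D m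
    by_cases hm : i + (h:ℤ) ≤ i + m
    · rw [if_pos hm]
      rcases Nat.eq_zero_or_pos h with h0 | h0
      · subst h0
        simp only [Nat.cast_zero]
        have := mul_nonneg (sqw_nonneg 0 m) hN0
        have e : (0:ℝ) ^ 2 * co D (i + m) = 0 := by ring
        rw [e]; exact this
      · have h3 : sqw h m = (h:ℝ) ^ 2 := by
          unfold sqw
          rw [if_pos (by omega), min_eq_right]
          have : (h:ℤ) ≤ m := by omega
          exact_mod_cast this
        rw [h3]
        exact mul_le_mul_of_nonneg_left hN (by positivity)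
    · rw [if_neg hm, mul_zero]
      exact mul_nonneg (sqw_nonneg h m) hN0
  have h3 : (h:ℝ) ≤ pr D (i + h) := by
    have h4 := ql_sub_pr D (i + h)
    have h5 := ql_nonneg D (i + h)
    push_cast at h4
    linarith
  calc (h:ℝ) ^ 3 = (h:ℝ) ^ 2 * h := by ring
    _ ≤ (h:ℝ) ^ 2 * pr D (i + h) := mul_le_mul_of_nonneg_left h3 (by positivity)
    _ ≤ _ := h2

lemma far_sqw' {D : Conf} {κ : ℝ} {h : ℕ} (hf : farL D κ ∨ farR D κ) (hh : 2 * (h:ℝ) ≤ κ) :
    (h:ℝ) ^ 3 ≤ H (sqw h) D := by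
  rcases hf with hf | hf
  · exact far_sqw hf hh
  · rw [farR_iff] at hf
    have := far_sqw hf hh
    rwa [H_refl] at this

/-- a good configuration: few inversions and a short interface -/
def Good (A δ : ℝ) (D : Conf) : Prop := inv D < A ∧ ¬ farL D δ ∧ ¬ farR D δ

lemma good_N {A δ : ℝ} {D : Conf} (hg : Good A δ D) {m : ℤ} (hm : 2 * δ ≤ m) : N D m = 0 := by
  obtain ⟨_, h1, h2⟩ := hg
  unfold N
  have : ∀ u, ind D u * co D (u + m) = 0 := by
    intro u
    by_contra hne
    have h3 : on D u := by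
      by_contra hc
      apply left_ne_zero_of_mul hne
      unfold ind; rw [if_neg hc]
    have h4 : ¬ on D (u + m) := by
      intro hc
      apply right_ne_zero_of_mul hne
      unfold co ind; rw [if_pos hc]; ring
    have h5 : -δ < (u:ℝ) + M D := by
      by_contra hc
      exact h1 ⟨u, h3, not_lt.mp hc⟩
    have h6 : ((u + m : ℤ) : ℝ) + 1 + M D < δ := by
      by_contra hc
      exact h2 ⟨u + m, h4, not_lt.mp hc⟩
    push_cast at h6
    linarith
  rw [tsum_congr this]; simp

lemma good_H {A δ : ℝ} {D : Conf} (hg : Good A δ D) {ψ : ℤ → ℝ} (hψ : ∀ m ≤ 0, ψ m = 0) {B : ℝ}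
    (hB0 : 0 ≤ B) (hB : ∀ m : ℤ, 0 < m → (m:ℝ) < 2 * δ → ψ m ≤ B) : H ψ D ≤ B * inv D := by
  unfold inv H
  rw [← tsum_mul_left]
  apply Summable.tsum_le_tsum _ (H_summable hψ D) ((H_summable pos1_zero D).mul_left _)
  intro m
  have hN := N_nonneg D m
  by_cases hm : 0 < m
  · have hp : pos1 m = 1 := by unfold pos1; rw [if_pos hm]
    rw [hp, one_mul]
    by_cases h2 : (m:ℝ) < 2 * δ
    · exact mul_le_mul_of_nonneg_right (hB m hm h2) hN
    · rw [good_N hg (not_lt.mp h2)]; simp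
  · rw [hψ m (by omega), zero_mul]
    exact mul_nonneg hB0 (mul_nonneg (pos1_nonneg m) hN)

lemma good_ps {A δ : ℝ} {D : Conf} (hδ : 0 ≤ δ) (hg : Good A δ D) (L : ℕ) :
    H (ps L) D ≤ 2 * δ * A := by
  have h1 : H (ps L) D ≤ (2 * δ) * inv D := by
    apply good_H hg (ps_zero L) (by positivity)
    intro m hm h2
    unfold ps
    rw [if_pos hm]
    exact (min_le_left _ _).trans h2.le
  exact h1.trans (mul_le_mul_of_nonneg_left hg.1.le (by positivity))

lemma good_sqw {A δ : ℝ} {D : Conf} (hδ : 0 ≤ δ) (hg : Good A δ D) (h : ℕ) :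
    H (sqw h) D ≤ 4 * δ ^ 2 * A := by
  have h1 : H (sqw h) D ≤ (4 * δ ^ 2) * inv D := by
    apply good_H hg (sqw_zero h) (by positivity)
    intro m hm h2
    unfold sqw
    rw [if_pos hm]
    have hm' : (0:ℝ) < m := by exact_mod_cast hm
    calc min (m:ℝ) h ^ 2 ≤ (2 * δ) ^ 2 :=
          pow_le_pow_left₀ (by positivity) ((min_le_left _ _).trans h2.le) 2
      _ = _ := by ring
  exact h1.trans (mul_le_mul_of_nonneg_left hg.1.le (by positivity))

lemma good_empty {A δ : ℝ} (hA : 0 < A) (hδ : 0 < δ) : Good A δ ∅ := by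
  refine ⟨by rw [inv_empty]; exact hA, ?_, ?_⟩
  · rintro ⟨i, hi, h⟩
    rw [M_empty] at h
    unfold on at hi
    have : 0 ≤ i := by simpa using hi
    have : (0:ℝ) ≤ i := by exact_mod_cast this
    push_cast at h
    linarith
  · rintro ⟨i, hi, h⟩
    rw [M_empty] at h
    unfold on at hi
    have : i < 0 := by simpa using hi
    have : i + 1 ≤ 0 := by omega
    have : (i:ℝ) + 1 ≤ 0 := by exact_mod_cast this
    push_cast at h
    linarith

/-- many ones near the leftmost one, or a large gap -/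
lemma far_gap {D : Conf} {δ : ℝ} {K h : ℕ} (hf : farL D δ) (hh : 2 * (h:ℝ) ≤ δ)
    (hK : inv D < (K + 1) * h) : (h:ℝ) ≤ (thr D (K + 1) : ℝ) - thr D 1 := by
  obtain ⟨i, hi, h1⟩ := hf
  have hh0 : (0:ℝ) < h := by
    by_contra hc
    have : (h:ℝ) = 0 := le_antisymm (not_lt.mp hc) (by positivity)
    rw [this, mul_zero] at hK
    exact absurd hK (not_lt.mpr (inv_nonneg D))
  have h2 : thr D 1 ≤ i := by
    by_contra hc
    have := (thr_one D).2 i (by omega)
    unfold ind at this
    rw [if_pos hi] at this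
    norm_num at this
  have h3 : (thr D 1 : ℝ) ≤ i := by exact_mod_cast h2
  have h4 := ql_mul_pr_le D (-M D - h)
  have h5 := ql_sub_pr D (-M D - h)
  push_cast at h5
  have h6 := ql_nonneg D (-M D - h)
  have h7 : (h:ℝ) ≤ pr D (-M D - h) := by linarith
  have h8 : ql D (-M D - h) * h ≤ inv D := (mul_le_mul_of_nonneg_left h7 h6).trans h4
  have h9 : ql D (-M D - h) < ((K + 1 : ℕ) : ℝ) := by
    push_cast
    by_contra hc
    have := mul_le_mul_of_nonneg_right (not_lt.mp hc) hh0.le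
    linarith
  have h10 := (thr_spec D (Nat.succ_pos K) _).mp h9
  have h11 : ((-M D - h : ℤ) : ℝ) ≤ thr D (K + 1) := by exact_mod_cast h10
  push_cast at h11
  linarith

/-- the gap from the leftmost to the `K + 1`-st one -/
noncomputable def gap (K : ℕ) (D : Conf) : ℝ := (thr D (K + 1) : ℝ) - thr D 1

lemma gap_sum (K : ℕ) (D : Conf) :
    gap K D = ∑ s ∈ Finset.Icc 1 K, ((thr D (s + 1) : ℝ) - thr D s) := by
  unfold gap
  induction K with
  | zero => simp
  | succ n ih =>
    rw [Finset.sum_Icc_succ_top (by omega), ← ih]; ring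

lemma gap_nonneg (K : ℕ) (D : Conf) : 0 ≤ gap K D := by
  unfold gap
  have : (thr D 1 : ℝ) ≤ thr D (K + 1) := by exact_mod_cast thr_mono D one_pos (by omega)
  linarith

/-- the time average of the gaps -/
lemma gap_mean_aux (ha : Jump a) {T : Conf → Conf} (hT : T ∅ = ∅) {p : ℝ} (hp : 0 < p)
    (hstep : ∀ K : ℕ, 0 < K → ∀ D : Conf, Q a 0 (fun D => ENNReal.ofReal (GG K (T D) + K ^ 2)) D +
      ENNReal.ofReal (p * (rr a D * ((thr (T D) (K + 1) : ℝ) - thr (T D) K))) ≤
      ENNReal.ofReal (GG K (T D) + K ^ 2) + ENNReal.ofReal ((s2 a + m1 a) / 2 / m1 a))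
    (K n : ℕ) : Ex a 0 0 n (Sm (fun D => ENNReal.ofReal (rr a D * gap K (T D))) 0 n) w0 ≤
      ENNReal.ofReal (K / p * (K ^ 2 + n * ((s2 a + m1 a) / 2 / m1 a))) := by
  have hs := s2_pos ha
  have hm := m1_pos ha
  set C0 := (s2 a + m1 a) / 2 / m1 a with hC0
  have hC0' : 0 < C0 := by positivity
  have h1 : ∀ s ∈ Finset.Icc 1 K, Ex a 0 0 n (Sm (fun D => ENNReal.ofReal (rr a D *
      ((thr (T D) (s + 1) : ℝ) - thr (T D) s))) 0 n) w0 ≤ ENNReal.ofReal (1 / p * (K ^ 2 + n * C0)) := by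
    intro s hs'
    rw [Finset.mem_Icc] at hs'
    have e1 := Ex_Sm_le ha (fun D => hstep s (by omega) D) 0 n w0
    have hmono : ∀ D, 0 ≤ (thr (T D) (s + 1) : ℝ) - thr (T D) s := fun D => by
      have : (thr (T D) s : ℝ) ≤ thr (T D) (s + 1) := by
        exact_mod_cast thr_mono (T D) (by omega) (Nat.le_succ s)
      linarith
    have e2 : Sm (fun D => ENNReal.ofReal (rr a D * ((thr (T D) (s + 1) : ℝ) - thr (T D) s))) 0 n =
        fun w => ENNReal.ofReal (1 / p) * Sm (fun D => ENNReal.ofReal (p *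
          (rr a D * ((thr (T D) (s + 1) : ℝ) - thr (T D) s)))) 0 n w := by
      funext w
      unfold Sm
      rw [Finset.mul_sum]
      apply Finset.sum_congr rfl
      intro i _
      rw [← ENNReal.ofReal_mul (by positivity)]
      congr 1; field_simp
    rw [e2, congrFun (Ex_smul 0 n _ _) w0]
    have e3 : w0 0 = ∅ := rfl
    rw [e3, hT] at e1
    have e4 : ENNReal.ofReal (GG s ∅ + s ^ 2) ≤ ENNReal.ofReal (K ^ 2) := by
      apply ENNReal.ofReal_le_ofReal
      have h2 := GG_empty s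
      have h3 : (s:ℝ) ≤ K := by exact_mod_cast hs'.2
      have h4 : (s:ℝ) ^ 2 ≤ (K:ℝ) ^ 2 := pow_le_pow_left₀ (by positivity) h3 2
      linarith
    calc _ ≤ ENNReal.ofReal (1 / p) * (ENNReal.ofReal (K ^ 2) + n * ENNReal.ofReal C0) := by
          gcongr
          exact e1.trans (by gcongr)
      _ = _ := by
          rw [← ENNReal.ofReal_natCast, ← ENNReal.ofReal_mul (by positivity),
            ← ENNReal.ofReal_add (by positivity) (by positivity), ← ENNReal.ofReal_mul (by positivity)]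
  have h2 : ∀ w, Sm (fun D => ENNReal.ofReal (rr a D * gap K (T D))) 0 n w ≤
      ∑ s ∈ Finset.Icc 1 K, Sm (fun D => ENNReal.ofReal (rr a D *
      ((thr (T D) (s + 1) : ℝ) - thr (T D) s))) 0 n w := by
    intro w
    unfold Sm
    rw [Finset.sum_comm]
    apply Finset.sum_le_sum
    intro i _
    beta_reduce
    set D := w (0 + i)
    have hr := rr_pos ha D
    have hnn : ∀ s ∈ Finset.Icc 1 K, 0 ≤ rr a D * ((thr (T D) (s + 1) : ℝ) - thr (T D) s) := by
      intro s hs'
      rw [Finset.mem_Icc] at hs'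
      have : (thr (T D) s : ℝ) ≤ thr (T D) (s + 1) := by
        exact_mod_cast thr_mono (T D) (by omega) (Nat.le_succ s)
      exact mul_nonneg hr.le (by linarith)
    rw [← ENNReal.ofReal_sum_of_nonneg hnn, ← Finset.mul_sum, ← gap_sum]
  refine (Ex_mono h2 w0).trans ?_
  rw [Ex_sum]
  calc _ ≤ ∑ s ∈ Finset.Icc 1 K, ENNReal.ofReal (1 / p * (K ^ 2 + n * C0)) := Finset.sum_le_sum h1
    _ = _ := by
        rw [Finset.sum_const, Nat.card_Icc, nsmul_eq_mul, ← ENNReal.ofReal_natCast,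
          ← ENNReal.ofReal_mul (by positivity)]
        congr 1
        push_cast [Nat.add_sub_cancel]
        ring

lemma gap_mean (ha : Jump a) : ∃ C : ℝ, 0 < C ∧ ∀ K n : ℕ,
    Ex a 0 0 n (Sm (fun D => ENNReal.ofReal (rr a D * gap K D)) 0 n) w0 ≤
      ENNReal.ofReal (C * K * (K ^ 2 + n)) ∧
    Ex a 0 0 n (Sm (fun D => ENNReal.ofReal (rr a D * gap K (refl D))) 0 n) w0 ≤
      ENNReal.ofReal (C * K * (K ^ 2 + n)) := by
  have hs := s2_pos ha
  have hm := m1_pos ha
  have p1 := ap_pos ha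
  have p2 := ap_pos ha.refl
  set C0 := (s2 a + m1 a) / 2 / m1 a with hC0
  have hC0' : 0 < C0 := by positivity
  have key : ∀ p : ℝ, 0 < p → 1 / p ≤ 1 / ap a + 1 / ap (aR a) → ∀ K n : ℕ,
      ENNReal.ofReal (K / p * (K ^ 2 + n * C0)) ≤
      ENNReal.ofReal ((1 / ap a + 1 / ap (aR a)) * (1 + C0) * K * (K ^ 2 + n)) := by
    intro p hp hp2 K n
    apply ENNReal.ofReal_le_ofReal
    have h1 : (K:ℝ) ^ 2 + n * C0 ≤ (1 + C0) * (K ^ 2 + n) := by
      have : (0:ℝ) ≤ n := by positivity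
      have : (0:ℝ) ≤ (K:ℝ) ^ 2 := by positivity
      nlinarith
    calc (K:ℝ) / p * (K ^ 2 + n * C0) = K * (1 / p) * (K ^ 2 + n * C0) := by ring
      _ ≤ K * (1 / ap a + 1 / ap (aR a)) * ((1 + C0) * (K ^ 2 + n)) := by gcongr
      _ = _ := by ring
  refine ⟨(1 / ap a + 1 / ap (aR a)) * (1 + C0), by positivity, fun K n => ⟨?_, ?_⟩⟩
  · exact (gap_mean_aux ha (T := fun D => D) rfl p1 (fun K hK D => edge_step ha hK D) K n).trans
      (key _ p1 (by have : 0 < 1 / ap (aR a) := by positivity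
                    linarith) K n)
  · exact (gap_mean_aux ha (T := refl) refl_empty p2 (fun K hK D => edge_step_right ha hK D) K n).trans
      (key _ p2 (by have : 0 < 1 / ap a := by positivity
                    linarith) K n)

/-- clock time spent outside the good states -/
noncomputable def rbad (a : ℤ → ℝ) (A δ : ℝ) (D : Conf) : ℝ≥0∞ := by
  classical exact if Good A δ D then 0 else ENNReal.ofReal (rr a D)

lemma rbad_le (ha : Jump a) {A δ : ℝ} {K h : ℕ} (hA : 0 < A) (hh : 0 < h) (hhδ : 2 * (h:ℝ) ≤ δ)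
    (hK : A ≤ (K + 1) * h) (D : Conf) :
    rbad a A δ D ≤ ENNReal.ofReal (1 / A) * ENNReal.ofReal (rr a D * inv D) +
      (ENNReal.ofReal (1 / h) * ENNReal.ofReal (rr a D * gap K D) +
        ENNReal.ofReal (1 / h) * ENNReal.ofReal (rr a D * gap K (refl D))) := by
  have hr := rr_pos ha D
  have hi := inv_nonneg D
  have hhr : (0:ℝ) < h := by exact_mod_cast hh
  have g1 := gap_nonneg K D
  have g2 := gap_nonneg K (refl D)
  unfold rbad
  by_cases hg : Good A δ D
  · rw [if_pos hg]; exact zero_le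
  · rw [if_neg hg, ← ENNReal.ofReal_mul (by positivity), ← ENNReal.ofReal_mul (by positivity),
      ← ENNReal.ofReal_mul (by positivity), ← ENNReal.ofReal_add (by positivity) (by positivity),
      ← ENNReal.ofReal_add (by positivity) (by positivity)]
    apply ENNReal.ofReal_le_ofReal
    by_cases h1 : inv D < A
    · have h2 : farL D δ ∨ farR D δ := by
        by_contra hc
        rw [not_or] at hc
        exact hg ⟨h1, hc.1, hc.2⟩
      have a1 : 0 ≤ 1 / A * (rr a D * inv D) := by positivity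
      rcases h2 with h2 | h2
      · have h3 := far_gap h2 hhδ (h1.trans_le hK)
        have h4 : rr a D ≤ 1 / h * (rr a D * gap K D) := by
          unfold gap
          calc rr a D = 1 / h * (rr a D * h) := by field_simp
            _ ≤ _ := by gcongr
        have a2 : 0 ≤ 1 / (h:ℝ) * (rr a D * gap K (refl D)) := by positivity
        linarith
      · rw [farR_iff] at h2
        have h3 := far_gap (K := K) h2 hhδ (by rw [inv_refl]; exact h1.trans_le hK)
        have h4 : rr a D ≤ 1 / h * (rr a D * gap K (refl D)) := by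
          unfold gap
          calc rr a D = 1 / h * (rr a D * h) := by field_simp
            _ ≤ _ := by gcongr
        have a2 : 0 ≤ 1 / (h:ℝ) * (rr a D * gap K D) := by positivity
        linarith
    · have h2 := not_lt.mp h1
      have h4 : rr a D ≤ 1 / A * (rr a D * inv D) := by
        calc rr a D = 1 / A * (rr a D * A) := by field_simp
          _ ≤ _ := by gcongr
      have a2 : 0 ≤ 1 / (h:ℝ) * (rr a D * gap K D) := by positivity
      have a3 : 0 ≤ 1 / (h:ℝ) * (rr a D * gap K (refl D)) := by positivity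
      linarith

lemma Sm_smul (c : ℝ≥0∞) (g : Conf → ℝ≥0∞) (k n : ℕ) (w : Pth) :
    Sm (fun D => c * g D) k n w = c * Sm g k n w := by
  unfold Sm; rw [Finset.mul_sum]

lemma Sm_add (g h : Conf → ℝ≥0∞) (k n : ℕ) (w : Pth) :
    Sm (fun D => g D + h D) k n w = Sm g k n w + Sm h k n w := by
  unfold Sm; rw [Finset.sum_add_distrib]

/-- the clock time spent outside the good states, started from the Heaviside state -/
lemma rbad_mean (ha : Jump a) (h3 : Thd a) : ∃ C : ℝ, 0 < C ∧ ∀ (A δ : ℝ) (K h L n : ℕ), 0 < A →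
    0 < h → 0 < L → 2 * (h:ℝ) ≤ δ → A ≤ (K + 1) * h →
    Ex a 0 0 n (Sm (rbad a A δ) 0 n) w0 ≤
      ENNReal.ofReal (C * ((L + n / L) * n / A + K * (K ^ 2 + n) / h)) := by
  obtain ⟨C1, hC1, h1⟩ := inv_sum ha h3
  obtain ⟨C2, hC2, h2⟩ := gap_mean ha
  refine ⟨C1 + 2 * C2, by positivity, fun A δ K h L n hA hh hL hhδ hK => ?_⟩
  have hhr : (0:ℝ) < h := by exact_mod_cast hh
  have hLr : (0:ℝ) < L := by exact_mod_cast hL
  have e1 : ∀ w, Sm (rbad a A δ) 0 n w ≤
      ((fun w => ENNReal.ofReal (1 / A) * Sm (fun D => ENNReal.ofReal (rr a D * inv D)) 0 n w) +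
      ((fun w => ENNReal.ofReal (1 / h) * Sm (fun D => ENNReal.ofReal (rr a D * gap K D)) 0 n w) +
      fun w => ENNReal.ofReal (1 / h) * Sm (fun D => ENNReal.ofReal (rr a D * gap K (refl D))) 0 n w)) w := by
    intro w
    refine (Sm_mono (rbad_le ha hA hh hhδ hK) 0 n w).trans (le_of_eq ?_)
    rw [Sm_add, Sm_add, Sm_smul, Sm_smul, Sm_smul]
    rfl
  refine (Ex_mono e1 w0).trans ?_
  rw [Ex_add, Pi.add_apply, Ex_add, Pi.add_apply, congrFun (Ex_smul 0 n _ _) w0,
    congrFun (Ex_smul 0 n _ _) w0, congrFun (Ex_smul 0 n _ _) w0]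
  have b1 := h1 L 0 n w0 hL
  have b0 : H (ps L) (w0 0) = 0 := H_empty (ps_zero L)
  rw [b0, zero_add] at b1
  obtain ⟨b2, b3⟩ := h2 K n
  calc _ ≤ ENNReal.ofReal (1 / A) * ENNReal.ofReal (C1 * (L + n / L) * n) +
        (ENNReal.ofReal (1 / h) * ENNReal.ofReal (C2 * K * (K ^ 2 + n)) +
          ENNReal.ofReal (1 / h) * ENNReal.ofReal (C2 * K * (K ^ 2 + n))) := by gcongr
    _ = ENNReal.ofReal (1 / A * (C1 * (L + n / L) * n) + (1 / h * (C2 * K * (K ^ 2 + n)) +
          1 / h * (C2 * K * (K ^ 2 + n)))) := by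
        rw [← ENNReal.ofReal_mul (by positivity), ← ENNReal.ofReal_mul (by positivity),
          ← ENNReal.ofReal_add (by positivity) (by positivity),
          ← ENNReal.ofReal_add (by positivity) (by positivity)]
    _ ≤ _ := by
        apply ENNReal.ofReal_le_ofReal
        have x1 : 0 ≤ ((L:ℝ) + n / L) * n / A := by positivity
        have x2 : 0 ≤ (K:ℝ) * (K ^ 2 + n) / h := by positivity
        have y1 : 1 / A * (C1 * (L + n / L) * n) = C1 * (((L:ℝ) + n / L) * n / A) := by ring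
        have y2 : 1 / (h:ℝ) * (C2 * K * (K ^ 2 + n)) = C2 * ((K:ℝ) * (K ^ 2 + n) / h) := by ring
        rw [y1, y2]
        nlinarith

end Pool.Agent.K9h92.BV
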