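import Pool.Agent.K9h92.BV.Signs

set_option autoImplicit false

/-!
Finite dimensional distributions.
-/

open ENNReal Filter Topology MeasureTheory ProbabilityTheory

namespace Pool.Agent.K9h92.BV

section

variable {Ω : Type*} [MeasurableSpace Ω] {P : Measure Ω} [IsProbabilityMeasure P]

lemma char_diff {u v : Ω → ℝ} (hu : Measurable u) (hv : Measurable v) {η : ℝ} (hη : 0 < η) :
    ‖∫ ω, Complex.exp (Complex.I * (v ω : ℂ)) ∂P - ∫ ω, Complex.exp (Complex.I * (u ω : ℂ)) ∂P‖ ≤
      η + 2 * P.real {ω | η ≤ |v ω - u ω|} := by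
  have hi : ∀ g : Ω → ℝ, Measurable g → Integrable (fun ω => Complex.exp (Complex.I * (g ω : ℂ))) P := by
    intro g hg
    apply Integrable.of_bound (C := 1)
    · apply Measurable.aestronglyMeasurable
      fun_prop
    · refine ae_of_all _ fun ω => ?_
      rw [mul_comm, Complex.norm_exp_ofReal_mul_I]
  have hS : MeasurableSet {ω | η ≤ |v ω - u ω|} :=
    measurableSet_le measurable_const ((hv.sub hu).abs)
  rw [← integral_sub (hi v hv) (hi u hu)]
  refine (norm_integral_le_integral_norm _).trans ?_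
  have hb : ∀ ω, ‖Complex.exp (Complex.I * (v ω : ℂ)) - Complex.exp (Complex.I * (u ω : ℂ))‖ ≤
      η + 2 * Set.indicator {ω | η ≤ |v ω - u ω|} (fun _ => (1:ℝ)) ω := by
    intro ω
    by_cases h : ω ∈ {ω | η ≤ |v ω - u ω|}
    · rw [Set.indicator_of_mem h]
      refine (norm_sub_le _ _).trans ?_
      rw [mul_comm Complex.I, mul_comm Complex.I, Complex.norm_exp_ofReal_mul_I,
        Complex.norm_exp_ofReal_mul_I]
      linarith
    · rw [Set.indicator_of_notMem h]
      have h1 : |v ω - u ω| < η := not_le.mp h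
      have e : Complex.exp (Complex.I * (v ω : ℂ)) - Complex.exp (Complex.I * (u ω : ℂ)) =
          Complex.exp (Complex.I * (u ω : ℂ)) *
            (Complex.exp (Complex.I * ((v ω - u ω : ℝ) : ℂ)) - 1) := by
        rw [mul_sub, ← Complex.exp_add, mul_one]
        congr 2
        push_cast; ring
      rw [e, norm_mul, mul_comm Complex.I (u ω : ℂ), Complex.norm_exp_ofReal_mul_I, one_mul]
      have h2 := Real.norm_exp_I_mul_ofReal_sub_one_le (x := v ω - u ω)
      rw [Real.norm_eq_abs] at h2
      linarith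
  calc ∫ ω, ‖Complex.exp (Complex.I * (v ω : ℂ)) - Complex.exp (Complex.I * (u ω : ℂ))‖ ∂P
      ≤ ∫ ω, (η + 2 * Set.indicator {ω | η ≤ |v ω - u ω|} (fun _ => (1:ℝ)) ω) ∂P := by
        apply integral_mono_of_nonneg (ae_of_all _ fun ω => norm_nonneg _) _ (ae_of_all _ hb)
        exact (integrable_const η).add (((integrable_const (1:ℝ)).indicator hS).const_mul 2)
    _ = η + 2 * P.real {ω | η ≤ |v ω - u ω|} := by
        rw [integral_add (integrable_const η) (((integrable_const (1:ℝ)).indicator hS).const_mul 2),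
          integral_const_mul, integral_indicator hS]
        simp

end

variable {I : Finset NNReal}

/-- the law of drifted Brownian motion at finitely many times -/
noncomputable def dbm (σ μ : ℝ) (I : Finset NNReal) : Measure (EuclideanSpace ℝ I) :=
  (multivariateGaussian 0 (BrownianReal.covMatrix I)).map
    (fun y => σ • y + WithLp.toLp 2 (fun t : I => μ * (t.1 : ℝ)))

instance dbm_prob (σ μ : ℝ) (I : Finset NNReal) : IsProbabilityMeasure (dbm σ μ I) := by
  unfold dbm
  apply Measure.isProbabilityMeasure_map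
  fun_prop

lemma dbm_charFun (σ μ : ℝ) (I : Finset NNReal) (θ : EuclideanSpace ℝ I) :
    charFun (dbm σ μ I) θ = Complex.exp (((-(σ ^ 2 * ∑ s : I, ∑ t : I, θ s * θ t *
      ((min s.1 t.1 : NNReal) : ℝ)) / 2 : ℝ) : ℂ) +
      Complex.I * ((μ * ∑ t : I, θ t * (t.1 : ℝ) : ℝ) : ℂ)) := by
  unfold dbm
  rw [charFun_apply, integral_map (by fun_prop) (by fun_prop)]
  have e1 : ∀ y : EuclideanSpace ℝ I, Complex.exp ((inner ℝ (σ • y + WithLp.toLp 2
      (fun t : I => μ * (t.1 : ℝ))) θ : ℝ) * Complex.I) =
      Complex.exp ((inner ℝ y (σ • θ) : ℝ) * Complex.I) *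
        Complex.exp (Complex.I * ((μ * ∑ t : I, θ t * (t.1 : ℝ) : ℝ) : ℂ)) := by
    intro y
    rw [← Complex.exp_add]
    congr 1
    rw [inner_add_left, real_inner_smul_left, real_inner_smul_right]
    have e2 : inner ℝ (WithLp.toLp 2 (fun t : I => μ * (t.1 : ℝ))) θ =
        μ * ∑ t : I, θ t * (t.1 : ℝ) := by
      rw [PiLp.inner_apply, Finset.mul_sum]
      apply Finset.sum_congr rfl
      intro t _
      simp
      ring
    rw [e2]
    push_cast
    ring
  simp_rw [e1]
  rw [integral_mul_const, ← charFun_apply, charFun_multivariateGaussian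
    (BrownianReal.posSemidef_covMatrix I), inner_zero_right, ← Complex.exp_add]
  congr 2
  push_cast
  rw [zero_mul, zero_sub]
  rw [neg_div]
  congr 2
  rw [← Complex.ofReal_pow]
  norm_cast
  rw [dotProduct, Finset.mul_sum]
  apply Finset.sum_congr rfl
  intro s _
  rw [Matrix.mulVec, dotProduct, Finset.mul_sum, Finset.mul_sum]
  apply Finset.sum_congr rfl
  intro t _
  rw [BrownianReal.covMatrix_apply]
  simp
  ring

end Pool.Agent.K9h92.BV
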