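import Pool.Agent.K9h92.BV.Fdd

set_option autoImplicit false

/-!
Convergence of the characteristic functions of the centre of mass along the jump chain.
-/

open ENNReal Filter Topology MeasureTheory ProbabilityTheory

namespace Pool.Agent.K9h92.BV

variable {a : ℤ → ℝ}

/-- coefficients of the signs in a linear combination of the values of the walk -/
noncomputable def coef {ι : Type*} [Fintype ι] (ε : ℝ) (θ : ι → ℝ) (m : ι → ℕ) (i : ℕ) : ℝ :=
  -ε * ∑ t, θ t * (if i < m t then 1 else 0)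

lemma sum_ind_lt {m n : ℕ} (h : m ≤ n) : ∑ i ∈ Finset.range n, (if i < m then (1:ℝ) else 0) = m := by
  rw [Finset.sum_boole]
  congr 1
  have : (Finset.range n).filter (fun i => i < m) = Finset.range m := by
    ext i; simp; omega
  rw [this, Finset.card_range]

section

variable {ι : Type*} [Fintype ι]

lemma coef_sum (ε : ℝ) (θ : ι → ℝ) (m : ι → ℕ) {n : ℕ} (hm : ∀ t, m t ≤ n) :
    ∑ i ∈ Finset.range n, coef ε θ m i = -ε * ∑ t, θ t * m t := by
  unfold coef
  rw [← Finset.mul_sum, Finset.sum_comm]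
  congr 1
  apply Finset.sum_congr rfl
  intro t _
  rw [← Finset.mul_sum, sum_ind_lt (hm t)]

lemma coef_sq_sum (ε : ℝ) (θ : ι → ℝ) (m : ι → ℕ) {n : ℕ} (hm : ∀ t, m t ≤ n) :
    ∑ i ∈ Finset.range n, (coef ε θ m i) ^ 2 =
      ε ^ 2 * ∑ s, ∑ t, θ s * θ t * ((min (m s) (m t) : ℕ) : ℝ) := by
  have e : ∀ i, (coef ε θ m i) ^ 2 =
      ∑ s, ∑ t, ε ^ 2 * (θ s * θ t) * (if i < min (m s) (m t) then (1:ℝ) else 0) := by
    intro i
    unfold coef
    rw [mul_pow, neg_sq, sq (∑ t, θ t * _), Finset.sum_mul_sum, Finset.mul_sum]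
    apply Finset.sum_congr rfl; intro s _
    rw [Finset.mul_sum]
    apply Finset.sum_congr rfl; intro t _
    by_cases h1 : i < m s <;> by_cases h2 : i < m t <;> simp [h1, h2]
  rw [Finset.sum_congr rfl (fun i _ => e i), Finset.sum_comm, Finset.mul_sum]
  apply Finset.sum_congr rfl; intro s _
  rw [Finset.sum_comm, Finset.mul_sum]
  apply Finset.sum_congr rfl; intro t _
  rw [← Finset.mul_sum, sum_ind_lt (le_trans (min_le_left _ _) (hm s))]
  ring

lemma coef_abs (ε : ℝ) (hε : 0 ≤ ε) (θ : ι → ℝ) (m : ι → ℕ) (i : ℕ) :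
    |coef ε θ m i| ≤ ε * ∑ t, |θ t| := by
  unfold coef
  rw [abs_mul, abs_neg, abs_of_nonneg hε]
  apply mul_le_mul_of_nonneg_left _ hε
  refine (Finset.abs_sum_le_sum_abs _ _).trans (Finset.sum_le_sum fun t _ => ?_)
  rw [abs_mul]
  have h0 := abs_nonneg (θ t)
  split_ifs <;> simp [h0]

lemma zet_sum (κ ε : ℝ) (θ : ι → ℝ) (m : ι → ℕ) {n : ℕ} (hm : ∀ t, m t ≤ n) :
    ∑ i ∈ Finset.range n, zet κ (coef ε θ m i) =
      ((-(ε ^ 2 * ∑ s, ∑ t, θ s * θ t * ((min (m s) (m t) : ℕ) : ℝ)) / 2 : ℝ) : ℂ) +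
      Complex.I * ((κ * (-ε * ∑ t, θ t * m t) : ℝ) : ℂ) := by
  unfold zet
  rw [Finset.sum_add_distrib, ← Complex.ofReal_sum, ← Finset.mul_sum, ← Complex.ofReal_sum,
    ← Finset.mul_sum, coef_sum ε θ m hm, ← coef_sq_sum ε θ m hm, ← Finset.sum_neg_distrib,
    Finset.sum_div]

lemma prod_phi_close {κ ε : ℝ} (hκ0 : 0 ≤ κ) (hκ1 : κ ≤ ε) (hε1 : ε < 1) (θ : ι → ℝ)
    (m : ι → ℕ) (n : ℕ) (hs : (∑ t, |θ t| + 1) * ε ≤ 1 / 2) :
    ‖∏ i ∈ Finset.range n, phi κ (coef ε θ m i) -
      Complex.exp (∑ i ∈ Finset.range n, zet κ (coef ε θ m i))‖ ≤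
        n * (6 * ((∑ t, |θ t| + 1) * ε) ^ 4) := by
  have hε0 : 0 ≤ ε := hκ0.trans hκ1
  have hL0 : 0 ≤ ∑ t, |θ t| := Finset.sum_nonneg fun t _ => abs_nonneg _
  have hκ2 : κ < 1 := hκ1.trans_lt hε1
  set δ := (∑ t, |θ t| + 1) * ε with hδ
  have hδ0 : 0 ≤ δ := by positivity
  have hκδ : κ ≤ δ := by rw [hδ]; nlinarith
  rw [Complex.exp_sum]
  refine (prod_sub_prod_le _ _ _ (fun i _ => phi_norm hκ0 hκ2 _)
    (fun i _ => zet_norm κ _)).trans ?_
  have hterm : ∀ i ∈ Finset.range n, ‖phi κ (coef ε θ m i) - Complex.exp (zet κ (coef ε θ m i))‖ ≤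
      6 * δ ^ 4 := by
    intro i _
    have hc : |coef ε θ m i| ≤ δ := by
      refine (coef_abs ε hε0 θ m i).trans ?_
      rw [mul_comm, hδ]
      apply mul_le_mul_of_nonneg_right _ hε0
      linarith
    set c := coef ε θ m i with hcdef
    have habs := abs_nonneg c
    have hc1 : |c| ≤ 1 := hc.trans (hs.trans (by norm_num))
    have hc2 : c ^ 2 ≤ δ ^ 2 := by rw [← sq_abs]; exact pow_le_pow_left₀ habs hc 2
    have hκc : κ * |c| ≤ δ * δ := mul_le_mul hκδ hc habs hδ0
    have hsum : c ^ 2 + κ * |c| ≤ 2 * δ ^ 2 := by nlinarith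
    have hsum1 : c ^ 2 + κ * |c| ≤ 1 := by nlinarith
    refine (phi_sub hκ0 hκ2 hc1 hsum1).trans ?_
    have h1 : c ^ 4 ≤ δ ^ 4 := by
      have e : c ^ 4 = |c| ^ 4 := by rw [← abs_pow, abs_of_nonneg (by positivity)]
      rw [e]; exact pow_le_pow_left₀ habs hc 4
    have h2 : κ * |c| ^ 3 ≤ δ * δ ^ 3 := mul_le_mul hκδ (pow_le_pow_left₀ habs hc 3)
      (by positivity) hδ0
    have h3 : (c ^ 2 + κ * |c|) ^ 2 ≤ (2 * δ ^ 2) ^ 2 := pow_le_pow_left₀ (by positivity) hsum 2
    calc _ ≤ δ ^ 4 + δ * δ ^ 3 + (2 * δ ^ 2) ^ 2 := by gcongr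
      _ = 6 * δ ^ 4 := by ring
  calc _ ≤ ∑ i ∈ Finset.range n, 6 * δ ^ 4 := Finset.sum_le_sum hterm
    _ = _ := by rw [Finset.sum_const, Finset.card_range, nsmul_eq_mul]

end

/-- rescaled number of steps -/
noncomputable def stp (a : ℤ → ℝ) (ε : ℝ) (t : ℝ) : ℕ := ⌊s2 a * t / ε ^ 2⌋₊

lemma stp_mono (ha : Jump a) (ε : ℝ) {s t : ℝ} (h : s ≤ t) : stp a ε s ≤ stp a ε t := by
  unfold stp
  apply Nat.floor_mono
  have := s2_pos ha
  gcongr

lemma stp_lim (ha : Jump a) {ε : ℕ → ℝ} (hε : ∀ k, 0 < ε k) (hlim : Tendsto ε atTop (𝓝 0))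
    {t : ℝ} (ht : 0 ≤ t) : Tendsto (fun k => ε k ^ 2 * stp a (ε k) t) atTop (𝓝 (s2 a * t)) := by
  have hs := s2_pos ha
  have h2 : Tendsto (fun k => ε k ^ 2) atTop (𝓝 0) := by
    simpa using hlim.pow 2
  have hlow : Tendsto (fun k => s2 a * t - ε k ^ 2) atTop (𝓝 (s2 a * t)) := by
    simpa using tendsto_const_nhds.sub h2
  refine tendsto_of_tendsto_of_tendsto_of_le_of_le hlow tendsto_const_nhds ?_ ?_
  · intro k
    have hk := hε k
    simp only
    have h1 := Nat.lt_floor_add_one (s2 a * t / ε k ^ 2)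
    rw [div_lt_iff₀ (by positivity)] at h1
    unfold stp
    linarith
  · intro k
    have hk := hε k
    simp only
    have h1 := Nat.floor_le (show 0 ≤ s2 a * t / ε k ^ 2 by positivity)
    rw [le_div_iff₀ (by positivity)] at h1
    unfold stp
    linarith

section

variable {Ω : Type*} [MeasurableSpace Ω] {P : Measure Ω} [IsProbabilityMeasure P]
  {x : ℕ → Ω → Conf}

lemma char_eq (ha : Jump a) (hc0 : cm a = 0) {ε : ℝ} (h0 : 0 ≤ ε) (h1 : ε < 1) (hx : IsJumpChain a ε P x)
    {ι : Type*} [Fintype ι] (θ : ι → ℝ) (m : ι → ℕ) {n : ℕ} (hm : ∀ t, m t ≤ n) :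
    ∫ ω, Complex.exp (Complex.I * ((∑ t, θ t * (-ε * M (x (m t) ω)) : ℝ) : ℂ)) ∂P =
      ∏ i ∈ Finset.range n, phi (kap ε) (coef ε θ m i) := by
  have h := sign_integral ha hc0 h0 h1 hx n (coef ε θ m)
  unfold phi
  rw [← h]
  apply integral_congr_ae
  filter_upwards [M_sum hx.init] with ω hω
  congr 3
  have e : ∀ t, (M (x (m t) ω) : ℝ) = ∑ i ∈ Finset.range n, (if i < m t then (1:ℝ) else 0) *
      xi i (pth x ω) := by
    intro t
    rw [hω (m t)]
    have : Finset.range (m t) = (Finset.range n).filter (fun i => i < m t) := by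
      ext i
      have := hm t
      simp; omega
    rw [this, Finset.sum_filter]
    apply Finset.sum_congr rfl
    intro i _
    split_ifs <;> simp
  have e2 : ∀ t, θ t * (-ε * (M (x (m t) ω) : ℝ)) = ∑ i ∈ Finset.range n,
      (-ε * (θ t * (if i < m t then (1:ℝ) else 0))) * xi i (pth x ω) := by
    intro t
    rw [e t, Finset.mul_sum, Finset.mul_sum]
    apply Finset.sum_congr rfl
    intro i _
    ring
  rw [Finset.sum_congr rfl (fun t _ => e2 t), Finset.sum_comm]
  apply Finset.sum_congr rfl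
  intro i _
  unfold coef
  rw [← Finset.sum_mul, Finset.mul_sum]

end

/-- Convergence of the characteristic functions. -/
lemma char_lim (ha : Jump a) (hc0 : cm a = 0) {ε : ℕ → ℝ} (hε0 : ∀ k, 0 < ε k) (hε1 : ∀ k, ε k < 1)
    (hlim : Tendsto ε atTop (𝓝 0)) {Ω : ℕ → Type*} [∀ k, MeasurableSpace (Ω k)]
    {P : ∀ k, Measure (Ω k)} [∀ k, IsProbabilityMeasure (P k)] {x : ∀ k, ℕ → Ω k → Conf}
    (hx : ∀ k, IsJumpChain a (ε k) (P k) (x k)) (I : Finset NNReal) (θ : EuclideanSpace ℝ I) :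
    Tendsto (fun k => ∫ ω, Complex.exp (Complex.I *
      ((∑ t : I, θ t * (-ε k * M (x k (stp a (ε k) t.1) ω)) : ℝ) : ℂ)) ∂(P k)) atTop
      (𝓝 (charFun (dbm (Real.sqrt (s2 a)) (-(s2 a) / 2) I) θ)) := by
  have hs := s2_pos ha
  set T : ℝ := ((I.sup id : NNReal) : ℝ) with hT
  have hT0 : 0 ≤ T := NNReal.coe_nonneg _
  have htT : ∀ t : I, ((t.1 : NNReal) : ℝ) ≤ T := fun t => by
    rw [hT]; exact_mod_cast Finset.le_sup (f := id) t.2
  set n : ℕ → ℕ := fun k => stp a (ε k) T with hn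
  have hmn : ∀ k (t : I), stp a (ε k) t.1 ≤ n k := fun k t => stp_mono ha (ε k) (htT t)
  have e1 : ∀ k, ∫ ω, Complex.exp (Complex.I *
      ((∑ t : I, θ t * (-ε k * M (x k (stp a (ε k) t.1) ω)) : ℝ) : ℂ)) ∂(P k) =
      ∏ i ∈ Finset.range (n k), phi (kap (ε k)) (coef (ε k) (fun t => θ t)
        (fun t : I => stp a (ε k) t.1) i) := by
    intro k
    exact char_eq ha hc0 (hε0 k).le (hε1 k) (hx k) (fun t => θ t) (fun t : I => stp a (ε k) t.1) (hmn k)
  rw [tendsto_congr e1]
  -- the approximation by exponentials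
  have hclose : Tendsto (fun k => ∏ i ∈ Finset.range (n k), phi (kap (ε k)) (coef (ε k) (fun t => θ t)
        (fun t : I => stp a (ε k) t.1) i) - Complex.exp (∑ i ∈ Finset.range (n k),
        zet (kap (ε k)) (coef (ε k) (fun t => θ t) (fun t : I => stp a (ε k) t.1) i))) atTop (𝓝 0) := by
    rw [tendsto_zero_iff_norm_tendsto_zero]
    set L : ℝ := ∑ t : I, |θ t| + 1 with hL
    have hb : Tendsto (fun k => (ε k ^ 2 * n k) * (6 * L ^ 4 * ε k ^ 2)) atTop (𝓝 0) := by
      have h1 := stp_lim ha hε0 hlim hT0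
      have h2 : Tendsto (fun k => 6 * L ^ 4 * ε k ^ 2) atTop (𝓝 0) := by
        simpa using (hlim.pow 2).const_mul (6 * L ^ 4)
      simpa using h1.mul h2
    have hsmall : ∀ᶠ k in atTop, L * ε k ≤ 1 / 2 := by
      have h1 : Tendsto (fun k => L * ε k) atTop (𝓝 0) := by simpa using hlim.const_mul L
      exact (h1.eventually (gt_mem_nhds (by norm_num : (0:ℝ) < 1 / 2))).mono fun k hk => hk.le
    refine squeeze_zero' (Eventually.of_forall fun k => norm_nonneg _) ?_ hb
    filter_upwards [hsmall] with k hk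
    refine (prod_phi_close (kap_nonneg (hε0 k).le (hε1 k)) (kap_le (hε0 k).le (hε1 k)) (hε1 k)
      (fun t => θ t) (fun t : I => stp a (ε k) t.1) (n k) hk).trans (le_of_eq ?_)
    rw [mul_pow]
    ring
  have hexp : Tendsto (fun k => Complex.exp (∑ i ∈ Finset.range (n k),
        zet (kap (ε k)) (coef (ε k) (fun t => θ t) (fun t : I => stp a (ε k) t.1) i))) atTop
        (𝓝 (charFun (dbm (Real.sqrt (s2 a)) (-(s2 a) / 2) I) θ)) := by
    rw [dbm_charFun]
    apply (Complex.continuous_exp.tendsto _).comp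
    have e2 : ∀ k, ∑ i ∈ Finset.range (n k), zet (kap (ε k)) (coef (ε k) (fun t => θ t)
        (fun t : I => stp a (ε k) t.1) i) =
        ((-(∑ s : I, ∑ t : I, θ s * θ t * (ε k ^ 2 * stp a (ε k) (min s.1 t.1 : NNReal))) / 2 : ℝ) : ℂ)
        + Complex.I * ((-(1 / (2 - ε k)) * ∑ t : I, θ t * (ε k ^ 2 * stp a (ε k) t.1) : ℝ) : ℂ) := by
      intro k
      rw [zet_sum _ _ _ _ (hmn k)]
      congr 2
      · congr 2
        congr 1
        rw [Finset.mul_sum]
        apply Finset.sum_congr rfl; intro s _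
        rw [Finset.mul_sum]
        apply Finset.sum_congr rfl; intro t _
        have : min (stp a (ε k) s.1) (stp a (ε k) t.1) = stp a (ε k) (min s.1 t.1 : NNReal) := by
          rcases le_total s.1 t.1 with h | h
          · rw [min_eq_left h, min_eq_left (stp_mono ha _ (by exact_mod_cast h))]
          · rw [min_eq_right h, min_eq_right (stp_mono ha _ (by exact_mod_cast h))]
        rw [this]
        ring
      · congr 1
        unfold kap
        rw [Finset.mul_sum, Finset.mul_sum, Finset.mul_sum]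
        apply Finset.sum_congr rfl; intro t _
        have : (2 - ε k) ≠ 0 := by linarith [hε1 k]
        field_simp
    rw [tendsto_congr e2]
    apply Tendsto.add
    · apply (Complex.continuous_ofReal.tendsto _).comp
      have e3 : -(Real.sqrt (s2 a) ^ 2 * ∑ s : I, ∑ t : I, θ s * θ t *
          ((min s.1 t.1 : NNReal) : ℝ)) / 2 =
          -(∑ s : I, ∑ t : I, θ s * θ t * (s2 a * ((min s.1 t.1 : NNReal) : ℝ))) / 2 := by
        rw [Real.sq_sqrt hs.le, Finset.mul_sum]
        congr 2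
        apply Finset.sum_congr rfl; intro s _
        rw [Finset.mul_sum]
        apply Finset.sum_congr rfl; intro t _
        ring
      rw [e3]
      apply Filter.Tendsto.div_const
      apply Filter.Tendsto.neg
      apply tendsto_finsetSum
      intro s _
      apply tendsto_finsetSum
      intro t _
      exact (stp_lim ha hε0 hlim (NNReal.coe_nonneg _)).const_mul _
    · apply Filter.Tendsto.const_mul
      apply (Complex.continuous_ofReal.tendsto _).comp
      have e4 : -(s2 a) / 2 * ∑ t : I, θ t * ((t.1 : NNReal) : ℝ) =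
          -(1 / 2) * ∑ t : I, θ t * (s2 a * ((t.1 : NNReal) : ℝ)) := by
        rw [Finset.mul_sum, Finset.mul_sum]
        apply Finset.sum_congr rfl; intro t _
        ring
      rw [e4]
      apply Filter.Tendsto.mul
      · apply Filter.Tendsto.neg
        have h1 : Tendsto (fun k => 2 - ε k) atTop (𝓝 2) := by
          simpa using tendsto_const_nhds.sub hlim
        simpa using h1.inv₀ (by norm_num : (2:ℝ) ≠ 0)
      · apply tendsto_finsetSum
        intro t _
        exact (stp_lim ha hε0 hlim (NNReal.coe_nonneg _)).const_mul _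
  simpa using hclose.add hexp

/-- Lévy's theorem for perturbed sequences. -/
lemma levy_close {I : Finset NNReal} {Ω : ℕ → Type*} [∀ k, MeasurableSpace (Ω k)]
    {P : ∀ k, Measure (Ω k)} [∀ k, IsProbabilityMeasure (P k)]
    {U V : ∀ k, Ω k → I → ℝ} (hU : ∀ k t, Measurable fun ω => U k ω t)
    (hV : ∀ k t, Measurable fun ω => V k ω t)
    {ν : Measure (EuclideanSpace ℝ I)} [IsProbabilityMeasure ν]
    (hlim : ∀ θ : EuclideanSpace ℝ I, Tendsto (fun k => ∫ ω, Complex.exp (Complex.I *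
      ((∑ t : I, θ t * U k ω t : ℝ) : ℂ)) ∂(P k)) atTop (𝓝 (charFun ν θ)))
    (hclose : ∀ (t : I) (η : ℝ), 0 < η →
      Tendsto (fun k => P k {ω | η ≤ |V k ω t - U k ω t|}) atTop (𝓝 0)) :
    TendstoInDistribution V atTop (fun y : EuclideanSpace ℝ I => fun t => y t) P ν := by
  have hVm : ∀ k, Measurable (V k) := fun k => measurable_pi_lambda _ (hV k)
  have hVl : ∀ k, Measurable fun ω => (WithLp.toLp 2 (V k ω) : EuclideanSpace ℝ I) :=
    fun k => by fun_prop
  have key : TendstoInDistribution (fun k ω => (WithLp.toLp 2 (V k ω) : EuclideanSpace ℝ I)) atTop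
      (fun y : EuclideanSpace ℝ I => y) P ν := by
    refine ⟨fun k => (hVl k).aemeasurable, aemeasurable_id, ?_⟩
    refine (ProbabilityMeasure.tendsto_iff_tendsto_charFun (E := EuclideanSpace ℝ I)).mpr ?_
    intro θ
    simp only [ProbabilityMeasure.coe_mk]
    rw [Measure.map_id']
    have e1 : ∀ k, charFun (Measure.map (fun ω => (WithLp.toLp 2 (V k ω) : EuclideanSpace ℝ I)) (P k)) θ
        = ∫ ω, Complex.exp (Complex.I * ((∑ t : I, θ t * V k ω t : ℝ) : ℂ)) ∂(P k) := by
      intro k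
      rw [charFun_apply, integral_map (hVl k).aemeasurable (by fun_prop)]
      congr 1
      funext ω
      rw [mul_comm]
      congr 3
    rw [tendsto_congr e1]
    have hdiff : Tendsto (fun k => ∫ ω, Complex.exp (Complex.I *
        ((∑ t : I, θ t * V k ω t : ℝ) : ℂ)) ∂(P k) - ∫ ω, Complex.exp (Complex.I *
        ((∑ t : I, θ t * U k ω t : ℝ) : ℂ)) ∂(P k)) atTop (𝓝 0) := by
      rw [tendsto_zero_iff_norm_tendsto_zero, Metric.tendsto_atTop]
      intro r hr
      set L : ℝ := ∑ t : I, |θ t| + 1 with hL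
      have hL0 : 0 < L := by
        have : 0 ≤ ∑ t : I, |θ t| := Finset.sum_nonneg fun t _ => abs_nonneg _
        linarith
      have hsum : Tendsto (fun k => ∑ t : I, P k {ω | r / (2 * L) ≤ |V k ω t - U k ω t|})
          atTop (𝓝 0) := by
        have := tendsto_finsetSum (Finset.univ : Finset I)
          (fun t _ => hclose t (r / (2 * L)) (by positivity))
        simpa using this
      have hev := hsum.eventually (gt_mem_nhds (show (0:ℝ≥0∞) < ENNReal.ofReal (r / 4) by
        rw [ENNReal.ofReal_pos]; positivity))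
      rw [eventually_atTop] at hev
      obtain ⟨k0, hk0⟩ := hev
      refine ⟨k0, fun k hk => ?_⟩
      rw [Real.dist_0_eq_abs, abs_of_nonneg (norm_nonneg _)]
      have hc := char_diff (P := P k) (u := fun ω => ∑ t : I, θ t * U k ω t)
        (v := fun ω => ∑ t : I, θ t * V k ω t)
        (Finset.measurable_sum _ fun t _ => (hU k t).const_mul _)
        (Finset.measurable_sum _ fun t _ => (hV k t).const_mul _) (half_pos hr)
      refine hc.trans_lt ?_
      have hsub : {ω | r / 2 ≤ |∑ t : I, θ t * V k ω t - ∑ t : I, θ t * U k ω t|} ⊆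
          ⋃ t ∈ (Finset.univ : Finset I), {ω | r / (2 * L) ≤ |V k ω t - U k ω t|} := by
        intro ω hω
        by_contra hcon
        simp only [Set.mem_iUnion, not_exists] at hcon
        have hcon' : ∀ t : I, |V k ω t - U k ω t| < r / (2 * L) := fun t => by
          have := hcon t (Finset.mem_univ t)
          exact not_le.mp this
        have h1 : |∑ t : I, θ t * V k ω t - ∑ t : I, θ t * U k ω t| ≤
            ∑ t : I, |θ t| * (r / (2 * L)) := by
          rw [← Finset.sum_sub_distrib]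
          refine (Finset.abs_sum_le_sum_abs _ _).trans (Finset.sum_le_sum fun t _ => ?_)
          rw [← mul_sub, abs_mul]
          exact mul_le_mul_of_nonneg_left (hcon' t).le (abs_nonneg _)
        rw [← Finset.sum_mul] at h1
        have h2 : (∑ t : I, |θ t|) * (r / (2 * L)) < r / 2 := by
          have h3 : (∑ t : I, |θ t|) < L := by rw [hL]; linarith
          calc (∑ t : I, |θ t|) * (r / (2 * L)) < L * (r / (2 * L)) := by
                apply mul_lt_mul_of_pos_right h3; positivity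
            _ = r / 2 := by field_simp
        have h4 : r / 2 ≤ |∑ t : I, θ t * V k ω t - ∑ t : I, θ t * U k ω t| := hω
        linarith
      have h5 : P k {ω | r / 2 ≤ |∑ t : I, θ t * V k ω t - ∑ t : I, θ t * U k ω t|} <
          ENNReal.ofReal (r / 4) :=
        ((measure_mono hsub).trans (measure_biUnion_finset_le _ _)).trans_lt (hk0 k hk)
      have h6 : (P k).real {ω | r / 2 ≤ |∑ t : I, θ t * V k ω t - ∑ t : I, θ t * U k ω t|} <
          r / 4 := by
        rw [measureReal_def]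
        have := (ENNReal.toReal_lt_toReal (measure_ne_top _ _) ENNReal.ofReal_ne_top).mpr h5
        rwa [ENNReal.toReal_ofReal (by positivity)] at this
      linarith
    have := hdiff.add (hlim θ)
    simpa using this
  have := key.continuous_comp (g := fun y : EuclideanSpace ℝ I => (fun t : I => y t)) (by fun_prop)
  exact this

end Pool.Agent.K9h92.BV
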