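import Pool.Agent.K9h92.BV.Discont

set_option autoImplicit false

/-!
Kernels with heavy tails: no continuous limit of the end points of the interface.
-/

open ENNReal Filter Topology MeasureTheory ProbabilityTheory

namespace Pool.Agent.K9h92.BV

variable {a : ℤ → ℝ}

lemma heavy_seq {tl : ℕ → ℝ} (h0 : ∀ K, 0 ≤ tl K) (hanti : ∀ K L, K ≤ L → tl L ≤ tl K)
    (h : ¬ Tendsto (fun K : ℕ => (K:ℝ) ^ 3 * tl K) atTop (𝓝 0)) :
    ∃ (ε : ℕ → ℝ) (p : ℕ → ℕ) (θ : ℝ), 0 < θ ∧ (∀ k, 0 < ε k) ∧ (∀ k, ε k < 1) ∧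
      Tendsto ε atTop (𝓝 0) ∧ (∀ k, 2 * (1 / 2) ≤ p k * ε k) ∧
      ∀ k, θ * ε k ^ 2 ≤ p k * tl (2 * p k) := by
  have h1 : ∃ c : ℝ, 0 < c ∧ ∀ N : ℕ, ∃ K ≥ N, c ≤ (K:ℝ) ^ 3 * tl K := by
    by_contra hcon
    push Not at hcon
    apply h
    rw [Metric.tendsto_atTop]
    intro c hc
    obtain ⟨N, hN⟩ := hcon c hc
    refine ⟨N, fun K hK => ?_⟩
    rw [Real.dist_eq, sub_zero, abs_of_nonneg (mul_nonneg (by positivity) (h0 K))]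
    exact hN K hK
  obtain ⟨c, hc, hK⟩ := h1
  choose K hK1 hK2 using fun j : ℕ => hK (j + 4)
  have hp : ∀ j, j + 4 ≤ K j ∧ 2 * (K j / 2) ≤ K j ∧ K j ≤ 3 * (K j / 2) ∧ 2 ≤ K j / 2 ∧
      j ≤ 2 * (K j / 2) := by
    intro j
    have := hK1 j
    refine ⟨this, ?_, ?_, ?_, ?_⟩ <;> omega
  have hp0 : ∀ j, (2:ℝ) ≤ ((K j / 2 : ℕ) : ℝ) := fun j => by exact_mod_cast (hp j).2.2.2.1
  refine ⟨fun j => 1 / ((K j / 2 : ℕ) : ℝ), fun j => K j / 2, c / 27, by positivity, ?_, ?_, ?_, ?_, ?_⟩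
  · intro j
    have := hp0 j
    positivity
  · intro j
    have := hp0 j
    rw [div_lt_one (by linarith)]
    linarith
  · have h2 : Tendsto (fun j => ((K j / 2 : ℕ) : ℝ)) atTop atTop := by
      apply tendsto_natCast_atTop_atTop.comp
      rw [tendsto_atTop_atTop]
      intro b
      refine ⟨2 * b, fun j hj => ?_⟩
      have := (hp j).2.2.2.2
      omega
    refine h2.inv_tendsto_atTop.congr fun j => ?_
    rw [Pi.inv_apply, one_div]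
  · intro j
    have := hp0 j
    have h3 : ((K j / 2 : ℕ) : ℝ) * (1 / ((K j / 2 : ℕ) : ℝ)) = 1 := by field_simp
    simp only
    rw [h3]; norm_num
  · intro j
    simp only
    have hq := hp0 j
    obtain ⟨_, h4, h5, _, _⟩ := hp j
    have h6 : tl (K j) ≤ tl (2 * (K j / 2)) := hanti _ _ h4
    have h7 : (K j : ℝ) ≤ 3 * ((K j / 2 : ℕ) : ℝ) := by exact_mod_cast h5
    have h8 : (K j : ℝ) ^ 3 * tl (K j) ≤ (3 * ((K j / 2 : ℕ) : ℝ)) ^ 3 * tl (2 * (K j / 2)) :=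
      mul_le_mul (pow_le_pow_left₀ (by positivity) h7 3) h6 (h0 _) (by positivity)
    have h9 := (hK2 j).trans h8
    set q : ℝ := ((K j / 2 : ℕ) : ℝ) with hq'
    have hq0 : 0 < q := by linarith
    rw [one_div, inv_pow, ← div_eq_mul_inv, div_le_iff₀ (by positivity), div_le_iff₀ (by norm_num)]
    calc c ≤ (3 * q) ^ 3 * tl (2 * (K j / 2)) := h9
      _ = _ := by ring

/-- Kernels with a heavy left tail. -/
theorem heavy_left (ha : Jump a)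
    (h : ¬ Tendsto (fun K : ℕ => (K:ℝ) ^ 3 * tlL a K) atTop (𝓝 0)) :
    ∃ ε : ℕ → ℝ, (∀ k, 0 < ε k) ∧ (∀ k, ε k < 1) ∧ Tendsto ε atTop (𝓝 0) ∧
      ∀ {Ω : ℕ → Type*} [∀ k, MeasurableSpace (Ω k)] {P : ∀ k, Measure (Ω k)}
        [∀ k, IsProbabilityMeasure (P k)] {X : ∀ k, ℝ → Ω k → Conf},
        (∀ k, IsBiasedVoter a (ε k) (P k) (X k)) → ∀ τ : ℝ, 0 < τ →
        ∃ ρ : ℝ, 0 < ρ ∧ ∀ᶠ k in atTop,
          ENNReal.ofReal ρ ≤ P k {ω | Disc (ε k) τ (1 / 2) lft (X k) ω} := by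
  obtain ⟨ε, p, θ, hθ, h1, h2, h3, h4, h5⟩ :=
    heavy_seq (tlL_nonneg ha) (fun K L hKL => tlL_anti ha hKL) h
  refine ⟨ε, h1, h2, h3, ?_⟩
  intro Ω _ P _ X hX τ hτ
  choose x e hx he1 he2 he3 he4 he5 he6 using hX
  have S : Seqs a ε P X x e := ⟨ha, h1, h2, h3, hx, he1, he2, he3, he4, he5, he6⟩
  exact S.disc (Or.inl ⟨rfl, rfl, rfl⟩) hτ (by norm_num) hθ p (Eventually.of_forall h4)
    (Eventually.of_forall h5)

lemma tlR_nonneg (ha : Jump a) (K : ℕ) : 0 ≤ tlR a K := by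
  rw [tlR_eq]; exact tlL_nonneg ha.refl K

lemma tlR_anti (ha : Jump a) {K L : ℕ} (h : K ≤ L) : tlR a L ≤ tlR a K := by
  rw [tlR_eq, tlR_eq]; exact tlL_anti ha.refl h

/-- Kernels with a heavy right tail. -/
theorem heavy_right (ha : Jump a)
    (h : ¬ Tendsto (fun K : ℕ => (K:ℝ) ^ 3 * tlR a K) atTop (𝓝 0)) :
    ∃ ε : ℕ → ℝ, (∀ k, 0 < ε k) ∧ (∀ k, ε k < 1) ∧ Tendsto ε atTop (𝓝 0) ∧
      ∀ {Ω : ℕ → Type*} [∀ k, MeasurableSpace (Ω k)] {P : ∀ k, Measure (Ω k)}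
        [∀ k, IsProbabilityMeasure (P k)] {X : ∀ k, ℝ → Ω k → Conf},
        (∀ k, IsBiasedVoter a (ε k) (P k) (X k)) → ∀ τ : ℝ, 0 < τ →
        ∃ ρ : ℝ, 0 < ρ ∧ ∀ᶠ k in atTop,
          ENNReal.ofReal ρ ≤ P k {ω | Disc (ε k) τ (1 / 2) rgt (X k) ω} := by
  obtain ⟨ε, p, θ, hθ, h1, h2, h3, h4, h5⟩ :=
    heavy_seq (tlR_nonneg ha) (fun K L hKL => tlR_anti ha hKL) h
  refine ⟨ε, h1, h2, h3, ?_⟩
  intro Ω _ P _ X hX τ hτ
  choose x e hx he1 he2 he3 he4 he5 he6 using hX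
  have S : Seqs a ε P X x e := ⟨ha, h1, h2, h3, hx, he1, he2, he3, he4, he5, he6⟩
  exact S.disc (Or.inr ⟨rfl, rfl, rfl⟩) hτ (by norm_num) hθ p (Eventually.of_forall h4)
    (Eventually.of_forall h5)

end Pool.Agent.K9h92.BV
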