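import Pool.Agent.K9h92.BV.Ends

set_option autoImplicit false

/-!
Large jumps of the end points of the interface for kernels with heavy tails: one-step estimates.
-/

open ENNReal Filter Topology

namespace Pool.Agent.K9h92.BV

variable {a : ℤ → ℝ}

/-- total rate of the steps of length at least `K` to the left -/
noncomputable def tlL (a : ℤ → ℝ) (K : ℕ) : ℝ := ∑' k : ℤ, if k ≤ -(K:ℤ) then a k else 0

lemma tlL_summable (ha : Jump a) (K : ℕ) :
    Summable fun k : ℤ => if k ≤ -(K:ℤ) then a k else 0 := by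
  apply Summable.of_nonneg_of_le (fun k => ?_) (fun k => ?_) ha.summable
  · split_ifs
    · exact ha.nonneg k
    · exact le_rfl
  · split_ifs
    · exact le_rfl
    · exact ha.nonneg k

lemma tlL_nonneg (ha : Jump a) (K : ℕ) : 0 ≤ tlL a K := by
  apply tsum_nonneg
  intro k
  split_ifs
  · exact ha.nonneg k
  · exact le_rfl

lemma tlL_anti (ha : Jump a) {K L : ℕ} (h : K ≤ L) : tlL a L ≤ tlL a K := by
  apply Summable.tsum_le_tsum _ (tlL_summable ha L) (tlL_summable ha K)
  intro k
  by_cases h1 : k ≤ -(L:ℤ)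
  · rw [if_pos h1, if_pos (by omega)]
  · rw [if_neg h1]
    split_ifs
    · exact ha.nonneg k
    · exact le_rfl

/-- indicator of a proposition -/
noncomputable def ii (A : Prop) : ℝ≥0∞ := by
  classical exact if A then 1 else 0

lemma ii_of {A : Prop} (h : A) : ii A = 1 := by unfold ii; simp [h]

lemma ii_not {A : Prop} (h : ¬ A) : ii A = 0 := by unfold ii; simp [h]

lemma ii_mono {A B : Prop} (h : A → B) : ii A ≤ ii B := by
  by_cases hA : A
  · rw [ii_of hA, ii_of (h hA)]
  · rw [ii_not hA]; exact zero_le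

lemma ii_add_not (A : Prop) : ii A + ii (¬ A) = 1 := by
  by_cases hA : A
  · rw [ii_of hA, ii_not (not_not.mpr hA), add_zero]
  · rw [ii_not hA, ii_of hA, zero_add]

lemma ofReal_ql (D : Conf) (y : ℤ) :
    ENNReal.ofReal (ql D y) = ∑' i : ℤ, ENNReal.ofReal (ind D i) * ii (i < y) := by
  unfold ql
  rw [ENNReal.ofReal_tsum_of_nonneg _ (ql_summable D y)]
  · apply tsum_congr
    intro i
    by_cases h : i < y
    · rw [if_pos h, ii_of h, mul_one]
    · rw [if_neg h, ii_not h, mul_zero, ENNReal.ofReal_zero]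
  · intro i
    split_ifs
    · exact ind_nonneg D i
    · exact le_rfl

/-- rate of the creation of ones far to the left -/
lemma far_rate (ha : Jump a) {D : Conf} {κ : ℝ} {p : ℕ} (hf : ¬ farL D κ) (hκ : κ ≤ p) :
    ENNReal.ofReal (rr a D * (p * tlL a (2 * p))) ≤
      ∑' j : ℤ, pk a 0 D j * ii (j + M D ≤ -(p:ℤ)) := by
  have hr := rr_pos ha D
  have hz : ∀ j : ℤ, j + M D ≤ -(p:ℤ) → ind D j = 0 := by
    intro j hj
    unfold ind
    rw [if_neg]
    intro hon
    apply hf
    refine ⟨j, hon, ?_⟩
    have : ((j + M D : ℤ) : ℝ) ≤ ((-(p:ℤ) : ℤ) : ℝ) := by exact_mod_cast hj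
    push_cast at this
    linarith
  have e1 : ∀ j : ℤ, pk a 0 D j * ii (j + M D ≤ -(p:ℤ)) =
      ∑' k : ℤ, ENNReal.ofReal (rr a D * a k) *
        (ENNReal.ofReal (ind D (j - k)) * ii (j + M D ≤ -(p:ℤ))) := by
    intro j
    by_cases h : j + M D ≤ -(p:ℤ)
    · rw [ii_of h, mul_one, pk0_real, urate_eq, hz j h]
      have e2 : (∑' k : ℤ, a k * |ind D (j - k) - 0|) / tot a D =
          ∑' k : ℤ, (rr a D * a k) * ind D (j - k) := by
        rw [← tsum_div_const]
        apply tsum_congr
        intro k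
        rw [sub_zero, abs_of_nonneg (ind_nonneg _ _)]
        unfold rr
        ring
      rw [e2, ENNReal.ofReal_tsum_of_nonneg]
      · apply tsum_congr
        intro k
        rw [mul_one, ENNReal.ofReal_mul (mul_nonneg hr.le (ha.nonneg k))]
      · intro k
        exact mul_nonneg (mul_nonneg hr.le (ha.nonneg k)) (ind_nonneg _ _)
      · have h3 := (sm_abs ha.nonneg ha.summable D j).mul_left (rr a D)
        refine h3.congr fun k => ?_
        rw [hz j h, sub_zero, abs_of_nonneg (ind_nonneg _ _)]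
        ring
    · rw [ii_not h]
      simp
  rw [tsum_congr e1, ENNReal.tsum_comm]
  have e3 : ENNReal.ofReal (rr a D * (p * tlL a (2 * p))) =
      ∑' k : ℤ, ENNReal.ofReal (rr a D * a k) * (ENNReal.ofReal p * ii (k ≤ -((2 * p : ℕ):ℤ))) := by
    unfold tlL
    rw [← mul_assoc, ← tsum_mul_left, ENNReal.ofReal_tsum_of_nonneg]
    · apply tsum_congr
      intro k
      by_cases h : k ≤ -((2 * p : ℕ):ℤ)
      · rw [if_pos h, ii_of h, mul_one, ← ENNReal.ofReal_mul (mul_nonneg hr.le (ha.nonneg k))]
        congr 1; ring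
      · rw [if_neg h, ii_not h]; simp
    · intro k
      apply mul_nonneg (by positivity)
      split_ifs
      · exact ha.nonneg k
      · exact le_rfl
    · exact (tlL_summable ha (2 * p)).mul_left _
  rw [e3]
  apply ENNReal.tsum_le_tsum
  intro k
  rw [ENNReal.tsum_mul_left]
  gcongr
  by_cases h : k ≤ -((2 * p : ℕ):ℤ)
  · rw [ii_of h, mul_one]
    have e4 : ∑' j : ℤ, ENNReal.ofReal (ind D (j - k)) * ii (j + M D ≤ -(p:ℤ)) =
        ENNReal.ofReal (ql D (-p - M D - k + 1)) := by
      rw [ofReal_ql, ← (Equiv.addRight k).tsum_eq]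
      apply tsum_congr
      intro i
      simp only [Equiv.coe_addRight]
      rw [add_sub_cancel_right]
      congr 2
      apply propext
      constructor <;> intro h <;> omega
    rw [e4]
    apply ENNReal.ofReal_le_ofReal
    have h5 := ql_ge D (-p - M D - k + 1)
    refine le_trans ?_ h5
    push_cast at h ⊢
    have h6 : (k:ℝ) ≤ -(2 * (p:ℝ)) := by exact_mod_cast h
    linarith
  · rw [ii_not h, mul_zero]; exact zero_le

lemma pk_ge (ha : Jump a) {ε : ℝ} (h0 : 0 ≤ ε) (h1 : ε < 1) (D : Conf) (j : ℤ) :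
    ENNReal.ofReal (1 - ε) * pk a 0 D j ≤ pk a ε D j := by
  rw [pk_eq_mul ha (ε := ε), mul_comm]
  gcongr
  have h2 := one_sub_qd_pos ha h0 h1 D
  have h3 := qd_nonneg ha D
  rw [le_div_iff₀ h2]
  have h4 := ind_le_one D j
  have h5 : 0 ≤ ε * qd a D := mul_nonneg h0 h3
  nlinarith

/-- the jump of `f` is at least `κ` -/
def Jf (f : Conf → ℤ) (κ : ℝ) (D D' : Conf) : Prop := κ ≤ |(f D : ℝ) - f D'|

lemma jump_left (ha : Jump a) {ε : ℝ} (h0 : 0 ≤ ε) (h1 : ε < 1) {D : Conf} {κ : ℝ} {p : ℕ}
    (hf : ¬ farL D κ) (hκ0 : 0 ≤ κ) (hκ : 2 * κ ≤ p) :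
    ENNReal.ofReal ((1 - ε) * (rr a D * (p * tlL a (2 * p)))) ≤
      ∑' j : ℤ, pk a ε D j * ii (Jf lft κ D (flipAt D j)) := by
  rw [ENNReal.ofReal_mul (by linarith)]
  calc ENNReal.ofReal (1 - ε) * ENNReal.ofReal (rr a D * (p * tlL a (2 * p)))
      ≤ ENNReal.ofReal (1 - ε) * ∑' j : ℤ, pk a 0 D j * ii (j + M D ≤ -(p:ℤ)) := by
        gcongr
        exact far_rate ha hf (by linarith)
    _ ≤ _ := by
        rw [← ENNReal.tsum_mul_left]
        apply ENNReal.tsum_le_tsum
        intro j
        rw [← mul_assoc]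
        apply mul_le_mul' (pk_ge ha h0 h1 D j)
        apply ii_mono
        intro hj
        have hjr : ((j + M D : ℤ) : ℝ) ≤ ((-(p:ℤ) : ℤ) : ℝ) := by exact_mod_cast hj
        push_cast at hjr
        have hoff : ¬ on D j := by
          intro hon
          exact hf ⟨j, hon, by linarith⟩
        have hon' : on (flipAt D j) j := by rw [on_flipAt, if_pos rfl]; exact hoff
        have h2 : (lft (flipAt D j) : ℝ) ≤ j := by exact_mod_cast (lft_spec _).2 j hon'
        have h3 : -κ < (lft D : ℝ) + M D := by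
          by_contra hc
          exact hf ⟨lft D, (lft_spec D).1, not_lt.mp hc⟩
        unfold Jf
        refine le_trans ?_ (le_abs_self _)
        linarith

/-- total rate of the steps of length at least `K` to the right -/
noncomputable def tlR (a : ℤ → ℝ) (K : ℕ) : ℝ := ∑' k : ℤ, if (K:ℤ) ≤ k then a k else 0

lemma tlR_eq (a : ℤ → ℝ) (K : ℕ) : tlR a K = tlL (aR a) K := by
  unfold tlR tlL aR
  rw [← (Equiv.neg ℤ).tsum_eq]
  apply tsum_congr
  intro k
  simp only [Equiv.neg_apply]
  have : ((K:ℤ) ≤ -k) ↔ (k ≤ -(K:ℤ)) := by omega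
  simp only [this]

lemma jump_right (ha : Jump a) {ε : ℝ} (h0 : 0 ≤ ε) (h1 : ε < 1) {D : Conf} {κ : ℝ} {p : ℕ}
    (hf : ¬ farR D κ) (hκ0 : 0 ≤ κ) (hκ : 2 * κ ≤ p) :
    ENNReal.ofReal ((1 - ε) * (rr a D * (p * tlR a (2 * p)))) ≤
      ∑' j : ℤ, pk a ε D j * ii (Jf rgt κ D (flipAt D j)) := by
  rw [ENNReal.ofReal_mul (by linarith)]
  have hf' : ¬ farL (refl D) κ := by rwa [← farR_iff]
  have h := far_rate ha.refl (p := p) hf' (by linarith)
  rw [rr_refl, ← tlR_eq, M_refl, ← (Equiv.subLeft (-1 : ℤ)).tsum_eq] at h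
  calc ENNReal.ofReal (1 - ε) * ENNReal.ofReal (rr a D * (p * tlR a (2 * p)))
      ≤ ENNReal.ofReal (1 - ε) * ∑' j : ℤ, pk a 0 D j * ii ((p:ℤ) ≤ j + 1 + M D) := by
        gcongr
        refine h.trans (le_of_eq ?_)
        apply tsum_congr
        intro j
        simp only [Equiv.subLeft_apply]
        rw [pk_refl, show -1 - (-1 - j) = j by ring]
        congr 2
        apply propext
        constructor <;> intro h <;> omega
    _ ≤ _ := by
        rw [← ENNReal.tsum_mul_left]
        apply ENNReal.tsum_le_tsum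
        intro j
        rw [← mul_assoc]
        apply mul_le_mul' (pk_ge ha h0 h1 D j)
        apply ii_mono
        intro hj
        have hjr : (((p:ℤ) : ℤ) : ℝ) ≤ ((j + 1 + M D : ℤ) : ℝ) := by exact_mod_cast hj
        push_cast at hjr
        have hon : on D j := by
          by_contra hoff
          exact hf ⟨j, hoff, by linarith⟩
        have hoff' : ¬ on (flipAt D j) j := by
          rw [on_flipAt, if_pos rfl]; exact not_not.mpr hon
        have h2 : (j:ℝ) ≤ rgt (flipAt D j) := by exact_mod_cast (rgt_spec _).2 j hoff'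
        have h3 : (rgt D : ℝ) + 1 + M D < κ := by
          by_contra hc
          exact hf ⟨rgt D, (rgt_spec D).1, not_lt.mp hc⟩
        unfold Jf
        rw [abs_sub_comm]
        refine le_trans ?_ (le_abs_self _)
        linarith

/-! ### no jump up to a given time -/

/-- exponential weight of the paths without jumps -/
noncomputable def Phi (J : Conf → Conf → Prop) (g : Conf → ℝ) (k n : ℕ) (w : Pth) : ℝ≥0∞ :=
  ∏ i ∈ Finset.range n, (ii (¬ J (w (k + i)) (w (k + i + 1))) *
    ENNReal.ofReal (Real.exp (g (w (k + i)))))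

lemma Phi_succ (J : Conf → Conf → Prop) (g : Conf → ℝ) (k n : ℕ) (w : Pth) :
    Phi J g k (n + 1) w = (ii (¬ J (w k) (w (k + 1))) * ENNReal.ofReal (Real.exp (g (w k)))) *
      Phi J g (k + 1) n w := by
  unfold Phi
  rw [Finset.prod_range_succ', mul_comm, add_zero]
  congr 1
  apply Finset.prod_congr rfl
  intro i _
  rw [show k + (i + 1) = k + 1 + i by ring]

lemma Phi_mean (ha : Jump a) {κ : ℝ} (h0 : 0 ≤ κ) (h1 : κ < 1) {J : Conf → Conf → Prop}
    {g : Conf → ℝ} (hg0 : ∀ D, 0 ≤ g D)
    (hg : ∀ D, ENNReal.ofReal (g D) ≤ ∑' j, pk a κ D j * ii (J D (flipAt D j))) (k n : ℕ)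
    (w : Pth) : Ex a κ k n (Phi J g k n) w ≤ 1 := by
  induction n generalizing k w with
  | zero => simp [Ex_zero, Phi]
  | succ n ih =>
    have hdep : Dep (k + 1) fun w : Pth =>
        ii (¬ J (w k) (w (k + 1))) * ENNReal.ofReal (Real.exp (g (w k))) := by
      intro w w' hw
      simp only
      rw [hw (k + 1) le_rfl, hw k (Nat.le_succ k)]
    have e1 : Phi J g k (n + 1) = fun w => (ii (¬ J (w k) (w (k + 1))) *
        ENNReal.ofReal (Real.exp (g (w k)))) * Phi J g (k + 1) n w := by
      funext w; exact Phi_succ J g k n w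
    rw [Ex_succ, e1, Ex_mul hdep]
    calc _ ≤ Av a κ k (fun w => ii (¬ J (w k) (w (k + 1))) *
          ENNReal.ofReal (Real.exp (g (w k)))) w := by
          apply Av_mono
          intro w
          calc _ ≤ (ii (¬ J (w k) (w (k + 1))) * ENNReal.ofReal (Real.exp (g (w k)))) * 1 := by
                gcongr
                exact ih (k + 1) w
            _ = _ := mul_one _
      _ = ENNReal.ofReal (Real.exp (g (w k))) *
          ∑' j, pk a κ (w k) j * ii (¬ J (w k) (flipAt (w k) j)) := by
          unfold Av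
          rw [← ENNReal.tsum_mul_left]
          apply tsum_congr
          intro j
          beta_reduce
          rw [Function.update_self, Function.update_of_ne (by omega)]
          ring
      _ ≤ 1 := by
          set D := w k with hD
          set A := ∑' j, pk a κ D j * ii (J D (flipAt D j)) with hA
          set B := ∑' j, pk a κ D j * ii (¬ J D (flipAt D j)) with hB
          have hAB : A + B = 1 := by
            rw [hA, hB, ← ENNReal.tsum_add, ← pk_sum ha h0 h1 D]
            apply tsum_congr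
            intro j
            rw [← mul_add, ii_add_not, mul_one]
          have hAf : A ≠ ⊤ := by
            intro h; rw [h] at hAB; simp at hAB
          have hBf : B ≠ ⊤ := by
            intro h; rw [h] at hAB; simp at hAB
          have h3 : g D ≤ A.toReal := by
            rw [← ENNReal.toReal_ofReal (hg0 D)]
            exact ENNReal.toReal_mono hAf (hg D)
          have h4 : A.toReal + B.toReal = 1 := by
            rw [← ENNReal.toReal_add hAf hBf, hAB, ENNReal.toReal_one]
          have h5 : B = ENNReal.ofReal B.toReal := (ENNReal.ofReal_toReal hBf).symm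
          rw [h5, ← ENNReal.ofReal_mul (Real.exp_pos _).le, ENNReal.ofReal_le_one]
          have h6 := Real.add_one_le_exp (-(g D))
          have h7 : B.toReal ≤ Real.exp (-(g D)) := by linarith
          calc Real.exp (g D) * B.toReal ≤ Real.exp (g D) * Real.exp (-(g D)) := by gcongr
            _ = 1 := by rw [← Real.exp_add, add_neg_cancel, Real.exp_zero]

/-- many chances of a jump without a jump -/
lemma no_jump (ha : Jump a) {κ : ℝ} (h0 : 0 ≤ κ) (h1 : κ < 1) {J : Conf → Conf → Prop}
    {g : Conf → ℝ} (hg0 : ∀ D, 0 ≤ g D)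
    (hg : ∀ D, ENNReal.ofReal (g D) ≤ ∑' j, pk a κ D j * ii (J D (flipAt D j))) (s : ℝ) (k n : ℕ)
    (w : Pth) : Ex a κ k n (one fun w => (∀ i < n, ¬ J (w (k + i)) (w (k + i + 1))) ∧
      s ≤ ∑ i ∈ Finset.range n, g (w (k + i))) w ≤ ENNReal.ofReal (Real.exp (-s)) := by
  calc _ ≤ Ex a κ k n (fun w => ENNReal.ofReal (Real.exp (-s)) * Phi J g k n w) w := by
        apply Ex_mono
        intro w
        by_cases h : (∀ i < n, ¬ J (w (k + i)) (w (k + i + 1))) ∧
            s ≤ ∑ i ∈ Finset.range n, g (w (k + i))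
        · rw [one_of h]
          have e1 : Phi J g k n w =
              ENNReal.ofReal (Real.exp (∑ i ∈ Finset.range n, g (w (k + i)))) := by
            unfold Phi
            rw [Real.exp_sum, ENNReal.ofReal_prod_of_nonneg (fun i _ => (Real.exp_pos _).le)]
            apply Finset.prod_congr rfl
            intro i hi
            rw [ii_of (h.1 i (Finset.mem_range.mp hi)), one_mul]
          rw [e1, ← ENNReal.ofReal_mul (Real.exp_pos _).le, ← Real.exp_add,
            ← ENNReal.ofReal_one]
          apply ENNReal.ofReal_le_ofReal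
          rw [← Real.exp_zero]
          apply Real.exp_le_exp.mpr
          linarith [h.2]
        · rw [one_of_not h]; exact zero_le
    _ = ENNReal.ofReal (Real.exp (-s)) * Ex a κ k n (Phi J g k n) w :=
        congrFun (Ex_smul k n _ _) w
    _ ≤ ENNReal.ofReal (Real.exp (-s)) * 1 := by
        gcongr
        exact Phi_mean ha h0 h1 hg0 hg k n w
    _ = _ := mul_one _

end Pool.Agent.K9h92.BV
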