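import Pool.Agent.K9h92.BV.Tot

set_option autoImplicit false

/-!
Truncated functionals: the number of inversions is `o(n)` in mean.
-/

open Filter Topology

namespace Pool.Agent.K9h92.BV

/-- the truncated weight `min(m, L) / L` on the positive integers -/
noncomputable def psi (L : ℕ) (m : ℤ) : ℝ := if 0 < m then min (m:ℝ) L / L else 0

lemma psi_zero (L : ℕ) : ∀ m ≤ 0, psi L m = 0 := by
  intro m hm; unfold psi; rw [if_neg (by omega)]

lemma psi_nonneg (L : ℕ) (m : ℤ) : 0 ≤ psi L m := by
  unfold psi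
  split_ifs with h
  · have : (0:ℝ) < m := by exact_mod_cast h
    positivity
  · exact le_rfl

lemma psi_le_one (L : ℕ) (m : ℤ) : psi L m ≤ 1 := by
  unfold psi
  split_ifs with h
  · rcases Nat.eq_zero_or_pos L with hL | hL
    · subst hL; simp
    · rw [div_le_one (by exact_mod_cast hL)]; exact min_le_right _ _
  · norm_num

/-- `min(|m|, L) / L` -/
noncomputable def gL (L : ℕ) (m : ℤ) : ℝ := min |(m:ℝ)| L / L

lemma evn_psi (L : ℕ) (m : ℤ) : evn (psi L) m = gL L m := by
  unfold evn psi gL
  rcases lt_trichotomy m 0 with h | h | h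
  · rw [if_neg (by omega), if_pos (by omega), abs_of_neg (by exact_mod_cast h)]; push_cast; ring
  · subst h; simp
  · rw [if_pos h, if_neg (by omega), abs_of_pos (by exact_mod_cast h)]; ring

lemma gL_nonneg (L : ℕ) (m : ℤ) : 0 ≤ gL L m := by unfold gL; positivity

lemma gL_le_one (L : ℕ) (m : ℤ) : gL L m ≤ 1 := by
  unfold gL
  rcases Nat.eq_zero_or_pos L with hL | hL
  · subst hL; simp
  · rw [div_le_one (by exact_mod_cast hL)]; exact min_le_right _ _

lemma min_ineq1 {m K L : ℝ} (hK : 0 ≤ K) (hL : 0 ≤ L) (hKm : K ≤ m) :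
    min |m + K| L + min |m - K| L - 2 * min |m| L ≤ 0 := by
  rw [abs_of_nonneg (by linarith), abs_of_nonneg (by linarith), abs_of_nonneg (by linarith)]
  rcases le_total (m + K) L with h1 | h1 <;> rcases le_total (m - K) L with h2 | h2 <;>
    rcases le_total m L with h3 | h3 <;>
    simp only [min_eq_left h1, min_eq_right h1, min_eq_left h2, min_eq_right h2,
      min_eq_left h3, min_eq_right h3] <;> linarith

lemma min_ineq2 {m K L : ℝ} (hm : 0 ≤ m) (hL : 0 ≤ L) (hKm : m ≤ K) :
    min |m + K| L + min |m - K| L - 2 * min |m| L ≤ 2 * min K L := by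
  have h0 : 0 ≤ min |m| L := le_min (abs_nonneg _) hL
  rw [abs_of_nonneg (by linarith : (0:ℝ) ≤ m + K), abs_sub_comm m K,
    abs_of_nonneg (by linarith : (0:ℝ) ≤ K - m)]
  rcases le_total K L with h | h
  · rw [min_eq_left h]
    have := min_le_left (m + K) L
    have := min_le_left (K - m) L
    linarith
  · rw [min_eq_right h]
    have := min_le_right (m + K) L
    have := min_le_right (K - m) L
    linarith

lemma lin_psi_le (L : ℕ) (k m : ℤ) :
    lin (psi L) k m ≤ pos1 m * (if m < |k| then 2 * gL L k else 0) := by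
  unfold lin
  apply mul_le_mul_of_nonneg_left _ (pos1_nonneg m)
  rw [evn_psi, evn_psi, evn_psi]
  by_cases hm : 0 < m
  swap
  · by_cases hm0 : m = 0
    · subst hm0
      have e : gL L (0 - k) = gL L k := by unfold gL; push_cast; rw [zero_sub, abs_neg]
      rw [zero_add, e]
      have : gL L 0 = 0 := by unfold gL; simp
      rw [this]
      have := gL_nonneg L k
      split_ifs with h
      · linarith
      · have : |k| ≤ 0 := by omega
        have hk : k = 0 := abs_nonpos_iff.mp this
        subst hk; linarith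
    · -- negative `m` are irrelevant; the bound holds by symmetry but is not needed
      have hm' : m < 0 := by omega
      have hlt : m < |k| := lt_of_lt_of_le hm' (abs_nonneg k)
      rw [if_pos hlt]
      have hL : (0:ℝ) ≤ L := by positivity
      unfold gL
      push_cast
      by_cases hk : |(m:ℝ)| ≤ |(k:ℝ)|
      · rw [← add_div, ← mul_div_assoc, ← sub_div, ← mul_div_assoc]
        apply div_le_div_of_nonneg_right _ hL
        have a1 : min |(m:ℝ) + k| (L:ℝ) ≤ min (|(m:ℝ)| + |(k:ℝ)|) L := min_le_min_right _ (abs_add_le _ _)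
        have a2 : min |(m:ℝ) - k| (L:ℝ) ≤ min (|(m:ℝ)| + |(k:ℝ)|) L := min_le_min_right _ (abs_sub _ _)
        have h0 : 0 ≤ min |(m:ℝ)| (L:ℝ) := le_min (abs_nonneg _) hL
        have a3 : min (|(m:ℝ)| + |(k:ℝ)|) (L:ℝ) ≤ min |(m:ℝ)| L + min |(k:ℝ)| L := by
          rcases le_total |(m:ℝ)| L with h1 | h1 <;> rcases le_total |(k:ℝ)| L with h2 | h2 <;>
            simp only [min_eq_left h1, min_eq_right h1, min_eq_left h2, min_eq_right h2]
          · exact min_le_left _ _
          · exact (min_le_right _ _).trans (by linarith [abs_nonneg (m:ℝ)])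
          · exact (min_le_right _ _).trans (by linarith [abs_nonneg (k:ℝ)])
          · exact (min_le_right _ _).trans (by linarith)
        linarith
      · rw [← add_div, ← mul_div_assoc, ← sub_div, ← mul_div_assoc]
        apply div_le_div_of_nonneg_right _ hL
        have a1 : min |(m:ℝ) + k| (L:ℝ) ≤ min (|(m:ℝ)| + |(k:ℝ)|) L := min_le_min_right _ (abs_add_le _ _)
        have a2 : min |(m:ℝ) - k| (L:ℝ) ≤ min (|(m:ℝ)| + |(k:ℝ)|) L := min_le_min_right _ (abs_sub _ _)
        have a3 : min (|(m:ℝ)| + |(k:ℝ)|) (L:ℝ) ≤ min |(m:ℝ)| L + min |(k:ℝ)| L := by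
          rcases le_total |(m:ℝ)| L with h1 | h1 <;> rcases le_total |(k:ℝ)| L with h2 | h2 <;>
            simp only [min_eq_left h1, min_eq_right h1, min_eq_left h2, min_eq_right h2]
          · exact min_le_left _ _
          · exact (min_le_right _ _).trans (by linarith [abs_nonneg (m:ℝ)])
          · exact (min_le_right _ _).trans (by linarith [abs_nonneg (k:ℝ)])
          · exact (min_le_right _ _).trans (by linarith)
        linarith
  · have hm' : (0:ℝ) ≤ m := by exact_mod_cast hm.le
    have hL : (0:ℝ) ≤ L := by positivity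
    have key : ∀ K : ℝ, 0 ≤ K → gL L (m + k) + gL L (m - k) =
        (min |(m:ℝ) + K| L + min |(m:ℝ) - K| L) / L → K = |(k:ℝ)| →
        gL L (m + k) + gL L (m - k) - 2 * gL L m ≤ (if m < |k| then 2 * gL L k else 0) := by
      intro K hK he hKk
      rw [he]
      unfold gL
      rw [← hKk]
      rw [← mul_div_assoc, ← sub_div, ← mul_div_assoc]
      split_ifs with h
      · apply div_le_div_of_nonneg_right _ hL
        apply min_ineq2 hm' hL
        rw [hKk]; exact_mod_cast h.le
      · apply div_nonpos_of_nonpos_of_nonneg _ hL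
        apply min_ineq1 hK hL
        rw [hKk]; exact_mod_cast (not_lt.mp h)
    apply key |(k:ℝ)| (abs_nonneg _) _ rfl
    unfold gL
    push_cast
    rcases le_total 0 (k:ℝ) with h | h
    · rw [abs_of_nonneg h]; ring
    · rw [abs_of_nonpos h, sub_neg_eq_add, ← sub_eq_add_neg]; ring

lemma tsum_pos_range (f : ℤ → ℝ) (K : ℕ) :
    (Summable fun m => pos1 m * (if m < (K:ℤ) then f m else 0)) ∧
    ∑' m, pos1 m * (if m < (K:ℤ) then f m else 0) = ∑ i ∈ Finset.range K, pos1 i * f i := by
  have hz : ∀ m ∉ (Finset.range K).map Nat.castEmbedding,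
      pos1 m * (if m < (K:ℤ) then f m else 0) = 0 := by
    intro m hm
    by_cases h : 0 < m
    · have h2 : ¬ m < K := by
        intro hlt
        apply hm
        rw [Finset.mem_map]
        refine ⟨m.toNat, ?_, ?_⟩
        · rw [Finset.mem_range]; omega
        · simp only [Nat.castEmbedding_apply]; omega
      rw [if_neg h2]; ring
    · rw [pos1_zero m (by omega)]; ring
  refine ⟨summable_of_ne_finset_zero hz, ?_⟩
  rw [tsum_eq_sum hz, Finset.sum_map]
  apply Finset.sum_congr rfl
  intro i hi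
  rw [Finset.mem_range] at hi
  simp only [Nat.castEmbedding_apply]
  rw [if_pos (by omega)]

lemma H_lin_psi_le (L : ℕ) (D : Conf) (k : ℤ) :
    H (lin (psi L) k) D ≤ 2 * gL L k * (k:ℝ)^2 * N D 1 := by
  have hK : (|k| : ℤ) = (k.natAbs : ℤ) := Int.abs_eq_natAbs k
  obtain ⟨s1, t1⟩ := tsum_pos_range (fun m => 2 * gL L k * N D m) k.natAbs
  have hg := gL_nonneg L k
  calc H (lin (psi L) k) D
      ≤ ∑' m, pos1 m * (if m < (k.natAbs:ℤ) then 2 * gL L k * N D m else 0) := by
        apply Summable.tsum_le_tsum _ (H_summable (lin_zero _ k) D) s1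
        intro m
        have := mul_le_mul_of_nonneg_right (lin_psi_le L k m) (N_nonneg D m)
        rw [hK] at this
        refine this.trans (le_of_eq ?_)
        split_ifs <;> ring
    _ = ∑ i ∈ Finset.range k.natAbs, pos1 i * (2 * gL L k * N D i) := t1
    _ ≤ ∑ i ∈ Finset.range k.natAbs, 2 * gL L k * (|(k:ℝ)| * N D 1) := by
        apply Finset.sum_le_sum
        intro i hi
        rw [Finset.mem_range] at hi
        have h1 : N D i ≤ |(k:ℝ)| * N D 1 := by
          refine (N_le_mul D i).trans ?_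
          apply mul_le_mul_of_nonneg_right _ (N_nonneg D 1)
          rw [← Int.cast_abs, ← Nat.cast_natAbs]
          exact_mod_cast hi.le
        have h2 := pos1_le (i:ℤ)
        have h3 := pos1_nonneg (i:ℤ)
        have h4 := N_nonneg D (i:ℤ)
        calc pos1 i * (2 * gL L k * N D i) ≤ 1 * (2 * gL L k * N D i) := by
              apply mul_le_mul_of_nonneg_right h2; positivity
          _ ≤ _ := by rw [one_mul]; apply mul_le_mul_of_nonneg_left h1; positivity
    _ = 2 * gL L k * (k:ℝ)^2 * N D 1 := by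
        rw [Finset.sum_const, Finset.card_range, nsmul_eq_mul, Nat.cast_natAbs, Int.cast_abs,
          ← sq_abs (k:ℝ)]; ring

lemma cst_psi_le (L : ℕ) (k : ℤ) : cst (psi L) k ≤ gL L k * (k:ℝ)^2 := by
  rw [cst_abs, cst_nat (psi_zero L)]
  calc ∑ i ∈ Finset.range k.natAbs, (i:ℝ) * psi L ((k.natAbs:ℤ) - i)
      ≤ ∑ i ∈ Finset.range k.natAbs, |(k:ℝ)| * gL L k := by
        apply Finset.sum_le_sum
        intro i hi
        rw [Finset.mem_range] at hi
        have h1 : (i:ℝ) ≤ |(k:ℝ)| := by
          rw [← Int.cast_abs, ← Nat.cast_natAbs]; exact_mod_cast hi.le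
        have h2 : psi L ((k.natAbs:ℤ) - i) ≤ gL L k := by
          unfold psi gL
          rw [if_pos (by omega)]
          apply div_le_div_of_nonneg_right _ (by positivity)
          apply min_le_min_right
          rw [← Int.cast_abs, Int.abs_eq_natAbs]
          push_cast
          have : (0:ℝ) ≤ i := by positivity
          linarith
        exact mul_le_mul h1 h2 (psi_nonneg _ _) (abs_nonneg _)
    _ = gL L k * (k:ℝ)^2 := by
        rw [Finset.sum_const, Finset.card_range, nsmul_eq_mul, Nat.cast_natAbs, Int.cast_abs,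
          ← sq_abs (k:ℝ)]; ring

variable {a : ℤ → ℝ}

/-- the truncated second moment -/
noncomputable def AL (a : ℤ → ℝ) (L : ℕ) : ℝ := ∑' k : ℤ, gL L k * ((k:ℝ)^2 * a k)

lemma AL_summable (ha : Jump a) (L : ℕ) : Summable fun k : ℤ => gL L k * ((k:ℝ)^2 * a k) := by
  have h0 : ∀ k : ℤ, 0 ≤ (k:ℝ)^2 * a k := fun k => mul_nonneg (sq_nonneg _) (ha.nonneg k)
  apply Summable.of_nonneg_of_le (fun k => mul_nonneg (gL_nonneg L k) (h0 k)) _ ha.second
  intro k
  calc gL L k * ((k:ℝ)^2 * a k) ≤ 1 * ((k:ℝ)^2 * a k) :=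
        mul_le_mul_of_nonneg_right (gL_le_one L k) (h0 k)
    _ = _ := one_mul _

lemma AL_nonneg (ha : Jump a) (L : ℕ) : 0 ≤ AL a L :=
  tsum_nonneg fun k => mul_nonneg (gL_nonneg L k) (mul_nonneg (sq_nonneg _) (ha.nonneg k))

lemma AL_tendsto (ha : Jump a) : Tendsto (AL a) atTop (𝓝 0) := by
  have h0 : ∀ k : ℤ, 0 ≤ (k:ℝ)^2 * a k := fun k => mul_nonneg (sq_nonneg _) (ha.nonneg k)
  have : (0:ℝ) = ∑' k : ℤ, (0:ℝ) := by simp
  rw [this]
  apply tendsto_tsum_of_dominated_convergence (bound := fun k : ℤ => (k:ℝ)^2 * a k) ha.second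
  · intro k
    have h1 : Tendsto (fun L : ℕ => gL L k) atTop (𝓝 0) := by
      have h2 : Tendsto (fun L : ℕ => |(k:ℝ)| / (L:ℝ)) atTop (𝓝 0) :=
        tendsto_const_div_atTop_nhds_zero_nat _
      refine squeeze_zero (fun L => gL_nonneg L k) (fun L => ?_) h2
      unfold gL
      exact div_le_div_of_nonneg_right (min_le_left _ _) (by positivity)
    simpa using h1.mul_const ((k:ℝ)^2 * a k)
  · refine Eventually.of_forall fun L k => ?_
    rw [Real.norm_eq_abs, abs_of_nonneg (mul_nonneg (gL_nonneg L k) (h0 k))]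
    calc gL L k * ((k:ℝ)^2 * a k) ≤ 1 * ((k:ℝ)^2 * a k) :=
          mul_le_mul_of_nonneg_right (gL_le_one L k) (h0 k)
      _ = _ := one_mul _

lemma psi_drift (ha : Jump a) : ∃ C : ℝ, 0 ≤ C ∧ ∀ (L : ℕ) (D : Conf),
    (Summable fun j => vrate a D j * wt (psi L) D j) ∧
    (Summable fun j => urate a D j * |wt (psi L) D j|) ∧
    ∑' j, vrate a D j * wt (psi L) D j ≤ C * AL a L * tot a D := by
  obtain ⟨C1, hC1, hC1'⟩ := N_le_tot ha 1
  have hm := m1_pos ha
  refine ⟨2 * C1 + 1 / m1 a, by positivity, fun L D => ?_⟩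
  have hb : ∀ j : ℤ, |wt (psi L) D j| ≤ (1 * (1 + (bd D : ℝ)) ^ (0 + 1)) * (1 + |(j:ℝ)|) ^ 1 := by
    intro j
    have := wt_bound (psi_zero L) (K := 1) (q := 0) zero_le_one (by
      intro m; rw [abs_of_nonneg (psi_nonneg L m)]; simpa using psi_le_one L m) D j
    simpa using this
  have h := drift_eq ha.nonneg ha.summable D 1 ha.pow1 hb
  refine ⟨h.1, h.2.1, ?_⟩
  rw [h.2.2.2]
  have hN := N_nonneg D 1
  calc ∑' k, a k * ∑' j, (ind D (j - k) - ind D j) * wt (psi L) D j
      ≤ ∑' k : ℤ, (2 * N D 1 + 1) * (gL L k * ((k:ℝ)^2 * a k)) := by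
        apply Summable.tsum_le_tsum _ h.2.2.1 ((AL_summable ha L).mul_left _)
        intro k
        rw [Gk_eq (psi_zero L), Gk_formula (psi_zero L)]
        have h1 := H_lin_psi_le L D k
        have h2 := cst_psi_le L k
        have h3 := ha.nonneg k
        calc a k * (H (lin (psi L) k) D + cst (psi L) k)
            ≤ a k * (2 * gL L k * (k:ℝ)^2 * N D 1 + gL L k * (k:ℝ)^2) :=
              mul_le_mul_of_nonneg_left (add_le_add h1 h2) h3
          _ = _ := by ring
    _ = (2 * N D 1 + 1) * AL a L := by rw [tsum_mul_left]; rfl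
    _ ≤ ((2 * C1 + 1 / m1 a) * tot a D) * AL a L := by
        apply mul_le_mul_of_nonneg_right _ (AL_nonneg ha L)
        have h4 := hC1' D
        have h5 : 1 ≤ 1 / m1 a * tot a D := by
          rw [one_div, inv_mul_eq_div, le_div_iff₀ hm, one_mul]; exact m1_le_tot ha D
        linarith
    _ = _ := by ring

lemma inv_le_H_psi (D : Conf) (L : ℕ) (hL : 0 < L) : inv D ≤ 2 * H (psi L) D + 2 * (L:ℝ)^2 := by
  have hL' : (0:ℝ) < L := by exact_mod_cast hL
  obtain ⟨s1, t1⟩ := tsum_pos_range (fun m => N D m) L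
  have h1 : inv D ≤ H (psi L) D + ∑ i ∈ Finset.range L, pos1 i * N D i := by
    rw [← t1]
    unfold inv H
    rw [← Summable.tsum_add (H_summable (psi_zero L) D) s1]
    apply Summable.tsum_le_tsum _ (H_summable pos1_zero D) ((H_summable (psi_zero L) D).add s1)
    intro m
    have hN := N_nonneg D m
    by_cases hm : 0 < m
    · have hp : pos1 m = 1 := by unfold pos1; rw [if_pos hm]
      by_cases h : m < L
      · rw [hp, if_pos h]
        have := mul_nonneg (psi_nonneg L m) hN
        linarith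
      · have : psi L m = 1 := by
          unfold psi
          rw [if_pos hm, min_eq_right, div_self hL'.ne']
          have : (L:ℤ) ≤ m := by omega
          exact_mod_cast this
        rw [hp, this, if_neg h]; linarith
    · rw [pos1_zero m (by omega), psi_zero L m (by omega)]; linarith
  have hinv := inv_nonneg D
  have h2 : ∀ i ∈ Finset.range L, pos1 i * N D i ≤ inv D / (2 * L) + L := by
    intro i _
    by_cases hi : 0 < (i:ℤ)
    · have hp : pos1 i = 1 := by unfold pos1; rw [if_pos hi]
      rw [hp, one_mul]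
      have h3 := N_sq_le (D := D) hi
      have h4 := N_nonneg D (i:ℤ)
      have e : inv D / (2 * L) + L = (inv D + 2 * L^2) / (2 * L) := by field_simp
      rw [e, le_div_iff₀ (by positivity)]
      nlinarith [sq_nonneg (N D (i:ℤ) - 2 * L)]
    · rw [pos1_zero _ (by omega), zero_mul]
      have := div_nonneg hinv (by positivity : (0:ℝ) ≤ 2 * L)
      linarith
  have h3 : ∑ i ∈ Finset.range L, pos1 i * N D i ≤ inv D / 2 + L^2 := by
    calc ∑ i ∈ Finset.range L, pos1 i * N D i ≤ ∑ i ∈ Finset.range L, (inv D / (2 * L) + L) :=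
          Finset.sum_le_sum h2
      _ = inv D / 2 + L^2 := by
          rw [Finset.sum_const, Finset.card_range, nsmul_eq_mul]
          field_simp
  linarith

end Pool.Agent.K9h92.BV
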