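import Pool.Agent.K9h92.BV.Conf2

set_option autoImplicit false

/-!
Riemann sums on half lines.
-/

open Filter Topology MeasureTheory

namespace Pool.Agent.K9h92.BV

lemma riemann {φ : ℝ → ℝ} (hc : Continuous φ) (hs : HasCompactSupport φ) {r : ℝ} (hr : 0 < r) :
    ∃ ε0 : ℝ, 0 < ε0 ∧ ∀ ε : ℝ, 0 < ε → ε < ε0 → ∀ m : ℤ,
      |ε * ∑' i : ℤ, (if m ≤ i then φ (ε * i) else 0) - ∫ z in Set.Ioi (ε * m), φ z| ≤ r := by
  -- support
  obtain ⟨R, hR0, hR⟩ : ∃ R : ℝ, 0 < R ∧ ∀ z : ℝ, R < |z| → φ z = 0 := by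
    obtain ⟨R, hR⟩ := hs.isCompact.isBounded.subset_ball (0:ℝ)
    refine ⟨max R 1, lt_max_of_lt_right one_pos, fun z hz => ?_⟩
    by_contra hne
    have h1 : z ∈ tsupport φ := subset_tsupport φ hne
    have h2 := hR h1
    rw [Metric.mem_ball, Real.dist_0_eq_abs] at h2
    have := le_max_left R 1
    linarith
  have hu := hs.uniformContinuous_of_continuous hc
  rw [Metric.uniformContinuous_iff] at hu
  set ω : ℝ := r / (2 * R + 5) with hω
  have hω0 : 0 < ω := by positivity
  obtain ⟨δ, hδ0, hδ⟩ := hu ω hω0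
  refine ⟨min δ 1, lt_min hδ0 one_pos, fun ε hε0 hε m => ?_⟩
  have hεδ : ε < δ := hε.trans_le (min_le_left _ _)
  have hε1 : ε < 1 := hε.trans_le (min_le_right _ _)
  set K : ℕ := ⌈(R + 1) / ε⌉₊ with hK
  have hKge : (R + 1) / ε ≤ K := Nat.le_ceil _
  have hKle : (K:ℝ) ≤ (R + 1) / ε + 1 := (Nat.ceil_lt_add_one (by positivity)).le
  have hint : Integrable φ := hc.integrable_of_hasCompactSupport hs
  -- far cells do not matter
  have hfar : ∀ i : ℤ, (K:ℤ) < |i| → ∀ z ∈ Set.Icc (i * ε) ((i + 1) * ε), φ z = 0 := by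
    intro i hi z hz
    apply hR
    have h1 : (K:ℝ) + 1 ≤ |(i:ℝ)| := by
      have : (K:ℤ) + 1 ≤ |i| := by omega
      have : (((K:ℤ) + 1 : ℤ) : ℝ) ≤ ((|i| : ℤ) : ℝ) := by exact_mod_cast this
      push_cast at this
      exact this
    have h2 : R + 1 ≤ K * ε := by
      rw [div_le_iff₀ hε0] at hKge; exact hKge
    rcases le_total 0 i with h | h
    · have h3 : |(i:ℝ)| = i := abs_of_nonneg (by exact_mod_cast h)
      rw [h3] at h1
      have h4 : R < z := by
        have := hz.1
        nlinarith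
      exact h4.trans_le (le_abs_self z)
    · have h3 : |(i:ℝ)| = -i := abs_of_nonpos (by exact_mod_cast h)
      rw [h3] at h1
      have h4 : z < -R := by
        have := hz.2
        nlinarith
      have := neg_le_abs z
      linarith
  -- cells
  set g : ℝ → ℝ := Set.indicator (Set.Ioi (ε * m)) φ with hg
  have hgint : Integrable g := hint.indicator measurableSet_Ioi
  have hcell : ∀ i : ℤ, MeasurableSet (Set.Ioc (i • ε) ((i + 1) • ε)) := fun i => measurableSet_Ioc
  have hsum : HasSum (fun i : ℤ => ∫ z in Set.Ioc (i • ε) ((i + 1) • ε), g z)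
      (∫ z in Set.Ioi (ε * m), φ z) := by
    have h := hasSum_integral_iUnion (f := g) (μ := volume) hcell
      (Set.pairwise_disjoint_Ioc_zsmul ε) (by rw [iUnion_Ioc_zsmul hε0]; exact hgint.integrableOn)
    rw [iUnion_Ioc_zsmul hε0, Measure.restrict_univ, hg, integral_indicator measurableSet_Ioi] at h
    exact h
  have hgi : ∀ i : ℤ, ∫ z in Set.Ioc (i • ε) ((i + 1) • ε), g z =
      if m ≤ i then ∫ z in Set.Ioc (i * ε) ((i + 1) * ε), φ z else 0 := by
    intro i
    have e1 : (i • ε : ℝ) = i * ε := zsmul_eq_mul _ _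
    have e2 : ((i + 1) • ε : ℝ) = (i + 1) * ε := by rw [zsmul_eq_mul]; push_cast; ring
    rw [e1, e2]
    split_ifs with h
    · apply setIntegral_congr_fun measurableSet_Ioc
      intro z hz
      simp only [hg]
      rw [Set.indicator_of_mem]
      rw [Set.mem_Ioi]
      have : (m:ℝ) ≤ i := by exact_mod_cast h
      have := hz.1
      nlinarith
    · rw [setIntegral_congr_fun (g := fun _ => (0:ℝ)) measurableSet_Ioc]
      · simp
      · intro z hz
        simp only [hg]
        rw [Set.indicator_of_notMem]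
        rw [Set.mem_Ioi, not_lt]
        have : (i:ℝ) + 1 ≤ m := by
          have : i + 1 ≤ m := by omega
          exact_mod_cast this
        have := hz.2
        nlinarith
  rw [funext hgi] at hsum
  have hsupp1 : ∀ i ∉ Finset.Icc (-(K:ℤ)) K, (if m ≤ i then φ (ε * i) else 0) = 0 := by
    intro i hi
    rw [Finset.mem_Icc, ← abs_le, not_le] at hi
    split_ifs
    · rw [mul_comm]
      apply hfar i hi
      constructor
      · exact le_rfl
      · nlinarith
    · rfl
  have hsupp2 : ∀ i ∉ Finset.Icc (-(K:ℤ)) K,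
      (if m ≤ i then ∫ z in Set.Ioc (i * ε) ((i + 1) * ε), φ z else 0) = 0 := by
    intro i hi
    rw [Finset.mem_Icc, ← abs_le, not_le] at hi
    split_ifs
    · rw [setIntegral_congr_fun (g := fun _ => (0:ℝ)) measurableSet_Ioc]
      · simp
      · intro z hz
        exact hfar i hi z ⟨hz.1.le, hz.2⟩
    · rfl
  rw [← hsum.tsum_eq, tsum_eq_sum hsupp1, tsum_eq_sum hsupp2, Finset.mul_sum, ← Finset.sum_sub_distrib]
  have hterm : ∀ i ∈ Finset.Icc (-(K:ℤ)) K, |ε * (if m ≤ i then φ (ε * i) else 0) -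
      (if m ≤ i then ∫ z in Set.Ioc (i * ε) ((i + 1) * ε), φ z else 0)| ≤ ε * ω := by
    intro i _
    split_ifs with h
    · have hle : (i:ℝ) * ε ≤ (i + 1) * ε := by nlinarith
      have e1 : ε * φ (ε * i) = ∫ _z in Set.Ioc ((i:ℝ) * ε) ((i + 1) * ε), φ (ε * i) := by
        rw [setIntegral_const, measureReal_def, Real.volume_Ioc,
          ENNReal.toReal_ofReal (by linarith), smul_eq_mul]
        ring
      rw [e1, ← integral_sub (integrable_const _) hint.integrableOn, ← Real.norm_eq_abs]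
      have hb : ∀ z ∈ Set.Ioc ((i:ℝ) * ε) ((i + 1) * ε), ‖φ (ε * i) - φ z‖ ≤ ω := by
        intro z hz
        have : dist (ε * (i:ℝ)) z < δ := by
          rw [Real.dist_eq, abs_sub_comm, abs_of_nonneg]
          · have := hz.2; nlinarith
          · have := hz.1; nlinarith
        have := hδ this
        rw [dist_eq_norm] at this
        exact this.le
      refine (norm_setIntegral_le_of_norm_le_const (by rw [Real.volume_Ioc]; exact ENNReal.ofReal_lt_top) hb).trans ?_
      rw [measureReal_def, Real.volume_Ioc, ENNReal.toReal_ofReal (by linarith)]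
      apply le_of_eq; ring
    · simp; positivity
  refine (Finset.abs_sum_le_sum_abs _ _).trans ((Finset.sum_le_sum hterm).trans ?_)
  rw [Finset.sum_const, Int.card_Icc, nsmul_eq_mul]
  have e3 : (((K:ℤ) + 1 - -(K:ℤ)).toNat : ℝ) = 2 * K + 1 := by
    have : ((K:ℤ) + 1 - -(K:ℤ)).toNat = 2 * K + 1 := by omega
    rw [this]; push_cast; ring
  rw [e3]
  calc (2 * (K:ℝ) + 1) * (ε * ω) ≤ (2 * ((R + 1) / ε + 1) + 1) * (ε * ω) := by gcongr
    _ = (2 * (R + 1) + 3 * ε) * ω := by field_simp; ring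
    _ ≤ (2 * R + 5) * ω := by
        apply mul_le_mul_of_nonneg_right _ hω0.le
        linarith
    _ = r := by rw [hω]; field_simp

/-- The integral of a test function against the rescaled configuration. -/
noncomputable def mass (ε : ℝ) (D : Conf) (φ : ℝ → ℝ) : ℝ :=
  ε * ∑' i : ℤ, (if on D i then φ (ε * i) else 0)

lemma disc_summable (D : Conf) : Summable fun i : ℤ => |ind D i - (if -M D ≤ i then (1:ℝ) else 0)| := by
  apply Summable.congr ((ql_summable D (-M D)).add (pr_summable D (-M D)))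
  intro i
  by_cases h : i < -M D
  · rw [if_pos h, if_neg (by omega), if_neg (by omega), sub_zero, abs_of_nonneg (ind_nonneg _ _)]
    ring
  · rw [if_neg h, if_pos (by omega), if_pos (by omega), abs_of_nonpos (by linarith [ind_le_one D i])]
    unfold co
    ring

lemma cells_summable {φ : ℝ → ℝ} (hs : HasCompactSupport φ) {ε : ℝ} (hε : 0 < ε) (p : ℤ → ℝ) :
    Summable fun i : ℤ => p i * φ (ε * i) := by
  obtain ⟨R, hR⟩ := hs.isCompact.isBounded.subset_ball (0:ℝ)
  set K : ℕ := ⌈R / ε⌉₊ with hK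
  apply summable_of_window (-(K:ℤ)) K
  intro i hi
  have h1 : φ (ε * i) ≠ 0 := right_ne_zero_of_mul hi
  have h2 := hR (subset_tsupport φ h1)
  rw [Metric.mem_ball, Real.dist_0_eq_abs, abs_mul, abs_of_pos hε] at h2
  have h3 : |(i:ℝ)| ≤ K := by
    refine le_trans ?_ (Nat.le_ceil _)
    rw [le_div_iff₀ hε]; nlinarith
  rw [← abs_le]
  have : ((|i| : ℤ) : ℝ) ≤ ((K:ℤ) : ℝ) := by push_cast; exact h3
  exact_mod_cast this

lemma mass_close {φ : ℝ → ℝ} (hs : HasCompactSupport φ) {C : ℝ} (hC : ∀ z, |φ z| ≤ C) {ε : ℝ}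
    (hε : 0 < ε) (D : Conf) :
    |mass ε D φ - ε * ∑' i : ℤ, (if -M D ≤ i then φ (ε * i) else 0)| ≤ C * (ε * disc D) := by
  have hC0 : 0 ≤ C := (abs_nonneg _).trans (hC 0)
  have e1 : ∀ i : ℤ, (if on D i then φ (ε * i) else 0) = ind D i * φ (ε * i) := by
    intro i; unfold ind; split_ifs <;> simp
  have e2 : ∀ i : ℤ, (if -M D ≤ i then φ (ε * i) else 0) =
      (if -M D ≤ i then (1:ℝ) else 0) * φ (ε * i) := by
    intro i; split_ifs <;> simp
  unfold mass
  rw [tsum_congr e1, tsum_congr e2, ← mul_sub,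
    ← Summable.tsum_sub (cells_summable hs hε _) (cells_summable hs hε _), abs_mul, abs_of_pos hε]
  have e3 : ∀ i : ℤ, ind D i * φ (ε * i) - (if -M D ≤ i then (1:ℝ) else 0) * φ (ε * i) =
      (ind D i - (if -M D ≤ i then (1:ℝ) else 0)) * φ (ε * i) := by intro i; ring
  rw [tsum_congr e3]
  have hb : ∀ i : ℤ, ‖(ind D i - (if -M D ≤ i then (1:ℝ) else 0)) * φ (ε * i)‖ ≤
      C * |ind D i - (if -M D ≤ i then (1:ℝ) else 0)| := by
    intro i
    rw [Real.norm_eq_abs, abs_mul, mul_comm]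
    exact mul_le_mul_of_nonneg_right (hC _) (abs_nonneg _)
  have hsum := (disc_summable D).mul_left C
  have h4 := tsum_of_norm_bounded hsum.hasSum hb
  rw [tsum_mul_left, Real.norm_eq_abs] at h4
  calc ε * |∑' i : ℤ, (ind D i - (if -M D ≤ i then (1:ℝ) else 0)) * φ (ε * i)|
      ≤ ε * (C * disc D) := mul_le_mul_of_nonneg_left h4 hε.le
    _ = C * (ε * disc D) := by ring

end Pool.Agent.K9h92.BV
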