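import Pool.Agent.K9h92.BV.Track
import Pool.Agent.K9h92.BV.Riemann

set_option autoImplicit false

/-!
Scaling limit of the centre of mass, sharpness of the interface.
-/

open ENNReal Filter Topology MeasureTheory ProbabilityTheory

namespace Pool.Agent.K9h92.BV

variable {a : ℤ → ℝ}

/-- the position of the sharp interface: minus the rescaled centre of mass -/
noncomputable def Zpos {Ω : Type*} (ε : ℝ) (X : ℝ → Ω → Conf) (t : ℝ) (ω : Ω) : ℝ :=
  -ε * (M (X (t / ε ^ 2) ω) : ℝ)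

/-- the data of a sequence of realisations -/
structure Seqs (a : ℤ → ℝ) (ε : ℕ → ℝ) {Ω : ℕ → Type*} [∀ k, MeasurableSpace (Ω k)]
    (P : ∀ k, Measure (Ω k)) (X : ∀ k, ℝ → Ω k → Conf) (x : ∀ k, ℕ → Ω k → Conf)
    (e : ∀ k, ℕ → Ω k → ℝ) : Prop where
  jump : Jump a
  pos : ∀ k, 0 < ε k
  lt_one : ∀ k, ε k < 1
  lim : Tendsto ε atTop (𝓝 0)
  chain : ∀ k, IsJumpChain a (ε k) (P k) (x k)
  emeas : ∀ k n, Measurable (e k n)
  elaw : ∀ k n, HasLaw (e k n) (expMeasure 1) (P k)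
  eind : ∀ k, iIndepFun (e k) (P k)
  xe : ∀ k, IndepFun (fun ω n => x k n ω) (fun ω n => e k n ω) (P k)
  Xmeas : ∀ k t, Measurable (X k t)
  follow : ∀ k, ∀ᵐ ω ∂(P k), ∀ (n : ℕ) (t : ℝ), jumpTime a (ε k) (x k) (e k) n ω ≤ t →
      t < jumpTime a (ε k) (x k) (e k) (n + 1) ω → X k t ω = x k n ω

section

variable {ε : ℕ → ℝ} {Ω : ℕ → Type*} [∀ k, MeasurableSpace (Ω k)]
    {P : ∀ k, Measure (Ω k)} [∀ k, IsProbabilityMeasure (P k)]
    {X : ∀ k, ℝ → Ω k → Conf} {x : ∀ k, ℕ → Ω k → Conf} {e : ∀ k, ℕ → Ω k → ℝ}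

lemma Seqs.tracks (S : Seqs a ε P X x e) {τ δ : ℝ} (hτ : 0 ≤ τ) (hδ : 0 < δ) :
    Tendsto (fun k => P k {ω | ¬ Tracks a (ε k) τ δ (X k) (x k) ω}) atTop (𝓝 0) :=
  tracks_prob S.jump S.pos S.lt_one S.lim S.chain S.emeas S.elaw S.eind S.xe S.follow hτ hδ

/-- the oscillation of the walk is small -/
lemma Seqs.osc (S : Seqs a ε P X x e) (hc : cm a = 0) {τ η ρ : ℝ} (hτ : 0 ≤ τ) (hη : 0 < η) (hρ : 0 < ρ) :
    ∃ δ : ℝ, 0 < δ ∧ ∀ᶠ k in atTop,
      P k {ω | Osc δ η (nst a τ (ε k)) (pth (x k) ω)} ≤ ENNReal.ofReal ρ := by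
  have ha := S.jump
  obtain ⟨δ, hδ, n0, h⟩ := walk_modulus (B := 2 * (2 * s2 a * τ + 2)) ha hc hη hρ
  refine ⟨δ, hδ, ?_⟩
  filter_upwards [(nst_tendsto ha hτ S.pos S.lim).eventually_ge_atTop n0] with k hk
  have hA : ∀ w w' : Pth, (∀ i ≤ nst a τ (ε k), w i = w' i) →
      (Osc δ η (nst a τ (ε k)) w ↔ Osc δ η (nst a τ (ε k)) w') := fun w w' hw =>
    ⟨Osc_dep δ η _ w w' hw, Osc_dep δ η _ w' w (fun i hi => (hw i hi).symm)⟩
  rw [chain_prob ha (S.pos k).le (S.lt_one k) (S.chain k) _ hA]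
  refine h _ hk _ (S.pos k).le (S.lt_one k) (le_trans ?_ (sq_nst ha hτ (S.pos k) (S.lt_one k)))
  have : 0 ≤ ε k ^ 2 * (nst a τ (ε k) : ℝ) := by positivity
  nlinarith

lemma sqrt_nst (ha : Jump a) {τ ε : ℝ} (hτ : 0 ≤ τ) (hε : 0 < ε) (hε1 : ε < 1) :
    ε * Real.sqrt (nst a τ ε) ≤ Real.sqrt (2 * s2 a * τ + 2) := by
  have hs := s2_pos ha
  have h1 := nst_le ha hτ hε hε1
  have h2 : Real.sqrt (nst a τ ε) ≤ Real.sqrt (2 * s2 a * τ + 2) / ε := by
    calc Real.sqrt (nst a τ ε) ≤ Real.sqrt ((2 * s2 a * τ + 2) / ε ^ 2) := Real.sqrt_le_sqrt h1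
      _ = Real.sqrt (2 * s2 a * τ + 2) / ε := by
          rw [Real.sqrt_div (by positivity), Real.sqrt_sq hε.le]
  calc ε * Real.sqrt (nst a τ ε) ≤ ε * (Real.sqrt (2 * s2 a * τ + 2) / ε) :=
        mul_le_mul_of_nonneg_left h2 hε.le
    _ = _ := by field_simp

/-- Modulus of continuity of the position. -/
lemma Seqs.modulus (S : Seqs a ε P X x e) (hc : cm a = 0) {τ η ρ : ℝ} (hτ : 0 ≤ τ) (hη : 0 < η) (hρ : 0 < ρ) :
    ∃ h : ℝ, 0 < h ∧ ∀ᶠ k in atTop,
      P k {ω | ∃ s t : ℝ, 0 ≤ s ∧ s ≤ τ ∧ 0 ≤ t ∧ t ≤ τ ∧ |s - t| ≤ h ∧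
        η ≤ |Zpos (ε k) (X k) s ω - Zpos (ε k) (X k) t ω|} ≤ ENNReal.ofReal ρ := by
  have ha := S.jump
  have hs := s2_pos ha
  set A2 : ℝ := 2 * s2 a * τ + 2 with hA2
  have hA2' : 0 < A2 := by positivity
  have hsq : 0 < Real.sqrt A2 := Real.sqrt_pos.mpr hA2'
  obtain ⟨δ, hδ, hosc⟩ := S.osc hc (η := η / Real.sqrt A2) hτ (by positivity) (half_pos hρ)
  refine ⟨δ / (4 * s2 a), by positivity, ?_⟩
  have htr := S.tracks hτ (show 0 < δ / 4 by positivity)
  have hev := htr.eventually (gt_mem_nhds (show (0:ℝ≥0∞) < ENNReal.ofReal (ρ / 2) by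
    rw [ENNReal.ofReal_pos]; positivity))
  filter_upwards [hosc, hev] with k hk1 hk2
  have hε := S.pos k
  set n := nst a τ (ε k) with hn
  have hng := nst_ge (a := a) (τ := τ) (ε := ε k)
  rw [← hn] at hng
  have hsub : {ω | ∃ s t : ℝ, 0 ≤ s ∧ s ≤ τ ∧ 0 ≤ t ∧ t ≤ τ ∧ |s - t| ≤ δ / (4 * s2 a) ∧
        η ≤ |Zpos (ε k) (X k) s ω - Zpos (ε k) (X k) t ω|} ⊆
      {ω | ¬ Tracks a (ε k) τ (δ / 4) (X k) (x k) ω} ∪
        {ω | Osc δ (η / Real.sqrt A2) n (pth (x k) ω)} := by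
    rintro ω ⟨s, t, hs0, hsτ, ht0, htτ, hst, hη2⟩
    by_cases hT : Tracks a (ε k) τ (δ / 4) (X k) (x k) ω
    · right
      obtain ⟨m, hm1, hm2, hm3, _⟩ := hT s hs0 hsτ
      obtain ⟨m', hm1', hm2', hm3', _⟩ := hT t ht0 htτ
      refine ⟨m, m', hm1, hm1', ?_, ?_⟩
      · have h1 : |s2 a * (s / ε k ^ 2) - s2 a * (t / ε k ^ 2)| ≤ δ / 4 * n := by
          have e1 : s2 a * (s / ε k ^ 2) - s2 a * (t / ε k ^ 2) = s2 a * (s - t) / ε k ^ 2 := by
            field_simp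
          rw [e1, abs_div, abs_mul, abs_of_pos hs, abs_of_pos (by positivity : 0 < ε k ^ 2)]
          have h2 : 1 / ε k ^ 2 ≤ n := by
            refine le_trans ?_ hng
            apply div_le_div_of_nonneg_right _ (by positivity)
            nlinarith [mul_nonneg hs.le hτ]
          calc s2 a * |s - t| / ε k ^ 2 ≤ s2 a * (δ / (4 * s2 a)) / ε k ^ 2 := by gcongr
            _ = δ / 4 * (1 / ε k ^ 2) := by field_simp
            _ ≤ δ / 4 * n := by gcongr
        have h3 : |(m:ℝ) - m'| ≤ |(m:ℝ) - s2 a * (s / ε k ^ 2)| +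
            |s2 a * (s / ε k ^ 2) - s2 a * (t / ε k ^ 2)| + |(m':ℝ) - s2 a * (t / ε k ^ 2)| := by
          have := abs_sub_le (m:ℝ) (s2 a * (s / ε k ^ 2)) m'
          have := abs_sub_le (s2 a * (s / ε k ^ 2)) (s2 a * (t / ε k ^ 2)) (m':ℝ)
          rw [abs_sub_comm (s2 a * (t / ε k ^ 2)) (m':ℝ)] at this
          linarith
        have : 0 ≤ δ * (n:ℝ) := by positivity
        linarith
      · have h1 : η ≤ ε k * |(M (x k m ω) : ℝ) - M (x k m' ω)| := by
          unfold Zpos at hη2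
          rw [hm2, hm2'] at hη2
          have e1 : -ε k * (M (x k m ω) : ℝ) - -ε k * (M (x k m' ω) : ℝ) =
              -ε k * ((M (x k m ω) : ℝ) - M (x k m' ω)) := by ring
          rw [e1, abs_mul, abs_neg, abs_of_pos hε] at hη2
          exact hη2
        have h2 := sqrt_nst ha hτ hε (S.lt_one k)
        rw [← hn, ← hA2] at h2
        have h3 : η / Real.sqrt A2 * Real.sqrt n * ε k ≤ η := by
          calc η / Real.sqrt A2 * Real.sqrt n * ε k = η / Real.sqrt A2 * (ε k * Real.sqrt n) := by ring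
            _ ≤ η / Real.sqrt A2 * Real.sqrt A2 := by gcongr
            _ = η := by field_simp
        have h4 : η / Real.sqrt A2 * Real.sqrt n * ε k ≤ |(M (x k m ω) : ℝ) - M (x k m' ω)| * ε k := by
          linarith
        exact le_of_mul_le_mul_right h4 hε
    · left; exact hT
  calc P k _ ≤ _ := measure_mono hsub
    _ ≤ ENNReal.ofReal (ρ / 2) + ENNReal.ofReal (ρ / 2) :=
        (measure_union_le _ _).trans (add_le_add hk2.le hk1)
    _ = ENNReal.ofReal ρ := by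
        rw [← ENNReal.ofReal_add (by positivity) (by positivity)]; congr 1; ring

/-- Sharpness of the interface. -/
lemma Seqs.sharp (S : Seqs a ε P X x e) {τ η : ℝ} (hτ : 0 ≤ τ) (hη : 0 < η) :
    Tendsto (fun k => P k {ω | ∃ t : ℝ, 0 ≤ t ∧ t ≤ τ ∧ η ≤ ε k * disc (X k (t / ε k ^ 2) ω)})
      atTop (𝓝 0) := by
  have ha := S.jump
  have hs := s2_pos ha
  set A2 : ℝ := 2 * s2 a * τ + 2 with hA2
  have hA2' : 0 < A2 := by positivity
  refine tendsto_of_tendsto_of_tendsto_of_le_of_le tendsto_const_nhds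
    (S.tracks hτ (show 0 < η ^ 2 / (8 * A2) by positivity)) (fun k => zero_le)
    (fun k => measure_mono ?_)
  rintro ω ⟨t, ht0, htτ, hη2⟩ hT
  obtain ⟨m, hm1, hm2, _, hm4, _⟩ := hT t ht0 htτ
  rw [hm2] at hη2
  have hε := S.pos k
  have h1 := disc_sq_le (x k m ω)
  have h2 := nst_le ha hτ hε (S.lt_one k)
  have h3 : η ^ 2 ≤ (ε k * disc (x k m ω)) ^ 2 := pow_le_pow_left₀ hη.le hη2 2
  have h4 : (ε k * disc (x k m ω)) ^ 2 ≤ ε k ^ 2 * (4 * (η ^ 2 / (8 * A2) * (A2 / ε k ^ 2))) := by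
    rw [mul_pow]
    apply mul_le_mul_of_nonneg_left _ (by positivity)
    refine h1.trans ?_
    apply mul_le_mul_of_nonneg_left _ (by norm_num)
    refine hm4.trans ?_
    apply mul_le_mul_of_nonneg_left _ (by positivity)
    rw [hA2]; exact h2
  have h5 : ε k ^ 2 * (4 * (η ^ 2 / (8 * A2) * (A2 / ε k ^ 2))) = η ^ 2 / 2 := by
    field_simp; norm_num
  have : 0 < η ^ 2 := by positivity
  linarith

/-- Convergence of the rescaled configuration as a measure. -/
lemma Seqs.mass_conv (S : Seqs a ε P X x e) {τ η : ℝ} (hτ : 0 ≤ τ) (hη : 0 < η) {φ : ℝ → ℝ}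
    (hc : Continuous φ) (hs : HasCompactSupport φ) :
    Tendsto (fun k => P k {ω | ∃ t : ℝ, 0 ≤ t ∧ t ≤ τ ∧
      η ≤ |mass (ε k) (X k (t / ε k ^ 2) ω) φ - ∫ z in Set.Ioi (Zpos (ε k) (X k) t ω), φ z|})
      atTop (𝓝 0) := by
  obtain ⟨C0, hC0⟩ := hc.bounded_above_of_compact_support hs
  set C := max C0 1 with hC
  have hCb : ∀ z, |φ z| ≤ C := fun z => (hC0 z).trans (le_max_left _ _)
  have hCpos : 0 < C := lt_max_of_lt_right one_pos
  obtain ⟨ε0, hε0, hR⟩ := riemann hc hs (show 0 < η / 4 by positivity)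
  have hev := S.lim.eventually (gt_mem_nhds hε0)
  refine tendsto_of_tendsto_of_tendsto_of_le_of_le' tendsto_const_nhds
    (S.sharp hτ (show 0 < η / (2 * C) by positivity)) (Eventually.of_forall fun k => zero_le) ?_
  filter_upwards [hev] with k hk
  apply measure_mono
  rintro ω ⟨t, ht0, htτ, hη2⟩
  refine ⟨t, ht0, htτ, ?_⟩
  by_contra hcon
  push Not at hcon
  have h1 := mass_close hs hCb (S.pos k) (X k (t / ε k ^ 2) ω)
  have h2 := hR (ε k) (S.pos k) hk (-M (X k (t / ε k ^ 2) ω))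
  have e1 : Zpos (ε k) (X k) t ω = ε k * ((-M (X k (t / ε k ^ 2) ω) : ℤ) : ℝ) := by
    unfold Zpos; push_cast; ring
  rw [e1] at hη2
  have h3 := abs_sub_le (mass (ε k) (X k (t / ε k ^ 2) ω) φ)
    (ε k * ∑' i : ℤ, (if -M (X k (t / ε k ^ 2) ω) ≤ i then φ (ε k * i) else 0))
    (∫ z in Set.Ioi (ε k * ((-M (X k (t / ε k ^ 2) ω) : ℤ) : ℝ)), φ z)
  have h4 : C * (ε k * disc (X k (t / ε k ^ 2) ω)) < η / 2 := by
    calc C * (ε k * disc (X k (t / ε k ^ 2) ω)) < C * (η / (2 * C)) :=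
          mul_lt_mul_of_pos_left hcon hCpos
      _ = η / 2 := by field_simp
  linarith

lemma Zpos_meas (S : Seqs a ε P X x e) (k : ℕ) (t : ℝ) : Measurable (Zpos (ε k) (X k) t) := by
  have h : Measurable fun D : Conf => (M D : ℝ) := Measurable.of_discrete
  exact (h.comp (S.Xmeas k (t / ε k ^ 2))).const_mul (-ε k)

/-- Convergence of the finite dimensional distributions. -/
lemma Seqs.fdd (S : Seqs a ε P X x e) (hc : cm a = 0) (I : Finset NNReal) :
    TendstoInDistribution (fun k ω => fun t : I => Zpos (ε k) (X k) t.1 ω) atTop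
      (fun y : EuclideanSpace ℝ I => fun t => y t) P (dbm (Real.sqrt (s2 a)) (-(s2 a) / 2) I) := by
  have ha := S.jump
  have hs := s2_pos ha
  have hMm : Measurable fun D : Conf => (M D : ℝ) := Measurable.of_discrete
  apply levy_close (U := fun k ω => fun t : I => -ε k * (M (x k (stp a (ε k) t.1) ω) : ℝ))
  · intro k t
    exact (hMm.comp ((S.chain k).meas _)).const_mul _
  · intro k t
    exact Zpos_meas S k t.1
  · intro θ
    exact char_lim ha hc S.pos S.lt_one S.lim S.chain I θ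
  · intro t η hη
    rw [ENNReal.tendsto_nhds_zero]
    intro ρ hρ
    obtain ⟨ρ', hρ'0, hρ'⟩ : ∃ ρ' : ℝ, 0 < ρ' ∧ ENNReal.ofReal ρ' ≤ ρ := by
      rcases eq_or_ne ρ ⊤ with h | h
      · exact ⟨1, one_pos, by rw [h]; exact le_top⟩
      · exact ⟨ρ.toReal, ENNReal.toReal_pos hρ.ne' h, (ENNReal.ofReal_toReal h).le⟩
    set τ : ℝ := ((t.1 : NNReal) : ℝ) with hτdef
    have hτ : 0 ≤ τ := NNReal.coe_nonneg _
    set A2 : ℝ := 2 * s2 a * τ + 2 with hA2
    have hA2' : 0 < A2 := by positivity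
    have hsq : 0 < Real.sqrt A2 := Real.sqrt_pos.mpr hA2'
    obtain ⟨δ, hδ, hosc⟩ := S.osc hc (η := η / Real.sqrt A2) hτ (by positivity) (half_pos hρ'0)
    have htr := S.tracks hτ (show 0 < δ / 2 by positivity)
    have hev := htr.eventually (gt_mem_nhds (show (0:ℝ≥0∞) < ENNReal.ofReal (ρ' / 2) by
      rw [ENNReal.ofReal_pos]; positivity))
    have hbig : ∀ᶠ k in atTop, 1 ≤ δ / 2 * nst a τ (ε k) := by
      have h3 : Tendsto (fun k => δ / 2 * (nst a τ (ε k) : ℝ)) atTop atTop :=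
        (tendsto_natCast_atTop_atTop.comp (nst_tendsto ha hτ S.pos S.lim)).const_mul_atTop
          (by positivity)
      exact h3.eventually_ge_atTop _
    filter_upwards [hosc, hev, hbig] with k hk1 hk2 hk3
    have hε := S.pos k
    set n := nst a τ (ε k) with hn
    have hng := nst_ge (a := a) (τ := τ) (ε := ε k)
    rw [← hn] at hng
    have hsub : {ω | η ≤ |Zpos (ε k) (X k) t.1 ω - -ε k * (M (x k (stp a (ε k) t.1) ω) : ℝ)|} ⊆
        {ω | ¬ Tracks a (ε k) τ (δ / 2) (X k) (x k) ω} ∪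
          {ω | Osc δ (η / Real.sqrt A2) n (pth (x k) ω)} := by
      intro ω hη2
      by_cases hT : Tracks a (ε k) τ (δ / 2) (X k) (x k) ω
      · right
        obtain ⟨m, hm1, hm2, hm3, _⟩ := hT τ hτ le_rfl
        have hstp : (stp a (ε k) τ : ℝ) ≤ s2 a * (τ / ε k ^ 2) := by
          have := Nat.floor_le (show 0 ≤ s2 a * τ / ε k ^ 2 by positivity)
          unfold stp
          refine this.trans (le_of_eq ?_)
          ring
        have hstp2 : s2 a * (τ / ε k ^ 2) ≤ stp a (ε k) τ + 1 := by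
          have := (Nat.lt_floor_add_one (s2 a * τ / ε k ^ 2)).le
          unfold stp
          refine le_trans (le_of_eq ?_) this
          ring
        refine ⟨m, stp a (ε k) τ, hm1, ?_, ?_, ?_⟩
        · have h1 : s2 a * (τ / ε k ^ 2) ≤ n := by
            refine le_trans ?_ hng
            rw [mul_div_assoc', div_le_div_iff_of_pos_right (by positivity)]
            nlinarith [mul_nonneg hs.le hτ]
          exact_mod_cast hstp.trans h1
        · have h3 := abs_sub_le (m:ℝ) (s2 a * (τ / ε k ^ 2)) (stp a (ε k) τ)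
          have h4 : |s2 a * (τ / ε k ^ 2) - stp a (ε k) τ| ≤ 1 := by
            rw [abs_le]; constructor <;> linarith
          linarith
        · have h1 : η ≤ ε k * |(M (x k m ω) : ℝ) - M (x k (stp a (ε k) τ) ω)| := by
            have hη3 : η ≤ |Zpos (ε k) (X k) t.1 ω - -ε k * (M (x k (stp a (ε k) t.1) ω) : ℝ)| := hη2
            unfold Zpos at hη3
            rw [← hτdef, hm2] at hη3
            have e1 : -ε k * (M (x k m ω) : ℝ) - -ε k * (M (x k (stp a (ε k) τ) ω) : ℝ) =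
                -ε k * ((M (x k m ω) : ℝ) - M (x k (stp a (ε k) τ) ω)) := by ring
            rw [e1, abs_mul, abs_neg, abs_of_pos hε] at hη3
            exact hη3
          have h2 := sqrt_nst ha hτ hε (S.lt_one k)
          rw [← hn, ← hA2] at h2
          have h3 : η / Real.sqrt A2 * Real.sqrt n * ε k ≤ η := by
            calc η / Real.sqrt A2 * Real.sqrt n * ε k = η / Real.sqrt A2 * (ε k * Real.sqrt n) := by ring
              _ ≤ η / Real.sqrt A2 * Real.sqrt A2 := by gcongr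
              _ = η := by field_simp
          have h4 : η / Real.sqrt A2 * Real.sqrt n * ε k ≤
              |(M (x k m ω) : ℝ) - M (x k (stp a (ε k) τ) ω)| * ε k := by
            linarith
          exact le_of_mul_le_mul_right h4 hε
      · left; exact hT
    calc P k _ ≤ _ := measure_mono hsub
      _ ≤ ENNReal.ofReal (ρ' / 2) + ENNReal.ofReal (ρ' / 2) :=
          (measure_union_le _ _).trans (add_le_add hk2.le hk1)
      _ = ENNReal.ofReal ρ' := by
          rw [← ENNReal.ofReal_add (by positivity) (by positivity)]; congr 1; ring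
      _ ≤ ρ := hρ'

end

end Pool.Agent.K9h92.BV
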