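import Pool.Agent.K9h92.BV.Path
import Pool.Agent.K9h92.BV.Level

set_option autoImplicit false

/-!
The law of large numbers for the clock and the bound of the number of inversions, symmetric chain.
-/

open ENNReal Filter Topology

namespace Pool.Agent.K9h92.BV

variable {a : ℤ → ℝ}

/-- the inverse of the total rate -/
noncomputable def rr (a : ℤ → ℝ) (D : Conf) : ℝ := 1 / tot a D

lemma rr_pos (ha : Jump a) (D : Conf) : 0 < rr a D := one_div_pos.mpr (tot_pos ha D)

lemma rr_le (ha : Jump a) (D : Conf) : rr a D ≤ 1 / m1 a :=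
  one_div_le_one_div_of_le (m1_pos ha) (m1_le_tot ha D)

lemma pk0_real (D : Conf) (j : ℤ) :
    pk a 0 D j = ENNReal.ofReal (urate a D j / tot a D) := rfl

lemma step_sum (ha : Jump a) (D : Conf) {w : ℤ → ℝ} (g : ℝ)
    (hs : Summable fun j => vrate a D j * w j) :
    (Summable fun j => urate a D j / tot a D * (g + (1 - 2 * ind D j) * w j)) ∧
    ∑' j, urate a D j / tot a D * (g + (1 - 2 * ind D j) * w j) =
      g + rr a D * ∑' j, vrate a D j * w j := by
  obtain ⟨h1, _, _⟩ := tot_eq ha D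
  have ht := (tot_pos ha D).ne'
  have e : ∀ j, urate a D j / tot a D * (g + (1 - 2 * ind D j) * w j) =
      (g / tot a D) * urate a D j + rr a D * (vrate a D j * w j) := by
    intro j; rw [vrate_eq]; unfold rr; field_simp
  refine ⟨((h1.mul_left _).add (hs.mul_left _)).congr fun j => (e j).symm, ?_⟩
  rw [tsum_congr e, Summable.tsum_add (h1.mul_left _) (hs.mul_left _), tsum_mul_left, tsum_mul_left]
  rw [show ∑' j, urate a D j = tot a D from rfl]
  field_simp

lemma Q_real (ha : Jump a) (G : Conf → ℝ) (hG : ∀ D, 0 ≤ G D) (D : Conf) {w : ℤ → ℝ}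
    (hf : ∀ j, G (flipAt D j) = G D + (1 - 2 * ind D j) * w j)
    (hs : Summable fun j => vrate a D j * w j) :
    Q a 0 (fun D => ENNReal.ofReal (G D)) D =
      ENNReal.ofReal (G D + rr a D * ∑' j, vrate a D j * w j) ∧
    0 ≤ G D + rr a D * ∑' j, vrate a D j * w j := by
  obtain ⟨s, t⟩ := step_sum ha D (G D) hs
  have hp : ∀ j, 0 ≤ urate a D j / tot a D :=
    fun j => div_nonneg (urate_nonneg ha.nonneg D j) (tot_pos ha D).le
  have hn : ∀ j, 0 ≤ urate a D j / tot a D * (G D + (1 - 2 * ind D j) * w j) := by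
    intro j; rw [← hf]; exact mul_nonneg (hp j) (hG _)
  constructor
  · unfold Q
    rw [← t, ENNReal.ofReal_tsum_of_nonneg hn s]
    apply tsum_congr
    intro j
    rw [pk0_real, ← ENNReal.ofReal_mul (hp j), hf]
  · rw [← t]; exact tsum_nonneg hn

lemma Q_abs (ha : Jump a) (G : Conf → ℝ) (D : Conf) {w : ℤ → ℝ} (b : ℝ)
    (hf : ∀ j, G (flipAt D j) = G D + (1 - 2 * ind D j) * w j)
    (hs : Summable fun j => vrate a D j * w j) :
    ENNReal.ofReal |G D + b + rr a D * ∑' j, vrate a D j * w j| ≤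
      ∑' j, pk a 0 D j * ENNReal.ofReal |G (flipAt D j) + b| := by
  obtain ⟨s, t⟩ := step_sum ha D (G D + b) hs
  have hp : ∀ j, 0 ≤ urate a D j / tot a D :=
    fun j => div_nonneg (urate_nonneg ha.nonneg D j) (tot_pos ha D).le
  have e : ∀ j, pk a 0 D j * ENNReal.ofReal |G (flipAt D j) + b| =
      ENNReal.ofReal ‖urate a D j / tot a D * (G D + b + (1 - 2 * ind D j) * w j)‖ := by
    intro j
    rw [pk0_real, ← ENNReal.ofReal_mul (hp j), hf, norm_mul, Real.norm_eq_abs, Real.norm_eq_abs,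
      abs_of_nonneg (hp j)]
    congr 3; ring
  rw [tsum_congr e, ← ENNReal.ofReal_tsum_of_nonneg (fun j => norm_nonneg _) s.norm, ← t]
  apply ENNReal.ofReal_le_ofReal
  rw [← Real.norm_eq_abs]
  exact norm_tsum_le_tsum_norm s.norm

lemma inv_flipAt (D : Conf) (j : ℤ) :
    inv (flipAt D j) = inv D + (1 - 2 * ind D j) * wt pos1 D j := H_flipAt pos1_zero D j

/-- the number of inversions as an extended nonnegative function -/
noncomputable def fI (D : Conf) : ℝ≥0∞ := ENNReal.ofReal (inv D)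

/-- inverse total rate as an extended nonnegative function -/
noncomputable def rE (a : ℤ → ℝ) (D : Conf) : ℝ≥0∞ := ENNReal.ofReal (rr a D)

lemma Q_inv (ha : Jump a) (D : Conf) :
    Q a 0 fI D + ENNReal.ofReal (1/2) = fI D + ENNReal.ofReal (s2 a / 2) * rE a D := by
  obtain ⟨hs, _, hd⟩ := inv_drift ha D
  obtain ⟨h1, h2⟩ := Q_real ha inv inv_nonneg D (inv_flipAt D) hs
  have hσ : 0 ≤ s2 a / 2 := by have := s2_pos ha; positivity
  unfold fI rE
  rw [h1, ← ENNReal.ofReal_add h2 (by norm_num), ← ENNReal.ofReal_mul hσ,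
    ← ENNReal.ofReal_add (inv_nonneg D) (mul_nonneg hσ (rr_pos ha D).le)]
  congr 1
  rw [hd]
  unfold rr
  have := (tot_pos ha D).ne'
  field_simp
  ring

/-- expected clock -/
noncomputable def W (a : ℤ → ℝ) : ℕ → Conf → ℝ≥0∞
  | 0 => fun _ => 0
  | n + 1 => fun D => rE a D + Q a 0 (W a n) D

lemma W_succ (n : ℕ) (D : Conf) : W a (n + 1) D = rE a D + Q a 0 (W a n) D := rfl

lemma W_eq (ha : Jump a) (n : ℕ) (D : Conf) :
    (Q a 0)^[n] fI D + ENNReal.ofReal (n / 2) = fI D + ENNReal.ofReal (s2 a / 2) * W a n D := by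
  induction n generalizing D with
  | zero => simp [W]
  | succ n ih =>
    have e1 : Q a 0 ((Q a 0)^[n] fI + fun _ => ENNReal.ofReal (n / 2)) D =
        Q a 0 (fI + fun D => ENNReal.ofReal (s2 a / 2) * W a n D) D := by
      congr 1
      funext D
      exact ih D
    rw [Q_add, Q_add, Q_smul, Q_const ha le_rfl one_pos] at e1
    simp only [Pi.add_apply] at e1
    rw [Function.iterate_succ', Function.comp, W_succ]
    have e2 : ENNReal.ofReal ((n + 1 : ℕ) / 2) = ENNReal.ofReal (n / 2) + ENNReal.ofReal (1 / 2) := by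
      rw [← ENNReal.ofReal_add (by positivity) (by norm_num)]
      congr 1; push_cast; ring
    rw [e2, ← add_assoc, e1, mul_add, ← add_assoc, ← Q_inv ha D]
    ring

/-- clock along the path, real valued -/
noncomputable def Cr (a : ℤ → ℝ) (k n : ℕ) (w : Pth) : ℝ := ∑ i ∈ Finset.range n, rr a (w (k + i))

lemma Cr_zero (k : ℕ) (w : Pth) : Cr a k 0 w = 0 := by simp [Cr]

lemma Cr_nonneg (ha : Jump a) (k n : ℕ) (w : Pth) : 0 ≤ Cr a k n w :=
  Finset.sum_nonneg fun i _ => (rr_pos ha _).le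

lemma Cr_succ (k n : ℕ) (w : Pth) : Cr a k (n + 1) w = rr a (w k) + Cr a (k + 1) n w := by
  unfold Cr
  rw [Finset.sum_range_succ', add_comm]
  congr 1
  apply Finset.sum_congr rfl
  intro i _
  rw [show k + (i + 1) = k + 1 + i by ring]

lemma Cr_succ' (k n : ℕ) (w : Pth) : Cr a k (n + 1) w = Cr a k n w + rr a (w (k + n)) := by
  unfold Cr
  rw [Finset.sum_range_succ]

lemma Cr_mono (ha : Jump a) (k : ℕ) (w : Pth) : Monotone fun n => Cr a k n w := by
  apply monotone_nat_of_le_succ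
  intro n
  rw [Cr_succ']
  linarith [rr_pos ha (w (k + n))]

lemma Cr_le (ha : Jump a) (k n : ℕ) (w : Pth) : Cr a k n w ≤ n * (1 / m1 a) := by
  unfold Cr
  calc ∑ i ∈ Finset.range n, rr a (w (k + i)) ≤ ∑ i ∈ Finset.range n, (1 / m1 a) :=
        Finset.sum_le_sum fun i _ => rr_le ha _
    _ = n * (1 / m1 a) := by rw [Finset.sum_const, Finset.card_range, nsmul_eq_mul]

lemma Dep_of {β : Type*} {n : ℕ} (u : Pth → β) (f : β → ℝ≥0∞)
    (h : ∀ w w' : Pth, (∀ i ≤ n, w i = w' i) → u w = u w') : Dep n fun w => f (u w) := by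
  intro w w' hw; simp only; rw [h w w' hw]

lemma Cr_dep (k n : ℕ) (w w' : Pth) (h : ∀ i ≤ k + n, w i = w' i) : Cr a k n w = Cr a k n w' := by
  unfold Cr
  apply Finset.sum_congr rfl
  intro i hi
  rw [Finset.mem_range] at hi
  rw [h (k + i) (by omega)]

lemma Ex_Cr (ha : Jump a) (k n : ℕ) (w : Pth) :
    Ex a 0 k n (fun w => ENNReal.ofReal (Cr a k n w)) w = W a n (w k) := by
  induction n generalizing k w with
  | zero => simp [Ex_zero, Cr, W]
  | succ n ih =>
    have e : (fun w => ENNReal.ofReal (Cr a k (n + 1) w)) =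
        (fun w => rE a (w k)) + fun w => ENNReal.ofReal (Cr a (k + 1) n w) := by
      funext w
      rw [Pi.add_apply, Cr_succ, ENNReal.ofReal_add (rr_pos ha _).le (Cr_nonneg ha _ _ _)]
      rfl
    have hd : Dep k fun w => rE a (w k) := fun w w' h => by simp only; rw [h k le_rfl]
    rw [e, Ex_add, Pi.add_apply, Ex_of_dep ha le_rfl one_pos hd, W_succ, Ex_succ]
    congr 1
    have e2 : Ex a 0 (k + 1) n (fun w => ENNReal.ofReal (Cr a (k + 1) n w)) =
        fun w => W a n (w (k + 1)) := by funext w; exact ih (k + 1) w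
    rw [e2]
    unfold Av Q
    apply tsum_congr; intro j; simp

/-- second moment of the clock -/
noncomputable def V (a : ℤ → ℝ) : ℕ → Conf → ℝ≥0∞
  | 0 => fun _ => 0
  | n + 1 => fun D => rE a D ^ 2 + 2 * rE a D * Q a 0 (W a n) D + Q a 0 (V a n) D

lemma V_succ (n : ℕ) (D : Conf) :
    V a (n + 1) D = rE a D ^ 2 + 2 * rE a D * Q a 0 (W a n) D + Q a 0 (V a n) D := rfl

lemma Ex_Cr_sq (ha : Jump a) (k n : ℕ) (w : Pth) :
    Ex a 0 k n (fun w => ENNReal.ofReal (Cr a k n w) ^ 2) w = V a n (w k) := by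
  induction n generalizing k w with
  | zero => simp [Ex_zero, Cr, V]
  | succ n ih =>
    have e : (fun w => ENNReal.ofReal (Cr a k (n + 1) w) ^ 2) =
        ((fun w => rE a (w k) ^ 2) + fun w => (2 * rE a (w k)) * ENNReal.ofReal (Cr a (k + 1) n w))
          + fun w => ENNReal.ofReal (Cr a (k + 1) n w) ^ 2 := by
      funext w
      rw [Pi.add_apply, Pi.add_apply, Cr_succ,
        ENNReal.ofReal_add (rr_pos ha _).le (Cr_nonneg ha _ _ _)]
      unfold rE
      ring
    have hd : Dep k fun w => rE a (w k) ^ 2 := fun w w' h => by simp only; rw [h k le_rfl]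
    have hd2 : Dep k fun w => 2 * rE a (w k) := fun w w' h => by simp only; rw [h k le_rfl]
    rw [e, Ex_add, Ex_add, Pi.add_apply, Pi.add_apply, Ex_of_dep ha le_rfl one_pos hd,
      Ex_mul hd2, V_succ, Ex_succ, Ex_succ]
    have e2 : Ex a 0 (k + 1) n (fun w => ENNReal.ofReal (Cr a (k + 1) n w)) =
        fun w => W a n (w (k + 1)) := by funext w; exact Ex_Cr ha (k + 1) n w
    have e3 : Ex a 0 (k + 1) n (fun w => ENNReal.ofReal (Cr a (k + 1) n w) ^ 2) =
        fun w => V a n (w (k + 1)) := by funext w; exact ih (k + 1) w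
    rw [e2, e3]
    have e4 : Av a 0 k (fun w => W a n (w (k + 1))) w = Q a 0 (W a n) (w k) := by
      unfold Av Q
      apply tsum_congr; intro j; simp
    have e5 : Av a 0 k (fun w => V a n (w (k + 1))) w = Q a 0 (V a n) (w k) := by
      unfold Av Q
      apply tsum_congr; intro j; simp
    beta_reduce
    rw [e4, e5]

lemma Q_sum (s : Finset ℕ) (g : ℕ → Conf → ℝ≥0∞) (D : Conf) :
    Q a 0 (fun D => ∑ m ∈ s, g m D) D = ∑ m ∈ s, Q a 0 (g m) D := by
  unfold Q
  have : ∀ j, pk a 0 D j * ∑ m ∈ s, g m (flipAt D j) = ∑ m ∈ s, pk a 0 D j * g m (flipAt D j) :=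
    fun j => Finset.mul_sum _ _ _
  rw [tsum_congr this]
  exact Summable.tsum_finsetSum (fun i _ => ENNReal.summable)

lemma V_bound (ha : Jump a) (n : ℕ) (D : Conf) :
    ENNReal.ofReal (s2 a / 2) * V a n D ≤
      n * (ENNReal.ofReal (s2 a / 2) * ENNReal.ofReal (1 / m1 a) ^ 2) +
      n * (2 * ENNReal.ofReal (1 / m1 a) * (Q a 0)^[n] fI D) +
      ∑ m ∈ Finset.range n, W a m D := by
  induction n generalizing D with
  | zero => simp [V]
  | succ n ih =>
    set σ := ENNReal.ofReal (s2 a / 2) with hσ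
    set c := ENNReal.ofReal (1 / m1 a) with hc
    have hr : rE a D ≤ c := ENNReal.ofReal_le_ofReal (rr_le ha D)
    have hQW : σ * Q a 0 (W a n) D ≤ (Q a 0)^[n + 1] fI D + ENNReal.ofReal (n / 2) := by
      have e1 : Q a 0 ((Q a 0)^[n] fI + fun _ => ENNReal.ofReal (n / 2)) D =
          Q a 0 (fI + fun D => σ * W a n D) D := by
        congr 1
        funext D
        exact W_eq ha n D
      rw [Q_add, Q_add, Q_smul, Q_const ha le_rfl one_pos] at e1
      simp only [Pi.add_apply] at e1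
      rw [Function.iterate_succ', Function.comp, e1]
      exact le_add_self
    have hVQ : σ * Q a 0 (V a n) D ≤ n * (σ * c ^ 2) + n * (2 * c * (Q a 0)^[n + 1] fI D) +
        ∑ m ∈ Finset.range n, Q a 0 (W a m) D := by
      have e1 : σ * Q a 0 (V a n) D = Q a 0 (fun D => σ * V a n D) D := by rw [Q_smul]
      rw [e1]
      refine (Q_mono ih D).trans (le_of_eq ?_)
      have e2 : (fun D => n * (σ * c ^ 2) + n * (2 * c * (Q a 0)^[n] fI D) +
          ∑ m ∈ Finset.range n, W a m D) = ((fun _ => n * (σ * c ^ 2)) + fun D => (n * (2 * c)) *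
          (Q a 0)^[n] fI D) + fun D => ∑ m ∈ Finset.range n, W a m D := by
        funext D; simp only [Pi.add_apply]; ring
      rw [e2, Q_add, Q_add, Q_const ha le_rfl one_pos, Q_smul (n * (2 * c))]
      simp only [Pi.add_apply]
      rw [Q_sum, Function.iterate_succ', Function.comp]
      ring
    have hW : ∑ m ∈ Finset.range (n + 1), W a m D =
        n * rE a D + ∑ m ∈ Finset.range n, Q a 0 (W a m) D := by
      rw [Finset.sum_range_succ']
      have : ∀ m ∈ Finset.range n, W a (m + 1) D = rE a D + Q a 0 (W a m) D := fun m _ => rfl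
      rw [Finset.sum_congr rfl this, Finset.sum_add_distrib, Finset.sum_const, Finset.card_range,
        nsmul_eq_mul]
      simp [W]
    have hn2 : (2:ℝ≥0∞) * ENNReal.ofReal (n / 2) = n := by
      rw [show (2:ℝ≥0∞) = ENNReal.ofReal 2 by simp, ← ENNReal.ofReal_mul (by norm_num),
        show (2:ℝ) * (n / 2) = n by ring, ENNReal.ofReal_natCast]
    rw [V_succ, hW]
    calc σ * (rE a D ^ 2 + 2 * rE a D * Q a 0 (W a n) D + Q a 0 (V a n) D)
        = σ * rE a D ^ 2 + 2 * rE a D * (σ * Q a 0 (W a n) D) + σ * Q a 0 (V a n) D := by ring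
      _ ≤ σ * c ^ 2 + 2 * rE a D * ((Q a 0)^[n + 1] fI D + ENNReal.ofReal (n / 2)) +
          (n * (σ * c ^ 2) + n * (2 * c * (Q a 0)^[n + 1] fI D) +
        ∑ m ∈ Finset.range n, Q a 0 (W a m) D) := by gcongr
      _ = σ * c ^ 2 + (2 * rE a D * (Q a 0)^[n + 1] fI D + rE a D * (2 * ENNReal.ofReal (n / 2))) +
          (n * (σ * c ^ 2) + n * (2 * c * (Q a 0)^[n + 1] fI D) +
        ∑ m ∈ Finset.range n, Q a 0 (W a m) D) := by ring
      _ ≤ σ * c ^ 2 + (2 * c * (Q a 0)^[n + 1] fI D + rE a D * n) +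
          (n * (σ * c ^ 2) + n * (2 * c * (Q a 0)^[n + 1] fI D) +
        ∑ m ∈ Finset.range n, Q a 0 (W a m) D) := by
          rw [hn2]; gcongr
      _ = _ := by push_cast; ring

/-- expected number of inversions after `n` steps of the symmetric chain -/
noncomputable def Fn (a : ℤ → ℝ) (n : ℕ) : ℝ≥0∞ := (Q a 0)^[n] fI ∅

lemma Fn_bound (ha : Jump a) : ∃ C : ℝ, 0 ≤ C ∧ ∀ L n : ℕ, 0 < L →
    Fn a n ≤ ENNReal.ofReal (C * AL a L * n + 2 * (L:ℝ) ^ 2) := by
  obtain ⟨C, hC, hC'⟩ := psi_drift ha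
  refine ⟨2 * C, by positivity, fun L n hL => ?_⟩
  have hA := AL_nonneg ha L
  have h1 : ∀ D, Q a 0 (fun D => ENNReal.ofReal (H (psi L) D)) D ≤
      ENNReal.ofReal (H (psi L) D) + ENNReal.ofReal (C * AL a L) := by
    intro D
    obtain ⟨h1, _, h3⟩ := hC' L D
    have hH := H_nonneg (psi_nonneg L) D
    obtain ⟨h4, _⟩ := Q_real ha (H (psi L)) (fun D => H_nonneg (psi_nonneg L) D) D
      (H_flipAt (psi_zero L) D) h1
    rw [h4, ← ENNReal.ofReal_add hH (by positivity)]
    apply ENNReal.ofReal_le_ofReal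
    have h5 : rr a D * ∑' j, vrate a D j * wt (psi L) D j ≤ rr a D * (C * AL a L * tot a D) :=
      mul_le_mul_of_nonneg_left h3 (rr_pos ha D).le
    have h6 : rr a D * (C * AL a L * tot a D) = C * AL a L := by
      unfold rr
      have := (tot_pos ha D).ne'
      field_simp
    linarith
  have h2 : ∀ n D, (Q a 0)^[n] (fun D => ENNReal.ofReal (H (psi L) D)) D ≤
      ENNReal.ofReal (H (psi L) D) + n * ENNReal.ofReal (C * AL a L) := by
    intro n
    induction n with
    | zero => intro D; simp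
    | succ n ih =>
      intro D
      rw [Function.iterate_succ', Function.comp]
      refine (Q_mono ih D).trans ?_
      have e := congrFun (Q_add (a := a) (κ := 0) (fun D => ENNReal.ofReal (H (psi L) D))
        (fun _ => n * ENNReal.ofReal (C * AL a L))) D
      simp only [Pi.add_apply] at e
      have e' : Q a 0 (fun D => ENNReal.ofReal (H (psi L) D) + n * ENNReal.ofReal (C * AL a L)) D
          = Q a 0 (fun D => ENNReal.ofReal (H (psi L) D)) D + n * ENNReal.ofReal (C * AL a L) := by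
        rw [Q_const ha le_rfl one_pos] at e
        exact e
      rw [e']
      calc _ ≤ (ENNReal.ofReal (H (psi L) D) + ENNReal.ofReal (C * AL a L)) +
            n * ENNReal.ofReal (C * AL a L) := by gcongr; exact h1 D
        _ = _ := by push_cast; ring
  have h3 : ∀ D, fI D ≤ 2 * ENNReal.ofReal (H (psi L) D) + ENNReal.ofReal (2 * (L:ℝ)^2) := by
    intro D
    unfold fI
    rw [show (2:ℝ≥0∞) = ENNReal.ofReal 2 by simp, ← ENNReal.ofReal_mul (by norm_num),
      ← ENNReal.ofReal_add (by have := H_nonneg (psi_nonneg L) D; positivity) (by positivity)]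
    exact ENNReal.ofReal_le_ofReal (inv_le_H_psi D L hL)
  unfold Fn
  refine (Qn_mono h3 n ∅).trans ?_
  have e := congrFun (Qn_add (a := a) (κ := 0) (fun D => 2 * ENNReal.ofReal (H (psi L) D))
    (fun _ => ENNReal.ofReal (2 * (L:ℝ)^2)) n) ∅
  simp only [Pi.add_apply] at e
  have e' : (Q a 0)^[n] (fun D => 2 * ENNReal.ofReal (H (psi L) D) + ENNReal.ofReal (2 * (L:ℝ)^2)) ∅
      = 2 * (Q a 0)^[n] (fun D => ENNReal.ofReal (H (psi L) D)) ∅ + ENNReal.ofReal (2 * (L:ℝ)^2) := by
    rw [Qn_const ha le_rfl one_pos, Qn_smul] at e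
    exact e
  rw [e']
  have h4 := h2 n ∅
  rw [H_empty (psi_zero L), ENNReal.ofReal_zero, zero_add] at h4
  calc _ ≤ 2 * (n * ENNReal.ofReal (C * AL a L)) + ENNReal.ofReal (2 * (L:ℝ)^2) := by gcongr
    _ = ENNReal.ofReal (2 * C * AL a L * n + 2 * (L:ℝ) ^ 2) := by
      rw [show (2:ℝ≥0∞) = ENNReal.ofReal 2 by simp, ← ENNReal.ofReal_natCast,
        ← ENNReal.ofReal_mul (by positivity), ← ENNReal.ofReal_mul (by norm_num),
        ← ENNReal.ofReal_add (by positivity) (by positivity)]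
      congr 1; ring

lemma Fn_finite (ha : Jump a) (n : ℕ) : Fn a n ≠ ∞ := by
  obtain ⟨C, _, hC⟩ := Fn_bound ha
  exact ne_top_of_le_ne_top ENNReal.ofReal_ne_top (hC 1 n one_pos)

lemma Fn_small (ha : Jump a) {η : ℝ} (hη : 0 < η) :
    ∃ K : ℝ, 0 ≤ K ∧ ∀ n : ℕ, (Fn a n).toReal ≤ η * n + K := by
  obtain ⟨C, hC0, hC⟩ := Fn_bound ha
  have hlim : Tendsto (fun L => C * AL a L) atTop (𝓝 0) := by
    simpa using (AL_tendsto ha).const_mul C
  obtain ⟨L, hL1, hL2⟩ := ((hlim.eventually (gt_mem_nhds hη)).and (eventually_gt_atTop 0)).exists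
  refine ⟨2 * (L:ℝ)^2, by positivity, fun n => ?_⟩
  have hA := AL_nonneg ha L
  have h1 := ENNReal.toReal_mono ENNReal.ofReal_ne_top (hC L n hL2)
  rw [ENNReal.toReal_ofReal (by positivity)] at h1
  have h2 : C * AL a L * n ≤ η * n := mul_le_mul_of_nonneg_right hL1.le (by positivity)
  linarith

end Pool.Agent.K9h92.BV
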