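import Pool.Agent.K9h92.BV.Third

set_option autoImplicit false

/-!
Path sums and maximal inequalities from one-step inequalities, and their consequences for the
number of inversions.
-/

open ENNReal Filter Topology

namespace Pool.Agent.K9h92.BV

variable {a : ℤ → ℝ}

/-- sum of a function along the path -/
noncomputable def Sm (g : Conf → ℝ≥0∞) (k n : ℕ) (w : Pth) : ℝ≥0∞ :=
  ∑ i ∈ Finset.range n, g (w (k + i))

lemma Sm_zero (g : Conf → ℝ≥0∞) (k : ℕ) (w : Pth) : Sm g k 0 w = 0 := by simp [Sm]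

lemma Sm_succ (g : Conf → ℝ≥0∞) (k n : ℕ) (w : Pth) :
    Sm g k (n + 1) w = g (w k) + Sm g (k + 1) n w := by
  unfold Sm
  rw [Finset.sum_range_succ', add_comm, add_zero]
  congr 1
  apply Finset.sum_congr rfl
  intro i _
  rw [show k + (i + 1) = k + 1 + i by ring]

lemma Sm_mono {g h : Conf → ℝ≥0∞} (H : ∀ D, g D ≤ h D) (k n : ℕ) (w : Pth) :
    Sm g k n w ≤ Sm h k n w := Finset.sum_le_sum fun _ _ => H _

lemma Sm_dep (g : Conf → ℝ≥0∞) (k n : ℕ) : Dep (k + n) (Sm g k n) := by
  intro w w' h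
  unfold Sm
  apply Finset.sum_congr rfl
  intro i hi
  rw [Finset.mem_range] at hi
  rw [h (k + i) (by omega)]

lemma Av_single (G : Conf → ℝ≥0∞) (k : ℕ) (w : Pth) :
    Av a 0 k (fun w => G (w (k + 1))) w = Q a 0 G (w k) := by
  unfold Av Q
  apply tsum_congr; intro j; simp

lemma Ex_Sm_succ (ha : Jump a) (g : Conf → ℝ≥0∞) (k n : ℕ) (w : Pth) :
    Ex a 0 k (n + 1) (Sm g k (n + 1)) w =
      g (w k) + Av a 0 k (Ex a 0 (k + 1) n (Sm g (k + 1) n)) w := by
  have e : Sm g k (n + 1) = (fun w => g (w k)) + Sm g (k + 1) n := by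
    funext w; exact Sm_succ g k n w
  have hd : Dep k fun w => g (w k) := fun w w' h => by simp only; rw [h k le_rfl]
  rw [e, Ex_add, Pi.add_apply, Ex_of_dep ha le_rfl one_pos hd, Ex_succ]

/-- path sums from a one-step inequality -/
lemma Ex_Sm_le (ha : Jump a) {G g : Conf → ℝ≥0∞} {C : ℝ≥0∞}
    (h : ∀ D, Q a 0 G D + g D ≤ G D + C) (k n : ℕ) (w : Pth) :
    Ex a 0 k n (Sm g k n) w ≤ G (w k) + n * C := by
  induction n generalizing k w with
  | zero => simp [Ex_zero, Sm_zero]
  | succ n ih =>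
    rw [Ex_Sm_succ ha]
    calc g (w k) + Av a 0 k (Ex a 0 (k + 1) n (Sm g (k + 1) n)) w
        ≤ g (w k) + Av a 0 k ((fun w => G (w (k + 1))) + fun _ => n * C) w := by
          gcongr
          exact Av_mono (fun w => ih (k + 1) w) w
      _ = g (w k) + (Q a 0 G (w k) + n * C) := by
          rw [Av_add, Pi.add_apply, Av_single, Av_const ha le_rfl one_pos]
      _ = (Q a 0 G (w k) + g (w k)) + n * C := by ring
      _ ≤ (G (w k) + C) + n * C := add_le_add (h _) le_rfl
      _ = _ := by push_cast; ring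

/-- growth of path sums from a one-step inequality -/
lemma Ex_Sm_growth (ha : Jump a) {G : Conf → ℝ≥0∞} {C : ℝ≥0∞}
    (h : ∀ D, Q a 0 G D ≤ G D + C) (k n : ℕ) (w : Pth) :
    Ex a 0 k n (Sm G k n) w ≤ n * (G (w k) + n * C) := by
  induction n generalizing k w with
  | zero => simp [Ex_zero, Sm_zero]
  | succ n ih =>
    rw [Ex_Sm_succ ha]
    calc G (w k) + Av a 0 k (Ex a 0 (k + 1) n (Sm G (k + 1) n)) w
        ≤ G (w k) + Av a 0 k ((fun w => n * G (w (k + 1))) + fun _ => n * (n * C)) w := by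
          gcongr
          refine Av_mono (fun w => (ih (k + 1) w).trans (le_of_eq ?_)) w
          rw [Pi.add_apply]; ring
      _ = G (w k) + (n * Q a 0 G (w k) + n * (n * C)) := by
          have h2 := Av_single (a := a) (fun D => n * G D) k w
          rw [congrFun (Q_smul (a := a) (κ := 0) n G) (w k)] at h2
          rw [Av_add, Pi.add_apply, h2, Av_const ha le_rfl one_pos]
      _ ≤ G (w k) + (n * (G (w k) + C) + n * (n * C)) := by gcongr; exact h _
      _ = (n + 1) * G (w k) + n * (n + 1) * C := by ring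
      _ ≤ (n + 1) * G (w k) + (n + 1) * (n + 1) * C := by gcongr; exact le_self_add
      _ = _ := by push_cast; ring

/-- maximal inequality from a one-step inequality -/
lemma lyap_max (ha : Jump a) {G g : Conf → ℝ≥0∞}
    (h : ∀ D, Q a 0 G D ≤ G D + g D) (c : ℝ≥0∞) (k n : ℕ) (w : Pth) :
    c * Ex a 0 k n (one fun w => ∃ m, k ≤ m ∧ m ≤ k + n ∧ c ≤ G (w m)) w ≤
      G (w k) + Ex a 0 k n (Sm g k n) w := by
  induction n generalizing k w with
  | zero =>
    simp only [Ex_zero, add_zero, Sm_zero]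
    by_cases h : c ≤ G (w k)
    · rw [one_of ⟨k, le_rfl, le_rfl, h⟩, mul_one]; exact h
    · rw [one_of_not, mul_zero]; exact zero_le
      rintro ⟨m, hm1, hm2, hm3⟩
      have : m = k := le_antisymm hm2 hm1
      subst this
      exact h hm3
  | succ n ih =>
    have hsplit : ∀ w, one (fun w => ∃ m, k ≤ m ∧ m ≤ k + (n + 1) ∧ c ≤ G (w m)) w ≤
        one (fun w => c ≤ G (w k)) w + one (fun w => ¬ c ≤ G (w k)) w *
          one (fun w => ∃ m, k + 1 ≤ m ∧ m ≤ (k + 1) + n ∧ c ≤ G (w m)) w := by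
      intro w
      by_cases h : c ≤ G (w k)
      · rw [one_of (A := fun w => c ≤ G (w k)) h]; exact (one_le_one _ _).trans le_self_add
      · rw [one_of (A := fun w => ¬ c ≤ G (w k)) h, one_mul]
        refine le_trans ?_ le_add_self
        by_cases h2 : ∃ m, k ≤ m ∧ m ≤ k + (n + 1) ∧ c ≤ G (w m)
        · obtain ⟨m, hm1, hm2, hm3⟩ := h2
          have hne : m ≠ k := by rintro rfl; exact h hm3
          have h3 : ∃ m, k + 1 ≤ m ∧ m ≤ (k + 1) + n ∧ c ≤ G (w m) := ⟨m, by omega, by omega, hm3⟩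
          rw [one_of (A := fun w => ∃ m, k + 1 ≤ m ∧ m ≤ (k + 1) + n ∧ c ≤ G (w m)) h3]
          exact one_le_one _ _
        · rw [one_of_not h2]; exact zero_le
    have hd1 : Dep k (one fun w => c ≤ G (w k)) := by
      intro w w' hw
      unfold one
      beta_reduce
      rw [hw k le_rfl]
    have hd2 : Dep k (one fun w => ¬ c ≤ G (w k)) := by
      intro w w' hw
      unfold one
      beta_reduce
      rw [hw k le_rfl]
    have hstep : c * Ex a 0 k (n + 1)
        (one fun w => ∃ m, k + 1 ≤ m ∧ m ≤ (k + 1) + n ∧ c ≤ G (w m)) w ≤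
        G (w k) + Ex a 0 k (n + 1) (Sm g k (n + 1)) w := by
      rw [← congrFun (Ex_smul k (n + 1) c _) w, Ex_Sm_succ ha, Ex_succ]
      calc Av a 0 k (Ex a 0 (k + 1) n fun w => c *
            one (fun w => ∃ m, k + 1 ≤ m ∧ m ≤ k + 1 + n ∧ c ≤ G (w m)) w) w
          ≤ Av a 0 k ((fun w => G (w (k + 1))) + Ex a 0 (k + 1) n (Sm g (k + 1) n)) w := by
            apply Av_mono
            intro w
            rw [congrFun (Ex_smul (k + 1) n c _) w, Pi.add_apply]
            exact ih (k + 1) w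
        _ = Q a 0 G (w k) + Av a 0 k (Ex a 0 (k + 1) n (Sm g (k + 1) n)) w := by
            rw [Av_add, Pi.add_apply, Av_single]
        _ ≤ (G (w k) + g (w k)) + Av a 0 k (Ex a 0 (k + 1) n (Sm g (k + 1) n)) w := by
            gcongr; exact h _
        _ = _ := by ring
    calc c * Ex a 0 k (n + 1) (one fun w => ∃ m, k ≤ m ∧ m ≤ k + (n + 1) ∧ c ≤ G (w m)) w
        ≤ c * Ex a 0 k (n + 1) (fun w => one (fun w => c ≤ G (w k)) w +
          one (fun w => ¬ c ≤ G (w k)) w *
          one (fun w => ∃ m, k + 1 ≤ m ∧ m ≤ (k + 1) + n ∧ c ≤ G (w m)) w) w := by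
          gcongr
          exact Ex_mono hsplit w
      _ = c * (one (fun w => c ≤ G (w k)) w + one (fun w => ¬ c ≤ G (w k)) w *
          Ex a 0 k (n + 1) (one (fun w => ∃ m, k + 1 ≤ m ∧ m ≤ (k + 1) + n ∧ c ≤ G (w m))) w) := by
          congr 1
          have e := congrFun (Ex_add (a := a) (κ := 0) k (n + 1) (one fun w => c ≤ G (w k))
            (fun w => one (fun w => ¬ c ≤ G (w k)) w *
              one (fun w => ∃ m, k + 1 ≤ m ∧ m ≤ (k + 1) + n ∧ c ≤ G (w m)) w)) w
          rw [Pi.add_apply, Ex_of_dep ha le_rfl one_pos hd1, Ex_mul hd2] at e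
          exact e
      _ ≤ G (w k) + Ex a 0 k (n + 1) (Sm g k (n + 1)) w := by
          by_cases h : c ≤ G (w k)
          · have h2 : ¬ ¬ c ≤ G (w k) := not_not.mpr h
            rw [one_of (A := fun w => c ≤ G (w k)) h, one_of_not (A := fun w => ¬ c ≤ G (w k)) h2,
              zero_mul, add_zero, mul_one]
            exact h.trans le_self_add
          · rw [one_of_not (A := fun w => c ≤ G (w k)) h, one_of (A := fun w => ¬ c ≤ G (w k)) h,
              one_mul, zero_add]
            exact hstep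

/-! ### consequences of the third moment -/

lemma ps_step (ha : Jump a) (h3 : Thd a) : ∃ c C : ℝ, 0 < c ∧ 0 ≤ C ∧ ∀ (l : ℕ) (D : Conf), 0 < l →
    Q a 0 (fun D => ENNReal.ofReal (H (ps l) D)) D + ENNReal.ofReal (c * (rr a D * N D l)) ≤
      ENNReal.ofReal (H (ps l) D) + ENNReal.ofReal C := by
  obtain ⟨c, C, hc, hC, h⟩ := ps_drift ha h3
  refine ⟨c, C, hc, hC, fun l D hl => ?_⟩
  obtain ⟨h1, h2⟩ := h l D hl
  obtain ⟨h4, h5⟩ := Q_real ha (H (ps l)) (fun D => H_nonneg (ps_nonneg l) D) D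
    (H_flipAt (ps_zero l) D) h1
  have hr := rr_pos ha D
  have hN := N_nonneg D l
  rw [h4, ← ENNReal.ofReal_add h5 (by positivity), ← ENNReal.ofReal_add (H_nonneg (ps_nonneg l) D) hC]
  apply ENNReal.ofReal_le_ofReal
  have h6 : rr a D * (c * N D l + ∑' j, vrate a D j * wt (ps l) D j) ≤ rr a D * (C * tot a D) :=
    mul_le_mul_of_nonneg_left h2 hr.le
  have h7 : rr a D * (C * tot a D) = C := by
    unfold rr
    have := (tot_pos ha D).ne'
    field_simp
  nlinarith

lemma sqw_step (ha : Jump a) (h3 : Thd a) {h : ℕ} (hh : 0 < h) (D : Conf) :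
    Q a 0 (fun D => ENNReal.ofReal (H (sqw h) D)) D ≤ ENNReal.ofReal (H (sqw h) D) +
      (ENNReal.ofReal (2 * s2 a) * ENNReal.ofReal (rr a D * inv D) +
        ENNReal.ofReal (h * BL a h / m1 a)) := by
  obtain ⟨h1, h2⟩ := sqw_drift ha h3 hh D
  obtain ⟨h4, h5⟩ := Q_real ha (H (sqw h)) (fun D => H_nonneg (sqw_nonneg h) D) D
    (H_flipAt (sqw_zero h) D) h1
  have hr := rr_pos ha D
  have hi := inv_nonneg D
  have hs := s2_pos ha
  have hm := m1_pos ha
  have hB := BL_nonneg ha h
  rw [h4, ← ENNReal.ofReal_mul (by positivity), ← ENNReal.ofReal_add (by positivity) (by positivity),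
    ← ENNReal.ofReal_add (H_nonneg (sqw_nonneg h) D) (by positivity)]
  apply ENNReal.ofReal_le_ofReal
  have h6 : rr a D * ∑' j, vrate a D j * wt (sqw h) D j ≤ rr a D * (2 * s2 a * inv D + h * BL a h) :=
    mul_le_mul_of_nonneg_left h2 hr.le
  have h7 : rr a D * (h * BL a h) ≤ 1 / m1 a * (h * BL a h) :=
    mul_le_mul_of_nonneg_right (rr_le ha D) (by positivity)
  have h8 : 1 / m1 a * (h * BL a h) = h * BL a h / m1 a := by ring
  nlinarith

lemma ps_mono {l L : ℕ} (h : l ≤ L) (D : Conf) : H (ps l) D ≤ H (ps L) D := by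
  unfold H
  apply Summable.tsum_le_tsum _ (H_summable (ps_zero l) D) (H_summable (ps_zero L) D)
  intro m
  apply mul_le_mul_of_nonneg_right _ (N_nonneg D m)
  unfold ps
  split_ifs
  · apply min_le_min_left; exact_mod_cast h
  · exact le_rfl

lemma inv_le_split {L : ℕ} (hL : 0 < L) (D : Conf) :
    inv D ≤ ∑ l ∈ Finset.Icc 1 L, N D l + H (ps L) D / L := by
  have hL' : (0:ℝ) < L := by exact_mod_cast hL
  obtain ⟨s1, t1⟩ := tsum_pos_range (fun m => N D m) (L + 1)
  have h1 : inv D ≤ ∑ i ∈ Finset.range (L + 1), pos1 i * N D i + H (ps L) D / L := by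
    rw [← t1]
    unfold inv H
    rw [← tsum_div_const, ← Summable.tsum_add s1 ((H_summable (ps_zero L) D).div_const _)]
    apply Summable.tsum_le_tsum _ (H_summable pos1_zero D)
      (s1.add ((H_summable (ps_zero L) D).div_const _))
    intro m
    have hN := N_nonneg D m
    by_cases hm : 0 < m
    · have hp : pos1 m = 1 := by unfold pos1; rw [if_pos hm]
      rw [hp, one_mul, one_mul]
      by_cases h : m < ((L + 1 : ℕ) : ℤ)
      · rw [if_pos h]
        have := div_nonneg (mul_nonneg (ps_nonneg L m) hN) hL'.le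
        linarith
      · have : ps L m = L := by
          unfold ps
          rw [if_pos hm, min_eq_right]
          have : (L:ℤ) ≤ m := by push_cast at h; omega
          exact_mod_cast this
        rw [if_neg h, this]
        have : (L:ℝ) * N D m / L = N D m := by field_simp
        rw [this]; linarith
    · rw [pos1_zero m (by omega), ps_zero L m (by omega)]; simp
  refine h1.trans ?_
  apply add_le_add_left
  rw [Finset.sum_range_succ' ]
  have e : ∑ l ∈ Finset.Icc 1 L, N D l = ∑ i ∈ Finset.range L, N D ((i + 1 : ℕ) : ℤ) := by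
    rw [Finset.range_eq_Ico, Finset.sum_Ico_add' (fun i : ℕ => N D (i : ℤ)) 0 L 1]
    apply Finset.sum_congr _ (fun _ _ => rfl)
    ext i; simp [Finset.mem_Icc, Finset.mem_Ico]
  rw [e]
  have e2 : pos1 ((0:ℕ):ℤ) * N D ((0:ℕ):ℤ) = 0 := by simp [N_zero]
  rw [e2, add_zero]
  apply Finset.sum_le_sum
  intro i _
  have hN := N_nonneg D ((i + 1 : ℕ) : ℤ)
  have := pos1_le ((i + 1 : ℕ) : ℤ)
  nlinarith

/-- the time spent with many inversions, kernels with a third moment -/
lemma inv_sum (ha : Jump a) (h3 : Thd a) : ∃ C : ℝ, 0 < C ∧ ∀ (L k n : ℕ) (w : Pth), 0 < L →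
    Ex a 0 k n (Sm (fun D => ENNReal.ofReal (rr a D * inv D)) k n) w ≤
      ENNReal.ofReal (C * (L + n / L) * (H (ps L) (w k) + n)) := by
  obtain ⟨c, C, hc, hC, hstep⟩ := ps_step ha h3
  have hm := m1_pos ha
  refine ⟨(1 / c + 1 / m1 a) * (1 + C), by positivity, fun L k n w hL => ?_⟩
  have hL' : (0:ℝ) < L := by exact_mod_cast hL
  set Hx := H (ps L) (w k) with hHx
  have hHx0 : 0 ≤ Hx := H_nonneg (ps_nonneg L) _
  -- each level
  have h1 : ∀ l ∈ Finset.Icc 1 L, Ex a 0 k n (Sm (fun D => ENNReal.ofReal (rr a D * N D l)) k n) w ≤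
      ENNReal.ofReal (1 / c * (Hx + n * C)) := by
    intro l hl
    rw [Finset.mem_Icc] at hl
    have e1 := Ex_Sm_le ha (fun D => hstep l D (by omega)) k n w
    have e2 : Sm (fun D => ENNReal.ofReal (rr a D * N D l)) k n =
        fun w => ENNReal.ofReal (1 / c) * Sm (fun D => ENNReal.ofReal (c * (rr a D * N D l))) k n w := by
      funext w
      unfold Sm
      rw [Finset.mul_sum]
      apply Finset.sum_congr rfl
      intro i _
      rw [← ENNReal.ofReal_mul (by positivity)]
      congr 1; field_simp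
    rw [e2, congrFun (Ex_smul k n _ _) w]
    calc ENNReal.ofReal (1 / c) * Ex a 0 k n (Sm (fun D => ENNReal.ofReal (c * (rr a D * N D l))) k n) w
        ≤ ENNReal.ofReal (1 / c) * (ENNReal.ofReal (H (ps l) (w k)) + n * ENNReal.ofReal C) := by
          gcongr
      _ ≤ ENNReal.ofReal (1 / c) * (ENNReal.ofReal Hx + n * ENNReal.ofReal C) := by
          gcongr; exact ps_mono hl.2 _
      _ = _ := by
          rw [← ENNReal.ofReal_natCast, ← ENNReal.ofReal_mul (by positivity),
            ← ENNReal.ofReal_add hHx0 (by positivity), ← ENNReal.ofReal_mul (by positivity)]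
  -- the tail
  have h2 : Ex a 0 k n (Sm (fun D => ENNReal.ofReal (1 / m1 a / L) * ENNReal.ofReal (H (ps L) D)) k n) w ≤
      ENNReal.ofReal (1 / m1 a / L * (n * (Hx + n * C))) := by
    have e1 := Ex_Sm_growth ha (G := fun D => ENNReal.ofReal (H (ps L) D)) (C := ENNReal.ofReal C)
      (fun D => le_trans le_self_add (hstep L D hL)) k n w
    have e2 : Sm (fun D => ENNReal.ofReal (1 / m1 a / L) * ENNReal.ofReal (H (ps L) D)) k n =
        fun w => ENNReal.ofReal (1 / m1 a / L) * Sm (fun D => ENNReal.ofReal (H (ps L) D)) k n w := by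
      funext w
      unfold Sm
      rw [Finset.mul_sum]
    rw [e2, congrFun (Ex_smul k n _ _) w]
    calc ENNReal.ofReal (1 / m1 a / L) * Ex a 0 k n (Sm (fun D => ENNReal.ofReal (H (ps L) D)) k n) w
        ≤ ENNReal.ofReal (1 / m1 a / L) * (n * (ENNReal.ofReal Hx + n * ENNReal.ofReal C)) := by
          gcongr
      _ = _ := by
          rw [← ENNReal.ofReal_natCast, ← ENNReal.ofReal_mul (by positivity),
            ← ENNReal.ofReal_add hHx0 (by positivity), ← ENNReal.ofReal_mul (by positivity),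
            ← ENNReal.ofReal_mul (by positivity)]
  have h4 : ∀ w, Sm (fun D => ENNReal.ofReal (rr a D * inv D)) k n w ≤
      ((fun w => ∑ l ∈ Finset.Icc 1 L, Sm (fun D => ENNReal.ofReal (rr a D * N D l)) k n w) +
        Sm (fun D => ENNReal.ofReal (1 / m1 a / L) * ENNReal.ofReal (H (ps L) D)) k n) w := by
    intro w
    rw [Pi.add_apply]
    unfold Sm
    rw [Finset.sum_comm, ← Finset.sum_add_distrib]
    apply Finset.sum_le_sum
    intro i _
    set D := w (k + i)
    beta_reduce
    have hr := rr_pos ha D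
    have hH := H_nonneg (ps_nonneg L) D
    have hnn : ∀ l ∈ Finset.Icc 1 L, 0 ≤ rr a D * N D ((l : ℕ) : ℤ) :=
      fun l _ => mul_nonneg hr.le (N_nonneg D _)
    rw [← ENNReal.ofReal_sum_of_nonneg hnn,
      ← ENNReal.ofReal_mul (by positivity), ← ENNReal.ofReal_add
      (Finset.sum_nonneg hnn) (by positivity)]
    apply ENNReal.ofReal_le_ofReal
    rw [← Finset.mul_sum]
    have h5 := mul_le_mul_of_nonneg_left (inv_le_split hL D) hr.le
    have h6 : rr a D * (H (ps L) D / L) ≤ 1 / m1 a / L * H (ps L) D := by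
      calc rr a D * (H (ps L) D / L) ≤ 1 / m1 a * (H (ps L) D / L) :=
            mul_le_mul_of_nonneg_right (rr_le ha D) (by positivity)
        _ = _ := by ring
    rw [mul_add] at h5
    linarith
  refine (Ex_mono h4 w).trans ?_
  rw [Ex_add, Pi.add_apply, Ex_sum]
  calc ∑ l ∈ Finset.Icc 1 L, Ex a 0 k n (Sm (fun D => ENNReal.ofReal (rr a D * N D l)) k n) w +
        Ex a 0 k n (Sm (fun D => ENNReal.ofReal (1 / m1 a / L) * ENNReal.ofReal (H (ps L) D)) k n) w
      ≤ ∑ l ∈ Finset.Icc 1 L, ENNReal.ofReal (1 / c * (Hx + n * C)) +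
        ENNReal.ofReal (1 / m1 a / L * (n * (Hx + n * C))) := by
        gcongr with l hl
        exact h1 l hl
    _ = ENNReal.ofReal (L * (1 / c * (Hx + n * C)) + 1 / m1 a / L * (n * (Hx + n * C))) := by
        rw [Finset.sum_const, Nat.card_Icc, nsmul_eq_mul, ← ENNReal.ofReal_natCast,
          ← ENNReal.ofReal_mul (by positivity), ← ENNReal.ofReal_add (by positivity) (by positivity)]
        simp
    _ ≤ _ := by
        apply ENNReal.ofReal_le_ofReal
        have hn : (0:ℝ) ≤ n := by positivity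
        have h5 : Hx + n * C ≤ (1 + C) * (Hx + n) := by nlinarith [mul_nonneg hC hHx0]
        have h6 : L * (1 / c * (Hx + n * C)) + 1 / m1 a / L * (n * (Hx + n * C)) =
            (L * (1 / c) + (n / L) * (1 / m1 a)) * (Hx + n * C) := by ring
        rw [h6]
        have hnL : 0 ≤ (n:ℝ) / L := by positivity
        have hc' : 0 < 1 / c := by positivity
        have hm' : 0 < 1 / m1 a := by positivity
        calc (L * (1 / c) + (n / L) * (1 / m1 a)) * (Hx + n * C)
            ≤ ((1 / c + 1 / m1 a) * (L + n / L)) * ((1 + C) * (Hx + n)) := by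
              apply mul_le_mul _ h5 (by positivity) (by positivity)
              nlinarith [mul_nonneg hc'.le hnL, mul_nonneg hm'.le hL'.le]
          _ = _ := by ring

end Pool.Agent.K9h92.BV
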