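import Pool.Agent.K9h92.BV.Path

set_option autoImplicit false

/-!
Realisations of the biased voter model, expectations of functionals of the jump chain.
-/

open ENNReal Filter Topology MeasureTheory ProbabilityTheory

namespace Pool.Agent.K9h92.BV

/-- All sets of configurations are measurable. -/
instance : MeasurableSpace Conf := ⊤

instance : DiscreteMeasurableSpace Conf := ⟨fun _ => trivial⟩

/-- `x` is the jump chain of the biased voter model with bias `ε` started from the Heaviside state: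
it is a Markov chain which from the state `D` moves to the state with the value at `j` changed with
probability `rate j / total rate`. -/
structure IsJumpChain {Ω : Type*} [MeasurableSpace Ω] (a : ℤ → ℝ) (ε : ℝ) (P : Measure Ω)
    (x : ℕ → Ω → Conf) : Prop where
  meas : ∀ n, Measurable (x n)
  init : ∀ᵐ ω ∂P, x 0 ω = ∅
  step : ∀ (n : ℕ) (s : ℕ → Conf) (j : ℤ),
    P {ω | (∀ i ≤ n, x i ω = s i) ∧ x (n + 1) ω = flipAt (s n) j} =
      P {ω | ∀ i ≤ n, x i ω = s i} * ENNReal.ofReal (rate a ε (s n) j / trate a ε (s n))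

/-- The time of the `n`-th jump, where `e i` is the `i`-th standard exponential variable. -/
noncomputable def jumpTime {Ω : Type*} (a : ℤ → ℝ) (ε : ℝ) (x : ℕ → Ω → Conf) (e : ℕ → Ω → ℝ)
    (n : ℕ) (ω : Ω) : ℝ := ∑ i ∈ Finset.range n, e i ω / trate a ε (x i ω)

/-- `X` is a biased voter model with bias `ε` started from the Heaviside state: its jump chain is
`x`, and the holding time of the `i`-th visited state is `e i / total rate`, where the `e i` are
independent standard exponential variables which are independent from the jump chain. -/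
def IsBiasedVoter {Ω : Type*} [MeasurableSpace Ω] (a : ℤ → ℝ) (ε : ℝ) (P : Measure Ω)
    (X : ℝ → Ω → Conf) : Prop :=
  ∃ (x : ℕ → Ω → Conf) (e : ℕ → Ω → ℝ), IsJumpChain a ε P x ∧ (∀ n, Measurable (e n)) ∧
    (∀ n, HasLaw (e n) (expMeasure 1) P) ∧ iIndepFun e P ∧
    IndepFun (fun ω n => x n ω) (fun ω n => e n ω) P ∧ (∀ t, Measurable (X t)) ∧
    ∀ᵐ ω ∂P, ∀ (n : ℕ) (t : ℝ), jumpTime a ε x e n ω ≤ t → t < jumpTime a ε x e (n + 1) ω →
      X t ω = x n ω

variable {a : ℤ → ℝ}

/-- prefix of a path -/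
def pref (k : ℕ) (w : Pth) : Fin (k + 1) → Conf := fun i => w i

/-- extension of a finite path -/
def ext' (k : ℕ) (s : Fin (k + 1) → Conf) : Pth := fun i => if h : i < k + 1 then s ⟨i, h⟩ else ∅

lemma ext_agree {k : ℕ} {s : Fin (k + 1) → Conf} {w : Pth} (h : pref k w = s) :
    ∀ i ≤ k, w i = ext' k s i := by
  intro i hi
  unfold ext'
  rw [dif_pos (by omega), ← h]
  rfl

lemma pref_eq_iff {k : ℕ} {s : Fin (k + 1) → Conf} {w : Pth} :
    pref k w = s ↔ ∀ i ≤ k, w i = ext' k s i := by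
  refine ⟨ext_agree, fun h => ?_⟩
  funext i
  unfold pref
  rw [h i (by omega)]
  unfold ext'
  rw [dif_pos i.isLt]

section

variable {Ω : Type*} [MeasurableSpace Ω] {P : Measure Ω} {x : ℕ → Ω → Conf}

/-- the path of a sample point -/
def pth (x : ℕ → Ω → Conf) (ω : Ω) : Pth := fun i => x i ω

lemma meas_pref (hm : ∀ n, Measurable (x n)) (k : ℕ) : Measurable fun ω => pref k (pth x ω) :=
  measurable_pi_lambda _ fun i => hm i

lemma meas_dep (hm : ∀ n, Measurable (x n)) {n : ℕ} {A : Pth → Prop}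
    (hA : ∀ w w' : Pth, (∀ i ≤ n, w i = w' i) → (A w ↔ A w')) : MeasurableSet {ω | A (pth x ω)} := by
  have e : {ω | A (pth x ω)} = (fun ω => pref n (pth x ω)) ⁻¹' {s | A (ext' n s)} := by
    ext ω
    simp only [Set.mem_preimage]
    exact hA _ _ (ext_agree rfl)
  rw [e]
  exact meas_pref hm n (Set.to_countable _).measurableSet

/-- one step averages -/
lemma step_lintegral [IsProbabilityMeasure P] (ha : Jump a) {κ : ℝ} (h0 : 0 ≤ κ) (h1 : κ < 1)
    (hm : ∀ n, Measurable (x n))
    (hstep : ∀ (n : ℕ) (s : ℕ → Conf) (j : ℤ),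
      P {ω | (∀ i ≤ n, x i ω = s i) ∧ x (n + 1) ω = flipAt (s n) j} =
        P {ω | ∀ i ≤ n, x i ω = s i} * pk a κ (s n) j)
    (k : ℕ) {F : Pth → ℝ≥0∞} (hF : Dep (k + 1) F) :
    ∫⁻ ω, F (pth x ω) ∂P = ∫⁻ ω, Av a κ k F (pth x ω) ∂P := by
  set C : (Fin (k + 1) → Conf) → Set Ω := fun s => {ω | ∀ i ≤ k, x i ω = ext' k s i} with hC
  set E : (Fin (k + 1) → Conf) → ℤ → Set Ω := fun s j =>
    {ω | (∀ i ≤ k, x i ω = ext' k s i) ∧ x (k + 1) ω = flipAt (ext' k s k) j} with hE
  have mC : ∀ s, MeasurableSet (C s) := by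
    intro s
    apply meas_dep hm (n := k) (A := fun w => ∀ i ≤ k, w i = ext' k s i)
    intro w w' h
    constructor
    · intro h2 i hi; rw [← h i hi]; exact h2 i hi
    · intro h2 i hi; rw [h i hi]; exact h2 i hi
  have mE : ∀ s j, MeasurableSet (E s j) := by
    intro s j
    apply meas_dep hm (n := k + 1)
      (A := fun w => (∀ i ≤ k, w i = ext' k s i) ∧ w (k + 1) = flipAt (ext' k s k) j)
    intro w w' h
    constructor
    · rintro ⟨h2, h3⟩
      exact ⟨fun i hi => by rw [← h i (by omega)]; exact h2 i hi, by rw [← h _ le_rfl]; exact h3⟩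
    · rintro ⟨h2, h3⟩
      exact ⟨fun i hi => by rw [h i (by omega)]; exact h2 i hi, by rw [h _ le_rfl]; exact h3⟩
  have hCd : Pairwise (Function.onFun Disjoint C) := by
    intro s s' hne
    rw [Function.onFun, Set.disjoint_left]
    intro ω h1 h2
    apply hne
    have e1 : pref k (pth x ω) = s := pref_eq_iff.mpr h1
    have e2 : pref k (pth x ω) = s' := pref_eq_iff.mpr h2
    rw [← e1, e2]
  have hCu : ⋃ s, C s = Set.univ := by
    rw [Set.eq_univ_iff_forall]
    intro ω
    rw [Set.mem_iUnion]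
    exact ⟨pref k (pth x ω), ext_agree rfl⟩
  have hEd : ∀ s, Pairwise (Function.onFun Disjoint (E s)) := by
    intro s j j' hne
    rw [Function.onFun, Set.disjoint_left]
    intro ω h1 h2
    exact hne (flipAt_inj _ (h1.2.symm.trans h2.2))
  have hEC : ∀ s, (⋃ j, E s j) ⊆ C s := by
    intro s ω h
    rw [Set.mem_iUnion] at h
    obtain ⟨j, h⟩ := h
    exact h.1
  have hPE : ∀ s, P (⋃ j, E s j) = P (C s) := by
    intro s
    rw [measure_iUnion (hEd s) (mE s)]
    have : ∀ j, P (E s j) = P (C s) * pk a κ (ext' k s k) j := fun j => hstep k (ext' k s) j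
    rw [tsum_congr this, ENNReal.tsum_mul_left, pk_sum ha h0 h1, mul_one]
  have hae : ∀ s, (⋃ j, E s j : Set Ω) =ᵐ[P] C s := by
    intro s
    exact ae_eq_of_subset_of_measure_ge (hEC s) (hPE s).ge
      (MeasurableSet.iUnion (mE s)).nullMeasurableSet (measure_ne_top P _)
  have split : ∀ f : Ω → ℝ≥0∞, ∫⁻ ω, f ω ∂P = ∑' s, ∫⁻ ω in C s, f ω ∂P := by
    intro f
    rw [← lintegral_iUnion mC hCd, hCu, Measure.restrict_univ]
  rw [split, split (fun ω => Av a κ k F (pth x ω))]
  apply tsum_congr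
  intro s
  have hA : ∫⁻ ω in C s, Av a κ k F (pth x ω) ∂P = Av a κ k F (ext' k s) * P (C s) := by
    have hc : Set.EqOn (fun ω => Av a κ k F (pth x ω)) (fun _ => Av a κ k F (ext' k s)) (C s) :=
      fun ω hω => (Dep_Av hF) _ _ hω
    rw [setLIntegral_congr_fun (mC s) hc, setLIntegral_const]
  have hB : ∫⁻ ω in C s, F (pth x ω) ∂P = ∑' j, ∫⁻ ω in E s j, F (pth x ω) ∂P := by
    rw [← lintegral_iUnion (mE s) (hEd s), setLIntegral_congr (hae s)]
  rw [hA, hB]
  have hj : ∀ j, ∫⁻ ω in E s j, F (pth x ω) ∂P =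
      (pk a κ (ext' k s k) j * F (Function.update (ext' k s) (k + 1) (flipAt (ext' k s k) j))) *
        P (C s) := by
    intro j
    rw [setLIntegral_congr_fun (mE s j)
      (g := fun _ => F (Function.update (ext' k s) (k + 1) (flipAt (ext' k s k) j))), setLIntegral_const]
    · have : P (E s j) = P (C s) * pk a κ (ext' k s k) j := hstep k (ext' k s) j
      rw [this]; ring
    · intro ω hω
      apply hF
      intro i hi
      by_cases hik : i = k + 1
      · subst hik
        rw [Function.update_self]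
        exact hω.2
      · rw [Function.update_of_ne hik]
        exact hω.1 i (by omega)
  rw [tsum_congr hj, ENNReal.tsum_mul_right]
  rfl

lemma chain_lintegral [IsProbabilityMeasure P] (ha : Jump a) {ε : ℝ} (h0 : 0 ≤ ε) (h1 : ε < 1)
    (hx : IsJumpChain a ε P x) (n : ℕ) {F : Pth → ℝ≥0∞} (hF : Dep n F) :
    ∫⁻ ω, F (pth x ω) ∂P = Ex a ε 0 n F w0 := by
  have hstep : ∀ (n : ℕ) (s : ℕ → Conf) (j : ℤ),
      P {ω | (∀ i ≤ n, x i ω = s i) ∧ x (n + 1) ω = flipAt (s n) j} =
        P {ω | ∀ i ≤ n, x i ω = s i} * pk a ε (s n) j := fun n s j => hx.step n s j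
  have key : ∀ (n k : ℕ) (F : Pth → ℝ≥0∞), Dep (k + n) F →
      ∫⁻ ω, F (pth x ω) ∂P = ∫⁻ ω, Ex a ε k n F (pth x ω) ∂P := by
    intro n
    induction n with
    | zero => intro k F _; rfl
    | succ n ih =>
      intro k F hF
      have hF' : Dep (k + 1 + n) F := by rwa [show k + 1 + n = k + (n + 1) by ring]
      rw [ih (k + 1) F hF', Ex_succ]
      exact step_lintegral ha h0 h1 hx.meas hstep k (Dep_Ex hF')
  rw [key n 0 F (by rwa [zero_add])]
  have hd : Dep 0 (Ex a ε 0 n F) := Dep_Ex (by rwa [zero_add])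
  have : (fun ω => Ex a ε 0 n F (pth x ω)) =ᵐ[P] fun _ => Ex a ε 0 n F w0 := by
    filter_upwards [hx.init] with ω hω
    apply hd
    intro i hi
    have : i = 0 := by omega
    subst this
    exact hω
  rw [lintegral_congr_ae this, lintegral_const, measure_univ, mul_one]

/-- probabilities of events of the path -/
lemma chain_prob [IsProbabilityMeasure P] (ha : Jump a) {ε : ℝ} (h0 : 0 ≤ ε) (h1 : ε < 1)
    (hx : IsJumpChain a ε P x) (n : ℕ) {A : Pth → Prop}
    (hA : ∀ w w' : Pth, (∀ i ≤ n, w i = w' i) → (A w ↔ A w')) :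
    P {ω | A (pth x ω)} = Ex a ε 0 n (one A) w0 := by
  rw [← chain_lintegral ha h0 h1 hx n (Dep_one_of hA)]
  have e : (fun ω => one A (pth x ω)) = Set.indicator {ω | A (pth x ω)} (fun _ => (1:ℝ≥0∞)) := by
    funext ω
    by_cases h : A (pth x ω)
    · rw [one_of h, Set.indicator_of_mem (show ω ∈ {ω | A (pth x ω)} from h)]
    · rw [one_of_not h, Set.indicator_of_notMem (show ω ∉ {ω | A (pth x ω)} from h)]
  rw [e, lintegral_indicator (meas_dep hx.meas hA), setLIntegral_const, one_mul]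

end

end Pool.Agent.K9h92.BV
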