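import Pool.Agent.K9h92.BV.Jumps

set_option autoImplicit false

/-!
Most of the time the end points of the interface are close to the centre of mass.
-/

open ENNReal Filter Topology

namespace Pool.Agent.K9h92.BV

variable {a : ℤ → ℝ}

/-- clock time of the states which are not far -/
noncomputable def nf (a : ℤ → ℝ) (far : Conf → ℝ → Prop) (κ : ℝ) (D : Conf) : ℝ := by
  classical exact if far D κ then 0 else rr a D

lemma nf_nonneg (ha : Jump a) (far : Conf → ℝ → Prop) (κ : ℝ) (D : Conf) : 0 ≤ nf a far κ D := by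
  unfold nf
  split_ifs
  · exact le_rfl
  · exact (rr_pos ha D).le

lemma occ0_aux (ha : Jump a) {T : Conf → Conf} {C : ℝ} (hC : 0 < C) (hT : ∀ D, inv (T D) = inv D)
    (hgap : ∀ K n : ℕ, Ex a 0 0 n (Sm (fun D => ENNReal.ofReal (rr a D * gap K (T D))) 0 n) w0 ≤
      ENNReal.ofReal (C * K * (K ^ 2 + n))) {δ η : ℝ} (hδ : 0 < δ) (hη : 0 < η) :
    ∃ n0 : ℕ, ∀ n ≥ n0, Ex a 0 0 n (one fun w => ∑ i ∈ Finset.range n,
      nf a (fun D κ => farL (T D) κ) (δ * Real.sqrt n) (w i) < n / (2 * s2 a)) w0 ≤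
        ENNReal.ofReal η := by
  have hs := s2_pos ha
  obtain ⟨δ1, hδ1⟩ : ∃ δ1 : ℝ, δ1 = min (1 / (4 * s2 a)) (min (δ / 8) (η * δ ^ 2 / (512 * C * s2 a))) :=
    ⟨_, rfl⟩
  have hδ10 : 0 < δ1 := by
    rw [hδ1]; exact lt_min (by positivity) (lt_min (by positivity) (by positivity))
  have hd1 : δ1 ≤ 1 / (4 * s2 a) := by rw [hδ1]; exact min_le_left _ _
  have hd2 : δ1 ≤ δ / 8 := by rw [hδ1]; exact (min_le_right _ _).trans (min_le_left _ _)
  have hd3 : δ1 ≤ η * δ ^ 2 / (512 * C * s2 a) := by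
    rw [hδ1]; exact (min_le_right _ _).trans (min_le_right _ _)
  obtain ⟨n1, hbad⟩ := bad_small0 ha hδ10 (half_pos hη)
  obtain ⟨R0, hR0⟩ : ∃ R0 : ℝ, R0 = max (4 / δ) (δ / (4 * δ1)) := ⟨_, rfl⟩
  obtain ⟨n2, hn2⟩ := exists_nat_gt (R0 ^ 2)
  refine ⟨max n1 n2 + 1, fun n hn => ?_⟩
  have hnn1 : n1 ≤ n := by omega
  have hnn2 : n2 ≤ n := by omega
  have hn0 : (0:ℝ) < n := by
    have : 0 < n := by omega
    exact_mod_cast this
  obtain ⟨r, hr⟩ : ∃ r : ℝ, r = Real.sqrt n := ⟨_, rfl⟩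
  have hr2 : r ^ 2 = n := by rw [hr]; exact Real.sq_sqrt (by positivity)
  have hr0 : 0 < r := by rw [hr]; exact Real.sqrt_pos.mpr hn0
  have hrR : R0 ≤ r := by
    rw [hr]
    apply Real.le_sqrt_of_sq_le
    have : (n2:ℝ) ≤ n := by exact_mod_cast hnn2
    linarith
  rw [hR0] at hrR
  have r1 : 4 / δ ≤ r := (le_max_left _ _).trans hrR
  have r2 : δ / (4 * δ1) ≤ r := (le_max_right _ _).trans hrR
  rw [div_le_iff₀ hδ] at r1
  rw [div_le_iff₀ (by positivity)] at r2
  rw [← hr]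
  obtain ⟨h, hh⟩ : ∃ h : ℕ, h = ⌊δ * r / 2⌋₊ := ⟨_, rfl⟩
  have hh1 : 2 * (h:ℝ) ≤ δ * r := by
    have := Nat.floor_le (show 0 ≤ δ * r / 2 by positivity)
    rw [← hh] at this
    linarith
  have hh2 : δ * r / 4 ≤ h := by
    have := Nat.lt_floor_add_one (δ * r / 2)
    rw [← hh] at this
    linarith
  have hh0 : (0:ℝ) < h := lt_of_lt_of_le (by positivity) hh2
  obtain ⟨K, hK⟩ : ∃ K : ℕ, K = ⌈4 * δ1 * r / δ⌉₊ := ⟨_, rfl⟩
  have hK1 : 4 * δ1 * r / δ ≤ K := by rw [hK]; exact Nat.le_ceil _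
  have hK2 : (K:ℝ) ≤ 8 * δ1 / δ * r := by
    have h1 := Nat.ceil_lt_add_one (show 0 ≤ 4 * δ1 * r / δ by positivity)
    rw [← hK] at h1
    have h2 : 1 ≤ 4 * δ1 * r / δ := by
      rw [le_div_iff₀ hδ]; linarith
    have h3 : 8 * δ1 / δ * r = 2 * (4 * δ1 * r / δ) := by ring
    linarith
  have hKh : δ1 * n ≤ (K + 1) * h := by
    calc δ1 * n = (4 * δ1 * r / δ) * (δ * r / 4) := by rw [← hr2]; field_simp
      _ ≤ K * h := mul_le_mul hK1 hh2 (by positivity) (by positivity)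
      _ ≤ (K + 1) * h := by rw [add_mul, one_mul]; linarith
  obtain ⟨c, hc⟩ : ∃ c : ℝ, c = h * (n / (4 * s2 a)) := ⟨_, rfl⟩
  have hc0 : 0 < c := by rw [hc]; positivity
  have hsub : ∀ w, one (fun w => ∑ i ∈ Finset.range n,
      nf a (fun D κ => farL (T D) κ) (δ * r) (w i) < n / (2 * s2 a)) w ≤
      one (fun w => Bad a δ1 n w ∨ ENNReal.ofReal c ≤
        Sm (fun D => ENNReal.ofReal (rr a D * gap K (T D))) 0 n w) w := by
    intro w
    apply one_mono
    intro w hw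
    by_contra hcon
    rw [not_or] at hcon
    obtain ⟨hb, hcS⟩ := hcon
    apply hcS
    have hb' : ∀ m ≤ n, inv (w m) < δ1 * n ∧ |Cr a 0 m w - m / s2 a| < δ1 * n := by
      intro m hm
      constructor
      · by_contra hx; exact hb ⟨m, hm, Or.inl (not_lt.mp hx)⟩
      · by_contra hx; exact hb ⟨m, hm, Or.inr (not_lt.mp hx)⟩
    have hC1 := (hb' n le_rfl).2
    rw [abs_lt] at hC1
    have hC2 : δ1 * n ≤ n / (4 * s2 a) := by
      calc δ1 * n ≤ 1 / (4 * s2 a) * n := by gcongr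
        _ = _ := by ring
    have hC3 : (n:ℝ) / s2 a = n / (4 * s2 a) * 4 := by field_simp
    have hC4 : (n:ℝ) / (2 * s2 a) = n / (4 * s2 a) * 2 := by field_simp; norm_num
    have hterm : ∀ i ∈ Finset.range n, h * (rr a (w i) -
        nf a (fun D κ => farL (T D) κ) (δ * r) (w i)) ≤ rr a (w i) * gap K (T (w i)) := by
      intro i hi
      rw [Finset.mem_range] at hi
      have hrp := rr_pos ha (w i)
      by_cases hf : farL (T (w i)) (δ * r)
      · have e1 : nf a (fun D κ => farL (T D) κ) (δ * r) (w i) = 0 := by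
          unfold nf; rw [if_pos hf]
        rw [e1, sub_zero, mul_comm]
        apply mul_le_mul_of_nonneg_left _ hrp.le
        exact far_gap hf hh1 (by rw [hT]; exact (hb' i hi.le).1.trans_le hKh)
      · have e1 : nf a (fun D κ => farL (T D) κ) (δ * r) (w i) = rr a (w i) := by
          unfold nf; rw [if_neg hf]
        rw [e1, sub_self, mul_zero]
        exact mul_nonneg hrp.le (gap_nonneg _ _)
    have hsum := Finset.sum_le_sum hterm
    rw [← Finset.mul_sum, Finset.sum_sub_distrib] at hsum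
    have hCr : ∑ i ∈ Finset.range n, rr a (w i) = Cr a 0 n w := by
      unfold Cr; simp only [zero_add]
    rw [hCr] at hsum
    have hfin : c ≤ ∑ i ∈ Finset.range n, rr a (w i) * gap K (T (w i)) := by
      refine le_trans ?_ hsum
      rw [hc]
      apply mul_le_mul_of_nonneg_left _ hh0.le
      linarith [hC1.1]
    calc ENNReal.ofReal c ≤ ENNReal.ofReal (∑ i ∈ Finset.range n, rr a (w i) * gap K (T (w i))) :=
          ENNReal.ofReal_le_ofReal hfin
      _ = Sm (fun D => ENNReal.ofReal (rr a D * gap K (T D))) 0 n w := by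
          unfold Sm
          rw [ENNReal.ofReal_sum_of_nonneg
            (fun i _ => mul_nonneg (rr_pos ha _).le (gap_nonneg _ _))]
          simp only [zero_add]
  refine (Ex_mono hsub w0).trans ?_
  have hor : ∀ w, one (fun w => Bad a δ1 n w ∨ ENNReal.ofReal c ≤
        Sm (fun D => ENNReal.ofReal (rr a D * gap K (T D))) 0 n w) w ≤
      (one (Bad a δ1 n) + one (fun w => ENNReal.ofReal c ≤
        Sm (fun D => ENNReal.ofReal (rr a D * gap K (T D))) 0 n w)) w := fun w => one_or_le _ _ w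
  refine (Ex_mono hor w0).trans ?_
  rw [Ex_add, Pi.add_apply]
  have hm := (Ex_markov (a := a) (κ := 0) 0 n (ENNReal.ofReal c)
    (Sm (fun D => ENNReal.ofReal (rr a D * gap K (T D))) 0 n) w0).trans (hgap K n)
  have hcE : ENNReal.ofReal c ≠ 0 := by
    rw [Ne, ENNReal.ofReal_eq_zero, not_le]; exact hc0
  rw [mul_comm, ← ENNReal.le_div_iff_mul_le (Or.inl hcE) (Or.inl ENNReal.ofReal_ne_top),
    ← ENNReal.ofReal_div_of_pos hc0] at hm
  have hnum : C * K * (K ^ 2 + n) / c ≤ η / 2 := by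
    have hκ : 8 * δ1 / δ ≤ 1 := by rw [div_le_one hδ]; linarith
    have hKr : (K:ℝ) ≤ r := hK2.trans (by
      calc 8 * δ1 / δ * r ≤ 1 * r := by gcongr
        _ = r := one_mul r)
    have hK2' : (K:ℝ) ^ 2 ≤ r ^ 2 := pow_le_pow_left₀ (by positivity) hKr 2
    rw [div_le_iff₀ hc0, hc, ← hr2]
    have h1 : C * K * (K ^ 2 + r ^ 2) ≤ C * (8 * δ1 / δ * r) * (r ^ 2 + r ^ 2) := by gcongr
    refine h1.trans ?_
    have h2 : η / 2 * (δ * r / 4 * (r ^ 2 / (4 * s2 a))) ≤ η / 2 * (h * (r ^ 2 / (4 * s2 a))) := by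
      gcongr
    refine le_trans ?_ h2
    rw [le_div_iff₀ (by positivity)] at hd3
    have e1 : C * (8 * δ1 / δ * r) * (r ^ 2 + r ^ 2) = 16 * C * δ1 * r ^ 3 / δ := by ring
    have e2 : η / 2 * (δ * r / 4 * (r ^ 2 / (4 * s2 a))) = η * δ * r ^ 3 / (32 * s2 a) := by
      field_simp; norm_num
    rw [e1, e2, div_le_div_iff₀ hδ (by positivity)]
    have hr3 : 0 < r ^ 3 := by positivity
    calc 16 * C * δ1 * r ^ 3 * (32 * s2 a) = (δ1 * (512 * C * s2 a)) * r ^ 3 := by ring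
      _ ≤ (η * δ ^ 2) * r ^ 3 := mul_le_mul_of_nonneg_right hd3 hr3.le
      _ = _ := by ring
  calc _ ≤ ENNReal.ofReal (η / 2) + ENNReal.ofReal (η / 2) :=
        add_le_add (hbad n hnn1) (hm.trans (ENNReal.ofReal_le_ofReal hnum))
    _ = ENNReal.ofReal η := by
        rw [← ENNReal.ofReal_add (by positivity) (by positivity)]; congr 1; ring

lemma nf_refl (κ : ℝ) (D : Conf) : nf a farR κ D = nf a (fun D κ => farL (refl D) κ) κ D := by
  unfold nf
  by_cases h : farR D κ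
  · rw [if_pos h, if_pos ((farR_iff D κ).mp h)]
  · rw [if_neg h, if_neg (fun h2 => h ((farR_iff D κ).mpr h2))]

lemma occ0 (ha : Jump a) {far : Conf → ℝ → Prop} (hfar : far = farL ∨ far = farR) {δ η : ℝ}
    (hδ : 0 < δ) (hη : 0 < η) :
    ∃ n0 : ℕ, ∀ n ≥ n0, Ex a 0 0 n (one fun w => ∑ i ∈ Finset.range n,
      nf a far (δ * Real.sqrt n) (w i) < n / (2 * s2 a)) w0 ≤ ENNReal.ofReal η := by
  obtain ⟨C, hC, hgap⟩ := gap_mean ha
  rcases hfar with rfl | rfl
  · exact occ0_aux ha (T := fun D => D) hC (fun _ => rfl) (fun K n => (hgap K n).1) hδ hη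
  · obtain ⟨n0, h⟩ := occ0_aux ha (T := refl) hC inv_refl (fun K n => (hgap K n).2) hδ hη
    refine ⟨n0, fun n hn => ?_⟩
    have := h n hn
    simp only [nf_refl]
    exact this

lemma contig_small (ha : Jump a) {κ η B : ℝ} (hη : 0 < η) (h0 : 0 ≤ κ) (h1 : κ ≤ 1 / 2)
    {n : ℕ} (hB : κ ^ 2 * n ≤ B) (A : Pth → Prop)
    (hA : Ex a 0 0 n (one A) w0 ≤ ENNReal.ofReal (η / (2 * (2 * Real.exp B / η)))) :
    Ex a κ 0 n (one A) w0 ≤ ENNReal.ofReal η := by
  set c : ℝ := 2 * Real.exp B / η with hc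
  have hc0 : 0 < c := by positivity
  have hcE : ENNReal.ofReal c ≠ 0 := by
    rw [Ne, ENNReal.ofReal_eq_zero, not_le]; exact hc0
  refine (contig ha h0 h1 0 n A w0 hcE ENNReal.ofReal_ne_top).trans ?_
  have h2 : (1 + κ ^ 2) ^ n ≤ Real.exp B := by
    calc (1 + κ ^ 2) ^ n ≤ Real.exp (κ ^ 2) ^ n := by
          apply pow_le_pow_left₀ (by positivity)
          linarith [Real.add_one_le_exp (κ ^ 2)]
      _ = Real.exp (n * κ ^ 2) := by rw [← Real.exp_nat_mul]
      _ ≤ Real.exp B := by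
          apply Real.exp_le_exp.mpr
          linarith
  calc _ ≤ ENNReal.ofReal c * ENNReal.ofReal (η / (2 * c)) +
        (ENNReal.ofReal c)⁻¹ * ENNReal.ofReal (Real.exp B) := by gcongr
    _ = ENNReal.ofReal η := by
        rw [← ENNReal.ofReal_inv_of_pos hc0, ← ENNReal.ofReal_mul hc0.le,
          ← ENNReal.ofReal_mul (by positivity), ← ENNReal.ofReal_add (by positivity) (by positivity)]
        congr 1
        rw [hc]
        field_simp
        norm_num

lemma occ (ha : Jump a) {far : Conf → ℝ → Prop} (hfar : far = farL ∨ far = farR) {δ η B : ℝ}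
    (hδ : 0 < δ) (hη : 0 < η) :
    ∃ n0 : ℕ, ∀ n ≥ n0, ∀ κ : ℝ, 0 ≤ κ → κ ≤ 1 / 2 → κ ^ 2 * n ≤ B →
      Ex a κ 0 n (one fun w => ∑ i ∈ Finset.range n,
      nf a far (δ * Real.sqrt n) (w i) < n / (2 * s2 a)) w0 ≤ ENNReal.ofReal η := by
  obtain ⟨n0, h⟩ := occ0 ha hfar hδ (show 0 < η / (2 * (2 * Real.exp B / η)) by positivity)
  exact ⟨n0, fun n hn κ h0 h1 hB => contig_small ha hη h0 h1 hB _ (h n hn)⟩

/-- Probability of a large jump of an end point of the interface. -/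
lemma jump_prob (ha : Jump a) {far : Conf → ℝ → Prop} {f : Conf → ℤ} {tl : ℕ → ℝ}
    (hside : (far = farL ∧ f = lft ∧ tl = tlL a) ∨ (far = farR ∧ f = rgt ∧ tl = tlR a))
    {δ η B : ℝ} (hδ : 0 < δ) (hη : 0 < η) :
    ∃ n0 : ℕ, ∀ n ≥ n0, ∀ ε : ℝ, 0 ≤ ε → ε ≤ 1 / 2 → ε ^ 2 * n ≤ B → ∀ (κ : ℝ) (p : ℕ),
      δ * Real.sqrt n ≤ κ → 2 * κ ≤ p →
      Ex a ε 0 n (one fun w => ∀ i < n, ¬ Jf f κ (w i) (w (i + 1))) w0 ≤
        ENNReal.ofReal (Real.exp (-(p * tl (2 * p) * n / (4 * s2 a))) + η) := by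
  have hs := s2_pos ha
  have hfar : far = farL ∨ far = farR := by
    rcases hside with ⟨h, _⟩ | ⟨h, _⟩
    · exact Or.inl h
    · exact Or.inr h
  obtain ⟨n0, hocc⟩ := occ (B := B) ha hfar hδ hη
  refine ⟨n0, fun n hn ε h0 h1 hB κ p hκ hp => ?_⟩
  have hκ0 : 0 ≤ κ := le_trans (by positivity) hκ
  have htl : 0 ≤ tl (2 * p) := by
    rcases hside with ⟨_, _, h⟩ | ⟨_, _, h⟩
    · rw [h]; exact tlL_nonneg ha _
    · rw [h, tlR_eq]; exact tlL_nonneg ha.refl _
  have hq : 0 ≤ (p:ℝ) * tl (2 * p) := by positivity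
  -- the one step lower bound
  set g : Conf → ℝ := fun D => 1 / 2 * (p * tl (2 * p)) * nf a far κ D with hg
  have hg0 : ∀ D, 0 ≤ g D := fun D => mul_nonneg (by positivity) (nf_nonneg ha far κ D)
  have hstep : ∀ D, ENNReal.ofReal (g D) ≤ ∑' j, pk a ε D j * ii (Jf f κ D (flipAt D j)) := by
    intro D
    by_cases hf : far D κ
    · have : g D = 0 := by
        simp only [hg]; unfold nf; rw [if_pos hf, mul_zero]
      rw [this, ENNReal.ofReal_zero]; exact zero_le
    · have e1 : g D = 1 / 2 * (rr a D * (p * tl (2 * p))) := by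
        simp only [hg]; unfold nf; rw [if_neg hf]; ring
      have e2 : g D ≤ (1 - ε) * (rr a D * (p * tl (2 * p))) := by
        rw [e1]
        apply mul_le_mul_of_nonneg_right (by linarith)
        exact mul_nonneg (rr_pos ha D).le hq
      refine (ENNReal.ofReal_le_ofReal e2).trans ?_
      rcases hside with ⟨h, h', h''⟩ | ⟨h, h', h''⟩
      · rw [h', h'']
        rw [h] at hf
        exact jump_left ha h0 (by linarith) hf hκ0 hp
      · rw [h', h'']
        rw [h] at hf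
        exact jump_right ha h0 (by linarith) hf hκ0 hp
  have hnj := no_jump ha h0 (by linarith) hg0 hstep (p * tl (2 * p) * n / (4 * s2 a)) 0 n w0
  have hmono : ∀ D, nf a far (δ * Real.sqrt n) D ≤ nf a far κ D := by
    intro D
    unfold nf
    by_cases hf : far D κ
    · have hf2 : far D (δ * Real.sqrt n) := by
        rcases hfar with h | h
        · rw [h] at hf ⊢
          obtain ⟨i, hi, hi2⟩ := hf
          exact ⟨i, hi, by linarith⟩
        · rw [h] at hf ⊢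
          obtain ⟨i, hi, hi2⟩ := hf
          exact ⟨i, hi, by linarith⟩
      rw [if_pos hf, if_pos hf2]
    · rw [if_neg hf]
      split_ifs
      · exact (rr_pos ha D).le
      · exact le_rfl
  have hsub : ∀ w, one (fun w => ∀ i < n, ¬ Jf f κ (w i) (w (i + 1))) w ≤
      (one (fun w => (∀ i < n, ¬ Jf f κ (w (0 + i)) (w (0 + i + 1))) ∧
        p * tl (2 * p) * n / (4 * s2 a) ≤ ∑ i ∈ Finset.range n, g (w (0 + i))) +
      one (fun w => ∑ i ∈ Finset.range n, nf a far (δ * Real.sqrt n) (w i) < n / (2 * s2 a))) w := by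
    intro w
    refine le_trans (one_mono ?_ w) (one_or_le _ _ w)
    intro w hw
    by_cases hc : ∑ i ∈ Finset.range n, nf a far (δ * Real.sqrt n) (w i) < n / (2 * s2 a)
    · exact Or.inr hc
    · left
      refine ⟨fun i hi => by rw [zero_add]; exact hw i hi, ?_⟩
      simp only [zero_add, hg]
      rw [← Finset.mul_sum]
      have h3 : ∑ i ∈ Finset.range n, nf a far (δ * Real.sqrt n) (w i) ≤
          ∑ i ∈ Finset.range n, nf a far κ (w i) := Finset.sum_le_sum fun i _ => hmono _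
      have h4 : (n:ℝ) / (2 * s2 a) ≤ ∑ i ∈ Finset.range n, nf a far κ (w i) :=
        (not_lt.mp hc).trans h3
      calc p * tl (2 * p) * n / (4 * s2 a) = 1 / 2 * (p * tl (2 * p)) * (n / (2 * s2 a)) := by
            field_simp; norm_num
        _ ≤ _ := mul_le_mul_of_nonneg_left h4 (by positivity)
  refine (Ex_mono hsub w0).trans ?_
  rw [Ex_add, Pi.add_apply, ENNReal.ofReal_add (Real.exp_pos _).le hη.le]
  exact add_le_add hnj (hocc n hn ε h0 h1 hB)

end Pool.Agent.K9h92.BV
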