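import Pool.Agent.K9h92.BV.Tot

set_option autoImplicit false

/-!
Transition operators of the jump chains, averages of functionals of the path.
-/

open ENNReal

namespace Pool.Agent.K9h92.BV

variable {a : ℤ → ℝ}

/-- transition probabilities of the jump chain with bias `ε` -/
noncomputable def pk (a : ℤ → ℝ) (ε : ℝ) (D : Conf) (j : ℤ) : ℝ≥0∞ :=
  ENNReal.ofReal (rate a ε D j / trate a ε D)

lemma rate_nonneg (ha : Jump a) {ε : ℝ} (h1 : ε < 1) (D : Conf) (j : ℤ) : 0 ≤ rate a ε D j := by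
  rw [rate_eq]
  apply mul_nonneg _ (urate_nonneg ha.nonneg D j)
  rcases ind_eq D j with h | h <;> rw [h] <;> linarith

lemma pk_sum (ha : Jump a) {ε : ℝ} (h0 : 0 ≤ ε) (h1 : ε < 1) (D : Conf) :
    ∑' j, pk a ε D j = 1 := by
  have ht := trate_pos ha h0 h1 D
  have hs := (trate_eq ha ε D).1
  unfold pk
  rw [← ENNReal.ofReal_tsum_of_nonneg (fun j => div_nonneg (rate_nonneg ha h1 D j) ht.le)
    (hs.div_const _), tsum_div_const]
  rw [show ∑' j, rate a ε D j = trate a ε D from rfl, div_self ht.ne', ENNReal.ofReal_one]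

lemma rate_zero (D : Conf) (j : ℤ) : rate a 0 D j = urate a D j := rfl

lemma trate_zero (D : Conf) : trate a 0 D = tot a D := rfl

lemma pk_real (ha : Jump a) {ε : ℝ} (D : Conf) (j : ℤ) : rate a ε D j / trate a ε D =
    urate a D j / tot a D * ((1 - ε * ind D j) / (1 - ε * qd a D)) := by
  rw [rate_eq, (trate_eq ha ε D).2]
  have h2 := (tot_pos ha D).ne'
  rw [mul_comm (1 - ε * qd a D), mul_comm (1 - ε * ind D j), mul_div_mul_comm]

lemma pk_eq_mul (ha : Jump a) {ε : ℝ} (D : Conf) (j : ℤ) :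
    pk a ε D j = pk a 0 D j * ENNReal.ofReal ((1 - ε * ind D j) / (1 - ε * qd a D)) := by
  unfold pk
  rw [pk_real ha, rate_zero, trate_zero, ← ENNReal.ofReal_mul]
  exact div_nonneg (urate_nonneg ha.nonneg D j) (tot_pos ha D).le

/-- the transition operator -/
noncomputable def Q (a : ℤ → ℝ) (κ : ℝ) (g : Conf → ℝ≥0∞) (D : Conf) : ℝ≥0∞ :=
  ∑' j, pk a κ D j * g (flipAt D j)

lemma Q_mono {κ : ℝ} {g h : Conf → ℝ≥0∞} (H : ∀ D, g D ≤ h D) (D : Conf) :
    Q a κ g D ≤ Q a κ h D := ENNReal.tsum_le_tsum fun j => by gcongr; exact H _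

lemma Q_add {κ : ℝ} (g h : Conf → ℝ≥0∞) : Q a κ (g + h) = Q a κ g + Q a κ h := by
  funext D
  unfold Q
  rw [Pi.add_apply]
  simp only [Pi.add_apply]
  rw [← ENNReal.tsum_add]
  apply tsum_congr; intro j; rw [mul_add]

lemma Q_smul {κ : ℝ} (c : ℝ≥0∞) (g : Conf → ℝ≥0∞) :
    Q a κ (fun D => c * g D) = fun D => c * Q a κ g D := by
  funext D
  unfold Q
  rw [← ENNReal.tsum_mul_left]
  apply tsum_congr; intro j; ring

lemma Q_const (ha : Jump a) {κ : ℝ} (h0 : 0 ≤ κ) (h1 : κ < 1) (c : ℝ≥0∞) :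
    Q a κ (fun _ => c) = fun _ => c := by
  funext D
  unfold Q
  rw [ENNReal.tsum_mul_right, pk_sum ha h0 h1, one_mul]

lemma Qn_mono {κ : ℝ} {g h : Conf → ℝ≥0∞} (H : ∀ D, g D ≤ h D) (n : ℕ) (D : Conf) :
    (Q a κ)^[n] g D ≤ (Q a κ)^[n] h D := by
  induction n generalizing D with
  | zero => exact H D
  | succ n ih =>
    rw [Function.iterate_succ', Function.comp, Function.comp]
    exact Q_mono ih D

lemma Qn_add {κ : ℝ} (g h : Conf → ℝ≥0∞) (n : ℕ) :
    (Q a κ)^[n] (g + h) = (Q a κ)^[n] g + (Q a κ)^[n] h := by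
  induction n with
  | zero => rfl
  | succ n ih =>
    rw [Function.iterate_succ', Function.comp, ih, Q_add]
    rfl

lemma Qn_smul {κ : ℝ} (c : ℝ≥0∞) (g : Conf → ℝ≥0∞) (n : ℕ) :
    (Q a κ)^[n] (fun D => c * g D) = fun D => c * (Q a κ)^[n] g D := by
  induction n with
  | zero => rfl
  | succ n ih =>
    rw [Function.iterate_succ', Function.comp, ih, Q_smul]
    rfl

lemma Qn_const (ha : Jump a) {κ : ℝ} (h0 : 0 ≤ κ) (h1 : κ < 1) (c : ℝ≥0∞) (n : ℕ) :
    (Q a κ)^[n] (fun _ => c) = fun _ => c := by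
  induction n with
  | zero => rfl
  | succ n ih => rw [Function.iterate_succ', Function.comp, ih, Q_const ha h0 h1]

/-- paths -/
abbrev Pth := ℕ → Conf

/-- dependence on the coordinates up to `n` only -/
def Dep (n : ℕ) (F : Pth → ℝ≥0∞) : Prop := ∀ w w' : Pth, (∀ i ≤ n, w i = w' i) → F w = F w'

lemma Dep.mono {n m : ℕ} {F : Pth → ℝ≥0∞} (h : Dep n F) (hnm : n ≤ m) : Dep m F :=
  fun w w' hw => h w w' fun i hi => hw i (hi.trans hnm)

lemma Dep.update {n m : ℕ} {F : Pth → ℝ≥0∞} (h : Dep n F) (hnm : n < m) (w : Pth) (D : Conf) :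
    F (Function.update w m D) = F w :=
  h _ _ fun i hi => Function.update_of_ne (by omega) _ _

/-- average over the step from time `k` to time `k + 1` -/
noncomputable def Av (a : ℤ → ℝ) (κ : ℝ) (k : ℕ) (F : Pth → ℝ≥0∞) (w : Pth) : ℝ≥0∞ :=
  ∑' j, pk a κ (w k) j * F (Function.update w (k + 1) (flipAt (w k) j))

/-- average over `n` steps from time `k` on -/
noncomputable def Ex (a : ℤ → ℝ) (κ : ℝ) : ℕ → ℕ → (Pth → ℝ≥0∞) → Pth → ℝ≥0∞
  | _, 0, F => F
  | k, n + 1, F => Av a κ k (Ex a κ (k + 1) n F)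

variable {κ : ℝ}

lemma Ex_zero (k : ℕ) (F : Pth → ℝ≥0∞) : Ex a κ k 0 F = F := rfl

lemma Ex_succ (k n : ℕ) (F : Pth → ℝ≥0∞) : Ex a κ k (n + 1) F = Av a κ k (Ex a κ (k + 1) n F) := rfl

lemma Av_mono {k : ℕ} {F G : Pth → ℝ≥0∞} (H : ∀ w, F w ≤ G w) (w : Pth) :
    Av a κ k F w ≤ Av a κ k G w := ENNReal.tsum_le_tsum fun j => by gcongr; exact H _

lemma Ex_mono {k n : ℕ} {F G : Pth → ℝ≥0∞} (H : ∀ w, F w ≤ G w) (w : Pth) :
    Ex a κ k n F w ≤ Ex a κ k n G w := by
  induction n generalizing k w with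
  | zero => exact H w
  | succ n ih => exact Av_mono (fun w => ih w) w

lemma Av_add (k : ℕ) (F G : Pth → ℝ≥0∞) : Av a κ k (F + G) = Av a κ k F + Av a κ k G := by
  funext w
  simp only [Av, Pi.add_apply]
  rw [← ENNReal.tsum_add]
  apply tsum_congr; intro j; rw [mul_add]

lemma Ex_add (k n : ℕ) (F G : Pth → ℝ≥0∞) : Ex a κ k n (F + G) = Ex a κ k n F + Ex a κ k n G := by
  induction n generalizing k with
  | zero => rfl
  | succ n ih => rw [Ex_succ, ih, Av_add]; rfl

lemma Av_mul {k : ℕ} {G : Pth → ℝ≥0∞} (hG : Dep k G) (F : Pth → ℝ≥0∞) (w : Pth) :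
    Av a κ k (fun w => G w * F w) w = G w * Av a κ k F w := by
  unfold Av
  rw [← ENNReal.tsum_mul_left]
  apply tsum_congr; intro j
  beta_reduce
  rw [hG.update (Nat.lt_succ_self k)]; ring

lemma Ex_mul {k n : ℕ} {G : Pth → ℝ≥0∞} (hG : Dep k G) (F : Pth → ℝ≥0∞) :
    Ex a κ k n (fun w => G w * F w) = fun w => G w * Ex a κ k n F w := by
  induction n generalizing k with
  | zero => rfl
  | succ n ih =>
    rw [Ex_succ, ih (hG.mono (Nat.le_succ k))]
    funext w
    exact Av_mul hG _ w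

lemma Dep_const (n : ℕ) (c : ℝ≥0∞) : Dep n fun _ => c := fun _ _ _ => rfl

lemma Ex_smul (k n : ℕ) (c : ℝ≥0∞) (F : Pth → ℝ≥0∞) :
    Ex a κ k n (fun w => c * F w) = fun w => c * Ex a κ k n F w := Ex_mul (Dep_const k c) F

lemma Av_const (ha : Jump a) (h0 : 0 ≤ κ) (h1 : κ < 1) (k : ℕ) (c : ℝ≥0∞) :
    Av a κ k (fun _ => c) = fun _ => c := by
  funext w
  unfold Av
  rw [ENNReal.tsum_mul_right, pk_sum ha h0 h1, one_mul]

lemma Ex_const (ha : Jump a) (h0 : 0 ≤ κ) (h1 : κ < 1) (k n : ℕ) (c : ℝ≥0∞) :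
    Ex a κ k n (fun _ => c) = fun _ => c := by
  induction n generalizing k with
  | zero => rfl
  | succ n ih => rw [Ex_succ, ih, Av_const ha h0 h1]

lemma Ex_of_dep (ha : Jump a) (h0 : 0 ≤ κ) (h1 : κ < 1) {k n : ℕ} {F : Pth → ℝ≥0∞}
    (hF : Dep k F) : Ex a κ k n F = F := by
  have := Ex_mul (a := a) (κ := κ) (n := n) hF (fun _ => 1)
  simp only [mul_one] at this
  rw [this]
  funext w
  rw [Ex_const ha h0 h1, mul_one]

lemma Ex_tower (k n m : ℕ) (F : Pth → ℝ≥0∞) :
    Ex a κ k (n + m) F = Ex a κ k n (Ex a κ (k + n) m F) := by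
  induction n generalizing k with
  | zero => simp [Ex_zero]
  | succ n ih =>
    rw [show n + 1 + m = (n + m) + 1 by ring, Ex_succ, ih, Ex_succ,
      show k + 1 + n = k + (n + 1) by ring]

lemma Dep_Av {k : ℕ} {F : Pth → ℝ≥0∞} (hF : Dep (k + 1) F) : Dep k (Av a κ k F) := by
  intro w w' h
  unfold Av
  apply tsum_congr
  intro j
  rw [h k le_rfl]
  congr 1
  apply hF
  intro i hi
  by_cases hik : i = k + 1
  · subst hik; simp
  · rw [Function.update_of_ne hik, Function.update_of_ne hik]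
    exact h i (by omega)

lemma Dep_Ex {k n : ℕ} {F : Pth → ℝ≥0∞} (hF : Dep (k + n) F) : Dep k (Ex a κ k n F) := by
  induction n generalizing k with
  | zero => exact hF
  | succ n ih =>
    rw [Ex_succ]
    apply Dep_Av
    apply ih
    rwa [show k + 1 + n = k + (n + 1) by ring]

/-- one-time averages are given by the transition operator -/
lemma Ex_single {k n m : ℕ} (hm : m = k + n) (g : Conf → ℝ≥0∞) (w : Pth) :
    Ex a κ k n (fun w => g (w m)) w = (Q a κ)^[n] g (w k) := by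
  induction n generalizing k w with
  | zero => subst hm; rfl
  | succ n ih =>
    rw [Ex_succ]
    have e : Ex a κ (k + 1) n (fun w => g (w m)) = fun w => (Q a κ)^[n] g (w (k + 1)) := by
      funext w; exact ih (by omega) w
    rw [e, Function.iterate_succ', Function.comp]
    unfold Av Q
    apply tsum_congr
    intro j
    simp

/-- indicator of a set of paths -/
noncomputable def one (A : Pth → Prop) (w : Pth) : ℝ≥0∞ := by
  classical exact if A w then 1 else 0

lemma one_of {A : Pth → Prop} {w : Pth} (h : A w) : one A w = 1 := by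
  unfold one; simp [h]

lemma one_of_not {A : Pth → Prop} {w : Pth} (h : ¬ A w) : one A w = 0 := by
  unfold one; simp [h]

lemma one_le_one (A : Pth → Prop) (w : Pth) : one A w ≤ 1 := by
  by_cases h : A w
  · rw [one_of h]
  · rw [one_of_not h]; exact zero_le

lemma one_mono {A B : Pth → Prop} (h : ∀ w, A w → B w) (w : Pth) : one A w ≤ one B w := by
  by_cases hA : A w
  · rw [one_of hA, one_of (h w hA)]
  · rw [one_of_not hA]; exact zero_le

lemma one_or_le (A B : Pth → Prop) (w : Pth) : one (fun w => A w ∨ B w) w ≤ one A w + one B w := by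
  by_cases hA : A w
  · rw [one_of hA, one_of (Or.inl hA)]; exact le_self_add
  · by_cases hB : B w
    · rw [one_of hB, one_of (Or.inr hB)]; exact le_add_self
    · rw [one_of_not (by tauto)]; exact zero_le

/-- Markov's inequality -/
lemma Ex_markov (k n : ℕ) (c : ℝ≥0∞) (F : Pth → ℝ≥0∞) (w : Pth) :
    c * Ex a κ k n (one fun w => c ≤ F w) w ≤ Ex a κ k n F w := by
  rw [← congrFun (Ex_smul k n c _) w]
  apply Ex_mono
  intro w
  by_cases h : c ≤ F w
  · rw [one_of h, mul_one]; exact h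
  · rw [one_of_not h, mul_zero]; exact zero_le

lemma submart_le {Y : ℕ → Pth → ℝ≥0∞} {k0 : ℕ}
    (hY : ∀ m, k0 ≤ m → ∀ w, Y m w ≤ Av a κ m (Y (m + 1)) w)
    (k n : ℕ) (hk : k0 ≤ k) (w : Pth) : Y k w ≤ Ex a κ k n (Y (k + n)) w := by
  induction n generalizing k w with
  | zero => exact le_rfl
  | succ n ih =>
    rw [Ex_succ]
    refine (hY k hk w).trans (Av_mono (fun w => ?_) w)
    have := ih (k + 1) (by omega) w
    rwa [show k + 1 + n = k + (n + 1) by ring] at this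

/-- Doob's maximal inequality -/
lemma doob' (ha : Jump a) (h0 : 0 ≤ κ) (h1 : κ < 1) {Y : ℕ → Pth → ℝ≥0∞} {k0 : ℕ}
    (hd : ∀ m, k0 ≤ m → Dep m (Y m))
    (hY : ∀ m, k0 ≤ m → ∀ w, Y m w ≤ Av a κ m (Y (m + 1)) w) (c : ℝ≥0∞)
    (k n : ℕ) (hk : k0 ≤ k) (w : Pth) :
    c * Ex a κ k n (one fun w => ∃ m, k ≤ m ∧ m ≤ k + n ∧ c ≤ Y m w) w ≤
      Ex a κ k n (Y (k + n)) w := by
  induction n generalizing k w with
  | zero =>
    simp only [Ex_zero, add_zero]
    by_cases h : c ≤ Y k w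
    · rw [one_of ⟨k, le_rfl, le_rfl, h⟩, mul_one]; exact h
    · rw [one_of_not, mul_zero]; exact zero_le
      rintro ⟨m, hm1, hm2, hm3⟩
      have : m = k := le_antisymm hm2 hm1
      subst this
      exact h hm3
  | succ n ih =>
    have hsplit : ∀ w, one (fun w => ∃ m, k ≤ m ∧ m ≤ k + (n + 1) ∧ c ≤ Y m w) w ≤
        one (fun w => c ≤ Y k w) w + one (fun w => ¬ c ≤ Y k w) w *
          one (fun w => ∃ m, k + 1 ≤ m ∧ m ≤ (k + 1) + n ∧ c ≤ Y m w) w := by
      intro w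
      by_cases h : c ≤ Y k w
      · rw [one_of (A := fun w => c ≤ Y k w) h]; exact (one_le_one _ _).trans le_self_add
      · rw [one_of (A := fun w => ¬ c ≤ Y k w) h, one_mul]
        refine le_trans ?_ le_add_self
        by_cases h2 : ∃ m, k ≤ m ∧ m ≤ k + (n + 1) ∧ c ≤ Y m w
        · obtain ⟨m, hm1, hm2, hm3⟩ := h2
          have hne : m ≠ k := by rintro rfl; exact h hm3
          have h3 : ∃ m, k + 1 ≤ m ∧ m ≤ (k + 1) + n ∧ c ≤ Y m w := ⟨m, by omega, by omega, hm3⟩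
          rw [one_of (A := fun w => ∃ m, k + 1 ≤ m ∧ m ≤ (k + 1) + n ∧ c ≤ Y m w) h3]
          exact one_le_one _ _
        · rw [one_of_not h2]; exact zero_le
    have hd1 : Dep k (one fun w => c ≤ Y k w) := by
      intro w w' hw
      unfold one
      beta_reduce
      rw [hd k hk w w' hw]
    have hd2 : Dep k (one fun w => ¬ c ≤ Y k w) := by
      intro w w' hw
      unfold one
      beta_reduce
      rw [hd k hk w w' hw]
    have hstep : c * Ex a κ k (n + 1)
        (one fun w => ∃ m, k + 1 ≤ m ∧ m ≤ (k + 1) + n ∧ c ≤ Y m w) w ≤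
        Ex a κ k (n + 1) (Y (k + (n + 1))) w := by
      rw [← congrFun (Ex_smul k (n + 1) c _) w, Ex_succ, Ex_succ]
      apply Av_mono
      intro w
      rw [congrFun (Ex_smul (k + 1) n c _) w]
      have := ih (k + 1) (by omega) w
      rwa [show k + 1 + n = k + (n + 1) by ring] at this ⊢
    calc c * Ex a κ k (n + 1) (one fun w => ∃ m, k ≤ m ∧ m ≤ k + (n + 1) ∧ c ≤ Y m w) w
        ≤ c * Ex a κ k (n + 1) (fun w => one (fun w => c ≤ Y k w) w + one (fun w => ¬ c ≤ Y k w) w *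
          one (fun w => ∃ m, k + 1 ≤ m ∧ m ≤ (k + 1) + n ∧ c ≤ Y m w) w) w := by
          gcongr
          exact Ex_mono hsplit w
      _ = c * (one (fun w => c ≤ Y k w) w + one (fun w => ¬ c ≤ Y k w) w *
          Ex a κ k (n + 1) (one (fun w => ∃ m, k + 1 ≤ m ∧ m ≤ (k + 1) + n ∧ c ≤ Y m w)) w) := by
          congr 1
          have e := congrFun (Ex_add (a := a) (κ := κ) k (n + 1) (one fun w => c ≤ Y k w)
            (fun w => one (fun w => ¬ c ≤ Y k w) w *
              one (fun w => ∃ m, k + 1 ≤ m ∧ m ≤ (k + 1) + n ∧ c ≤ Y m w) w)) w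
          rw [Pi.add_apply, Ex_of_dep ha h0 h1 hd1, Ex_mul hd2] at e
          exact e
      _ ≤ Ex a κ k (n + 1) (Y (k + (n + 1))) w := by
          by_cases h : c ≤ Y k w
          · have h2 : ¬ ¬ c ≤ Y k w := not_not.mpr h
            rw [one_of (A := fun w => c ≤ Y k w) h, one_of_not (A := fun w => ¬ c ≤ Y k w) h2,
              zero_mul, add_zero, mul_one]
            exact h.trans (submart_le hY k (n + 1) hk w)
          · rw [one_of_not (A := fun w => c ≤ Y k w) h, one_of (A := fun w => ¬ c ≤ Y k w) h,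
              one_mul, zero_add]
            exact hstep

lemma doob (ha : Jump a) (h0 : 0 ≤ κ) (h1 : κ < 1) {Y : ℕ → Pth → ℝ≥0∞}
    (hd : ∀ m, Dep m (Y m)) (hY : ∀ m w, Y m w ≤ Av a κ m (Y (m + 1)) w) (c : ℝ≥0∞)
    (k n : ℕ) (w : Pth) :
    c * Ex a κ k n (one fun w => ∃ m, k ≤ m ∧ m ≤ k + n ∧ c ≤ Y m w) w ≤
      Ex a κ k n (Y (k + n)) w :=
  doob' (k0 := 0) ha h0 h1 (fun m _ => hd m) (fun m _ => hY m) c k n (Nat.zero_le k) w

/-- the increment of the centre of mass -/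
noncomputable def xi (i : ℕ) (w : Pth) : ℝ := (M (w (i + 1)) : ℝ) - M (w i)

/-- the likelihood ratio of one step -/
noncomputable def lam1 (a : ℤ → ℝ) (ε : ℝ) (k : ℕ) (w : Pth) : ℝ≥0∞ :=
  ENNReal.ofReal ((1 - ε * ((1 - xi k w) / 2)) / (1 - ε * qd a (w k)))

/-- the likelihood ratio -/
noncomputable def Lam (a : ℤ → ℝ) (κ : ℝ) (k n : ℕ) (w : Pth) : ℝ≥0∞ :=
  ∏ i ∈ Finset.range n, lam1 a κ (k + i) w

lemma xi_update (k : ℕ) (w : Pth) (j : ℤ) :
    xi k (Function.update w (k + 1) (flipAt (w k) j)) = 1 - 2 * ind (w k) j := by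
  unfold xi
  rw [Function.update_self, Function.update_of_ne (by omega), M_flipAt]; ring

lemma lam1_update (k : ℕ) (w : Pth) (j : ℤ) :
    lam1 a κ k (Function.update w (k + 1) (flipAt (w k) j)) =
      ENNReal.ofReal ((1 - κ * ind (w k) j) / (1 - κ * qd a (w k))) := by
  unfold lam1
  rw [xi_update, Function.update_of_ne (by omega)]
  congr 3
  ring

lemma Av_change (ha : Jump a) (k : ℕ) (F : Pth → ℝ≥0∞) (w : Pth) :
    Av a κ k F w = Av a 0 k (fun w => lam1 a κ k w * F w) w := by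
  unfold Av
  apply tsum_congr
  intro j
  beta_reduce
  rw [pk_eq_mul ha, lam1_update]; ring

lemma Dep_xi {k n : ℕ} (h : k < n) (f : ℝ → ℝ≥0∞) : Dep n fun w => f (xi k w) := by
  intro w w' hw
  unfold xi
  simp only
  rw [hw (k + 1) h, hw k h.le]

lemma Dep_lam1 {k n : ℕ} (h : k < n) (f : ℝ≥0∞ → ℝ≥0∞) : Dep n fun w => f (lam1 a κ k w) := by
  intro w w' hw
  unfold lam1 xi
  simp only
  rw [hw (k + 1) h, hw k h.le]

lemma Lam_succ (k n : ℕ) (w : Pth) :
    Lam a κ k (n + 1) w = lam1 a κ k w * Lam a κ (k + 1) n w := by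
  unfold Lam
  rw [Finset.prod_range_succ', mul_comm, add_zero]
  congr 1
  apply Finset.prod_congr rfl
  intro i _
  rw [show k + (i + 1) = k + 1 + i by ring]

lemma Ex_change (ha : Jump a) (k n : ℕ) (F : Pth → ℝ≥0∞) :
    Ex a κ k n F = Ex a 0 k n (fun w => Lam a κ k n w * F w) := by
  induction n generalizing k with
  | zero => simp [Ex_zero, Lam]
  | succ n ih =>
    funext w
    rw [Ex_succ, Av_change ha, Ex_succ, ih]
    congr 1
    rw [← Ex_mul (Dep_lam1 (Nat.lt_succ_self k) (fun x => x))]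
    congr 1
    funext w
    rw [Lam_succ, mul_assoc]

lemma sum_sgn (ha : Jump a) (h0 : 0 ≤ κ) (h1 : κ < 1) (D : Conf) (u v : ℝ≥0∞) :
    ∑' j, pk a κ D j * (if on D j then v else u) =
      ENNReal.ofReal ((1 - qd a D) / (1 - κ * qd a D)) * u +
        ENNReal.ofReal ((1 - κ) * qd a D / (1 - κ * qd a D)) * v := by
  have ht := tot_pos ha D
  have hq := one_sub_qd_pos ha h0 h1 D
  obtain ⟨su, tu⟩ := up_rate ha D
  obtain ⟨sd, td⟩ := down_rate ha D
  have e : ∀ j, pk a κ D j * (if on D j then v else u) =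
      ENNReal.ofReal (1 / (1 - κ * qd a D) / tot a D * (co D j * urate a D j)) * u +
      ENNReal.ofReal ((1 - κ) / (1 - κ * qd a D) / tot a D * (ind D j * urate a D j)) * v := by
    intro j
    unfold pk
    rw [pk_real ha]
    by_cases h : on D j
    · have h1 : ind D j = 1 := by unfold ind; rw [if_pos h]
      rw [if_pos h]
      unfold co
      rw [h1, sub_self, zero_mul, mul_zero, ENNReal.ofReal_zero, zero_mul, zero_add]
      congr 2
      field_simp
    · have h1 : ind D j = 0 := by unfold ind; rw [if_neg h]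
      rw [if_neg h]
      unfold co
      rw [h1, zero_mul, mul_zero ((1 - κ) / (1 - κ * qd a D) / tot a D), ENNReal.ofReal_zero,
        zero_mul, add_zero]
      congr 2
      field_simp
      ring
  rw [tsum_congr e, ENNReal.tsum_add, ENNReal.tsum_mul_right, ENNReal.tsum_mul_right]
  congr 2
  · rw [← ENNReal.ofReal_tsum_of_nonneg _ (su.mul_left _), tsum_mul_left, tu]
    · congr 1
      unfold qd at hq ⊢
      field_simp
      ring
    · intro j
      exact mul_nonneg (by positivity) (mul_nonneg (co_nonneg _ _) (urate_nonneg ha.nonneg _ _))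
  · rw [← ENNReal.ofReal_tsum_of_nonneg _ (sd.mul_left _), tsum_mul_left, td]
    · congr 1
      unfold qd at hq ⊢
      field_simp
    · intro j
      have : 0 ≤ (1 - κ) / (1 - κ * qd a D) / tot a D :=
        div_nonneg (div_nonneg (by linarith) hq.le) ht.le
      exact mul_nonneg this (mul_nonneg (ind_nonneg _ _) (urate_nonneg ha.nonneg _ _))

/-- one step average of a function of the sign of the step -/
lemma Av_sgn (ha : Jump a) (h0 : 0 ≤ κ) (h1 : κ < 1) (k : ℕ) (f : ℝ → ℝ≥0∞) (w : Pth) :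
    Av a κ k (fun w => f (xi k w)) w =
      ENNReal.ofReal ((1 - qd a (w k)) / (1 - κ * qd a (w k))) * f 1 +
        ENNReal.ofReal ((1 - κ) * qd a (w k) / (1 - κ * qd a (w k))) * f (-1) := by
  rw [← sum_sgn ha h0 h1 (w k)]
  unfold Av
  apply tsum_congr
  intro j
  beta_reduce
  rw [xi_update]
  by_cases h : on (w k) j
  · have h1 : ind (w k) j = 1 := by unfold ind; rw [if_pos h]
    rw [if_pos h, h1]; norm_num
  · have h1 : ind (w k) j = 0 := by unfold ind; rw [if_neg h]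
    rw [if_neg h, h1]; norm_num

/-- one step second moment of the likelihood ratio -/
lemma lam1_sq (ha : Jump a) (h0 : 0 ≤ κ) (h1 : κ ≤ 1 / 2) (k : ℕ) (w : Pth) :
    Av a 0 k (fun w => lam1 a κ k w ^ 2) w ≤ ENNReal.ofReal (1 + κ ^ 2) := by
  have hq0 := qd_nonneg ha (w k)
  have hq1 := qd_le_one ha (w k)
  set q := qd a (w k) with hq
  have hpos : 0 < 1 - κ * q := by nlinarith
  have e : Av a 0 k (fun w => lam1 a κ k w ^ 2) w =
      ∑' j, pk a 0 (w k) j * (if on (w k) j then ENNReal.ofReal (((1 - κ) / (1 - κ * q)) ^ 2) else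
        ENNReal.ofReal ((1 / (1 - κ * q)) ^ 2)) := by
    unfold Av
    apply tsum_congr
    intro j
    beta_reduce
    rw [lam1_update]
    congr 1
    by_cases h : on (w k) j
    · have h1' : ind (w k) j = 1 := by unfold ind; rw [if_pos h]
      rw [if_pos h, h1', mul_one, ENNReal.ofReal_pow]
      exact div_nonneg (by linarith) hpos.le
    · have h1' : ind (w k) j = 0 := by unfold ind; rw [if_neg h]
      rw [if_neg h, h1', mul_zero, sub_zero, ENNReal.ofReal_pow]
      positivity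
  rw [e, sum_sgn ha le_rfl one_pos, ← hq]
  rw [← ENNReal.ofReal_mul (by rw [zero_mul, sub_zero, div_one]; linarith),
    ← ENNReal.ofReal_mul (by simpa using hq0),
    ← ENNReal.ofReal_add]
  · apply ENNReal.ofReal_le_ofReal
    simp only [zero_mul, sub_zero, div_one, one_mul]
    rw [div_pow, div_pow, mul_div_assoc', mul_div_assoc', ← add_div, div_le_iff₀ (by positivity)]
    have h3 : κ * q ≤ 1 / 2 := by nlinarith
    have h4 : (1 / 2) ^ 2 ≤ (1 - κ * q) ^ 2 := pow_le_pow_left₀ (by norm_num) (by linarith) 2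
    have h5 : q * (1 - q) ≤ 1 / 4 := by nlinarith [sq_nonneg (q - 1 / 2)]
    have h6 : κ ^ 2 * (q * (1 - q)) ≤ κ ^ 2 * (1 - κ * q) ^ 2 := by
      apply mul_le_mul_of_nonneg_left _ (sq_nonneg _)
      linarith
    nlinarith
  · rw [zero_mul, sub_zero, div_one]
    have : 0 ≤ 1 - q := by linarith
    positivity
  · rw [zero_mul, sub_zero, div_one, one_mul]
    positivity

lemma Lam_sq (ha : Jump a) (h0 : 0 ≤ κ) (h1 : κ ≤ 1 / 2) (k n : ℕ) (w : Pth) :
    Ex a 0 k n (fun w => Lam a κ k n w ^ 2) w ≤ ENNReal.ofReal ((1 + κ ^ 2) ^ n) := by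
  induction n generalizing k w with
  | zero => simp [Ex_zero, Lam]
  | succ n ih =>
    rw [Ex_succ]
    have e1 : (fun w => Lam a κ k (n + 1) w ^ 2) =
        fun w => lam1 a κ k w ^ 2 * Lam a κ (k + 1) n w ^ 2 := by
      funext w; rw [Lam_succ, mul_pow]
    rw [e1, Ex_mul (Dep_lam1 (Nat.lt_succ_self k) (fun x => x ^ 2))]
    calc Av a 0 k (fun w => lam1 a κ k w ^ 2 * Ex a 0 (k + 1) n (fun w => Lam a κ (k + 1) n w ^ 2) w) w
        ≤ Av a 0 k (fun w => ENNReal.ofReal ((1 + κ ^ 2) ^ n) * lam1 a κ k w ^ 2) w := by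
          apply Av_mono
          intro w
          rw [mul_comm]
          gcongr
          exact ih (k + 1) w
      _ = ENNReal.ofReal ((1 + κ ^ 2) ^ n) * Av a 0 k (fun w => lam1 a κ k w ^ 2) w :=
          Av_mul (Dep_const k _) _ w
      _ ≤ ENNReal.ofReal ((1 + κ ^ 2) ^ n) * ENNReal.ofReal (1 + κ ^ 2) := by
          gcongr
          exact lam1_sq ha h0 h1 k w
      _ = ENNReal.ofReal ((1 + κ ^ 2) ^ (n + 1)) := by
          rw [← ENNReal.ofReal_mul (by positivity), pow_succ (1 + κ ^ 2) n]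

/-- Comparison of the probabilities of an event for the two chains. -/
lemma contig (ha : Jump a) (h0 : 0 ≤ κ) (h1 : κ ≤ 1 / 2) (k n : ℕ) (A : Pth → Prop) (w : Pth)
    {c : ℝ≥0∞} (hc : c ≠ 0) (hc' : c ≠ ∞) :
    Ex a κ k n (one A) w ≤ c * Ex a 0 k n (one A) w + c⁻¹ * ENNReal.ofReal ((1 + κ ^ 2) ^ n) := by
  refine le_trans ?_ (add_le_add_right (mul_le_mul_right (Lam_sq ha h0 h1 k n w) c⁻¹) _)
  rw [Ex_change ha, ← congrFun (Ex_smul k n c _) w,
    ← congrFun (Ex_smul k n c⁻¹ _) w, ← Pi.add_apply, ← Ex_add]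
  apply Ex_mono
  intro w
  rw [Pi.add_apply]
  by_cases h : A w
  · rw [one_of h, mul_one, mul_one]
    rcases le_total (Lam a κ k n w) c with h2 | h2
    · exact h2.trans le_self_add
    · refine le_trans ?_ le_add_self
      calc Lam a κ k n w = c⁻¹ * c * Lam a κ k n w := by rw [ENNReal.inv_mul_cancel hc hc', one_mul]
        _ ≤ c⁻¹ * Lam a κ k n w * Lam a κ k n w := by gcongr
        _ = c⁻¹ * Lam a κ k n w ^ 2 := by ring
  · rw [one_of_not h, mul_zero]; exact zero_le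

/-- the initial path -/
def w0 : Pth := fun _ => ∅

lemma Ex_trunc (ha : Jump a) (h0 : 0 ≤ κ) (h1 : κ < 1) {k m l : ℕ} {F : Pth → ℝ≥0∞}
    (hF : Dep (k + m) F) : Ex a κ k (m + l) F = Ex a κ k m F := by
  rw [Ex_tower, Ex_of_dep ha h0 h1 hF]

lemma Ex_sum {ι : Type*} (s : Finset ι) (k n : ℕ) (F : ι → Pth → ℝ≥0∞) (w : Pth) :
    Ex a κ k n (fun w => ∑ i ∈ s, F i w) w = ∑ i ∈ s, Ex a κ k n (F i) w := by
  classical
  induction s using Finset.induction_on generalizing w with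
  | empty =>
    simp only [Finset.sum_empty]
    have := congrFun (Ex_smul (a := a) (κ := κ) k n 0 (fun _ => 0)) w
    simpa using this
  | insert i s hi ih =>
    simp only [Finset.sum_insert hi]
    have := congrFun (Ex_add (a := a) (κ := κ) k n (F i) (fun w => ∑ i ∈ s, F i w)) w
    rw [Pi.add_apply, ih] at this
    exact this

lemma one_exists_le {ι : Type*} (s : Finset ι) (A : ι → Pth → Prop) (w : Pth) :
    one (fun w => ∃ i ∈ s, A i w) w ≤ ∑ i ∈ s, one (A i) w := by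
  by_cases h : ∃ i ∈ s, A i w
  · obtain ⟨i, hi, hA⟩ := h
    calc one (fun w => ∃ i ∈ s, A i w) w ≤ 1 := one_le_one _ _
      _ = one (A i) w := (one_of hA).symm
      _ ≤ _ := Finset.single_le_sum (f := fun i => one (A i) w) (fun _ _ => zero_le) hi
  · rw [one_of_not h]; exact zero_le

lemma Dep_one_of {n : ℕ} {A : Pth → Prop} (h : ∀ w w' : Pth, (∀ i ≤ n, w i = w' i) → (A w ↔ A w')) :
    Dep n (one A) := by
  intro w w' hw
  have := h w w' hw
  by_cases hA : A w
  · rw [one_of hA, one_of (this.mp hA)]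
  · rw [one_of_not hA, one_of_not (fun h => hA (this.mpr h))]


/-- the asymmetry of the jump chain for centred kernels -/
noncomputable def kap (ε : ℝ) : ℝ := ε / (2 - ε)

lemma kap_nonneg {ε : ℝ} (h0 : 0 ≤ ε) (h1 : ε < 1) : 0 ≤ kap ε := by
  unfold kap; apply div_nonneg h0; linarith

lemma kap_le {ε : ℝ} (h0 : 0 ≤ ε) (h1 : ε < 1) : kap ε ≤ ε := by
  unfold kap; apply div_le_self h0; linarith

lemma kap_lt {ε : ℝ} (h0 : 0 ≤ ε) (h1 : ε < 1) : kap ε < 1 := (kap_le h0 h1).trans_lt h1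

lemma sum_sgn_c (ha : Jump a) (hc : cm a = 0) {ε : ℝ} (h0 : 0 ≤ ε) (h1 : ε < 1) (D : Conf)
    (u v : ℝ≥0∞) : ∑' j, pk a ε D j * (if on D j then v else u) =
      ENNReal.ofReal ((1 + kap ε) / 2) * u + ENNReal.ofReal ((1 - kap ε) / 2) * v := by
  rw [sum_sgn ha h0 h1, qd_centred ha hc]
  have h2 : (2 - ε) ≠ 0 := by linarith
  have h3 : (1 - ε * (1 / 2)) ≠ 0 := by
    have : 0 < 1 - ε * (1 / 2) := by linarith
    exact this.ne'
  unfold kap
  congr 3
  · field_simp
    ring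
  · field_simp
    ring

lemma Av_sgn_c (ha : Jump a) (hc : cm a = 0) {ε : ℝ} (h0 : 0 ≤ ε) (h1 : ε < 1) (k : ℕ)
    (f : ℝ → ℝ≥0∞) (w : Pth) : Av a ε k (fun w => f (xi k w)) w =
      ENNReal.ofReal ((1 + kap ε) / 2) * f 1 + ENNReal.ofReal ((1 - kap ε) / 2) * f (-1) := by
  rw [← sum_sgn_c ha hc h0 h1 (w k), Av_sgn ha h0 h1, sum_sgn ha h0 h1]

end Pool.Agent.K9h92.BV
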