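import Pool.Agent.K9h92.BV.Conf2

set_option autoImplicit false

/-!
Jump kernels and flip rates.
-/

namespace Pool.Agent.K9h92.BV

/-- The assumptions on the jump kernel: nonnegative summable rates with a finite second moment,
and irreducibility of the random walk with these rates (every integer is a sum of integers with a
positive rate). -/
structure Jump (a : ℤ → ℝ) : Prop where
  nonneg : ∀ k, 0 ≤ a k
  summable : Summable a
  second : Summable fun k : ℤ => (k : ℝ) ^ 2 * a k
  irred : AddSubmonoid.closure {k : ℤ | 0 < a k} = ⊤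

/-- The rate at which the biased voter model with bias `ε` changes the value at the site `j`. -/
noncomputable def rate (a : ℤ → ℝ) (ε : ℝ) (D : Conf) (j : ℤ) : ℝ :=
  if on D j then (1 - ε) * ∑' i, (if on D i then 0 else a (j - i))
  else ∑' i, (if on D i then a (j - i) else 0)

/-- unbiased rate -/
noncomputable def urate (a : ℤ → ℝ) (D : Conf) (j : ℤ) : ℝ := rate a 0 D j

lemma rate_eq (a : ℤ → ℝ) (ε : ℝ) (D : Conf) (j : ℤ) :
    rate a ε D j = (1 - ε * ind D j) * urate a D j := by
  unfold urate rate ind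
  by_cases h : on D j <;> simp [h]

lemma urate_eq (a : ℤ → ℝ) (D : Conf) (j : ℤ) :
    urate a D j = ∑' k, a k * |ind D (j - k) - ind D j| := by
  unfold urate rate
  by_cases h : on D j
  · rw [if_pos h]
    rw [← (Equiv.subLeft j).tsum_eq]
    rw [sub_zero, one_mul]
    apply tsum_congr
    intro k
    simp only [Equiv.subLeft_apply]
    have h1 : ind D j = 1 := by unfold ind; rw [if_pos h]
    rw [h1]
    by_cases h2 : on D (j - k)
    · have h3 : ind D (j - k) = 1 := by unfold ind; rw [if_pos h2]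
      rw [if_pos h2, h3]; simp
    · have h3 : ind D (j - k) = 0 := by unfold ind; rw [if_neg h2]
      rw [if_neg h2, h3]; simp
  · rw [if_neg h]
    rw [← (Equiv.subLeft j).tsum_eq]
    apply tsum_congr
    intro k
    simp only [Equiv.subLeft_apply]
    have h1 : ind D j = 0 := by unfold ind; rw [if_neg h]
    rw [h1]
    by_cases h2 : on D (j - k)
    · have h3 : ind D (j - k) = 1 := by unfold ind; rw [if_pos h2]
      rw [if_pos h2, h3]; simp
    · have h3 : ind D (j - k) = 0 := by unfold ind; rw [if_neg h2]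
      rw [if_neg h2, h3]; simp

lemma abs_ind_sub_le (D : Conf) (i j : ℤ) : |ind D i - ind D j| ≤ 1 := by
  rcases ind_eq D i with h | h <;> rcases ind_eq D j with h' | h' <;> rw [h, h'] <;> norm_num

lemma urate_nonneg {a : ℤ → ℝ} (ha : ∀ k, 0 ≤ a k) (D : Conf) (j : ℤ) : 0 ≤ urate a D j := by
  rw [urate_eq]
  exact tsum_nonneg fun k => mul_nonneg (ha k) (abs_nonneg _)

lemma sm_abs {a : ℤ → ℝ} (h0 : ∀ k, 0 ≤ a k) (hs : Summable a) (D : Conf) (j : ℤ) :
    Summable fun k => a k * |ind D (j - k) - ind D j| := by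
  apply Summable.of_nonneg_of_le (fun k => mul_nonneg (h0 k) (abs_nonneg _)) _ hs
  intro k
  calc a k * |ind D (j - k) - ind D j| ≤ a k * 1 :=
        mul_le_mul_of_nonneg_left (abs_ind_sub_le _ _ _) (h0 k)
    _ = a k := mul_one _

lemma sm_diff {a : ℤ → ℝ} (h0 : ∀ k, 0 ≤ a k) (hs : Summable a) (D : Conf) (j : ℤ) :
    Summable fun k => a k * (ind D (j - k) - ind D j) := by
  apply Summable.of_norm
  apply (sm_abs h0 hs D j).congr
  intro k
  rw [Real.norm_eq_abs, abs_mul, abs_of_nonneg (h0 k)]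

/-- the signed rate -/
noncomputable def vrate (a : ℤ → ℝ) (D : Conf) (j : ℤ) : ℝ := ∑' k, a k * (ind D (j - k) - ind D j)

lemma vrate_eq (a : ℤ → ℝ) (D : Conf) (j : ℤ) :
    vrate a D j = (1 - 2 * ind D j) * urate a D j := by
  rw [urate_eq]
  unfold vrate
  rw [← tsum_mul_left]
  apply tsum_congr
  intro k
  rcases ind_eq D j with h | h <;> rcases ind_eq D (j - k) with h' | h' <;> rw [h, h'] <;> norm_num

lemma one_add_abs_pow_le (p : ℕ) (k : ℤ) :
    (1 + |(k:ℝ)|) ^ p ≤ 2 ^ p * (1 + |(k:ℝ)| ^ p) := by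
  by_cases h : |(k:ℝ)| ≤ 1
  · calc (1 + |(k:ℝ)|) ^ p ≤ 2 ^ p := pow_le_pow_left₀ (by positivity) (by linarith) _
      _ ≤ 2 ^ p * (1 + |(k:ℝ)| ^ p) := by
        have : (0:ℝ) ≤ |(k:ℝ)| ^ p := by positivity
        nlinarith [pow_pos (show (0:ℝ) < 2 by norm_num) p]
  · push Not at h
    calc (1 + |(k:ℝ)|) ^ p ≤ (2 * |(k:ℝ)|) ^ p := pow_le_pow_left₀ (by positivity) (by linarith) _
      _ = 2 ^ p * |(k:ℝ)| ^ p := by rw [mul_pow]
      _ ≤ 2 ^ p * (1 + |(k:ℝ)| ^ p) := by
        apply mul_le_mul_of_nonneg_left _ (by positivity)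
        linarith

/-- Summability over the arrows `(k, j)`. -/
lemma arrow_summable {a : ℤ → ℝ} (h0 : ∀ k, 0 ≤ a k) (hs : Summable a) (D : Conf) (p : ℕ)
    (hp : Summable fun k : ℤ => |(k : ℝ)| ^ (p + 1) * a k) {w : ℤ → ℝ} {C : ℝ}
    (hw : ∀ j : ℤ, |w j| ≤ C * (1 + |(j : ℝ)|) ^ p) :
    Summable (fun q : ℤ × ℤ => a q.1 * |ind D (q.2 - q.1) - ind D q.2| * |w q.2|) := by
  have hC : 0 ≤ C := by
    have := hw 0
    simp at this
    exact (abs_nonneg _).trans this
  obtain ⟨B, hB⟩ : ∃ B : ℤ, B = ((bd D : ℕ) : ℤ) := ⟨_, rfl⟩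
  have hB0 : (0:ℤ) ≤ B := by rw [hB]; positivity
  have hwin : ∀ k j : ℤ, |ind D (j - k) - ind D j| ≠ 0 → -(B + |k|) ≤ j ∧ j ≤ B + |k| := by
    intro k j hne
    have hk := neg_abs_le k
    have hk' := le_abs_self k
    by_contra hc
    apply hne
    rw [not_and_or] at hc
    rcases hc with hc | hc
    · rw [ind_of_lt (by omega), ind_of_lt (by omega)]; simp
    · rw [ind_of_gt (by omega), ind_of_gt (by omega)]; simp
  have hterm : ∀ k j : ℤ, a k * |ind D (j - k) - ind D j| * |w j| ≤
      a k * (C * (1 + (B + |k| : ℤ)) ^ p) := by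
    intro k j
    by_cases hne : |ind D (j - k) - ind D j| = 0
    · rw [hne]
      have : 0 ≤ a k * (C * (1 + (B + |k| : ℤ)) ^ p) := by
        apply mul_nonneg (h0 k) (mul_nonneg hC (pow_nonneg _ _))
        have : (0:ℤ) ≤ B + |k| := by positivity
        have : (0:ℝ) ≤ (B + |k| : ℤ) := by exact_mod_cast this
        linarith
      simpa using this
    · obtain ⟨h1, h2⟩ := hwin k j hne
      have hj : |(j:ℝ)| ≤ ((B + |k| : ℤ) : ℝ) := by
        have : |j| ≤ B + |k| := abs_le.mpr ⟨h1, h2⟩
        exact_mod_cast this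
      rw [mul_assoc]
      apply mul_le_mul_of_nonneg_left _ (h0 k)
      calc |ind D (j - k) - ind D j| * |w j| ≤ 1 * (C * (1 + |(j:ℝ)|) ^ p) :=
            mul_le_mul (abs_ind_sub_le _ _ _) (hw j) (abs_nonneg _) zero_le_one
        _ = C * (1 + |(j:ℝ)|) ^ p := one_mul _
        _ ≤ C * (1 + (B + |k| : ℤ)) ^ p := by
            apply mul_le_mul_of_nonneg_left _ hC
            apply pow_le_pow_left₀ (by positivity)
            linarith
  have hrow : ∀ k : ℤ, Summable fun j => a k * |ind D (j - k) - ind D j| * |w j| := by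
    intro k
    apply summable_of_window (-(B + |k|)) (B + |k|)
    intro j hj
    exact hwin k j (right_ne_zero_of_mul (left_ne_zero_of_mul hj))
  rw [summable_prod_of_nonneg (fun q => mul_nonneg (mul_nonneg (h0 _) (abs_nonneg _)) (abs_nonneg _))]
  · refine ⟨hrow, ?_⟩
    have hsum : ∀ k : ℤ, ∑' j, a k * |ind D (j - k) - ind D j| * |w j| ≤
        (2 * (B + 1)) ^ (p + 1) * 2 ^ (p + 1) * C * (a k + |(k:ℝ)| ^ (p + 1) * a k) := by
      intro k
      rw [tsum_eq_sum (s := Finset.Icc (-(B + |k|)) (B + |k|))]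
      · calc ∑ j ∈ Finset.Icc (-(B + |k|)) (B + |k|), a k * |ind D (j - k) - ind D j| * |w j|
            ≤ ∑ j ∈ Finset.Icc (-(B + |k|)) (B + |k|), a k * (C * (1 + (B + |k| : ℤ)) ^ p) :=
              Finset.sum_le_sum fun j _ => hterm k j
          _ = ((2 * (B + |k|) + 1 : ℤ) : ℝ) * (a k * (C * (1 + (B + |k| : ℤ)) ^ p)) := by
              rw [Finset.sum_const, Int.card_Icc, nsmul_eq_mul]
              congr 1
              have : (B + |k| + 1 - -(B + |k|)).toNat = (2 * (B + |k|) + 1) := by
                have : (0:ℤ) ≤ B + |k| := by positivity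
                omega
              exact_mod_cast this
          _ ≤ (2 * (1 + (B + |k| : ℤ))) * (a k * (C * (1 + (B + |k| : ℤ)) ^ p)) := by
              apply mul_le_mul_of_nonneg_right
              · push_cast; linarith
              · apply mul_nonneg (h0 k) (mul_nonneg hC (pow_nonneg _ _))
                have : (0:ℤ) ≤ B + |k| := by positivity
                have : (0:ℝ) ≤ (B + |k| : ℤ) := by exact_mod_cast this
                linarith
          _ = 2 * C * a k * (1 + (B + |k| : ℤ)) ^ (p + 1) := by ring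
          _ ≤ 2 * C * a k * ((B + 1) ^ (p + 1) * (1 + |(k:ℝ)|) ^ (p + 1)) := by
              apply mul_le_mul_of_nonneg_left _ (by have := h0 k; positivity)
              rw [← mul_pow]
              have hB' : (0:ℝ) ≤ B := by exact_mod_cast hB0
              apply pow_le_pow_left₀
              · push_cast; positivity
              · push_cast
                nlinarith [abs_nonneg (k:ℝ)]
          _ ≤ 2 * C * a k * ((B + 1) ^ (p + 1) * (2 ^ (p + 1) * (1 + |(k:ℝ)| ^ (p + 1)))) := by
              apply mul_le_mul_of_nonneg_left _ (by have := h0 k; positivity)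
              have hB' : (0:ℝ) ≤ B := by exact_mod_cast hB0
              apply mul_le_mul_of_nonneg_left (one_add_abs_pow_le _ _) (by positivity)
          _ = (2 * (B + 1) ^ (p + 1)) * (2 ^ (p + 1) * C * (a k + |(k:ℝ)| ^ (p + 1) * a k)) := by ring
          _ ≤ (2 * (B + 1)) ^ (p + 1) * (2 ^ (p + 1) * C * (a k + |(k:ℝ)| ^ (p + 1) * a k)) := by
              have hB' : (0:ℝ) ≤ B := by exact_mod_cast hB0
              apply mul_le_mul_of_nonneg_right _ (by have := h0 k; positivity)
              rw [mul_pow]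
              apply mul_le_mul_of_nonneg_right _ (by positivity)
              calc (2:ℝ) = 2 ^ 1 := by norm_num
                _ ≤ 2 ^ (p + 1) := pow_le_pow_right₀ (by norm_num) (by omega)
          _ = _ := by ring
      · intro j hj
        by_contra hne
        have := hwin k j (right_ne_zero_of_mul (left_ne_zero_of_mul hne))
        exact hj (Finset.mem_Icc.mpr this)
    apply Summable.of_nonneg_of_le _ hsum ((hs.add hp).mul_left _)
    intro k
    exact tsum_nonneg fun j => mul_nonneg (mul_nonneg (h0 _) (abs_nonneg _)) (abs_nonneg _)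

end Pool.Agent.K9h92.BV
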