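import Pool.Agent.K9h92.BV.Edge

set_option autoImplicit false

/-!
Reflection combined with the exchange of zeros and ones.
-/

open ENNReal Filter Topology

namespace Pool.Agent.K9h92.BV

variable {a : ℤ → ℝ}

/-- reflection combined with the exchange of zeros and ones -/
def refl (D : Conf) : Conf := D.map (Equiv.subLeft (-1 : ℤ)).toEmbedding

lemma mem_refl (D : Conf) (i : ℤ) : i ∈ refl D ↔ -1 - i ∈ D := by
  unfold refl
  rw [Finset.mem_map_equiv]
  have : (Equiv.subLeft (-1 : ℤ)).symm i = -1 - i := by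
    rw [Equiv.symm_apply_eq, Equiv.subLeft_apply]; ring
  rw [this]

lemma refl_empty : refl ∅ = ∅ := rfl

lemma on_refl (D : Conf) (i : ℤ) : on (refl D) i ↔ ¬ on D (-1 - i) := by
  unfold on
  rw [mem_refl]
  have : (0 ≤ -1 - i) ↔ ¬ (0 ≤ i) := by omega
  rw [this]
  tauto

lemma ind_refl (D : Conf) (i : ℤ) : ind (refl D) i = co D (-1 - i) := by
  unfold co ind
  by_cases h : on D (-1 - i)
  · rw [if_pos h, if_neg (fun h2 => (on_refl D i).mp h2 h)]; ring
  · rw [if_neg h, if_pos ((on_refl D i).mpr h)]; ring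

lemma co_refl (D : Conf) (i : ℤ) : co (refl D) i = ind D (-1 - i) := by
  unfold co; rw [ind_refl]; unfold co; ring

lemma M_refl (D : Conf) : M (refl D) = -M D := by
  have h : (M (refl D) : ℝ) = ((-M D : ℤ) : ℝ) := by
    push_cast
    rw [M_eq, M_eq, ← (Equiv.subLeft (-1 : ℤ)).tsum_eq, ← tsum_neg]
    apply tsum_congr
    intro i
    simp only [Equiv.subLeft_apply]
    rw [ind_refl]
    unfold co
    rw [show -1 - (-1 - i) = i by ring]
    by_cases h : 0 ≤ i
    · rw [if_pos h, if_neg (by omega)]; ring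
    · rw [if_neg h, if_pos (by omega)]; ring
  exact_mod_cast h

lemma N_refl (D : Conf) (m : ℤ) : N (refl D) m = N D m := by
  unfold N
  rw [← (Equiv.subLeft (-1 - m : ℤ)).tsum_eq]
  apply tsum_congr
  intro u
  simp only [Equiv.subLeft_apply]
  rw [ind_refl, co_refl, show -1 - (-1 - m - u) = u + m by ring,
    show -1 - (-1 - m - u + m) = u by ring]
  ring

lemma H_refl (ψ : ℤ → ℝ) (D : Conf) : H ψ (refl D) = H ψ D := by
  unfold H
  apply tsum_congr
  intro m
  rw [N_refl]

lemma inv_refl (D : Conf) : inv (refl D) = inv D := H_refl _ D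

/-- the reflected kernel -/
def aR (a : ℤ → ℝ) (k : ℤ) : ℝ := a (-k)

lemma Jump.refl (ha : Jump a) : Jump (aR a) := by
  refine ⟨fun k => ha.nonneg _, ?_, ?_, ?_⟩
  · exact (Equiv.neg ℤ).summable_iff.mpr ha.summable
  · refine ((Equiv.neg ℤ).summable_iff.mpr ha.second).congr ?_
    intro k
    simp [aR]
  · rw [eq_top_iff]
    intro m _
    have h1 : ∀ x ∈ AddSubmonoid.closure {k : ℤ | 0 < a k},
        -x ∈ AddSubmonoid.closure {k : ℤ | 0 < aR a k} := by
      intro x hx
      induction hx using AddSubmonoid.closure_induction with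
      | mem k hk =>
        apply AddSubmonoid.subset_closure
        change 0 < aR a (-k)
        unfold aR
        rw [neg_neg]; exact hk
      | zero => rw [neg_zero]; exact AddSubmonoid.zero_mem _
      | add x y _ _ hx hy => rw [neg_add]; exact AddSubmonoid.add_mem _ hx hy
    have := h1 (-m) (by rw [ha.irred]; exact AddSubmonoid.mem_top _)
    rwa [neg_neg] at this

lemma Thd.refl (h3 : Thd a) : Thd (aR a) := by
  refine ((Equiv.neg ℤ).summable_iff.mpr h3).congr ?_
  intro k
  simp [aR]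

lemma m1_refl : m1 (aR a) = m1 a := by
  unfold m1
  rw [← (Equiv.neg ℤ).tsum_eq]
  apply tsum_congr
  intro k
  simp [aR]

lemma s2_refl : s2 (aR a) = s2 a := by
  unfold s2
  rw [← (Equiv.neg ℤ).tsum_eq]
  apply tsum_congr
  intro k
  simp [aR]

lemma urate_refl (D : Conf) (j : ℤ) : urate (aR a) (refl D) j = urate a D (-1 - j) := by
  rw [urate_eq, urate_eq, ← (Equiv.neg ℤ).tsum_eq]
  apply tsum_congr
  intro k
  simp only [Equiv.neg_apply]
  unfold aR
  rw [neg_neg, ind_refl, ind_refl, show -1 - (j - -k) = -1 - j - k by ring]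
  unfold co
  congr 1
  rw [show 1 - ind D (-1 - j - k) - (1 - ind D (-1 - j)) =
    -(ind D (-1 - j - k) - ind D (-1 - j)) by ring, abs_neg]

lemma tot_refl (D : Conf) : tot (aR a) (refl D) = tot a D := by
  unfold tot
  rw [← (Equiv.subLeft (-1 : ℤ)).tsum_eq]
  apply tsum_congr
  intro j
  simp only [Equiv.subLeft_apply]
  rw [urate_refl, show -1 - (-1 - j) = j by ring]

lemma rr_refl (D : Conf) : rr (aR a) (refl D) = rr a D := by
  unfold rr; rw [tot_refl]

lemma flip_refl (D : Conf) (j : ℤ) : flipAt (refl D) j = refl (flipAt D (-1 - j)) := by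
  ext i
  rw [mem_flipAt, mem_refl, mem_refl, mem_flipAt]
  have : (i = j) ↔ (-1 - i = -1 - j) := by omega
  simp only [this]

lemma pk_refl (D : Conf) (j : ℤ) : pk (aR a) 0 (refl D) j = pk a 0 D (-1 - j) := by
  rw [pk0_real, pk0_real, urate_refl, tot_refl]

lemma Q_refl (g : Conf → ℝ≥0∞) (D : Conf) :
    Q a 0 (fun D => g (refl D)) D = Q (aR a) 0 g (refl D) := by
  unfold Q
  rw [← (Equiv.subLeft (-1 : ℤ)).tsum_eq]
  apply tsum_congr
  intro j
  simp only [Equiv.subLeft_apply]
  rw [pk_refl, flip_refl]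

lemma edge_step_right (ha : Jump a) {K : ℕ} (hK : 0 < K) (D : Conf) :
    Q a 0 (fun D => ENNReal.ofReal (GG K (refl D) + K ^ 2)) D +
      ENNReal.ofReal (ap (aR a) * (rr a D * ((thr (refl D) (K + 1) : ℝ) - thr (refl D) K))) ≤
      ENNReal.ofReal (GG K (refl D) + K ^ 2) + ENNReal.ofReal ((s2 a + m1 a) / 2 / m1 a) := by
  have h := edge_step ha.refl hK (refl D)
  rw [rr_refl, s2_refl, m1_refl] at h
  rw [Q_refl (fun D => ENNReal.ofReal (GG K D + K ^ 2)) D]
  exact h

end Pool.Agent.K9h92.BV
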