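import Pool.Agent.K9h92.BV.Wind

set_option autoImplicit false

/-!
The interface is short on the diffusive scale.
-/

open ENNReal Filter Topology

namespace Pool.Agent.K9h92.BV

variable {a : ℤ → ℝ}

/-- the interface is long at some time before `n` -/
def Long (δ0 : ℝ) (n : ℕ) (w : Pth) : Prop :=
  ∃ m ≤ n, farL (w m) (δ0 * Real.sqrt n) ∨ farR (w m) (δ0 * Real.sqrt n)

lemma Long_dep (δ0 : ℝ) (n : ℕ) (w w' : Pth) (h : ∀ i ≤ n, w i = w' i) :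
    Long δ0 n w → Long δ0 n w' := by
  rintro ⟨m, hm, h2⟩
  refine ⟨m, hm, ?_⟩
  rwa [← h m hm]

lemma arith1 {Cw δ0 δ' A' θ ε1 r h L m b : ℝ} (hCw : 0 < Cw) (hδ0 : 0 < δ0) (hδ' : 0 < δ')
    (hA' : 0 < A') (hθ : 0 < θ) (hε : 0 < ε1) (hr : 0 < r) (hh : δ0 * r / 4 ≤ h)
    (hL : 0 < L) (hL3 : L + m / L ≤ 5 * (θ * r)) (hm0 : 0 ≤ m) (hm : m ≤ 4 * (θ ^ 2 * r ^ 2))
    (hb0 : 0 ≤ b) (hb : b ≤ ε1) :
    Cw * ((δ' * r) ^ 2 * (A' * r) + (L + m / L) * ((δ' * r) * (A' * r) + m) + m * h * b) / h ^ 3 ≤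
      64 * Cw / δ0 ^ 3 * (δ' ^ 2 * A' + 5 * θ * δ' * A' + 20 * θ ^ 3) +
        64 * Cw / δ0 ^ 2 * θ ^ 2 * ε1 := by
  have hh0 : 0 < h := lt_of_lt_of_le (by positivity) hh
  have hL0 : 0 ≤ L + m / L := by positivity
  have y1 : (L + m / L) * ((δ' * r) * (A' * r) + m) ≤
      (5 * (θ * r)) * ((δ' * r) * (A' * r) + 4 * (θ ^ 2 * r ^ 2)) := by gcongr
  have y2 : m * h * b ≤ 4 * (θ ^ 2 * r ^ 2) * h * ε1 := by gcongr
  have y3 : (δ' * r) ^ 2 * (A' * r) + (5 * (θ * r)) * ((δ' * r) * (A' * r) + 4 * (θ ^ 2 * r ^ 2)) =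
      r ^ 3 * (δ' ^ 2 * A' + 5 * θ * δ' * A' + 20 * θ ^ 3) := by ring
  have x1 : Cw * ((δ' * r) ^ 2 * (A' * r) + (L + m / L) * ((δ' * r) * (A' * r) + m) + m * h * b) ≤
      Cw * (r ^ 3 * (δ' ^ 2 * A' + 5 * θ * δ' * A' + 20 * θ ^ 3) +
        4 * (θ ^ 2 * r ^ 2) * h * ε1) := by
    apply mul_le_mul_of_nonneg_left _ hCw.le
    linarith
  have hh3 : (δ0 * r / 4) ^ 3 ≤ h ^ 3 := pow_le_pow_left₀ (by positivity) hh 3
  have hh4 : (δ0 * r / 4) ^ 2 ≤ h ^ 2 := pow_le_pow_left₀ (by positivity) hh 2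
  set Z : ℝ := δ' ^ 2 * A' + 5 * θ * δ' * A' + 20 * θ ^ 3 with hZ
  have hZ0 : 0 < Z := by positivity
  calc _ ≤ Cw * (r ^ 3 * Z + 4 * (θ ^ 2 * r ^ 2) * h * ε1) / h ^ 3 := by gcongr
    _ = Cw * (r ^ 3 * Z) / h ^ 3 + Cw * (4 * (θ ^ 2 * r ^ 2) * ε1) / h ^ 2 := by field_simp
    _ ≤ Cw * (r ^ 3 * Z) / (δ0 * r / 4) ^ 3 +
        Cw * (4 * (θ ^ 2 * r ^ 2) * ε1) / (δ0 * r / 4) ^ 2 := by gcongr
    _ = _ := by field_simp; ring

lemma arith2 {s Cb θ r A' δ' ρ K L T wd h : ℝ} (hs : 0 < s) (hCb : 0 < Cb) (hθ : 0 < θ) (hr : 0 < r)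
    (hδ' : 0 < δ') (hρ : 0 < ρ) (hK : 0 ≤ K) (hKr : K ≤ r)
    (hA' : A' = 8 * 96 * s * Cb / (θ ^ 2 * ρ)) (hwd : θ ^ 2 * r ^ 2 ≤ wd) (hL : 0 < L)
    (hT0 : 0 ≤ T) (hT : T ≤ 6 * r ^ 2) (hL3 : L + T / L ≤ 8 * r) (hh : δ' * r / 4 ≤ h)
    (hr6 : 8 * 56 * s * Cb * K ≤ r * (θ ^ 2 * δ' * ρ)) :
    2 * s / wd * (Cb * ((L + T / L) * T / (A' * r) + K * (K ^ 2 + T) / h)) ≤ ρ / 4 := by
  have hA'0 : 0 < A' := by rw [hA']; positivity
  have hh0 : 0 < h := lt_of_lt_of_le (by positivity) hh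
  have hwd0 : 0 < wd := lt_of_lt_of_le (by positivity) hwd
  have hL0 : 0 ≤ L + T / L := by positivity
  have z1 : (L + T / L) * T / (A' * r) ≤ 48 * r ^ 2 / A' := by
    calc (L + T / L) * T / (A' * r) ≤ (8 * r) * (6 * r ^ 2) / (A' * r) := by gcongr
      _ = _ := by field_simp; norm_num
  have z2 : K * (K ^ 2 + T) / h ≤ 28 * K * r / δ' := by
    have hK2 : K ^ 2 ≤ r ^ 2 := pow_le_pow_left₀ hK hKr 2
    calc K * (K ^ 2 + T) / h ≤ K * (r ^ 2 + 6 * r ^ 2) / (δ' * r / 4) := by gcongr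
      _ = _ := by field_simp; ring
  calc 2 * s / wd * (Cb * ((L + T / L) * T / (A' * r) + K * (K ^ 2 + T) / h))
      ≤ 2 * s / (θ ^ 2 * r ^ 2) * (Cb * (48 * r ^ 2 / A' + 28 * K * r / δ')) := by gcongr
    _ = 96 * s * Cb / (θ ^ 2 * A') + 56 * s * Cb * K / (θ ^ 2 * δ' * r) := by
        field_simp; ring
    _ ≤ ρ / 8 + ρ / 8 := by
        apply add_le_add
        · rw [hA']
          apply le_of_eq
          field_simp
        · rw [div_le_iff₀ (by positivity)]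
          nlinarith
    _ = ρ / 4 := by ring

lemma arith3 {J Cw δ0 δ' A' θ ε1 ρ : ℝ} (hCw : 0 < Cw) (hδ0 : 0 < δ0) (hδ' : 0 < δ') (hδ'1 : δ' ≤ 1)
    (hA' : 0 < A') (hθ : 0 < θ) (hθ1 : θ ≤ 1 / 2) (hε : 0 < ε1) (hJ0 : 0 ≤ J)
    (hJ : J + 1 ≤ 2 / θ ^ 2)
    (b1 : 128 * 20 * Cw / δ0 ^ 3 * θ ≤ ρ / 8)
    (b2 : 128 * 6 * Cw * A' / (θ ^ 2 * δ0 ^ 3) * δ' ≤ ρ / 8)
    (b3 : 128 * Cw / δ0 ^ 2 * ε1 ≤ ρ / 8) :
    (J + 1) * (64 * Cw / δ0 ^ 3 * (δ' ^ 2 * A' + 5 * θ * δ' * A' + 20 * θ ^ 3) +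
        64 * Cw / δ0 ^ 2 * θ ^ 2 * ε1) ≤ 3 * (ρ / 8) := by
  have u1 : δ' ^ 2 * A' + 5 * θ * δ' * A' ≤ 6 * A' * δ' := by
    have v1 : δ' ^ 2 ≤ δ' := by nlinarith
    have v2 : 5 * θ * δ' * A' ≤ 5 * δ' * A' := by
      have : 5 * θ * δ' * A' = 5 * δ' * A' * θ := by ring
      rw [this]
      have : 0 < 5 * δ' * A' := by positivity
      nlinarith
    have v3 : δ' ^ 2 * A' ≤ δ' * A' := mul_le_mul_of_nonneg_right v1 hA'.le
    linarith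
  calc (J + 1) * (64 * Cw / δ0 ^ 3 * (δ' ^ 2 * A' + 5 * θ * δ' * A' + 20 * θ ^ 3) +
        64 * Cw / δ0 ^ 2 * θ ^ 2 * ε1)
      ≤ 2 / θ ^ 2 * (64 * Cw / δ0 ^ 3 * (6 * A' * δ' + 20 * θ ^ 3) +
          64 * Cw / δ0 ^ 2 * θ ^ 2 * ε1) := by gcongr
    _ = 128 * 6 * Cw * A' / (θ ^ 2 * δ0 ^ 3) * δ' + 128 * 20 * Cw / δ0 ^ 3 * θ +
          128 * Cw / δ0 ^ 2 * ε1 := by field_simp; ring
    _ ≤ ρ / 8 + ρ / 8 + ρ / 8 := add_le_add (add_le_add b2 b1) b3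
    _ = _ := by ring

set_option maxHeartbeats 4000000 in
lemma long_small0 (ha : Jump a) (h3 : Thd a) {δ0 ρ : ℝ} (hδ0 : 0 < δ0) (hρ : 0 < ρ) :
    ∃ n0 : ℕ, ∀ n ≥ n0, Ex a 0 0 n (one (Long δ0 n)) w0 ≤ ENNReal.ofReal ρ := by
  obtain ⟨Cw, hCw, hwin⟩ := win_est ha h3
  obtain ⟨Cb, hCb, hbad⟩ := rbad_mean ha h3
  have hs := s2_pos ha
  -- choice of the parameters
  obtain ⟨θ, hθ⟩ : ∃ θ : ℝ, θ = min (1 / 2) (ρ * δ0 ^ 3 / (8 * 128 * 20 * Cw)) := ⟨_, rfl⟩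
  have hθ0 : 0 < θ := by rw [hθ]; exact lt_min (by norm_num) (by positivity)
  have hθh : θ ≤ 1 / 2 := by rw [hθ]; exact min_le_left _ _
  have hθ1 : 128 * 20 * Cw / δ0 ^ 3 * θ ≤ ρ / 8 := by
    have : θ ≤ ρ * δ0 ^ 3 / (8 * 128 * 20 * Cw) := by rw [hθ]; exact min_le_right _ _
    calc 128 * 20 * Cw / δ0 ^ 3 * θ ≤ 128 * 20 * Cw / δ0 ^ 3 * (ρ * δ0 ^ 3 / (8 * 128 * 20 * Cw)) := by
          gcongr
      _ = ρ / 8 := by field_simp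
  obtain ⟨A', hA'⟩ : ∃ A' : ℝ, A' = 8 * 96 * s2 a * Cb / (θ ^ 2 * ρ) := ⟨_, rfl⟩
  have hA'0 : 0 < A' := by rw [hA']; positivity
  obtain ⟨δ', hδ'⟩ : ∃ δ' : ℝ, δ' = min 1 (ρ * δ0 ^ 3 * θ ^ 2 / (8 * 128 * 6 * Cw * A')) :=
    ⟨_, rfl⟩
  have hδ'0 : 0 < δ' := by rw [hδ']; exact lt_min one_pos (by positivity)
  have hδ'1 : δ' ≤ 1 := by rw [hδ']; exact min_le_left _ _
  have hδ'2 : 128 * 6 * Cw * A' / (θ ^ 2 * δ0 ^ 3) * δ' ≤ ρ / 8 := by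
    have : δ' ≤ ρ * δ0 ^ 3 * θ ^ 2 / (8 * 128 * 6 * Cw * A') := by rw [hδ']; exact min_le_right _ _
    calc 128 * 6 * Cw * A' / (θ ^ 2 * δ0 ^ 3) * δ' ≤
          128 * 6 * Cw * A' / (θ ^ 2 * δ0 ^ 3) * (ρ * δ0 ^ 3 * θ ^ 2 / (8 * 128 * 6 * Cw * A')) := by
          gcongr
      _ = ρ / 8 := by field_simp
  obtain ⟨ε1, hε1⟩ : ∃ ε1 : ℝ, ε1 = ρ * δ0 ^ 2 / (8 * 128 * Cw) := ⟨_, rfl⟩
  have hε10 : 0 < ε1 := by rw [hε1]; positivity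
  obtain ⟨h0, hBL⟩ := eventually_atTop.mp ((BL_tendsto ha h3).eventually (gt_mem_nhds hε10))
  obtain ⟨K, hK⟩ : ∃ K : ℕ, K = ⌈4 * A' / δ'⌉₊ := ⟨_, rfl⟩
  have hKge : 4 * A' / δ' ≤ K := by rw [hK]; exact Nat.le_ceil _
  obtain ⟨c, hc⟩ : ∃ c : ℝ, c = θ ^ 2 / (24 * s2 a) := ⟨_, rfl⟩
  have hc0 : 0 < c := by rw [hc]; positivity
  obtain ⟨n1, hclock⟩ := clock_lln ha hc0 (show 0 < ρ / 8 by positivity)
  obtain ⟨J, hJ⟩ : ∃ J : ℕ, J = ⌈1 / θ ^ 2⌉₊ := ⟨_, rfl⟩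
  have hJ1 : 1 / θ ^ 2 ≤ J := by rw [hJ]; exact Nat.le_ceil _
  have hJ2 : (J:ℝ) < 1 / θ ^ 2 + 1 := by rw [hJ]; exact Nat.ceil_lt_add_one (by positivity)
  have hθsq : 4 ≤ 1 / θ ^ 2 := by
    rw [le_div_iff₀ (by positivity)]
    have : θ ^ 2 ≤ (1 / 2) ^ 2 := pow_le_pow_left₀ hθ0.le hθh 2
    linarith
  -- size of `n`
  obtain ⟨R0, hR0⟩ : ∃ R0 : ℝ, R0 = max (max (1 / θ) (4 / δ0)) (max (max (4 / δ')
    (4 * h0 / δ0)) (max K (8 * 56 * s2 a * Cb * K / (θ ^ 2 * δ' * ρ)))) := ⟨_, rfl⟩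
  obtain ⟨n2, hn2⟩ := exists_nat_gt (R0 ^ 2)
  refine ⟨max n1 n2 + 1, fun n hn => ?_⟩
  have hnn1 : n1 ≤ n := by omega
  have hnn2 : n2 ≤ n := by omega
  obtain ⟨r, hr⟩ : ∃ r : ℝ, r = Real.sqrt n := ⟨_, rfl⟩
  have hr2 : r ^ 2 = n := by rw [hr]; exact Real.sq_sqrt (by positivity)
  have hrR : R0 ≤ r := by
    rw [hr]
    apply Real.le_sqrt_of_sq_le
    have : (n2:ℝ) ≤ n := by exact_mod_cast hnn2
    linarith
  rw [hR0] at hrR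
  have r1 : 1 / θ ≤ r := ((le_max_left _ _).trans (le_max_left _ _)).trans hrR
  have r2 : 4 / δ0 ≤ r := ((le_max_right _ _).trans (le_max_left _ _)).trans hrR
  have r3 : 4 / δ' ≤ r :=
    ((le_max_left _ _).trans ((le_max_left _ _).trans (le_max_right _ _))).trans hrR
  have r4 : 4 * h0 / δ0 ≤ r :=
    ((le_max_right _ _).trans ((le_max_left _ _).trans (le_max_right _ _))).trans hrR
  have r5 : (K:ℝ) ≤ r :=
    ((le_max_left _ _).trans ((le_max_right _ _).trans (le_max_right _ _))).trans hrR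
  have r6 : 8 * 56 * s2 a * Cb * K / (θ ^ 2 * δ' * ρ) ≤ r :=
    ((le_max_right _ _).trans ((le_max_right _ _).trans (le_max_right _ _))).trans hrR
  have hr0 : 0 < r := lt_of_lt_of_le (by positivity) r1
  rw [div_le_iff₀ hθ0] at r1
  rw [div_le_iff₀ hδ0] at r2 r4
  rw [div_le_iff₀ hδ'0] at r3
  rw [div_le_iff₀ (by positivity)] at r6
  -- window length
  obtain ⟨wd, hwd⟩ : ∃ wd : ℕ, wd = ⌈θ ^ 2 * r ^ 2⌉₊ := ⟨_, rfl⟩
  have hwd1 : θ ^ 2 * r ^ 2 ≤ wd := by rw [hwd]; exact Nat.le_ceil _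
  have hθr : 1 ≤ θ ^ 2 * r ^ 2 := by
    calc (1:ℝ) = 1 ^ 2 := by norm_num
      _ ≤ (r * θ) ^ 2 := pow_le_pow_left₀ (by norm_num) r1 2
      _ = _ := by ring
  have hwd2 : (wd:ℝ) ≤ 2 * (θ ^ 2 * r ^ 2) := by
    have := Nat.ceil_lt_add_one (show 0 ≤ θ ^ 2 * r ^ 2 by positivity)
    rw [← hwd] at this
    linarith
  have hwdr : (0:ℝ) < wd := by linarith
  have hwd0 : 0 < wd := by exact_mod_cast hwdr
  obtain ⟨T, hT⟩ : ∃ T : ℕ, T = (J + 3) * wd := ⟨_, rfl⟩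
  have hTr : (T:ℝ) ≤ 6 * r ^ 2 := by
    rw [hT]
    push_cast
    calc ((J:ℝ) + 3) * wd ≤ (2 / θ ^ 2) * (2 * (θ ^ 2 * r ^ 2)) := by
          apply mul_le_mul _ hwd2 hwdr.le (by positivity)
          have : 2 / θ ^ 2 = 1 / θ ^ 2 + 1 / θ ^ 2 := by ring
          linarith
      _ = 4 * r ^ 2 := by field_simp; norm_num
      _ ≤ 6 * r ^ 2 := by have := sq_nonneg r; linarith
  have hJn : n < (J + 1) * wd := by
    have : (n:ℝ) < (((J + 1) * wd : ℕ) : ℝ) := by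
      push_cast
      rw [← hr2]
      have h1 : r ^ 2 ≤ (J:ℝ) * (wd:ℝ) := by
        calc r ^ 2 = (1 / θ ^ 2) * (θ ^ 2 * r ^ 2) := by field_simp
          _ ≤ (J:ℝ) * (wd:ℝ) := mul_le_mul hJ1 hwd1 (by positivity) (by positivity)
      rw [add_mul, one_mul]
      linarith
    exact_mod_cast this
  have hnT : n ≤ T := by
    have : (J + 1) * wd ≤ (J + 3) * wd := Nat.mul_le_mul_right wd (by omega)
    rw [hT]
    omega
  -- the good states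
  obtain ⟨A, hA⟩ : ∃ A : ℝ, A = A' * r := ⟨_, rfl⟩
  obtain ⟨δ, hδ⟩ : ∃ δ : ℝ, δ = δ' * r := ⟨_, rfl⟩
  have hA0 : 0 < A := by rw [hA]; positivity
  have hδpos : 0 < δ := by rw [hδ]; positivity
  obtain ⟨κ, hκ⟩ : ∃ κ : ℝ, κ = δ0 * r := ⟨_, rfl⟩
  have hκ0 : 0 < κ := by rw [hκ]; positivity
  obtain ⟨h, hh⟩ : ∃ h : ℕ, h = ⌊κ / 2⌋₊ := ⟨_, rfl⟩
  have hh1 : 2 * (h:ℝ) ≤ κ := by
    have := Nat.floor_le (show 0 ≤ κ / 2 by positivity)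
    rw [← hh] at this
    linarith
  have hh2 : κ / 4 ≤ h := by
    have := Nat.lt_floor_add_one (κ / 2)
    rw [← hh] at this
    have : 1 ≤ κ / 4 := by rw [hκ]; linarith
    linarith
  have hhr : (0:ℝ) < h := lt_of_lt_of_le (by positivity) hh2
  have hhn : 0 < h := by exact_mod_cast hhr
  have hBLh : BL a h ≤ ε1 := by
    apply (hBL h _).le
    have : (h0:ℝ) ≤ h := by
      refine le_trans ?_ hh2
      rw [hκ]; linarith
    exact_mod_cast this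
  have hBL0 := BL_nonneg ha h
  obtain ⟨L, hL⟩ : ∃ L : ℕ, L = ⌈2 * θ * r⌉₊ := ⟨_, rfl⟩
  have hL1 : 2 * θ * r ≤ L := by rw [hL]; exact Nat.le_ceil _
  have hLr : (0:ℝ) < L := lt_of_lt_of_le (by positivity) hL1
  have hLn : 0 < L := by exact_mod_cast hLr
  have hL2 : (L:ℝ) ≤ 3 * (θ * r) := by
    have h6 := Nat.ceil_lt_add_one (show 0 ≤ 2 * θ * r by positivity)
    rw [← hL] at h6
    have : 1 ≤ θ * r := by linarith
    linarith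
  have hL3 : (L:ℝ) + ((2 * wd : ℕ) : ℝ) / L ≤ 5 * (θ * r) := by
    have h5 : ((2 * wd : ℕ) : ℝ) / L ≤ 2 * (θ * r) := by
      rw [div_le_iff₀ hLr]
      push_cast
      calc 2 * (wd:ℝ) ≤ 2 * (2 * (θ ^ 2 * r ^ 2)) := by linarith
        _ = 2 * (θ * r) * (2 * θ * r) := by ring
        _ ≤ 2 * (θ * r) * L := mul_le_mul_of_nonneg_left hL1 (by positivity)
    linarith
  -- the window estimate
  obtain ⟨qr, hqr⟩ : ∃ qr : ℝ, qr = 64 * Cw / δ0 ^ 3 *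
    (δ' ^ 2 * A' + 5 * θ * δ' * A' + 20 * θ ^ 3) + 64 * Cw / δ0 ^ 2 * θ ^ 2 * ε1 := ⟨_, rfl⟩
  have hqr0 : 0 ≤ qr := by rw [hqr]; positivity
  have hq : ∀ (k : ℕ) (w : Pth), Good A δ (w k) → Ex a 0 k (2 * wd)
      (one fun w => ∃ i, k ≤ i ∧ i ≤ k + 2 * wd ∧ (fun D => farL D κ ∨ farR D κ) (w i)) w ≤
      ENNReal.ofReal qr := by
    intro k w hg
    refine (hwin A δ κ h L k (2 * wd) w hA0 hδpos hhn hLn hh1 hg).trans (ENNReal.ofReal_le_ofReal ?_)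
    have hm2 : ((2 * wd : ℕ) : ℝ) ≤ 4 * (θ ^ 2 * r ^ 2) := by push_cast; linarith
    rw [hqr, hδ, hA]
    exact arith1 hCw hδ0 hδ'0 hA'0 hθ0 hε10 hr0 (by rw [← hκ]; exact hh2) hLr hL3 (by positivity)
      hm2 hBL0 hBLh
  have hcov := win_cover ha hA0 hδpos (Big := fun D => farL D κ ∨ farR D κ) hq J
  rw [← hT] at hcov
  -- the windows without good times
  have hcT : c * T ≤ wd / (4 * s2 a) := by
    calc c * T ≤ c * (6 * r ^ 2) := by gcongr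
      _ = θ ^ 2 * r ^ 2 / (4 * s2 a) := by rw [hc]; field_simp; norm_num
      _ ≤ _ := by gcongr
  have hb := win_bad ha A δ (c := c) (J := J) (T := T) hwd0
    (by rw [hT]; exact Nat.mul_le_mul_right wd (by omega)) hcT
  have hcl := hclock T (hnn1.trans hnT)
  -- clock time in bad states
  obtain ⟨hb', hhb⟩ : ∃ hb' : ℕ, hb' = ⌊δ / 2⌋₊ := ⟨_, rfl⟩
  have hb1 : 2 * (hb':ℝ) ≤ δ := by
    have := Nat.floor_le (show 0 ≤ δ / 2 by positivity)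
    rw [← hhb] at this
    linarith
  have hb2 : δ / 4 ≤ hb' := by
    have := Nat.lt_floor_add_one (δ / 2)
    rw [← hhb] at this
    have : 1 ≤ δ / 4 := by rw [hδ]; linarith
    linarith
  have hbr : (0:ℝ) < hb' := lt_of_lt_of_le (by positivity) hb2
  have hbn : 0 < hb' := by exact_mod_cast hbr
  have hAK : A ≤ (K + 1) * hb' := by
    calc A = (4 * A' / δ') * (δ / 4) := by rw [hA, hδ]; field_simp
      _ ≤ K * hb' := mul_le_mul hKge hb2 (by positivity) (by positivity)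
      _ ≤ (K + 1) * hb' := by rw [add_mul, one_mul]; linarith
  obtain ⟨L', hL'⟩ : ∃ L' : ℕ, L' = ⌈r⌉₊ := ⟨_, rfl⟩
  have hL'1 : r ≤ L' := by rw [hL']; exact Nat.le_ceil _
  have hL'r : (0:ℝ) < L' := lt_of_lt_of_le hr0 hL'1
  have hL'n : 0 < L' := by exact_mod_cast hL'r
  have hr1 : 1 ≤ r := r1.trans (mul_le_of_le_one_right hr0.le (by linarith))
  have hL'2 : (L':ℝ) ≤ 2 * r := by
    have := Nat.ceil_lt_add_one hr0.le
    rw [← hL'] at this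
    linarith
  have hL'3 : (L':ℝ) + T / L' ≤ 8 * r := by
    have h5 : (T:ℝ) / L' ≤ 6 * r := by
      rw [div_le_iff₀ hL'r]
      calc (T:ℝ) ≤ 6 * r ^ 2 := hTr
        _ = 6 * r * r := by ring
        _ ≤ 6 * r * L' := mul_le_mul_of_nonneg_left hL'1 (by positivity)
    linarith
  have hrb := hbad A δ K hb' L' T hA0 hbn hL'n hb1 hAK
  have hfin : 2 * s2 a / wd * (Cb * ((L' + T / L') * T / A + K * (K ^ 2 + T) / hb')) ≤ ρ / 4 := by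
    rw [hA]
    exact arith2 hs hCb hθ0 hr0 hδ'0 hρ (by positivity) r5 hA' hwd1 hL'r (by positivity) hTr hL'3
      (by rw [← hδ]; exact hb2) r6
  -- final assembly
  have hJq : ((J:ℝ) + 1) * qr ≤ 3 * (ρ / 8) := by
    have hJ3 : (J:ℝ) + 1 ≤ 2 / θ ^ 2 := by
      have : 2 / θ ^ 2 = 1 / θ ^ 2 + 1 / θ ^ 2 := by ring
      linarith
    rw [hqr]
    exact arith3 hCw hδ0 hδ'0 hδ'1 hA'0 hθ0 hθh hε10 (by positivity) hJ3 hθ1 hδ'2
      (by rw [hε1]; apply le_of_eq; field_simp)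
  have hdep : Dep (0 + n) (one (Long δ0 n)) := by
    rw [zero_add]
    apply Dep_one_of
    intro w w' hw
    exact ⟨Long_dep δ0 n w w' hw, Long_dep δ0 n w' w (fun i hi => (hw i hi).symm)⟩
  obtain ⟨l, hl⟩ := Nat.exists_eq_add_of_le hnT
  have e1 : Ex a 0 0 n (one (Long δ0 n)) w0 = Ex a 0 0 T (one (Long δ0 n)) w0 := by
    rw [hl, Ex_trunc ha le_rfl one_pos hdep]
  rw [e1]
  calc Ex a 0 0 T (one (Long δ0 n)) w0
      ≤ Ex a 0 0 T (one fun w => ∃ m < (J + 1) * wd, (fun D => farL D κ ∨ farR D κ) (w m)) w0 := by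
        apply Ex_mono
        apply one_mono
        rintro w ⟨m, hm, h5⟩
        rw [← hr, ← hκ] at h5
        exact ⟨m, by omega, h5⟩
    _ ≤ _ := hcov
    _ ≤ (J + 1) * ENNReal.ofReal qr + (ENNReal.ofReal (ρ / 8) + ENNReal.ofReal (2 * s2 a / wd) *
          ENNReal.ofReal (Cb * ((L' + T / L') * T / A + K * (K ^ 2 + T) / hb'))) := by
        gcongr
        refine hb.trans ?_
        gcongr
    _ = ENNReal.ofReal (((J:ℝ) + 1) * qr + (ρ / 8 + 2 * s2 a / wd *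
          (Cb * ((L' + T / L') * T / A + K * (K ^ 2 + T) / hb')))) := by
        have e2 : ((J:ℝ≥0∞) + 1) = ENNReal.ofReal ((J:ℝ) + 1) := by
          rw [ENNReal.ofReal_add (by positivity) (by norm_num), ENNReal.ofReal_natCast,
            ENNReal.ofReal_one]
        rw [e2, ← ENNReal.ofReal_mul (by positivity), ← ENNReal.ofReal_mul (by positivity),
          ← ENNReal.ofReal_add (by positivity) (by positivity),
          ← ENNReal.ofReal_add (by positivity) (by positivity)]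
    _ ≤ ENNReal.ofReal ρ := by
        apply ENNReal.ofReal_le_ofReal
        linarith

lemma long_small (ha : Jump a) (h3 : Thd a) {δ η B : ℝ} (hδ : 0 < δ) (hη : 0 < η) : ∃ n0 : ℕ,
    ∀ n ≥ n0, ∀ κ : ℝ, 0 ≤ κ → κ ≤ 1 / 2 → κ ^ 2 * n ≤ B →
    Ex a κ 0 n (one (Long δ n)) w0 ≤ ENNReal.ofReal η := by
  set c : ℝ := 2 * Real.exp B / η with hc
  have hc0 : 0 < c := by positivity
  obtain ⟨n0, h0⟩ := long_small0 ha h3 hδ (show 0 < η / (2 * c) by positivity)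
  refine ⟨n0, fun n hn κ hκ0 hκ1 hκB => ?_⟩
  have hcE : ENNReal.ofReal c ≠ 0 := by
    rw [Ne, ENNReal.ofReal_eq_zero, not_le]; exact hc0
  refine (contig ha hκ0 hκ1 0 n (Long δ n) w0 hcE ENNReal.ofReal_ne_top).trans ?_
  have h1 := h0 n hn
  have h2 : (1 + κ ^ 2) ^ n ≤ Real.exp B := by
    calc (1 + κ ^ 2) ^ n ≤ Real.exp (κ ^ 2) ^ n := by
          apply pow_le_pow_left₀ (by positivity)
          linarith [Real.add_one_le_exp (κ ^ 2)]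
      _ = Real.exp (n * κ ^ 2) := by rw [← Real.exp_nat_mul]
      _ ≤ Real.exp B := by
          apply Real.exp_le_exp.mpr
          linarith
  calc _ ≤ ENNReal.ofReal c * ENNReal.ofReal (η / (2 * c)) +
        (ENNReal.ofReal c)⁻¹ * ENNReal.ofReal (Real.exp B) := by gcongr
    _ = ENNReal.ofReal η := by
        rw [← ENNReal.ofReal_inv_of_pos hc0, ← ENNReal.ofReal_mul hc0.le,
          ← ENNReal.ofReal_mul (by positivity), ← ENNReal.ofReal_add (by positivity) (by positivity)]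
        congr 1
        rw [hc]
        field_simp
        norm_num

end Pool.Agent.K9h92.BV
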