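import Pool.Agent.K9h92.BV.Wind2

set_option autoImplicit false

/-!
The interface is short on the diffusive scale, kernels with a light tail.
-/

open ENNReal Filter Topology

namespace Pool.Agent.K9h92.BV

variable {a : ℤ → ℝ}

lemma ar1 {Cw δ0 δ' A' θ ε1 μ r h L m b : ℝ} (hCw : 0 < Cw) (hδ0 : 0 < δ0) (hδ' : 0 < δ')
    (hA' : 0 < A') (hθ : 0 < θ) (hε : 0 < ε1) (hμ : 0 < μ) (hr : 0 < r) (hh : δ0 * r / 4 ≤ h)
    (hL : 0 < L) (hL3 : L + m / L ≤ 5 * (θ * r)) (hm0 : 0 ≤ m) (hm : m ≤ 4 * (θ ^ 2 * r ^ 2))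
    (hb0 : 0 ≤ b) (hb : b ≤ ε1 * h) :
    Cw * ((δ' * r) ^ 2 * (A' * r) + (L + m / L) * ((δ' * r) * (A' * r) + m * μ) + m * b) / h ^ 3 ≤
      64 * Cw / δ0 ^ 3 * (δ' ^ 2 * A' + 5 * θ * δ' * A' + 20 * θ ^ 3 * μ) +
        64 * Cw / δ0 ^ 2 * θ ^ 2 * ε1 := by
  have hh0 : 0 < h := lt_of_lt_of_le (by positivity) hh
  have hL0 : 0 ≤ L + m / L := by positivity
  have y1 : (L + m / L) * ((δ' * r) * (A' * r) + m * μ) ≤
      (5 * (θ * r)) * ((δ' * r) * (A' * r) + 4 * (θ ^ 2 * r ^ 2) * μ) := by gcongr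
  have y2 : m * b ≤ 4 * (θ ^ 2 * r ^ 2) * (ε1 * h) := by gcongr
  have y3 : (δ' * r) ^ 2 * (A' * r) +
      (5 * (θ * r)) * ((δ' * r) * (A' * r) + 4 * (θ ^ 2 * r ^ 2) * μ) =
      r ^ 3 * (δ' ^ 2 * A' + 5 * θ * δ' * A' + 20 * θ ^ 3 * μ) := by ring
  have x1 : Cw * ((δ' * r) ^ 2 * (A' * r) + (L + m / L) * ((δ' * r) * (A' * r) + m * μ) + m * b) ≤
      Cw * (r ^ 3 * (δ' ^ 2 * A' + 5 * θ * δ' * A' + 20 * θ ^ 3 * μ) +
        4 * (θ ^ 2 * r ^ 2) * (ε1 * h)) := by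
    apply mul_le_mul_of_nonneg_left _ hCw.le
    linarith
  have hh3 : (δ0 * r / 4) ^ 3 ≤ h ^ 3 := pow_le_pow_left₀ (by positivity) hh 3
  have hh4 : (δ0 * r / 4) ^ 2 ≤ h ^ 2 := pow_le_pow_left₀ (by positivity) hh 2
  set Z : ℝ := δ' ^ 2 * A' + 5 * θ * δ' * A' + 20 * θ ^ 3 * μ with hZ
  have hZ0 : 0 < Z := by positivity
  calc _ ≤ Cw * (r ^ 3 * Z + 4 * (θ ^ 2 * r ^ 2) * (ε1 * h)) / h ^ 3 := by gcongr
    _ = Cw * (r ^ 3 * Z) / h ^ 3 + Cw * (4 * (θ ^ 2 * r ^ 2) * ε1) / h ^ 2 := by field_simp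
    _ ≤ Cw * (r ^ 3 * Z) / (δ0 * r / 4) ^ 3 +
        Cw * (4 * (θ ^ 2 * r ^ 2) * ε1) / (δ0 * r / 4) ^ 2 := by gcongr
    _ = _ := by field_simp; ring

lemma ar2 {s Cb θ r A' δ' ρ μ K L T wd h : ℝ} (hs : 0 < s) (hCb : 0 < Cb) (hθ : 0 < θ)
    (hr : 0 < r) (hδ' : 0 < δ') (hρ : 0 < ρ) (hμ : 0 < μ) (hK : 0 ≤ K) (hKr : K ≤ r)
    (hA' : A' = 8 * 96 * s * Cb * μ / (θ ^ 2 * ρ)) (hwd : θ ^ 2 * r ^ 2 ≤ wd) (hL : 0 < L)
    (hT0 : 0 ≤ T) (hT : T ≤ 6 * r ^ 2) (hL3 : L + T / L ≤ 8 * r) (hh : δ' * r / 4 ≤ h)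
    (hr6 : 8 * 56 * s * Cb * K ≤ r * (θ ^ 2 * δ' * ρ)) :
    2 * s / wd * (Cb * ((L + T / L) * (T * μ) / (A' * r) + K * (K ^ 2 + T) / h)) ≤ ρ / 4 := by
  have hA'0 : 0 < A' := by rw [hA']; positivity
  have hh0 : 0 < h := lt_of_lt_of_le (by positivity) hh
  have hwd0 : 0 < wd := lt_of_lt_of_le (by positivity) hwd
  have hL0 : 0 ≤ L + T / L := by positivity
  have z1 : (L + T / L) * (T * μ) / (A' * r) ≤ 48 * r ^ 2 * μ / A' := by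
    calc (L + T / L) * (T * μ) / (A' * r) ≤ (8 * r) * (6 * r ^ 2 * μ) / (A' * r) := by gcongr
      _ = _ := by field_simp; norm_num
  have z2 : K * (K ^ 2 + T) / h ≤ 28 * K * r / δ' := by
    have hK2 : K ^ 2 ≤ r ^ 2 := pow_le_pow_left₀ hK hKr 2
    calc K * (K ^ 2 + T) / h ≤ K * (r ^ 2 + 6 * r ^ 2) / (δ' * r / 4) := by gcongr
      _ = _ := by field_simp; ring
  calc 2 * s / wd * (Cb * ((L + T / L) * (T * μ) / (A' * r) + K * (K ^ 2 + T) / h))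
      ≤ 2 * s / (θ ^ 2 * r ^ 2) * (Cb * (48 * r ^ 2 * μ / A' + 28 * K * r / δ')) := by gcongr
    _ = 96 * s * Cb * μ / (θ ^ 2 * A') + 56 * s * Cb * K / (θ ^ 2 * δ' * r) := by
        field_simp; ring
    _ ≤ ρ / 8 + ρ / 8 := by
        apply add_le_add
        · rw [hA']
          apply le_of_eq
          field_simp
        · rw [div_le_iff₀ (by positivity)]
          nlinarith
    _ = ρ / 4 := by ring

lemma ar3 {J Cw δ0 δ' A' θ ε1 ρ μ : ℝ} (hCw : 0 < Cw) (hδ0 : 0 < δ0) (hδ' : 0 < δ')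
    (hδ'1 : δ' ≤ 1) (hA' : 0 < A') (hθ : 0 < θ) (hθ1 : θ ≤ 1 / 2) (hε : 0 < ε1) (hμ : 0 < μ)
    (hJ0 : 0 ≤ J) (hJ : J + 1 ≤ 2 / θ ^ 2)
    (b1 : 128 * 20 * Cw / δ0 ^ 3 * (θ * μ) ≤ ρ / 8)
    (b2 : 128 * 6 * Cw * A' / (θ ^ 2 * δ0 ^ 3) * δ' ≤ ρ / 8)
    (b3 : 128 * Cw / δ0 ^ 2 * ε1 ≤ ρ / 8) :
    (J + 1) * (64 * Cw / δ0 ^ 3 * (δ' ^ 2 * A' + 5 * θ * δ' * A' + 20 * θ ^ 3 * μ) +
        64 * Cw / δ0 ^ 2 * θ ^ 2 * ε1) ≤ 3 * (ρ / 8) := by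
  have u1 : δ' ^ 2 * A' + 5 * θ * δ' * A' ≤ 6 * A' * δ' := by
    have v1 : δ' ^ 2 ≤ δ' := by nlinarith
    have v2 : 5 * θ * δ' * A' ≤ 5 * δ' * A' := by
      have : 5 * θ * δ' * A' = 5 * δ' * A' * θ := by ring
      rw [this]
      have : 0 < 5 * δ' * A' := by positivity
      nlinarith
    have v3 : δ' ^ 2 * A' ≤ δ' * A' := mul_le_mul_of_nonneg_right v1 hA'.le
    linarith
  calc (J + 1) * (64 * Cw / δ0 ^ 3 * (δ' ^ 2 * A' + 5 * θ * δ' * A' + 20 * θ ^ 3 * μ) +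
        64 * Cw / δ0 ^ 2 * θ ^ 2 * ε1)
      ≤ 2 / θ ^ 2 * (64 * Cw / δ0 ^ 3 * (6 * A' * δ' + 20 * θ ^ 3 * μ) +
          64 * Cw / δ0 ^ 2 * θ ^ 2 * ε1) := by gcongr
    _ = 128 * 6 * Cw * A' / (θ ^ 2 * δ0 ^ 3) * δ' + 128 * 20 * Cw / δ0 ^ 3 * (θ * μ) +
          128 * Cw / δ0 ^ 2 * ε1 := by field_simp; ring
    _ ≤ ρ / 8 + ρ / 8 + ρ / 8 := add_le_add (add_le_add b2 b1) b3
    _ = _ := by ring

lemma ar4 {s Cs θ q μ ρ J T L S wd : ℝ} (hs : 0 < s) (hCs : 0 < Cs) (hθ : 0 < θ) (hθ1 : θ ≤ 1 / 2)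
    (hq : 1 ≤ q) (hμ : 1 ≤ μ) (hρ : 0 < ρ) (hJ0 : 0 ≤ J) (hJ : J + 1 ≤ 2 / θ ^ 2) (hT0 : 0 ≤ T)
    (hT : T ≤ 6 * q ^ 4) (hL1 : q ≤ L) (hL2 : L ≤ 2 * q)
    (hS : S ≤ Cs * (T + T * (μ * T / L + L ^ 2))) (hS0 : 0 ≤ S) (hwd : θ ^ 2 * q ^ 4 ≤ wd)
    (h7 : 25344 * Cs * s ^ 2 * μ ≤ θ ^ 6 * ρ * q) :
    (J + 2) * (S / (wd / (4 * s)) ^ 2) ≤ ρ / 8 := by
  have hq0 : 0 < q := by linarith
  have hL0 : 0 < L := by linarith
  have hμ0 : 0 < μ := by linarith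
  have hwd0 : 0 < wd := lt_of_lt_of_le (by positivity) hwd
  have e1 : μ * T / L ≤ 6 * μ * q ^ 3 := by
    calc μ * T / L ≤ μ * (6 * q ^ 4) / q := by gcongr
      _ = _ := by field_simp
  have e2 : L ^ 2 ≤ 4 * q ^ 2 := by
    calc L ^ 2 ≤ (2 * q) ^ 2 := pow_le_pow_left₀ hL0.le hL2 2
      _ = _ := by ring
  have e3 : 1 ≤ μ * q ^ 3 := one_le_mul_of_one_le_of_one_le hμ (one_le_pow₀ hq)
  have e4 : q ^ 2 ≤ μ * q ^ 3 := by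
    have : 1 ≤ μ * q := one_le_mul_of_one_le_of_one_le hμ hq
    calc q ^ 2 = 1 * q ^ 2 := (one_mul _).symm
      _ ≤ (μ * q) * q ^ 2 := by gcongr
      _ = _ := by ring
  have e5 : S ≤ 66 * Cs * μ * q ^ 7 := by
    refine hS.trans ?_
    have h1 : T + T * (μ * T / L + L ^ 2) = T * (1 + (μ * T / L + L ^ 2)) := by ring
    rw [h1]
    calc Cs * (T * (1 + (μ * T / L + L ^ 2)))
        ≤ Cs * ((6 * q ^ 4) * (μ * q ^ 3 + (6 * μ * q ^ 3 + 4 * (μ * q ^ 3)))) := by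
          gcongr
          linarith
      _ = _ := by ring
  have e6 : J + 2 ≤ 3 / θ ^ 2 := by
    have h1 : 1 ≤ 1 / θ ^ 2 := by
      rw [le_div_iff₀ (by positivity)]
      nlinarith
    have h2 : 3 / θ ^ 2 = 2 / θ ^ 2 + 1 / θ ^ 2 := by ring
    linarith
  calc (J + 2) * (S / (wd / (4 * s)) ^ 2)
      ≤ (3 / θ ^ 2) * ((66 * Cs * μ * q ^ 7) / ((θ ^ 2 * q ^ 4) / (4 * s)) ^ 2) := by gcongr
    _ = 3168 * Cs * s ^ 2 * μ / (θ ^ 6 * q) := by field_simp; norm_num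
    _ ≤ ρ / 8 := by
        rw [div_le_div_iff₀ (by positivity) (by norm_num)]
        nlinarith

set_option maxHeartbeats 4000000 in
lemma long_small02 (ha : Jump a) (hLt : Light a) {δ0 ρ : ℝ} (hδ0 : 0 < δ0) (hρ : 0 < ρ) :
    ∃ n0 : ℕ, ∀ n ≥ n0, Ex a 0 0 n (one (Long δ0 n)) w0 ≤ ENNReal.ofReal ρ := by
  obtain ⟨Cw, hCw, hwin⟩ := win_est2 ha
  obtain ⟨Cb, hCb, hbad⟩ := rbad_mean2 ha
  obtain ⟨Cs, hCs, hSq⟩ := Sq_quant ha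
  have hs := s2_pos ha
  -- constants
  obtain ⟨θ0, hθ0⟩ : ∃ θ0 : ℝ, θ0 = min (1 / 2) (ρ * δ0 ^ 3 / (8 * 128 * 20 * Cw)) := ⟨_, rfl⟩
  have hθ00 : 0 < θ0 := by rw [hθ0]; exact lt_min (by norm_num) (by positivity)
  have hθ0h : θ0 ≤ 1 / 2 := by rw [hθ0]; exact min_le_left _ _
  have hθ01 : 128 * 20 * Cw / δ0 ^ 3 * θ0 ≤ ρ / 8 := by
    have : θ0 ≤ ρ * δ0 ^ 3 / (8 * 128 * 20 * Cw) := by rw [hθ0]; exact min_le_right _ _
    calc 128 * 20 * Cw / δ0 ^ 3 * θ0 ≤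
          128 * 20 * Cw / δ0 ^ 3 * (ρ * δ0 ^ 3 / (8 * 128 * 20 * Cw)) := by gcongr
      _ = ρ / 8 := by field_simp
  obtain ⟨A0, hA0⟩ : ∃ A0 : ℝ, A0 = 8 * 96 * s2 a * Cb / (θ0 ^ 2 * ρ) := ⟨_, rfl⟩
  have hA00 : 0 < A0 := by rw [hA0]; positivity
  obtain ⟨d0, hd0⟩ : ∃ d0 : ℝ, d0 = min 1 (ρ * δ0 ^ 3 * θ0 ^ 2 / (8 * 128 * 6 * Cw * A0)) :=
    ⟨_, rfl⟩
  have hd00 : 0 < d0 := by rw [hd0]; exact lt_min one_pos (by positivity)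
  have hd01 : d0 ≤ 1 := by rw [hd0]; exact min_le_left _ _
  have hd02 : 128 * 6 * Cw * A0 / (θ0 ^ 2 * δ0 ^ 3) * d0 ≤ ρ / 8 := by
    have : d0 ≤ ρ * δ0 ^ 3 * θ0 ^ 2 / (8 * 128 * 6 * Cw * A0) := by rw [hd0]; exact min_le_right _ _
    calc 128 * 6 * Cw * A0 / (θ0 ^ 2 * δ0 ^ 3) * d0 ≤
          128 * 6 * Cw * A0 / (θ0 ^ 2 * δ0 ^ 3) *
            (ρ * δ0 ^ 3 * θ0 ^ 2 / (8 * 128 * 6 * Cw * A0)) := by gcongr
      _ = ρ / 8 := by field_simp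
  obtain ⟨ε1, hε1⟩ : ∃ ε1 : ℝ, ε1 = ρ * δ0 ^ 2 / (8 * 128 * Cw) := ⟨_, rfl⟩
  have hε10 : 0 < ε1 := by rw [hε1]; positivity
  obtain ⟨h0, hb4⟩ := b4_small ha hLt hε10
  obtain ⟨K0, hK0⟩ : ∃ K0 : ℝ, K0 = 4 * A0 / d0 + 1 := ⟨_, rfl⟩
  have hK00 : 0 < K0 := by rw [hK0]; positivity
  obtain ⟨E6, hE6⟩ : ∃ E6 : ℝ, E6 = 8 * 56 * s2 a * Cb * K0 / (θ0 ^ 2 * d0 * ρ) := ⟨_, rfl⟩
  have hE60 : 0 < E6 := by rw [hE6]; positivity
  obtain ⟨E7, hE7⟩ : ∃ E7 : ℝ, E7 = 25344 * Cs * s2 a ^ 2 / (θ0 ^ 6 * ρ) := ⟨_, rfl⟩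
  have hE70 : 0 < E7 := by rw [hE7]; positivity
  obtain ⟨E, hE⟩ : ∃ E : ℝ, E = 2 + 1 / θ0 + 4 / δ0 + 4 / d0 + 4 * h0 / δ0 + K0 + E6 + E7 :=
    ⟨_, rfl⟩
  have q1 : 0 < 1 / θ0 := by positivity
  have q2 : 0 < 4 / δ0 := by positivity
  have q3 : 0 < 4 / d0 := by positivity
  have q4 : 0 ≤ 4 * h0 / δ0 := by positivity
  have hE0 : 0 < E := by rw [hE]; positivity
  obtain ⟨n0, hn0⟩ := eventually_atTop.mp (mt_pow ha hLt E 15)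
  refine ⟨n0, fun n hn => ?_⟩
  obtain ⟨μ, hμ⟩ : ∃ μ : ℝ, μ = 1 + mt a n := ⟨_, rfl⟩
  have hμ1 : 1 ≤ μ := by rw [hμ]; linarith [mt_nonneg ha n]
  have hμ0 : 0 < μ := by linarith
  obtain ⟨r, hr⟩ : ∃ r : ℝ, r = Real.sqrt n := ⟨_, rfl⟩
  obtain ⟨q, hq⟩ : ∃ q : ℝ, q = Real.sqrt r := ⟨_, rfl⟩
  have hr2 : r ^ 2 = n := by rw [hr]; exact Real.sq_sqrt (by positivity)
  have hr0' : 0 ≤ r := by rw [hr]; exact Real.sqrt_nonneg _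
  have hq2 : q ^ 2 = r := by rw [hq]; exact Real.sq_sqrt hr0'
  have hqE : E * μ ^ 15 ≤ q := by rw [hq, hr, hμ]; exact hn0 n hn
  have hμp : ∀ i : ℕ, i ≤ 15 → μ ^ i ≤ μ ^ 15 := fun i hi => pow_le_pow_right₀ hμ1 hi
  have hcond : ∀ (x : ℝ) (i : ℕ), 0 ≤ x → x ≤ E → i ≤ 15 → x * μ ^ i ≤ q := by
    intro x i hx hxE hi
    refine le_trans ?_ hqE
    exact mul_le_mul hxE (hμp i hi) (by positivity) hE0.le
  have hE6' : 0 ≤ E6 := hE60.le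
  have c0 : (2:ℝ) * μ ^ 0 ≤ q := hcond 2 0 (by norm_num) (by rw [hE]; linarith) (by norm_num)
  have c1 : 1 / θ0 * μ ^ 1 ≤ q := hcond _ 1 q1.le (by rw [hE]; linarith) (by norm_num)
  have c2 : 4 / δ0 * μ ^ 0 ≤ q := hcond _ 0 q2.le (by rw [hE]; linarith) (by norm_num)
  have c3 : 4 / d0 * μ ^ 5 ≤ q := hcond _ 5 q3.le (by rw [hE]; linarith) (by norm_num)
  have c4 : 4 * h0 / δ0 * μ ^ 0 ≤ q := hcond _ 0 q4 (by rw [hE]; linarith) (by norm_num)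
  have c5 : K0 * μ ^ 8 ≤ q := hcond _ 8 hK00.le (by rw [hE]; linarith) (by norm_num)
  have c6 : E6 * μ ^ 15 ≤ q := hcond _ 15 hE6' (by rw [hE]; linarith) (by norm_num)
  have c7 : E7 * μ ^ 7 ≤ q := hcond _ 7 hE70.le (by rw [hE]; linarith) (by norm_num)
  rw [pow_zero, mul_one] at c0 c2 c4
  rw [pow_one] at c1
  have hq0 : 0 < q := by linarith
  have hq1 : 1 ≤ q := by linarith
  have hqr : q ≤ r := by rw [← hq2]; nlinarith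
  have hr0 : 0 < r := by linarith
  have hr1 : 1 ≤ r := by linarith
  have hr2' : 2 * r ≤ n := by rw [← hr2]; nlinarith
  -- parameters
  obtain ⟨θ, hθ⟩ : ∃ θ : ℝ, θ = θ0 / μ := ⟨_, rfl⟩
  have hθpos : 0 < θ := by rw [hθ]; positivity
  have hθμ : θ * μ = θ0 := by rw [hθ]; field_simp
  have hθh : θ ≤ 1 / 2 := by
    rw [hθ, div_le_iff₀ hμ0]
    nlinarith
  obtain ⟨A', hA'⟩ : ∃ A' : ℝ, A' = A0 * μ ^ 3 := ⟨_, rfl⟩
  have hA'0 : 0 < A' := by rw [hA']; positivity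
  have hA'2 : A' = 8 * 96 * s2 a * Cb * μ / (θ ^ 2 * ρ) := by
    rw [hA', hA0, hθ]; field_simp
  obtain ⟨δ', hδ'⟩ : ∃ δ' : ℝ, δ' = d0 / μ ^ 5 := ⟨_, rfl⟩
  have hδ'0 : 0 < δ' := by rw [hδ']; positivity
  have hδ'1 : δ' ≤ 1 := by
    rw [hδ', div_le_one (by positivity)]
    exact hd01.trans (one_le_pow₀ hμ1)
  have hδ'2 : 128 * 6 * Cw * A' / (θ ^ 2 * δ0 ^ 3) * δ' ≤ ρ / 8 := by
    refine le_trans (le_of_eq ?_) hd02
    rw [hA', hθ, hδ']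
    field_simp
  obtain ⟨K, hK⟩ : ∃ K : ℕ, K = ⌈4 * A' / δ'⌉₊ := ⟨_, rfl⟩
  have hKge : 4 * A' / δ' ≤ K := by rw [hK]; exact Nat.le_ceil _
  have hKle : (K:ℝ) ≤ K0 * μ ^ 8 := by
    have h1 := Nat.ceil_lt_add_one (show 0 ≤ 4 * A' / δ' by positivity)
    rw [← hK] at h1
    have h2 : 4 * A' / δ' = 4 * A0 / d0 * μ ^ 8 := by rw [hA', hδ']; field_simp
    have h3 : 1 ≤ μ ^ 8 := one_le_pow₀ hμ1
    rw [hK0, add_mul, one_mul]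
    linarith
  have r5 : (K:ℝ) ≤ r := (hKle.trans c5).trans hqr
  obtain ⟨J, hJ⟩ : ∃ J : ℕ, J = ⌈1 / θ ^ 2⌉₊ := ⟨_, rfl⟩
  have hJ1 : 1 / θ ^ 2 ≤ J := by rw [hJ]; exact Nat.le_ceil _
  have hJ2 : (J:ℝ) < 1 / θ ^ 2 + 1 := by rw [hJ]; exact Nat.ceil_lt_add_one (by positivity)
  have hθsq : 4 ≤ 1 / θ ^ 2 := by
    rw [le_div_iff₀ (by positivity)]
    have : θ ^ 2 ≤ (1 / 2) ^ 2 := pow_le_pow_left₀ hθpos.le hθh 2
    linarith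
  have hJ3 : (J:ℝ) + 1 ≤ 2 / θ ^ 2 := by
    have : 2 / θ ^ 2 = 1 / θ ^ 2 + 1 / θ ^ 2 := by ring
    linarith
  have r1 : 1 ≤ r * θ := by
    rw [hθ, mul_div_assoc', le_div_iff₀ hμ0, one_mul]
    rw [one_div, inv_mul_eq_div, div_le_iff₀ hθ00] at c1
    calc μ ≤ q * θ0 := c1
      _ ≤ r * θ0 := by gcongr
  have r2 : 4 ≤ r * δ0 := by
    rw [div_le_iff₀ hδ0] at c2
    calc (4:ℝ) ≤ q * δ0 := c2
      _ ≤ r * δ0 := by gcongr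
  have r3 : 4 ≤ r * δ' := by
    rw [hδ', mul_div_assoc', le_div_iff₀ (by positivity)]
    rw [div_mul_eq_mul_div, div_le_iff₀ hd00] at c3
    calc 4 * μ ^ 5 ≤ q * d0 := c3
      _ ≤ r * d0 := by gcongr
  have r4 : 4 * h0 ≤ r * δ0 := by
    rw [div_le_iff₀ hδ0] at c4
    calc (4 * h0 : ℝ) ≤ q * δ0 := c4
      _ ≤ r * δ0 := by gcongr
  have r6 : 8 * 56 * s2 a * Cb * K ≤ r * (θ ^ 2 * δ' * ρ) := by
    have h1 : E6 * μ ^ 15 ≤ r := c6.trans hqr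
    have h2 : 8 * 56 * s2 a * Cb * K ≤ 8 * 56 * s2 a * Cb * (K0 * μ ^ 8) := by gcongr
    refine h2.trans ?_
    have h3 : 8 * 56 * s2 a * Cb * (K0 * μ ^ 8) = (E6 * μ ^ 15) * (θ ^ 2 * δ' * ρ) := by
      rw [hE6, hθ, hδ']; field_simp
    rw [h3]
    gcongr
  have r7 : 25344 * Cs * s2 a ^ 2 * μ ≤ θ ^ 6 * ρ * q := by
    have h3 : 25344 * Cs * s2 a ^ 2 * μ = (θ ^ 6 * ρ) * (E7 * μ ^ 7) := by
      rw [hE7, hθ]; field_simp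
    rw [h3]
    gcongr
  have hmtL : ∀ L : ℕ, (L:ℝ) ≤ 2 * r → 1 + mt a L ≤ μ := by
    intro L hL
    rw [hμ]
    have : L ≤ n := by exact_mod_cast hL.trans hr2'
    linarith [mt_mono ha this]
  -- window length
  obtain ⟨wd, hwd⟩ : ∃ wd : ℕ, wd = ⌈θ ^ 2 * r ^ 2⌉₊ := ⟨_, rfl⟩
  have hwd1 : θ ^ 2 * r ^ 2 ≤ wd := by rw [hwd]; exact Nat.le_ceil _
  have hθr : 1 ≤ θ ^ 2 * r ^ 2 := by
    calc (1:ℝ) = 1 ^ 2 := by norm_num
      _ ≤ (r * θ) ^ 2 := pow_le_pow_left₀ (by norm_num) r1 2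
      _ = _ := by ring
  have hwd2 : (wd:ℝ) ≤ 2 * (θ ^ 2 * r ^ 2) := by
    have := Nat.ceil_lt_add_one (show 0 ≤ θ ^ 2 * r ^ 2 by positivity)
    rw [← hwd] at this
    linarith
  have hwdr : (0:ℝ) < wd := by linarith
  have hwd0 : 0 < wd := by exact_mod_cast hwdr
  obtain ⟨T, hT⟩ : ∃ T : ℕ, T = (J + 3) * wd := ⟨_, rfl⟩
  have hTr : (T:ℝ) ≤ 6 * r ^ 2 := by
    rw [hT]
    push_cast
    calc ((J:ℝ) + 3) * wd ≤ (2 / θ ^ 2) * (2 * (θ ^ 2 * r ^ 2)) := by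
          apply mul_le_mul _ hwd2 hwdr.le (by positivity)
          have : 2 / θ ^ 2 = 1 / θ ^ 2 + 1 / θ ^ 2 := by ring
          linarith
      _ = 4 * r ^ 2 := by field_simp; norm_num
      _ ≤ 6 * r ^ 2 := by have := sq_nonneg r; linarith
  have hJn : n < (J + 1) * wd := by
    have : (n:ℝ) < (((J + 1) * wd : ℕ) : ℝ) := by
      push_cast
      rw [← hr2]
      have h1 : r ^ 2 ≤ (J:ℝ) * (wd:ℝ) := by
        calc r ^ 2 = (1 / θ ^ 2) * (θ ^ 2 * r ^ 2) := by field_simp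
          _ ≤ (J:ℝ) * (wd:ℝ) := mul_le_mul hJ1 hwd1 (by positivity) (by positivity)
      rw [add_mul, one_mul]
      linarith
    exact_mod_cast this
  have hnT : n ≤ T := by
    have : (J + 1) * wd ≤ (J + 3) * wd := Nat.mul_le_mul_right wd (by omega)
    rw [hT]
    omega
  -- the good states
  obtain ⟨A, hA⟩ : ∃ A : ℝ, A = A' * r := ⟨_, rfl⟩
  obtain ⟨δ, hδ⟩ : ∃ δ : ℝ, δ = δ' * r := ⟨_, rfl⟩
  have hApos : 0 < A := by rw [hA]; positivity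
  have hδpos : 0 < δ := by rw [hδ]; positivity
  obtain ⟨κ, hκ⟩ : ∃ κ : ℝ, κ = δ0 * r := ⟨_, rfl⟩
  have hκ0 : 0 < κ := by rw [hκ]; positivity
  obtain ⟨h, hh⟩ : ∃ h : ℕ, h = ⌊κ / 2⌋₊ := ⟨_, rfl⟩
  have hh1 : 2 * (h:ℝ) ≤ κ := by
    have := Nat.floor_le (show 0 ≤ κ / 2 by positivity)
    rw [← hh] at this
    linarith
  have hh2 : κ / 4 ≤ h := by
    have := Nat.lt_floor_add_one (κ / 2)
    rw [← hh] at this
    have : 1 ≤ κ / 4 := by rw [hκ]; linarith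
    linarith
  have hhr : (0:ℝ) < h := lt_of_lt_of_le (by positivity) hh2
  have hhn : 0 < h := by exact_mod_cast hhr
  have hb4h : b4 a h ≤ ε1 * h := by
    apply hb4 h
    have : (h0:ℝ) ≤ h := by
      refine le_trans ?_ hh2
      rw [hκ]; linarith
    exact_mod_cast this
  have hb40 := b4_nonneg ha h
  obtain ⟨L, hL⟩ : ∃ L : ℕ, L = ⌈2 * θ * r⌉₊ := ⟨_, rfl⟩
  have hL1 : 2 * θ * r ≤ L := by rw [hL]; exact Nat.le_ceil _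
  have hLr : (0:ℝ) < L := lt_of_lt_of_le (by positivity) hL1
  have hLn : 0 < L := by exact_mod_cast hLr
  have hL2 : (L:ℝ) ≤ 3 * (θ * r) := by
    have h6 := Nat.ceil_lt_add_one (show 0 ≤ 2 * θ * r by positivity)
    rw [← hL] at h6
    have : 1 ≤ θ * r := by linarith
    linarith
  have hL3 : (L:ℝ) + ((2 * wd : ℕ) : ℝ) / L ≤ 5 * (θ * r) := by
    have h5 : ((2 * wd : ℕ) : ℝ) / L ≤ 2 * (θ * r) := by
      rw [div_le_iff₀ hLr]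
      push_cast
      calc 2 * (wd:ℝ) ≤ 2 * (2 * (θ ^ 2 * r ^ 2)) := by linarith
        _ = 2 * (θ * r) * (2 * θ * r) := by ring
        _ ≤ 2 * (θ * r) * L := mul_le_mul_of_nonneg_left hL1 (by positivity)
    linarith
  have hLμ : 1 + mt a L ≤ μ := by
    apply hmtL
    have : θ * r ≤ 1 / 2 * r := by gcongr
    linarith
  -- the window estimate
  obtain ⟨qr, hqr'⟩ : ∃ qr : ℝ, qr = 64 * Cw / δ0 ^ 3 *
    (δ' ^ 2 * A' + 5 * θ * δ' * A' + 20 * θ ^ 3 * μ) + 64 * Cw / δ0 ^ 2 * θ ^ 2 * ε1 := ⟨_, rfl⟩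
  have hqr0 : 0 ≤ qr := by rw [hqr']; positivity
  have hqw : ∀ (k : ℕ) (w : Pth), Good A δ (w k) → Ex a 0 k (2 * wd)
      (one fun w => ∃ i, k ≤ i ∧ i ≤ k + 2 * wd ∧ (fun D => farL D κ ∨ farR D κ) (w i)) w ≤
      ENNReal.ofReal qr := by
    intro k w hg
    refine (hwin μ A δ κ h L k (2 * wd) w hLμ hApos hδpos hhn hLn hh1 hg).trans
      (ENNReal.ofReal_le_ofReal ?_)
    have hm2 : ((2 * wd : ℕ) : ℝ) ≤ 4 * (θ ^ 2 * r ^ 2) := by push_cast; linarith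
    rw [hqr', hδ, hA]
    exact ar1 hCw hδ0 hδ'0 hA'0 hθpos hε10 hμ0 hr0 (by rw [← hκ]; exact hh2) hLr hL3 (by positivity)
      hm2 hb40 hb4h
  have hcov := win_cover ha hApos hδpos (Big := fun D => farL D κ ∨ farR D κ) hqw J
  rw [← hT] at hcov
  -- the windows without good times
  have hb := win_bad2 ha A δ (J := J) (T := T) hwd0
    (by rw [hT]; exact Nat.mul_le_mul_right wd (by omega))
  -- the clock
  obtain ⟨L1, hL1'⟩ : ∃ L1 : ℕ, L1 = ⌈q⌉₊ := ⟨_, rfl⟩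
  have hL11 : q ≤ L1 := by rw [hL1']; exact Nat.le_ceil _
  have hL12 : (L1:ℝ) ≤ 2 * q := by
    have := Nat.ceil_lt_add_one hq0.le
    rw [← hL1'] at this
    linarith
  have hL1n : 0 < L1 := by
    have : (0:ℝ) < L1 := by linarith
    exact_mod_cast this
  have hL1μ : 1 + mt a L1 ≤ μ := hmtL L1 (by linarith)
  have hclk : ∑ j ∈ Finset.range (J + 2), Ex a 0 0 T (one fun w => wd / (4 * s2 a) ≤
        |Cr a 0 (j * wd) w - ((j * wd : ℕ) : ℝ) / s2 a|) w0 ≤ ENNReal.ofReal (ρ / 8) := by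
    obtain ⟨S, hS⟩ : ∃ S : ℝ, S = Cs * (T + T * (μ * T / L1 + (L1:ℝ) ^ 2)) := ⟨_, rfl⟩
    have hS0 : 0 ≤ S := by rw [hS]; positivity
    have hterm : ∀ j ∈ Finset.range (J + 2), Ex a 0 0 T (one fun w => wd / (4 * s2 a) ≤
        |Cr a 0 (j * wd) w - ((j * wd : ℕ) : ℝ) / s2 a|) w0 ≤
          ENNReal.ofReal (S / (wd / (4 * s2 a)) ^ 2) := by
      intro j hj
      rw [Finset.mem_range] at hj
      have hjT : j * wd ≤ T := by rw [hT]; exact Nat.mul_le_mul_right wd (by omega)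
      obtain ⟨l, hl⟩ := Nat.exists_eq_add_of_le hjT
      have hd : Dep (0 + j * wd) (one (fun w => wd / (4 * s2 a) ≤
          |Cr a 0 (j * wd) w - ((j * wd : ℕ) : ℝ) / s2 a|)) := by
        apply Dep_one_of
        intro w w' hw
        rw [Cr_dep' 0 (j * wd) w w' (fun i hi => (hw i (by omega)))]
      rw [hl, Ex_trunc ha le_rfl one_pos hd]
      refine (PC ha (j * wd) (by positivity)).trans ?_
      apply ENNReal.ofReal_le_ofReal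
      have h1 := hSq μ L1 T (j * wd) hL1n hjT hL1μ
      rw [← hS] at h1
      gcongr
    calc _ ≤ ∑ j ∈ Finset.range (J + 2), ENNReal.ofReal (S / (wd / (4 * s2 a)) ^ 2) :=
          Finset.sum_le_sum hterm
      _ = ENNReal.ofReal (((J:ℝ) + 2) * (S / (wd / (4 * s2 a)) ^ 2)) := by
          rw [Finset.sum_const, Finset.card_range, nsmul_eq_mul, ← ENNReal.ofReal_natCast,
            ← ENNReal.ofReal_mul (by positivity)]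
          push_cast
          rfl
      _ ≤ _ := by
          apply ENNReal.ofReal_le_ofReal
          have hr4 : r ^ 2 = q ^ 4 := by rw [← hq2]; ring
          exact ar4 hs hCs hθpos hθh hq1 hμ1 hρ (by positivity) hJ3 (by positivity)
            (by rw [← hr4]; exact hTr) hL11 hL12 hS.le hS0 (by rw [← hr4]; exact hwd1) r7
  -- clock time in bad states
  obtain ⟨hb', hhb⟩ : ∃ hb' : ℕ, hb' = ⌊δ / 2⌋₊ := ⟨_, rfl⟩
  have hb1 : 2 * (hb':ℝ) ≤ δ := by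
    have := Nat.floor_le (show 0 ≤ δ / 2 by positivity)
    rw [← hhb] at this
    linarith
  have hb2 : δ / 4 ≤ hb' := by
    have := Nat.lt_floor_add_one (δ / 2)
    rw [← hhb] at this
    have : 1 ≤ δ / 4 := by rw [hδ]; linarith
    linarith
  have hbr : (0:ℝ) < hb' := lt_of_lt_of_le (by positivity) hb2
  have hbn : 0 < hb' := by exact_mod_cast hbr
  have hAK : A ≤ (K + 1) * hb' := by
    calc A = (4 * A' / δ') * (δ / 4) := by rw [hA, hδ]; field_simp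
      _ ≤ K * hb' := mul_le_mul hKge hb2 (by positivity) (by positivity)
      _ ≤ (K + 1) * hb' := by rw [add_mul, one_mul]; linarith
  obtain ⟨L', hL'⟩ : ∃ L' : ℕ, L' = ⌈r⌉₊ := ⟨_, rfl⟩
  have hL'1 : r ≤ L' := by rw [hL']; exact Nat.le_ceil _
  have hL'r : (0:ℝ) < L' := lt_of_lt_of_le hr0 hL'1
  have hL'n : 0 < L' := by exact_mod_cast hL'r
  have hL'2 : (L':ℝ) ≤ 2 * r := by
    have := Nat.ceil_lt_add_one hr0.le
    rw [← hL'] at this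
    linarith
  have hL'3 : (L':ℝ) + T / L' ≤ 8 * r := by
    have h5 : (T:ℝ) / L' ≤ 6 * r := by
      rw [div_le_iff₀ hL'r]
      calc (T:ℝ) ≤ 6 * r ^ 2 := hTr
        _ = 6 * r * r := by ring
        _ ≤ 6 * r * L' := mul_le_mul_of_nonneg_left hL'1 (by positivity)
    linarith
  have hrb := hbad μ A δ K hb' L' T (hmtL L' hL'2) hApos hbn hL'n hb1 hAK
  have hfin : 2 * s2 a / wd * (Cb * ((L' + T / L') * (T * μ) / A + K * (K ^ 2 + T) / hb')) ≤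
      ρ / 4 := by
    rw [hA]
    exact ar2 hs hCb hθpos hr0 hδ'0 hρ hμ0 (by positivity) r5 hA'2 hwd1 hL'r (by positivity) hTr
      hL'3 (by rw [← hδ]; exact hb2) r6
  -- final assembly
  have hJq : ((J:ℝ) + 1) * qr ≤ 3 * (ρ / 8) := by
    rw [hqr']
    exact ar3 hCw hδ0 hδ'0 hδ'1 hA'0 hθpos hθh hε10 hμ0 (by positivity) hJ3
      (by rw [hθμ]; exact hθ01) hδ'2 (by rw [hε1]; apply le_of_eq; field_simp)
  have hdep : Dep (0 + n) (one (Long δ0 n)) := by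
    rw [zero_add]
    apply Dep_one_of
    intro w w' hw
    exact ⟨Long_dep δ0 n w w' hw, Long_dep δ0 n w' w (fun i hi => (hw i hi).symm)⟩
  obtain ⟨l, hl⟩ := Nat.exists_eq_add_of_le hnT
  have e1 : Ex a 0 0 n (one (Long δ0 n)) w0 = Ex a 0 0 T (one (Long δ0 n)) w0 := by
    rw [hl, Ex_trunc ha le_rfl one_pos hdep]
  rw [e1]
  calc Ex a 0 0 T (one (Long δ0 n)) w0
      ≤ Ex a 0 0 T (one fun w => ∃ m < (J + 1) * wd, (fun D => farL D κ ∨ farR D κ) (w m)) w0 := by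
        apply Ex_mono
        apply one_mono
        rintro w ⟨m, hm, h5⟩
        rw [← hr, ← hκ] at h5
        exact ⟨m, by omega, h5⟩
    _ ≤ _ := hcov
    _ ≤ (J + 1) * ENNReal.ofReal qr + (ENNReal.ofReal (ρ / 8) + ENNReal.ofReal (2 * s2 a / wd) *
          ENNReal.ofReal (Cb * ((L' + T / L') * (T * μ) / A + K * (K ^ 2 + T) / hb'))) := by
        gcongr
        refine hb.trans ?_
        gcongr
    _ = ENNReal.ofReal (((J:ℝ) + 1) * qr + (ρ / 8 + 2 * s2 a / wd *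
          (Cb * ((L' + T / L') * (T * μ) / A + K * (K ^ 2 + T) / hb')))) := by
        have e2 : ((J:ℝ≥0∞) + 1) = ENNReal.ofReal ((J:ℝ) + 1) := by
          rw [ENNReal.ofReal_add (by positivity) (by norm_num), ENNReal.ofReal_natCast,
            ENNReal.ofReal_one]
        rw [e2, ← ENNReal.ofReal_mul (by positivity), ← ENNReal.ofReal_mul (by positivity),
          ← ENNReal.ofReal_add (by positivity) (by positivity),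
          ← ENNReal.ofReal_add (by positivity) (by positivity)]
    _ ≤ ENNReal.ofReal ρ := by
        apply ENNReal.ofReal_le_ofReal
        linarith

end Pool.Agent.K9h92.BV
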