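import Pool.Agent.K9h92.BV.Model

set_option autoImplicit false

/-!
The signs of the steps are independent; characteristic functions.
-/

open ENNReal Filter Topology MeasureTheory ProbabilityTheory

namespace Pool.Agent.K9h92.BV

variable {a : ℤ → ℝ} {κ : ℝ}

lemma Dep_prod_xi (k n : ℕ) (f : ℕ → ℝ → ℝ≥0∞) :
    Dep (k + n) (fun w => ∏ i ∈ Finset.range n, f i (xi (k + i) w)) := by
  intro w w' hw
  apply Finset.prod_congr rfl
  intro i hi
  rw [Finset.mem_range] at hi
  unfold xi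
  rw [hw (k + i + 1) (by omega), hw (k + i) (by omega)]

lemma Ex_signs (ha : Jump a) (hc0 : cm a = 0) {ε : ℝ} (h0 : 0 ≤ ε) (h1 : ε < 1) (k n : ℕ)
    (f : ℕ → ℝ → ℝ≥0∞) (w : Pth) :
    Ex a ε k n (fun w => ∏ i ∈ Finset.range n, f i (xi (k + i) w)) w =
      ∏ i ∈ Finset.range n, (ENNReal.ofReal ((1 + kap ε) / 2) * f i 1 +
        ENNReal.ofReal ((1 - kap ε) / 2) * f i (-1)) := by
  induction n generalizing k f w with
  | zero => simp [Ex_zero]
  | succ n ih =>
    rw [Ex_succ]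
    set c := ∏ i ∈ Finset.range n, (ENNReal.ofReal ((1 + kap ε) / 2) * f (i + 1) 1 +
        ENNReal.ofReal ((1 - kap ε) / 2) * f (i + 1) (-1)) with hc
    have e : Ex a ε (k + 1) n (fun w => ∏ i ∈ Finset.range (n + 1), f i (xi (k + i) w)) =
        fun w => c * f 0 (xi k w) := by
      have e1 : (fun w : Pth => ∏ i ∈ Finset.range (n + 1), f i (xi (k + i) w)) =
          fun w => f 0 (xi k w) * ∏ i ∈ Finset.range n, f (i + 1) (xi (k + 1 + i) w) := by
        funext w
        rw [Finset.prod_range_succ', mul_comm, add_zero]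
        congr 1
        apply Finset.prod_congr rfl
        intro i _
        rw [show k + (i + 1) = k + 1 + i by ring]
      rw [e1, Ex_mul (Dep_xi (Nat.lt_succ_self k) (f 0))]
      funext w
      rw [ih (k + 1) (fun i => f (i + 1)) w]
      ring
    rw [e, Av_mul (Dep_const k c) (fun w => f 0 (xi k w)) w, Av_sgn_c ha hc0 h0 h1, Finset.prod_range_succ']

/-- the law of one sign -/
noncomputable def coin (κ : ℝ) : Measure ℝ :=
  ENNReal.ofReal ((1 + κ) / 2) • Measure.dirac 1 + ENNReal.ofReal ((1 - κ) / 2) • Measure.dirac (-1)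

lemma coin_prob (h0 : 0 ≤ κ) (h1 : κ < 1) : IsProbabilityMeasure (coin κ) := by
  constructor
  unfold coin
  simp only [Measure.coe_add, Measure.coe_smul, Pi.add_apply, Pi.smul_apply, smul_eq_mul,
    measure_univ, mul_one]
  rw [← ENNReal.ofReal_add (by linarith) (by linarith)]
  rw [show (1 + κ) / 2 + (1 - κ) / 2 = 1 by ring, ENNReal.ofReal_one]

lemma coin_apply {s : Set ℝ} (hs : MeasurableSet s) : coin κ s =
    ENNReal.ofReal ((1 + κ) / 2) * s.indicator 1 1 + ENNReal.ofReal ((1 - κ) / 2) * s.indicator 1 (-1) := by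
  unfold coin
  simp only [Measure.coe_add, Measure.coe_smul, Pi.add_apply, Pi.smul_apply, smul_eq_mul]
  rw [Measure.dirac_apply' _ hs, Measure.dirac_apply' _ hs]

lemma coin_integral (h0 : 0 ≤ κ) (h1 : κ < 1) (g : ℝ → ℂ) :
    ∫ y, g y ∂(coin κ) = ((1 + κ) / 2 : ℝ) * g 1 + ((1 - κ) / 2 : ℝ) * g (-1) := by
  unfold coin
  rw [integral_add_measure, integral_smul_measure, integral_smul_measure, integral_dirac,
    integral_dirac, ENNReal.toReal_ofReal (by linarith), ENNReal.toReal_ofReal (by linarith)]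
  · simp
  · apply Integrable.smul_measure _ ENNReal.ofReal_ne_top
    exact integrable_dirac (by simp)
  · apply Integrable.smul_measure _ ENNReal.ofReal_ne_top
    exact integrable_dirac (by simp)

section

variable {Ω : Type*} [MeasurableSpace Ω] {P : Measure Ω} [IsProbabilityMeasure P]
  {x : ℕ → Ω → Conf}

lemma meas_xi (hx : ∀ n, Measurable (x n)) (i : ℕ) : Measurable fun ω => xi i (pth x ω) := by
  have h : Measurable fun D : Conf => (M D : ℝ) := Measurable.of_discrete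
  exact (h.comp (hx (i + 1))).sub (h.comp (hx i))

lemma sign_law (ha : Jump a) (hc0 : cm a = 0) {ε : ℝ} (h0 : 0 ≤ ε) (h1 : ε < 1) (hx : IsJumpChain a ε P x) (n : ℕ) :
    P.map (fun ω (i : Fin n) => xi i (pth x ω)) = Measure.pi (fun _ => coin (kap ε)) := by
  have hκ0 := kap_nonneg h0 h1
  have hκ1 := kap_lt h0 h1
  have := coin_prob hκ0 hκ1
  symm
  apply Measure.pi_eq
  intro s hs
  have hmeas : Measurable fun ω (i : Fin n) => xi i (pth x ω) :=
    measurable_pi_lambda _ fun i => meas_xi hx.meas i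
  rw [Measure.map_apply hmeas (MeasurableSet.univ_pi hs)]
  set f : ℕ → ℝ → ℝ≥0∞ := fun i y => if h : i < n then (s ⟨i, h⟩).indicator 1 y else 1 with hf
  have e1 : (fun ω => ∏ i ∈ Finset.range n, f i (xi (0 + i) (pth x ω))) =
      Set.indicator ((fun ω (i : Fin n) => xi i (pth x ω)) ⁻¹' Set.univ.pi s) (fun _ => 1) := by
    funext ω
    by_cases h : ω ∈ ((fun ω (i : Fin n) => xi i (pth x ω)) ⁻¹' Set.univ.pi s)
    · rw [Set.indicator_of_mem h]
      apply Finset.prod_eq_one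
      intro i hi
      rw [Finset.mem_range] at hi
      simp only [hf]
      rw [dif_pos hi, zero_add]
      have := h ⟨i, hi⟩ (Set.mem_univ _)
      rw [Set.indicator_of_mem this]; rfl
    · rw [Set.indicator_of_notMem h]
      rw [Set.mem_preimage, Set.mem_univ_pi, not_forall] at h
      obtain ⟨i, hi⟩ := h
      apply Finset.prod_eq_zero (i := (i:ℕ)) (Finset.mem_range.mpr i.isLt)
      simp only [hf]
      rw [dif_pos i.isLt, zero_add]
      exact Set.indicator_of_notMem hi _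
  have h2 := chain_lintegral ha h0 h1 hx n (F := fun w => ∏ i ∈ Finset.range n, f i (xi (0 + i) w))
    (by have := Dep_prod_xi 0 n f; rwa [zero_add] at this)
  rw [Ex_signs ha hc0 h0 h1, e1, lintegral_indicator (hmeas (MeasurableSet.univ_pi hs)),
    setLIntegral_const, one_mul] at h2
  rw [h2, Finset.prod_range]
  apply Finset.prod_congr rfl
  intro i _
  rw [coin_apply (hs i)]
  have hfi : ∀ y, f i y = (s i).indicator 1 y := by
    intro y; simp only [hf]; rw [dif_pos i.isLt]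
  rw [hfi, hfi]

lemma sign_integral (ha : Jump a) (hc0 : cm a = 0) {ε : ℝ} (h0 : 0 ≤ ε) (h1 : ε < 1) (hx : IsJumpChain a ε P x)
    (n : ℕ) (c : ℕ → ℝ) :
    ∫ ω, Complex.exp (Complex.I * ((∑ i ∈ Finset.range n, c i * xi i (pth x ω) : ℝ) : ℂ)) ∂P =
      ∏ i ∈ Finset.range n, ((Real.cos (c i) : ℂ) + Complex.I * (kap ε * Real.sin (c i) : ℝ)) := by
  have hκ0 := kap_nonneg h0 h1
  have hκ1 := kap_lt h0 h1
  have := coin_prob hκ0 hκ1
  have hmeas : Measurable fun ω (i : Fin n) => xi i (pth x ω) :=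
    measurable_pi_lambda _ fun i => meas_xi hx.meas i
  set g : Fin n → ℝ → ℂ := fun i y => Complex.exp (Complex.I * ((c i * y : ℝ) : ℂ)) with hg
  have e1 : ∀ ω, Complex.exp (Complex.I * ((∑ i ∈ Finset.range n, c i * xi i (pth x ω) : ℝ) : ℂ)) =
      ∏ i : Fin n, g i ((fun (i : Fin n) => xi i (pth x ω)) i) := by
    intro ω
    simp only [hg]
    rw [← Complex.exp_sum, ← Finset.mul_sum, Finset.sum_range, ← Complex.ofReal_sum]
  rw [integral_congr_ae (ae_of_all _ e1)]
  have hgm : ∀ i, Measurable (g i) := by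
    intro i
    simp only [hg]
    fun_prop
  have e2 : ∫ ω, ∏ i : Fin n, g i ((fun (i : Fin n) => xi i (pth x ω)) i) ∂P =
      ∫ y, ∏ i : Fin n, g i (y i) ∂(P.map (fun ω (i : Fin n) => xi i (pth x ω))) := by
    rw [integral_map hmeas.aemeasurable]
    apply Measurable.aestronglyMeasurable
    apply Finset.measurable_prod
    intro i _
    exact (hgm i).comp (measurable_pi_apply i)
  rw [e2, sign_law ha hc0 h0 h1 hx n, integral_fintype_prod_eq_prod, Finset.prod_range]
  apply Finset.prod_congr rfl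
  intro i _
  rw [coin_integral hκ0 hκ1]
  simp only [hg]
  have e3 : Complex.exp (Complex.I * ((c i * 1 : ℝ) : ℂ)) =
      (Real.cos (c i) : ℂ) + (Real.sin (c i) : ℂ) * Complex.I := by
    rw [mul_one, mul_comm, Complex.exp_mul_I]; simp
  have e4 : Complex.exp (Complex.I * ((c i * (-1) : ℝ) : ℂ)) =
      (Real.cos (c i) : ℂ) - (Real.sin (c i) : ℂ) * Complex.I := by
    rw [mul_comm, Complex.exp_mul_I]
    simp [sub_eq_add_neg]
  rw [e3, e4]
  push_cast
  ring

lemma M_sum (hx0 : ∀ᵐ ω ∂P, x 0 ω = ∅) : ∀ᵐ ω ∂P, ∀ m,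
    (M (x m ω) : ℝ) = ∑ i ∈ Finset.range m, xi i (pth x ω) := by
  filter_upwards [hx0] with ω hω
  intro m
  induction m with
  | zero => simp [hω, M_empty]
  | succ m ih =>
    rw [Finset.sum_range_succ, ← ih]
    unfold xi pth
    ring

end

/-- difference of products of numbers in the unit disc -/
lemma prod_sub_prod_le {ι : Type*} (s : Finset ι) (u v : ι → ℂ) (hu : ∀ i ∈ s, ‖u i‖ ≤ 1)
    (hv : ∀ i ∈ s, ‖v i‖ ≤ 1) : ‖∏ i ∈ s, u i - ∏ i ∈ s, v i‖ ≤ ∑ i ∈ s, ‖u i - v i‖ := by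
  classical
  induction s using Finset.induction_on with
  | empty => simp
  | insert i s hi ih =>
    rw [Finset.prod_insert hi, Finset.prod_insert hi, Finset.sum_insert hi]
    have hu' : ∀ j ∈ s, ‖u j‖ ≤ 1 := fun j hj => hu j (Finset.mem_insert_of_mem hj)
    have hv' : ∀ j ∈ s, ‖v j‖ ≤ 1 := fun j hj => hv j (Finset.mem_insert_of_mem hj)
    have h1 : ‖∏ j ∈ s, u j‖ ≤ 1 := by
      rw [norm_prod]; exact Finset.prod_le_one (fun j _ => norm_nonneg _) hu'
    have h2 := ih hu' hv'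
    have h3 := hv i (Finset.mem_insert_self i s)
    calc ‖u i * ∏ j ∈ s, u j - v i * ∏ j ∈ s, v j‖
        = ‖(u i - v i) * ∏ j ∈ s, u j + v i * (∏ j ∈ s, u j - ∏ j ∈ s, v j)‖ := by
          congr 1; ring
      _ ≤ ‖(u i - v i) * ∏ j ∈ s, u j‖ + ‖v i * (∏ j ∈ s, u j - ∏ j ∈ s, v j)‖ := norm_add_le _ _
      _ ≤ ‖u i - v i‖ * 1 + 1 * ∑ j ∈ s, ‖u j - v j‖ := by
          rw [norm_mul, norm_mul]
          gcongr
      _ = _ := by ring

/-- one factor -/
noncomputable def phi (κ c : ℝ) : ℂ := (Real.cos c : ℂ) + Complex.I * (κ * Real.sin c : ℝ)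

/-- exponent of the approximation -/
noncomputable def zet (κ c : ℝ) : ℂ := (-(c ^ 2) / 2 : ℝ) + Complex.I * (κ * c : ℝ)

lemma phi_norm {κ : ℝ} (h0 : 0 ≤ κ) (h1 : κ < 1) (c : ℝ) : ‖phi κ c‖ ≤ 1 := by
  have h : ‖phi κ c‖ ^ 2 = Real.cos c ^ 2 + (κ * Real.sin c) ^ 2 := by
    have hre : (phi κ c).re = Real.cos c := by
      unfold phi
      rw [Complex.add_re, Complex.ofReal_re, Complex.mul_re, Complex.I_re, Complex.ofReal_im]
      ring
    have him : (phi κ c).im = κ * Real.sin c := by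
      unfold phi
      rw [Complex.add_im, Complex.ofReal_im, Complex.mul_im, Complex.I_re, Complex.I_im,
        Complex.ofReal_re, Complex.ofReal_im]
      ring
    rw [← Complex.normSq_eq_norm_sq, Complex.normSq_apply, hre, him]
    ring
  have h2 : Real.cos c ^ 2 + (κ * Real.sin c) ^ 2 ≤ 1 := by
    have := Real.sin_sq_add_cos_sq c
    have : κ ^ 2 ≤ 1 := by nlinarith
    nlinarith [sq_nonneg (Real.sin c)]
  nlinarith [norm_nonneg (phi κ c)]

lemma zet_norm (κ c : ℝ) : ‖Complex.exp (zet κ c)‖ ≤ 1 := by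
  have hre : (zet κ c).re = -(c ^ 2) / 2 := by
    unfold zet
    rw [Complex.add_re, Complex.ofReal_re, Complex.mul_re, Complex.I_re, Complex.ofReal_im]
    ring
  rw [Complex.norm_exp, hre, Real.exp_le_one_iff]
  have := sq_nonneg c
  linarith

lemma phi_sub {κ c : ℝ} (h0 : 0 ≤ κ) (h1 : κ < 1) (hc : |c| ≤ 1) (hz : c ^ 2 + κ * |c| ≤ 1) :
    ‖phi κ c - Complex.exp (zet κ c)‖ ≤ c ^ 4 + κ * |c| ^ 3 + (c ^ 2 + κ * |c|) ^ 2 := by
  have hzn : ‖zet κ c‖ ≤ c ^ 2 + κ * |c| := by
    unfold zet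
    refine (norm_add_le _ _).trans ?_
    rw [norm_mul, Complex.norm_I, one_mul, Complex.norm_real, Complex.norm_real, Real.norm_eq_abs,
      Real.norm_eq_abs, abs_mul, abs_of_nonneg h0]
    have : |(-(c ^ 2) / 2)| = c ^ 2 / 2 := by
      rw [neg_div, abs_neg, abs_of_nonneg (by positivity)]
    rw [this]
    nlinarith [sq_nonneg c]
  have h2 := Complex.norm_exp_sub_one_sub_id_le (hzn.trans hz)
  have h3 := Real.cos_bound hc
  have h4 := Real.sin_bound hc
  have h5 : ‖phi κ c - (1 + zet κ c)‖ ≤ c ^ 4 + κ * |c| ^ 3 := by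
    have e : phi κ c - (1 + zet κ c) = ((Real.cos c - (1 - c ^ 2 / 2) : ℝ) : ℂ) +
        Complex.I * ((κ * (Real.sin c - c) : ℝ) : ℂ) := by
      unfold phi zet; push_cast; ring
    rw [e]
    refine (norm_add_le _ _).trans ?_
    rw [norm_mul, Complex.norm_I, one_mul, Complex.norm_real, Complex.norm_real, Real.norm_eq_abs,
      Real.norm_eq_abs, abs_mul, abs_of_nonneg h0]
    have h6 : |Real.sin c - c| ≤ |c| ^ 3 := by
      have e2 : Real.sin c - c = (Real.sin c - (c - c ^ 3 / 6)) + (-(c ^ 3 / 6)) := by ring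
      rw [e2]
      refine (abs_add_le _ _).trans ?_
      rw [abs_neg, abs_div, abs_pow]
      have h7 : |c| ^ 5 ≤ |c| ^ 3 := pow_le_pow_of_le_one (abs_nonneg _) hc (by norm_num)
      have h8 : 0 ≤ |c| ^ 3 := by positivity
      have h9 : |(6:ℝ)| = 6 := by norm_num
      rw [h9]
      linarith
    have h7 : |Real.cos c - (1 - c ^ 2 / 2)| ≤ c ^ 4 := by
      have e3 : |c| ^ 4 = c ^ 4 := by
        rw [← abs_pow, abs_of_nonneg (by positivity)]
      rw [e3] at h3
      nlinarith [pow_nonneg (sq_nonneg c) 2]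
    have h8 := mul_le_mul_of_nonneg_left h6 h0
    linarith
  calc ‖phi κ c - Complex.exp (zet κ c)‖
      = ‖(phi κ c - (1 + zet κ c)) - (Complex.exp (zet κ c) - 1 - zet κ c)‖ := by congr 1; ring
    _ ≤ ‖phi κ c - (1 + zet κ c)‖ + ‖Complex.exp (zet κ c) - 1 - zet κ c‖ := norm_sub_le _ _
    _ ≤ (c ^ 4 + κ * |c| ^ 3) + (c ^ 2 + κ * |c|) ^ 2 := by
        refine add_le_add h5 (h2.trans ?_)
        exact pow_le_pow_left₀ (norm_nonneg _) hzn 2

end Pool.Agent.K9h92.BV
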