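import Pool.Agent.K9h92.BV.Heavy

set_option autoImplicit false

/-!
Truncated moments of kernels with a light tail.
-/

open ENNReal Filter Topology

namespace Pool.Agent.K9h92.BV

variable {a : ℤ → ℝ}

/-- total rate of the steps of length at least `K` -/
noncomputable def Tl (a : ℤ → ℝ) (K : ℕ) : ℝ := ∑' k : ℤ, if (K:ℤ) ≤ |k| then a k else 0

lemma Tl_summable (ha : Jump a) (K : ℕ) :
    Summable fun k : ℤ => if (K:ℤ) ≤ |k| then a k else 0 := by
  apply Summable.of_nonneg_of_le (fun k => ?_) (fun k => ?_) ha.summable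
  · split_ifs
    · exact ha.nonneg k
    · exact le_rfl
  · split_ifs
    · exact le_rfl
    · exact ha.nonneg k

lemma Tl_nonneg (ha : Jump a) (K : ℕ) : 0 ≤ Tl a K := by
  apply tsum_nonneg
  intro k
  split_ifs
  · exact ha.nonneg k
  · exact le_rfl

lemma ofReal_Tl (ha : Jump a) (K : ℕ) :
    ENNReal.ofReal (Tl a K) = ∑' k : ℤ, ii ((K:ℤ) ≤ |k|) * ENNReal.ofReal (a k) := by
  unfold Tl
  rw [ENNReal.ofReal_tsum_of_nonneg _ (Tl_summable ha K)]
  · apply tsum_congr
    intro k
    by_cases h : (K:ℤ) ≤ |k|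
    · rw [if_pos h, ii_of h, one_mul]
    · rw [if_neg h, ii_not h, zero_mul, ENNReal.ofReal_zero]
  · intro k
    split_ifs
    · exact ha.nonneg k
    · exact le_rfl

lemma ofReal_telescope {g : ℕ → ℝ} (h0 : g 0 = 0) (hm : Monotone g) (n : ℕ) :
    ENNReal.ofReal (g n) = ∑' j : ℕ, ENNReal.ofReal (g (j + 1) - g j) * ii (j + 1 ≤ n) := by
  rw [tsum_eq_sum (s := Finset.range n)]
  · have e1 : ∑ j ∈ Finset.range n, ENNReal.ofReal (g (j + 1) - g j) * ii (j + 1 ≤ n) =
        ∑ j ∈ Finset.range n, ENNReal.ofReal (g (j + 1) - g j) := by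
      apply Finset.sum_congr rfl
      intro j hj
      rw [Finset.mem_range] at hj
      rw [ii_of (show j + 1 ≤ n from hj), mul_one]
    rw [e1, ← ENNReal.ofReal_sum_of_nonneg (fun j _ => sub_nonneg.mpr (hm (Nat.le_succ j))),
      Finset.sum_range_sub, h0, sub_zero]
  · intro j hj
    rw [Finset.mem_range, not_lt] at hj
    rw [ii_not (by omega), mul_zero]

/-- summation by parts -/
lemma abel (ha : Jump a) {g : ℕ → ℝ} (h0 : g 0 = 0) (hm : Monotone g) :
    ∑' k : ℤ, ENNReal.ofReal (g k.natAbs * a k) =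
      ∑' j : ℕ, ENNReal.ofReal (g (j + 1) - g j) * ENNReal.ofReal (Tl a (j + 1)) := by
  have hg : ∀ n, 0 ≤ g n := fun n => by rw [← h0]; exact hm (Nat.zero_le n)
  have e1 : ∀ k : ℤ, ENNReal.ofReal (g k.natAbs * a k) =
      ∑' j : ℕ, ENNReal.ofReal (g (j + 1) - g j) *
        (ii (((j + 1 : ℕ):ℤ) ≤ |k|) * ENNReal.ofReal (a k)) := by
    intro k
    rw [ENNReal.ofReal_mul (hg _), ofReal_telescope h0 hm, ← ENNReal.tsum_mul_right]
    apply tsum_congr
    intro j
    rw [mul_assoc]
    congr 3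
    apply propext
    rw [Int.abs_eq_natAbs]
    constructor <;> intro h <;> exact_mod_cast h
  rw [tsum_congr e1, ENNReal.tsum_comm]
  apply tsum_congr
  intro j
  rw [ENNReal.tsum_mul_left, ofReal_Tl ha]

/-- truncated third moment -/
noncomputable def mt (a : ℤ → ℝ) (l : ℕ) : ℝ := ∑' k : ℤ, min |(k:ℝ)| l * ((k:ℝ) ^ 2 * a k)

/-- truncated fourth moment -/
noncomputable def b4 (a : ℤ → ℝ) (h : ℕ) : ℝ := ∑' k : ℤ, min |(k:ℝ)| h ^ 2 * ((k:ℝ) ^ 2 * a k)

lemma mt_summable (ha : Jump a) (l : ℕ) :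
    Summable fun k : ℤ => min |(k:ℝ)| l * ((k:ℝ) ^ 2 * a k) := by
  have h0 : ∀ k : ℤ, 0 ≤ (k:ℝ) ^ 2 * a k := fun k => mul_nonneg (by positivity) (ha.nonneg k)
  apply Summable.of_nonneg_of_le (fun k => mul_nonneg (by positivity) (h0 k)) _
    (ha.second.mul_left (l:ℝ))
  intro k
  exact mul_le_mul_of_nonneg_right (min_le_right _ _) (h0 k)

lemma b4_summable (ha : Jump a) (h : ℕ) :
    Summable fun k : ℤ => min |(k:ℝ)| h ^ 2 * ((k:ℝ) ^ 2 * a k) := by
  have h0 : ∀ k : ℤ, 0 ≤ (k:ℝ) ^ 2 * a k := fun k => mul_nonneg (by positivity) (ha.nonneg k)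
  apply Summable.of_nonneg_of_le (fun k => mul_nonneg (by positivity) (h0 k)) _
    (ha.second.mul_left ((h:ℝ) ^ 2))
  intro k
  exact mul_le_mul_of_nonneg_right
    (pow_le_pow_left₀ (by positivity) (min_le_right _ _) 2) (h0 k)

lemma mt_nonneg (ha : Jump a) (l : ℕ) : 0 ≤ mt a l :=
  tsum_nonneg fun k => mul_nonneg (by positivity) (mul_nonneg (by positivity) (ha.nonneg k))

lemma b4_nonneg (ha : Jump a) (h : ℕ) : 0 ≤ b4 a h :=
  tsum_nonneg fun k => mul_nonneg (by positivity) (mul_nonneg (by positivity) (ha.nonneg k))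

lemma mt_mono (ha : Jump a) {l L : ℕ} (h : l ≤ L) : mt a l ≤ mt a L := by
  apply Summable.tsum_le_tsum _ (mt_summable ha l) (mt_summable ha L)
  intro k
  apply mul_le_mul_of_nonneg_right _ (mul_nonneg (by positivity) (ha.nonneg k))
  apply min_le_min_left
  exact_mod_cast h

lemma mt_eq_AL (a : ℤ → ℝ) (l : ℕ) : AL a l = mt a l / l := by
  unfold AL mt gL
  rw [← tsum_div_const]
  apply tsum_congr
  intro k
  ring

/-- the tail is light: `K ^ 3` times the rate of the steps of length at least `K` tends to zero -/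
def Light (a : ℤ → ℝ) : Prop := Tendsto (fun K : ℕ => (K:ℝ) ^ 3 * Tl a K) atTop (𝓝 0)

lemma Light.bound (h : Light a) :
    ∃ c : ℝ, 0 < c ∧ ∀ K : ℕ, (K:ℝ) ^ 3 * Tl a K ≤ c := by
  obtain ⟨c, hc⟩ := h.bddAbove_range
  refine ⟨max c 1, by positivity, fun K => ?_⟩
  exact (hc ⟨K, rfl⟩).trans (le_max_left _ _)

/-- partial sums of `1 / (j + 1) ^ 2` from `n` on -/
lemma tail_sq_sum {n : ℕ} (hn : 0 < n) (m : ℕ) :
    ∑ j ∈ Finset.range m, (if n ≤ j then 1 / ((j:ℝ) + 1) ^ 2 else 0) ≤ 1 / (n:ℝ) := by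
  have hnr : (0:ℝ) < n := by exact_mod_cast hn
  have key : ∀ m : ℕ, ∑ j ∈ Finset.range m, (if n ≤ j then 1 / ((j:ℝ) + 1) ^ 2 else 0) ≤
      1 / (n:ℝ) - 1 / max (n:ℝ) m := by
    intro m
    induction m with
    | zero => simp
    | succ m ih =>
      rw [Finset.sum_range_succ]
      by_cases h : n ≤ m
      · have hmr : (n:ℝ) ≤ m := by exact_mod_cast h
        have hm0 : (0:ℝ) < m := lt_of_lt_of_le hnr hmr
        rw [if_pos h]
        rw [max_eq_right hmr] at ih
        have e1 : max (n:ℝ) ((m + 1 : ℕ) : ℝ) = m + 1 := by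
          push_cast
          exact max_eq_right (by linarith)
        rw [e1]
        have h2 : 1 / ((m:ℝ) + 1) ^ 2 ≤ 1 / m - 1 / (m + 1) := by
          rw [div_sub_div _ _ hm0.ne' (by positivity), div_le_div_iff₀ (by positivity) (by positivity)]
          nlinarith
        linarith
      · rw [if_neg h, add_zero]
        have h3 : m + 1 ≤ n := by omega
        have e1 : max (n:ℝ) ((m + 1 : ℕ) : ℝ) = n := max_eq_left (by exact_mod_cast h3)
        have e2 : max (n:ℝ) m = n := max_eq_left (by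
          have : m ≤ n := by omega
          exact_mod_cast this)
        rw [e1]
        rw [e2] at ih
        exact ih
  refine (key m).trans ?_
  have : 0 < 1 / max (n:ℝ) m := by positivity
  linarith

lemma sum_to_real {f : ℤ → ℝ} (h0 : ∀ k, 0 ≤ f k) (hs : Summable f) {g : ℕ → ℝ} {B : ℝ}
    (hB : 0 ≤ B) (hg0 : ∀ j, 0 ≤ g j)
    (he : ∑' k, ENNReal.ofReal (f k) ≤ ∑' j : ℕ, ENNReal.ofReal (g j))
    (hg : ∀ m, ∑ j ∈ Finset.range m, g j ≤ B) : ∑' k, f k ≤ B := by
  have h1 : ∑' j : ℕ, ENNReal.ofReal (g j) ≤ ENNReal.ofReal B := by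
    apply ENNReal.tsum_le_of_sum_range_le
    intro m
    rw [← ENNReal.ofReal_sum_of_nonneg (fun j _ => hg0 j)]
    exact ENNReal.ofReal_le_ofReal (hg m)
  have h2 := he.trans h1
  rw [← ENNReal.ofReal_tsum_of_nonneg h0 hs] at h2
  exact (ENNReal.ofReal_le_ofReal_iff hB).mp h2

/-- the truncated third moment grows at most logarithmically -/
lemma mt_log (ha : Jump a) {c : ℝ} (hc : 0 < c) (hT : ∀ K : ℕ, (K:ℝ) ^ 3 * Tl a K ≤ c) {n : ℕ}
    (hn : 0 < n) : mt a n ≤ 3 * c * (1 + Real.log n) + 2 * c := by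
  have hnr : (0:ℝ) < n := by exact_mod_cast hn
  have hn1 : (1:ℝ) ≤ n := by exact_mod_cast hn
  set g : ℕ → ℝ := fun j => min (j:ℝ) n * (j:ℝ) ^ 2 with hg
  have g0 : g 0 = 0 := by simp [hg]
  have gm : Monotone g := by
    intro i j hij
    have : (i:ℝ) ≤ j := by exact_mod_cast hij
    simp only [hg]
    gcongr
  have e1 : ∀ k : ℤ, min |(k:ℝ)| n * ((k:ℝ) ^ 2 * a k) = g k.natAbs * a k := by
    intro k
    simp only [hg]
    rw [Nat.cast_natAbs, Int.cast_abs, sq_abs]
    ring
  unfold mt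
  set B : ℕ → ℝ := fun j => (if j < n then 3 * c * (1 / ((j:ℝ) + 1)) else 0) +
    2 * c * n * (if n ≤ j then 1 / ((j:ℝ) + 1) ^ 2 else 0) with hB
  have hB0 : ∀ j, 0 ≤ B j := by
    intro j
    simp only [hB]
    split_ifs <;> positivity
  apply sum_to_real (g := B) (fun k => mul_nonneg (by positivity)
    (mul_nonneg (by positivity) (ha.nonneg k))) (mt_summable ha n)
    (by have := Real.log_nonneg hn1; positivity) hB0
  · rw [tsum_congr (fun k => congrArg ENNReal.ofReal (e1 k)), abel ha g0 gm]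
    apply ENNReal.tsum_le_tsum
    intro j
    rw [← ENNReal.ofReal_mul (sub_nonneg.mpr (gm (Nat.le_succ j)))]
    apply ENNReal.ofReal_le_ofReal
    have hA := hT (j + 1)
    have hA0 := Tl_nonneg ha (j + 1)
    have hj : (0:ℝ) ≤ j := by positivity
    push_cast at hA
    have hA' : Tl a (j + 1) ≤ c / ((j:ℝ) + 1) ^ 3 := by
      rw [le_div_iff₀ (by positivity)]; linarith
    by_cases h : j < n
    · have hjn : (j:ℝ) + 1 ≤ n := by exact_mod_cast h
      have h1 : g (j + 1) - g j ≤ 3 * ((j:ℝ) + 1) ^ 2 := by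
        simp only [hg]
        push_cast
        rw [min_eq_left hjn, min_eq_left (by linarith)]
        nlinarith
      simp only [hB]
      rw [if_pos h, if_neg (not_le.mpr h), mul_zero, add_zero]
      calc (g (j + 1) - g j) * Tl a (j + 1) ≤ (3 * ((j:ℝ) + 1) ^ 2) * (c / ((j:ℝ) + 1) ^ 3) :=
            mul_le_mul h1 hA' hA0 (by positivity)
        _ = _ := by field_simp
    · have hjn : (n:ℝ) ≤ j := by exact_mod_cast not_lt.mp h
      have h1 : g (j + 1) - g j ≤ 2 * n * ((j:ℝ) + 1) := by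
        simp only [hg]
        push_cast
        rw [min_eq_right (by linarith), min_eq_right hjn]
        nlinarith
      simp only [hB]
      rw [if_neg h, if_pos (not_lt.mp h), zero_add]
      calc (g (j + 1) - g j) * Tl a (j + 1) ≤ (2 * n * ((j:ℝ) + 1)) * (c / ((j:ℝ) + 1) ^ 3) :=
            mul_le_mul h1 hA' hA0 (by positivity)
        _ = _ := by field_simp
  · intro m
    simp only [hB]
    rw [Finset.sum_add_distrib, ← Finset.mul_sum]
    have h1 := tail_sq_sum hn m
    have h2 : ∑ j ∈ Finset.range m, (if j < n then 3 * c * (1 / ((j:ℝ) + 1)) else 0) ≤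
        3 * c * (1 + Real.log n) := by
      calc ∑ j ∈ Finset.range m, (if j < n then 3 * c * (1 / ((j:ℝ) + 1)) else 0)
          = ∑ j ∈ (Finset.range m).filter (fun j => j < n), 3 * c * (1 / ((j:ℝ) + 1)) := by
            rw [Finset.sum_filter]
        _ ≤ ∑ j ∈ Finset.range n, 3 * c * (1 / ((j:ℝ) + 1)) := by
            apply Finset.sum_le_sum_of_subset_of_nonneg
            · intro j hj
              rw [Finset.mem_filter] at hj
              exact Finset.mem_range.mpr hj.2
            · intro j _ _; positivity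
        _ = 3 * c * ∑ j ∈ Finset.range n, 1 / ((j:ℝ) + 1) := by rw [Finset.mul_sum]
        _ ≤ 3 * c * (1 + Real.log n) := by
            apply mul_le_mul_of_nonneg_left _ (by positivity)
            have h3 := harmonic_le_one_add_log n
            refine le_trans (le_of_eq ?_) h3
            unfold harmonic
            push_cast
            apply Finset.sum_congr rfl
            intro j _
            rw [one_div]
    have h3 : 2 * c * n * ∑ j ∈ Finset.range m, (if n ≤ j then 1 / ((j:ℝ) + 1) ^ 2 else 0) ≤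
        2 * c * n * (1 / n) := mul_le_mul_of_nonneg_left h1 (by positivity)
    have h4 : 2 * c * n * (1 / n) = 2 * c := by field_simp
    linarith

/-- the truncated fourth moment -/
lemma b4_small (ha : Jump a) (hL : Light a) {η : ℝ} (hη : 0 < η) :
    ∃ h0 : ℕ, ∀ h ≥ h0, b4 a h ≤ η * h := by
  obtain ⟨c, hc, hT⟩ := hL.bound
  have hη' : 0 < η / 8 := by positivity
  obtain ⟨N, hN⟩ := eventually_atTop.mp (hL.eventually (gt_mem_nhds hη'))
  obtain ⟨h1, hh1⟩ := exists_nat_gt (8 * (4 * c * N) / η)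
  refine ⟨max (max N h1) 1, fun h hh => ?_⟩
  have hhN : N ≤ h := ((le_max_left _ _).trans (le_max_left _ _)).trans hh
  have hhh : h1 ≤ h := ((le_max_right _ _).trans (le_max_left _ _)).trans hh
  have hh0 : 0 < h := lt_of_lt_of_le one_pos ((le_max_right _ _).trans hh)
  have hhr : (0:ℝ) < h := by exact_mod_cast hh0
  have hh1' : 8 * (4 * c * N) / η < h := hh1.trans_le (by exact_mod_cast hhh)
  rw [div_lt_iff₀ hη] at hh1'
  set g : ℕ → ℝ := fun j => min (j:ℝ) h ^ 2 * (j:ℝ) ^ 2 with hg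
  have g0 : g 0 = 0 := by simp [hg]
  have gm : Monotone g := by
    intro i j hij
    have : (i:ℝ) ≤ j := by exact_mod_cast hij
    simp only [hg]
    gcongr
  have e1 : ∀ k : ℤ, min |(k:ℝ)| h ^ 2 * ((k:ℝ) ^ 2 * a k) = g k.natAbs * a k := by
    intro k
    simp only [hg]
    rw [Nat.cast_natAbs, Int.cast_abs, sq_abs]
    ring
  unfold b4
  set B : ℕ → ℝ := fun j => ((if j < N then 4 * c else 0) + (if j < h then 4 * (η / 8) else 0)) +
    2 * (η / 8) * h ^ 2 * (if h ≤ j then 1 / ((j:ℝ) + 1) ^ 2 else 0) with hB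
  have hB0 : ∀ j, 0 ≤ B j := by
    intro j
    simp only [hB]
    split_ifs <;> positivity
  apply sum_to_real (g := B) (fun k => mul_nonneg (by positivity)
    (mul_nonneg (by positivity) (ha.nonneg k))) (b4_summable ha h) (by positivity) hB0
  · rw [tsum_congr (fun k => congrArg ENNReal.ofReal (e1 k)), abel ha g0 gm]
    apply ENNReal.tsum_le_tsum
    intro j
    rw [← ENNReal.ofReal_mul (sub_nonneg.mpr (gm (Nat.le_succ j)))]
    apply ENNReal.ofReal_le_ofReal
    have hA := hT (j + 1)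
    have hA0 := Tl_nonneg ha (j + 1)
    have hj : (0:ℝ) ≤ j := by positivity
    by_cases h2 : j < h
    · have hjn : (j:ℝ) + 1 ≤ h := by exact_mod_cast h2
      have h3 : g (j + 1) - g j ≤ 4 * ((j:ℝ) + 1) ^ 3 := by
        simp only [hg]
        push_cast
        rw [min_eq_left hjn, min_eq_left (by linarith)]
        nlinarith [mul_nonneg hj hj, mul_nonneg (mul_nonneg hj hj) hj]
      have h4 : (g (j + 1) - g j) * Tl a (j + 1) ≤ 4 * (((j + 1 : ℕ) : ℝ) ^ 3 * Tl a (j + 1)) := by
        calc (g (j + 1) - g j) * Tl a (j + 1) ≤ (4 * ((j:ℝ) + 1) ^ 3) * Tl a (j + 1) :=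
              mul_le_mul_of_nonneg_right h3 hA0
          _ = _ := by push_cast; ring
      simp only [hB]
      rw [if_pos h2, if_neg (not_le.mpr h2), mul_zero, add_zero]
      by_cases h5 : j < N
      · rw [if_pos h5]; linarith
      · rw [if_neg h5, zero_add]
        have := (hN (j + 1) (by omega)).le
        linarith
    · have hjn : (h:ℝ) ≤ j := by exact_mod_cast not_lt.mp h2
      have hA2 := (hN (j + 1) (by omega)).le
      have hA' : Tl a (j + 1) ≤ (η / 8) / ((j:ℝ) + 1) ^ 3 := by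
        rw [le_div_iff₀ (by positivity)]
        push_cast at hA2
        linarith
      have h3 : g (j + 1) - g j ≤ 2 * h ^ 2 * ((j:ℝ) + 1) := by
        simp only [hg]
        push_cast
        rw [min_eq_right (by linarith), min_eq_right hjn]
        nlinarith [sq_nonneg (h:ℝ)]
      simp only [hB]
      rw [if_neg h2, if_pos (not_lt.mp h2), if_neg (by omega), add_zero, zero_add]
      calc (g (j + 1) - g j) * Tl a (j + 1) ≤
            (2 * h ^ 2 * ((j:ℝ) + 1)) * ((η / 8) / ((j:ℝ) + 1) ^ 3) :=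
            mul_le_mul h3 hA' hA0 (by positivity)
        _ = _ := by field_simp
  · intro m
    simp only [hB]
    rw [Finset.sum_add_distrib, ← Finset.mul_sum, Finset.sum_add_distrib]
    have h2 := tail_sq_sum hh0 m
    have cnt : ∀ (M : ℕ) (x : ℝ), 0 ≤ x → ∑ j ∈ Finset.range m, (if j < M then x else 0) ≤ M * x := by
      intro M x hx
      calc ∑ j ∈ Finset.range m, (if j < M then x else 0)
          = ∑ j ∈ (Finset.range m).filter (fun j => j < M), x := by rw [Finset.sum_filter]
        _ ≤ ∑ j ∈ Finset.range M, x := by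
            apply Finset.sum_le_sum_of_subset_of_nonneg
            · intro j hj
              rw [Finset.mem_filter] at hj
              exact Finset.mem_range.mpr hj.2
            · intro j _ _; exact hx
        _ = M * x := by rw [Finset.sum_const, Finset.card_range, nsmul_eq_mul]
    have h3 := cnt N (4 * c) (by positivity)
    have h4 := cnt h (4 * (η / 8)) (by positivity)
    have h5 : 2 * (η / 8) * h ^ 2 * ∑ j ∈ Finset.range m, (if h ≤ j then 1 / ((j:ℝ) + 1) ^ 2 else 0) ≤
        2 * (η / 8) * h ^ 2 * (1 / h) := mul_le_mul_of_nonneg_left h2 (by positivity)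
    have h6 : 2 * (η / 8) * h ^ 2 * (1 / h) = 2 * (η / 8) * h := by field_simp
    have h7 : (N:ℝ) * (4 * c) ≤ η / 8 * h := by linarith
    have h8 : 0 ≤ η * h := by positivity
    linarith

/-- powers of the truncated third moment are small compared with powers -/
lemma mt_pow (ha : Jump a) (hL : Light a) (E : ℝ) (N : ℕ) :
    ∀ᶠ n : ℕ in atTop, E * (1 + mt a n) ^ N ≤ Real.sqrt (Real.sqrt n) := by
  obtain ⟨c, hc, hT⟩ := hL.bound
  -- the logarithm
  have h1 : ∀ᶠ x : ℝ in atTop, (|E| + 1) * (1 + 5 * c) ^ N * (1 + 4 * Real.log x) ^ N ≤ x := by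
    have h2 : (fun x : ℝ => (1 + 4 * Real.log x) ^ N) =o[atTop] (fun x : ℝ => x) := by
      have h3 : (fun x : ℝ => (1 + 4 * Real.log x) ^ N) =O[atTop] (fun x : ℝ => Real.log x ^ N) := by
        apply Asymptotics.IsBigO.of_bound ((5:ℝ) ^ N)
        filter_upwards [Real.tendsto_log_atTop.eventually_ge_atTop 1] with x hx
        rw [Real.norm_eq_abs, Real.norm_eq_abs, abs_of_nonneg (by positivity),
          abs_of_nonneg (by positivity), ← mul_pow]
        apply pow_le_pow_left₀ (by positivity)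
        linarith
      exact h3.trans_isLittleO (Real.isLittleO_pow_log_id_atTop)
    have hC : 0 < (|E| + 1) * (1 + 5 * c) ^ N := by positivity
    have h4 := (Asymptotics.isLittleO_iff.mp h2) (inv_pos.mpr hC)
    filter_upwards [h4, eventually_ge_atTop 1] with x hx hx1
    have hlog := Real.log_nonneg hx1
    rw [Real.norm_eq_abs, Real.norm_eq_abs, abs_of_nonneg (show (0:ℝ) ≤ (1 + 4 * Real.log x) ^ N by
      positivity), abs_of_nonneg (show (0:ℝ) ≤ x by linarith)] at hx
    rw [inv_mul_eq_div, le_div_iff₀ hC] at hx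
    linarith
  have h5 : Tendsto (fun n : ℕ => Real.sqrt (Real.sqrt n)) atTop atTop :=
    Real.tendsto_sqrt_atTop.comp (Real.tendsto_sqrt_atTop.comp tendsto_natCast_atTop_atTop)
  filter_upwards [h5.eventually h1, eventually_ge_atTop 1] with n hn hn1
  have hn0 : 0 < n := hn1
  have hnr : (1:ℝ) ≤ n := by exact_mod_cast hn1
  have hlog := Real.log_nonneg hnr
  have h6 := mt_log ha hc hT hn0
  have h7 := mt_nonneg ha n
  have h8 : Real.log (Real.sqrt (Real.sqrt n)) = Real.log n / 4 := by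
    rw [Real.log_sqrt (Real.sqrt_nonneg _), Real.log_sqrt (by positivity)]; ring
  rw [h8] at hn
  refine le_trans ?_ hn
  have h9 : 1 + mt a n ≤ (1 + 5 * c) * (1 + 4 * (Real.log n / 4)) := by
    have : 0 ≤ c * Real.log n := by positivity
    nlinarith
  calc E * (1 + mt a n) ^ N ≤ (|E| + 1) * (1 + mt a n) ^ N := by
        apply mul_le_mul_of_nonneg_right _ (by positivity)
        linarith [le_abs_self E]
    _ ≤ (|E| + 1) * ((1 + 5 * c) * (1 + 4 * (Real.log n / 4))) ^ N := by
        apply mul_le_mul_of_nonneg_left _ (by positivity)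
        exact pow_le_pow_left₀ (by positivity) h9 N
    _ = _ := by rw [mul_pow]; ring

end Pool.Agent.K9h92.BV
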