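import Pool.Agent.K9h92.BV.Lln

set_option autoImplicit false

/-!
Kernels with a finite third moment: drift estimates for `min(m, l)` and `min(m, h) ^ 2`.
-/

open ENNReal Filter Topology

namespace Pool.Agent.K9h92.BV

variable {a : ℤ → ℝ}

/-- the third absolute moment is finite -/
def Thd (a : ℤ → ℝ) : Prop := Summable fun k : ℤ => |(k:ℝ)| ^ 3 * a k

/-- third absolute moment -/
noncomputable def m3 (a : ℤ → ℝ) : ℝ := ∑' k : ℤ, |(k:ℝ)| ^ 3 * a k

/-- the weight `min(m, l)` on the positive integers -/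
noncomputable def ps (l : ℕ) (m : ℤ) : ℝ := if 0 < m then min (m:ℝ) l else 0

lemma ps_zero (l : ℕ) : ∀ m ≤ 0, ps l m = 0 := by
  intro m hm; unfold ps; rw [if_neg (by omega)]

lemma ps_nonneg (l : ℕ) (m : ℤ) : 0 ≤ ps l m := by
  unfold ps
  split_ifs with h
  · have : (0:ℝ) < m := by exact_mod_cast h
    positivity
  · exact le_rfl

lemma ps_le (l : ℕ) (m : ℤ) : ps l m ≤ l := by
  unfold ps
  split_ifs with h
  · exact min_le_right _ _
  · positivity

lemma evn_ps (l : ℕ) (m : ℤ) : evn (ps l) m = min |(m:ℝ)| l := by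
  unfold evn ps
  rcases lt_trichotomy m 0 with h | h | h
  · rw [if_neg (by omega), if_pos (by omega), abs_of_neg (by exact_mod_cast h)]; push_cast; ring
  · subst h; simp
  · rw [if_pos h, if_neg (by omega), abs_of_pos (by exact_mod_cast h)]; ring

lemma abs_pair (m k : ℤ) :
    (abs ((m:ℝ) + k) = abs ((m:ℝ) + abs (k:ℝ)) ∧ abs ((m:ℝ) - k) = abs ((m:ℝ) - abs (k:ℝ))) ∨
    (abs ((m:ℝ) + k) = abs ((m:ℝ) - abs (k:ℝ)) ∧ abs ((m:ℝ) - k) = abs ((m:ℝ) + abs (k:ℝ))) := by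
  rcases le_total 0 (k:ℝ) with h | h
  · left; rw [abs_of_nonneg h]; exact ⟨rfl, rfl⟩
  · right; rw [abs_of_nonpos h, sub_neg_eq_add, ← sub_eq_add_neg]; exact ⟨rfl, rfl⟩

lemma lin_ps_le (l : ℕ) (k m : ℤ) :
    lin (ps l) k m ≤ pos1 m * (if m < |k| then 2 * |(k:ℝ)| else 0) -
      (if m = l ∧ |k| ≤ m ∧ 0 < m then |(k:ℝ)| else 0) := by
  unfold lin
  by_cases hm : 0 < m
  swap
  · have hn : ¬ (m = (l:ℤ) ∧ |k| ≤ m ∧ 0 < m) := fun hc => hm hc.2.2
    rw [pos1_zero m (by omega), if_neg hn]; simp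
  have hp : pos1 m = 1 := by unfold pos1; rw [if_pos hm]
  rw [hp, one_mul, one_mul, evn_ps, evn_ps, evn_ps]
  have hmr : (0:ℝ) < m := by exact_mod_cast hm
  have hl : (0:ℝ) ≤ l := by positivity
  set K := |(k:ℝ)| with hK
  have hK0 : 0 ≤ K := abs_nonneg _
  have e : min |((m + k : ℤ) : ℝ)| (l:ℝ) + min |((m - k : ℤ) : ℝ)| (l:ℝ) =
      min |(m:ℝ) + K| l + min |(m:ℝ) - K| l := by
    push_cast
    rcases abs_pair m k with ⟨h1, h2⟩ | ⟨h1, h2⟩
    · rw [h1, h2]
    · rw [h1, h2, add_comm]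
  rw [e, abs_of_pos hmr]
  by_cases h : m < |k|
  · rw [if_pos h, if_neg (by omega), sub_zero]
    have hmK : (m:ℝ) ≤ K := by rw [hK]; exact_mod_cast h.le
    rw [abs_of_nonneg (by linarith), abs_sub_comm, abs_of_nonneg (by linarith : (0:ℝ) ≤ K - m)]
    have h1 := min_le_left ((m:ℝ) + K) l
    have h2 := min_le_left (K - (m:ℝ)) l
    have h3 : 0 ≤ min (m:ℝ) l := le_min hmr.le hl
    linarith
  · rw [if_neg h]
    have hmK : K ≤ (m:ℝ) := by rw [hK]; exact_mod_cast not_lt.mp h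
    split_ifs with h2
    · have hml : (m:ℝ) = l := by exact_mod_cast h2.1
      rw [abs_of_nonneg (by linarith), abs_of_nonneg (by linarith), hml,
        min_eq_right (by linarith), min_eq_left (by linarith), min_self]
      linarith
    · have := min_ineq1 hK0 hl hmK
      rw [abs_of_pos hmr] at this
      linarith

lemma H_lin_ps_le (l : ℕ) (D : Conf) (k : ℤ) :
    H (lin (ps l) k) D ≤ 2 * |(k:ℝ)| ^ 3 * N D 1 -
      (if |k| ≤ l ∧ 0 < l then |(k:ℝ)| * N D l else 0) := by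
  have hK : (|k| : ℤ) = (k.natAbs : ℤ) := Int.abs_eq_natAbs k
  obtain ⟨s1, t1⟩ := tsum_pos_range (fun m => 2 * |(k:ℝ)| * N D m) k.natAbs
  have s2 : Summable fun m : ℤ => (if m = (l:ℤ) then
      (if |k| ≤ l ∧ 0 < l then |(k:ℝ)| * N D l else 0) else 0) := (hasSum_ite_eq (l:ℤ) _).summable
  have hk0 := abs_nonneg (k:ℝ)
  calc H (lin (ps l) k) D
      ≤ ∑' m : ℤ, (pos1 m * (if m < (k.natAbs:ℤ) then 2 * |(k:ℝ)| * N D m else 0) -
          (if m = (l:ℤ) then (if |k| ≤ l ∧ 0 < l then |(k:ℝ)| * N D l else 0) else 0)) := by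
        apply Summable.tsum_le_tsum _ (H_summable (lin_zero _ k) D) (s1.sub s2)
        intro m
        have := mul_le_mul_of_nonneg_right (lin_ps_le l k m) (N_nonneg D m)
        rw [hK] at this
        refine this.trans (le_of_eq ?_)
        rw [sub_mul]
        congr 1
        · split_ifs <;> ring
        · by_cases h : m = l
          · subst h
            rw [if_pos rfl]
            by_cases h2 : |k| ≤ (l:ℤ) ∧ 0 < l
            · rw [if_pos h2, if_pos ⟨rfl, by rw [← hK]; exact h2.1, by exact_mod_cast h2.2⟩]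
            · rw [if_neg h2, if_neg, zero_mul]
              rintro ⟨_, h3, h4⟩
              exact h2 ⟨by rw [hK]; exact h3, by exact_mod_cast h4⟩
          · rw [if_neg h, if_neg (by tauto), zero_mul]
    _ = ∑ i ∈ Finset.range k.natAbs, pos1 i * (2 * |(k:ℝ)| * N D i) -
          (if |k| ≤ l ∧ 0 < l then |(k:ℝ)| * N D l else 0) := by
        rw [Summable.tsum_sub s1 s2, t1, tsum_ite_eq]
    _ ≤ ∑ i ∈ Finset.range k.natAbs, 2 * |(k:ℝ)| * (|(k:ℝ)| * N D 1) -
          (if |k| ≤ l ∧ 0 < l then |(k:ℝ)| * N D l else 0) := by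
        apply sub_le_sub_right
        apply Finset.sum_le_sum
        intro i hi
        rw [Finset.mem_range] at hi
        have h1 : N D i ≤ |(k:ℝ)| * N D 1 := by
          refine (N_le_mul D i).trans ?_
          apply mul_le_mul_of_nonneg_right _ (N_nonneg D 1)
          rw [← Int.cast_abs, ← Nat.cast_natAbs]
          exact_mod_cast hi.le
        have h2 := pos1_le (i:ℤ)
        have h3 := pos1_nonneg (i:ℤ)
        have h4 := N_nonneg D (i:ℤ)
        calc pos1 i * (2 * |(k:ℝ)| * N D i) ≤ 1 * (2 * |(k:ℝ)| * N D i) := by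
              apply mul_le_mul_of_nonneg_right h2; positivity
          _ ≤ _ := by rw [one_mul]; apply mul_le_mul_of_nonneg_left h1; positivity
    _ = _ := by
        rw [Finset.sum_const, Finset.card_range, nsmul_eq_mul, Nat.cast_natAbs, Int.cast_abs]; ring

lemma cst_ps_le (l : ℕ) (k : ℤ) : cst (ps l) k ≤ |(k:ℝ)| ^ 3 := by
  rw [cst_abs, cst_nat (ps_zero l)]
  calc ∑ i ∈ Finset.range k.natAbs, (i:ℝ) * ps l ((k.natAbs:ℤ) - i)
      ≤ ∑ i ∈ Finset.range k.natAbs, |(k:ℝ)| * |(k:ℝ)| := by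
        apply Finset.sum_le_sum
        intro i hi
        rw [Finset.mem_range] at hi
        have h1 : (i:ℝ) ≤ |(k:ℝ)| := by
          rw [← Int.cast_abs, ← Nat.cast_natAbs]; exact_mod_cast hi.le
        have h2 : ps l ((k.natAbs:ℤ) - i) ≤ |(k:ℝ)| := by
          unfold ps
          rw [if_pos (by omega)]
          refine (min_le_left _ _).trans ?_
          rw [← Int.cast_abs, Int.abs_eq_natAbs]
          push_cast
          have : (0:ℝ) ≤ i := by positivity
          linarith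
        exact mul_le_mul h1 h2 (ps_nonneg _ _) (abs_nonneg _)
    _ = |(k:ℝ)| ^ 3 := by
        rw [Finset.sum_const, Finset.card_range, nsmul_eq_mul, Nat.cast_natAbs, Int.cast_abs]; ring

lemma m3_nonneg (ha : Jump a) : 0 ≤ m3 a :=
  tsum_nonneg fun k => mul_nonneg (by positivity) (ha.nonneg k)

/-- the drift of the functional with the weight `min(m, l)` -/
lemma ps_drift (ha : Jump a) (h3 : Thd a) : ∃ c C : ℝ, 0 < c ∧ 0 ≤ C ∧ ∀ (l : ℕ) (D : Conf), 0 < l →
    (Summable fun j => vrate a D j * wt (ps l) D j) ∧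
    c * N D l + ∑' j, vrate a D j * wt (ps l) D j ≤ C * tot a D := by
  obtain ⟨C1, hC1, hC1'⟩ := N_le_tot ha 1
  obtain ⟨k0, hk0, hk0'⟩ := ha.exists_pos
  have hm := m1_pos ha
  have hm3 := m3_nonneg ha
  have hk0a : (0:ℝ) < |(k0:ℝ)| := abs_pos.mpr (by exact_mod_cast hk0)
  refine ⟨a k0 * |(k0:ℝ)|, m3 a * (2 * C1 + 1 / m1 a) + a k0 * |(k0:ℝ)| * (|(k0:ℝ)| * C1),
    by positivity, by positivity, fun l D hl => ?_⟩
  have hb : ∀ j : ℤ, |wt (ps l) D j| ≤ ((l:ℝ) * (1 + (bd D : ℝ)) ^ (0 + 1)) * (1 + |(j:ℝ)|) ^ 1 := by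
    intro j
    have := wt_bound (ps_zero l) (K := l) (q := 0) (by positivity) (by
      intro m; rw [abs_of_nonneg (ps_nonneg l m)]; simpa using ps_le l m) D j
    simpa using this
  have h := drift_eq ha.nonneg ha.summable D 1 ha.pow1 hb
  refine ⟨h.1, ?_⟩
  rw [h.2.2.2]
  have hN := N_nonneg D 1
  have hNl := N_nonneg D l
  have sI : Summable fun k : ℤ => (if k = k0 then (if |k0| ≤ l then a k0 * (|(k0:ℝ)| * N D l) else 0) else 0) :=
    (hasSum_ite_eq k0 _).summable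
  have key : ∑' k, a k * ∑' j, (ind D (j - k) - ind D j) * wt (ps l) D j ≤
      (2 * N D 1 + 1) * m3 a - (if |k0| ≤ l then a k0 * (|(k0:ℝ)| * N D l) else 0) := by
    calc ∑' k, a k * ∑' j, (ind D (j - k) - ind D j) * wt (ps l) D j
        ≤ ∑' k : ℤ, ((2 * N D 1 + 1) * (|(k:ℝ)| ^ 3 * a k) -
          (if k = k0 then (if |k0| ≤ l then a k0 * (|(k0:ℝ)| * N D l) else 0) else 0)) := by
          apply Summable.tsum_le_tsum _ h.2.2.1 ((h3.mul_left _).sub sI)
          intro k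
          rw [Gk_eq (ps_zero l), Gk_formula (ps_zero l)]
          have h1 := H_lin_ps_le l D k
          have h2 := cst_ps_le l k
          have h4 := ha.nonneg k
          calc a k * (H (lin (ps l) k) D + cst (ps l) k)
              ≤ a k * ((2 * |(k:ℝ)| ^ 3 * N D 1 -
                (if |k| ≤ l ∧ 0 < l then |(k:ℝ)| * N D l else 0)) + |(k:ℝ)| ^ 3) :=
                mul_le_mul_of_nonneg_left (add_le_add h1 h2) h4
            _ = (2 * N D 1 + 1) * (|(k:ℝ)| ^ 3 * a k) -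
                a k * (if |k| ≤ l ∧ 0 < l then |(k:ℝ)| * N D l else 0) := by ring
            _ ≤ _ := by
                apply sub_le_sub_left
                by_cases hk : k = k0
                · subst hk
                  rw [if_pos rfl]
                  by_cases h5 : |k| ≤ (l:ℤ)
                  · rw [if_pos h5, if_pos ⟨h5, hl⟩]
                  · rw [if_neg h5, if_neg (by tauto)]; simp
                · rw [if_neg hk]
                  have : 0 ≤ (if |k| ≤ (l:ℤ) ∧ 0 < l then |(k:ℝ)| * N D l else 0) := by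
                    split_ifs <;> positivity
                  positivity
      _ = _ := by rw [Summable.tsum_sub (h3.mul_left _) sI, tsum_mul_left, tsum_ite_eq]; rfl
  have h4 := hC1' D
  have ht := tot_pos ha D
  have h5 : 1 ≤ 1 / m1 a * tot a D := by
    rw [one_div, inv_mul_eq_div, le_div_iff₀ hm, one_mul]; exact m1_le_tot ha D
  have h6 : (2 * N D 1 + 1) * m3 a ≤ m3 a * (2 * C1 + 1 / m1 a) * tot a D := by
    have : 2 * N D 1 + 1 ≤ (2 * C1 + 1 / m1 a) * tot a D := by linarith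
    calc (2 * N D 1 + 1) * m3 a ≤ ((2 * C1 + 1 / m1 a) * tot a D) * m3 a :=
          mul_le_mul_of_nonneg_right this hm3
      _ = _ := by ring
  have h7 : a k0 * |(k0:ℝ)| * N D l - (if |k0| ≤ l then a k0 * (|(k0:ℝ)| * N D l) else 0) ≤
      a k0 * |(k0:ℝ)| * (|(k0:ℝ)| * C1) * tot a D := by
    split_ifs with h8
    · have : 0 ≤ a k0 * |(k0:ℝ)| * (|(k0:ℝ)| * C1) * tot a D := by positivity
      linarith
    · have h9 : N D l ≤ |(k0:ℝ)| * (C1 * tot a D) := by
        refine (N_le_mul D l).trans ?_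
        apply mul_le_mul _ h4 hN hk0a.le
        have : (l:ℤ) ≤ |k0| := by omega
        exact_mod_cast this
      calc a k0 * |(k0:ℝ)| * N D l - 0 = a k0 * |(k0:ℝ)| * N D l := sub_zero _
        _ ≤ a k0 * |(k0:ℝ)| * (|(k0:ℝ)| * (C1 * tot a D)) := by
            apply mul_le_mul_of_nonneg_left h9; positivity
        _ = _ := by ring
  nlinarith

/-! ### squares -/

/-- the weight `min(m, h) ^ 2` on the positive integers -/
noncomputable def sqw (h : ℕ) (m : ℤ) : ℝ := if 0 < m then min (m:ℝ) h ^ 2 else 0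

lemma sqw_zero (h : ℕ) : ∀ m ≤ 0, sqw h m = 0 := by
  intro m hm; unfold sqw; rw [if_neg (by omega)]

lemma sqw_nonneg (h : ℕ) (m : ℤ) : 0 ≤ sqw h m := by
  unfold sqw; split_ifs <;> positivity

lemma sqw_le (h : ℕ) (m : ℤ) : sqw h m ≤ (h:ℝ) ^ 2 := by
  unfold sqw
  split_ifs with h1
  · have : (0:ℝ) < m := by exact_mod_cast h1
    exact pow_le_pow_left₀ (by positivity) (min_le_right _ _) 2
  · positivity

lemma evn_sqw (h : ℕ) (m : ℤ) : evn (sqw h) m = min |(m:ℝ)| h ^ 2 := by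
  unfold evn sqw
  rcases lt_trichotomy m 0 with h1 | h1 | h1
  · rw [if_neg (by omega), if_pos (by omega), abs_of_neg (by exact_mod_cast h1)]; push_cast; ring
  · subst h1; simp
  · rw [if_pos h1, if_neg (by omega), abs_of_pos (by exact_mod_cast h1)]; ring

lemma lin_sqw_le (h : ℕ) (k m : ℤ) : lin (sqw h) k m ≤ 2 * (k:ℝ) ^ 2 * pos1 m := by
  unfold lin
  rw [mul_comm (2 * (k:ℝ) ^ 2)]
  apply mul_le_mul_of_nonneg_left _ (pos1_nonneg m)
  rw [evn_sqw, evn_sqw, evn_sqw]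
  have hh : (0:ℝ) ≤ h := by positivity
  have b1 : ∀ u : ℝ, min |u| (h:ℝ) ^ 2 ≤ u ^ 2 := by
    intro u
    calc min |u| (h:ℝ) ^ 2 ≤ |u| ^ 2 := pow_le_pow_left₀ (by positivity) (min_le_left _ _) 2
      _ = u ^ 2 := sq_abs u
  have b2 : ∀ u : ℝ, min |u| (h:ℝ) ^ 2 ≤ (h:ℝ) ^ 2 :=
    fun u => pow_le_pow_left₀ (by positivity) (min_le_right _ _) 2
  by_cases hm : |(m:ℝ)| ≤ h
  · rw [min_eq_left hm, sq_abs]
    have h1 := b1 ((m + k : ℤ) : ℝ)
    have h2 := b1 ((m - k : ℤ) : ℝ)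
    push_cast at h1 h2 ⊢
    nlinarith
  · rw [min_eq_right (not_le.mp hm).le]
    have h1 := b2 ((m + k : ℤ) : ℝ)
    have h2 := b2 ((m - k : ℤ) : ℝ)
    have := sq_nonneg (k:ℝ)
    linarith

lemma H_lin_sqw_le (h : ℕ) (D : Conf) (k : ℤ) : H (lin (sqw h) k) D ≤ 2 * (k:ℝ) ^ 2 * inv D := by
  unfold inv
  unfold H
  rw [← tsum_mul_left]
  apply Summable.tsum_le_tsum _ (H_summable (lin_zero _ k) D) ((H_summable pos1_zero D).mul_left _)
  intro m
  have := mul_le_mul_of_nonneg_right (lin_sqw_le h k m) (N_nonneg D m)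
  linarith

lemma cst_sqw_le {h : ℕ} (hh : 0 < h) (k : ℤ) :
    cst (sqw h) k ≤ h * (gL h k * |(k:ℝ)| ^ 3) := by
  have hhr : (0:ℝ) < h := by exact_mod_cast hh
  rw [cst_abs, cst_nat (sqw_zero h)]
  have e : (h:ℝ) * (gL h k * |(k:ℝ)| ^ 3) = |(k:ℝ)| * (|(k:ℝ)| * (|(k:ℝ)| * min |(k:ℝ)| h)) := by
    unfold gL; field_simp
  rw [e]
  calc ∑ i ∈ Finset.range k.natAbs, (i:ℝ) * sqw h ((k.natAbs:ℤ) - i)
      ≤ ∑ i ∈ Finset.range k.natAbs, |(k:ℝ)| * (|(k:ℝ)| * min |(k:ℝ)| h) := by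
        apply Finset.sum_le_sum
        intro i hi
        rw [Finset.mem_range] at hi
        have h1 : (i:ℝ) ≤ |(k:ℝ)| := by
          rw [← Int.cast_abs, ← Nat.cast_natAbs]; exact_mod_cast hi.le
        have h2 : sqw h ((k.natAbs:ℤ) - i) ≤ |(k:ℝ)| * min |(k:ℝ)| h := by
          unfold sqw
          rw [if_pos (by omega), sq]
          have h3 : ((((k.natAbs:ℕ):ℤ) - (i:ℤ) : ℤ) : ℝ) ≤ |(k:ℝ)| := by
            rw [← Int.cast_abs, Int.abs_eq_natAbs]
            push_cast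
            have : (0:ℝ) ≤ i := by positivity
            linarith
          have h4 : (0:ℝ) ≤ ((((k.natAbs:ℕ):ℤ) - (i:ℤ) : ℤ) : ℝ) := by
            have : (0:ℤ) ≤ ((k.natAbs:ℕ):ℤ) - (i:ℤ) := by omega
            exact_mod_cast this
          apply mul_le_mul ((min_le_left _ _).trans h3) (min_le_min_right _ h3) (by positivity)
            (abs_nonneg _)
        exact mul_le_mul h1 h2 (sqw_nonneg _ _) (abs_nonneg _)
    _ = _ := by
        rw [Finset.sum_const, Finset.card_range, nsmul_eq_mul, Nat.cast_natAbs, Int.cast_abs]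

/-- the truncated third moment -/
noncomputable def BL (a : ℤ → ℝ) (L : ℕ) : ℝ := ∑' k : ℤ, gL L k * (|(k:ℝ)| ^ 3 * a k)

lemma BL_summable (ha : Jump a) (h3 : Thd a) (L : ℕ) :
    Summable fun k : ℤ => gL L k * (|(k:ℝ)| ^ 3 * a k) := by
  have h0 : ∀ k : ℤ, 0 ≤ |(k:ℝ)| ^ 3 * a k := fun k => mul_nonneg (by positivity) (ha.nonneg k)
  apply Summable.of_nonneg_of_le (fun k => mul_nonneg (gL_nonneg L k) (h0 k)) _ h3
  intro k
  calc gL L k * (|(k:ℝ)| ^ 3 * a k) ≤ 1 * (|(k:ℝ)| ^ 3 * a k) :=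
        mul_le_mul_of_nonneg_right (gL_le_one L k) (h0 k)
    _ = _ := one_mul _

lemma BL_nonneg (ha : Jump a) (L : ℕ) : 0 ≤ BL a L :=
  tsum_nonneg fun k => mul_nonneg (gL_nonneg L k) (mul_nonneg (by positivity) (ha.nonneg k))

lemma BL_tendsto (ha : Jump a) (h3 : Thd a) : Tendsto (BL a) atTop (𝓝 0) := by
  have h0 : ∀ k : ℤ, 0 ≤ |(k:ℝ)| ^ 3 * a k := fun k => mul_nonneg (by positivity) (ha.nonneg k)
  have : (0:ℝ) = ∑' k : ℤ, (0:ℝ) := by simp
  rw [this]
  apply tendsto_tsum_of_dominated_convergence (bound := fun k : ℤ => |(k:ℝ)| ^ 3 * a k) h3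
  · intro k
    have h1 : Tendsto (fun L : ℕ => gL L k) atTop (𝓝 0) := by
      have h2 : Tendsto (fun L : ℕ => |(k:ℝ)| / (L:ℝ)) atTop (𝓝 0) :=
        tendsto_const_div_atTop_nhds_zero_nat _
      refine squeeze_zero (fun L => gL_nonneg L k) (fun L => ?_) h2
      unfold gL
      exact div_le_div_of_nonneg_right (min_le_left _ _) (by positivity)
    simpa using h1.mul_const (|(k:ℝ)| ^ 3 * a k)
  · refine Eventually.of_forall fun L k => ?_
    rw [Real.norm_eq_abs, abs_of_nonneg (mul_nonneg (gL_nonneg L k) (h0 k))]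
    calc gL L k * (|(k:ℝ)| ^ 3 * a k) ≤ 1 * (|(k:ℝ)| ^ 3 * a k) :=
          mul_le_mul_of_nonneg_right (gL_le_one L k) (h0 k)
      _ = _ := one_mul _

lemma sqw_drift (ha : Jump a) (h3 : Thd a) {h : ℕ} (hh : 0 < h) (D : Conf) :
    (Summable fun j => vrate a D j * wt (sqw h) D j) ∧
    ∑' j, vrate a D j * wt (sqw h) D j ≤ 2 * s2 a * inv D + h * BL a h := by
  have hb : ∀ j : ℤ, |wt (sqw h) D j| ≤
      ((h:ℝ) ^ 2 * (1 + (bd D : ℝ)) ^ (0 + 1)) * (1 + |(j:ℝ)|) ^ 1 := by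
    intro j
    have := wt_bound (sqw_zero h) (K := (h:ℝ) ^ 2) (q := 0) (by positivity) (by
      intro m; rw [abs_of_nonneg (sqw_nonneg h m)]; simpa using sqw_le h m) D j
    simpa using this
  have hd := drift_eq ha.nonneg ha.summable D 1 ha.pow1 hb
  refine ⟨hd.1, ?_⟩
  rw [hd.2.2.2]
  have s1 : Summable fun k : ℤ => 2 * inv D * ((k:ℝ) ^ 2 * a k) := ha.second.mul_left _
  have s4 : Summable fun k : ℤ => (h:ℝ) * (gL h k * (|(k:ℝ)| ^ 3 * a k)) :=
    (BL_summable ha h3 h).mul_left _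
  calc ∑' k, a k * ∑' j, (ind D (j - k) - ind D j) * wt (sqw h) D j
      ≤ ∑' k : ℤ, (2 * inv D * ((k:ℝ) ^ 2 * a k) + (h:ℝ) * (gL h k * (|(k:ℝ)| ^ 3 * a k))) := by
        apply Summable.tsum_le_tsum _ hd.2.2.1 (s1.add s4)
        intro k
        rw [Gk_eq (sqw_zero h), Gk_formula (sqw_zero h)]
        have h1 := H_lin_sqw_le h D k
        have h2 := cst_sqw_le hh k
        have h4 := ha.nonneg k
        calc a k * (H (lin (sqw h) k) D + cst (sqw h) k)
            ≤ a k * (2 * (k:ℝ) ^ 2 * inv D + h * (gL h k * |(k:ℝ)| ^ 3)) :=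
              mul_le_mul_of_nonneg_left (add_le_add h1 h2) h4
          _ = _ := by ring
    _ = _ := by
        rw [Summable.tsum_add s1 s4, tsum_mul_left, tsum_mul_left]
        unfold s2 BL
        ring

end Pool.Agent.K9h92.BV
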