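import Pool.Agent.K9h92.BV.Drift

set_option autoImplicit false

/-!
Total flip rate, the drift of the number of inversions.
-/

namespace Pool.Agent.K9h92.BV

/-- total unbiased flip rate -/
noncomputable def tot (a : ℤ → ℝ) (D : Conf) : ℝ := ∑' j, urate a D j

variable {a : ℤ → ℝ}

lemma Jump.first (ha : Jump a) : Summable fun k : ℤ => |(k:ℝ)| * a k := by
  apply Summable.of_nonneg_of_le (fun k => mul_nonneg (abs_nonneg _) (ha.nonneg k)) _
    (ha.summable.add ha.second)
  intro k
  have h := ha.nonneg k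
  have : |(k:ℝ)| ≤ 1 + (k:ℝ)^2 := by
    rw [← sq_abs]; nlinarith [abs_nonneg (k:ℝ), sq_nonneg (|(k:ℝ)| - 1)]
  nlinarith

lemma Jump.pow0 (ha : Jump a) : Summable fun k : ℤ => |(k:ℝ)| ^ (0 + 1) * a k := by
  simpa using ha.first

lemma Jump.pow1 (ha : Jump a) : Summable fun k : ℤ => |(k:ℝ)| ^ (1 + 1) * a k := by
  refine ha.second.congr ?_
  intro k; rw [show (1 + 1) = 2 by norm_num, sq_abs]

lemma Jump.signed (ha : Jump a) : Summable fun k : ℤ => (k:ℝ) * a k := by
  apply Summable.of_norm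
  refine ha.first.congr ?_
  intro k
  rw [norm_mul, Real.norm_eq_abs, Real.norm_eq_abs, abs_of_nonneg (ha.nonneg k)]

lemma abs_diff_sum (D : Conf) (k : ℤ) :
    (Summable fun j => |ind D (j - k) - ind D j|) ∧
    ∑' j, |ind D (j - k) - ind D j| = N D k + N D (-k) := by
  obtain ⟨s1, t1⟩ := shift_sum1 D k 0
  obtain ⟨s2, t2⟩ := shift_sum1 D 0 (-k)
  have e : ∀ j, |ind D (j - k) - ind D j| = ind D (j - k) * co D (j + 0) +
      ind D (j - 0) * co D (j + -k) := by
    intro j
    rw [add_zero, sub_zero, ← sub_eq_add_neg]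
    unfold co
    rcases ind_eq D j with h | h <;> rcases ind_eq D (j - k) with h' | h' <;> rw [h, h'] <;>
      norm_num
  refine ⟨(s1.add s2).congr fun j => (e j).symm, ?_⟩
  rw [tsum_congr e, Summable.tsum_add s1 s2, t1, t2]
  simp

lemma tot_eq (ha : Jump a) (D : Conf) :
    (Summable fun j => urate a D j) ∧ (Summable fun k => a k * (N D k + N D (-k))) ∧
    tot a D = ∑' k, a k * (N D k + N D (-k)) := by
  have hA := arrow_summable ha.nonneg ha.summable D 0 ha.pow0 (w := fun _ => 1) (C := 1)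
    (by intro j; simp)
  have hA1 : Summable (Function.uncurry fun k j : ℤ => a k * |ind D (j - k) - ind D j|) := by
    refine hA.congr ?_
    intro q; simp [Function.uncurry]
  have hA2 : Summable (Function.uncurry fun j k : ℤ => a k * |ind D (j - k) - ind D j|) :=
    (Equiv.prodComm ℤ ℤ).summable_iff.mpr hA1
  have ek : ∀ k, ∑' j, a k * |ind D (j - k) - ind D j| = a k * (N D k + N D (-k)) := by
    intro k; rw [tsum_mul_left, (abs_diff_sum D k).2]
  refine ⟨?_, ?_, ?_⟩
  · refine hA2.prod.congr ?_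
    intro j; rw [urate_eq]; rfl
  · refine hA1.prod.congr ?_
    intro k; rw [← ek]; rfl
  · unfold tot
    rw [tsum_congr (urate_eq a D)]
    rw [← tsum_congr ek]
    exact Summable.tsum_comm hA1

lemma N_add_N_neg (D : Conf) (k : ℤ) : N D k + N D (-k) = 2 * N D |k| + |(k:ℝ)| := by
  rcases le_total 0 k with h | h
  · rw [N_neg, abs_of_nonneg h, abs_of_nonneg (by exact_mod_cast h)]; ring
  · have : N D k = N D (-k) + (-k : ℤ) := by
      have := N_neg D (-k)
      rw [neg_neg] at this; exact this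
    rw [this, abs_of_nonpos h, abs_of_nonpos (by exact_mod_cast h)]; push_cast; ring

/-- first absolute moment -/
noncomputable def m1 (a : ℤ → ℝ) : ℝ := ∑' k : ℤ, |(k:ℝ)| * a k

/-- second moment -/
noncomputable def s2 (a : ℤ → ℝ) : ℝ := ∑' k : ℤ, (k:ℝ) ^ 2 * a k

lemma Jump.exists_pos (ha : Jump a) : ∃ k : ℤ, k ≠ 0 ∧ 0 < a k := by
  by_contra hc
  push Not at hc
  have h1 : AddSubmonoid.closure {k : ℤ | 0 < a k} ≤ ⊥ := by
    rw [AddSubmonoid.closure_le]
    intro k hk
    by_contra hne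
    have hk0 : k ≠ 0 := by
      intro h; apply hne; simp [h]
    have := hc k hk0
    simp only [Set.mem_ofPred_eq] at hk
    linarith
  rw [ha.irred] at h1
  have : (1:ℤ) ∈ (⊥ : AddSubmonoid ℤ) := h1 (AddSubmonoid.mem_top _)
  simp at this

lemma m1_pos (ha : Jump a) : 0 < m1 a := by
  obtain ⟨k, hk0, hk⟩ := ha.exists_pos
  apply ha.first.tsum_pos (fun k => mul_nonneg (abs_nonneg _) (ha.nonneg k)) k
  have : 0 < |(k:ℝ)| := abs_pos.mpr (by exact_mod_cast hk0)
  positivity

lemma s2_pos (ha : Jump a) : 0 < s2 a := by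
  obtain ⟨k, hk0, hk⟩ := ha.exists_pos
  apply ha.second.tsum_pos (fun k => mul_nonneg (sq_nonneg _) (ha.nonneg k)) k
  have : 0 < (k:ℝ)^2 := by
    have : (k:ℝ) ≠ 0 := by exact_mod_cast hk0
    positivity
  positivity

lemma m1_le_tot (ha : Jump a) (D : Conf) : m1 a ≤ tot a D := by
  obtain ⟨_, h2, h3⟩ := tot_eq ha D
  rw [h3]
  apply Summable.tsum_le_tsum _ ha.first h2
  intro k
  rw [N_add_N_neg]
  have := ha.nonneg k
  have := N_nonneg D |k|
  nlinarith

lemma tot_pos (ha : Jump a) (D : Conf) : 0 < tot a D := (m1_pos ha).trans_le (m1_le_tot ha D)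

lemma aN_le_tot (ha : Jump a) (D : Conf) (k : ℤ) : a k * N D k ≤ tot a D := by
  obtain ⟨_, h2, h3⟩ := tot_eq ha D
  rw [h3]
  have h4 := h2.le_tsum k (fun i _ => mul_nonneg (ha.nonneg i) (add_nonneg (N_nonneg D i) (N_nonneg D (-i))))
  have := mul_nonneg (ha.nonneg k) (N_nonneg D (-k))
  nlinarith

lemma N_le_tot (ha : Jump a) (m : ℤ) : ∃ C : ℝ, 0 ≤ C ∧ ∀ D, N D m ≤ C * tot a D := by
  have hm : m ∈ AddSubmonoid.closure {k : ℤ | 0 < a k} := by rw [ha.irred]; exact AddSubmonoid.mem_top _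
  induction hm using AddSubmonoid.closure_induction with
  | mem k hk =>
    simp only [Set.mem_ofPred_eq] at hk
    refine ⟨(a k)⁻¹, by positivity, fun D => ?_⟩
    have := aN_le_tot ha D k
    rw [inv_mul_eq_div, le_div_iff₀ hk]
    linarith
  | zero => exact ⟨0, le_rfl, fun D => by rw [N_zero]; simp⟩
  | add x y _ _ hx hy =>
    obtain ⟨C1, h1, h1'⟩ := hx
    obtain ⟨C2, h2, h2'⟩ := hy
    refine ⟨C1 + C2, by positivity, fun D => ?_⟩
    have := N_subadd D x y
    have := h1' D
    have := h2' D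
    nlinarith

lemma N_le_mul (D : Conf) (n : ℕ) : N D n ≤ n * N D 1 := by
  induction n with
  | zero => simp [N_zero]
  | succ n ih =>
    have := N_subadd D n 1
    push_cast
    linarith

/-- the first moment -/
noncomputable def cm (a : ℤ → ℝ) : ℝ := ∑' k : ℤ, (k:ℝ) * a k

/-- the difference of the total up rate and the total down rate -/
lemma balanced (ha : Jump a) (D : Conf) : (Summable fun j => vrate a D j) ∧
    ∑' j, vrate a D j = -cm a := by
  have h := drift_eq ha.nonneg ha.summable D 0 ha.pow0 (w := fun _ => 1) (C := 1)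
    (by intro j; simp)
  simp only [mul_one] at h
  refine ⟨h.1, ?_⟩
  rw [h.2.2.2]
  have : ∀ k, a k * ∑' j, (ind D (j - k) - ind D j) = -((k:ℝ) * a k) := by
    intro k; rw [tsum_ind_diff]; ring
  rw [tsum_congr this, tsum_neg]
  rfl

lemma up_rate (ha : Jump a) (D : Conf) :
    (Summable fun j => co D j * urate a D j) ∧
      ∑' j, co D j * urate a D j = (tot a D - cm a) / 2 := by
  obtain ⟨h1, h2⟩ := balanced ha D
  obtain ⟨h3, _, _⟩ := tot_eq ha D
  have e : ∀ j, co D j * urate a D j = (1/2) * (vrate a D j + urate a D j) := by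
    intro j; rw [vrate_eq]; unfold co; ring
  refine ⟨((h1.add h3).mul_left (1/2)).congr fun j => (e j).symm, ?_⟩
  rw [tsum_congr e, tsum_mul_left, Summable.tsum_add h1 h3, h2]
  unfold tot; ring

lemma down_rate (ha : Jump a) (D : Conf) :
    (Summable fun j => ind D j * urate a D j) ∧
      ∑' j, ind D j * urate a D j = (tot a D + cm a) / 2 := by
  obtain ⟨h1, h2⟩ := up_rate ha D
  obtain ⟨h3, _, _⟩ := tot_eq ha D
  have e : ∀ j, ind D j * urate a D j = urate a D j - co D j * urate a D j := by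
    intro j; unfold co; ring
  refine ⟨(h3.sub h1).congr fun j => (e j).symm, ?_⟩
  rw [tsum_congr e, Summable.tsum_sub h3 h1, h2]
  unfold tot; ring

lemma cm_abs_le (ha : Jump a) : |cm a| ≤ m1 a := by
  unfold cm m1
  have h : ∀ k : ℤ, ‖(k:ℝ) * a k‖ = |(k:ℝ)| * a k := by
    intro k
    rw [norm_mul, Real.norm_eq_abs, Real.norm_eq_abs, abs_of_nonneg (ha.nonneg k)]
  rw [← Real.norm_eq_abs, ← tsum_congr h]
  exact norm_tsum_le_tsum_norm (ha.first.congr fun k => (h k).symm)

/-- the fraction of the down rate in the total rate -/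
noncomputable def qd (a : ℤ → ℝ) (D : Conf) : ℝ := (tot a D + cm a) / 2 / tot a D

lemma qd_nonneg (ha : Jump a) (D : Conf) : 0 ≤ qd a D := by
  unfold qd
  have h1 := m1_le_tot ha D
  have h2 := neg_le_of_abs_le (cm_abs_le ha)
  have h3 := tot_pos ha D
  apply div_nonneg _ h3.le
  linarith

lemma qd_le_one (ha : Jump a) (D : Conf) : qd a D ≤ 1 := by
  unfold qd
  have h1 := m1_le_tot ha D
  have h2 := le_of_abs_le (cm_abs_le ha)
  have h3 := tot_pos ha D
  rw [div_le_one h3]
  linarith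

lemma qd_centred (ha : Jump a) (hc : cm a = 0) (D : Conf) : qd a D = 1 / 2 := by
  unfold qd
  have h3 := (tot_pos ha D).ne'
  rw [hc, add_zero]
  field_simp

/-- The total flip rate of the biased voter model with bias `ε`. -/
noncomputable def trate (a : ℤ → ℝ) (ε : ℝ) (D : Conf) : ℝ := ∑' j, rate a ε D j

lemma trate_eq (ha : Jump a) (ε : ℝ) (D : Conf) :
    (Summable fun j => rate a ε D j) ∧ trate a ε D = (1 - ε * qd a D) * tot a D := by
  obtain ⟨h1, _, _⟩ := tot_eq ha D
  obtain ⟨h2, h3⟩ := down_rate ha D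
  have e : ∀ j, rate a ε D j = urate a D j - ε * (ind D j * urate a D j) := by
    intro j; rw [rate_eq]; ring
  refine ⟨(h1.sub (h2.mul_left ε)).congr fun j => (e j).symm, ?_⟩
  unfold trate qd
  have ht := (tot_pos ha D).ne'
  rw [tsum_congr e, Summable.tsum_sub h1 (h2.mul_left ε), tsum_mul_left, h3]
  rw [show ∑' j, urate a D j = tot a D from rfl]
  field_simp

lemma one_sub_qd_pos (ha : Jump a) {ε : ℝ} (h0 : 0 ≤ ε) (h1 : ε < 1) (D : Conf) :
    0 < 1 - ε * qd a D := by
  have := qd_le_one ha D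
  have := qd_nonneg ha D
  nlinarith

lemma trate_pos (ha : Jump a) {ε : ℝ} (h0 : 0 ≤ ε) (h1 : ε < 1) (D : Conf) : 0 < trate a ε D := by
  rw [(trate_eq ha ε D).2]
  exact mul_pos (one_sub_qd_pos ha h0 h1 D) (tot_pos ha D)

lemma evn_pos1 (m : ℤ) : evn pos1 m = if m = 0 then 0 else 1 := by
  unfold evn pos1
  rcases lt_trichotomy m 0 with h | h | h
  · rw [if_neg (by omega), if_pos (by omega), if_neg (by omega)]; ring
  · subst h; simp
  · rw [if_pos h, if_neg (by omega), if_neg (by omega)]; ring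

lemma H_lin_pos1 (D : Conf) (k : ℤ) : H (lin pos1 k) D = -N D |k| := by
  unfold H
  by_cases hk : k = 0
  · subst hk
    have : ∀ m, lin pos1 0 m * N D m = 0 := by
      intro m; unfold lin; rw [add_zero, sub_zero]; ring
    rw [tsum_congr this, abs_zero, N_zero]; simp
  · have e : ∀ m, lin pos1 k m * N D m = if m = |k| then -N D |k| else 0 := by
      intro m
      unfold lin
      rw [evn_pos1, evn_pos1, evn_pos1]
      by_cases hm : 0 < m
      · have hp : pos1 m = 1 := by unfold pos1; rw [if_pos hm]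
        rw [hp, if_neg (by omega : ¬ m = 0)]
        rcases lt_or_gt_of_ne hk with h | h
        · rw [abs_of_neg h]
          by_cases h2 : m = -k
          · rw [if_pos (by omega), if_neg (by omega), if_pos h2, h2]; ring
          · rw [if_neg (by omega), if_neg (by omega), if_neg h2]; ring
        · rw [abs_of_pos h]
          by_cases h2 : m = k
          · rw [if_neg (by omega), if_pos (by omega), if_pos h2, h2]; ring
          · rw [if_neg (by omega), if_neg (by omega), if_neg h2]; ring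
      · have h0 : 0 < |k| := abs_pos.mpr hk
        have hne : ¬ m = |k| := by omega
        rw [pos1_zero m (by omega), if_neg hne]
        ring
    rw [tsum_congr e, tsum_ite_eq]

lemma cst_neg (ψ : ℤ → ℝ) (k : ℤ) : cst ψ (-k) = cst ψ k := by
  unfold cst
  apply tsum_congr
  intro m
  rw [neg_neg, add_comm (ψ (-k - m))]

lemma cst_nat {ψ : ℤ → ℝ} (hψ : ∀ m ≤ 0, ψ m = 0) (K : ℕ) :
    cst ψ K = ∑ i ∈ Finset.range K, (i:ℝ) * ψ ((K:ℤ) - i) := by
  unfold cst
  rw [tsum_eq_sum (s := (Finset.range K).map Nat.castEmbedding)]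
  · rw [Finset.sum_map]
    apply Finset.sum_congr rfl
    intro i hi
    simp only [Nat.castEmbedding_apply]
    rw [hψ (-(K:ℤ) - i) (by omega)]
    by_cases h : i = 0
    · subst h; simp
    · have : pos1 (i:ℤ) = 1 := by unfold pos1; rw [if_pos (by omega)]
      rw [this]; push_cast; ring
  · intro m hm
    by_cases h : 0 < m
    · have h2 : ¬ m < K := by
        intro hlt
        apply hm
        rw [Finset.mem_map]
        refine ⟨m.toNat, ?_, ?_⟩
        · rw [Finset.mem_range]; omega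
        · simp only [Nat.castEmbedding_apply]; omega
      rw [hψ (K - m) (by omega), hψ (-(K:ℤ) - m) (by omega)]; ring
    · rw [pos1_zero m (by omega)]; ring

lemma cst_abs (ψ : ℤ → ℝ) (k : ℤ) : cst ψ k = cst ψ (k.natAbs : ℤ) := by
  rcases Int.natAbs_eq k with h | h
  · rw [← h]
  · have : (k.natAbs : ℤ) = -k := by omega
    rw [this, cst_neg]

lemma cst_pos1 (k : ℤ) : cst pos1 k = ((k:ℝ)^2 - |(k:ℝ)|) / 2 := by
  rw [cst_abs, cst_nat pos1_zero]
  have e : ∀ i ∈ Finset.range k.natAbs, (i:ℝ) * pos1 ((k.natAbs:ℤ) - i) = (i:ℝ) := by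
    intro i hi
    rw [Finset.mem_range] at hi
    have : pos1 ((k.natAbs:ℤ) - i) = 1 := by unfold pos1; rw [if_pos (by omega)]
    rw [this, mul_one]
  rw [Finset.sum_congr rfl e]
  have hg : ∀ n : ℕ, ∑ i ∈ Finset.range n, (i:ℝ) = ((n:ℝ)^2 - n)/2 := by
    intro n
    induction n with
    | zero => simp
    | succ n ih => rw [Finset.sum_range_succ, ih]; push_cast; ring
  rw [hg]
  have h1 : ((k.natAbs : ℕ) : ℝ) = |(k:ℝ)| := by
    rw [Nat.cast_natAbs, Int.cast_abs]
  rw [h1, sq_abs]

/-- The drift of the number of inversions. -/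
lemma inv_drift (ha : Jump a) (D : Conf) :
    (Summable fun j => vrate a D j * wt pos1 D j) ∧
    (Summable fun j => urate a D j * |wt pos1 D j|) ∧
    ∑' j, vrate a D j * wt pos1 D j = (s2 a - tot a D) / 2 := by
  have hb : ∀ j : ℤ, |wt pos1 D j| ≤ (1 * (1 + (bd D : ℝ)) ^ (0 + 1)) * (1 + |(j:ℝ)|) ^ 1 := by
    intro j
    have := wt_bound pos1_zero (K := 1) (q := 0) zero_le_one (by
      intro m; rw [abs_of_nonneg (pos1_nonneg m)]; simpa using pos1_le m) D j
    simpa using this
  have h := drift_eq ha.nonneg ha.summable D 1 ha.pow1 hb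
  refine ⟨h.1, h.2.1, ?_⟩
  rw [h.2.2.2]
  obtain ⟨_, h2, h3⟩ := tot_eq ha D
  have e : ∀ k, a k * ∑' j, (ind D (j - k) - ind D j) * wt pos1 D j =
      (1/2) * ((k:ℝ)^2 * a k - a k * (N D k + N D (-k))) := by
    intro k
    rw [Gk_eq pos1_zero, Gk_formula pos1_zero, H_lin_pos1, cst_pos1, N_add_N_neg]
    ring
  rw [tsum_congr e, tsum_mul_left, Summable.tsum_sub ha.second h2, ← h3]
  unfold s2
  ring

end Pool.Agent.K9h92.BV
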