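import Pool.Agent.K9h92.BV.Path

set_option autoImplicit false

/-!
The centre of mass along the jump chain is a simple random walk; modulus of continuity.
-/

open ENNReal Filter Topology

namespace Pool.Agent.K9h92.BV

variable {a : ℤ → ℝ} {κ : ℝ}

/-- fourth moment of the centred walk started at `y` -/
noncomputable def P4 (κ : ℝ) : ℕ → ℝ → ℝ
  | 0 => fun y => y ^ 4
  | n + 1 => fun y => (1 + κ) / 2 * P4 κ n (y + (1 - κ)) + (1 - κ) / 2 * P4 κ n (y - (1 + κ))

lemma P4_nonneg (h0 : 0 ≤ κ) (h1 : κ < 1) (n : ℕ) (y : ℝ) : 0 ≤ P4 κ n y := by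
  induction n generalizing y with
  | zero => simp only [P4]; positivity
  | succ n ih =>
    simp only [P4]
    have := ih (y + (1 - κ))
    have := ih (y - (1 + κ))
    have : 0 ≤ (1 - κ) / 2 := by linarith
    positivity

lemma P4_eq (n : ℕ) (y : ℝ) : P4 κ n y = y ^ 4 + 6 * n * (1 - κ ^ 2) * y ^ 2
    - 8 * n * κ * (1 - κ ^ 2) * y + (3 * n * (n - 1) * (1 - κ ^ 2) ^ 2 +
      n * ((1 - κ ^ 2) * (1 + 3 * κ ^ 2))) := by
  induction n generalizing y with
  | zero => simp [P4]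
  | succ n ih =>
    simp only [P4]
    rw [ih, ih]
    push_cast
    ring

lemma P4_zero_le (h0 : 0 ≤ κ) (h1 : κ < 1) (n : ℕ) : P4 κ n 0 ≤ 7 * n ^ 2 := by
  rw [P4_eq]
  have hv : 0 ≤ 1 - κ ^ 2 := by nlinarith
  have hv1 : 1 - κ ^ 2 ≤ 1 := by nlinarith [sq_nonneg κ]
  have hv2 : (1 - κ ^ 2) ^ 2 ≤ 1 := by nlinarith
  have he : (1 - κ ^ 2) * (1 + 3 * κ ^ 2) ≤ 4 := by nlinarith [sq_nonneg κ, sq_nonneg (κ^2)]
  rcases Nat.eq_zero_or_pos n with h | h
  · subst h; simp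
  · have hn : (1:ℝ) ≤ n := by exact_mod_cast h
    have h2 : 3 * (n:ℝ) * (n - 1) * (1 - κ ^ 2) ^ 2 ≤ 3 * n * (n - 1) * 1 := by
      apply mul_le_mul_of_nonneg_left hv2
      have : 0 ≤ (n:ℝ) - 1 := by linarith
      positivity
    have h3 : (n:ℝ) * ((1 - κ ^ 2) * (1 + 3 * κ ^ 2)) ≤ n * 4 :=
      mul_le_mul_of_nonneg_left he (by positivity)
    nlinarith

lemma P4_one_ge (h0 : 0 ≤ κ) (h1 : κ < 1) (y : ℝ) : y ^ 4 ≤ P4 κ 1 y := by
  rw [P4_eq]
  have hv : 0 ≤ 1 - κ ^ 2 := by nlinarith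
  have : 0 ≤ 6 * y ^ 2 - 8 * κ * y + (1 + 3 * κ ^ 2) := by
    nlinarith [sq_nonneg (3 * y - 2 * κ), sq_nonneg κ]
  have := mul_nonneg hv this
  push_cast
  nlinarith

lemma Ex_P4 (ha : Jump a) (hc : cm a = 0) {ε : ℝ} (h0 : 0 ≤ ε) (h1 : ε < 1) (k n : ℕ)
    (y : Pth → ℝ)
    (hy : ∀ w w' : Pth, (∀ i ≤ k, w i = w' i) → y w = y w') (w : Pth) :
    Ex a ε k n (fun w => ENNReal.ofReal ((y w + (M (w (k + n)) : ℝ) - kap ε * n) ^ 4)) w =
      ENNReal.ofReal (P4 (kap ε) n (y w + M (w k))) := by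
  have hκ0 := kap_nonneg h0 h1
  have hκ1 := kap_lt h0 h1
  induction n generalizing k y w with
  | zero => simp [Ex_zero, P4]
  | succ n ih =>
    rw [Ex_succ]
    have e : Ex a ε (k + 1) n (fun w => ENNReal.ofReal ((y w + (M (w (k + (n + 1))) : ℝ) -
        kap ε * ((n + 1 : ℕ) : ℝ)) ^ 4)) =
        fun w => ENNReal.ofReal (P4 (kap ε) n (y w - kap ε + M (w (k + 1)))) := by
      funext w
      rw [← ih (k + 1) (fun w => y w - kap ε) (fun w w' h => by
        try simp only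
        rw [hy w w' (fun i hi => h i (by omega))]) w]
      congr 1
      funext w
      rw [show k + (n + 1) = k + 1 + n by ring]
      congr 2
      push_cast
      ring
    rw [e]
    have e2 : Av a ε k (fun w => ENNReal.ofReal (P4 (kap ε) n (y w - kap ε + M (w (k + 1))))) w =
        ∑' j, pk a ε (w k) j * (if on (w k) j then
          ENNReal.ofReal (P4 (kap ε) n (y w + M (w k) - (1 + kap ε))) else
          ENNReal.ofReal (P4 (kap ε) n (y w + M (w k) + (1 - kap ε)))) := by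
      unfold Av
      apply tsum_congr
      intro j
      beta_reduce
      congr 1
      rw [hy _ w (fun i hi => Function.update_of_ne (by omega) _ _), Function.update_self, M_flipAt]
      by_cases h : on (w k) j
      · have h1 : ind (w k) j = 1 := by unfold ind; rw [if_pos h]
        rw [if_pos h, h1]; congr 2; ring
      · have h1 : ind (w k) j = 0 := by unfold ind; rw [if_neg h]
        rw [if_neg h, h1]; congr 2; ring
    rw [e2, sum_sgn_c ha hc h0 h1, ← ENNReal.ofReal_mul (by linarith), ← ENNReal.ofReal_mul (by linarith),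
      ← ENNReal.ofReal_add (mul_nonneg (by linarith) (P4_nonneg hκ0 hκ1 _ _))
        (mul_nonneg (by linarith) (P4_nonneg hκ0 hκ1 _ _))]
    rfl

lemma pow4_le_iff {l y : ℝ} (hl : 0 < l) : l ^ 4 ≤ y ^ 4 ↔ l ≤ |y| := by
  have e : y ^ 4 = |y| ^ 4 := by rw [← abs_pow, abs_of_nonneg (by positivity)]
  rw [e]; exact pow_le_pow_iff_left₀ hl.le (abs_nonneg _) (by norm_num)

lemma block_bound (ha : Jump a) (hc : cm a = 0) {ε : ℝ} (h0 : 0 ≤ ε) (h1 : ε < 1) (k l : ℕ)
    {lam : ℝ} (hl : 0 < lam) (w : Pth) :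
    Ex a ε k l (one fun w => ∃ m, k ≤ m ∧ m ≤ k + l ∧
      lam ≤ |(M (w m) : ℝ) - M (w k) - kap ε * ((m:ℝ) - k)|) w ≤ ENNReal.ofReal (7 * l ^ 2 / lam ^ 4) := by
  have hκ0 := kap_nonneg h0 h1
  have hκ1 := kap_lt h0 h1
  set Y : ℕ → Pth → ℝ≥0∞ := fun m w =>
    ENNReal.ofReal (((M (w m) : ℝ) - M (w k) - kap ε * ((m:ℝ) - k)) ^ 4) with hY
  have hdep : ∀ m, k ≤ m → Dep m (Y m) := by
    intro m hm w w' h
    simp only [hY]
    rw [h m le_rfl, h k hm]
  have hsub : ∀ m, k ≤ m → ∀ w, Y m w ≤ Av a ε m (Y (m + 1)) w := by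
    intro m hm w
    have h := Ex_P4 ha hc h0 h1 m 1 (fun w => -(M (w k) : ℝ) - kap ε * ((m:ℝ) - k))
      (fun w w' h => by rw [h k hm]) w
    rw [show (1:ℕ) = 0 + 1 by rfl, Ex_succ, Ex_zero] at h
    have e : (fun w : Pth => ENNReal.ofReal ((-(M (w k) : ℝ) - kap ε * ((m:ℝ) - k) +
        (M (w (m + (0 + 1))) : ℝ) - kap ε * ((0 + 1 : ℕ) : ℝ)) ^ 4)) = Y (m + 1) := by
      funext w
      simp only [hY]
      congr 2
      push_cast
      ring
    rw [e] at h
    rw [h]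
    simp only [hY]
    apply ENNReal.ofReal_le_ofReal
    have := P4_one_ge hκ0 hκ1 (-(M (w k) : ℝ) - kap ε * ((m:ℝ) - k) + M (w m))
    refine le_trans (le_of_eq ?_) this
    ring
  have hd := doob' ha h0 h1 hdep hsub (ENNReal.ofReal (lam ^ 4)) k l le_rfl w
  have e1 : (one fun w => ∃ m, k ≤ m ∧ m ≤ k + l ∧ ENNReal.ofReal (lam ^ 4) ≤ Y m w) =
      (one fun w => ∃ m, k ≤ m ∧ m ≤ k + l ∧
      lam ≤ |(M (w m) : ℝ) - M (w k) - kap ε * ((m:ℝ) - k)|) := by
    unfold one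
    funext w
    congr 1
    beta_reduce
    rw [eq_iff_iff]
    apply exists_congr
    intro m
    apply and_congr_right; intro _
    apply and_congr_right; intro _
    simp only [hY]
    rw [ENNReal.ofReal_le_ofReal_iff (by positivity)]
    exact pow4_le_iff hl
  rw [e1] at hd
  have hE : Ex a ε k l (Y (k + l)) w ≤ ENNReal.ofReal (7 * l ^ 2) := by
    have h := Ex_P4 ha hc h0 h1 k l (fun w => -(M (w k) : ℝ))
      (fun w w' h => by rw [h k le_rfl]) w
    have e : (fun w : Pth => ENNReal.ofReal ((-(M (w k) : ℝ) + (M (w (k + l)) : ℝ) - kap ε * (l : ℝ)) ^ 4))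
        = Y (k + l) := by
      funext w
      simp only [hY]
      congr 2
      push_cast
      ring
    rw [e] at h
    rw [h]
    apply ENNReal.ofReal_le_ofReal
    rw [neg_add_cancel]
    exact P4_zero_le hκ0 hκ1 l
  have h2 : ENNReal.ofReal (lam ^ 4) ≠ 0 := by
    rw [Ne, ENNReal.ofReal_eq_zero, not_le]; positivity
  have h3 := hd.trans hE
  rw [mul_comm, ← ENNReal.le_div_iff_mul_le (Or.inl h2) (Or.inl ENNReal.ofReal_ne_top),
    ← ENNReal.ofReal_div_of_pos (by positivity)] at h3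
  exact h3

/-- the oscillation event -/
def Osc (δ η : ℝ) (n : ℕ) (w : Pth) : Prop :=
  ∃ m m' : ℕ, m ≤ n ∧ m' ≤ n ∧ |(m:ℝ) - m'| ≤ δ * n ∧
    η * Real.sqrt n ≤ |(M (w m) : ℝ) - M (w m')|

lemma Osc_dep (δ η : ℝ) (n : ℕ) (w w' : Pth) (h : ∀ i ≤ n, w i = w' i) (hw : Osc δ η n w) :
    Osc δ η n w' := by
  obtain ⟨m, m', h1, h2, h3, h4⟩ := hw
  refine ⟨m, m', h1, h2, h3, ?_⟩
  rw [← h m h1, ← h m' h2]; exact h4

/-- deterministic part of the block argument -/
lemma osc_blocks {δ η κ : ℝ} {n l : ℕ} (hl : 0 < l) (hδ : δ * n < l) (hκ : 0 ≤ κ)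
    (hs : κ * l ≤ η * Real.sqrt n / 6) {w : Pth} (hw : Osc δ η n w) :
    ∃ i ∈ Finset.range (n / l + 1), ∃ m, i * l ≤ m ∧ m ≤ i * l + l ∧
      η * Real.sqrt n / 6 ≤ |(M (w m) : ℝ) - M (w (i * l)) - κ * ((m:ℝ) - ((i * l : ℕ) : ℝ))| := by
  by_contra hc
  push Not at hc
  have key : ∀ i m, i ≤ n / l → i * l ≤ m → m ≤ i * l + l →
      |(M (w m) : ℝ) - M (w (i * l))| < η * Real.sqrt n / 3 := by
    intro i m hi h1 h2
    have h3 := hc i (Finset.mem_range.mpr (by omega)) m h1 h2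
    have h4 : |κ * ((m:ℝ) - ((i * l : ℕ) : ℝ))| ≤ κ * l := by
      rw [abs_mul, abs_of_nonneg hκ]
      apply mul_le_mul_of_nonneg_left _ hκ
      have h5 : ((i * l : ℕ) : ℝ) ≤ m := by exact_mod_cast h1
      have h6 : (m:ℝ) ≤ ((i * l : ℕ) : ℝ) + l := by exact_mod_cast h2
      rw [abs_of_nonneg (by linarith)]
      linarith
    have h5 : |(M (w m) : ℝ) - M (w (i * l))| ≤
        |(M (w m) : ℝ) - M (w (i * l)) - κ * ((m:ℝ) - ((i * l : ℕ) : ℝ))| +
        |κ * ((m:ℝ) - ((i * l : ℕ) : ℝ))| := by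
      have := abs_add_le ((M (w m) : ℝ) - M (w (i * l)) - κ * ((m:ℝ) - ((i * l : ℕ) : ℝ)))
        (κ * ((m:ℝ) - ((i * l : ℕ) : ℝ)))
      rwa [sub_add_cancel] at this
    linarith
  -- reduce to ordered pairs
  have main : ∀ m m' : ℕ, m ≤ m' → m' ≤ n → |(m:ℝ) - m'| ≤ δ * n →
      |(M (w m) : ℝ) - M (w m')| < η * Real.sqrt n := by
    intro m m' hmm hm' hd
    have hlt : m' < m + l := by
      have : (m':ℝ) - m < l := by
        have h1 := neg_le_abs ((m:ℝ) - m')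
        linarith
      have : (m':ℝ) < m + l := by linarith
      exact_mod_cast this
    have h1 : m / l * l ≤ m := Nat.div_mul_le_self m l
    have h2 : m < m / l * l + l := by
      have h3 := Nat.div_add_mod m l
      have h4 := Nat.mod_lt m hl
      rw [mul_comm]; omega
    have hi : m / l ≤ n / l := Nat.div_le_div_right (by omega)
    have k1 := key (m / l) m hi h1 h2.le
    by_cases hcase : m' ≤ m / l * l + l
    · have k2 := key (m / l) m' hi (by omega) hcase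
      have : |(M (w m) : ℝ) - M (w m')| ≤ |(M (w m) : ℝ) - M (w (m / l * l))| +
          |(M (w m') : ℝ) - M (w (m / l * l))| := by
        rw [abs_sub_comm (M (w m') : ℝ)]
        exact abs_sub_le _ _ _
      have hpos : 0 < η * Real.sqrt n / 3 := lt_of_le_of_lt (abs_nonneg _) k1
      linarith
    · push Not at hcase
      have hj : (m / l + 1) * l ≤ m' := by rw [add_mul, one_mul]; exact hcase.le
      have hi2 : m / l + 1 ≤ n / l := by
        rw [Nat.le_div_iff_mul_le hl]; omega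
      have k2 := key (m / l) ((m / l + 1) * l) hi (by rw [add_mul, one_mul]; omega)
        (by rw [add_mul, one_mul])
      have k3 := key (m / l + 1) m' hi2 hj (by rw [add_mul, one_mul]; omega)
      have t1 := abs_sub_le (M (w m) : ℝ) (M (w (m / l * l))) (M (w m'))
      have t2 := abs_sub_le (M (w (m / l * l)) : ℝ) (M (w ((m / l + 1) * l))) (M (w m'))
      rw [abs_sub_comm (M (w (m / l * l)) : ℝ) (M (w ((m / l + 1) * l)))] at t2
      rw [abs_sub_comm (M (w ((m / l + 1) * l)) : ℝ) (M (w m'))] at t2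
      linarith
  obtain ⟨m, m', h1, h2, h3, h4⟩ := hw
  rcases le_total m m' with h | h
  · have := main m m' h h2 h3
    linarith
  · rw [abs_sub_comm] at h3 h4
    have := main m' m h h1 h3
    linarith

lemma walk_modulus (ha : Jump a) (hc : cm a = 0) {η ρ B : ℝ} (hη : 0 < η) (hρ : 0 < ρ) :
    ∃ δ : ℝ, 0 < δ ∧ ∃ n0 : ℕ, ∀ n ≥ n0, ∀ ε : ℝ, 0 ≤ ε → ε < 1 → ε ^ 2 * n ≤ B →
      Ex a ε 0 n (one (Osc δ η n)) w0 ≤ ENNReal.ofReal ρ := by
  -- the choice of the window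
  obtain ⟨δ, hδ0, hδ1, hδ2, hδ3⟩ : ∃ δ : ℝ, 0 < δ ∧ δ ≤ 1 ∧ 2 * δ * Real.sqrt (max B 0) ≤ η / 6 ∧
      δ * (6 * 9072 / η ^ 4) ≤ ρ := by
    refine ⟨min 1 (min (η / (12 * (Real.sqrt (max B 0) + 1))) (ρ * η ^ 4 / (6 * 9072))), ?_,
      min_le_left _ _, ?_, ?_⟩
    · have := Real.sqrt_nonneg (max B 0)
      apply lt_min one_pos (lt_min _ _) <;> positivity
    · have h1 := Real.sqrt_nonneg (max B 0)
      have h2 : min 1 (min (η / (12 * (Real.sqrt (max B 0) + 1))) (ρ * η ^ 4 / (6 * 9072))) ≤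
          η / (12 * (Real.sqrt (max B 0) + 1)) := (min_le_right _ _).trans (min_le_left _ _)
      calc 2 * min 1 (min (η / (12 * (Real.sqrt (max B 0) + 1))) (ρ * η ^ 4 / (6 * 9072))) *
            Real.sqrt (max B 0)
          ≤ 2 * (η / (12 * (Real.sqrt (max B 0) + 1))) * (Real.sqrt (max B 0) + 1) := by
            gcongr; linarith
        _ = η / 6 := by field_simp; norm_num
    · have h2 : min 1 (min (η / (12 * (Real.sqrt (max B 0) + 1))) (ρ * η ^ 4 / (6 * 9072))) ≤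
          ρ * η ^ 4 / (6 * 9072) := (min_le_right _ _).trans (min_le_right _ _)
      calc _ ≤ ρ * η ^ 4 / (6 * 9072) * (6 * 9072 / η ^ 4) := by gcongr
        _ = ρ := by field_simp
  obtain ⟨n1, hn1⟩ := exists_nat_gt (1 / δ)
  refine ⟨δ, hδ0, max n1 1, fun n hn ε hε0 hε1 hεB => ?_⟩
  have hκ0 := kap_nonneg hε0 hε1
  have hκB : kap ε ^ 2 * n ≤ B :=
    (mul_le_mul_of_nonneg_right (pow_le_pow_left₀ hκ0 (kap_le hε0 hε1) 2) (by positivity)).trans hεB
  set κ := kap ε with hκdef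
  have hnpos : 0 < n := le_trans (le_max_right _ _) hn
  have hnr : (0:ℝ) < n := by exact_mod_cast hnpos
  have hnδ : 1 ≤ δ * n := by
    have h1 : 1 / δ < n := hn1.trans_le (by exact_mod_cast le_trans (le_max_left _ _) hn)
    rw [div_lt_iff₀ hδ0] at h1
    linarith
  set l : ℕ := ⌊δ * n⌋₊ + 1 with hl
  have hl0 : 0 < l := Nat.succ_pos _
  have hl1 : δ * n < l := by rw [hl]; push_cast; exact Nat.lt_floor_add_one _
  have hl2 : (l:ℝ) ≤ 2 * (δ * n) := by
    rw [hl]; push_cast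
    have := Nat.floor_le (show 0 ≤ δ * n by positivity)
    linarith
  have hκl : κ * l ≤ η * Real.sqrt n / 6 := by
    have h1 : κ * Real.sqrt n ≤ Real.sqrt (max B 0) := by
      rw [← Real.sqrt_sq hκ0, ← Real.sqrt_mul (sq_nonneg _)]
      exact Real.sqrt_le_sqrt (hκB.trans (le_max_left _ _))
    calc κ * l ≤ κ * (2 * (δ * n)) := mul_le_mul_of_nonneg_left hl2 hκ0
      _ = 2 * δ * (κ * Real.sqrt n) * Real.sqrt n := by
          have := Real.mul_self_sqrt hnr.le
          calc κ * (2 * (δ * n)) = 2 * δ * κ * n := by ring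
            _ = 2 * δ * κ * (Real.sqrt n * Real.sqrt n) := by rw [this]
            _ = _ := by ring
      _ ≤ 2 * δ * Real.sqrt (max B 0) * Real.sqrt n := by gcongr
      _ ≤ η / 6 * Real.sqrt n := by gcongr
      _ = _ := by ring
  have hlam : 0 < η * Real.sqrt n / 6 := by
    have := Real.sqrt_pos.mpr hnr
    positivity
  have hdep : Dep (0 + n) (one (Osc δ η n)) := by
    apply Dep_one_of
    intro w w' h
    exact ⟨Osc_dep δ η n w w' (fun i hi => h i (by omega)),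
      Osc_dep δ η n w' w (fun i hi => (h i (by omega)).symm)⟩
  rw [← Ex_trunc (l := l) ha hε0 hε1 hdep]
  have hsub : ∀ w, one (Osc δ η n) w ≤ ∑ i ∈ Finset.range (n / l + 1),
      one (fun w => ∃ m, i * l ≤ m ∧ m ≤ i * l + l ∧
      η * Real.sqrt n / 6 ≤ |(M (w m) : ℝ) - M (w (i * l)) - κ * ((m:ℝ) - ((i * l : ℕ) : ℝ))|) w := by
    intro w
    refine le_trans (one_mono (B := fun w => ∃ i ∈ Finset.range (n / l + 1), ∃ m, i * l ≤ m ∧
      m ≤ i * l + l ∧ η * Real.sqrt n / 6 ≤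
        |(M (w m) : ℝ) - M (w (i * l)) - κ * ((m:ℝ) - ((i * l : ℕ) : ℝ))|) ?_ w)
      (one_exists_le _ _ w)
    intro w hw
    exact osc_blocks hl0 hl1 hκ0 hκl hw
  have hterm : ∀ i ∈ Finset.range (n / l + 1), Ex a ε 0 (n + l) (one (fun w => ∃ m, i * l ≤ m ∧
      m ≤ i * l + l ∧ η * Real.sqrt n / 6 ≤
        |(M (w m) : ℝ) - M (w (i * l)) - κ * ((m:ℝ) - ((i * l : ℕ) : ℝ))|)) w0 ≤
      ENNReal.ofReal (7 * l ^ 2 / (η * Real.sqrt n / 6) ^ 4) := by
    intro i hi
    rw [Finset.mem_range] at hi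
    have hile : i * l ≤ n := by
      have : i ≤ n / l := by omega
      exact (Nat.le_div_iff_mul_le hl0).mp this
    obtain ⟨r, hr⟩ := Nat.exists_eq_add_of_le hile
    have e : n + l = i * l + (l + r) := by omega
    have hd : Dep (0 + i * l + l) (one (fun w => ∃ m, i * l ≤ m ∧
      m ≤ i * l + l ∧ η * Real.sqrt n / 6 ≤
        |(M (w m) : ℝ) - M (w (i * l)) - κ * ((m:ℝ) - ((i * l : ℕ) : ℝ))|)) := by
      apply Dep_one_of
      intro w w' h
      apply exists_congr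
      intro m
      apply and_congr_right; intro h1
      apply and_congr_right; intro h2
      rw [h m (by omega), h (i * l) (by omega)]
    rw [e, Ex_tower, Ex_trunc ha hε0 hε1 hd]
    refine (Ex_mono (G := fun _ => ENNReal.ofReal (7 * l ^ 2 / (η * Real.sqrt n / 6) ^ 4)) ?_
      w0).trans ?_
    · intro w
      have := block_bound ha hc hε0 hε1 (i * l) l hlam w
      rwa [zero_add]
    · rw [Ex_const ha hε0 hε1]
  calc Ex a ε 0 (n + l) (one (Osc δ η n)) w0
      ≤ Ex a ε 0 (n + l) (fun w => ∑ i ∈ Finset.range (n / l + 1),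
          one (fun w => ∃ m, i * l ≤ m ∧ m ≤ i * l + l ∧ η * Real.sqrt n / 6 ≤
          |(M (w m) : ℝ) - M (w (i * l)) - κ * ((m:ℝ) - ((i * l : ℕ) : ℝ))|) w) w0 :=
        Ex_mono hsub w0
    _ = ∑ i ∈ Finset.range (n / l + 1), Ex a ε 0 (n + l)
          (one (fun w => ∃ m, i * l ≤ m ∧ m ≤ i * l + l ∧ η * Real.sqrt n / 6 ≤
          |(M (w m) : ℝ) - M (w (i * l)) - κ * ((m:ℝ) - ((i * l : ℕ) : ℝ))|)) w0 :=
        Ex_sum _ _ _ _ _
    _ ≤ ∑ i ∈ Finset.range (n / l + 1), ENNReal.ofReal (7 * l ^ 2 / (η * Real.sqrt n / 6) ^ 4) :=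
        Finset.sum_le_sum hterm
    _ = ENNReal.ofReal (((n / l + 1 : ℕ) : ℝ) * (7 * l ^ 2 / (η * Real.sqrt n / 6) ^ 4)) := by
        rw [Finset.sum_const, Finset.card_range, nsmul_eq_mul, ← ENNReal.ofReal_natCast,
          ← ENNReal.ofReal_mul (by positivity)]
    _ ≤ ENNReal.ofReal ρ := by
        apply ENNReal.ofReal_le_ofReal
        have h1 : (((n / l + 1 : ℕ) : ℝ)) * l ≤ 3 * n := by
          have h2 : (n / l + 1) * l ≤ n + l := by
            rw [add_mul, one_mul]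
            have := Nat.div_mul_le_self n l
            omega
          have h3 : (((n / l + 1 : ℕ) : ℝ)) * l ≤ n + l := by exact_mod_cast h2
          nlinarith
        have h4 : (Real.sqrt n) ^ 4 = (n:ℝ) ^ 2 := by
          have := Real.sq_sqrt hnr.le
          calc (Real.sqrt n) ^ 4 = ((Real.sqrt n) ^ 2) ^ 2 := by ring
            _ = _ := by rw [this]
        have h5 : (η * Real.sqrt n / 6) ^ 4 = η ^ 4 * n ^ 2 / 1296 := by
          rw [div_pow, mul_pow, h4]; norm_num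
        rw [h5]
        calc (((n / l + 1 : ℕ) : ℝ)) * (7 * l ^ 2 / (η ^ 4 * n ^ 2 / 1296))
            = ((((n / l + 1 : ℕ) : ℝ)) * l) * (l * (9072 / (η ^ 4 * n ^ 2))) := by
              field_simp
              ring
          _ ≤ (3 * n) * ((2 * (δ * n)) * (9072 / (η ^ 4 * n ^ 2))) := by gcongr
          _ = δ * (6 * 9072 / η ^ 4) := by field_simp; ring
          _ ≤ ρ := hδ3

end Pool.Agent.K9h92.BV
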