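import Pool.Agent.K9h92.BV.Fdd2
import Pool.Agent.K9h92.BV.Clock
import Pool.Agent.K9h92.BV.Walk

set_option autoImplicit false

/-!
The process in continuous time follows the jump chain at speed `s2`.
-/

open ENNReal Filter Topology MeasureTheory ProbabilityTheory

namespace Pool.Agent.K9h92.BV

variable {a : ℤ → ℝ}

/-- number of steps which is not reached before the macroscopic time `τ` -/
noncomputable def nst (a : ℤ → ℝ) (τ ε : ℝ) : ℕ := ⌈(2 * s2 a * τ + 1) / ε ^ 2⌉₊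

lemma nst_ge {τ ε : ℝ} :
    (2 * s2 a * τ + 1) / ε ^ 2 ≤ nst a τ ε := Nat.le_ceil _

lemma nst_le (ha : Jump a) {τ ε : ℝ} (hτ : 0 ≤ τ) (hε : 0 < ε) (hε1 : ε < 1) :
    (nst a τ ε : ℝ) ≤ (2 * s2 a * τ + 2) / ε ^ 2 := by
  have hs := s2_pos ha
  have h1 := (Nat.ceil_lt_add_one (show 0 ≤ (2 * s2 a * τ + 1) / ε ^ 2 by positivity)).le
  have h2 : 1 ≤ 1 / ε ^ 2 := by
    rw [le_div_iff₀ (by positivity)]; nlinarith
  calc (nst a τ ε : ℝ) ≤ (2 * s2 a * τ + 1) / ε ^ 2 + 1 := h1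
    _ ≤ (2 * s2 a * τ + 1) / ε ^ 2 + 1 / ε ^ 2 := by linarith
    _ = _ := by rw [← add_div]; ring_nf

lemma nst_tendsto (ha : Jump a) {τ : ℝ} (hτ : 0 ≤ τ) {ε : ℕ → ℝ} (hε0 : ∀ k, 0 < ε k)
    (hlim : Tendsto ε atTop (𝓝 0)) : Tendsto (fun k => nst a τ (ε k)) atTop atTop := by
  have hs := s2_pos ha
  apply tendsto_nat_ceil_atTop.comp
  have h1 : Tendsto (fun k => (ε k ^ 2)⁻¹) atTop atTop := by
    apply Tendsto.inv_tendsto_nhdsGT_zero
    rw [tendsto_nhdsWithin_iff]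
    refine ⟨by simpa using hlim.pow 2, Eventually.of_forall fun k => ?_⟩
    have := hε0 k
    simp only [Set.mem_Ioi]; positivity
  have h2 : Tendsto (fun k => (2 * s2 a * τ + 1) * (ε k ^ 2)⁻¹) atTop atTop :=
    h1.const_mul_atTop (by positivity)
  exact h2.congr fun k => by rw [div_eq_mul_inv]

lemma sq_nst (ha : Jump a) {τ ε : ℝ} (hτ : 0 ≤ τ) (hε : 0 < ε) (hε1 : ε < 1) :
    ε ^ 2 * (2 * nst a τ ε) ≤ 2 * (2 * s2 a * τ + 2) := by
  have hs := s2_pos ha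
  have h1 := nst_le ha hτ hε hε1
  calc ε ^ 2 * (2 * nst a τ ε) ≤ ε ^ 2 * (2 * ((2 * s2 a * τ + 2) / ε ^ 2)) := by gcongr
    _ = 2 * (2 * s2 a * τ + 2) := by field_simp

/-- The state of the process up to the macroscopic time `τ` is that of the chain at a time close
to `s2 * t / ε ^ 2`, and the number of inversions is small. -/
def Tracks {Ω : Type*} (a : ℤ → ℝ) (ε τ δ : ℝ) (X : ℝ → Ω → Conf) (x : ℕ → Ω → Conf) (ω : Ω) : Prop :=
  ∀ t : ℝ, 0 ≤ t → t ≤ τ → ∃ m : ℕ, m ≤ nst a τ ε ∧ X (t / ε ^ 2) ω = x m ω ∧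
    |(m:ℝ) - s2 a * (t / ε ^ 2)| ≤ δ * nst a τ ε ∧ inv (x m ω) ≤ δ * nst a τ ε ∧
    |Cr a 0 m (pth x ω) - m / s2 a| ≤ δ * nst a τ ε

/-- deterministic part -/
lemma tracks_of (ha : Jump a) {Ω : Type*} {ε τ δ δ1 : ℝ} (hε : 0 < ε) (hε1 : ε < 1) (hτ : 0 ≤ τ)
    (hδ1 : 0 < δ1) (hδ1s : δ1 ≤ 1 / (2 * s2 a)) (hδ1' : δ1 ≤ 1) (hδδ : (2 + 2 * s2 a) * δ1 ≤ δ)
    (hn : 1 ≤ δ1 * nst a τ ε) (hεδ : 2 * ε ≤ δ1)
    {X : ℝ → Ω → Conf} {x : ℕ → Ω → Conf} {e : ℕ → Ω → ℝ} {ω : Ω}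
    (hX : ∀ (n : ℕ) (t : ℝ), jumpTime a ε x e n ω ≤ t → t < jumpTime a ε x e (n + 1) ω →
      X t ω = x n ω)
    (he : ∀ n, 0 ≤ e n ω)
    (hT : ∀ m ≤ nst a τ ε, |Tn a x e m ω - m / s2 a| < δ1 * nst a τ ε)
    (hI : ∀ m ≤ nst a τ ε, inv (x m ω) < δ1 * nst a τ ε)
    (hC : ∀ m ≤ nst a τ ε, |Cr a 0 m (pth x ω) - m / s2 a| < δ1 * nst a τ ε) :
    Tracks a ε τ δ X x ω := by
  have hs := s2_pos ha
  intro t ht0 htτ
  set n := nst a τ ε with hndef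
  set t' := t / ε ^ 2 with ht'
  have hε2 : ε ≤ 1 / 2 := by linarith
  have ht'0 : 0 ≤ t' := by positivity
  have hnr : (0:ℝ) < n := by
    by_contra hc
    have : (n:ℝ) ≤ 0 := not_lt.mp hc
    nlinarith
  have hJ1 : ∀ m, Tn a x e m ω ≤ jumpTime a ε x e m ω := fun m =>
    jumpTime_ge ha hε.le hε1 x e m ω he
  have hJ2 : ∀ m, jumpTime a ε x e m ω ≤ (1 + 2 * ε) * Tn a x e m ω := fun m =>
    jumpTime_le ha hε.le hε2 x e m ω he
  have hTn0 : ∀ m, 0 ≤ Tn a x e m ω := fun m =>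
    Finset.sum_nonneg fun i _ => mul_nonneg (he i) (rr_pos ha _).le
  -- the clock passes `t'` before step `n`
  have hpass : t' < jumpTime a ε x e n ω := by
    refine lt_of_lt_of_le ?_ (hJ1 n)
    have h1 := (abs_lt.mp (hT n le_rfl)).1
    have h2 := nst_ge (a := a) (τ := τ) (ε := ε)
    rw [← hndef] at h2
    have h3 : t' ≤ τ / ε ^ 2 := div_le_div_of_nonneg_right htτ (by positivity)
    have h4 : τ / ε ^ 2 < n / (2 * s2 a) := by
      rw [lt_div_iff₀ (by positivity)]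
      calc τ / ε ^ 2 * (2 * s2 a) = 2 * s2 a * τ / ε ^ 2 := by ring
        _ < (2 * s2 a * τ + 1) / ε ^ 2 := by
            apply div_lt_div_of_pos_right _ (by positivity); linarith
        _ ≤ n := h2
    have h5 : δ1 * n ≤ n / (2 * s2 a) := by
      calc δ1 * n ≤ 1 / (2 * s2 a) * n := mul_le_mul_of_nonneg_right hδ1s hnr.le
        _ = n / (2 * s2 a) := by ring
    have h6 : (n:ℝ) / s2 a = n / (2 * s2 a) + n / (2 * s2 a) := by field_simp; ring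
    linarith
  have hex : ∃ m, t' < jumpTime a ε x e m ω := ⟨n, hpass⟩
  classical
  set m1' := Nat.find hex with hm1
  have hm1s : t' < jumpTime a ε x e m1' ω := Nat.find_spec hex
  have hm1n : m1' ≤ n := Nat.find_min' hex hpass
  have hm1pos : m1' ≠ 0 := by
    intro h0
    rw [h0] at hm1s
    simp [jumpTime] at hm1s
    linarith
  obtain ⟨m, hm⟩ := Nat.exists_eq_succ_of_ne_zero hm1pos
  have hmle : jumpTime a ε x e m ω ≤ t' := by
    have := Nat.find_min hex (show m < m1' by omega)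
    exact not_lt.mp this
  have hmn : m ≤ n := by omega
  have hδle : δ1 * n ≤ δ * n := by
    apply mul_le_mul_of_nonneg_right _ hnr.le
    nlinarith
  refine ⟨m, hmn, ?_, ?_, ?_, (hC m hmn).le.trans hδle⟩
  · apply hX m t' hmle
    rw [hm] at hm1s
    exact hm1s
  · rw [hm] at hm1s
    have h1 := abs_lt.mp (hT m hmn)
    have h2 := abs_lt.mp (hT (m + 1) (by omega))
    have h3 := hTn0 m
    have hmnr : ((m:ℝ) + 1) ≤ n := by exact_mod_cast (show m + 1 ≤ n by omega)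
    -- upper bound of `m`
    have hup : (m:ℝ) - s2 a * t' ≤ s2 a * (δ1 * n) := by
      have h4 : Tn a x e m ω ≤ t' := (hJ1 m).trans hmle
      have h5 : (m:ℝ) / s2 a ≤ t' + δ1 * n := by linarith
      rw [div_le_iff₀ hs] at h5
      nlinarith
    have hlo : s2 a * t' - m ≤ δ1 * n + s2 a * (δ1 * n) + δ1 * (n + s2 a * (δ1 * n)) := by
      have h4 : Tn a x e (m + 1) ω ≤ ((m:ℝ) + 1) / s2 a + δ1 * n := by
        have := h2.2
        push_cast at this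
        linarith
      have h5 : t' ≤ (1 + 2 * ε) * (((m:ℝ) + 1) / s2 a + δ1 * n) :=
        (hm1s.le.trans (hJ2 (m + 1))).trans (mul_le_mul_of_nonneg_left h4 (by linarith))
      have h6 : s2 a * t' ≤ (1 + 2 * ε) * (((m:ℝ) + 1) + s2 a * (δ1 * n)) := by
        calc s2 a * t' ≤ s2 a * ((1 + 2 * ε) * (((m:ℝ) + 1) / s2 a + δ1 * n)) :=
              mul_le_mul_of_nonneg_left h5 hs.le
          _ = _ := by field_simp
      have h7 : 2 * ε * (((m:ℝ) + 1) + s2 a * (δ1 * n)) ≤ δ1 * (n + s2 a * (δ1 * n)) := by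
        apply mul_le_mul hεδ _ (by positivity) hδ1.le
        linarith
      nlinarith
    have hfin : δ1 * n + s2 a * (δ1 * n) + δ1 * (n + s2 a * (δ1 * n)) ≤ δ * n := by
      have h4 : δ1 * (s2 a * (δ1 * n)) ≤ 1 * (s2 a * (δ1 * n)) :=
        mul_le_mul_of_nonneg_right hδ1' (by positivity)
      have h5 : (2 + 2 * s2 a) * δ1 * n ≤ δ * n := mul_le_mul_of_nonneg_right hδδ hnr.le
      nlinarith
    rw [abs_le]
    constructor
    · linarith
    · have : s2 a * (δ1 * n) ≤ δ * n := by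
        have : 0 ≤ δ1 * n := by positivity
        have : 0 ≤ δ1 * (n + s2 a * (δ1 * n)) := by positivity
        linarith
      linarith
  · have h1 := (hI m hmn).le
    have h2 : δ1 * n ≤ δ * n := by
      apply mul_le_mul_of_nonneg_right _ hnr.le
      nlinarith
    linarith

lemma tracks_prob (ha : Jump a) {ε : ℕ → ℝ} (hε0 : ∀ k, 0 < ε k) (hε1 : ∀ k, ε k < 1)
    (hlim : Tendsto ε atTop (𝓝 0)) {Ω : ℕ → Type*} [∀ k, MeasurableSpace (Ω k)]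
    {P : ∀ k, Measure (Ω k)} [∀ k, IsProbabilityMeasure (P k)]
    {X : ∀ k, ℝ → Ω k → Conf} {x : ∀ k, ℕ → Ω k → Conf} {e : ∀ k, ℕ → Ω k → ℝ}
    (hx : ∀ k, IsJumpChain a (ε k) (P k) (x k)) (he : ∀ k n, Measurable (e k n))
    (hlaw : ∀ k n, HasLaw (e k n) (expMeasure 1) (P k)) (hind : ∀ k, iIndepFun (e k) (P k))
    (hxe : ∀ k, IndepFun (fun ω n => x k n ω) (fun ω n => e k n ω) (P k))
    (hX : ∀ k, ∀ᵐ ω ∂(P k), ∀ (n : ℕ) (t : ℝ), jumpTime a (ε k) (x k) (e k) n ω ≤ t →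
      t < jumpTime a (ε k) (x k) (e k) (n + 1) ω → X k t ω = x k n ω)
    {τ δ : ℝ} (hτ : 0 ≤ τ) (hδ : 0 < δ) :
    Tendsto (fun k => P k {ω | ¬ Tracks a (ε k) τ δ (X k) (x k) ω}) atTop (𝓝 0) := by
  have hs := s2_pos ha
  obtain ⟨δ1, hδ1, hδ1s, hδ1', hδδ⟩ : ∃ δ1 : ℝ, 0 < δ1 ∧ δ1 ≤ 1 / (2 * s2 a) ∧ δ1 ≤ 1 ∧
      (2 + 2 * s2 a) * δ1 ≤ δ := by
    refine ⟨min (1 / (2 * s2 a)) (min 1 (δ / (2 + 2 * s2 a))), ?_, min_le_left _ _,
      (min_le_right _ _).trans (min_le_left _ _), ?_⟩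
    · apply lt_min (by positivity) (lt_min one_pos (by positivity))
    · have : min (1 / (2 * s2 a)) (min 1 (δ / (2 + 2 * s2 a))) ≤ δ / (2 + 2 * s2 a) :=
        (min_le_right _ _).trans (min_le_right _ _)
      calc (2 + 2 * s2 a) * min (1 / (2 * s2 a)) (min 1 (δ / (2 + 2 * s2 a)))
          ≤ (2 + 2 * s2 a) * (δ / (2 + 2 * s2 a)) := by gcongr
        _ = δ := by field_simp
  rw [ENNReal.tendsto_nhds_zero]
  intro η hη
  obtain ⟨η', hη'0, hη'⟩ : ∃ η' : ℝ, 0 < η' ∧ ENNReal.ofReal η' ≤ η := by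
    rcases eq_or_ne η ⊤ with h | h
    · exact ⟨1, one_pos, by rw [h]; exact le_top⟩
    · exact ⟨η.toReal, ENNReal.toReal_pos hη.ne' h, (ENNReal.ofReal_toReal h).le⟩
  obtain ⟨n1, h1⟩ := time_lln.{_} ha (B := 2 * (2 * s2 a * τ + 2)) hδ1 (half_pos hη'0)
  obtain ⟨n2, h2⟩ := bad_small (B := 2 * (2 * s2 a * τ + 2)) ha hδ1 (half_pos hη'0)
  have ev1 : ∀ᶠ k in atTop, max n1 n2 ≤ nst a τ (ε k) :=
    (nst_tendsto ha hτ hε0 hlim).eventually_ge_atTop _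
  have ev2 : ∀ᶠ k in atTop, 1 ≤ δ1 * nst a τ (ε k) := by
    have h3 : Tendsto (fun k => δ1 * (nst a τ (ε k) : ℝ)) atTop atTop :=
      (tendsto_natCast_atTop_atTop.comp (nst_tendsto ha hτ hε0 hlim)).const_mul_atTop hδ1
    exact h3.eventually_ge_atTop _
  have ev3 : ∀ᶠ k in atTop, 2 * ε k ≤ δ1 := by
    have h3 : Tendsto (fun k => 2 * ε k) atTop (𝓝 0) := by simpa using hlim.const_mul 2
    exact (h3.eventually (gt_mem_nhds hδ1)).mono fun k hk => hk.le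
  filter_upwards [ev1, ev2, ev3] with k hk1 hk2 hk3
  have hB := sq_nst ha hτ (hε0 k) (hε1 k)
  have hε2 : ε k ≤ 1 / 2 := by linarith
  have p1 := h1 (nst a τ (ε k)) (le_trans (le_max_left _ _) hk1) (ε k) (hε0 k).le hε2 hB
    (hx k) (he k) (hlaw k) (hind k) (hxe k)
  have hA : ∀ w w' : Pth, (∀ i ≤ nst a τ (ε k), w i = w' i) →
      (Bad a δ1 (nst a τ (ε k)) w ↔ Bad a δ1 (nst a τ (ε k)) w') := by
    have : ∀ w w' : Pth, (∀ i ≤ nst a τ (ε k), w i = w' i) →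
      (Bad a δ1 (nst a τ (ε k)) w → Bad a δ1 (nst a τ (ε k)) w') := by
      intro w w' hw
      rintro ⟨m, hm, h⟩
      refine ⟨m, hm, ?_⟩
      rw [← hw m hm, ← Cr_dep' 0 m w w' (fun i hi => (hw i (by omega)))]
      exact h
    intro w w' hw
    exact ⟨this w w' hw, this w' w (fun i hi => (hw i hi).symm)⟩
  have p2 : P k {ω | Bad a δ1 (nst a τ (ε k)) (pth (x k) ω)} ≤ ENNReal.ofReal (η' / 2) := by
    rw [chain_prob ha (hε0 k).le (hε1 k) (hx k) _ hA]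
    refine h2 _ (le_trans (le_max_right _ _) hk1) _ (hε0 k).le hε2 (le_trans ?_ hB)
    have : 0 ≤ ε k ^ 2 * (nst a τ (ε k) : ℝ) := by positivity
    nlinarith
  have hsub : {ω | ¬ Tracks a (ε k) τ δ (X k) (x k) ω} ≤ᵐ[P k]
      ({ω | ∃ m ≤ nst a τ (ε k), δ1 * nst a τ (ε k) ≤ |Tn a (x k) (e k) m ω - m / s2 a|} ∪
        {ω | Bad a δ1 (nst a τ (ε k)) (pth (x k) ω)} : Set (Ω k)) := by
    filter_upwards [hX k, e_nonneg (hlaw k)] with ω hω1 hω2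
    intro hnot
    by_contra hc
    apply hnot
    apply tracks_of ha (hε0 k) (hε1 k) hτ hδ1 hδ1s hδ1' hδδ hk2 hk3 hω1 hω2
    · intro m hm
      by_contra hcon
      exact hc (Or.inl ⟨m, hm, not_lt.mp hcon⟩)
    · intro m hm
      by_contra hcon
      exact hc (Or.inr ⟨m, hm, Or.inl (not_lt.mp hcon)⟩)
    · intro m hm
      by_contra hcon
      exact hc (Or.inr ⟨m, hm, Or.inr (not_lt.mp hcon)⟩)
  calc P k {ω | ¬ Tracks a (ε k) τ δ (X k) (x k) ω} ≤ _ := measure_mono_ae hsub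
    _ ≤ ENNReal.ofReal (η' / 2) + ENNReal.ofReal (η' / 2) :=
        (measure_union_le _ _).trans (add_le_add p1 p2)
    _ = ENNReal.ofReal η' := by
        rw [← ENNReal.ofReal_add (by positivity) (by positivity)]; congr 1; ring
    _ ≤ η := hη'

end Pool.Agent.K9h92.BV
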