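import Pool.Agent.K9h92.BV.Far

set_option autoImplicit false

/-!
The interface is short compared with the diffusive scale, uniformly in time.
-/

open ENNReal Filter Topology

namespace Pool.Agent.K9h92.BV

variable {a : ℤ → ℝ}

/-- estimate over one window from a good state -/
lemma win_est (ha : Jump a) (h3 : Thd a) : ∃ C : ℝ, 0 < C ∧ ∀ (A δ κ : ℝ) (h L k m : ℕ) (w : Pth),
    0 < A → 0 < δ → 0 < h → 0 < L → 2 * (h:ℝ) ≤ κ → Good A δ (w k) →
    Ex a 0 k m (one fun w => ∃ i, k ≤ i ∧ i ≤ k + m ∧ (farL (w i) κ ∨ farR (w i) κ)) w ≤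
      ENNReal.ofReal (C * (δ ^ 2 * A + (L + m / L) * (δ * A + m) + m * h * BL a h) / h ^ 3) := by
  obtain ⟨C1, hC1, h1⟩ := inv_sum ha h3
  have hs := s2_pos ha
  have hm := m1_pos ha
  refine ⟨4 + 4 * s2 a * C1 + 1 / m1 a, by positivity,
    fun A δ κ h L k m w hA hδ hh hL hhκ hg => ?_⟩
  have hhr : (0:ℝ) < h := by exact_mod_cast hh
  have hLr : (0:ℝ) < L := by exact_mod_cast hL
  have hB := BL_nonneg ha h
  set g : Conf → ℝ≥0∞ := fun D => ENNReal.ofReal (2 * s2 a) * ENNReal.ofReal (rr a D * inv D) +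
        ENNReal.ofReal (h * BL a h / m1 a) with hgdef
  have hmax := lyap_max ha (G := fun D => ENNReal.ofReal (H (sqw h) D)) (g := g)
    (fun D => sqw_step ha h3 hh D) (ENNReal.ofReal ((h:ℝ) ^ 3)) k m w
  have hsum : Ex a 0 k m (Sm g k m) w ≤ ENNReal.ofReal (2 * s2 a *
      (C1 * (L + m / L) * (2 * δ * A + m)) + m * (h * BL a h / m1 a)) := by
    have e1 : Sm g k m = (fun w => ENNReal.ofReal (2 * s2 a) *
        Sm (fun D => ENNReal.ofReal (rr a D * inv D)) k m w) +
        fun _ => m * ENNReal.ofReal (h * BL a h / m1 a) := by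
      funext w
      rw [hgdef, Sm_add, Sm_smul, Pi.add_apply]
      congr 1
      unfold Sm
      rw [Finset.sum_const, Finset.card_range, nsmul_eq_mul]
    rw [e1, Ex_add, Pi.add_apply, congrFun (Ex_smul k m _ _) w, Ex_const ha le_rfl one_pos]
    have hH : H (ps L) (w k) ≤ 2 * δ * A := good_ps hδ.le hg L
    have hH0 : 0 ≤ H (ps L) (w k) := H_nonneg (ps_nonneg L) _
    have h4 : Ex a 0 k m (Sm (fun D => ENNReal.ofReal (rr a D * inv D)) k m) w ≤
        ENNReal.ofReal (C1 * (L + m / L) * (2 * δ * A + m)) := by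
      refine (h1 L k m w hL).trans (ENNReal.ofReal_le_ofReal ?_)
      gcongr
    calc _ ≤ ENNReal.ofReal (2 * s2 a) * ENNReal.ofReal (C1 * (L + m / L) * (2 * δ * A + m)) +
          m * ENNReal.ofReal (h * BL a h / m1 a) := by gcongr
      _ = _ := by
          rw [← ENNReal.ofReal_natCast, ← ENNReal.ofReal_mul (by positivity),
            ← ENNReal.ofReal_mul (by positivity), ← ENNReal.ofReal_add (by positivity) (by positivity)]
  have hHs : H (sqw h) (w k) ≤ 4 * δ ^ 2 * A := good_sqw hδ.le hg h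
  have hev : Ex a 0 k m (one fun w => ∃ i, k ≤ i ∧ i ≤ k + m ∧ (farL (w i) κ ∨ farR (w i) κ)) w ≤
      Ex a 0 k m (one fun w => ∃ i, k ≤ i ∧ i ≤ k + m ∧ ENNReal.ofReal ((h:ℝ) ^ 3) ≤
        (fun D => ENNReal.ofReal (H (sqw h) D)) (w i)) w := by
    apply Ex_mono
    apply one_mono
    rintro w ⟨i, hi1, hi2, hi3⟩
    exact ⟨i, hi1, hi2, ENNReal.ofReal_le_ofReal (far_sqw' hi3 hhκ)⟩
  refine hev.trans ?_
  have hc : ENNReal.ofReal ((h:ℝ) ^ 3) ≠ 0 := by
    rw [Ne, ENNReal.ofReal_eq_zero, not_le]; positivity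
  have h5 := hmax.trans (add_le_add (ENNReal.ofReal_le_ofReal hHs) hsum)
  rw [← ENNReal.ofReal_add (by positivity) (by positivity), mul_comm,
    ← ENNReal.le_div_iff_mul_le (Or.inl hc) (Or.inl ENNReal.ofReal_ne_top),
    ← ENNReal.ofReal_div_of_pos (by positivity)] at h5
  refine h5.trans (ENNReal.ofReal_le_ofReal ?_)
  apply div_le_div_of_nonneg_right _ (by positivity)
  have x1 : 0 ≤ δ ^ 2 * A := by positivity
  have x2 : 0 ≤ ((L:ℝ) + m / L) * (δ * A + m) := by positivity
  have x3 : 0 ≤ (m:ℝ) * h * BL a h := by positivity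
  have y1 : 2 * s2 a * (C1 * (L + m / L) * (2 * δ * A + m)) ≤
      4 * s2 a * C1 * (((L:ℝ) + m / L) * (δ * A + m)) := by
    have : 2 * δ * A + m ≤ 2 * (δ * A + m) := by
      have : (0:ℝ) ≤ m := by positivity
      linarith
    calc 2 * s2 a * (C1 * (L + m / L) * (2 * δ * A + m)) ≤
          2 * s2 a * (C1 * (L + m / L) * (2 * (δ * A + m))) := by gcongr
      _ = _ := by ring
  have y2 : (m:ℝ) * (h * BL a h / m1 a) = 1 / m1 a * (m * h * BL a h) := by ring
  rw [y2]
  have z1 : 0 < s2 a * C1 := by positivity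
  have z2 : 0 < 1 / m1 a := by positivity
  nlinarith [mul_nonneg z1.le x1, mul_nonneg z2.le x1, mul_nonneg z2.le x2, mul_nonneg z1.le x3]

section cover

variable {A δ : ℝ} {Big : Conf → Prop} {q : ℝ≥0∞} {wd : ℕ}

/-- first good time in the window -/
def FG (A δ : ℝ) (b s : ℕ) (w : Pth) : Prop :=
  Good A δ (w s) ∧ ∀ s', b ≤ s' → s' < s → ¬ Good A δ (w s')

lemma FG_dep (A δ : ℝ) (b s : ℕ) : Dep s (one (FG A δ b s)) := by
  apply Dep_one_of
  intro w w' hw
  unfold FG
  rw [hw s le_rfl]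
  apply and_congr_right
  intro _
  apply forall_congr'
  intro s'
  apply forall_congr'
  intro _
  constructor
  · intro h h2; rw [← hw s' h2.le]; exact h h2
  · intro h h2; rw [hw s' h2.le]; exact h h2

lemma win_one (ha : Jump a)
    (hq : ∀ (k : ℕ) (w : Pth), Good A δ (w k) → Ex a 0 k (2 * wd)
      (one fun w => ∃ i, k ≤ i ∧ i ≤ k + 2 * wd ∧ Big (w i)) w ≤ q)
    (j T : ℕ) (hT : (j + 3) * wd ≤ T) :
    Ex a 0 0 T (one fun w => ∃ s ∈ Finset.Ico (j * wd) ((j + 1) * wd), FG A δ (j * wd) s w ∧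
      ∃ i, s ≤ i ∧ i ≤ s + 2 * wd ∧ Big (w i)) w0 ≤ q := by
  set S := Finset.Ico (j * wd) ((j + 1) * wd) with hS
  have h1 : ∀ w, one (fun w => ∃ s ∈ S, FG A δ (j * wd) s w ∧
      ∃ i, s ≤ i ∧ i ≤ s + 2 * wd ∧ Big (w i)) w ≤
      ∑ s ∈ S, (fun w => one (FG A δ (j * wd) s) w *
        one (fun w => ∃ i, s ≤ i ∧ i ≤ s + 2 * wd ∧ Big (w i)) w) w := by
    intro w
    refine (one_exists_le S _ w).trans (Finset.sum_le_sum fun s _ => ?_)
    by_cases h : FG A δ (j * wd) s w ∧ ∃ i, s ≤ i ∧ i ≤ s + 2 * wd ∧ Big (w i)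
    · beta_reduce
      rw [one_of h, one_of h.1, one_of (A := fun w => ∃ i, s ≤ i ∧ i ≤ s + 2 * wd ∧ Big (w i)) h.2]
      simp
    · rw [one_of_not h]; exact zero_le
  refine (Ex_mono h1 w0).trans ?_
  rw [Ex_sum]
  have h2 : ∀ s ∈ S, Ex a 0 0 T (fun w => one (FG A δ (j * wd) s) w *
      one (fun w => ∃ i, s ≤ i ∧ i ≤ s + 2 * wd ∧ Big (w i)) w) w0 ≤
      q * Ex a 0 0 T (one (FG A δ (j * wd) s)) w0 := by
    intro s hs
    rw [hS, Finset.mem_Ico] at hs
    have hs2 : s + 2 * wd ≤ T := by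
      have : (j + 3) * wd = (j + 1) * wd + 2 * wd := by ring
      omega
    obtain ⟨l, hl⟩ := Nat.exists_eq_add_of_le hs2
    have hd : Dep (s + 2 * wd) (one fun w => ∃ i, s ≤ i ∧ i ≤ s + 2 * wd ∧ Big (w i)) := by
      apply Dep_one_of
      intro w w' hw
      apply exists_congr
      intro i
      apply and_congr_right
      intro _
      apply and_congr_right
      intro hi
      rw [hw i hi]
    have e1 : Ex a 0 0 T (fun w => one (FG A δ (j * wd) s) w *
        one (fun w => ∃ i, s ≤ i ∧ i ≤ s + 2 * wd ∧ Big (w i)) w) =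
        Ex a 0 0 s (fun w => one (FG A δ (j * wd) s) w *
          Ex a 0 s (2 * wd) (one fun w => ∃ i, s ≤ i ∧ i ≤ s + 2 * wd ∧ Big (w i)) w) := by
      rw [hl, add_assoc, Ex_tower, zero_add, Ex_mul (FG_dep A δ _ s), Ex_trunc ha le_rfl one_pos hd]
    have e2 : Ex a 0 0 T (one (FG A δ (j * wd) s)) = Ex a 0 0 s (one (FG A δ (j * wd) s)) := by
      rw [hl, add_assoc, Ex_trunc ha le_rfl one_pos]
      rw [zero_add]; exact FG_dep A δ _ s
    rw [e1, e2, ← congrFun (Ex_smul 0 s q _) w0]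
    apply Ex_mono
    intro w
    by_cases h : FG A δ (j * wd) s w
    · rw [one_of h, one_mul, mul_one]; exact hq s w h.1
    · rw [one_of_not h, zero_mul]; exact zero_le
  refine (Finset.sum_le_sum h2).trans ?_
  rw [← Finset.mul_sum, ← Ex_sum]
  have h4 : ∀ w, ∑ s ∈ S, one (FG A δ (j * wd) s) w ≤ 1 := by
    intro w
    by_cases h : ∃ s ∈ S, FG A δ (j * wd) s w
    · obtain ⟨s, hs, hF⟩ := h
      rw [Finset.sum_eq_single s]
      · exact one_le_one _ _
      · intro t ht hne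
        apply one_of_not
        intro hF2
        rw [hS, Finset.mem_Ico] at hs ht
        rcases lt_or_gt_of_ne hne with hlt | hlt
        · exact hF.2 t ht.1 hlt hF2.1
        · exact hF2.2 s hs.1 hlt hF.1
      · intro hn; exact absurd hs hn
    · push Not at h
      rw [Finset.sum_eq_zero]
      · exact zero_le
      · intro s hs; exact one_of_not (h s hs)
  calc q * Ex a 0 0 T (fun w => ∑ s ∈ S, one (FG A δ (j * wd) s) w) w0
      ≤ q * Ex a 0 0 T (fun _ => 1) w0 := by gcongr; exact Ex_mono h4 w0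
    _ = q := by rw [Ex_const ha le_rfl one_pos, mul_one]

lemma win_cover (ha : Jump a) (hA : 0 < A) (hδ : 0 < δ)
    (hq : ∀ (k : ℕ) (w : Pth), Good A δ (w k) → Ex a 0 k (2 * wd)
      (one fun w => ∃ i, k ≤ i ∧ i ≤ k + 2 * wd ∧ Big (w i)) w ≤ q) (J : ℕ) :
    Ex a 0 0 ((J + 3) * wd) (one fun w => ∃ m < (J + 1) * wd, Big (w m)) w0 ≤
      (J + 1) * q + Ex a 0 0 ((J + 3) * wd) (one fun w => ∃ j ≤ J, ∀ s, j * wd ≤ s →
        s < (j + 1) * wd → ¬ Good A δ (w s)) w0 := by
  classical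
  set T := (J + 3) * wd with hT
  set E0 : Pth → Prop := fun w => ∃ i, 0 ≤ i ∧ i ≤ 0 + 2 * wd ∧ Big (w i) with hE0
  set E : ℕ → Pth → Prop := fun j w => ∃ s ∈ Finset.Ico (j * wd) ((j + 1) * wd),
    FG A δ (j * wd) s w ∧ ∃ i, s ≤ i ∧ i ≤ s + 2 * wd ∧ Big (w i) with hE
  set NG : Pth → Prop := fun w => ∃ j ≤ J, ∀ s, j * wd ≤ s → s < (j + 1) * wd → ¬ Good A δ (w s)
    with hNG
  have hcov : ∀ w, one (fun w => ∃ m < (J + 1) * wd, Big (w m)) w ≤
      (((one E0) + fun w => ∑ j ∈ Finset.range J, one (E j) w) + one NG) w := by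
    intro w
    by_cases h : ∃ m < (J + 1) * wd, Big (w m)
    swap
    · rw [one_of_not h]; exact zero_le
    rw [one_of h, Pi.add_apply, Pi.add_apply]
    by_cases hng : NG w
    · rw [one_of hng]; exact le_add_self
    refine le_trans ?_ le_self_add
    obtain ⟨m, hm, hB⟩ := h
    have hwd : 0 < wd := by
      rcases Nat.eq_zero_or_pos wd with h0 | h0
      · subst h0; simp at hm
      · exact h0
    set j := m / wd with hj
    have hj1 : j * wd ≤ m := Nat.div_mul_le_self m wd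
    have hj2 : m < (j + 1) * wd := by
      have h3 := Nat.div_add_mod m wd
      have h4 := Nat.mod_lt m hwd
      rw [← hj] at h3
      rw [add_mul, one_mul, mul_comm j]
      omega
    have hjJ : j < J + 1 := Nat.div_lt_of_lt_mul (by rwa [mul_comm] at hm)
    rcases Nat.eq_zero_or_pos j with hj0 | hj0
    · have : E0 w := ⟨m, Nat.zero_le _, by rw [hj0] at hj2; omega, hB⟩
      rw [one_of this]; exact le_self_add
    · have hex : ∃ s, (j - 1) * wd ≤ s ∧ s < (j - 1 + 1) * wd ∧ Good A δ (w s) := by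
        by_contra hc
        push Not at hc
        exact hng ⟨j - 1, by omega, hc⟩
      set s := Nat.find hex with hs
      have hs1 := Nat.find_spec hex
      rw [← hs] at hs1
      have hs2 : ∀ s' < s, ¬ ((j - 1) * wd ≤ s' ∧ s' < (j - 1 + 1) * wd ∧ Good A δ (w s')) :=
        fun s' h' => Nat.find_min hex h'
      have hjj : j - 1 + 1 = j := by omega
      have hEj : E (j - 1) w := by
        refine ⟨s, Finset.mem_Ico.mpr ⟨hs1.1, hs1.2.1⟩, ⟨hs1.2.2, ?_⟩, m, ?_, ?_, hB⟩
        · intro s' h1 h2 h3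
          exact hs2 s' h2 ⟨h1, h2.trans hs1.2.1, h3⟩
        · have := hs1.2.1
          rw [hjj] at this
          omega
        · have h5 : (j + 1) * wd = (j - 1) * wd + 2 * wd := by
            obtain ⟨t, ht⟩ : ∃ t, j = t + 1 := ⟨j - 1, by omega⟩
            rw [ht]; simp; ring
          have := hs1.1
          omega
      refine le_trans ?_ le_add_self
      calc (1:ℝ≥0∞) = one (E (j - 1)) w := (one_of hEj).symm
        _ ≤ _ := Finset.single_le_sum (f := fun j => one (E j) w) (fun _ _ => zero_le)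
            (Finset.mem_range.mpr (by omega))
  refine (Ex_mono hcov w0).trans ?_
  rw [Ex_add, Ex_add, Pi.add_apply, Pi.add_apply, Ex_sum]
  gcongr
  have hE0q : Ex a 0 0 T (one E0) w0 ≤ q := by
    have hT2 : T = 2 * wd + (J + 1) * wd := by rw [hT]; ring
    rw [hT2, Ex_trunc ha le_rfl one_pos]
    · exact hq 0 w0 (good_empty hA hδ)
    · apply Dep_one_of
      intro w w' hw
      apply exists_congr
      intro i
      apply and_congr_right
      intro _
      apply and_congr_right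
      intro hi
      rw [hw i hi]
  have hEq : ∀ j ∈ Finset.range J, Ex a 0 0 T (one (E j)) w0 ≤ q := by
    intro j hj
    rw [Finset.mem_range] at hj
    apply win_one ha hq
    rw [hT]
    apply Nat.mul_le_mul_right
    omega
  calc Ex a 0 0 T (one E0) w0 + ∑ j ∈ Finset.range J, Ex a 0 0 T (one (E j)) w0
      ≤ q + ∑ j ∈ Finset.range J, q := add_le_add hE0q (Finset.sum_le_sum hEq)
    _ = (J + 1) * q := by
        rw [Finset.sum_const, Finset.card_range, nsmul_eq_mul]; ring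

/-- windows without a good time -/
lemma win_bad (ha : Jump a) (A δ : ℝ) {c : ℝ} {J T : ℕ} (hwd : 0 < wd) (hT : (J + 1) * wd ≤ T)
    (hc : c * T ≤ wd / (4 * s2 a)) :
    Ex a 0 0 T (one fun w => ∃ j ≤ J, ∀ s, j * wd ≤ s → s < (j + 1) * wd → ¬ Good A δ (w s)) w0 ≤
      Ex a 0 0 T (one fun w => ∃ m ≤ T, c * T ≤ |Cr a 0 m w - m / s2 a|) w0 +
      ENNReal.ofReal (2 * s2 a / wd) * Ex a 0 0 T (Sm (rbad a A δ) 0 T) w0 := by
  classical
  have hs := s2_pos ha
  have hwdr : (0:ℝ) < wd := by exact_mod_cast hwd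
  have h1 : ∀ w, one (fun w => ∃ j ≤ J, ∀ s, j * wd ≤ s → s < (j + 1) * wd → ¬ Good A δ (w s)) w ≤
      ((one fun w => ∃ m ≤ T, c * T ≤ |Cr a 0 m w - m / s2 a|) +
        fun w => ENNReal.ofReal (2 * s2 a / wd) * Sm (rbad a A δ) 0 T w) w := by
    intro w
    rw [Pi.add_apply]
    by_cases h : ∃ j ≤ J, ∀ s, j * wd ≤ s → s < (j + 1) * wd → ¬ Good A δ (w s)
    swap
    · rw [one_of_not h]; exact zero_le
    rw [one_of h]
    by_cases hcl : ∃ m ≤ T, c * T ≤ |Cr a 0 m w - m / s2 a|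
    · rw [one_of (A := fun w => ∃ m ≤ T, c * T ≤ |Cr a 0 m w - m / s2 a|) hcl]; exact le_self_add
    refine le_trans ?_ le_add_self
    push Not at hcl
    obtain ⟨j, hj, hb⟩ := h
    have hjT : (j + 1) * wd ≤ T := (Nat.mul_le_mul_right wd (by omega)).trans hT
    have e0 : (j + 1) * wd = j * wd + wd := by ring
    have c1 := hcl (j * wd) (by omega)
    have c2 := hcl (j * wd + wd) (by omega)
    -- clock in the window
    have h2 : Cr a 0 (j * wd + wd) w = Cr a 0 (j * wd) w +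
        ∑ i ∈ Finset.range wd, rr a (w (j * wd + i)) := by
      unfold Cr
      rw [Finset.sum_range_add]
      simp only [zero_add]
    have h3 : (wd:ℝ) / (2 * s2 a) ≤ ∑ i ∈ Finset.range wd, rr a (w (j * wd + i)) := by
      rw [abs_lt] at c1 c2
      have e1 : (((j * wd + wd : ℕ)) : ℝ) / s2 a = ((j * wd : ℕ) : ℝ) / s2 a + wd / s2 a := by
        push_cast; ring
      rw [e1, h2] at c2
      have e2 : (wd:ℝ) / (2 * s2 a) = wd / s2 a - 2 * (wd / (4 * s2 a)) := by field_simp; ring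
      rw [e2]
      linarith [c1.2, c2.1]
    have h4 : ENNReal.ofReal (wd / (2 * s2 a)) ≤ Sm (rbad a A δ) 0 T w := by
      calc ENNReal.ofReal (wd / (2 * s2 a)) ≤
            ENNReal.ofReal (∑ i ∈ Finset.range wd, rr a (w (j * wd + i))) := ENNReal.ofReal_le_ofReal h3
        _ = ∑ i ∈ Finset.range wd, ENNReal.ofReal (rr a (w (j * wd + i))) :=
            ENNReal.ofReal_sum_of_nonneg fun i _ => (rr_pos ha _).le
        _ = ∑ i ∈ Finset.range wd, rbad a A δ (w (j * wd + i)) := by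
            apply Finset.sum_congr rfl
            intro i hi
            rw [Finset.mem_range] at hi
            unfold rbad
            rw [if_neg (hb _ (by omega) (by omega))]
        _ = ∑ s ∈ Finset.Ico (j * wd) (j * wd + wd), rbad a A δ (w s) := by
            rw [Finset.sum_Ico_eq_sum_range]
            simp
        _ ≤ ∑ s ∈ Finset.range T, rbad a A δ (w s) := by
            apply Finset.sum_le_sum_of_subset
            intro s hs
            rw [Finset.mem_Ico] at hs
            rw [Finset.mem_range]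
            omega
        _ = Sm (rbad a A δ) 0 T w := by unfold Sm; simp only [zero_add]
    calc (1:ℝ≥0∞) = ENNReal.ofReal (2 * s2 a / wd) * ENNReal.ofReal (wd / (2 * s2 a)) := by
          rw [← ENNReal.ofReal_mul (by positivity)]
          have : 2 * s2 a / wd * (wd / (2 * s2 a)) = 1 := by field_simp
          rw [this, ENNReal.ofReal_one]
      _ ≤ _ := by gcongr
  refine (Ex_mono h1 w0).trans ?_
  rw [Ex_add, Pi.add_apply, congrFun (Ex_smul 0 T _ _) w0]

end cover

end Pool.Agent.K9h92.BV
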