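import Pool.Agent.K9h92.BV.Drift2

set_option autoImplicit false

/-!
Windows of time for kernels with a light tail.
-/

open ENNReal Filter Topology

namespace Pool.Agent.K9h92.BV

variable {a : ℤ → ℝ}

/-- the clock time spent outside the good states, started from the Heaviside state -/
lemma rbad_mean2 (ha : Jump a) : ∃ C : ℝ, 0 < C ∧ ∀ (μ A δ : ℝ) (K h L n : ℕ),
    1 + mt a L ≤ μ → 0 < A → 0 < h → 0 < L → 2 * (h:ℝ) ≤ δ → A ≤ (K + 1) * h →
    Ex a 0 0 n (Sm (rbad a A δ) 0 n) w0 ≤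
      ENNReal.ofReal (C * ((L + n / L) * (n * μ) / A + K * (K ^ 2 + n) / h)) := by
  obtain ⟨C1, hC1, h1⟩ := inv_sum2 ha
  obtain ⟨C2, hC2, h2⟩ := gap_mean ha
  refine ⟨C1 + 2 * C2, by positivity, fun μ A δ K h L n hμ hA hh hL hhδ hK => ?_⟩
  have hhr : (0:ℝ) < h := by exact_mod_cast hh
  have hLr : (0:ℝ) < L := by exact_mod_cast hL
  have hμ0 : 0 < μ := by have := mt_nonneg ha L; linarith
  have e1 : ∀ w, Sm (rbad a A δ) 0 n w ≤
      ((fun w => ENNReal.ofReal (1 / A) * Sm (fun D => ENNReal.ofReal (rr a D * inv D)) 0 n w) +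
      ((fun w => ENNReal.ofReal (1 / h) * Sm (fun D => ENNReal.ofReal (rr a D * gap K D)) 0 n w) +
      fun w => ENNReal.ofReal (1 / h) * Sm (fun D => ENNReal.ofReal (rr a D * gap K (refl D))) 0 n w)) w := by
    intro w
    refine (Sm_mono (rbad_le ha hA hh hhδ hK) 0 n w).trans (le_of_eq ?_)
    rw [Sm_add, Sm_add, Sm_smul, Sm_smul, Sm_smul]
    rfl
  refine (Ex_mono e1 w0).trans ?_
  rw [Ex_add, Pi.add_apply, Ex_add, Pi.add_apply, congrFun (Ex_smul 0 n _ _) w0,
    congrFun (Ex_smul 0 n _ _) w0, congrFun (Ex_smul 0 n _ _) w0]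
  have b1 := h1 μ L 0 n w0 hL hμ
  have b0 : H (ps L) (w0 0) = 0 := H_empty (ps_zero L)
  rw [b0, zero_add] at b1
  obtain ⟨b2, b3⟩ := h2 K n
  calc _ ≤ ENNReal.ofReal (1 / A) * ENNReal.ofReal (C1 * (L + n / L) * (n * μ)) +
        (ENNReal.ofReal (1 / h) * ENNReal.ofReal (C2 * K * (K ^ 2 + n)) +
          ENNReal.ofReal (1 / h) * ENNReal.ofReal (C2 * K * (K ^ 2 + n))) := by gcongr
    _ = ENNReal.ofReal (1 / A * (C1 * (L + n / L) * (n * μ)) + (1 / h * (C2 * K * (K ^ 2 + n)) +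
          1 / h * (C2 * K * (K ^ 2 + n)))) := by
        rw [← ENNReal.ofReal_mul (by positivity), ← ENNReal.ofReal_mul (by positivity),
          ← ENNReal.ofReal_add (by positivity) (by positivity),
          ← ENNReal.ofReal_add (by positivity) (by positivity)]
    _ ≤ _ := by
        apply ENNReal.ofReal_le_ofReal
        have x1 : 0 ≤ ((L:ℝ) + n / L) * (n * μ) / A := by positivity
        have x2 : 0 ≤ (K:ℝ) * (K ^ 2 + n) / h := by positivity
        have y1 : 1 / A * (C1 * (L + n / L) * (n * μ)) = C1 * (((L:ℝ) + n / L) * (n * μ) / A) := by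
          ring
        have y2 : 1 / (h:ℝ) * (C2 * K * (K ^ 2 + n)) = C2 * ((K:ℝ) * (K ^ 2 + n) / h) := by ring
        rw [y1, y2]
        nlinarith

/-- estimate over one window from a good state -/
lemma win_est2 (ha : Jump a) : ∃ C : ℝ, 0 < C ∧ ∀ (μ A δ κ : ℝ) (h L k m : ℕ) (w : Pth),
    1 + mt a L ≤ μ → 0 < A → 0 < δ → 0 < h → 0 < L → 2 * (h:ℝ) ≤ κ → Good A δ (w k) →
    Ex a 0 k m (one fun w => ∃ i, k ≤ i ∧ i ≤ k + m ∧ (farL (w i) κ ∨ farR (w i) κ)) w ≤
      ENNReal.ofReal (C * (δ ^ 2 * A + (L + m / L) * (δ * A + m * μ) + m * b4 a h) / h ^ 3) := by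
  obtain ⟨C1, hC1, h1⟩ := inv_sum2 ha
  have hs := s2_pos ha
  have hm := m1_pos ha
  refine ⟨4 + 4 * s2 a * C1 + 1 / m1 a, by positivity,
    fun μ A δ κ h L k m w hμ hA hδ hh hL hhκ hg => ?_⟩
  have hhr : (0:ℝ) < h := by exact_mod_cast hh
  have hLr : (0:ℝ) < L := by exact_mod_cast hL
  have hB := b4_nonneg ha h
  have hμ0 : 0 < μ := by have := mt_nonneg ha L; linarith
  set g : Conf → ℝ≥0∞ := fun D => ENNReal.ofReal (2 * s2 a) * ENNReal.ofReal (rr a D * inv D) +
        ENNReal.ofReal (b4 a h / m1 a) with hgdef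
  have hmax := lyap_max ha (G := fun D => ENNReal.ofReal (H (sqw h) D)) (g := g)
    (fun D => sqw_step2 ha h D) (ENNReal.ofReal ((h:ℝ) ^ 3)) k m w
  have hsum : Ex a 0 k m (Sm g k m) w ≤ ENNReal.ofReal (2 * s2 a *
      (C1 * (L + m / L) * (2 * δ * A + m * μ)) + m * (b4 a h / m1 a)) := by
    have e1 : Sm g k m = (fun w => ENNReal.ofReal (2 * s2 a) *
        Sm (fun D => ENNReal.ofReal (rr a D * inv D)) k m w) +
        fun _ => m * ENNReal.ofReal (b4 a h / m1 a) := by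
      funext w
      rw [hgdef, Sm_add, Sm_smul, Pi.add_apply]
      congr 1
      unfold Sm
      rw [Finset.sum_const, Finset.card_range, nsmul_eq_mul]
    rw [e1, Ex_add, Pi.add_apply, congrFun (Ex_smul k m _ _) w, Ex_const ha le_rfl one_pos]
    have hH : H (ps L) (w k) ≤ 2 * δ * A := good_ps hδ.le hg L
    have hH0 : 0 ≤ H (ps L) (w k) := H_nonneg (ps_nonneg L) _
    have h4 : Ex a 0 k m (Sm (fun D => ENNReal.ofReal (rr a D * inv D)) k m) w ≤
        ENNReal.ofReal (C1 * (L + m / L) * (2 * δ * A + m * μ)) := by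
      refine (h1 μ L k m w hL hμ).trans (ENNReal.ofReal_le_ofReal ?_)
      gcongr
    calc _ ≤ ENNReal.ofReal (2 * s2 a) * ENNReal.ofReal (C1 * (L + m / L) * (2 * δ * A + m * μ)) +
          m * ENNReal.ofReal (b4 a h / m1 a) := by gcongr
      _ = _ := by
          rw [← ENNReal.ofReal_natCast, ← ENNReal.ofReal_mul (by positivity),
            ← ENNReal.ofReal_mul (by positivity), ← ENNReal.ofReal_add (by positivity) (by positivity)]
  have hHs : H (sqw h) (w k) ≤ 4 * δ ^ 2 * A := good_sqw hδ.le hg h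
  have hev : Ex a 0 k m (one fun w => ∃ i, k ≤ i ∧ i ≤ k + m ∧ (farL (w i) κ ∨ farR (w i) κ)) w ≤
      Ex a 0 k m (one fun w => ∃ i, k ≤ i ∧ i ≤ k + m ∧ ENNReal.ofReal ((h:ℝ) ^ 3) ≤
        (fun D => ENNReal.ofReal (H (sqw h) D)) (w i)) w := by
    apply Ex_mono
    apply one_mono
    rintro w ⟨i, hi1, hi2, hi3⟩
    exact ⟨i, hi1, hi2, ENNReal.ofReal_le_ofReal (far_sqw' hi3 hhκ)⟩
  refine hev.trans ?_
  have hc : ENNReal.ofReal ((h:ℝ) ^ 3) ≠ 0 := by
    rw [Ne, ENNReal.ofReal_eq_zero, not_le]; positivity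
  have h5 := hmax.trans (add_le_add (ENNReal.ofReal_le_ofReal hHs) hsum)
  rw [← ENNReal.ofReal_add (by positivity) (by positivity), mul_comm,
    ← ENNReal.le_div_iff_mul_le (Or.inl hc) (Or.inl ENNReal.ofReal_ne_top),
    ← ENNReal.ofReal_div_of_pos (by positivity)] at h5
  refine h5.trans (ENNReal.ofReal_le_ofReal ?_)
  apply div_le_div_of_nonneg_right _ (by positivity)
  have x1 : 0 ≤ δ ^ 2 * A := by positivity
  have x2 : 0 ≤ ((L:ℝ) + m / L) * (δ * A + m * μ) := by positivity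
  have x3 : 0 ≤ (m:ℝ) * b4 a h := by positivity
  have y1 : 2 * s2 a * (C1 * (L + m / L) * (2 * δ * A + m * μ)) ≤
      4 * s2 a * C1 * (((L:ℝ) + m / L) * (δ * A + m * μ)) := by
    have : 2 * δ * A + m * μ ≤ 2 * (δ * A + m * μ) := by
      have : (0:ℝ) ≤ m * μ := by positivity
      linarith
    calc 2 * s2 a * (C1 * (L + m / L) * (2 * δ * A + m * μ)) ≤
          2 * s2 a * (C1 * (L + m / L) * (2 * (δ * A + m * μ))) := by gcongr
      _ = _ := by ring
  have y2 : (m:ℝ) * (b4 a h / m1 a) = 1 / m1 a * (m * b4 a h) := by ring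
  rw [y2]
  have z1 : 0 < s2 a * C1 := by positivity
  have z2 : 0 < 1 / m1 a := by positivity
  nlinarith [mul_nonneg z1.le x1, mul_nonneg z2.le x1, mul_nonneg z2.le x2, mul_nonneg z1.le x3]

/-- windows without a good time -/
lemma win_bad2 (ha : Jump a) (A δ : ℝ) {J T wd : ℕ} (hwd : 0 < wd) (hT : (J + 1) * wd ≤ T) :
    Ex a 0 0 T (one fun w => ∃ j ≤ J, ∀ s, j * wd ≤ s → s < (j + 1) * wd → ¬ Good A δ (w s)) w0 ≤
      (∑ j ∈ Finset.range (J + 2), Ex a 0 0 T (one fun w => wd / (4 * s2 a) ≤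
        |Cr a 0 (j * wd) w - ((j * wd : ℕ) : ℝ) / s2 a|) w0) +
      ENNReal.ofReal (2 * s2 a / wd) * Ex a 0 0 T (Sm (rbad a A δ) 0 T) w0 := by
  classical
  have hs := s2_pos ha
  have hwdr : (0:ℝ) < wd := by exact_mod_cast hwd
  have h1 : ∀ w, one (fun w => ∃ j ≤ J, ∀ s, j * wd ≤ s → s < (j + 1) * wd → ¬ Good A δ (w s)) w ≤
      ((one fun w => ∃ j ∈ Finset.range (J + 2), wd / (4 * s2 a) ≤
        |Cr a 0 (j * wd) w - ((j * wd : ℕ) : ℝ) / s2 a|) +
        fun w => ENNReal.ofReal (2 * s2 a / wd) * Sm (rbad a A δ) 0 T w) w := by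
    intro w
    rw [Pi.add_apply]
    by_cases h : ∃ j ≤ J, ∀ s, j * wd ≤ s → s < (j + 1) * wd → ¬ Good A δ (w s)
    swap
    · rw [one_of_not h]; exact zero_le
    rw [one_of h]
    by_cases hcl : ∃ j ∈ Finset.range (J + 2), wd / (4 * s2 a) ≤
        |Cr a 0 (j * wd) w - ((j * wd : ℕ) : ℝ) / s2 a|
    · rw [one_of (A := fun w => ∃ j ∈ Finset.range (J + 2), wd / (4 * s2 a) ≤
        |Cr a 0 (j * wd) w - ((j * wd : ℕ) : ℝ) / s2 a|) hcl]; exact le_self_add
    refine le_trans ?_ le_add_self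
    push Not at hcl
    obtain ⟨j, hj, hb⟩ := h
    have hjT : (j + 1) * wd ≤ T := (Nat.mul_le_mul_right wd (by omega)).trans hT
    have e0 : (j + 1) * wd = j * wd + wd := by ring
    have c1 := hcl j (Finset.mem_range.mpr (by omega))
    have c2 := hcl (j + 1) (Finset.mem_range.mpr (by omega))
    rw [e0] at c2
    -- clock in the window
    have h2 : Cr a 0 (j * wd + wd) w = Cr a 0 (j * wd) w +
        ∑ i ∈ Finset.range wd, rr a (w (j * wd + i)) := by
      unfold Cr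
      rw [Finset.sum_range_add]
      simp only [zero_add]
    have h3 : (wd:ℝ) / (2 * s2 a) ≤ ∑ i ∈ Finset.range wd, rr a (w (j * wd + i)) := by
      rw [abs_lt] at c1 c2
      have e1 : (((j * wd + wd : ℕ)) : ℝ) / s2 a = ((j * wd : ℕ) : ℝ) / s2 a + wd / s2 a := by
        push_cast; ring
      rw [e1, h2] at c2
      have e2 : (wd:ℝ) / (2 * s2 a) = wd / s2 a - 2 * (wd / (4 * s2 a)) := by field_simp; ring
      rw [e2]
      linarith [c1.2, c2.1]
    have h4 : ENNReal.ofReal (wd / (2 * s2 a)) ≤ Sm (rbad a A δ) 0 T w := by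
      calc ENNReal.ofReal (wd / (2 * s2 a)) ≤
            ENNReal.ofReal (∑ i ∈ Finset.range wd, rr a (w (j * wd + i))) := ENNReal.ofReal_le_ofReal h3
        _ = ∑ i ∈ Finset.range wd, ENNReal.ofReal (rr a (w (j * wd + i))) :=
            ENNReal.ofReal_sum_of_nonneg fun i _ => (rr_pos ha _).le
        _ = ∑ i ∈ Finset.range wd, rbad a A δ (w (j * wd + i)) := by
            apply Finset.sum_congr rfl
            intro i hi
            rw [Finset.mem_range] at hi
            unfold rbad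
            rw [if_neg (hb _ (by omega) (by omega))]
        _ = ∑ s ∈ Finset.Ico (j * wd) (j * wd + wd), rbad a A δ (w s) := by
            rw [Finset.sum_Ico_eq_sum_range]
            simp
        _ ≤ ∑ s ∈ Finset.range T, rbad a A δ (w s) := by
            apply Finset.sum_le_sum_of_subset
            intro s hs
            rw [Finset.mem_Ico] at hs
            rw [Finset.mem_range]
            omega
        _ = Sm (rbad a A δ) 0 T w := by unfold Sm; simp only [zero_add]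
    calc (1:ℝ≥0∞) = ENNReal.ofReal (2 * s2 a / wd) * ENNReal.ofReal (wd / (2 * s2 a)) := by
          rw [← ENNReal.ofReal_mul (by positivity)]
          have : 2 * s2 a / wd * (wd / (2 * s2 a)) = 1 := by field_simp
          rw [this, ENNReal.ofReal_one]
      _ ≤ _ := by gcongr
  refine (Ex_mono h1 w0).trans ?_
  rw [Ex_add, Pi.add_apply, congrFun (Ex_smul 0 T _ _) w0]
  gcongr
  rw [← Ex_sum]
  exact Ex_mono (fun w => one_exists_le _ _ w) w0

/-- mean square deviation of the clock, quantitative -/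
lemma Sq_quant (ha : Jump a) : ∃ C : ℝ, 0 < C ∧ ∀ (μ : ℝ) (L T m : ℕ), 0 < L → m ≤ T →
    1 + mt a L ≤ μ →
    (Sq a m).toReal ≤ C * (T + T * (μ * T / L + (L:ℝ) ^ 2)) := by
  obtain ⟨C1, hC1, hF⟩ := Fn_bound ha
  have hs := s2_pos ha
  have hm := m1_pos ha
  obtain ⟨C2, hC2⟩ : ∃ C2 : ℝ, C2 = (2 / s2 a) * (2 * (1 / m1 a)) + (2 / s2 a) ^ 2 := ⟨_, rfl⟩
  have hC20 : 0 < C2 := by rw [hC2]; positivity
  refine ⟨(1 / m1 a) ^ 2 + C2 * (C1 + 2), by positivity, fun μ L T m hL hmT hμ => ?_⟩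
  have hLr : (0:ℝ) < L := by exact_mod_cast hL
  have hmt := mt_nonneg ha L
  have hμ0 : 0 < μ := by linarith
  have hmT' : (m:ℝ) ≤ T := by exact_mod_cast hmT
  obtain ⟨F, hFd⟩ : ∃ F : ℝ, F = (C1 + 2) * (μ * T / L + (L:ℝ) ^ 2) := ⟨_, rfl⟩
  have hF0 : 0 ≤ F := by rw [hFd]; positivity
  have hFn : ∀ i : ℕ, i ≤ T → (Fn a i).toReal ≤ F := by
    intro i hi
    have hi' : (i:ℝ) ≤ T := by exact_mod_cast hi
    have h1 := hF L i hL
    have h2 : C1 * AL a L * i + 2 * (L:ℝ) ^ 2 ≤ F := by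
      rw [mt_eq_AL, hFd]
      have h3 : C1 * (mt a L / L) * i ≤ C1 * (μ * T / L) := by
        calc C1 * (mt a L / L) * i = C1 * (mt a L * i / L) := by ring
          _ ≤ C1 * (μ * T / L) := by
              gcongr
              linarith
      have h4 : 0 ≤ μ * T / L := by positivity
      have h5 : 0 ≤ C1 * (L:ℝ) ^ 2 := by positivity
      nlinarith
    exact ENNReal.toReal_le_of_le_ofReal hF0 (h1.trans (ENNReal.ofReal_le_ofReal h2))
  have h1 := Sq_real ha m
  have h2 : ∑ i ∈ Finset.range m, (Fn a i).toReal ≤ T * F := by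
    calc ∑ i ∈ Finset.range m, (Fn a i).toReal ≤ ∑ i ∈ Finset.range m, F := by
          apply Finset.sum_le_sum
          intro i hi
          rw [Finset.mem_range] at hi
          exact hFn i (by omega)
      _ = m * F := by rw [Finset.sum_const, Finset.card_range, nsmul_eq_mul]
      _ ≤ T * F := mul_le_mul_of_nonneg_right hmT' hF0
  calc (Sq a m).toReal ≤ m * (1 / m1 a) ^ 2 +
        (2 / s2 a) * (m * (2 * (1 / m1 a) * (Fn a m).toReal)) +
        (2 / s2 a) ^ 2 * ∑ i ∈ Finset.range m, (Fn a i).toReal := h1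
    _ ≤ T * (1 / m1 a) ^ 2 + (2 / s2 a) * (T * (2 * (1 / m1 a) * F)) + (2 / s2 a) ^ 2 * (T * F) := by
        have h3 := hFn m hmT
        gcongr
    _ = T * (1 / m1 a) ^ 2 + C2 * (T * F) := by rw [hC2]; ring
    _ = (1 / m1 a) ^ 2 * T + C2 * (C1 + 2) * (T * (μ * T / L + (L:ℝ) ^ 2)) := by rw [hFd]; ring
    _ ≤ _ := by
        have h4 : 0 ≤ (T:ℝ) * (μ * T / L + (L:ℝ) ^ 2) := by positivity
        have h5 : (0:ℝ) ≤ T := by positivity
        have h6 : 0 < C2 * (C1 + 2) := by positivity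
        have h7 : 0 < (1 / m1 a) ^ 2 := by positivity
        nlinarith [mul_nonneg h6.le h5, mul_nonneg h7.le h4]

end Pool.Agent.K9h92.BV
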